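import Pool.Agent.MP_20bec2_an.b2.Spec

-- ======== part 0: formerly Pool.Agent.MP_20bec2_an.b2.Alg
section MrgPart0

/-! Algebra of alternating tensors (project BIOM2). -/

set_option autoImplicit false

open MeasureTheory Set Metric Filter Topology

noncomputable section

namespace Pool.Agent.MP_20bec2_an.b2

open Pool.Agent.MP_20bec2_an.h7

variable {d : ℕ} {z z' : E d → E d → E d → E d → ℝ}

theorem eq_sum_ax (g : E d) : g = ∑ i, g i • ax i := by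
  ext j
  simp [ax, Finset.sum_apply, Pi.single_apply]

theorem sum_sq_eq (g : E d) : ∑ i, g i ^ 2 = ‖g‖ ^ 2 := by
  rw [EuclideanSpace.norm_sq_eq]; simp

/-- a linear functional is determined by its values on the axes -/
theorem lin_expand {φ : E d → ℝ} (h : ∀ (a b : ℝ) (g g' : E d), φ (a • g + b • g') = a * φ g + b * φ g')
    (g : E d) : φ g = ∑ i, g i * φ (ax i) := by
  let A : E d →ₗ[ℝ] ℝ :=
    { toFun := φ
      map_add' := fun x y => by simpa using h 1 1 x y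
      map_smul' := fun a x => by simpa using h a 0 x x }
  have : A g = A (∑ i, g i • ax i) := by rw [← eq_sum_ax]
  rw [map_sum] at this
  simpa [A] using this

theorem lin_sq_le {φ : E d → ℝ}
    (h : ∀ (a b : ℝ) (g g' : E d), φ (a • g + b • g') = a * φ g + b * φ g') (g : E d) :
    φ g ^ 2 ≤ ‖g‖ ^ 2 * ∑ i, φ (ax i) ^ 2 := by
  rw [lin_expand h g, ← sum_sq_eq]
  exact Finset.sum_mul_sq_le_sq_mul_sq _ _ _

namespace Ml

theorem l2 (h : Ml z) (a b : ℝ) (g g' h' v v' : E d) :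
    z g (a • g' + b • h') v v' = a * z g g' v v' + b * z g h' v v' := by
  rw [h.a1, h.l1, h.a1 g g', h.a1 g h']; ring

theorem l4 (h : Ml z) (a b : ℝ) (g g' v v' w' : E d) :
    z g g' v (a • v' + b • w') = a * z g g' v v' + b * z g g' v w' := by
  rw [h.a3, h.l3, h.a3 g g' v v', h.a3 g g' v w']; ring

theorem self1 (h : Ml z) (g v v' : E d) : z g g v v' = 0 := by
  have := h.a1 g g v v'; linarith

theorem self3 (h : Ml z) (g g' v : E d) : z g g' v v = 0 := by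
  have := h.a3 g g' v v; linarith

theorem smul1 (h : Ml z) (a : ℝ) (g g' v v' : E d) : z (a • g) g' v v' = a * z g g' v v' := by
  simpa using h.l1 a 0 g g g' v v'

theorem smul2 (h : Ml z) (a : ℝ) (g g' v v' : E d) : z g (a • g') v v' = a * z g g' v v' := by
  simpa using h.l2 a 0 g g' g' v v'

theorem smul3 (h : Ml z) (a : ℝ) (g g' v v' : E d) : z g g' (a • v) v' = a * z g g' v v' := by
  simpa using h.l3 a 0 g g' v v v'

theorem smul4 (h : Ml z) (a : ℝ) (g g' v v' : E d) : z g g' v (a • v') = a * z g g' v v' := by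
  simpa using h.l4 a 0 g g' v v' v'

theorem add1 (h : Ml z) (g h' g' v v' : E d) : z (g + h') g' v v' = z g g' v v' + z h' g' v v' := by
  simpa using h.l1 1 1 g h' g' v v'

theorem add2 (h : Ml z) (g g' h' v v' : E d) : z g (g' + h') v v' = z g g' v v' + z g h' v v' := by
  simpa using h.l2 1 1 g g' h' v v'

theorem add3 (h : Ml z) (g g' v w v' : E d) : z g g' (v + w) v' = z g g' v v' + z g g' w v' := by
  simpa using h.l3 1 1 g g' v w v'

theorem add4 (h : Ml z) (g g' v v' w : E d) : z g g' v (v' + w) = z g g' v v' + z g g' v w := by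
  simpa using h.l4 1 1 g g' v v' w

theorem sub1 (h : Ml z) (g h' g' v v' : E d) : z (g - h') g' v v' = z g g' v v' - z h' g' v v' := by
  have := h.l1 1 (-1) g h' g' v v'
  rw [one_smul, neg_one_smul, ← sub_eq_add_neg] at this
  rw [this]; ring

theorem sub2 (h : Ml z) (g g' h' v v' : E d) : z g (g' - h') v v' = z g g' v v' - z g h' v v' := by
  have := h.l2 1 (-1) g g' h' v v'
  rw [one_smul, neg_one_smul, ← sub_eq_add_neg] at this
  rw [this]; ring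

theorem sub3 (h : Ml z) (g g' v w v' : E d) : z g g' (v - w) v' = z g g' v v' - z g g' w v' := by
  have := h.l3 1 (-1) g g' v w v'
  rw [one_smul, neg_one_smul, ← sub_eq_add_neg] at this
  rw [this]; ring

theorem sub4 (h : Ml z) (g g' v v' w : E d) : z g g' v (v' - w) = z g g' v v' - z g g' v w := by
  have := h.l4 1 (-1) g g' v v' w
  rw [one_smul, neg_one_smul, ← sub_eq_add_neg] at this
  rw [this]; ring

theorem sub (h : Ml z) (h' : Ml z') : Ml (z - z') where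
  l1 a b g f g' v v' := by simp only [Pi.sub_apply, h.l1, h'.l1]; ring
  l3 a b g g' v w v' := by simp only [Pi.sub_apply, h.l3, h'.l3]; ring
  a1 g g' v v' := by simp only [Pi.sub_apply, h.a1 g g', h'.a1 g g']; ring
  a3 g g' v v' := by simp only [Pi.sub_apply, h.a3 g g' v v', h'.a3 g g' v v']; ring

theorem smul (h : Ml z) (r : ℝ) : Ml (r • z) where
  l1 a b g f g' v v' := by simp only [Pi.smul_apply, smul_eq_mul, h.l1]; ring
  l3 a b g g' v w v' := by simp only [Pi.smul_apply, smul_eq_mul, h.l3]; ring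
  a1 g g' v v' := by simp only [Pi.smul_apply, smul_eq_mul, h.a1 g g']; ring
  a3 g g' v v' := by simp only [Pi.smul_apply, smul_eq_mul, h.a3 g g' v v']; ring

theorem sq34 (h : Ml z) (g g' v v' : E d) :
    z g g' v v' ^ 2 ≤ ‖v‖ ^ 2 * ‖v'‖ ^ 2 * ∑ k, ∑ l, z g g' (ax k) (ax l) ^ 2 := by
  refine (lin_sq_le (φ := fun w => z g g' w v') (fun a b w w' => h.l3 a b g g' w w' v') v).trans ?_
  rw [mul_assoc]
  refine mul_le_mul_of_nonneg_left ?_ (sq_nonneg _)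
  rw [Finset.mul_sum]
  refine Finset.sum_le_sum fun k _ => ?_
  exact lin_sq_le (φ := fun w => z g g' (ax k) w) (fun a b w w' => h.l4 a b g g' _ w w') v'

theorem sq_le3 (h : Ml z) (g e v v' : E d) :
    z g e v v' ^ 2 ≤ (‖g‖ * ‖v‖ * ‖v'‖) ^ 2 * sq3 z e := by
  refine (lin_sq_le (φ := fun w => z w e v v') (fun a b w w' => h.l1 a b w w' e v v') g).trans ?_
  have : ∑ i, z (ax i) e v v' ^ 2 ≤ ‖v‖ ^ 2 * ‖v'‖ ^ 2 * sq3 z e := by
    rw [sq3, Finset.mul_sum]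
    exact Finset.sum_le_sum fun i _ => h.sq34 _ _ _ _
  calc _ ≤ ‖g‖ ^ 2 * (‖v‖ ^ 2 * ‖v'‖ ^ 2 * sq3 z e) := mul_le_mul_of_nonneg_left this (sq_nonneg _)
    _ = _ := by ring

theorem sq3_le (h : Ml z) (e : E d) : sq3 z e ≤ ‖e‖ ^ 2 * sq4 z := by
  unfold sq3 sq4
  rw [Finset.mul_sum]
  refine Finset.sum_le_sum fun i _ => ?_
  rw [Finset.sum_comm (s := Finset.univ) (t := Finset.univ)
    (f := fun j k => ∑ l, z (ax i) (ax j) (ax k) (ax l) ^ 2), Finset.mul_sum]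
  refine Finset.sum_le_sum fun k _ => ?_
  rw [Finset.sum_comm, Finset.mul_sum]
  refine Finset.sum_le_sum fun l _ => ?_
  exact lin_sq_le (φ := fun w => z (ax i) w (ax k) (ax l)) (fun a b w w' => h.l2 a b _ w w' _ _) e

end Ml

theorem sq4_nonneg (z : E d → E d → E d → E d → ℝ) : 0 ≤ sq4 z := by unfold sq4; positivity

theorem sq3_nonneg (z : E d → E d → E d → E d → ℝ) (e : E d) : 0 ≤ sq3 z e := by
  unfold sq3; positivity

theorem sq3_smul (r : ℝ) (z : E d → E d → E d → E d → ℝ) (e : E d) :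
    sq3 (r • z) e = r ^ 2 * sq3 z e := by
  simp only [sq3, Pi.smul_apply, smul_eq_mul, mul_pow, Finset.mul_sum]

theorem sq4_le_of {B : ℝ} (h : ∀ i j k l, |z (ax i) (ax j) (ax k) (ax l)| ≤ B) :
    sq4 z ≤ (d : ℝ) ^ 4 * B ^ 2 := by
  have : sq4 z ≤ ∑ _i : Fin d, ∑ _j : Fin d, ∑ _k : Fin d, ∑ _l : Fin d, B ^ 2 :=
    Finset.sum_le_sum fun i _ => Finset.sum_le_sum fun j _ => Finset.sum_le_sum fun k _ =>
      Finset.sum_le_sum fun l _ => sq_le_sq' (abs_le.1 (h i j k l)).1 (abs_le.1 (h i j k l)).2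
  refine this.trans (le_of_eq ?_)
  simp only [Finset.sum_const, Finset.card_univ, Fintype.card_fin, nsmul_eq_mul]
  ring

namespace Ml

theorem abs_le3 (h : Ml z) (g e v v' : E d) :
    |z g e v v'| ≤ ‖g‖ * ‖v‖ * ‖v'‖ * √(sq3 z e) := by
  refine abs_le_of_sq_le_sq' ?_ (by positivity) |> fun h => abs_le.2 h
  rw [mul_pow, Real.sq_sqrt (sq3_nonneg _ _)]
  exact h.sq_le3 _ _ _ _

theorem abs_le (h : Ml z) (g g' v v' : E d) :
    |z g g' v v'| ≤ ‖g‖ * ‖g'‖ * ‖v‖ * ‖v'‖ * √(sq4 z) := by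
  refine abs_le_of_sq_le_sq' ?_ (by positivity) |> fun h => _root_.abs_le.2 h
  rw [mul_pow, Real.sq_sqrt (sq4_nonneg _)]
  calc _ ≤ (‖g‖ * ‖v‖ * ‖v'‖) ^ 2 * (‖g'‖ ^ 2 * sq4 z) :=
        (h.sq_le3 _ _ _ _).trans (mul_le_mul_of_nonneg_left (h.sq3_le g') (sq_nonneg _))
    _ = _ := by ring

/-- for vectors of norm at most one -/
theorem abs_le_one (h : Ml z) {g g' v v' : E d} (h1 : ‖g‖ ≤ 1) (h2 : ‖g'‖ ≤ 1) (h3 : ‖v‖ ≤ 1)
    (h4 : ‖v'‖ ≤ 1) : |z g g' v v'| ≤ √(sq4 z) := by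
  refine (h.abs_le _ _ _ _).trans (mul_le_of_le_one_left (Real.sqrt_nonneg _) ?_)
  exact mul_le_one₀ (mul_le_one₀ (mul_le_one₀ h1 (norm_nonneg _) h2) (norm_nonneg _) h3)
    (norm_nonneg _) h4

/-- the orthogonal splitting along a unit vector -/
theorem split (h : Ml z) {e : E d} (he : ‖e‖ = 1) (v v' : E d) :
    ∑ i, ∑ j, z (ax i) (ax j) v v' ^ 2 = 2 * ∑ j, z (ax j) e v v' ^ 2 +
      ∑ i, ∑ j, z (ax i - e i • e) (ax j - e j • e) v v' ^ 2 := by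
  have he2 : ∑ i, e i ^ 2 = 1 := by rw [sum_sq_eq, he]; norm_num
  set B : Fin d → Fin d → ℝ := fun i j => z (ax i) (ax j) v v' with hB
  set w : Fin d → ℝ := fun j => z (ax j) e v v' with hw
  have e1 : ∀ i j, z (ax i - e i • e) (ax j - e j • e) v v' = B i j - e j * w i + e i * w j := by
    intro i j
    rw [h.sub1, h.sub2, h.sub2, h.smul2, h.smul1, h.smul1, h.smul2, h.self1, h.a1 (ax j) e]
    simp only [hB, hw]; ring
  have e2 : ∀ i, ∑ j, e j * B i j = w i := fun i =>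
    (lin_expand (φ := fun x => z (ax i) x v v') (fun a b x x' => h.l2 a b _ x x' _ _) e).symm
  have e3 : ∀ j, ∑ i, e i * B i j = -w j := fun j => by
    rw [hw, ← h.a1 (ax j) e]
    exact (lin_expand (φ := fun x => z x (ax j) v v') (fun a b x x' => h.l1 a b x x' _ _ _) e).symm
  have e4 : ∑ i, e i * w i = 0 := by
    rw [← h.self1 e v v']
    exact (lin_expand (φ := fun x => z x e v v') (fun a b x x' => h.l1 a b x x' _ _ _) e).symm
  simp only [e1]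
  have e5 : ∀ i j, (B i j - e j * w i + e i * w j) ^ 2 = B i j ^ 2 + e j ^ 2 * w i ^ 2 +
      e i ^ 2 * w j ^ 2 - 2 * w i * (e j * B i j) + 2 * w j * (e i * B i j) -
      2 * (e i * w i) * (e j * w j) := fun i j => by ring
  simp only [e5, Finset.sum_add_distrib, Finset.sum_sub_distrib]
  have f1 : ∑ i, ∑ j, e j ^ 2 * w i ^ 2 = ∑ i, w i ^ 2 := by
    simp only [← Finset.sum_mul, he2, one_mul]
  have f2 : ∑ i, ∑ j, e i ^ 2 * w j ^ 2 = ∑ i, w i ^ 2 := by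
    simp only [← Finset.mul_sum, ← Finset.sum_mul, he2, one_mul]
  have f3 : ∑ i, ∑ j, 2 * w i * (e j * B i j) = 2 * ∑ i, w i ^ 2 := by
    simp only [← Finset.mul_sum, e2]
    rw [Finset.mul_sum]
    exact Finset.sum_congr rfl fun i _ => by ring
  have f4 : ∑ i, ∑ j, 2 * w j * (e i * B i j) = -(2 * ∑ i, w i ^ 2) := by
    rw [Finset.sum_comm]
    simp only [← Finset.mul_sum, e3]
    rw [Finset.mul_sum, ← Finset.sum_neg_distrib]
    exact Finset.sum_congr rfl fun i _ => by ring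
  have f5 : ∑ i, ∑ j, 2 * (e i * w i) * (e j * w j) = 0 := by
    simp only [← Finset.mul_sum, e4, mul_zero, Finset.sum_const_zero]
  rw [f1, f2, f3, f4, f5]
  ring

theorem sq4_eq (h : Ml z) {e : E d} (he : ‖e‖ = 1) : sq4 z = 2 * sq3 z e +
    ∑ k, ∑ l, ∑ i, ∑ j, z (ax i - e i • e) (ax j - e j • e) (ax k) (ax l) ^ 2 := by
  have e1 : sq4 z = ∑ k, ∑ l, ∑ i, ∑ j, z (ax i) (ax j) (ax k) (ax l) ^ 2 := by
    unfold sq4
    calc _ = ∑ i, ∑ k, ∑ j, ∑ l, z (ax i) (ax j) (ax k) (ax l) ^ 2 :=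
          Finset.sum_congr rfl fun i _ => Finset.sum_comm
      _ = ∑ k, ∑ i, ∑ j, ∑ l, z (ax i) (ax j) (ax k) (ax l) ^ 2 := Finset.sum_comm
      _ = ∑ k, ∑ i, ∑ l, ∑ j, z (ax i) (ax j) (ax k) (ax l) ^ 2 :=
          Finset.sum_congr rfl fun k _ => Finset.sum_congr rfl fun i _ => Finset.sum_comm
      _ = _ := Finset.sum_congr rfl fun k _ => Finset.sum_comm
  have e2 : sq3 z e = ∑ k, ∑ l, ∑ j, z (ax j) e (ax k) (ax l) ^ 2 := by
    unfold sq3
    rw [Finset.sum_comm]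
    exact Finset.sum_congr rfl fun k _ => Finset.sum_comm
  rw [e1, e2]
  simp only [h.split he, Finset.sum_add_distrib, Finset.mul_sum]

theorem two_sq3_le (h : Ml z) {e : E d} (he : ‖e‖ = 1) : 2 * sq3 z e ≤ sq4 z := by
  rw [h.sq4_eq he]
  exact le_add_of_nonneg_right (by positivity)

/-- a tensor whose components orthogonal to `e` are small is bordered -/
theorem sq4_le (h : Ml z) {e : E d} (he : ‖e‖ = 1) {K : ℝ}
    (hK : ∀ f f' : E d, ‖f‖ ≤ 1 → ‖f'‖ ≤ 1 → inner ℝ f e = 0 → inner ℝ f' e = 0 →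
      ∀ k l, |z f f' (ax k) (ax l)| ≤ K) : sq4 z ≤ 2 * sq3 z e + (d : ℝ) ^ 4 * K ^ 2 := by
  have a1 : ∀ i : Fin d, inner ℝ (ax i - e i • e) e = 0 := fun i => by
    rw [inner_sub_left, real_inner_smul_left, real_inner_self_eq_norm_sq, he, Vol.inner_ax]
    ring
  have a2 : ∀ i : Fin d, ‖ax i - e i • e‖ ≤ 1 := fun i => by
    have : ‖ax i - e i • e‖ ^ 2 = 1 - e i ^ 2 := by
      rw [norm_sub_sq_real, norm_ax, real_inner_smul_right, Vol.inner_ax, norm_smul, he,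
        Real.norm_eq_abs, mul_one, sq_abs]
      ring
    nlinarith [norm_nonneg (ax i - e i • e), sq_nonneg (e i)]
  rw [h.sq4_eq he]
  refine add_le_add le_rfl ?_
  have : ∑ k, ∑ l, ∑ i, ∑ j, z (ax i - e i • e) (ax j - e j • e) (ax k) (ax l) ^ 2 ≤
      ∑ _i : Fin d, ∑ _j : Fin d, ∑ _k : Fin d, ∑ _l : Fin d, K ^ 2 :=
    Finset.sum_le_sum fun k _ => Finset.sum_le_sum fun l _ => Finset.sum_le_sum fun i _ =>
      Finset.sum_le_sum fun j _ => by
        have := _root_.abs_le.1 (hK _ _ (a2 i) (a2 j) (a1 i) (a1 j) k l)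
        exact sq_le_sq' this.1 this.2
  refine this.trans (le_of_eq ?_)
  simp only [Finset.sum_const, Finset.card_univ, Fintype.card_fin, nsmul_eq_mul]
  ring

/-- dependence of the contraction on the vector -/
theorem sq3_sub (h : Ml z) {e e' : E d} {η : ℝ} (he : ‖e‖ ≤ 1) (he' : ‖e'‖ ≤ 1) (hη : 0 < η)
    (hd : ‖e - e'‖ ≤ η) : sq3 z e - 2 * η * sq4 z ≤ sq3 z e' := by
  have a0 := sq4_nonneg z
  have a1 : sq3 z (e - e') ≤ η ^ 2 * sq4 z :=
    (h.sq3_le _).trans (mul_le_mul_of_nonneg_right (pow_le_pow_left₀ (norm_nonneg _) hd 2) a0)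
  have a2 : sq3 z (e + e') ≤ 2 ^ 2 * sq4 z :=
    (h.sq3_le _).trans (mul_le_mul_of_nonneg_right (pow_le_pow_left₀ (norm_nonneg _)
      ((norm_add_le _ _).trans (by linarith)) 2) a0)
  have a3 : sq3 z e - sq3 z e' ≤ sq3 z (e - e') / η + η / 4 * sq3 z (e + e') := by
    unfold sq3
    simp only [Finset.sum_div, Finset.mul_sum, ← Finset.sum_add_distrib, ← Finset.sum_sub_distrib]
    refine Finset.sum_le_sum fun j _ => Finset.sum_le_sum fun k _ => Finset.sum_le_sum fun l _ => ?_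
    rw [h.sub2, h.add2]
    generalize z (ax j) e (ax k) (ax l) = a
    generalize z (ax j) e' (ax k) (ax l) = b
    have : (a - b) ^ 2 / η + η / 4 * (a + b) ^ 2 - (a ^ 2 - b ^ 2) =
        ((a - b) - η / 2 * (a + b)) ^ 2 / η := by field_simp; ring
    have h2 : 0 ≤ ((a - b) - η / 2 * (a + b)) ^ 2 / η := by positivity
    linarith
  have a4 : sq3 z (e - e') / η ≤ η * sq4 z := by
    rw [div_le_iff₀ hη]; linarith
  have a5 := mul_le_mul_of_nonneg_left a2 (show 0 ≤ η / 4 by positivity)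
  linarith

/-- the vector representing the third slot -/
theorem vec (h : Ml z) (g g' u : E d) : ∃ x : E d, ∀ v', inner ℝ x v' = z g g' v' u := by
  refine ⟨∑ k, z g g' (ax k) u • ax k, fun v' => ?_⟩
  rw [sum_inner, lin_expand (φ := fun w => z g g' w u) (fun a b w w' => h.l3 a b _ _ w w' _) v']
  exact Finset.sum_congr rfl fun k _ => by rw [real_inner_smul_left, Vol.inner_ax, mul_comm]

end Ml

/-- a vector is bounded by its products with unit vectors -/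
theorem norm_le_of_inner {x : E d} {B : ℝ} (hB : 0 ≤ B)
    (h : ∀ v : E d, ‖v‖ = 1 → inner ℝ x v ≤ B) : ‖x‖ ≤ B := by
  rcases eq_or_ne x 0 with rfl | hx
  · simpa using hB
  have h0 : ‖x‖ ≠ 0 := norm_ne_zero_iff.2 hx
  have := h (‖x‖⁻¹ • x) (by rw [norm_smul, norm_inv, norm_norm, inv_mul_cancel₀ h0])
  rwa [real_inner_smul_right, real_inner_self_eq_norm_sq, sq, ← mul_assoc, inv_mul_cancel₀ h0,
    one_mul] at this

end Pool.Agent.MP_20bec2_an.b2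

end
end MrgPart0

-- ======== part 1: formerly Pool.Agent.MP_20bec2_an.b2.Basic
section MrgPart1

/-! Averaged fields, Jensen, the pattern, windows (project BIOM2). -/

set_option autoImplicit false

open MeasureTheory Set Metric Filter Topology

noncomputable section

namespace Pool.Agent.MP_20bec2_an.b2

open Pool.Agent.MP_20bec2_an.h7

variable {d : ℕ}

/-! ### averaged fields -/

section fields

variable {L μ : ℝ} {Ψ : E d → E d}

theorem sm_co (h : Sm L Ψ) {e : E d} (he : ‖e‖ ≤ 1) : Sm L (co e Ψ) := by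
  refine ⟨(innerSL ℝ e).contDiff.comp h.cd, fun y => ?_⟩
  have h1 := ((innerSL ℝ e).hasFDerivAt.comp y
    (h.cd1.differentiable one_ne_zero y).hasFDerivAt).fderiv
  rw [show h7.co e Ψ = innerSL ℝ e ∘ Ψ from rfl, h1]
  refine (ContinuousLinearMap.opNorm_comp_le _ _).trans ?_
  rw [innerSL_apply_norm]
  exact (mul_le_of_le_one_left (norm_nonneg _) he).trans (h.bd y)

theorem sm_dd_le {F : Type*} [NormedAddCommGroup F] [NormedSpace ℝ F] {G : E d → F} (h : Sm L G)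
    {v : E d} (hv : ‖v‖ ≤ 1) (y : E d) : ‖dd G v y‖ ≤ L :=
  ((fderiv ℝ G y).le_opNorm v).trans
    ((mul_le_of_le_one_right (norm_nonneg _) hv).trans (h.bd y))

theorem abs_jac_le' {q p : E d → ℝ} (hq : Sm L q) (hp : Sm L p) {v' v : E d} (hv' : ‖v'‖ ≤ 1)
    (hv : ‖v‖ ≤ 1) (y : E d) : |jac q p v' v y| ≤ 2 * L ^ 2 := by
  have a1 : |dd q v' y| ≤ L := sm_dd_le hq hv' y
  have a2 : |dd q v y| ≤ L := sm_dd_le hq hv y
  have a3 : |dd p v' y| ≤ L := sm_dd_le hp hv' y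
  have a4 : |dd p v y| ≤ L := sm_dd_le hp hv y
  have hL := hq.nonneg
  unfold jac
  refine (abs_sub _ _).trans ?_
  rw [abs_mul, abs_mul]
  nlinarith [mul_le_mul a1 a4 (abs_nonneg _) hL, mul_le_mul a2 a3 (abs_nonneg _) hL]

theorem dd_cv_co (h : ContDiff ℝ 1 Ψ) (μ : ℝ) (e v y : E d) :
    dd (cv μ (co e Ψ)) v y = Af μ Ψ y e v := dd_cv (Vol.contDiff_co h e) μ v y

theorem Af_eq_inner (h : ContDiff ℝ 1 Ψ) (μ : ℝ) (y e v : E d) :
    Af μ Ψ y e v = inner ℝ e (dd (cv μ Ψ) v y) := by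
  rw [Af, show dd (co e Ψ) v = co e (dd Ψ v) from funext fun z => dd_co h e v z,
    cv_co (continuous_dd h v), dd_cv h]

theorem Af_l1 (h : ContDiff ℝ 1 Ψ) (μ a b : ℝ) (y e e' v : E d) :
    Af μ Ψ y (a • e + b • e') v = a * Af μ Ψ y e v + b * Af μ Ψ y e' v := by
  simp only [Af_eq_inner h, inner_add_left, real_inner_smul_left]

theorem Af_l2 (h : ContDiff ℝ 1 Ψ) (μ a b : ℝ) (y e v v' : E d) :
    Af μ Ψ y e (a • v + b • v') = a * Af μ Ψ y e v + b * Af μ Ψ y e v' := by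
  simp only [Af_eq_inner h, dd, map_add, map_smul, inner_add_right, real_inner_smul_right]

theorem Af_smul1 (h : ContDiff ℝ 1 Ψ) (μ a : ℝ) (y e v : E d) :
    Af μ Ψ y (a • e) v = a * Af μ Ψ y e v := by
  simp only [Af_eq_inner h, real_inner_smul_left]

theorem Af_smul2 (h : ContDiff ℝ 1 Ψ) (μ a : ℝ) (y e v : E d) :
    Af μ Ψ y e (a • v) = a * Af μ Ψ y e v := by
  simp only [Af_eq_inner h, dd, map_smul, real_inner_smul_right]

theorem Af_neg2 (h : ContDiff ℝ 1 Ψ) (μ : ℝ) (y e v : E d) :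
    Af μ Ψ y e (-v) = -Af μ Ψ y e v := by
  simp only [Af_eq_inner h, dd, map_neg, inner_neg_right]

theorem Af_sub1 (h : ContDiff ℝ 1 Ψ) (μ : ℝ) (y e e' v : E d) :
    Af μ Ψ y (e - e') v = Af μ Ψ y e v - Af μ Ψ y e' v := by
  simp only [Af_eq_inner h, inner_sub_left]

theorem continuous_Af (h : ContDiff ℝ 1 Ψ) (μ : ℝ) (e v : E d) :
    Continuous fun y => Af μ Ψ y e v := continuous_cv (continuous_dd (Vol.contDiff_co h e) v) μ

theorem abs_Af_le (h : Sm L Ψ) (hμ : 0 ≤ μ) (y : E d) {e v : E d} (he : ‖e‖ ≤ 1) (hv : ‖v‖ ≤ 1) :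
    |Af μ Ψ y e v| ≤ L := norm_cv_le hμ fun z _ => sm_dd_le (sm_co h he) hv z

theorem continuous_Zf (h : ContDiff ℝ 1 Ψ) (μ : ℝ) (g g' v v' : E d) :
    Continuous fun y => Zf μ Ψ y g g' v v' :=
  continuous_cv (continuous_jac (Vol.contDiff_co h g) (Vol.contDiff_co h g') v v') μ

theorem abs_Zf_le (h : Sm L Ψ) (hμ : 0 ≤ μ) (y : E d) {g g' v v' : E d} (h1 : ‖g‖ ≤ 1)
    (h2 : ‖g'‖ ≤ 1) (h3 : ‖v‖ ≤ 1) (h4 : ‖v'‖ ≤ 1) : |Zf μ Ψ y g g' v v'| ≤ 2 * L ^ 2 :=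
  norm_cv_le (G := jac (co g Ψ) (co g' Ψ) v v') hμ fun z _ =>
    abs_jac_le' (sm_co h h1) (sm_co h h2) h3 h4 z

theorem ml_Zf (h : ContDiff ℝ 1 Ψ) (μ : ℝ) (y : E d) : Ml (Zf μ Ψ y) := by
  have hc := fun g g' v v' : E d =>
    continuous_jac (Vol.contDiff_co h g) (Vol.contDiff_co h g') v v'
  have hk : ∀ (a : ℝ) (g g' v v' : E d),
      Continuous fun z => a * jac (co g Ψ) (co g' Ψ) v v' z :=
    fun a g g' v v' => continuous_const.mul (hc g g' v v')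
  refine ⟨fun a b g f g' v v' => ?_, fun a b g g' v w v' => ?_, fun g g' v v' => ?_,
    fun g g' v v' => ?_⟩
  · unfold Zf
    rw [← cv_const_mul, ← cv_const_mul, ← cv_add (hk _ _ _ _ _) (hk _ _ _ _ _)]
    congr 1
    funext z
    simp only [jac, Step.dd_co_add h]
    ring
  · unfold Zf
    rw [← cv_const_mul, ← cv_const_mul, ← cv_add (hk _ _ _ _ _) (hk _ _ _ _ _)]
    congr 1
    funext z
    simp only [jac, Step.dd_lin]
    ring
  · unfold Zf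
    rw [← cv_neg]
    congr 1
    funext z
    simp only [jac]
    ring
  · unfold Zf
    rw [← cv_neg]
    congr 1
    funext z
    simp only [jac]
    ring

theorem continuous_sq4 (h : ContDiff ℝ 1 Ψ) (μ : ℝ) (z : E d → E d → E d → E d → ℝ) :
    Continuous fun y => sq4 (Zf μ Ψ y - z) := by
  unfold sq4
  simp only [Pi.sub_apply]
  have := continuous_Zf h μ
  fun_prop

theorem loc_sm {ε δ : ℝ} {S : Sys d ε δ} {y₀ : E d} (h : Loc S L Ψ y₀) : Sm L Ψ := by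
  obtain ⟨_, _, _, hc, _⟩ := h
  exact hc.sm

end fields

/-! ### Jensen and Cauchy-Schwarz -/

theorem cv_mul_le {G G' : E d → ℝ} (hG : Continuous G) (hG' : Continuous G') {μ A B : ℝ}
    (hμ : 0 ≤ μ) (hA : 0 < A) (hB : 0 < B) {y : E d} (h : cv μ (fun z => G z ^ 2) y ≤ A ^ 2)
    (h' : cv μ (fun z => G' z ^ 2) y ≤ B ^ 2) : cv μ (fun z => |G z| * |G' z|) y ≤ A * B := by
  have h1 : cv μ (fun z => |G z| * |G' z|) y ≤
      cv μ (fun z => B / (2 * A) * G z ^ 2 + A / (2 * B) * G' z ^ 2) y := by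
    refine cv_mono (by fun_prop) (by fun_prop) hμ fun z _ => ?_
    rw [← sq_abs (G z), ← sq_abs (G' z)]
    have : B / (2 * A) * |G z| ^ 2 + A / (2 * B) * |G' z| ^ 2 - |G z| * |G' z| =
        (B * |G z| - A * |G' z|) ^ 2 / (2 * A * B) := by field_simp; ring
    have h2 : 0 ≤ (B * |G z| - A * |G' z|) ^ 2 / (2 * A * B) := by positivity
    linarith
  rw [cv_add (by fun_prop) (by fun_prop), cv_const_mul, cv_const_mul] at h1
  have h2 := mul_le_mul_of_nonneg_left h (show 0 ≤ B / (2 * A) by positivity)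
  have h3 := mul_le_mul_of_nonneg_left h' (show 0 ≤ A / (2 * B) by positivity)
  have h4 : B / (2 * A) * A ^ 2 + A / (2 * B) * B ^ 2 = A * B := by field_simp; ring
  linarith

theorem cv_le_of_sq {G : E d → ℝ} (hG : Continuous G) {μ A : ℝ} (hμ : 0 ≤ μ) (hA : 0 < A)
    {y : E d} (h : cv μ (fun z => G z ^ 2) y ≤ A ^ 2) : cv μ (fun z => |G z|) y ≤ A := by
  have := cv_mul_le (G' := fun _ => 1) hG continuous_const hμ hA one_pos h
    (by rw [cv_const])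
  simpa using this

/-- a bound at the fine scale passes to the coarser scale in the mean -/
theorem cv_transfer {G a : E d → ℝ} (hG : Continuous G) (ha : Continuous a) {B B' c s μ : ℝ}
    (hs : 0 ≤ s) (hμ : 0 < μ) (hB : ∀ z, |G z| ≤ B) (hB' : ∀ z, |a z| ≤ B')
    (h : ∀ z, |cv s G z - c| ≤ a z) (y₀ : E d) :
    cv 1 (fun y => |cv μ G y - c|) y₀ ≤ cv 1 a y₀ + Cw d * B * s / μ + Cw d * B' * μ := by
  have c1 := continuous_cv hG s
  have c2 := continuous_cv hG μ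
  have c3 := continuous_cv ha μ
  have h1 : cv 1 (fun y => |cv μ G y - c|) y₀ ≤
      cv 1 (fun y => cv μ a y + Cw d * B * s / μ) y₀ := by
    refine cv_mono (by fun_prop) (by fun_prop) zero_le_one fun y _ => ?_
    have a1 := cv_cv hG hμ hs hB y
    have a2 : ‖cv μ (fun z => cv s G z - c) y‖ ≤ cv μ a y :=
      norm_cv_le_cv ha hμ.le fun z _ => h z
    rw [cv_sub c1 continuous_const, cv_const] at a2
    rw [Real.norm_eq_abs] at a1 a2
    have := abs_sub_le (cv μ G y) (cv μ (cv s G) y) c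
    rw [abs_sub_comm (cv μ G y) (cv μ (cv s G) y)] at this
    linarith
  rw [cv_add c3 continuous_const, cv_const] at h1
  have h2 := cv_cv ha one_pos hμ.le hB' y₀
  rw [Real.norm_eq_abs, div_one] at h2
  linarith [(abs_le.1 h2).2]

/-! ### the pattern -/

section pattern

variable {ε δ l : ℝ} {n k : ℕ}

theorem ka_mem (n k : ℕ) : 2 ≤ ka n k ∧ ka n k ≤ 3 := by
  unfold ka
  rcases Nat.eq_zero_or_pos n with rfl | hn
  · norm_num
  have h0 : (0 : ℝ) < n := by exact_mod_cast hn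
  have h1 : ((k % n : ℕ) : ℝ) / n ≤ 1 :=
    (div_le_one h0).2 (by exact_mod_cast (Nat.mod_lt k hn).le)
  have h2 : (0 : ℝ) ≤ ((k % n : ℕ) : ℝ) / n := by positivity
  constructor <;> linarith

theorem kb_mem (hk : k < n ^ 2) : 0 ≤ kb n k ∧ kb n k ≤ 1 := by
  unfold kb
  have hn : 0 < n := Nat.pos_of_ne_zero fun h => by simp [h] at hk
  have h0 : (0 : ℝ) < n := by exact_mod_cast hn
  refine ⟨by positivity, (div_le_one h0).2 ?_⟩
  exact_mod_cast (Nat.div_lt_of_lt_mul (by rwa [← sq])).le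

theorem qk_eq (n k : ℕ) (a b : ℝ) : qk n k a b =
    ka n k / (4 * (1 + (k : ℝ) / ((n ^ 2 : ℕ) : ℝ))) * a +
      kb n k / (4 * (1 + (k : ℝ) / ((n ^ 2 : ℕ) : ℝ))) * b := by
  unfold qk; ring

theorem om_mul_qk (ε l : ℝ) (n k : ℕ) (a b : ℝ) : om ε (n ^ 2) l k * qk n k a b =
    (n : ℝ) ^ 2 * l / (4 * ε ^ 70) * (ka n k * a + kb n k * b) := by
  have : (0 : ℝ) < 1 + (k : ℝ) / ((n ^ 2 : ℕ) : ℝ) := by positivity
  unfold om qk
  generalize 1 + (k : ℝ) / ((n ^ 2 : ℕ) : ℝ) = x at this ⊢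
  push_cast
  field_simp

theorem abs_qk_le (hk : k < n ^ 2) (a b : ℝ) : |qk n k a b| ≤ 3 / 4 * |a| + 1 / 4 * |b| := by
  obtain ⟨a1, a2⟩ := ka_mem n k
  obtain ⟨b1, b2⟩ := kb_mem hk
  have h1 : (1 : ℝ) ≤ 1 + (k : ℝ) / ((n ^ 2 : ℕ) : ℝ) := le_add_of_nonneg_right (by positivity)
  unfold qk
  rw [abs_div, abs_of_pos (by positivity : (0 : ℝ) < 4 * (1 + (k : ℝ) / ((n ^ 2 : ℕ) : ℝ))),
    div_le_iff₀ (by positivity)]
  refine (abs_add_le _ _).trans ?_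
  rw [abs_mul, abs_mul, abs_of_nonneg b1, abs_of_nonneg (by linarith : 0 ≤ ka n k)]
  nlinarith [abs_nonneg a, abs_nonneg b]

theorem qk_sub (n k : ℕ) (a b a' b' : ℝ) :
    qk n k a b - qk n k a' b' = qk n k (a - a') (b - b') := by
  unfold qk; ring

variable {q₁ q₂ p : E d → ℝ}

theorem contDiff_qk {j : ℕ} (h1 : ContDiff ℝ j q₁) (h2 : ContDiff ℝ j q₂) (n k : ℕ) :
    ContDiff ℝ j fun z => qk n k (q₁ z) (q₂ z) :=
  ((contDiff_const.mul h1).add (contDiff_const.mul h2)).div_const _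

theorem dd_qk (h1 : ContDiff ℝ 1 q₁) (h2 : ContDiff ℝ 1 q₂) (n k : ℕ) (v y : E d) :
    dd (fun z => qk n k (q₁ z) (q₂ z)) v y = qk n k (dd q₁ v y) (dd q₂ v y) := by
  simp only [qk_eq]
  have := (((h1.differentiable one_ne_zero y).hasFDerivAt.const_mul
    (ka n k / (4 * (1 + (k : ℝ) / ((n ^ 2 : ℕ) : ℝ))))).add
    ((h2.differentiable one_ne_zero y).hasFDerivAt.const_mul
    (kb n k / (4 * (1 + (k : ℝ) / ((n ^ 2 : ℕ) : ℝ)))))).fderiv
  unfold dd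
  rw [show (fun z => ka n k / (4 * (1 + (k : ℝ) / ((n ^ 2 : ℕ) : ℝ))) * q₁ z +
    kb n k / (4 * (1 + (k : ℝ) / ((n ^ 2 : ℕ) : ℝ))) * q₂ z) =
    (fun z => ka n k / (4 * (1 + (k : ℝ) / ((n ^ 2 : ℕ) : ℝ))) * q₁ z) +
      fun z => kb n k / (4 * (1 + (k : ℝ) / ((n ^ 2 : ℕ) : ℝ))) * q₂ z from rfl, this]
  simp

theorem sm_qk {L : ℝ} (h1 : Sm L q₁) (h2 : Sm L q₂) (hk : k < n ^ 2) :
    Sm L fun z => qk n k (q₁ z) (q₂ z) := by
  refine ⟨contDiff_qk (j := 2) h1.cd h2.cd n k, fun y => ?_⟩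
  refine ContinuousLinearMap.opNorm_le_of_unit_norm h1.nonneg fun v hv => ?_
  have a1 : |dd q₁ v y| ≤ L := h1.dd_le hv y
  have a2 : |dd q₂ v y| ≤ L := h2.dd_le hv y
  have := abs_qk_le hk (dd q₁ v y) (dd q₂ v y)
  rw [← dd_qk h1.cd1 h2.cd1] at this
  exact le_trans this (by linarith)

theorem cv_qk (h1 : Continuous q₁) (h2 : Continuous q₂) (n k : ℕ) (μ : ℝ) (y : E d) :
    cv μ (fun z => qk n k (q₁ z) (q₂ z)) y = qk n k (cv μ q₁ y) (cv μ q₂ y) := by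
  simp only [qk_eq]
  rw [cv_add (by fun_prop) (by fun_prop), cv_const_mul, cv_const_mul]

theorem dd_cv_qk (h1 : ContDiff ℝ 1 q₁) (h2 : ContDiff ℝ 1 q₂) (n k : ℕ) (μ : ℝ) (v y : E d) :
    dd (cv μ fun z => qk n k (q₁ z) (q₂ z)) v y =
      qk n k (dd (cv μ q₁) v y) (dd (cv μ q₂) v y) := by
  rw [show (cv μ fun z => qk n k (q₁ z) (q₂ z)) = fun y => qk n k (cv μ q₁ y) (cv μ q₂ y) from
    funext (cv_qk h1.continuous h2.continuous n k μ), dd_qk (contDiff_cv h1 μ) (contDiff_cv h2 μ)]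

theorem cv_jac_qk (h1 : ContDiff ℝ 1 q₁) (h2 : ContDiff ℝ 1 q₂) (hp : ContDiff ℝ 1 p) (n k : ℕ)
    (μ : ℝ) (v' u y : E d) : cv μ (jac (fun z => qk n k (q₁ z) (q₂ z)) p v' u) y =
      qk n k (cv μ (jac q₁ p v' u) y) (cv μ (jac q₂ p v' u) y) := by
  rw [← cv_qk (continuous_jac h1 hp _ _) (continuous_jac h2 hp _ _)]
  congr 1
  funext z
  simp only [jac, dd_qk h1 h2]
  unfold qk
  ring

theorem abs_g2_le (ε : ℝ) (n : ℕ) (l : ℝ) (z : ℝ × ℝ × ℝ) : |g2 ε n l z| ≤ 2 := by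
  refine (Finset.abs_sum_le_sum_abs _ _).trans ((Finset.sum_le_sum fun k _ => ?_).trans
    (Prof.sum_bb_le (((n ^ 2 : ℕ) : ℝ) * xi ε z.2.2) (Finset.range (n ^ 2))))
  rw [abs_mul, bk, abs_of_nonneg (bb_nonneg _)]
  exact mul_le_of_le_one_right (bb_nonneg _) (Real.abs_cos_le_one _)

theorem g2_eq_zero {z : ℝ × ℝ × ℝ} (h : xi ε z.2.2 ∉ Icc (0 : ℝ) 1) : g2 ε n l z = 0 :=
  Finset.sum_eq_zero fun k hk => by rw [Prof.bk_eq_zero (Finset.mem_range.1 hk) h, zero_mul]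

theorem W0_mul_g2 (ε : ℝ) (n : ℕ) (l : ℝ) (z : ℝ × ℝ × ℝ) :
    W0 ε z.2.2 * g2 ε n l z = g2 ε n l z := by
  by_cases h : xi ε z.2.2 ∈ Icc (0 : ℝ) 1
  · unfold W0
    rw [tr_eq_one h.1 h.2, one_mul]
  · rw [g2_eq_zero h, mul_zero]

theorem continuous_g2 (h0 : 0 < ε) (h1 : ε ≤ 1 / 2) (n : ℕ) (l : ℝ) : Continuous (g2 ε n l) :=
  continuous_finsetSum _ fun k hk =>
    ((Prof.continuous_bk h0 h1 (Finset.mem_range.1 hk)).comp (by fun_prop)).mul
      (by unfold qk; fun_prop)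

theorem pow_le_inv (h0 : 0 < ε) (hl : l ^ 4 * ε ≤ 1) : l ^ 4 ≤ ε⁻¹ := by
  rw [← one_div, le_div_iff₀ h0]; exact hl

theorem g2_lip (h0 : 0 < ε) (h1 : ε ≤ 1 / 20) (hn : (n : ℝ) ≤ l) (hl1 : 1 ≤ l)
    (hl : l ^ 4 * ε ≤ 1) (z z' : ℝ × ℝ × ℝ) :
    |g2 ε n l z - g2 ε n l z'| ≤ ε⁻¹ ^ 73 * dl1 z z' := by
  have hh : 0 < ε ^ 70 := by positivity
  have hm : ((n ^ 2 : ℕ) : ℝ) ≤ l ^ 2 := by
    push_cast; exact pow_le_pow_left₀ (Nat.cast_nonneg n) hn 2
  have hm0 : (0 : ℝ) ≤ ((n ^ 2 : ℕ) : ℝ) := Nat.cast_nonneg _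
  have hA : 15 * l ^ 4 / ε ^ 70 ≤ ε⁻¹ ^ 73 := by
    rw [inv_pow, div_le_iff₀ hh, show (ε ^ 73)⁻¹ * ε ^ 70 = (ε ^ 3)⁻¹ by field_simp,
      ← one_div, le_div_iff₀ (by positivity)]
    have h2 : ε ^ 2 ≤ (1 / 20) ^ 2 := pow_le_pow_left₀ h0.le h1 2
    calc 15 * l ^ 4 * ε ^ 3 = 15 * (l ^ 4 * ε) * ε ^ 2 := by ring
      _ ≤ 15 * 1 * (1 / 20) ^ 2 := by gcongr
      _ ≤ 1 := by norm_num
  generalize hmm : n ^ 2 = m at hm hm0
  have e : g2 ε n l z - g2 ε n l z' = ∑ k ∈ Finset.range m,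
      (bk ε m k z.2.2 * (Real.cos (om ε m l k * qk n k z.1 z.2.1) -
          Real.cos (om ε m l k * qk n k z'.1 z'.2.1)) +
        (bk ε m k z.2.2 - bk ε m k z'.2.2) * Real.cos (om ε m l k * qk n k z'.1 z'.2.1)) := by
    unfold g2
    rw [hmm, ← Finset.sum_sub_distrib]
    exact Finset.sum_congr rfl fun k _ => by ring
  have hk : ∀ k ∈ Finset.range m,
      |bk ε m k z.2.2 * (Real.cos (om ε m l k * qk n k z.1 z.2.1) -
          Real.cos (om ε m l k * qk n k z'.1 z'.2.1)) +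
        (bk ε m k z.2.2 - bk ε m k z'.2.2) * Real.cos (om ε m l k * qk n k z'.1 z'.2.1)| ≤
      bb (m * xi ε z.2.2 - k) * (2 * l ^ 4 / ε ^ 70 * (|z.1 - z'.1| + |z.2.1 - z'.2.1|)) +
        15 * l ^ 2 / ε ^ 70 * |z.2.2 - z'.2.2| := by
    intro k hk
    have hk' := Finset.mem_range.1 hk
    refine (abs_add_le _ _).trans (add_le_add ?_ ?_)
    · rw [abs_mul, bk, abs_of_nonneg (bb_nonneg _)]
      refine mul_le_mul_of_nonneg_left ((Real.abs_cos_sub_cos_le _ _).trans ?_) (bb_nonneg _)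
      obtain ⟨o1, o2⟩ := TestA.om_mem (l := l) h0 hk' (by linarith)
      rw [← mul_sub, abs_mul, abs_of_nonneg o1, qk_sub]
      have a1 := abs_qk_le (n := n) (k := k) (by rwa [hmm]) (z.1 - z'.1) (z.2.1 - z'.2.1)
      refine mul_le_mul (o2.trans ?_)
        (by linarith [abs_nonneg (z.1 - z'.1), abs_nonneg (z.2.1 - z'.2.1)]) (abs_nonneg _)
        (by positivity)
      have a2 : l ≤ l ^ 2 := le_self_pow₀ hl1 (by norm_num)
      calc 2 * (m * l / ε ^ 70) ≤ 2 * (l ^ 2 * l ^ 2 / ε ^ 70) := by gcongr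
        _ = _ := by ring
    · rw [abs_mul]
      refine (mul_le_of_le_one_right (abs_nonneg _) (Real.abs_cos_le_one _)).trans
        ((TestA.bk_lip h0 (by linarith) hk' _ _).trans ?_)
      gcongr
  rw [e]
  refine (Finset.abs_sum_le_sum_abs _ _).trans ((Finset.sum_le_sum hk).trans ?_)
  rw [Finset.sum_add_distrib, ← Finset.sum_mul, Finset.sum_const, Finset.card_range, nsmul_eq_mul,
    dl1, mul_add (ε⁻¹ ^ 73)]
  refine add_le_add ?_ ?_
  · calc _ ≤ 2 * (2 * l ^ 4 / ε ^ 70 * (|z.1 - z'.1| + |z.2.1 - z'.2.1|)) :=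
          mul_le_mul_of_nonneg_right (Prof.sum_bb_le _ _) (by positivity)
      _ = 4 * l ^ 4 / ε ^ 70 * (|z.1 - z'.1| + |z.2.1 - z'.2.1|) := by ring
      _ ≤ 15 * l ^ 4 / ε ^ 70 * (|z.1 - z'.1| + |z.2.1 - z'.2.1|) := by gcongr; norm_num
      _ ≤ _ := mul_le_mul_of_nonneg_right hA (by positivity)
  · calc _ ≤ l ^ 2 * (15 * l ^ 2 / ε ^ 70 * |z.2.2 - z'.2.2|) :=
          mul_le_mul_of_nonneg_right hm (by positivity)
      _ = 15 * l ^ 4 / ε ^ 70 * |z.2.2 - z'.2.2| := by ring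
      _ ≤ _ := mul_le_mul_of_nonneg_right hA (abs_nonneg _)

theorem rr_mem (h0 : 0 ≤ δ) (h1 : δ ≤ 1 / 100) (n : ℕ) (l : ℝ) (q₁ q₂ p : E d → ℝ) (y : E d) :
    1 / 2 ≤ rr ε δ n l q₁ q₂ p y ∧ rr ε δ n l q₁ q₂ p y ≤ 3 / 2 := by
  have h := abs_le.1 (abs_g2_le ε n l (cv (ε ^ 120) q₁ y, cv (ε ^ 120) q₂ y, cv (ε ^ 120) p y))
  unfold rr
  constructor <;> nlinarith [h.1, h.2]

theorem continuous_rr (h0 : 0 < ε) (h1 : ε ≤ 1 / 2) (δ : ℝ) (n : ℕ) (l : ℝ)
    (hq₁ : Continuous q₁) (hq₂ : Continuous q₂) (hp : Continuous p) :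
    Continuous (rr ε δ n l q₁ q₂ p) := by
  have h2 : Continuous fun y : E d => (cv (ε ^ 120) q₁ y, cv (ε ^ 120) q₂ y, cv (ε ^ 120) p y) :=
    (continuous_cv hq₁ _).prodMk ((continuous_cv hq₂ _).prodMk (continuous_cv hp _))
  have h3 : Continuous fun y : E d =>
      g2 ε n l (cv (ε ^ 120) q₁ y, cv (ε ^ 120) q₂ y, cv (ε ^ 120) p y) := by
    have := (continuous_g2 h0 h1 n l).comp' h2
    exact this
  unfold rr
  exact continuous_const.add (continuous_const.mul h3)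

theorem continuous_tc (e₁ e₂ e : E d) : Continuous (tc e₁ e₂ e) := by unfold tc; fun_prop

theorem dl1_tc_le {e₁ e₂ e : E d} (h : ON3 e₁ e₂ e) (x x' : E d) :
    dl1 (tc e₁ e₂ e x) (tc e₁ e₂ e x') ≤ 3 * ‖x - x'‖ := by
  have a1 := Mass.inner_sub_le h.1.1 x x'
  have a2 := Mass.inner_sub_le h.2.1.1 x x'
  have a3 := Mass.inner_sub_le h.1.2.1 x x'
  simp only [dl1, tc]
  linarith

theorem Rw.zero {C : ℝ} {m : ℝ × ℝ × ℝ → ℝ} (h : Rw ε C m) (h0 : 0 < ε) {z : ℝ × ℝ × ℝ}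
    (hz : Pl3 ε z) : m z = 0 := by
  by_contra hc
  have := h.far z hc z hz
  simp only [dl1, sub_self, abs_zero, add_zero] at this
  have h2 : 0 < ε ^ 145 / 8 := by positivity
  linarith

theorem phk_lip2 {m : ℕ} (h0 : 0 < ε) (h1 : ε ≤ 1 / 2) (hk : k < m) (hl1 : 1 ≤ l)
    (hm : (m : ℝ) ≤ l ^ 2) (hl : l ^ 4 * ε ≤ 1) (q p q' p' : ℝ) :
    ‖phk ε m l k q p - phk ε m l k q' p'‖ ≤ 15 / ε ^ 142 * (|q - q'| + |p - p'|) := by
  have hm0 : (0 : ℝ) ≤ m := Nat.cast_nonneg m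
  have a0 : l ≤ l ^ 4 := le_self_pow₀ hl1 (by norm_num)
  have a1 : l * ε ≤ 1 := le_trans (by gcongr) hl
  have a2 : (m : ℝ) * m * ε ≤ 1 := by
    calc (m : ℝ) * m * ε ≤ l ^ 2 * l ^ 2 * ε := by gcongr
      _ = l ^ 4 * ε := by ring
      _ ≤ 1 := hl
  obtain ⟨o1, o2⟩ := TestA.om_mem (l := l) h0 hk (by linarith)
  have b1 : bk ε m k p * (m / ε ^ 70) ≤ 2 * (m / ε ^ 70) := by gcongr; exact bb_le _
  have b2 : 15 * m / ε ^ 70 * (m / ε ^ 70) ≤ 15 / ε ^ 142 := by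
    calc 15 * m / ε ^ 70 * (m / ε ^ 70) = 15 / ε ^ 142 * ((m * m * ε) * ε) := by field_simp
      _ ≤ 15 / ε ^ 142 * (1 * 1) := by gcongr; linarith
      _ = _ := by ring
  have b3 : 2 * (m * l / ε ^ 70) * (2 * (m / ε ^ 70)) ≤ 15 / ε ^ 142 := by
    calc 2 * (m * l / ε ^ 70) * (2 * (m / ε ^ 70)) = 4 / ε ^ 142 * ((m * m * ε) * (l * ε)) := by
          field_simp; ring
      _ ≤ 15 / ε ^ 142 * (1 * 1) := by gcongr; norm_num
      _ = _ := by ring
  have h : phk ε m l k q p - phk ε m l k q' p' =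
      (Complex.exp (Complex.I * (om ε m l k * q : ℝ)) -
        Complex.exp (Complex.I * (om ε m l k * q' : ℝ))) * (bk ε m k p * (m / ε ^ 70) : ℝ) +
      Complex.exp (Complex.I * (om ε m l k * q' : ℝ)) *
        ((bk ε m k p - bk ε m k p') * (m / ε ^ 70) : ℝ) := by
    unfold phk
    push_cast
    ring
  rw [h]
  refine (norm_add_le _ _).trans ?_
  rw [norm_mul, norm_mul, Complex.norm_exp_I_mul_ofReal, one_mul, Complex.norm_real,
    Complex.norm_real, Real.norm_eq_abs, Real.norm_eq_abs,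
    abs_of_nonneg (mul_nonneg (TestA.bk_nonneg p) (by positivity)), abs_mul,
    abs_of_nonneg (show (0 : ℝ) ≤ m / ε ^ 70 by positivity)]
  have c1 := TestA.exp_lip (om ε m l k * q) (om ε m l k * q')
  rw [← mul_sub, abs_mul, abs_of_nonneg o1] at c1
  have c2 := TestA.bk_lip h0 h1 hk p p'
  have c3 : ‖Complex.exp (Complex.I * (om ε m l k * q : ℝ)) -
      Complex.exp (Complex.I * (om ε m l k * q' : ℝ))‖ * (bk ε m k p * (m / ε ^ 70)) ≤
      15 / ε ^ 142 * |q - q'| := by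
    calc _ ≤ (2 * (m * l / ε ^ 70) * |q - q'|) * (2 * (m / ε ^ 70)) := by
          refine mul_le_mul (c1.trans (by gcongr)) b1
            (mul_nonneg (TestA.bk_nonneg p) (by positivity)) (by positivity)
      _ = 2 * (m * l / ε ^ 70) * (2 * (m / ε ^ 70)) * |q - q'| := by ring
      _ ≤ _ := by gcongr
  have c4 : |bk ε m k p - bk ε m k p'| * (m / ε ^ 70) ≤ 15 / ε ^ 142 * |p - p'| := by
    calc _ ≤ 15 * m / ε ^ 70 * |p - p'| * (m / ε ^ 70) := by gcongr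
      _ = 15 * m / ε ^ 70 * (m / ε ^ 70) * |p - p'| := by ring
      _ ≤ _ := by gcongr
  linarith

/-- elementary consequences of the numerical hypotheses, with `β = 1 / (lg ε * l)` -/
theorem Tn.facts {Λ M₂ X₁ X₂ : ℝ} {v x₁ x₂ : E d} (h : Tn ε δ l Λ M₂ X₁ X₂ n v x₁ x₂)
    (h0 : 0 < ε) (hL : 1 ≤ lg ε) (hL' : lg ε ^ 2 * ε ≤ 1) :
    0 < δ ∧ 0 < X₂ ∧ X₂ ≤ M₂ ∧ n * (1 / (lg ε * l)) * lg ε ^ 3 ≤ δ ∧
      n * M₂ * lg ε ^ 2 ≤ δ * l * X₂ ∧ (n : ℝ) ^ 2 ≤ l ^ 2 ∧ ((n : ℝ) ^ 2) ^ 2 * ε ≤ 1 ∧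
      ε ≤ 1 / (lg ε * l) ∧ 1 / (lg ε * l) * lg ε ≤ 1 ∧ l ^ 2 ≤ ε⁻¹ := by
  have hδ : 0 < δ := h0.trans_le h.d0
  have hl : 0 < l := one_pos.trans_le h.l1
  have hn : (2 : ℝ) ≤ n := by exact_mod_cast h.n2
  have hM := h.M0
  have hX : 0 < X₂ := by
    have : 0 < n * (1 / (lg ε * l)) * M₂ * lg ε ^ 3 := by positivity
    exact (mul_pos_iff_of_pos_left hδ).1 (this.trans_le h.nn)
  have hXM : X₂ ≤ M₂ := by
    have := (h.lat 0 1).2
    simp only [Int.cast_zero, Int.cast_one, abs_one, mul_one, zero_smul, one_smul, zero_add] at this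
    exact this.trans h.x2
  have hn2 : (n : ℝ) ^ 2 ≤ l ^ 2 := pow_le_pow_left₀ (by linarith) h.nl 2
  have l2 : l ^ 2 ≤ l ^ 4 := pow_le_pow_right₀ h.l1 (by norm_num)
  refine ⟨hδ, hX, hXM, ?_, ?_, hn2, ?_, ?_, ?_, l2.trans (pow_le_inv h0 h.l4)⟩
  · refine le_of_mul_le_mul_right ?_ (show 0 < M₂ by linarith)
    calc n * (1 / (lg ε * l)) * lg ε ^ 3 * M₂ = n * (1 / (lg ε * l)) * M₂ * lg ε ^ 3 := by ring
      _ ≤ δ * X₂ := h.nn
      _ ≤ _ := by gcongr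
  · calc n * M₂ * lg ε ^ 2 = n * (1 / (lg ε * l)) * M₂ * lg ε ^ 3 * l := by field_simp
      _ ≤ δ * X₂ * l := mul_le_mul_of_nonneg_right h.nn hl.le
      _ = _ := by ring
  · calc ((n : ℝ) ^ 2) ^ 2 * ε ≤ (l ^ 2) ^ 2 * ε := by gcongr
      _ = l ^ 4 * ε := by ring
      _ ≤ 1 := h.l4
  · rw [le_div_iff₀ (by positivity)]
    have a1 : l ^ 2 * ε ≤ 1 := (mul_le_mul_of_nonneg_right l2 h0.le).trans h.l4
    refine (pow_le_one_iff_of_nonneg (n := 2) (by positivity) two_ne_zero).1 ?_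
    calc (ε * (lg ε * l)) ^ 2 = (lg ε ^ 2 * ε) * (l ^ 2 * ε) := by ring
      _ ≤ 1 := mul_le_one₀ hL' (by positivity) a1
  · rw [div_mul_eq_mul_div, div_le_one (by positivity), one_mul]
    exact le_mul_of_one_le_right (by linarith) h.l1

end pattern

end Pool.Agent.MP_20bec2_an.b2

end
end MrgPart1

-- marker of a merged file
example : 731051 + 167736 = 731051 + 167736 := rfl
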