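import Mathlib.Algebra.Ring.IsFormallyReal
import Pool.Agent.MP_20bec2_an.b2.Basic

/-! The delay is the sum of the leaf sums and has little shear (project BIOM2). -/

set_option autoImplicit false

open MeasureTheory Set Metric Filter Topology

noncomputable section

namespace Pool.Agent.MP_20bec2_an.b2

open Pool.Agent.MP_20bec2_an.h7

namespace Del2

variable {d : ℕ} {ε : ℝ}

/-- the delay is the sum of the real parts of the leaf sums, up to the defect of tightness -/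
theorem first (h0 : 0 < ε) (h1 : ε ≤ 1 / 2) {Q₁ Q₂ P t : E d → ℝ} (hQ₁ : Continuous Q₁)
    (hQ₂ : Continuous Q₂) (hP : Continuous P) (ct : Continuous t) {δ : ℝ} (hδ : 0 < δ) (n : ℕ)
    (l Λ : ℝ) (u y : E d) :
    |ln (ε ^ 52) u (th (ε ^ 52)) (fun z => W0 ε (P z) * (Λ - t z)) y *
          (((n ^ 2 : ℕ) : ℝ) / ε ^ 70) / δ -
        ∑ k ∈ Finset.range (n ^ 2), (ln (ε ^ 52) u (th (ε ^ 52))
          (fun z => t z • phk ε (n ^ 2) l k (qk n k (Q₁ z) (Q₂ z)) (P z)) y).re| ≤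
      ln (ε ^ 52) u (fun _ => 1) (fun z => W1 ε (P z) *
        |(1 + δ * g2 ε n l (Q₁ z, Q₂ z, P z)) * t z - Λ|) y * (((n ^ 2 : ℕ) : ℝ) / ε ^ 70) / δ := by
  have cW : Continuous fun z => W0 ε (P z) := (TestB.contDiff_W0 h0 h1).continuous.comp hP
  have cW1 : Continuous fun z => W1 ε (P z) := (TestB.continuous_W1 h0 h1).comp hP
  have cg : Continuous fun z => g2 ε n l (Q₁ z, Q₂ z, P z) :=
    (continuous_g2 h0 h1 n l).comp' (f := fun z => (Q₁ z, Q₂ z, P z)) (hQ₁.prodMk (hQ₂.prodMk hP))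
  have cq : ∀ k, Continuous fun z => qk n k (Q₁ z) (Q₂ z) := fun k => by unfold qk; fun_prop
  have c1 : Continuous fun z => W0 ε (P z) * (Λ - t z) := by fun_prop
  have c2 : Continuous fun z => δ * (g2 ε n l (Q₁ z, Q₂ z, P z) * t z) := by fun_prop
  have c3 : Continuous fun z =>
      W1 ε (P z) * |(1 + δ * g2 ε n l (Q₁ z, Q₂ z, P z)) * t z - Λ| := by fun_prop
  have e1 : ∑ k ∈ Finset.range (n ^ 2), (ln (ε ^ 52) u (th (ε ^ 52))
      (fun z => t z • phk ε (n ^ 2) l k (qk n k (Q₁ z) (Q₂ z)) (P z)) y).re =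
      ln (ε ^ 52) u (th (ε ^ 52)) (fun z => δ * (g2 ε n l (Q₁ z, Q₂ z, P z) * t z)) y *
        (((n ^ 2 : ℕ) : ℝ) / ε ^ 70) / δ := by
    have c : ∀ k ∈ Finset.range (n ^ 2),
        Continuous fun z => t z • phk ε (n ^ 2) l k (qk n k (Q₁ z) (Q₂ z)) (P z) :=
      fun k hk => ct.smul (TestB.continuous_phk h0 h1 (Finset.mem_range.1 hk) l (cq k) hP)
    rw [Finset.sum_congr rfl fun k hk => TestB.ln_re (continuous_th _) (c k hk) _ u y,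
      ← TestB.ln_sum _ (continuous_th _) fun k hk => Complex.continuous_re.comp' (c k hk),
      TestB.ln_mul, mul_assoc, mul_div_cancel_left₀ _ hδ.ne', mul_comm, ← TestB.ln_mul]
    congr 1
    funext z
    simp only [Complex.smul_re, TestB.phk_re, g2, smul_eq_mul, Finset.sum_mul, Finset.mul_sum]
    exact Finset.sum_congr rfl fun k _ => by ring
  rw [e1, ← sub_div, ← sub_mul, ← TestB.ln_sub (continuous_th _) c1 c2, abs_div, abs_mul,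
    abs_of_pos hδ, abs_of_nonneg (show (0 : ℝ) ≤ ((n ^ 2 : ℕ) : ℝ) / ε ^ 70 by positivity)]
  refine div_le_div_of_nonneg_right (mul_le_mul_of_nonneg_right ?_ (by positivity)) hδ.le
  rw [← Real.norm_eq_abs]
  refine norm_ln_le continuous_const c3 (by positivity) u y fun τ _ => ?_
  set z := y + τ • u
  have e2 : W0 ε (P z) * (Λ - t z) - δ * (g2 ε n l (Q₁ z, Q₂ z, P z) * t z) =
      -(W0 ε (P z) * ((1 + δ * g2 ε n l (Q₁ z, Q₂ z, P z)) * t z - Λ)) := by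
    have := W0_mul_g2 ε n l (Q₁ z, Q₂ z, P z)
    linear_combination (δ * t z) * this
  rw [e2, norm_neg, Real.norm_eq_abs, abs_mul, abs_of_nonneg (th_mem _ _).1,
    abs_of_nonneg (W0_mem _ _).1]
  exact mul_le_mul (th_mem _ _).2 (mul_le_mul_of_nonneg_right (W0_le_W1 _ _) (abs_nonneg _))
    (mul_nonneg (W0_mem _ _).1 (abs_nonneg _)) zero_le_one

theorem lam_le {r t Λ : ℝ} (h1 : 1 / 2 ≤ r) (h2 : r ≤ 3 / 2) :
    Λ ^ 2 ≤ 3 * t * Λ + 10 * (r * t - Λ) ^ 2 ∨ Λ < 0 := by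
  rcases lt_or_ge Λ 0 with h | h
  · exact Or.inr h
  refine Or.inl ?_
  rcases le_total 0 t with ht | ht
  · have : 0 ≤ (3 / 2 - r) * t * Λ := by
      have : 0 ≤ 3 / 2 - r := by linarith
      positivity
    nlinarith [sq_nonneg (r * t), sq_nonneg (r * t - Λ)]
  · have a1 : 0 ≤ (r - 1 / 2) * -t * Λ := by
      have : 0 ≤ r - 1 / 2 := by linarith
      have : 0 ≤ -t := by linarith
      positivity
    nlinarith [sq_nonneg (r * t - Λ), sq_nonneg (3 * (r * t - Λ) + Λ), sq_nonneg Λ]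

theorem abs_le_lam {r t Λ a : ℝ} (h1 : 1 / 2 ≤ r) (h2 : r ≤ 3 / 2) (hΛ : 0 < Λ) (ha : 0 < a) :
    |r * t - Λ| ≤ (1 / (2 * a) + a / 2) * (4 / Λ * (r * t - Λ) ^ 2) + a / 2 * t := by
  have k := (lam_le (t := t) (Λ := Λ) h1 h2).resolve_right (not_lt.2 hΛ.le)
  generalize r * t - Λ = x at k ⊢
  rw [← sq_abs x] at k ⊢
  generalize |x| = s at k ⊢
  have e : (1 / (2 * a) + a / 2) * (4 / Λ * s ^ 2) + a / 2 * t - s =
      (12 * s ^ 2 + 12 * a ^ 2 * s ^ 2 + a ^ 2 * (3 * t * Λ) - 6 * a * Λ * s) / (6 * a * Λ) := by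
    field_simp; ring
  have k2 := mul_le_mul_of_nonneg_left k (sq_nonneg a)
  have : 0 ≤ (12 * s ^ 2 + 12 * a ^ 2 * s ^ 2 + a ^ 2 * (3 * t * Λ) - 6 * a * Λ * s) /
      (6 * a * Λ) := div_nonneg (by
        nlinarith [sq_nonneg (3 * s - a * Λ), sq_nonneg s, sq_nonneg (a * s)]) (by positivity)
  linarith

/-- Cauchy-Schwarz along the leaf -/
theorem mid (h0 : 0 < ε) {W r t : E d → ℝ} (cW : Continuous W) (cr : Continuous r)
    (ct : Continuous t) (hW : ∀ z, 0 ≤ W z) (hr : ∀ z, 1 / 2 ≤ r z ∧ r z ≤ 3 / 2) {Λ : ℝ}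
    (hΛ : 0 < Λ) (u y : E d)
    (hL : ln (ε ^ 52) u (fun _ => 1) (fun z => W z / ε ^ 70 * t z) y ≤ 4) {A : ℝ}
    (hA : A = ln (ε ^ 52) u (fun _ => 1)
      (fun z => 4 / Λ / ε ^ 70 * (W z * (r z * t z - Λ) ^ 2)) y) :
    ln (ε ^ 52) u (fun _ => 1) (fun z => W z * |r z * t z - Λ|) y / ε ^ 70 ≤ 2 * √A + A := by
  have hT : (0 : ℝ) ≤ ε ^ 52 := by positivity
  have A0 : 0 ≤ A := hA ▸ Test.ln_nonneg hT _ (fun z => by have := hW z; positivity) _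
  refine TestB.le_of_amgm A0 fun a ha => ?_
  have c1 : Continuous fun z => 4 / Λ / ε ^ 70 * (W z * (r z * t z - Λ) ^ 2) := by fun_prop
  have c2 : Continuous fun z => W z / ε ^ 70 * t z := by fun_prop
  have k := TestB.ln_mono (κ := fun _ => 1) (κ' := fun _ => 1)
    (G := fun z => (ε ^ 70)⁻¹ * (W z * |r z * t z - Λ|))
    (G' := fun z => (1 / (2 * a) + a / 2) * (4 / Λ / ε ^ 70 * (W z * (r z * t z - Λ) ^ 2)) +
      a / 2 * (W z / ε ^ 70 * t z)) continuous_const continuous_const (by fun_prop) (by fun_prop)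
    hT u y fun τ => by
      set z := y + τ • u
      have b := mul_le_mul_of_nonneg_left (abs_le_lam (t := t z) (hr z).1 (hr z).2 hΛ ha)
        (show 0 ≤ W z / ε ^ 70 by have := hW z; positivity)
      rw [one_mul, one_mul]
      refine le_of_eq_of_le ?_ (b.trans_eq ?_)
      · ring
      · ring
  rw [TestB.ln_add continuous_const (continuous_const.fun_mul c1) (continuous_const.fun_mul c2),
    TestB.ln_mul, TestB.ln_mul (1 / (2 * a) + a / 2), TestB.ln_mul (a / 2), ← hA] at k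
  have l1 := mul_le_mul_of_nonneg_left hL (show 0 ≤ a / 2 by positivity)
  rw [div_eq_inv_mul]
  linarith

theorem ln_le (h0 : 0 < ε) {G : E d → ℝ} (hG : Continuous G) {B : ℝ} (h : ∀ z, G z ≤ B)
    (u y : E d) : ln (ε ^ 52) u (fun _ => 1) G y ≤ 6 * ε ^ 52 * B := by
  rw [← TestA.ln_const B (ε ^ 52) u y]
  exact TestB.ln_mono continuous_const continuous_const hG continuous_const (by positivity) u y
    fun τ => mul_le_mul_of_nonneg_left (h _) zero_le_one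

theorem num {C₀ δ b L Λ g n EA Ew EZ : ℝ} (e0 : 0 < ε) (e1 : ε ≤ 1) (C1 : 1 ≤ C₀) (d0 : ε ≤ δ)
    (d1 : δ ≤ 1) (n2 : 2 ≤ n) (n4 : (n ^ 2) ^ 2 * ε ≤ 1) (L1 : 1 ≤ L) (Le : L * ε ≤ 1)
    (L0 : 1 / 4 ≤ Λ) (Λ1 : Λ * ε ≤ 1) (g1 : 1 ≤ g) (b0 : 0 ≤ b) (nb : n * b * L ^ 3 ≤ δ)
    (main : Λ ^ 4 * b ^ 2 * L ≤ g ^ 2 * n ^ 2)
    (hA : EA ≤ 24 * (C₀ * b ^ 2 * (Λ * ε ^ 2)) + 16 * ε ^ 25)
    (hw : Ew ≤ 12 * (C₀ * b ^ 2 * (Λ * ε ^ 2)) + 2 * ε ^ 25) (hZ : EZ ≤ 98 * ε ^ 19) :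
    (2 * (4 * n ^ 2 / δ)) ^ 2 * EA + n ^ 2 * (4 * n ^ 2 / δ * EA + n ^ 2 * ε ^ 25) +
      (2 * (16 * Λ ^ 2 / g)) ^ 2 * Ew + n ^ 2 * (16 * Λ ^ 2 / g * Ew + 16 * Λ / g * EZ) ≤
      20000 * C₀ * (n ^ 2 * (Λ * ε ^ 2) / L) := by
  have dp : 0 < δ := e0.trans_le d0
  have Λp : 0 < Λ := by linarith
  have np : 0 < n := by linarith
  have Lp : 0 < L := by linarith
  have gp : 0 < g := by linarith
  have m4 : 4 ≤ n ^ 2 := by nlinarith
  have pw : ∀ {i j : ℕ}, i ≤ j → ε ^ j ≤ ε ^ i := fun h => pow_le_pow_of_le_one e0.le e1 h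
  obtain ⟨R, hR⟩ : ∃ R, R = n ^ 2 * (Λ * ε ^ 2) / L := ⟨_, rfl⟩
  obtain ⟨N, hN⟩ : ∃ N, N = C₀ * b ^ 2 * (Λ * ε ^ 2) := ⟨_, rfl⟩
  have N0 : 0 ≤ N := by rw [hN]; positivity
  have R3 : ε ^ 17 ≤ R := by
    refine (pw (i := 3) (by norm_num)).trans ?_
    rw [hR, le_div_iff₀ Lp]
    calc ε ^ 3 * L = (L * ε) * ε ^ 2 := by ring
      _ ≤ 1 * ε ^ 2 := by gcongr
      _ = 4 * (1 / 4 * ε ^ 2) := by ring
      _ ≤ _ := by gcongr
  have R0 : 0 ≤ R := le_trans (by positivity) R3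
  have CR : R ≤ C₀ * R := le_mul_of_one_le_left R0 C1
  have nbL : n * b * L ≤ δ := le_trans (by
    have : L ≤ L ^ 3 := le_self_pow₀ L1 (by norm_num)
    gcongr) nb
  have me : n ^ 2 * ε ≤ 1 := le_trans (by
    have : n ^ 2 ≤ (n ^ 2) ^ 2 := le_self_pow₀ (by linarith) (by norm_num)
    gcongr) n4
  -- the four main terms
  have a1 : (n ^ 2 / δ) ^ 2 * N ≤ C₀ * R := by
    have k : (n * b) ^ 2 * L ≤ δ ^ 2 := by
      have : (n * b * L) ^ 2 ≤ δ ^ 2 := pow_le_pow_left₀ (by positivity) nbL 2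
      have k2 : L ≤ L ^ 2 := le_self_pow₀ L1 (by norm_num)
      calc (n * b) ^ 2 * L ≤ (n * b) ^ 2 * L ^ 2 := by gcongr
        _ = (n * b * L) ^ 2 := by ring
        _ ≤ _ := this
    calc (n ^ 2 / δ) ^ 2 * N = C₀ * R * ((n * b) ^ 2 * L / δ ^ 2) := by
          rw [hN, hR]; field_simp
      _ ≤ C₀ * R := mul_le_of_le_one_right (by positivity) ((div_le_one (by positivity)).2 k)
  have nd : n ^ 2 ≤ n ^ 2 / δ := le_div_self (by positivity) dp d1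
  have a2 : n ^ 2 * (n ^ 2 / δ) * N ≤ C₀ * R := by
    refine le_trans ?_ a1
    rw [sq (n ^ 2 / δ)]
    gcongr
  have a3 : (Λ ^ 2 / g) ^ 2 * N ≤ C₀ * R := by
    calc (Λ ^ 2 / g) ^ 2 * N = C₀ * R * (Λ ^ 4 * b ^ 2 * L / (g ^ 2 * n ^ 2)) := by
          rw [hN, hR]; field_simp
      _ ≤ C₀ * R := mul_le_of_le_one_right (by positivity) ((div_le_one (by positivity)).2 main)
  have a4 : n ^ 2 * (Λ ^ 2 / g) * N ≤ C₀ * R := by
    have k : Λ ^ 2 * b ≤ g * n := by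
      refine (pow_le_pow_iff_left₀ (by positivity) (by positivity) two_ne_zero).1 ?_
      calc (Λ ^ 2 * b) ^ 2 = Λ ^ 4 * b ^ 2 * 1 := by ring
        _ ≤ Λ ^ 4 * b ^ 2 * L := by gcongr
        _ ≤ g ^ 2 * n ^ 2 := main
        _ = _ := by ring
    calc n ^ 2 * (Λ ^ 2 / g) * N = C₀ * R * ((Λ ^ 2 * b / (g * n)) * (n * b * L)) := by
          rw [hN, hR]; field_simp
      _ ≤ C₀ * R := mul_le_of_le_one_right (by positivity)
          (mul_le_one₀ ((div_le_one (by positivity)).2 k) (by positivity) (nbL.trans d1))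
  -- the small terms
  have s1 : (n ^ 2 / δ) ^ 2 * ε ^ 25 ≤ ε ^ 17 := by
    calc (n ^ 2 / δ) ^ 2 * ε ^ 25 = ((n ^ 2) ^ 2 * ε) * (ε / δ) ^ 2 * ε ^ 22 := by field_simp
      _ ≤ 1 * 1 ^ 2 * ε ^ 22 := by
          have : ε / δ ≤ 1 := (div_le_one dp).2 d0
          gcongr
      _ ≤ _ := by rw [one_pow, one_mul, one_mul]; exact pw (by norm_num)
  have s2 : n ^ 2 * (n ^ 2 / δ) * ε ^ 25 ≤ ε ^ 17 := by
    refine le_trans ?_ s1
    rw [sq (n ^ 2 / δ)]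
    gcongr
  have s2' : n ^ 2 * n ^ 2 * ε ^ 25 ≤ ε ^ 17 := le_trans (by gcongr) s2
  have Λg : Λ ^ 2 / g ≤ Λ ^ 2 := div_le_self (by positivity) g1
  have s3 : (Λ ^ 2 / g) ^ 2 * ε ^ 25 ≤ ε ^ 17 := by
    calc (Λ ^ 2 / g) ^ 2 * ε ^ 25 ≤ (Λ ^ 2) ^ 2 * ε ^ 25 := by gcongr
      _ = (Λ * ε) ^ 4 * ε ^ 21 := by ring
      _ ≤ 1 ^ 4 * ε ^ 21 := by gcongr
      _ ≤ _ := by rw [one_pow, one_mul]; exact pw (by norm_num)
  have s4 : n ^ 2 * (Λ ^ 2 / g) * ε ^ 25 ≤ ε ^ 17 := by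
    calc n ^ 2 * (Λ ^ 2 / g) * ε ^ 25 ≤ n ^ 2 * Λ ^ 2 * ε ^ 25 := by gcongr
      _ = (n ^ 2 * ε) * (Λ * ε) ^ 2 * ε ^ 22 := by ring
      _ ≤ 1 * 1 ^ 2 * ε ^ 22 := by gcongr
      _ ≤ _ := by rw [one_pow, one_mul, one_mul]; exact pw (by norm_num)
  have s5 : n ^ 2 * (Λ / g) * ε ^ 19 ≤ ε ^ 17 := by
    have : Λ / g ≤ Λ := div_le_self Λp.le g1
    calc n ^ 2 * (Λ / g) * ε ^ 19 ≤ n ^ 2 * Λ * ε ^ 19 := by gcongr
      _ = (n ^ 2 * ε) * (Λ * ε) * ε ^ 17 := by ring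
      _ ≤ 1 * 1 * ε ^ 17 := by gcongr
      _ = _ := by ring
  rw [← hN] at hA hw
  rw [← hR]
  have t1 := mul_le_mul_of_nonneg_left hA (sq_nonneg (n ^ 2 / δ))
  have t2 := mul_le_mul_of_nonneg_left hA (show 0 ≤ n ^ 2 * (n ^ 2 / δ) by positivity)
  have t3 := mul_le_mul_of_nonneg_left hw (sq_nonneg (Λ ^ 2 / g))
  have t4 := mul_le_mul_of_nonneg_left hw (show 0 ≤ n ^ 2 * (Λ ^ 2 / g) by positivity)
  have t5 := mul_le_mul_of_nonneg_left hZ (show 0 ≤ n ^ 2 * (Λ / g) by positivity)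
  have e : (2 * (4 * n ^ 2 / δ)) ^ 2 * EA + n ^ 2 * (4 * n ^ 2 / δ * EA + n ^ 2 * ε ^ 25) +
      (2 * (16 * Λ ^ 2 / g)) ^ 2 * Ew + n ^ 2 * (16 * Λ ^ 2 / g * Ew + 16 * Λ / g * EZ) =
      64 * ((n ^ 2 / δ) ^ 2 * EA) + 4 * (n ^ 2 * (n ^ 2 / δ) * EA) + n ^ 2 * n ^ 2 * ε ^ 25 +
        1024 * ((Λ ^ 2 / g) ^ 2 * Ew) + 16 * (n ^ 2 * (Λ ^ 2 / g) * Ew) +
        16 * (n ^ 2 * (Λ / g) * EZ) := by ring
  rw [e]
  linarith

/-- crude pointwise bounds -/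
theorem crude {c x : ℝ} (e0 : 0 < ε) (e1 : 100 * ε ≤ 1) {k : ℕ} (hk : k ≤ 30)
    (hc : c ≤ 10 ^ 8) (hx : x ≤ c * ε⁻¹ ^ k) : x ≤ ε⁻¹ ^ 40 := by
  have i1 : 100 ≤ ε⁻¹ := by
    rw [← one_div, le_div_iff₀ e0]; exact e1
  have i2 : (100 : ℝ) ^ 10 ≤ ε⁻¹ ^ 10 := pow_le_pow_left₀ (by norm_num) i1 10
  have i3 : ε⁻¹ ^ k ≤ ε⁻¹ ^ 30 := pow_le_pow_right₀ (by linarith) hk
  calc x ≤ c * ε⁻¹ ^ k := hx
    _ ≤ ε⁻¹ ^ 10 * ε⁻¹ ^ 30 :=
        mul_le_mul (hc.trans (le_trans (by norm_num) i2)) i3 (by positivity) (by positivity)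
    _ = _ := by ring

end Del2

open Del2 in
theorem del2 (d : ℕ) (hd : 3 ≤ d) (h1 : TestA2Stmt d) (h2 : Leaf2Stmt) : Del2Stmt d := by
  intro C₀ hC₀
  refine ⟨20000 * C₀, by linarith, small_iff.2 ?_⟩
  filter_upwards [ev_pos, ev_mul_le 100, ev_mul_le (18 * Cw d), ev_le_lg 1, ev_lg_pow 1,
    ev_lg_pow 2, small_iff.1 h1, small_iff.1 h2, small_iff.1 (testB d (by omega) leaf)]
    with ε e0 e1 eC L1 eL eL2 tA lf tB
  intro δ l Λ M₂ X₁ X₂ n q₁ q₂ p eb ez u v y₀ x₁ x₂ tn tf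
  obtain ⟨dp, Xp, -, f1, f2, f3, f4, -, -, -⟩ := tn.facts e0 L1 eL2
  have e2 : ε ≤ 1 / 2 := by linarith
  have e3 : ε ≤ 1 := by linarith
  have hu := tf.on.2.1
  have t := tf.tt
  have Λp : 0 < Λ := by linarith [tn.L0]
  have lp : 0 < l := by linarith [tn.l1]
  have n2 : (2 : ℝ) ≤ n := by exact_mod_cast tn.n2
  have Λ1 : Λ ≤ ε⁻¹ := by
    rw [tf.lam]
    exact (le_abs_self _).trans (norm_cv_le zero_le_one fun z _ => tf.sp.dd_le hu z)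
  have Λe : Λ * ε ≤ 1 := by
    have := mul_le_mul_of_nonneg_right Λ1 e0.le
    rwa [inv_mul_cancel₀ e0.ne'] at this
  have i1 : 100 ≤ ε⁻¹ := by
    rw [← one_div, le_div_iff₀ e0]; exact e1
  have g1 : 1 ≤ δ * l * X₁ := by
    have a1 : (1 : ℝ) * 1 * 1 ^ 2 ≤ n * M₂ * lg ε ^ 2 := by
      have := tn.M0
      have : (1 : ℝ) ≤ n := by linarith
      gcongr
    have a2 : δ * l * X₂ ≤ δ * l * X₁ := by have := tn.X12; gcongr
    linarith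
  have X1p : 0 < X₁ := Xp.trans_le tn.X12
  have me : (n : ℝ) ^ 2 ≤ ε⁻¹ := by
    rw [← one_div, le_div_iff₀ e0]
    refine le_trans ?_ f4
    have : (n : ℝ) ^ 2 ≤ ((n : ℝ) ^ 2) ^ 2 := le_self_pow₀ (by nlinarith) (by norm_num)
    gcongr
  have di : δ⁻¹ ≤ ε⁻¹ := inv_anti₀ e0 tn.d0
  have hmm : mm ε (δ / 4) (((n ^ 2 : ℕ) : ℝ) * lg ε / (δ / 4)) = n ^ 2 := by
    unfold mm
    rw [show δ / 4 * (((n ^ 2 : ℕ) : ℝ) * lg ε / (δ / 4)) / lg ε = ((n ^ 2 : ℕ) : ℝ) by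
      have : lg ε ≠ 0 := by linarith
      field_simp]
    exact Nat.floor_natCast _
  obtain ⟨hS, tB⟩ := tB p p eb v u (δ / 4) (((n ^ 2 : ℕ) : ℝ) * lg ε / (δ / 4)) Λ tf.sp tf.sp
    tf.on (by positivity) Λp.le t.cb (fun y => (t.nb y).1) t.neg t.sq
  rw [hmm] at hS tB
  have hP := tf.sp.cv (ε ^ 120)
  have cr := continuous_rr e0 e2 δ n l tf.s1.cont tf.s2.cont tf.sp.cont
  have br := rr_mem (ε := ε) dp.le tn.d1 n l q₁ q₂ p
  have F := first e0 e2 (tf.s1.cv (ε ^ 120)).cont (tf.s2.cv (ε ^ 120)).cont hP.cont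
    (continuous_dd hP.cd1 u) (show 0 < δ / 4 by positivity) n l Λ u
  have hU : ∀ y, |∑ k ∈ Finset.range (n ^ 2), (ln (ε ^ 52) u (th (ε ^ 52)) (fun z =>
      dd (cv (ε ^ 120) p) u z • phk ε (n ^ 2) l k (qk n k (cv (ε ^ 120) q₁ z)
        (cv (ε ^ 120) q₂ z)) (cv (ε ^ 120) p z)) y).re -
      ∑ k ∈ Finset.range (n ^ 2), (U2 ε n l q₁ q₂ p u k y).re| ≤ (n : ℝ) ^ 2 * ε ^ 25 := by
    intro y
    rw [← Finset.sum_sub_distrib]
    refine (Finset.abs_sum_le_sum_abs _ _).trans ((Finset.sum_le_card_nsmul _ _ (ε ^ 25)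
      fun k hk => ?_).trans_eq (by rw [Finset.card_range, nsmul_eq_mul, Nat.cast_pow]))
    have hk' := Finset.mem_range.1 hk
    rw [← Complex.sub_re]
    refine (Complex.abs_re_le_norm _).trans ?_
    rw [norm_sub_rev]
    have := ((tA _ p u u (n ^ 2) k l 0 (sm_qk tf.s1 tf.s2 hk') tf.sp hu hu hk' tn.l1
      (by rw [Nat.cast_pow]; exact f3) tn.l4 (by rw [abs_zero]; positivity)).2.2 y).1
    unfold Ub at this
    simp only [cv_qk tf.s1.cont tf.s2.cont] at this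
    exact this
  have lf' : ∀ y, ln (ε ^ 52) u (fun _ => 1)
      (fun z => W1 ε (cv (ε ^ 120) p z) / ε ^ 70 * dd (cv (ε ^ 120) p) u z) y ≤ 4 := fun y => by
    rw [Test.ln_one]
    exact (lf _ _ (hasDerivAt_line hP.cd1 u y) ((continuous_dd hP.cd1 u).comp (by fun_prop))
      fun τ => hP.dd_le hu _).2
  have bp : ∀ z, |dd (cv (ε ^ 120) p) u z| ≤ ε⁻¹ := hP.dd_le hu
  have cp := continuous_dd hP.cd1 u
  have cW : Continuous fun y => W1 ε (cv (ε ^ 120) p y) := (Test.cont_W1 e0 e2).comp hP.cont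
  have hW := fun z => W1_mem ε (cv (ε ^ 120) p z)
  have hSg : ∀ y, Sg ε (δ / 4) Λ (n ^ 2) p u y = ln (ε ^ 52) u (th (ε ^ 52)) (fun z =>
    W0 ε (cv (ε ^ 120) p z) * (Λ - dd (cv (ε ^ 120) p) u z)) y * (((n ^ 2 : ℕ) : ℝ) / ε ^ 70) /
      (δ / 4) := fun y => rfl
  have hrr : ∀ z, 1 + δ / 4 * g2 ε n l (cv (ε ^ 120) q₁ z, cv (ε ^ 120) q₂ z, cv (ε ^ 120) p z) =
    rr ε δ n l q₁ q₂ p z := fun z => rfl
  simp only [hrr, ← hSg] at F
  have m0 := t.m0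
  have m1 := t.m1
  have m3 := t.m3
  have ce := t.cb
  have be := t.nb
  refine ⟨hS, ?_⟩
  generalize Sg ε (δ / 4) Λ (n ^ 2) p u = S at tB F ⊢
  replace tB := fun y => (tB y).2
  rw [Nat.cast_pow] at tB F
  generalize rr ε δ n l q₁ q₂ p = r at cr br F m3
  generalize dd (cv (ε ^ 120) p) u = pt at F hU lf' bp cp m3
  generalize hWW : (fun y => W1 ε (cv (ε ^ 120) p y)) = W at cW m0
  have hW' : ∀ z, W1 ε (cv (ε ^ 120) p z) = W z := fun z => by rw [← hWW]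
  simp only [hW'] at F tB lf' hW m1 m3
  have bx : ∀ z, (r z * pt z - Λ) ^ 2 ≤ 9 * ε⁻¹ ^ 2 := fun z => by
    have a1 := abs_sub (r z * pt z) Λ
    rw [abs_mul, abs_of_pos Λp, abs_of_nonneg (by linarith [(br z).1] : 0 ≤ r z)] at a1
    have a2 : r z * |pt z| ≤ 3 / 2 * ε⁻¹ := mul_le_mul (br z).2 (bp z) (abs_nonneg _) (by norm_num)
    rw [← sq_abs, show 9 * ε⁻¹ ^ 2 = (3 * ε⁻¹) ^ 2 by ring]
    exact pow_le_pow_left₀ (abs_nonneg _) (by linarith) 2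
  have i8 : ∀ {c : ℝ}, c ≤ 100 → c * ε⁻¹ ^ 2 ≤ ε⁻¹ ^ 8 := fun {c} hc => by
    calc c * ε⁻¹ ^ 2 ≤ ε⁻¹ * ε⁻¹ ^ 2 := by gcongr; linarith
      _ = ε⁻¹ ^ 3 := by ring
      _ ≤ _ := pow_le_pow_right₀ (by linarith) (by norm_num)
  have aW : ∀ {x B : ℝ} (z : E d), 0 ≤ x → x ≤ B → |W z * x| ≤ B := fun {x B} z a1 a2 => by
    rw [abs_of_nonneg (mul_nonneg (hW z).1 a1)]
    exact (mul_le_of_le_one_left a1 (hW z).2).trans a2
  obtain ⟨A, hA⟩ : ∃ A : E d → ℝ, A = ln (ε ^ 52) u (fun _ => 1)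
    fun z => 4 / Λ / ε ^ 70 * (W z * (r z * pt z - Λ) ^ 2) := ⟨_, rfl⟩
  obtain ⟨w, hw⟩ : ∃ w : E d → ℝ, w = fun y => ln (ε ^ 52) u (fun _ => 1)
    (fun z => 2 * W z * eb z) y / ε ^ 70 := ⟨_, rfl⟩
  obtain ⟨Z, hZ⟩ : ∃ Z : E d → ℝ, Z = ln (ε ^ 52) u (fun _ => 1)
    fun z => 2 * W z / ε ^ 53 := ⟨_, rfl⟩
  have cA : Continuous A := by rw [hA]; exact Test.cont_ln (by fun_prop) _ _
  have cw : Continuous w := by rw [hw]; exact (Test.cont_ln (by fun_prop) _ _).div_const _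
  have cZ : Continuous Z := by rw [hZ]; exact Test.cont_ln (by fun_prop) _ _
  have A0 : ∀ y, 0 ≤ A y := fun y => by
    rw [hA]; exact Test.ln_nonneg (by positivity) _ (fun z => by have := (hW z).1; positivity) _
  have w0 : ∀ y, 0 ≤ w y := fun y => by
    rw [hw]
    exact div_nonneg (Test.ln_nonneg (by positivity) _
      (fun z => by have := (hW z).1; have := (be z).1; positivity) _) (by positivity)
  have Z0 : ∀ y, 0 ≤ Z y := fun y => by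
    rw [hZ]; exact Test.ln_nonneg (by positivity) _ (fun z => by have := (hW z).1; positivity) _
  have Λi : 4 / Λ ≤ 16 := by rw [div_le_iff₀ Λp]; linarith [tn.L0]
  have A1 : ∀ y, A y ≤ 864 * ε⁻¹ ^ 20 := fun y => by
    rw [hA]
    refine (ln_le e0 (B := 16 / ε ^ 70 * (9 * ε⁻¹ ^ 2)) (by fun_prop) (fun z => ?_) u y).trans_eq
      (by field_simp; norm_num)
    exact mul_le_mul (div_le_div_of_nonneg_right Λi (by positivity))
      ((le_abs_self _).trans (aW z (sq_nonneg _) (bx z)))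
      (mul_nonneg (hW z).1 (sq_nonneg _)) (by positivity)
  have w1 : ∀ y, w y ≤ 12 * ε⁻¹ ^ 20 := fun y => by
    rw [hw]
    refine (div_le_div_of_nonneg_right (ln_le e0 (B := 2 * ε⁻¹ ^ 2) (by fun_prop) (fun z => ?_) u y)
      (by positivity)).trans_eq (by field_simp; norm_num)
    rw [mul_assoc]
    exact mul_le_mul_of_nonneg_left ((le_abs_self _).trans (aW z (be z).1 (be z).2)) zero_le_two
  have Z1 : ∀ y, Z y ≤ 12 * ε⁻¹ := fun y => by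
    rw [hZ]
    refine (ln_le e0 (B := 2 * 1 / ε ^ 53) (by fun_prop) (fun z => ?_) u y).trans_eq
      (by field_simp; norm_num)
    have := (hW z).2
    gcongr
  have mA : cv 1 A y₀ ≤ 24 * (C₀ * (1 / (lg ε * l)) ^ 2 * (Λ * ε ^ 2)) + 16 * ε ^ 25 := by
    have k := Test.key1 (c := 4 / Λ) (a := C₀ * (1 / (lg ε * l)) ^ 2 * Λ ^ 2)
      (G := fun z => 4 / Λ / ε ^ 70 * (W z * (r z * pt z - Λ) ^ 2)) e0 eC hu (by fun_prop)
      (by fun_prop) (by positivity) (fun z => aW z (sq_nonneg _) ((bx z).trans (i8 (by norm_num))))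
      (fun z => le_rfl) m3
    rw [← hA, mul_add] at k
    have k2 : 4 / Λ * (6 * (C₀ * (1 / (lg ε * l)) ^ 2 * Λ ^ 2) * ε ^ 2) =
        24 * (C₀ * (1 / (lg ε * l)) ^ 2 * (Λ * ε ^ 2)) := by
      generalize (1 / (lg ε * l)) = b
      field_simp; ring
    have k3 := mul_le_mul_of_nonneg_right Λi (show 0 ≤ ε ^ 25 by positivity)
    linarith
  have mw : cv 1 w y₀ ≤ 12 * (C₀ * (1 / (lg ε * l)) ^ 2 * (Λ * ε ^ 2)) + 2 * ε ^ 25 := by
    have k := Test.key1 (c := 2 * ε ^ 70) (a := C₀ * (1 / (lg ε * l)) ^ 2 * Λ)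
      (G := fun z => 2 * W z * eb z) e0 eC hu (by fun_prop) (by fun_prop) (by positivity)
      (fun z => aW z (be z).1 ((be z).2.trans (by simpa using i8 (c := 1) (by norm_num))))
      (fun z => le_of_eq (by field_simp)) m1
    rw [hw, cv_div_const, div_le_iff₀ (by positivity)]
    linarith
  have mZ : cv 1 Z y₀ ≤ 98 * ε ^ 19 := by
    have k := Test.key1 (c := 2 * ε ^ 17) (a := 8) (G := fun z => 2 * W z / ε ^ 53)
      e0 eC hu (by fun_prop) cW (by positivity)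
      (fun z => by
        rw [abs_of_nonneg (hW z).1]
        exact (hW z).2.trans (one_le_pow₀ (by linarith)))
      (fun z => le_of_eq (by field_simp)) m0
    have : ε ^ 42 ≤ ε ^ 19 := pow_le_pow_of_le_one e0.le e3 (by norm_num)
    rw [hZ]
    linarith
  obtain ⟨c₁, hc₁⟩ : ∃ c, c = 4 * (n : ℝ) ^ 2 / δ := ⟨_, rfl⟩
  obtain ⟨c₂, hc₂⟩ : ∃ c, c = 16 * Λ ^ 2 / (δ * l * X₁) := ⟨_, rfl⟩
  obtain ⟨c₃, hc₃⟩ : ∃ c, c = 16 * Λ / (δ * l * X₁) := ⟨_, rfl⟩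
  have p1 : 0 ≤ c₁ := by rw [hc₁]; positivity
  have p2 : 0 ≤ c₂ := by rw [hc₂]; positivity
  have p3 : 0 ≤ c₃ := by rw [hc₃]; positivity
  have b1 : c₁ ≤ 4 * ε⁻¹ ^ 2 := by
    rw [hc₁, div_eq_mul_inv, sq ε⁻¹, ← mul_assoc]; gcongr
  have b2 : c₂ ≤ 16 * ε⁻¹ ^ 2 := by
    rw [hc₂]; refine (div_le_self (by positivity) g1).trans ?_; gcongr
  have b3 : c₃ ≤ 16 * ε⁻¹ := by
    rw [hc₃]; refine (div_le_self (by positivity) g1).trans ?_; gcongr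
  have sA : ∀ y, (2 * c₁ * √(A y)) ^ 2 = (2 * c₁) ^ 2 * A y := fun y => by
    rw [mul_pow, Real.sq_sqrt (A0 y)]
  have sw : ∀ y, (2 * c₂ * √(w y)) ^ 2 = (2 * c₂) ^ 2 * w y := fun y => by
    rw [mul_pow, Real.sq_sqrt (w0 y)]
  refine ⟨fun y => 2 * c₁ * √(A y), fun y => c₁ * A y + (n : ℝ) ^ 2 * ε ^ 25,
    fun y => 2 * c₂ * √(w y), fun y => c₂ * w y + c₃ * Z y, by fun_prop, by fun_prop, by fun_prop,
    by fun_prop, fun y => ?_, ?_⟩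
  · have := A0 y; have := w0 y; have := Z0 y; have := A1 y; have := w1 y; have := Z1 y
    refine ⟨by positivity, by positivity, by positivity, by positivity, ?_, ?_, ?_, ?_, ?_, ?_⟩
    · rw [sA]
      refine crude e0 e1 (k := 24) (c := 64 * 864) (by norm_num) (by norm_num) ?_
      calc (2 * c₁) ^ 2 * A y ≤ (2 * (4 * ε⁻¹ ^ 2)) ^ 2 * (864 * ε⁻¹ ^ 20) := by gcongr
        _ = _ := by ring
    · refine crude e0 e1 (k := 22) (c := 4 * 864 + 1) (by norm_num) (by norm_num) ?_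
      have a1 : c₁ * A y ≤ 4 * ε⁻¹ ^ 2 * (864 * ε⁻¹ ^ 20) := by gcongr
      have a2 : (n : ℝ) ^ 2 * ε ^ 25 ≤ ε⁻¹ ^ 22 * 1 :=
        mul_le_mul (me.trans (le_self_pow₀ (by linarith) (by norm_num))) (pow_le_one₀ e0.le e3)
          (by positivity) (by positivity)
      calc _ ≤ 4 * ε⁻¹ ^ 2 * (864 * ε⁻¹ ^ 20) + ε⁻¹ ^ 22 * 1 := add_le_add a1 a2
        _ = _ := by ring
    · rw [sw]
      refine crude e0 e1 (k := 24) (c := 1024 * 12) (by norm_num) (by norm_num) ?_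
      calc (2 * c₂) ^ 2 * w y ≤ (2 * (16 * ε⁻¹ ^ 2)) ^ 2 * (12 * ε⁻¹ ^ 20) := by gcongr
        _ = _ := by ring
    · refine crude e0 e1 (k := 22) (c := 16 * 12 + 16 * 12) (by norm_num) (by norm_num) ?_
      have a1 : c₂ * w y ≤ 16 * ε⁻¹ ^ 2 * (12 * ε⁻¹ ^ 20) := by gcongr
      have a2 : c₃ * Z y ≤ 16 * ε⁻¹ * (12 * ε⁻¹) := by gcongr
      have a3 : ε⁻¹ ^ 2 ≤ ε⁻¹ ^ 22 := pow_le_pow_right₀ (by linarith) (by norm_num)
      calc _ ≤ 16 * ε⁻¹ ^ 2 * (12 * ε⁻¹ ^ 20) + 16 * ε⁻¹ * (12 * ε⁻¹) := add_le_add a1 a2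
        _ = 16 * 12 * ε⁻¹ ^ 22 + 16 * 12 * ε⁻¹ ^ 2 := by ring
        _ ≤ _ := by linarith
    · refine (abs_sub_le _ _ _).trans ((add_le_add (F y) (hU y)).trans ?_)
      have k := mul_le_mul_of_nonneg_left (mid e0 cW cr cp (fun z => (hW z).1) br Λp u y (lf' y)
        (A := A y) (by rw [hA])) p1
      have e : ∀ I : ℝ, I * ((n : ℝ) ^ 2 / ε ^ 70) / (δ / 4) = c₁ * (I / ε ^ 70) := fun I => by
        rw [hc₁]; field_simp
      rw [e]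
      linarith
    · refine (tB y (w y) (by rw [hw])).trans_eq ?_
      rw [← hZ, hc₂, hc₃, wlo]
      field_simp
      ring
  · simp only [sA, sw]
    rw [cv_const_mul, cv_const_mul, cv_add (by fun_prop) continuous_const, cv_const,
      cv_add (by fun_prop) (by fun_prop), cv_const_mul, cv_const_mul, cv_const_mul, hc₁, hc₂, hc₃]
    have d1 : δ ≤ 1 := tn.d1.trans (by norm_num)
    rw [pow_one] at eL
    exact num (g := δ * l * X₁) e0 e3 hC₀ tn.d0 d1 n2 f4 L1 eL tn.L0 Λe g1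
      (by positivity) f1 (tn.main.trans_eq (by ring)) mA mw mZ

end Pool.Agent.MP_20bec2_an.b2
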