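import Pool.Agent.MP_20bec2_an.b2.Spec

-- ======== part 0: formerly Pool.Agent.MP_20bec2_an.b2.Tight2
section MrgPart0

/-! Tightness in the slabs (project BIOM2). -/

set_option autoImplicit false

open MeasureTheory Set Metric Filter Topology

noncomputable section

namespace Pool.Agent.MP_20bec2_an.b2

open Pool.Agent.MP_20bec2_an.h7

namespace Tight2

theorem good {β pt pz qt : ℝ} (P : ℝ → Prop) (hβ : 0 < β)
    (h₁ : ∀ c₁ c₂ : ℝ, c₁ ^ 2 + c₂ ^ 2 = 1 → P (c₁ * pz + c₂ * pt))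
    (h₂ : ∀ b : ℝ, |b| ≤ β → P (pt + b * qt)) : P (Tight.ex β pt pz qt + pt) := by
  rcases le_total √(pt ^ 2 + pz ^ 2) (pt + β * |qt|) with h' | h'
  · have e : Tight.ex β pt pz qt + pt = pt + β * |qt| := by
      simp only [Tight.ex, sub_add_cancel]; exact max_eq_right h'
    rw [e]
    rcases le_total 0 qt with h'' | h''
    · rw [abs_of_nonneg h'']
      exact h₂ β (by rw [abs_of_pos hβ])
    · rw [abs_of_nonpos h'', mul_neg, ← neg_mul]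
      exact h₂ (-β) (by rw [abs_neg, abs_of_pos hβ])
  · have e : Tight.ex β pt pz qt + pt = √(pt ^ 2 + pz ^ 2) := by
      simp only [Tight.ex, sub_add_cancel]; exact max_eq_left h'
    obtain ⟨c₁, c₂, hc, hc'⟩ := Tight.unit pt pz
    rw [e, ← hc']
    exact h₁ c₁ c₂ hc

theorem sum3_le {d : ℕ} {f : Fin d → Fin d → Fin d → ℝ} {B : ℝ} (h : ∀ j k l, f j k l ≤ B) :
    ∑ j, ∑ k, ∑ l, f j k l ≤ (d : ℝ) ^ 3 * B :=
  calc ∑ j, ∑ k, ∑ l, f j k l ≤ ∑ _j : Fin d, ∑ _k : Fin d, ∑ _l : Fin d, B :=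
        Finset.sum_le_sum fun j _ => Finset.sum_le_sum fun k _ =>
          Finset.sum_le_sum fun l _ => h j k l
    _ = _ := by simp; ring

theorem sum3_nonneg {d : ℕ} {f : Fin d → Fin d → Fin d → ℝ} (h : ∀ j k l, 0 ≤ f j k l) :
    0 ≤ ∑ j, ∑ k, ∑ l, f j k l :=
  Finset.sum_nonneg fun j _ => Finset.sum_nonneg fun k _ => Finset.sum_nonneg fun l _ => h j k l

theorem sum3_sq {d : ℕ} (r : ℝ) (Y Y₀ : Fin d → Fin d → Fin d → ℝ) :
    ∑ j, ∑ k, ∑ l, (r * Y j k l - Y₀ j k l) ^ 2 =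
      r ^ 2 * ∑ j, ∑ k, ∑ l, Y j k l ^ 2 - 2 * r * ∑ j, ∑ k, ∑ l, Y₀ j k l * Y j k l +
        ∑ j, ∑ k, ∑ l, Y₀ j k l ^ 2 := by
  simp only [Finset.mul_sum, ← Finset.sum_sub_distrib, ← Finset.sum_add_distrib]
  refine Finset.sum_congr rfl fun j _ => Finset.sum_congr rfl fun k _ =>
    Finset.sum_congr rfl fun l _ => by ring

theorem crude {t D M M₂ ν r a S : ℝ} (ht : 100 ≤ t) (hD : 100 * D ≤ t) (_hD0 : 0 ≤ D) (hM : 1 ≤ M)
    (hM₂ : 1 ≤ M₂) (hν : 1 ≤ ν) (hr0 : 0 < r) (hr : r ≤ 3 / 2) (ha0 : 0 ≤ a) (ha : a ≤ 2 * t)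
    (hS0 : 0 ≤ S) (hS : S ≤ D * (4 * t ^ 4)) :
    val2 M M₂ (r * a / ν) (2 * (r ^ 2 * S)) + 12 ≤ t ^ 6 := by
  have a1 : r * a / ν ≤ 3 * t := by
    rw [div_le_iff₀ (by linarith)]
    nlinarith only [mul_le_mul hr ha ha0 (by norm_num), hν, ht]
  have a0 : 0 ≤ r * a / ν := by positivity
  have a2 : 8 * (r * a / ν) ^ 2 / M ^ 2 ≤ 72 * t ^ 2 := by
    refine (div_le_self (by positivity) (one_le_pow₀ hM)).trans ?_
    linarith only [mul_self_le_mul_self a0 a1]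
  have a3 : 2 * (r ^ 2 * S) / M₂ ^ 2 ≤ 18 * D * t ^ 4 := by
    refine (div_le_self (by positivity) (one_le_pow₀ hM₂)).trans ?_
    have : r ^ 2 ≤ 9 / 4 := by nlinarith only [hr0, hr]
    linarith only [mul_le_mul this hS hS0 (by norm_num)]
  have t0 : 0 < t := by linarith
  have b1 : 18 * D * t ^ 4 ≤ t ^ 5 := by
    have : 18 * D ≤ t := by linarith
    calc 18 * D * t ^ 4 ≤ t * t ^ 4 := by gcongr
      _ = _ := by ring
  have b2 : t ^ 2 ≤ t ^ 5 := pow_le_pow_right₀ (by linarith) (by norm_num)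
  have b3 : 1 ≤ t ^ 5 := one_le_pow₀ (by linarith)
  have b4 : 100 * t ^ 5 ≤ t ^ 6 := by
    calc 100 * t ^ 5 ≤ t * t ^ 5 := by gcongr
      _ = _ := by ring
  unfold val2
  linarith

theorem pw {w r D N Λ M M₂ SD ν eb G : ℝ} (w0 : 0 ≤ w) (r0 : 0 < r) (hr : r ≤ 3 / 2) (hD : 0 ≤ D)
    (hS : 0 ≤ SD) (he : 0 ≤ eb) (hν : 1 ≤ ν) (hM : 1 ≤ M) (hM₂ : 1 ≤ M₂) (hΛ : M ≤ 4 * Λ)
    (hG : G = w / r * (D + 8 * (N - Λ) ^ 2 / M ^ 2 + 2 * SD / M₂ ^ 2) +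
      16 * Λ / (ν * M ^ 2) * (w * eb)) :
    w * eb ≤ ν * Λ * G ∧ w * (N - Λ) ^ 2 ≤ 3 * Λ ^ 2 * G ∧ w * SD ≤ M₂ ^ 2 * G := by
  have hΛ0 : 0 < Λ := by linarith
  have wr : w ≤ 3 / 2 * (w / r) := by
    rw [← mul_div_assoc, le_div_iff₀ r0]; nlinarith only [w0, hr]
  have w1 : 0 ≤ w / r := by positivity
  have hM2 : M ^ 2 ≤ 16 * Λ ^ 2 := by nlinarith only [hM, hΛ]
  obtain ⟨A, hA⟩ : ∃ A, A = 8 * (N - Λ) ^ 2 / M ^ 2 := ⟨_, rfl⟩
  obtain ⟨B, hB⟩ : ∃ B, B = 2 * SD / M₂ ^ 2 := ⟨_, rfl⟩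
  obtain ⟨F, hF⟩ : ∃ F, F = 16 * Λ / (ν * M ^ 2) * (w * eb) := ⟨_, rfl⟩
  rw [← hA, ← hB, ← hF] at hG
  have A0 : 0 ≤ A := by rw [hA]; positivity
  have B0 : 0 ≤ B := by rw [hB]; positivity
  have F0 : 0 ≤ F := by rw [hF]; positivity
  have g1 : F ≤ G := by
    rw [hG]; linarith only [mul_nonneg w1 (add_nonneg (add_nonneg hD A0) B0)]
  have g2 : w * A ≤ 3 / 2 * G := by
    rw [hG]
    linarith only [mul_le_mul_of_nonneg_right wr A0, mul_nonneg w1 hD, mul_nonneg w1 B0, F0]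
  have g3 : w * B ≤ 3 / 2 * G := by
    rw [hG]
    linarith only [mul_le_mul_of_nonneg_right wr B0, mul_nonneg w1 hD, mul_nonneg w1 A0, F0]
  have G0 : 0 ≤ G := F0.trans g1
  refine ⟨?_, ?_, ?_⟩
  · have e : w * eb = ν * M ^ 2 / (16 * Λ) * F := by rw [hF]; field_simp
    have b : ν * M ^ 2 / (16 * Λ) ≤ ν * Λ := by
      rw [div_le_iff₀ (by positivity)]; nlinarith only [hM2, hν]
    rw [e]; exact mul_le_mul b g1 F0 (by positivity)
  · have e : w * (N - Λ) ^ 2 = M ^ 2 / 8 * (w * A) := by rw [hA]; field_simp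
    rw [e]
    calc M ^ 2 / 8 * (w * A) ≤ (2 * Λ ^ 2) * (3 / 2 * G) :=
          mul_le_mul (by linarith) g2 (by positivity) (by positivity)
      _ = _ := by ring
  · have e : w * SD = M₂ ^ 2 / 2 * (w * B) := by rw [hB]; field_simp
    rw [e]
    calc M₂ ^ 2 / 2 * (w * B) ≤ M₂ ^ 2 / 2 * (3 / 2 * G) := by gcongr
      _ ≤ _ := by linarith only [mul_nonneg (sq_nonneg M₂) G0]

theorem pw3 {r pt eb ν Λ n c : ℝ} (hr0 : 1 / 2 ≤ r) (hr : r ≤ 3 / 2) (he : 0 ≤ eb)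
    (he2 : eb ≤ 2 * (eb + pt)) (hν : 1 ≤ ν) (hn : ν ≤ n) (hc : ν - 1 ≤ c) (hΛ : 0 < Λ) :
    (r * pt - Λ) ^ 2 ≤ 111 * n ^ 2 * (r * (eb + pt) / ν - Λ) ^ 2 + 3 * c ^ 2 * Λ ^ 2 +
      54 * n * Λ * eb := by
  obtain ⟨x, hx⟩ : ∃ x, x = ν * (r * (eb + pt) / ν - Λ) := ⟨_, rfl⟩
  have hν0 : 0 < ν := by linarith
  have e1 : r * (eb + pt) = x + ν * Λ := by rw [hx]; field_simp; ring
  have e2 : r * pt - Λ = x + (ν - 1) * Λ - r * eb := by linarith
  have a0 : 0 ≤ eb + pt := by linarith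
  have b1 : eb ≤ 4 * (x + ν * Λ) := by rw [← e1]; nlinarith only [hr0, a0, he2]
  have b2 : eb ^ 2 ≤ 8 * ν * Λ * eb + 16 * x ^ 2 := by
    linarith only [mul_le_mul_of_nonneg_left b1 he, sq_nonneg (eb - 4 * x)]
  have b3 : (r * eb) ^ 2 ≤ 9 / 4 * eb ^ 2 := by
    rw [mul_pow]; exact mul_le_mul_of_nonneg_right (by nlinarith only [hr0, hr]) (sq_nonneg _)
  have b4 : ((ν - 1) * Λ) ^ 2 ≤ c ^ 2 * Λ ^ 2 := by
    rw [mul_pow]; gcongr
  have b5 : x ^ 2 ≤ n ^ 2 * (r * (eb + pt) / ν - Λ) ^ 2 := by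
    rw [hx, mul_pow]; gcongr
  have b6 : ν * Λ * eb ≤ n * Λ * eb := by gcongr
  have b7 : (x + (ν - 1) * Λ - r * eb) ^ 2 ≤
      3 * (x ^ 2 + ((ν - 1) * Λ) ^ 2 + (r * eb) ^ 2) := by
    linarith only [sq_nonneg (x - (ν - 1) * Λ), sq_nonneg (x + r * eb),
      sq_nonneg ((ν - 1) * Λ + r * eb)]
  rw [e2]
  linarith only [b2, b3, b4, b5, b6, b7]

theorem mean {ε D C β H M M₂ ν Λ S₀ mA mP mY mB : ℝ} (h0 : 0 < ε) (h100 : 100 * ε ≤ 1)
    (hD : 100 * D * ε ≤ 1) (hD0 : 0 ≤ D) (_hC : 1 ≤ C) (hM : 1 ≤ M) (hM₂ : 1 ≤ M₂) (hH : |H| ≤ 12)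
    (hεβ : ε ≤ β ^ 2) (hν : 1 ≤ ν) (hν' : ν ≤ 1 + C * β ^ 2) (hΛ0 : 0 < Λ) (hΛ : Λ ≤ 2 * M)
    (hS0 : 0 ≤ S₀) (hS : S₀ ≤ D * (4 * ε⁻¹ ^ 4)) (hval : H - C * β ^ 2 ≤ val2 M M₂ Λ (2 * S₀))
    (hA : |mA - 4 * ε ^ 20| ≤ ε ^ 30) (hP : |mP - 4 * ε ^ 20 * Λ| ≤ ε ^ 30)
    (hY : |mY - 4 * ε ^ 20 * S₀| ≤ D * (2 * ε⁻¹ ^ 2 * ε ^ 30)) (hB : mB ≤ 2 * ε ^ 31) :
    (H + ε ^ 2 + val2 M M₂ Λ (2 * S₀)) * mA - 16 * Λ / (ν * M ^ 2) * mP - 4 / M₂ ^ 2 * mY +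
      ε⁻¹ ^ 6 * mB ≤ (260 * C + 5) * β ^ 2 * ε ^ 20 := by
  have h1 : ε ≤ 1 := by linarith
  have hν0 : 0 < ν := by linarith
  have hM0 : 0 < M := by linarith
  obtain ⟨u, hu⟩ : ∃ u, u = 8 * Λ ^ 2 / M ^ 2 := ⟨_, rfl⟩
  obtain ⟨v, hv⟩ : ∃ v, v = 2 * S₀ / M₂ ^ 2 := ⟨_, rfl⟩
  have ev : val2 M M₂ Λ (2 * S₀) = u + v := by rw [hu, hv, val2]
  rw [ev] at hval ⊢
  have u0 : 0 ≤ u := by rw [hu]; positivity
  have u1 : u ≤ 32 := by
    rw [hu, div_le_iff₀ (by positivity)]; nlinarith only [mul_self_le_mul_self hΛ0.le hΛ]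
  have v0 : 0 ≤ v := by rw [hv]; positivity
  have v1 : v ≤ 8 * D * ε⁻¹ ^ 4 := by
    rw [hv]; refine (div_le_self (by positivity) (one_le_pow₀ hM₂)).trans (by linarith)
  obtain ⟨f, hf⟩ : ∃ f, f = 16 * Λ / (ν * M ^ 2) := ⟨_, rfl⟩
  obtain ⟨g, hg⟩ : ∃ g, g = 4 / M₂ ^ 2 := ⟨_, rfl⟩
  rw [← hf, ← hg]
  have f0 : 0 ≤ f := by rw [hf]; positivity
  have f1 : f ≤ 32 := by
    rw [hf, div_le_iff₀ (by positivity)]
    nlinarith only [mul_le_mul hν (show M ≤ M ^ 2 by nlinarith only [hM]) hM0.le hν0.le, hΛ]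
  have g0 : 0 ≤ g := by rw [hg]; positivity
  have g1 : g ≤ 4 := by rw [hg]; exact div_le_self (by norm_num) (one_le_pow₀ hM₂)
  have ef : f * Λ = 2 * u / ν := by rw [hf, hu]; field_simp; ring
  have eg : g * S₀ = 2 * v := by rw [hg, hv]; field_simp; ring
  have e2 : ε ^ 2 ≤ ε := by nlinarith only [h0, h1]
  have hH' := abs_le.1 hH
  have c1 : |H + ε ^ 2 + (u + v)| ≤ 45 + 8 * D * ε⁻¹ ^ 4 := by
    have : 0 ≤ 8 * D * ε⁻¹ ^ 4 := by positivity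
    rw [abs_le]; constructor <;> linarith [sq_nonneg ε, hH'.1, hH'.2]
  have k1 : (H + ε ^ 2 + (u + v)) * (mA - 4 * ε ^ 20) ≤ (45 + 8 * D * ε⁻¹ ^ 4) * ε ^ 30 := by
    refine (le_abs_self _).trans ?_
    rw [abs_mul]; exact mul_le_mul c1 hA (abs_nonneg _) (by positivity)
  have k2 : -(f * (mP - 4 * ε ^ 20 * Λ)) ≤ 32 * ε ^ 30 := by
    refine (neg_le_abs _).trans ?_
    rw [abs_mul, abs_of_nonneg f0]; exact mul_le_mul f1 hP (abs_nonneg _) (by norm_num)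
  have k3 : -(g * (mY - 4 * ε ^ 20 * S₀)) ≤ 4 * (D * (2 * ε⁻¹ ^ 2 * ε ^ 30)) := by
    refine (neg_le_abs _).trans ?_
    rw [abs_mul, abs_of_nonneg g0]; exact mul_le_mul g1 hY (abs_nonneg _) (by norm_num)
  have k4 : ε⁻¹ ^ 6 * mB ≤ ε⁻¹ ^ 6 * (2 * ε ^ 31) := by gcongr
  have i1 : (45 + 8 * D * ε⁻¹ ^ 4) * ε ^ 30 = 45 * ε ^ 30 + 8 * D * ε ^ 26 := by field_simp
  have i2 : 4 * (D * (2 * ε⁻¹ ^ 2 * ε ^ 30)) = 8 * D * ε ^ 28 := by field_simp; ring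
  have i3 : ε⁻¹ ^ 6 * (2 * ε ^ 31) = 2 * ε ^ 25 := by field_simp
  have j1 := mul_pow_le h0 h1 h100 (show 25 < 30 by norm_num)
  have j2 := mul_pow_le h0 h1 hD (show 25 < 26 by norm_num)
  have j3 := mul_pow_le h0 h1 hD (show 25 < 28 by norm_num)
  have j4 := mul_pow_le h0 h1 h100 (show 21 < 25 by norm_num)
  have j5 : ε ^ 21 ≤ β ^ 2 * ε ^ 20 := by rw [pow_succ']; gcongr
  have z0 : 0 < ε ^ 20 := by positivity
  have p30 : 0 < ε ^ 30 := by positivity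
  have p25 : 0 < ε ^ 25 := by positivity
  have m1 : 2 * u - 2 * u / ν ≤ 64 * C * β ^ 2 := by
    have a : 2 * u - 2 * u / ν = 2 * u * ((ν - 1) / ν) := by field_simp
    have b : (ν - 1) / ν ≤ C * β ^ 2 := (div_le_self (by linarith) hν).trans (by linarith)
    rw [a]
    calc 2 * u * ((ν - 1) / ν) ≤ 64 * (C * β ^ 2) :=
          mul_le_mul (by linarith) b (by have : 0 ≤ ν - 1 := by linarith
                                         positivity) (by norm_num)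
      _ = _ := by ring
  have m2 : H + ε ^ 2 + (u + v) - f * Λ - g * S₀ ≤ (65 * C + 1) * β ^ 2 := by
    rw [ef, eg]; linarith
  have m3 := mul_le_mul_of_nonneg_right m2 (show 0 ≤ 4 * ε ^ 20 by positivity)
  rw [i1] at k1
  rw [i2] at k3
  rw [i3] at k4
  linarith only [k1, k2, k3, k4, m3, j1, j2, j3, j4, j5, p30, p25]

end Tight2

open Tight2 in
theorem tight2 (d : ℕ) (_hd : 3 ≤ d) : Tight2Stmt d := by
  intro C hC
  refine ⟨411 * (1 + C) ^ 2 * (260 * C + 5),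
    by nlinarith [mul_pos (show 0 < C by linarith) (show 0 < C by linarith)], small_iff.2 ?_⟩
  filter_upwards [ev_pos, ev_mul_le 100, ev_mul_le (100 * (d : ℝ) ^ 3)] with ε h0 h100 hD wt r pt
    pz q₁ q₂ Bd Y Y₀ y₀ M M₂ H ν Λ β cw cr cpt cpz cq₁ cq₂ cB cY hw hr hb hY hY₀ hB0 hM hM₂ hH hβ
    hβ1 hεβ hν hν' hMΛ hΛ hval ma mY mc md meso
  obtain ⟨K, hK⟩ : ∃ K, K = 260 * C + 5 := ⟨_, rfl⟩
  obtain ⟨n, hn⟩ : ∃ n, n = 1 + C := ⟨_, rfl⟩
  rw [← hK, ← hn]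
  have hK1 : 1 ≤ K := by linarith
  have hn1 : 1 ≤ n := by linarith
  have h1 : ε ≤ 1 := by linarith
  have hβ2 : β ^ 2 ≤ 1 := by nlinarith only [hβ, hβ1]
  have hνn : ν ≤ n := by nlinarith only [hν', hβ2, hC, hn]
  have hν0 : 0 < ν := by linarith
  have hΛ0 : 0 < Λ := by linarith
  have hM0 : 0 < M := by linarith
  have hM₂0 : 0 < M₂ := by linarith
  have ht : 100 ≤ ε⁻¹ := by rw [le_inv_comm₀ (by norm_num) h0]; linarith
  have htD : 100 * (d : ℝ) ^ 3 ≤ ε⁻¹ := by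
    rw [← one_div, le_div_iff₀ h0]; exact hD
  have t0 : 0 < ε⁻¹ := by positivity
  have z0 : 0 < ε ^ 20 := by positivity
  obtain ⟨eb, heb⟩ : ∃ eb : E d → ℝ, ∀ y,
    eb y = max (Tight.ex β (pt y) (pz y) (q₁ y)) (Tight.ex β (pt y) (pz y) (q₂ y)) :=
    ⟨_, fun _ => rfl⟩
  have ceb : Continuous eb := by rw [funext heb]; unfold Tight.ex; fun_prop
  have e21 : ∀ y, β * |q₁ y| ≤ eb y := fun y =>
    heb y ▸ (Tight.ex2 _ _ _ _).trans (le_max_left _ _)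
  have e22 : ∀ y, β * |q₂ y| ≤ eb y := fun y =>
    heb y ▸ (Tight.ex2 _ _ _ _).trans (le_max_right _ _)
  have e0 : ∀ y, 0 ≤ eb y := fun y => le_trans (by positivity) (e21 y)
  have e1 : ∀ y, √(pt y ^ 2 + pz y ^ 2) ≤ eb y + pt y := fun y => by
    have a := Tight.ex1 β (pt y) (pz y) (q₁ y)
    have b := le_max_left (Tight.ex β (pt y) (pz y) (q₁ y)) (Tight.ex β (pt y) (pz y) (q₂ y))
    rw [heb]; linarith
  have e3 : ∀ y, |pt y| ≤ eb y + pt y := fun y =>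
    (Real.abs_le_sqrt (by linarith only [sq_nonneg (pz y)])).trans (e1 y)
  have e3' : ∀ y, 0 ≤ eb y + pt y := fun y => (abs_nonneg _).trans (e3 y)
  have e4 : ∀ y, eb y + pt y ≤ 2 * ε⁻¹ := fun y => by
    have a := Tight.ex4 hβ.le hβ1 (hb y).1 (hb y).2.1 (hb y).2.2.1
    have b := Tight.ex4 hβ.le hβ1 (hb y).1 (hb y).2.1 (hb y).2.2.2
    rw [heb, ← max_add_add_right]; exact max_le a b
  have r0 : ∀ y, 0 < r y := fun y => by linarith [(hr y).1]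
  obtain ⟨SY, hSY⟩ : ∃ SY : E d → ℝ, ∀ y, SY y = ∑ j, ∑ k, ∑ l, Y j k l y ^ 2 := ⟨_, fun _ => rfl⟩
  obtain ⟨SD, hSD⟩ : ∃ SD : E d → ℝ, ∀ y,
    SD y = ∑ j, ∑ k, ∑ l, (r y * Y j k l y - Y₀ j k l) ^ 2 := ⟨_, fun _ => rfl⟩
  obtain ⟨X, hX⟩ : ∃ X : E d → ℝ, ∀ y,
    X y = ∑ j, ∑ k, ∑ l, Y₀ j k l * (wt y * Y j k l y) := ⟨_, fun _ => rfl⟩
  obtain ⟨S₀, hS₀⟩ : ∃ S₀ : ℝ, S₀ = ∑ j, ∑ k, ∑ l, Y₀ j k l ^ 2 := ⟨_, rfl⟩
  simp only [← hSY] at meso
  simp only [← hSD]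
  rw [← hS₀] at hval
  have cSD : Continuous SD := by rw [funext hSD]; fun_prop
  have cX : Continuous X := by rw [funext hX]; fun_prop
  have SD0 : ∀ y, 0 ≤ SD y := fun y => hSD y ▸ sum3_nonneg fun _ _ _ => sq_nonneg _
  have SY0 : ∀ y, 0 ≤ SY y := fun y => hSY y ▸ sum3_nonneg fun _ _ _ => sq_nonneg _
  have S00 : 0 ≤ S₀ := hS₀ ▸ sum3_nonneg fun _ _ _ => sq_nonneg _
  have sq4 : ∀ x : ℝ, |x| ≤ 2 * ε⁻¹ ^ 2 → x ^ 2 ≤ 4 * ε⁻¹ ^ 4 := fun x hx => by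
    have := mul_self_le_mul_self (abs_nonneg _) hx
    rw [abs_mul_abs_self] at this
    nlinarith only [this]
  have SY1 : ∀ y, SY y ≤ (d : ℝ) ^ 3 * (4 * ε⁻¹ ^ 4) := fun y =>
    hSY y ▸ sum3_le fun j k l => sq4 _ (hY j k l y)
  have S01 : S₀ ≤ (d : ℝ) ^ 3 * (4 * ε⁻¹ ^ 4) := hS₀ ▸ sum3_le fun j k l => sq4 _ (hY₀ j k l)
  have SD1 : ∀ y, SD y ≤ (d : ℝ) ^ 3 * (25 * ε⁻¹ ^ 4) := fun y => by
    rw [hSD]
    refine sum3_le fun j k l => ?_
    have a : |r y * Y j k l y| ≤ 3 / 2 * (2 * ε⁻¹ ^ 2) := by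
      rw [abs_mul, abs_of_pos (r0 y)]
      exact mul_le_mul (hr y).2 (hY j k l y) (abs_nonneg _) (by norm_num)
    have b : |r y * Y j k l y - Y₀ j k l| ≤ 5 * ε⁻¹ ^ 2 :=
      (abs_sub _ _).trans (by linarith [hY₀ j k l])
    have := mul_self_le_mul_self (abs_nonneg _) b
    rw [abs_mul_abs_self] at this
    nlinarith only [this]
  have eX : ∀ y, wt y * SD y = wt y * (r y ^ 2 * SY y + S₀) - 2 * r y * X y := fun y => by
    have a : X y = wt y * ∑ j, ∑ k, ∑ l, Y₀ j k l * Y j k l y := by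
      rw [hX]; simp only [Finset.mul_sum]
      exact Finset.sum_congr rfl fun j _ => Finset.sum_congr rfl fun k _ =>
        Finset.sum_congr rfl fun l _ => by ring
    rw [hSD, sum3_sq (r y) (fun j k l => Y j k l y) Y₀, a, hSY, hS₀]; ring
  have mX : |cv 1 X y₀ - 4 * ε ^ 20 * S₀| ≤ (d : ℝ) ^ 3 * (2 * ε⁻¹ ^ 2 * ε ^ 30) := by
    have a : cv 1 X y₀ = ∑ j, ∑ k, ∑ l, Y₀ j k l * cv 1 (fun y => wt y * Y j k l y) y₀ := by
      rw [funext hX, cv_sum _ (fun j _ => by fun_prop)]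
      refine Finset.sum_congr rfl fun j _ => ?_
      rw [cv_sum _ (fun k _ => by fun_prop)]
      refine Finset.sum_congr rfl fun k _ => ?_
      rw [cv_sum _ (fun l _ => by fun_prop)]
      exact Finset.sum_congr rfl fun l _ => cv_const_mul _ _ _ _
    have b : cv 1 X y₀ - 4 * ε ^ 20 * S₀ = ∑ j, ∑ k, ∑ l,
        Y₀ j k l * (cv 1 (fun y => wt y * Y j k l y) y₀ - 4 * ε ^ 20 * Y₀ j k l) := by
      rw [a, hS₀]
      simp only [Finset.mul_sum, ← Finset.sum_sub_distrib]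
      exact Finset.sum_congr rfl fun j _ => Finset.sum_congr rfl fun k _ =>
        Finset.sum_congr rfl fun l _ => by ring
    have c : ∀ j k l, |Y₀ j k l * (cv 1 (fun y => wt y * Y j k l y) y₀ - 4 * ε ^ 20 * Y₀ j k l)| ≤
        2 * ε⁻¹ ^ 2 * ε ^ 30 := fun j k l => by
      rw [abs_mul]; exact mul_le_mul (hY₀ j k l) (mY j k l) (abs_nonneg _) (by positivity)
    rw [b, abs_le]
    refine ⟨?_, sum3_le fun j k l => (abs_le.1 (c j k l)).2⟩
    have := sum3_le (f := fun j k l =>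
      -(Y₀ j k l * (cv 1 (fun y => wt y * Y j k l y) y₀ - 4 * ε ^ 20 * Y₀ j k l)))
      fun j k l => (neg_le_abs _).trans (c j k l)
    simp only [Finset.sum_neg_distrib] at this
    linarith
  obtain ⟨c₀, hc₀⟩ : ∃ c₀, c₀ = H + ε ^ 2 + val2 M M₂ Λ (2 * S₀) := ⟨_, rfl⟩
  obtain ⟨G, hG⟩ : ∃ G : E d → ℝ, ∀ y, G y = c₀ * (wt y / r y) -
    16 * Λ / (ν * M ^ 2) * (wt y * pt y) - 4 / M₂ ^ 2 * X y +
      ε⁻¹ ^ 6 * (wt y * Bd y / r y) := ⟨_, fun _ => rfl⟩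
  have cwr : Continuous fun y => wt y / r y := cw.div cr fun y => (r0 y).ne'
  have cwB : Continuous fun y => wt y * Bd y / r y := (cw.mul cB).div cr fun y => (r0 y).ne'
  have cG : Continuous G := by rw [funext hG]; fun_prop
  have mB : cv 1 (fun y => wt y * Bd y / r y) y₀ ≤ 2 * ε ^ 31 := by
    have a : cv 1 (fun y => wt y * Bd y / r y) y₀ ≤ cv 1 (fun y => 2 * (wt y * Bd y)) y₀ :=
      cv_mono cwB (by fun_prop) zero_le_one fun y _ => by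
        rw [div_le_iff₀ (r0 y)]
        nlinarith only [mul_nonneg (hw y).1 (hB0 y), (hr y).1]
    rw [cv_const_mul] at a
    linarith
  have EG : cv 1 G y₀ ≤ K * β ^ 2 * ε ^ 20 := by
    rw [funext hG, cv_add (by fun_prop) (by fun_prop), cv_sub (by fun_prop) (by fun_prop),
      cv_sub (by fun_prop) (by fun_prop), cv_const_mul, cv_const_mul, cv_const_mul, cv_const_mul,
      hc₀, hK]
    exact mean h0 h100 hD (by positivity) hC hM hM₂ hH hεβ hν hν' hΛ0 hΛ S00 S01 hval mc ma mX mB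
  obtain ⟨N, hN⟩ : ∃ N : E d → ℝ, ∀ y, N y = r y * (eb y + pt y) / ν := ⟨_, fun _ => rfl⟩
  obtain ⟨D, hD'⟩ : ∃ D : E d → ℝ, ∀ y, D y = H + ε ^ 2 -
    val2 M M₂ (N y) (2 * (r y ^ 2 * SY y)) + ε⁻¹ ^ 6 * Bd y := ⟨_, fun _ => rfl⟩
  have hD0 : ∀ y ∈ closedBall y₀ 1, 0 ≤ D y := fun y hy => by
    have bB : 0 ≤ ε⁻¹ ^ 6 * Bd y := mul_nonneg (by positivity) (hB0 y)
    rcases lt_or_ge (Bd y) 1 with h | h
    · have a := good (fun s => val2 M M₂ (r y * s / ν) (2 * (r y ^ 2 * SY y)) ≤ H + ε ^ 2) hβ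
        (meso y hy h).1 fun b hb => ((meso y hy h).2 b hb).1
      have b := good (fun s => val2 M M₂ (r y * s / ν) (2 * (r y ^ 2 * SY y)) ≤ H + ε ^ 2) hβ
        (meso y hy h).1 fun b hb => ((meso y hy h).2 b hb).2
      have c : val2 M M₂ (N y) (2 * (r y ^ 2 * SY y)) ≤ H + ε ^ 2 := by
        rw [hN, heb]
        rcases max_choice (Tight.ex β (pt y) (pz y) (q₁ y)) (Tight.ex β (pt y) (pz y) (q₂ y))
          with h' | h' <;> rw [h']
        exacts [a, b]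
      rw [hD']; linarith
    · have a := crude ht htD (by positivity) hM hM₂ hν (r0 y) (hr y).2 (e3' y) (e4 y) (SY0 y)
        (SY1 y)
      have a4 : ε⁻¹ ^ 6 * 1 ≤ ε⁻¹ ^ 6 * Bd y := by gcongr
      have a5 := (abs_le.1 hH).1
      rw [hD', hN]; linarith only [a, a4, a5, sq_nonneg ε]
  have hGe : ∀ y, G y = wt y / r y * (D y + 8 * (N y - Λ) ^ 2 / M ^ 2 + 2 * SD y / M₂ ^ 2) +
      16 * Λ / (ν * M ^ 2) * (wt y * eb y) := fun y => by
    have a := (r0 y).ne'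
    have b : X y = (wt y * (r y ^ 2 * SY y + S₀) - wt y * SD y) / (2 * r y) := by
      rw [eX]; field_simp; ring
    rw [hG, hD', hc₀, hN, b, val2, val2]; field_simp; ring
  have P := fun y (hy : y ∈ closedBall y₀ 1) => pw (hw y).1 (r0 y) (hr y).2 (hD0 y hy) (SD0 y)
    (e0 y) hν hM hM₂ hMΛ (hGe y)
  have G0 : ∀ y ∈ closedBall y₀ 1, 0 ≤ G y := fun y hy =>
    nonneg_of_mul_nonneg_right ((mul_nonneg (hw y).1 (SD0 y)).trans (P y hy).2.2) (by positivity)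
  have m0 : cv 1 wt y₀ ≤ 8 * ε ^ 20 := by
    have a : cv 1 wt y₀ ≤ cv 1 (fun y => 3 / 2 * (wt y / r y)) y₀ :=
      cv_mono cw (by fun_prop) zero_le_one fun y _ => by
        rw [← mul_div_assoc, le_div_iff₀ (r0 y)]; nlinarith only [(hw y).1, (hr y).2]
    rw [cv_const_mul] at a
    have b : ε ^ 30 ≤ ε ^ 20 := pow_le_pow_of_le_one h0.le h1 (by norm_num)
    linarith [(abs_le.1 mc).2]
  have m1 : cv 1 (fun y => wt y * eb y) y₀ ≤ n * K * (β ^ 2 * Λ * ε ^ 20) := by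
    have a : cv 1 (fun y => wt y * eb y) y₀ ≤ cv 1 (fun y => n * Λ * G y) y₀ :=
      cv_mono (by fun_prop) (by fun_prop) zero_le_one fun y hy =>
        (P y hy).1.trans (mul_le_mul_of_nonneg_right (by gcongr) (G0 y hy))
    rw [cv_const_mul] at a
    calc _ ≤ n * Λ * (K * β ^ 2 * ε ^ 20) := a.trans (by gcongr)
      _ = _ := by ring
  have nK : n * K ≤ n ^ 2 * K := by gcongr; nlinarith only [hn1]
  have nK0 : 0 < n ^ 2 * K := by positivity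
  refine ⟨eb, ceb, by fun_prop, fun y => ⟨e0 y, ?_⟩, fun y => ⟨Real.sqrt_nonneg _, ?_⟩,
    fun y => by linarith [e3' y], fun y => ?_, m0, ?_, ?_, ?_, ?_⟩
  · have := (abs_le.1 (hb y).1).1
    nlinarith only [this, e4 y, ht]
  · refine Real.sqrt_le_iff.2 ⟨by positivity, (SD1 y).trans ?_⟩
    have a : (d : ℝ) ^ 3 * 25 ≤ ε⁻¹ ^ 2 := by nlinarith only [ht, htD]
    calc (d : ℝ) ^ 3 * (25 * ε⁻¹ ^ 4) = (d : ℝ) ^ 3 * 25 * ε⁻¹ ^ 4 := by ring
      _ ≤ ε⁻¹ ^ 2 * ε⁻¹ ^ 4 := by gcongr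
      _ = _ := by ring
  · have a := mul_self_le_mul_self (Real.sqrt_nonneg _) (e1 y)
    rw [Real.mul_self_sqrt (by positivity)] at a
    nlinarith only [a]
  · have a : 0 < β ^ 2 * Λ * ε ^ 20 := by positivity
    calc _ ≤ n * K * (β ^ 2 * Λ * ε ^ 20) := m1
      _ ≤ 411 * n ^ 2 * K * (β ^ 2 * Λ * ε ^ 20) := by gcongr ?_ * _; linarith
      _ = _ := by ring
  · have a : cv 1 (fun y => wt y * (|q₁ y| + |q₂ y|)) y₀ ≤
        cv 1 (fun y => 2 / β * (wt y * eb y)) y₀ :=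
      cv_mono (by fun_prop) (by fun_prop) zero_le_one fun y _ => by
        rw [div_mul_eq_mul_div, le_div_iff₀ hβ]
        linarith only [mul_le_mul_of_nonneg_left (add_le_add (e21 y) (e22 y)) (hw y).1]
    rw [cv_const_mul] at a
    have b : 0 < β * Λ * ε ^ 20 := by positivity
    calc _ ≤ 2 / β * (n * K * (β ^ 2 * Λ * ε ^ 20)) := a.trans (by gcongr)
      _ = 2 * (n * K) * (β * Λ * ε ^ 20) := by field_simp
      _ ≤ 411 * n ^ 2 * K * (β * Λ * ε ^ 20) := by gcongr ?_ * _; linarith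
      _ = _ := by ring
  · have a : cv 1 (fun y => wt y * (r y * pt y - Λ) ^ 2) y₀ ≤
        cv 1 (fun y => 387 * n ^ 2 * Λ ^ 2 * G y + 3 * (C * β ^ 2) ^ 2 * Λ ^ 2 * wt y) y₀ :=
      cv_mono (by fun_prop) (by fun_prop) zero_le_one fun y hy => by
        have b := pw3 (c := C * β ^ 2) (pt := pt y) (hr y).1 (hr y).2 (e0 y)
          (by linarith [e3 y, neg_abs_le (pt y)]) hν hνn (by linarith) hΛ0
        rw [← hN] at b
        have b1 := mul_le_mul_of_nonneg_left b (hw y).1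
        have b2 := mul_le_mul_of_nonneg_left (P y hy).2.1 (show 0 ≤ 111 * n ^ 2 by positivity)
        have b3 : wt y * eb y ≤ n * Λ * G y :=
          (P y hy).1.trans (mul_le_mul_of_nonneg_right (by gcongr) (G0 y hy))
        have b4 := mul_le_mul_of_nonneg_left b3 (show 0 ≤ 54 * n * Λ by positivity)
        linarith only [b1, b2, b4]
    rw [cv_add (by fun_prop) (by fun_prop), cv_const_mul, cv_const_mul] at a
    have b : (C * β ^ 2) ^ 2 ≤ n ^ 2 * K * β ^ 2 := by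
      have b1 : C ^ 2 ≤ n ^ 2 * K := by nlinarith only [hC, hn, hK1, sq_nonneg n]
      calc (C * β ^ 2) ^ 2 = C ^ 2 * β ^ 2 * β ^ 2 := by ring
        _ ≤ n ^ 2 * K * 1 * β ^ 2 := by gcongr
        _ = _ := by ring
    calc _ ≤ 387 * n ^ 2 * Λ ^ 2 * (K * β ^ 2 * ε ^ 20) +
          3 * (n ^ 2 * K * β ^ 2) * Λ ^ 2 * (8 * ε ^ 20) := by
          refine a.trans (add_le_add (by gcongr) ?_)
          exact mul_le_mul (by gcongr) m0 (cv_nonneg (fun y => (hw y).1) _ _) (by positivity)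
      _ = _ := by ring
  · have a : cv 1 (fun y => wt y * √(SD y) ^ 2) y₀ ≤ cv 1 (fun y => M₂ ^ 2 * G y) y₀ :=
      cv_mono (by fun_prop) (by fun_prop) zero_le_one fun y hy => by
        rw [Real.sq_sqrt (SD0 y)]; exact (P y hy).2.2
    rw [cv_const_mul] at a
    have b : K ≤ n ^ 2 * K := le_mul_of_one_le_left (by linarith) (one_le_pow₀ hn1)
    calc _ ≤ M₂ ^ 2 * (K * β ^ 2 * ε ^ 20) := a.trans (by gcongr)
      _ = K * (β ^ 2 * M₂ ^ 2 * ε ^ 20) := by ring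
      _ ≤ 411 * n ^ 2 * K * (β ^ 2 * M₂ ^ 2 * ε ^ 20) := by gcongr ?_ * _; linarith
      _ = _ := by ring

end Pool.Agent.MP_20bec2_an.b2

end
end MrgPart0

-- ======== part 1: formerly Pool.Agent.MP_20bec2_an.b2.Freq2
section MrgPart1

/-! The leaf sums have almost pure frequencies. -/

set_option autoImplicit false

open MeasureTheory Set Metric Filter Topology

noncomputable section

namespace Pool.Agent.MP_20bec2_an.b2

open Pool.Agent.MP_20bec2_an.h7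

namespace Frq

variable {d : ℕ} {ε : ℝ}

theorem ka_mem {n : ℕ} (hn : 0 < n) (k : ℕ) : 0 ≤ ka n k ∧ ka n k ≤ 3 := by
  have h0 : (0 : ℝ) < n := by exact_mod_cast hn
  have h1 : ((k % n : ℕ) : ℝ) / n ≤ 1 := by
    rw [div_le_one h0]; exact_mod_cast (Nat.mod_lt k hn).le
  unfold ka
  exact ⟨by positivity, by linarith⟩

theorem kb_mem {n k : ℕ} (hn : 0 < n) (hk : k < n ^ 2) : 0 ≤ kb n k ∧ kb n k ≤ 1 := by
  have h0 : (0 : ℝ) < n := by exact_mod_cast hn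
  have h1 : k / n ≤ n := Nat.div_le_of_le_mul (by nlinarith)
  unfold kb
  exact ⟨by positivity, by rw [div_le_one h0]; exact_mod_cast h1⟩

/-- the denominator -/
def dn (n k : ℕ) : ℝ := 4 * (1 + (k : ℝ) / ((n ^ 2 : ℕ) : ℝ))

theorem dn_ge (n k : ℕ) : 4 ≤ dn n k := by
  have : (0 : ℝ) ≤ (k : ℝ) / ((n ^ 2 : ℕ) : ℝ) := by positivity
  unfold dn; linarith

theorem qk_eq (n k : ℕ) (q₁ q₂ : E d → ℝ) : (fun z => qk n k (q₁ z) (q₂ z)) =
    fun z => ka n k / dn n k * q₁ z + kb n k / dn n k * q₂ z := by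
  funext z; unfold qk dn; ring

theorem fd_comb {q₁ q₂ : E d → ℝ} (h1 : ContDiff ℝ 1 q₁) (h2 : ContDiff ℝ 1 q₂) (a b : ℝ)
    (y : E d) : fderiv ℝ (fun z => a * q₁ z + b * q₂ z) y =
      a • fderiv ℝ q₁ y + b • fderiv ℝ q₂ y :=
  (((h1.differentiable one_ne_zero y).hasFDerivAt.const_mul a).add
    ((h2.differentiable one_ne_zero y).hasFDerivAt.const_mul b)).fderiv

theorem sm_q {L : ℝ} {n k : ℕ} (hn : 0 < n) (hk : k < n ^ 2) {q₁ q₂ : E d → ℝ} (h1 : Sm L q₁)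
    (h2 : Sm L q₂) : Sm L fun z => qk n k (q₁ z) (q₂ z) := by
  rw [qk_eq]
  refine ⟨(contDiff_const.mul h1.cd).add (contDiff_const.mul h2.cd), fun y => ?_⟩
  rw [fd_comb h1.cd1 h2.cd1]
  have a := ka_mem hn k
  have b := kb_mem hn hk
  have c := dn_ge n k
  have c0 : 0 < dn n k := by linarith
  have a1 : ka n k / dn n k ≤ 3 / 4 := by rw [div_le_iff₀ c0]; linarith [a.2]
  have b1 : kb n k / dn n k ≤ 1 / 4 := by rw [div_le_iff₀ c0]; linarith [b.2]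
  refine (norm_add_le _ _).trans ?_
  rw [norm_smul, norm_smul, Real.norm_of_nonneg (div_nonneg a.1 c0.le),
    Real.norm_of_nonneg (div_nonneg b.1 c0.le)]
  have e1 := mul_le_mul a1 (h1.bd y) (norm_nonneg _) (by norm_num)
  have e2 := mul_le_mul b1 (h2.bd y) (norm_nonneg _) (by norm_num)
  linarith

theorem cv_jac_q (n k : ℕ) {q₁ q₂ p : E d → ℝ} (h1 : ContDiff ℝ 1 q₁) (h2 : ContDiff ℝ 1 q₂)
    (hp : ContDiff ℝ 1 p) (μ : ℝ) (v' u y : E d) :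
    cv μ (jac (fun z => qk n k (q₁ z) (q₂ z)) p v' u) y =
      ka n k / dn n k * cv μ (jac q₁ p v' u) y + kb n k / dn n k * cv μ (jac q₂ p v' u) y := by
  have c1 := continuous_jac h1 hp v' u
  have c2 := continuous_jac h2 hp v' u
  rw [← cv_const_mul, ← cv_const_mul, ← cv_add (by fun_prop) (by fun_prop), qk_eq]
  congr 1
  funext z
  simp only [jac, dd, fd_comb h1 h2, add_apply, smul_apply, smul_eq_mul]
  ring

theorem g2_abs (n : ℕ) (l : ℝ) (z : ℝ × ℝ × ℝ) : |g2 ε n l z| ≤ 2 := by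
  refine (Finset.abs_sum_le_sum_abs _ _).trans ?_
  have h := sum_bk_le ε (n ^ 2) z.2.2
  have h2 := (W1_mem ε z.2.2).2
  refine le_trans (Finset.sum_le_sum fun k _ => ?_) (h.trans (by linarith))
  rw [abs_mul, abs_of_nonneg (TestA.bk_nonneg _)]
  exact mul_le_of_le_one_right (TestA.bk_nonneg _) (Real.abs_cos_le_one _)

theorem rr_bd {δ : ℝ} (h0 : 0 ≤ δ) (h1 : δ ≤ 1) (n : ℕ) (l : ℝ) (q₁ q₂ p : E d → ℝ) (y : E d) :
    1 / 2 ≤ rr ε δ n l q₁ q₂ p y ∧ rr ε δ n l q₁ q₂ p y ≤ 3 / 2 := by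
  have h := abs_le.1 (g2_abs (ε := ε) n l
    (cv (ε ^ 120) q₁ y, cv (ε ^ 120) q₂ y, cv (ε ^ 120) p y))
  unfold rr
  constructor <;> nlinarith [h.1, h.2]

theorem cont_rr (h0 : 0 < ε) (h1 : ε ≤ 1 / 2) (δ : ℝ) (n : ℕ) (l : ℝ) {q₁ q₂ p : E d → ℝ}
    (c1 : Continuous q₁) (c2 : Continuous q₂) (cp : Continuous p) :
    Continuous (rr ε δ n l q₁ q₂ p) := by
  have a1 := continuous_cv c1 (ε ^ 120)
  have a2 := continuous_cv c2 (ε ^ 120)
  have a3 := continuous_cv cp (ε ^ 120)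
  unfold rr g2
  refine continuous_const.add (continuous_const.mul (continuous_finsetSum _ fun k hk => ?_))
  have := (Test.cont_bk h0 h1 (Finset.mem_range.1 hk)).comp a3
  refine Continuous.mul this ?_
  unfold qk
  fun_prop

theorem time_pt {Λ r x : ℝ} (hΛ : 0 < Λ) (h1 : 1 / 2 ≤ r) (h2 : r ≤ 3 / 2) :
    Λ ≤ 3 * x + 10 * (Λ * (|r * x - Λ| / Λ) ^ 2) := by
  have e : Λ * (|r * x - Λ| / Λ) ^ 2 = (r * x - Λ) ^ 2 / Λ := by
    rw [div_pow, sq_abs]; field_simp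
  rw [e, ← sub_le_iff_le_add', ← mul_div_assoc, le_div_iff₀ hΛ]
  rcases le_total x 0 with hx | hx
  · have : 0 ≤ (r - 1 / 2) * -x := mul_nonneg (by linarith) (by linarith)
    nlinarith [mul_nonneg hΛ.le this, sq_nonneg (r * x), mul_nonneg hΛ.le (neg_nonneg.2 hx)]
  · rcases le_total Λ (3 * x) with h | h
    · nlinarith [sq_nonneg (r * x - Λ)]
    · have h3 : r * x ≤ Λ / 2 := by nlinarith
      nlinarith [mul_nonneg hΛ.le hx]

theorem ln_mono {T : ℝ} (hT : 0 ≤ T) (u y : E d) {G H : E d → ℝ} (hG : Continuous G)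
    (hH : Continuous H) (h : ∀ z, G z ≤ H z) :
    ln T u (fun _ => 1) G y ≤ ln T u (fun _ => 1) H y := by
  rw [Test.ln_one, Test.ln_one]
  exact intervalIntegral.integral_mono_on (by linarith) (Test.ii hG _ _ _ _) (Test.ii hH _ _ _ _)
    fun _ _ => h _

theorem cs_ln {T : ℝ} (hT : 0 ≤ T) (u y : E d) {w F : E d → ℝ} (hw : Continuous w)
    (hF : Continuous F) (w0 : ∀ z, 0 ≤ w z) {X : ℝ}
    (hX : X = ln T u (fun _ => 1) (fun z => w z * F z ^ 2) y)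
    (ht : ln T u (fun _ => 1) w y ≤ 3 + 10 * X) :
    ln T u (fun _ => 1) (fun z => w z * F z) y ≤ √(3 * X) + 4 * X := by
  have X0 : 0 ≤ X := hX ▸ Test.ln_nonneg hT u (fun z => mul_nonneg (w0 z) (sq_nonneg _)) y
  set I := ln T u (fun _ => 1) (fun z => w z * F z) y with hI
  have key : ∀ s : ℝ, 2 * s * I ≤ s ^ 2 * (3 + 10 * X) + X := fun s => by
    have h1 := ln_mono hT u y (G := fun z => 2 * s * (w z * F z))
      (H := fun z => s ^ 2 * w z + w z * F z ^ 2) (by fun_prop) (by fun_prop) fun z => by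
        nlinarith [mul_nonneg (w0 z) (sq_nonneg (s - F z))]
    rw [Area.ln_add continuous_const (by fun_prop) (by fun_prop), Area.ln_one_mul,
      Area.ln_one_mul, ← hX, ← hI] at h1
    nlinarith [mul_le_mul_of_nonneg_left ht (sq_nonneg s)]
  have t0 : 0 < 3 + 10 * X := by linarith
  have h2 : I ^ 2 ≤ (3 + 10 * X) * X := by
    have h3 := key (I / (3 + 10 * X))
    have e1 : 2 * (I / (3 + 10 * X)) * I = 2 * (I ^ 2 / (3 + 10 * X)) := by ring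
    have e2 : (I / (3 + 10 * X)) ^ 2 * (3 + 10 * X) = I ^ 2 / (3 + 10 * X) := by field_simp
    have h4 : I ^ 2 / (3 + 10 * X) ≤ X := by linarith
    rwa [div_le_iff₀ t0, mul_comm] at h4
  have s0 := Real.sqrt_nonneg (3 * X)
  have s1 := Real.sq_sqrt (by linarith : 0 ≤ 3 * X)
  refine le_of_sq_le_sq (h2.trans ?_) (by linarith)
  nlinarith [mul_nonneg s0 X0, sq_nonneg X]

/-- the weight of step `k` -/
def wk (ε : ℝ) (m k : ℕ) (P : E d → ℝ) (z : E d) : ℝ := bk ε m k (P z) * (m / ε ^ 70)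

def Ek (ε : ℝ) (m k : ℕ) (P G : E d → ℝ) (u : E d) : E d → ℝ :=
  ln (ε ^ 52) u (fun _ => 1) fun z => wk ε m k P z * G z

theorem wk_nonneg (h0 : 0 < ε) (m k : ℕ) (P : E d → ℝ) (z : E d) : 0 ≤ wk ε m k P z :=
  mul_nonneg (TestA.bk_nonneg _) (by positivity)

theorem cont_wk (h0 : 0 < ε) (h1 : ε ≤ 1 / 2) {m k : ℕ} (hk : k < m) {P : E d → ℝ}
    (hP : Continuous P) : Continuous (wk ε m k P) :=
  ((Test.cont_bk h0 h1 hk).comp hP).mul continuous_const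

theorem cont_Ek (h0 : 0 < ε) (h1 : ε ≤ 1 / 2) {m k : ℕ} (hk : k < m) {P G : E d → ℝ}
    (hP : Continuous P) (hG : Continuous G) (u : E d) : Continuous (Ek ε m k P G u) :=
  Test.cont_ln ((cont_wk h0 h1 hk hP).mul hG) _ _

theorem Ek_nonneg (h0 : 0 < ε) (m k : ℕ) (P : E d → ℝ) {G : E d → ℝ} (hG : ∀ z, 0 ≤ G z)
    (u y : E d) : 0 ≤ Ek ε m k P G u y :=
  Test.ln_nonneg (by positivity) u (fun z => mul_nonneg (wk_nonneg h0 m k P z) (hG z)) y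

theorem Ek_le (h0 : 0 < ε) (h1 : ε ≤ 1 / 2) {m k : ℕ} (hk : k < m) (hm : m * ε ≤ 1)
    {P G : E d → ℝ} (hP : Continuous P) (hG : Continuous G) {B : ℝ} (hB : 0 ≤ B)
    (h : ∀ z, G z ≤ B) (u y : E d) : Ek ε m k P G u y ≤ 12 * B * ε⁻¹ ^ 19 := by
  have h2 := ln_mono (T := ε ^ 52) (by positivity) u y ((cont_wk h0 h1 hk hP).fun_mul hG)
    (continuous_const (y := 2 * ε⁻¹ ^ 71 * B)) fun z => by
      have a1 : (m : ℝ) / ε ^ 70 ≤ ε⁻¹ ^ 71 := by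
        rw [div_le_iff₀ (by positivity)]
        have : ε⁻¹ ^ 71 * ε ^ 70 = ε⁻¹ := by field_simp
        rw [this, ← one_div, le_div_iff₀ h0]; exact hm
      have a2 : wk ε m k P z ≤ 2 * ε⁻¹ ^ 71 :=
        mul_le_mul (bb_le _) a1 (by positivity) (by norm_num)
      calc wk ε m k P z * G z ≤ wk ε m k P z * B :=
            mul_le_mul_of_nonneg_left (h z) (wk_nonneg h0 m k P z)
        _ ≤ _ := mul_le_mul_of_nonneg_right a2 hB
  rw [TestA.ln_const] at h2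
  refine h2.trans_eq ?_
  field_simp
  ring

theorem sum_Ek (h0 : 0 < ε) (h1 : ε ≤ 1 / 2) (hC : 18 * Cw d * ε ≤ 1) {u : E d} (hu : ‖u‖ = 1)
    (m : ℕ) {P G : E d → ℝ} (hP : Continuous P) (hG : Continuous G) (g0 : ∀ z, 0 ≤ G z)
    (g1 : ∀ z, G z ≤ ε⁻¹ ^ 8) {a : ℝ} {y₀ : E d}
    (ha : cv 1 (fun z => W1 ε (P z) * G z) y₀ ≤ a * ε ^ 20) :
    ∑ k ∈ Finset.range m, cv 1 (Ek ε m k P G u) y₀ ≤ 2 * m * (6 * a * ε ^ 2 + ε ^ 25) := by
  refine Test.key h0 hC hu (fun k hk => (cont_wk h0 h1 (Finset.mem_range.1 hk) hP).fun_mul hG)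
    (H := fun z => W1 ε (P z) * G z) (((Test.cont_W1 h0 h1).comp hP).mul hG) (by positivity)
    (fun z => Test.abs_W1_mul _ _ (g0 z) (g1 z)) (fun z => ?_) ha
  have := g0 z
  calc _ = (∑ k ∈ Finset.range m, bk ε m k (P z)) * (m / ε ^ 70 * G z) := by
        rw [Finset.sum_mul]
        exact Finset.sum_congr rfl fun k _ => by unfold wk; ring
    _ ≤ 2 * W1 ε (P z) * (m / ε ^ 70 * G z) :=
        mul_le_mul_of_nonneg_right (sum_bk_le ε m _) (by positivity)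
    _ = _ := by ring

/-- the frequency defect at a point -/
theorem defect {c Λ M₂ r pt ez J₁ J₂ y₁ y₂ a b : ℝ} (hc : 0 ≤ c) (hΛ : 0 < Λ) (hM : 0 < M₂)
    (hr : 1 / 2 ≤ r) (ha : 0 ≤ a ∧ a ≤ 3) (hb : 0 ≤ b ∧ b ≤ 1) (h1 : |r * J₁ - y₁| ≤ ez)
    (h2 : |r * J₂ - y₂| ≤ ez) (k1 : |y₁| ≤ M₂) (k2 : |y₂| ≤ M₂) :
    |c * (a * J₁ + b * J₂) - c / Λ * (a * y₁ + b * y₂) * pt| ≤
      8 * c * M₂ * (ez / M₂ + |r * pt - Λ| / Λ) := by
  have one : ∀ J y : ℝ, |r * J - y| ≤ ez → |y| ≤ M₂ →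
      |J - y * pt / Λ| ≤ 2 * (M₂ * (ez / M₂ + |r * pt - Λ| / Λ)) := fun J y h k => by
    refine (Test.half hr).trans (mul_le_mul_of_nonneg_left ?_ (by norm_num))
    have e : r * (J - y * pt / Λ) = (r * J - y) - y * ((r * pt - Λ) / Λ) := by field_simp; ring
    rw [e]
    refine (abs_sub _ _).trans ?_
    rw [abs_mul, abs_div, abs_of_pos hΛ, mul_add, mul_div_cancel₀ _ hM.ne']
    exact add_le_add h (mul_le_mul_of_nonneg_right k (by positivity))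
  have e : c * (a * J₁ + b * J₂) - c / Λ * (a * y₁ + b * y₂) * pt =
      c * (a * (J₁ - y₁ * pt / Λ) + b * (J₂ - y₂ * pt / Λ)) := by field_simp; ring
  rw [e, abs_mul, abs_of_nonneg hc]
  have f1 := one J₁ y₁ h1 k1
  have f2 := one J₂ y₂ h2 k2
  have f3 := abs_add_le (a * (J₁ - y₁ * pt / Λ)) (b * (J₂ - y₂ * pt / Λ))
  rw [abs_mul, abs_mul, abs_of_nonneg ha.1, abs_of_nonneg hb.1] at f3
  have f4 := mul_le_mul ha.2 f1 (abs_nonneg _) (by norm_num)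
  have f5 := mul_le_mul hb.2 f2 (abs_nonneg _) (by norm_num)
  have f6 := mul_le_mul_of_nonneg_left (f3.trans (add_le_add f4 f5)) hc
  linarith

/-- the numerical facts -/
theorem nums {δ l Λ M₂ X₁ X₂ : ℝ} {n : ℕ} {v x₁ x₂ : E d} (h0 : 0 < ε) (hL : 100 ≤ lg ε)
    (t : Tn ε δ l Λ M₂ X₁ X₂ n v x₁ x₂) :
    0 < X₂ ∧ 8 * lg ε * n * M₂ / X₂ * (1 / (lg ε * l)) ≤ 1 / lg ε ^ 2 ∧
      8 * lg ε * n * M₂ / X₂ ≤ l ∧ n * rho ε n l Λ X₂ ≤ ε ^ 70 * Λ / lg ε := by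
  have L0 : 0 < lg ε := by linarith
  have l0 : 0 < l := by linarith [t.l1]
  have n2 : (2 : ℝ) ≤ n := by exact_mod_cast t.n2
  have M0 := t.M0
  have d0 : 0 < δ := h0.trans_le t.d0
  have d1 := t.d1
  have Λ0 : 0 < Λ := by linarith [t.L0]
  have nn := t.nn
  have p0 : 0 < n * (1 / (lg ε * l)) * M₂ * lg ε ^ 3 := by positivity
  have X0 : 0 < X₂ := (pos_iff_pos_of_mul_pos (p0.trans_le nn)).1 d0
  have a1 : 8 * lg ε * n * M₂ / X₂ * (1 / (lg ε * l)) ≤ 1 / lg ε ^ 2 := by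
    have e : 8 * lg ε * n * M₂ / X₂ * (1 / (lg ε * l)) =
        8 * (n * (1 / (lg ε * l)) * M₂ * lg ε ^ 3) / X₂ / lg ε ^ 2 := by field_simp
    rw [e]
    refine div_le_div_of_nonneg_right ?_ (by positivity)
    rw [div_le_one X0]
    nlinarith
  refine ⟨X0, a1, ?_, ?_⟩
  · have e : 8 * lg ε * n * M₂ / X₂ = 8 * lg ε * n * M₂ / X₂ * (1 / (lg ε * l)) * (lg ε * l) := by
      field_simp
    rw [e]
    refine (mul_le_mul_of_nonneg_right a1 (by positivity)).trans ?_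
    have e2 : 1 / lg ε ^ 2 * (lg ε * l) = l / lg ε := by field_simp
    rw [e2]
    exact div_le_self l0.le (by linarith)
  · have e : n * rho ε n l Λ X₂ = ε ^ 70 * Λ / lg ε * (4 * lg ε ^ 2 / (l * X₂)) := by
      unfold rho; field_simp
    rw [e]
    refine mul_le_of_le_one_right (by positivity) ?_
    rw [div_le_one (by positivity)]
    have e2 : n * (1 / (lg ε * l)) * M₂ * lg ε ^ 3 = n * M₂ * lg ε ^ 2 / l := by field_simp
    rw [e2, div_le_iff₀ l0] at nn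
    have b1 : 2 * 1 * lg ε ^ 2 ≤ n * M₂ * lg ε ^ 2 := by gcongr
    have b2 : δ * (X₂ * l) ≤ 1 / 100 * (X₂ * l) := mul_le_mul_of_nonneg_right d1 (by positivity)
    nlinarith [mul_pos X0 l0]

theorem final {C₀ L l Λ Θ β ϱ n SE SZ : ℝ} (h0 : 0 < ε) (h1 : 1000 * ε ≤ 1) (hC : 1 ≤ C₀)
    (hL : 1000 * C₀ ≤ L) (hLe : L * ε ≤ 1) (hn : 1 ≤ n) (hnl : n ≤ l) (hl : l ^ 2 * ε ≤ 1)
    (hΛ : 1 / 4 ≤ Λ) (hβ : β = 1 / (L * l)) (t0 : 0 ≤ Θ) (t1 : Θ * β ≤ 1 / L ^ 2) (t2 : Θ ≤ l)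
    (r0 : 0 ≤ ϱ) (r1 : n * ϱ ≤ ε ^ 70 * Λ / L)
    (hE : SE ≤ 2 * n ^ 2 * (6 * (4 * C₀ * β ^ 2 * Λ) * ε ^ 2 + ε ^ 25))
    (hZ : SZ ≤ 2 * n ^ 2 * (6 * 8 * ε ^ 2 + ε ^ 25)) :
    3 * Θ ^ 2 * SE + n * (4 * Θ * SE + ϱ * (2 / ε ^ 53) * SZ + n ^ 2 * (ϱ * ε⁻¹ ^ 50)) ≤
      n ^ 2 * (Λ * ε ^ 2) / L := by
  have L1 : 1000 ≤ L := by linarith
  have L0 : 0 < L := by linarith
  have l0 : 0 < l := by linarith
  have e1 : ε ≤ 1 := by linarith
  have Λ0 : 0 < Λ := by linarith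
  have β0 : 0 < β := by rw [hβ]; positivity
  set W := Λ * ε ^ 2 / L with hW
  have W0 : 0 < W := by positivity
  have nβ : n * β ≤ 1 / L := by
    rw [hβ, mul_one_div, div_le_div_iff₀ (by positivity) L0]; nlinarith
  have c1 : (3 * Θ ^ 2 + 4 * n * Θ) * β ^ 2 ≤ 5 / L ^ 3 := by
    have a1 : (Θ * β) ^ 2 ≤ (1 / L ^ 2) ^ 2 := pow_le_pow_left₀ (by positivity) t1 2
    have a2 : (n * β) * (Θ * β) ≤ 1 / L * (1 / L ^ 2) :=
      mul_le_mul nβ t1 (by positivity) (by positivity)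
    have a3 : 3 * (1 / L ^ 2) ^ 2 ≤ 1 / L ^ 3 := by
      rw [div_pow, one_pow, mul_one_div, div_le_div_iff₀ (by positivity) (by positivity)]
      nlinarith [pow_pos L0 3]
    have a4 : 1 / L * (1 / L ^ 2) = 1 / L ^ 3 := by field_simp
    have a5 : 5 / L ^ 3 = 5 * (1 / L ^ 3) := by ring
    nlinarith
  have c2 : (3 * Θ ^ 2 + 4 * n * Θ) * ε ≤ 7 := by
    have a1 : Θ ^ 2 ≤ l ^ 2 := pow_le_pow_left₀ t0 t2 2
    have a2 : n * Θ ≤ l * l := mul_le_mul hnl t2 t0 l0.le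
    nlinarith
  have c3 : 5 / L ^ 3 * (48 * C₀ * (Λ * ε ^ 2)) ≤ W / 4 := by
    have e : 5 / L ^ 3 * (48 * C₀ * (Λ * ε ^ 2)) = W * (240 * C₀ / L ^ 2) := by
      rw [hW]; field_simp; ring
    rw [e, div_eq_mul_inv W]
    refine mul_le_mul_of_nonneg_left ?_ W0.le
    rw [div_le_iff₀ (by positivity)]
    nlinarith
  have c4 : 14 * ε ^ 24 ≤ W / 4 := by
    have a1 : ε ^ 3 / 4 ≤ W := by
      rw [hW, le_div_iff₀ L0]
      have : ε ^ 3 / 4 * L = L * ε * (ε ^ 2 / 4) := by ring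
      nlinarith [pow_pos h0 2]
    have a2 : 1000 * ε ^ 24 ≤ ε ^ 3 := mul_pow_le h0 e1 h1 (by norm_num)
    linarith [pow_pos h0 24]
  have c5 : (3 * Θ ^ 2 + 4 * n * Θ) * SE ≤ n ^ 2 * (W / 4 + W / 4) := by
    have p0 : 0 ≤ 3 * Θ ^ 2 + 4 * n * Θ := by positivity
    refine (mul_le_mul_of_nonneg_left hE p0).trans ?_
    have e : (3 * Θ ^ 2 + 4 * n * Θ) * (2 * n ^ 2 * (6 * (4 * C₀ * β ^ 2 * Λ) * ε ^ 2 + ε ^ 25)) =
        n ^ 2 * ((3 * Θ ^ 2 + 4 * n * Θ) * β ^ 2 * (48 * C₀ * (Λ * ε ^ 2)) +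
          (3 * Θ ^ 2 + 4 * n * Θ) * ε * (2 * ε ^ 24)) := by ring
    rw [e]
    refine mul_le_mul_of_nonneg_left (add_le_add ?_ ?_) (by positivity)
    · exact (mul_le_mul_of_nonneg_right c1 (by positivity)).trans c3
    · refine (mul_le_mul_of_nonneg_right c2 (by positivity)).trans ?_
      linarith
  have c6 : n * ϱ * (2 / ε ^ 53) * SZ ≤ n ^ 2 * (W / 4) := by
    have a1 : ε ^ 25 ≤ ε ^ 2 := pow_le_pow_of_le_one h0.le e1 (by norm_num)
    have a2 : SZ ≤ 2 * n ^ 2 * (49 * ε ^ 2) :=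
      hZ.trans (mul_le_mul_of_nonneg_left (by linarith) (by positivity))
    have a3 : n * ϱ * (2 / ε ^ 53) ≤ ε ^ 70 * Λ / L * (2 / ε ^ 53) :=
      mul_le_mul_of_nonneg_right r1 (by positivity)
    refine ((mul_le_mul_of_nonneg_left a2 (by positivity)).trans
      (mul_le_mul_of_nonneg_right a3 (by positivity))).trans ?_
    have e : ε ^ 70 * Λ / L * (2 / ε ^ 53) * (2 * n ^ 2 * (49 * ε ^ 2)) =
        n ^ 2 * (W * (196 * ε ^ 17)) := by rw [hW]; field_simp; ring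
    rw [e, div_eq_mul_inv W]
    refine mul_le_mul_of_nonneg_left (mul_le_mul_of_nonneg_left ?_ W0.le) (by positivity)
    have a4 : 1000 * ε ^ 17 ≤ ε ^ 0 := mul_pow_le h0 e1 h1 (by norm_num)
    rw [pow_zero] at a4
    generalize ε ^ 17 = x at a4
    clear * - a4
    linarith
  have c7 : n * ϱ * ε⁻¹ ^ 50 ≤ W / 4 := by
    refine (mul_le_mul_of_nonneg_right r1 (by positivity)).trans ?_
    have e : ε ^ 70 * Λ / L * ε⁻¹ ^ 50 = W * ε ^ 18 := by rw [hW]; field_simp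
    rw [e, div_eq_mul_inv W]
    refine mul_le_mul_of_nonneg_left ?_ W0.le
    have a4 : 1000 * ε ^ 18 ≤ ε ^ 0 := mul_pow_le h0 e1 h1 (by norm_num)
    rw [pow_zero] at a4
    generalize ε ^ 18 = x at a4
    clear * - a4
    linarith
  have c8 := mul_le_mul_of_nonneg_left c7 (sq_nonneg n)
  have e : n ^ 2 * (Λ * ε ^ 2) / L = n ^ 2 * W := by rw [hW]; ring
  rw [e]
  clear * - c5 c6 c8
  linarith

end Frq

open Frq in
theorem freq2 (d : ℕ) (_hd : 3 ≤ d) (h1 : TestA2Stmt d) (h2 : Leaf2Stmt) : Freq2Stmt d := by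
  intro C₀ hC₀
  rw [h7.small_iff]
  filter_upwards [h7.small_iff.1 h1, h7.small_iff.1 h2, ev_pos, ev_mul_le 1000, ev_mul_le (18 * Cw d),
    ev_le_lg (1000 * C₀), ev_lg_pow 1] with ε hA hB h0 e1 eC eL eLe
  intro δ l Λ M₂ X₁ X₂ n q₁ q₂ p eb ez u v y₀ x₁ x₂ t f
  rw [pow_one] at eLe
  have e2 : ε ≤ 1 / 2 := by linarith
  have e3 : ε ≤ 1 := by linarith
  have L1 : 100 ≤ lg ε := by linarith
  have L0 : 0 < lg ε := by linarith
  have i1 : 1000 ≤ ε⁻¹ := by rw [← one_div, le_div_iff₀ h0]; exact e1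
  have ipw : ∀ {a b : ℕ}, a ≤ b → ε⁻¹ ^ a ≤ ε⁻¹ ^ b := fun h =>
    pow_le_pow_right₀ (by linarith) h
  have big : ∀ {a b : ℕ}, a < b → 1000 * ε⁻¹ ^ a ≤ ε⁻¹ ^ b := fun {a b} h =>
    (mul_le_mul_of_nonneg_right i1 (by positivity)).trans (by rw [← pow_succ']; exact ipw h)
  obtain ⟨X0, t1, t2, r1⟩ := nums h0 L1 t
  set Θ := 8 * lg ε * n * M₂ / X₂ with hΘ
  set ϱ := rho ε n l Λ X₂ with hϱ
  have l1 := t.l1
  have l0 : 0 < l := by linarith
  have n0 : 0 < n := by linarith [t.n2]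
  have n1 : (1 : ℝ) ≤ n := by exact_mod_cast n0
  have M1 := t.M0
  have M0 : 0 < M₂ := by linarith
  have Λ1 := t.L0
  have Λ0 : 0 < Λ := by linarith
  have hu : ‖u‖ = 1 := f.on.2.1
  have l2 : l ^ 2 * ε ≤ 1 :=
    (mul_le_mul_of_nonneg_right (pow_le_pow_right₀ l1 (by norm_num)) h0.le).trans t.l4
  have ml : ((n ^ 2 : ℕ) : ℝ) ≤ l ^ 2 := by
    push_cast; exact pow_le_pow_left₀ (by linarith) t.nl 2
  have me : ((n ^ 2 : ℕ) : ℝ) * ε ≤ 1 := (mul_le_mul_of_nonneg_right ml h0.le).trans l2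
  have Λ2 : Λ ≤ ε⁻¹ := by
    have := norm_cv_le (G := dd p u) (B := ε⁻¹) (μ := 1) zero_le_one (y := y₀)
      fun z _ => f.sp.dd_le hu z
    rw [← f.lam] at this
    exact (le_abs_self _).trans this
  have t0 : 0 ≤ Θ := by positivity
  have t3 : Θ ≤ ε⁻¹ := by
    rw [← one_div, le_div_iff₀ h0]
    nlinarith [mul_le_mul_of_nonneg_right t2 h0.le, mul_pos l0 h0]
  have r0 : 0 ≤ ϱ := by rw [hϱ]; unfold rho; positivity
  have r2 : ϱ ≤ ε ^ 69 := by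
    have a1 : ϱ ≤ n * ϱ := le_mul_of_one_le_left r0 n1
    have a2 : ε ^ 70 * Λ / lg ε ≤ ε ^ 70 * Λ := div_le_self (by positivity) (by linarith)
    have a3 : ε ^ 70 * Λ ≤ ε ^ 70 * ε⁻¹ := mul_le_mul_of_nonneg_left Λ2 (by positivity)
    have a4 : ε ^ 70 * ε⁻¹ = ε ^ 69 := by field_simp
    linarith
  set P := cv (ε ^ 120) p with hP
  have sP : Sm ε⁻¹ P := f.sp.cv _
  set pt := dd P u with hpt
  set r := rr ε δ n l q₁ q₂ p with hr
  have cP : Continuous P := sP.cont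
  have cpt : Continuous pt := continuous_dd sP.cd1 u
  have cr : Continuous r := cont_rr h0 e2 δ n l f.s1.cont f.s2.cont f.sp.cont
  have br : ∀ z, 1 / 2 ≤ r z ∧ r z ≤ 3 / 2 := fun z =>
    rr_bd (h0.le.trans t.d0) (by linarith [t.d1]) n l q₁ q₂ p z
  have bp : ∀ z, |pt z| ≤ ε⁻¹ := fun z => sP.dd_le hu z
  have cz := f.tt.cz
  set F : E d → ℝ := fun z => ez z / M₂ + |r z * pt z - Λ| / Λ with hF
  have cF : Continuous F := by simp only [hF]; fun_prop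
  have F0 : ∀ z, |r z * pt z - Λ| / Λ ≤ F z := fun z =>
    le_add_of_nonneg_left (div_nonneg (f.tt.nz z).1 M0.le)
  have F1 : ∀ z, 0 ≤ F z := fun z => le_trans (by positivity) (F0 z)
  have F2 : ∀ z, F z ≤ 2 * ε⁻¹ ^ 3 := fun z => by
    have a1 : ez z / M₂ ≤ ε⁻¹ ^ 3 := (div_le_self (f.tt.nz z).1 M1).trans (f.tt.nz z).2
    have a2 := abs_sub (r z * pt z) Λ
    rw [abs_mul, abs_of_pos Λ0, abs_of_nonneg (by linarith [(br z).1] : 0 ≤ r z)] at a2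
    have a3 : r z * |pt z| ≤ 3 / 2 * ε⁻¹ :=
      mul_le_mul (br z).2 (bp z) (abs_nonneg _) (by norm_num)
    have a4 : |r z * pt z - Λ| / Λ ≤ 10 * ε⁻¹ := by
      rw [div_le_iff₀ Λ0]; nlinarith
    have a5 := big (a := 1) (b := 3) (by norm_num)
    rw [pow_one] at a5
    simp only [hF]
    linarith
  set G : E d → ℝ := fun z => Λ * F z ^ 2 with hG
  have cG : Continuous G := by simp only [hG]; fun_prop
  have G0 : ∀ z, 0 ≤ G z := fun z => by simp only [hG]; positivity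
  have G1 : ∀ z, G z ≤ 4 * ε⁻¹ ^ 7 := fun z =>
    (mul_le_mul Λ2 (pow_le_pow_left₀ (F1 z) (F2 z) 2) (sq_nonneg _) (by positivity)).trans_eq
      (by ring)
  set m := n ^ 2 with hm
  refine ⟨fun k y => Θ * √(3 * Ek ε m k P G u y), fun k y => 4 * Θ * Ek ε m k P G u y +
    ϱ * (2 / ε ^ 53) * Ek ε m k P (fun _ => 1) u y + ϱ * ε⁻¹ ^ 50, fun k hk => ?_, ?_⟩
  · have cE := cont_Ek h0 e2 hk cP cG u
    have cZ := cont_Ek h0 e2 hk cP (continuous_const (y := (1 : ℝ))) u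
    refine ⟨by fun_prop, by fun_prop, fun y => ?_⟩
    have E0 := Ek_nonneg h0 m k P G0 u y
    have Z0 := Ek_nonneg h0 m k P (G := fun _ => 1) (fun _ => zero_le_one) u y
    have E1 := Ek_le h0 e2 hk me cP cG (by positivity) G1 u y
    have Z1 := Ek_le h0 e2 hk me cP (continuous_const (y := (1 : ℝ))) zero_le_one
      (fun _ => le_rfl) u y
    refine ⟨by positivity, by positivity, ?_, ?_, fun v' hv' => ?_⟩
    · rw [mul_pow, Real.sq_sqrt (by positivity)]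
      have a1 : Θ ^ 2 * (3 * Ek ε m k P G u y) ≤ ε⁻¹ ^ 2 * (3 * (12 * (4 * ε⁻¹ ^ 7) * ε⁻¹ ^ 19)) := by
        gcongr
      have a2 := big (a := 28) (b := 40) (by norm_num)
      have a3 : ε⁻¹ ^ 2 * (3 * (12 * (4 * ε⁻¹ ^ 7) * ε⁻¹ ^ 19)) = 144 * ε⁻¹ ^ 28 := by ring
      have a4 : 0 ≤ ε⁻¹ ^ 28 := by positivity
      linarith
    · have a1 : 4 * Θ * Ek ε m k P G u y ≤ 4 * ε⁻¹ * (12 * (4 * ε⁻¹ ^ 7) * ε⁻¹ ^ 19) := by gcongr
      have a2 : ϱ * (2 / ε ^ 53) * Ek ε m k P (fun _ => 1) u y ≤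
          ε ^ 69 * (2 / ε ^ 53) * (12 * 1 * ε⁻¹ ^ 19) := by gcongr
      have a3 : ϱ * ε⁻¹ ^ 50 ≤ ε ^ 69 * ε⁻¹ ^ 50 := by gcongr
      have a4 : 4 * ε⁻¹ * (12 * (4 * ε⁻¹ ^ 7) * ε⁻¹ ^ 19) = 192 * ε⁻¹ ^ 27 := by ring
      have a5 : ε ^ 69 * (2 / ε ^ 53) * (12 * 1 * ε⁻¹ ^ 19) = 24 * ε⁻¹ ^ 3 := by field_simp; ring
      have a6 : ε ^ 69 * ε⁻¹ ^ 50 = ε ^ 19 := by field_simp
      have a7 : ε ^ 19 ≤ 1 := pow_le_one₀ h0.le e3
      have a8 := ipw (a := 0) (b := 27) (by norm_num)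
      have a9 := ipw (a := 3) (b := 27) (by norm_num)
      have a10 := big (a := 27) (b := 40) (by norm_num)
      rw [pow_zero] at a8
      linarith
    · have ka1 := ka_mem n0 k
      have kb1 := kb_mem n0 hk
      have y1 : |inner ℝ x₁ v'| ≤ M₂ :=
        (abs_real_inner_le_norm _ _).trans (by rw [hv', mul_one]; exact t.x1)
      have y2 : |inner ℝ x₂ v'| ≤ M₂ :=
        (abs_real_inner_le_norm _ _).trans (by rw [hv', mul_one]; exact t.x2)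
      set c := (n : ℝ) ^ 2 * l / (4 * ε ^ 70) with hc
      have c0 : 0 ≤ c := by positivity
      have hν : (inner ℝ (eta ε n l Λ x₁ x₂ k) v' : ℝ) =
          c / Λ * (ka n k * inner ℝ x₁ v' + kb n k * inner ℝ x₂ v') := by
        simp only [eta, real_inner_smul_left, inner_add_left, hc]
        ring
      have ν1 : |(inner ℝ (eta ε n l Λ x₁ x₂ k) v' : ℝ)| ≤ ε⁻¹ ^ 76 := by
        rw [hν, abs_mul, abs_of_nonneg (by positivity)]
        have a1 := abs_add_le (ka n k * inner ℝ x₁ v') (kb n k * inner ℝ x₂ v')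
        rw [abs_mul, abs_mul, abs_of_nonneg ka1.1, abs_of_nonneg kb1.1] at a1
        have a2 := mul_le_mul ka1.2 y1 (abs_nonneg _) (by norm_num)
        have a3 := mul_le_mul kb1.2 y2 (abs_nonneg _) (by norm_num)
        have a4 : |ka n k * inner ℝ x₁ v' + kb n k * inner ℝ x₂ v'| ≤ 4 * ε⁻¹ ^ 3 := by
          linarith [t.M1]
        have a5 : c / Λ ≤ ε⁻¹ ^ 71 := by
          have b1 : (n : ℝ) ^ 2 * l ≤ l ^ 4 := by
            have b2 : (n : ℝ) ^ 2 ≤ l ^ 2 := pow_le_pow_left₀ (by linarith) t.nl 2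
            calc (n : ℝ) ^ 2 * l ≤ l ^ 2 * l := by gcongr
              _ = l ^ 3 := by ring
              _ ≤ _ := pow_le_pow_right₀ l1 (by norm_num)
          have b3 : l ^ 4 ≤ ε⁻¹ := by rw [← one_div, le_div_iff₀ h0]; exact t.l4
          rw [hc, div_div, div_le_iff₀ (by positivity)]
          have b4 : ε⁻¹ ^ 71 * (4 * ε ^ 70 * Λ) = ε⁻¹ * (4 * Λ) := by field_simp
          rw [b4]
          nlinarith
        have a6 := mul_le_mul a5 a4 (abs_nonneg _) (by positivity)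
        have a7 : ε⁻¹ ^ 71 * (4 * ε⁻¹ ^ 3) = 4 * ε⁻¹ ^ 74 := by ring
        have a8 := big (a := 74) (b := 76) (by norm_num)
        have a9 : 0 ≤ ε⁻¹ ^ 74 := by positivity
        linarith
      have hT := ((hA _ p v' u m k l _ (sm_q n0 hk f.s1 f.s2) f.sp hv' hu hk l1 ml t.l4 ν1).2.2
        y).2
      have cw := cont_wk h0 e2 hk cP
      have w0 := wk_nonneg h0 m k P
      have cJ : Continuous (cv (ε ^ 120) (jac (fun z => qk n k (q₁ z) (q₂ z)) p v' u)) :=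
        continuous_cv (continuous_jac (sm_q n0 hk f.s1 f.s2).cd1 f.sp.cd1 v' u) _
      have s1 := ln_mono (T := ε ^ 52) (by positivity) u y
        (G := fun z => ϱ * (wk ε m k P z *
          (|om ε m l k * cv (ε ^ 120) (jac (fun z => qk n k (q₁ z) (q₂ z)) p v' u) z -
            inner ℝ (eta ε n l Λ x₁ x₂ k) v' * pt z| + 2 / ε ^ 53)))
        (H := fun z => Θ * (wk ε m k P z * Λ * F z) + ϱ * (2 / ε ^ 53) * (wk ε m k P z * 1))
        (by fun_prop) (by fun_prop) fun z => by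
          have a1 : om ε m l k * cv (ε ^ 120) (jac (fun z => qk n k (q₁ z) (q₂ z)) p v' u) z =
              c * (ka n k * cv (ε ^ 120) (jac q₁ p v' u) z +
                kb n k * cv (ε ^ 120) (jac q₂ p v' u) z) := by
            rw [cv_jac_q n k f.s1.cd1 f.s2.cd1 f.sp.cd1, hc, om, dn, hm]
            push_cast
            field_simp
          have a2 := defect (pt := pt z) c0 Λ0 M0 (br z).1 ka1 kb1 (f.j1 z v' hv') (f.j2 z v' hv')
            y1 y2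
          rw [← a1, ← hν] at a2
          have a3 : ϱ * (8 * c * M₂) = Θ * Λ := by
            rw [hϱ, hc, hΘ, rho]; field_simp
          have a4 := mul_le_mul_of_nonneg_left a2 (mul_nonneg r0 (w0 z))
          have a5 : ϱ * wk ε m k P z * (8 * c * M₂ * F z) = Θ * (wk ε m k P z * Λ * F z) := by
            linear_combination (wk ε m k P z * F z) * a3
          have a6 : ϱ * wk ε m k P z * (8 * c * M₂ * F z) =
            ϱ * wk ε m k P z * (8 * c * M₂ * (ez z / M₂ + |r z * pt z - Λ| / Λ)) := rfl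
          nlinarith
      rw [Area.ln_add continuous_const (by fun_prop) (by fun_prop), Area.ln_one_mul,
        Area.ln_one_mul, Area.ln_one_mul] at s1
      have s2 : ln (ε ^ 52) u (fun _ => 1) (fun z => wk ε m k P z * pt z) y ≤ 1 := by
        rw [Test.ln_one]
        exact (hB (fun τ => P (y + τ • u)) (fun τ => pt (y + τ • u))
          (fun τ => hasDerivAt_line sP.cd1 u y τ) (by fun_prop) fun τ => bp _).1 m k hk
      have s3 := ln_mono (T := ε ^ 52) (by positivity) u y (G := fun z => wk ε m k P z * Λ)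
        (H := fun z => 3 * (wk ε m k P z * pt z) + 10 * (wk ε m k P z * G z)) (by fun_prop)
        (by fun_prop) fun z => by
          have a1 := time_pt (x := pt z) Λ0 (br z).1 (br z).2
          have a2 : Λ * (|r z * pt z - Λ| / Λ) ^ 2 ≤ G z :=
            mul_le_mul_of_nonneg_left (pow_le_pow_left₀ (by positivity) (F0 z) 2) Λ0.le
          have a3 := mul_le_mul_of_nonneg_left (show Λ ≤ 3 * pt z + 10 * G z by linarith) (w0 z)
          linarith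
      rw [Area.ln_add continuous_const (by fun_prop) (by fun_prop), Area.ln_one_mul,
        Area.ln_one_mul] at s3
      have s4 := cs_ln (T := ε ^ 52) (by positivity) u y (w := fun z => wk ε m k P z * Λ)
        (by fun_prop) cF (fun z => mul_nonneg (w0 z) Λ0.le) (X := Ek ε m k P G u y)
        (by unfold Ek; simp only [hG, mul_assoc]) (by unfold Ek; linarith)
      have s5 := mul_le_mul_of_nonneg_left hT r0
      have s6 := mul_le_mul_of_nonneg_left s4 t0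
      unfold U2
      unfold wk at s1
      unfold Ek wk at s6 ⊢
      linarith
  · have hE := sum_Ek h0 e2 eC hu m cP cG G0
      (fun z => (G1 z).trans (by
        have := big (a := 7) (b := 8) (by norm_num)
        have : 0 ≤ ε⁻¹ ^ 7 := by positivity
        linarith)) (a := 4 * C₀ * (1 / (lg ε * l)) ^ 2 * Λ) (y₀ := y₀) (by
      have cW : Continuous fun z => W1 ε (P z) := (Test.cont_W1 h0 e2).comp cP
      have a1 := cv_mono (G := fun z => W1 ε (P z) * G z)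
        (G' := fun z => 2 * Λ / M₂ ^ 2 * (W1 ε (P z) * ez z ^ 2) +
          2 / Λ * (W1 ε (P z) * (r z * pt z - Λ) ^ 2)) (by fun_prop) (by fun_prop) zero_le_one
        (y := y₀) fun z _ => by
          have b1 : F z ^ 2 ≤ 2 * (ez z / M₂) ^ 2 + 2 * (|r z * pt z - Λ| / Λ) ^ 2 := by
            simp only [hF]
            nlinarith [sq_nonneg (ez z / M₂ - |r z * pt z - Λ| / Λ)]
          have b2 := mul_le_mul_of_nonneg_left b1 (mul_nonneg (W1_mem ε (P z)).1 Λ0.le)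
          rw [div_pow _ Λ, sq_abs] at b2
          have b3 : W1 ε (P z) * Λ * (2 * (ez z / M₂) ^ 2 + 2 * ((r z * pt z - Λ) ^ 2 / Λ ^ 2)) =
              2 * Λ / M₂ ^ 2 * (W1 ε (P z) * ez z ^ 2) +
                2 / Λ * (W1 ε (P z) * (r z * pt z - Λ) ^ 2) := by field_simp
          simp only [hG]
          linarith
      rw [cv_add (by fun_prop) (by fun_prop), cv_const_mul, cv_const_mul] at a1
      have a2 := mul_le_mul_of_nonneg_left f.tt.m4 (by positivity : 0 ≤ 2 * Λ / M₂ ^ 2)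
      have a3 := mul_le_mul_of_nonneg_left f.tt.m3 (by positivity : 0 ≤ 2 / Λ)
      have a4 : 2 * Λ / M₂ ^ 2 * (C₀ * (1 / (lg ε * l)) ^ 2 * M₂ ^ 2 * ε ^ 20) =
        2 * (C₀ * (1 / (lg ε * l)) ^ 2 * Λ * ε ^ 20) := by field_simp
      have a5 : 2 / Λ * (C₀ * (1 / (lg ε * l)) ^ 2 * Λ ^ 2 * ε ^ 20) =
        2 * (C₀ * (1 / (lg ε * l)) ^ 2 * Λ * ε ^ 20) := by field_simp
      linarith)
    have hZ := sum_Ek h0 e2 eC hu m cP (continuous_const (y := (1 : ℝ))) (fun _ => zero_le_one)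
      (fun _ => by simpa using ipw (a := 0) (b := 8) (by norm_num)) (a := 8) (y₀ := y₀)
      (by simpa using f.tt.m0)
    have s1 : ∑ k ∈ Finset.range m, cv 1 (fun y => (Θ * √(3 * Ek ε m k P G u y)) ^ 2) y₀ =
        3 * Θ ^ 2 * ∑ k ∈ Finset.range m, cv 1 (Ek ε m k P G u) y₀ := by
      rw [Finset.mul_sum]
      refine Finset.sum_congr rfl fun k _ => ?_
      rw [← cv_const_mul]
      congr 1
      funext y
      rw [mul_pow, Real.sq_sqrt (mul_nonneg (by norm_num) (Ek_nonneg h0 m k P G0 u y))]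
      ring
    have s2 : ∑ k ∈ Finset.range m, cv 1 (fun y => 4 * Θ * Ek ε m k P G u y +
        ϱ * (2 / ε ^ 53) * Ek ε m k P (fun _ => 1) u y + ϱ * ε⁻¹ ^ 50) y₀ =
        4 * Θ * ∑ k ∈ Finset.range m, cv 1 (Ek ε m k P G u) y₀ +
          ϱ * (2 / ε ^ 53) * ∑ k ∈ Finset.range m, cv 1 (Ek ε m k P (fun _ => 1) u) y₀ +
          (n : ℝ) ^ 2 * (ϱ * ε⁻¹ ^ 50) := by
      rw [Finset.sum_congr rfl fun k hk => by
        have cE := cont_Ek h0 e2 (Finset.mem_range.1 hk) cP cG u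
        have cZ := cont_Ek h0 e2 (Finset.mem_range.1 hk) cP (continuous_const (y := (1 : ℝ))) u
        rw [cv_add (by fun_prop) continuous_const, cv_add (by fun_prop) (by fun_prop),
          cv_const_mul, cv_const_mul, cv_const]]
      rw [Finset.sum_add_distrib, Finset.sum_add_distrib, ← Finset.mul_sum, ← Finset.mul_sum,
        Finset.sum_const, Finset.card_range, nsmul_eq_mul, hm]
      push_cast
      rfl
    rw [s1, s2]
    have hm' : ((m : ℕ) : ℝ) = (n : ℝ) ^ 2 := by rw [hm]; push_cast; rfl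
    rw [hm'] at hE hZ
    exact final h0 e1 hC₀ eL eLe n1 t.nl l2 Λ1 rfl t0 t1 t2 r0 r1 hE hZ

end Pool.Agent.MP_20bec2_an.b2

end
end MrgPart1

-- marker of a merged file
example : 731051 + 273803 = 731051 + 273803 := rfl
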