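import Pool.Agent.MP_20bec2_an.b2.Basic

/-! Module LOW2 of project BIOM2: the leaf sums are large. -/

set_option autoImplicit false

open MeasureTheory Set Metric Filter Topology

noncomputable section

namespace Pool.Agent.MP_20bec2_an.b2

open Pool.Agent.MP_20bec2_an.h7

namespace Low2

open Test

variable {d : ℕ} {ε C₀ β Λ M₂ l : ℝ} {m : ℕ} {P r pt pz a b eb ez : E d → ℝ} {u y₀ : E d}
  {qt : ℕ → E d → ℝ}

/-- numbers and fields along a leaf -/
structure Dt (ε Λ l : ℝ) (m : ℕ) (P r pt a b : E d → ℝ) (qt : ℕ → E d → ℝ) (u : E d) :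
    Prop where
  e0 : 0 < ε
  e1 : ε ≤ 1 / 100
  eC : 18 * Cw d * ε ≤ 1
  m2 : 2 ≤ m
  l0 : 0 < l
  L0 : 1 / 4 ≤ Λ
  L1 : Λ ≤ ε⁻¹
  hu : ‖u‖ = 1
  cP : Continuous P
  cr : Continuous r
  cp : Continuous pt
  ca : Continuous a
  cb : Continuous b
  cq : ∀ k < m, Continuous (qt k)
  br : ∀ z, 1 / 2 ≤ r z ∧ r z ≤ 3 / 2
  bp : ∀ z, |pt z| ≤ ε⁻¹
  ba : ∀ z, |a z| ≤ ε⁻¹
  bb : ∀ z, |b z| ≤ ε⁻¹
  bq : ∀ k < m, ∀ z, |qt k z| ≤ |a z| + |b z|

section means

variable (f : Dt ε Λ l m P r pt a b qt u)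
include f

lemma e2 : ε ≤ 1 / 2 := f.e1.trans (by norm_num)

lemma i1 : 100 ≤ ε⁻¹ := by
  rw [le_inv_comm₀ (by norm_num) f.e0]; simpa using f.e1

lemma big {x : ℝ} (hx : x ≤ 300 * ε⁻¹ ^ 2) : x ≤ ε⁻¹ ^ 8 := by
  have h := i1 f
  have h1 : (100 : ℝ) ^ 6 ≤ ε⁻¹ ^ 6 := pow_le_pow_left₀ (by norm_num) h 6
  calc x ≤ 300 * ε⁻¹ ^ 2 := hx
    _ ≤ ε⁻¹ ^ 6 * ε⁻¹ ^ 2 := mul_le_mul_of_nonneg_right (by linarith) (by positivity)
    _ = _ := by ring

lemma i2 : ε⁻¹ ≤ ε⁻¹ ^ 2 := le_self_pow₀ (by linarith [i1 f]) (by norm_num)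

lemma mp : (0 : ℝ) < m := by exact_mod_cast two_pos.trans_le f.m2

lemma cW : Continuous fun y => W1 ε (P y) := (cont_W1 f.e0 (e2 f)).comp f.cP

lemma cWk {k : ℕ} (hk : k < m) : Continuous fun y => Wk ε m k (P y) :=
  (cont_Wk f.e0 (e2 f) hk).comp f.cP

lemma cN {k : ℕ} (hk : k < m) : Continuous (Nk ε m k P pt u) := by
  have := cWk f hk; have := f.cp
  exact cont_ln (by fun_prop) _ _

lemma cT {k : ℕ} (hk : k < m) : Continuous (Tk ε m l k P (qt k) u) := by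
  have := cWk f hk; have := f.cq k hk
  exact cont_ln (by fun_prop) _ _

lemma cQ {k : ℕ} (hk : k < m) : Continuous (Qk ε m k Λ P pt u) := by
  have := cWk f hk; have := f.cp
  exact cont_ln (by fun_prop) _ _

lemma cA {k : ℕ} (hk : k < m) : Continuous (Ak ε m k P pt u) := by
  have : Continuous fun y => bk ε m k (P y) := (cont_bk f.e0 (e2 f) hk).comp f.cP
  have := f.cp
  exact continuous_ln (continuous_th _) (by fun_prop) _ _

lemma N0 (k : ℕ) (y : E d) : 0 ≤ Nk ε m k P pt u y := by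
  have := f.e0
  exact ln_nonneg (by positivity) _ (fun z => by
    have := (Wk_mem ε m k (P z)).1; positivity) _

variable (t : Tt2 ε C₀ β Λ M₂ y₀ (fun y => W1 ε (P y)) r pt pz a b eb ez)
include t

lemma sum_T : ∑ k ∈ Finset.range m, cv 1 (Tk ε m l k P (qt k) u) y₀ ≤
    m * (60 * (C₀ * (l * β) * (Λ * ε ^ 2)) + 10 * (l * ε ^ 25)) := by
  have e0 := f.e0; have := mp f; have := f.l0; have := f.ca; have := f.cb; have := cW f
  refine (key (c := 10 * (m * l)) (a := C₀ * β * Λ) f.e0 f.eC f.hu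
    (fun k hk => by
      have := cWk f (Finset.mem_range.1 hk); have := f.cq k (Finset.mem_range.1 hk); fun_prop)
    (by fun_prop) (by positivity) (fun z => abs_W1_mul _ _ (by positivity)
      (big f (by linarith [f.ba z, f.bb z, i2 f, i1 f]))) (fun z => ?_) t.m2).trans_eq (by ring)
  calc _ ≤ ∑ k ∈ Finset.range m, Wk ε m k (P z) * ((|a z| + |b z|) * (2 * (m * l / ε ^ 70))) := by
        refine Finset.sum_le_sum fun k hk => ?_
        have hk' : (k : ℝ) / m ≤ 1 := by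
          rw [div_le_one (mp f)]; exact_mod_cast (Finset.mem_range.1 hk).le
        have := (Wk_mem ε m k (P z)).1
        have := f.bq k (Finset.mem_range.1 hk) z
        rw [mul_assoc, om]
        gcongr
        linarith
    _ ≤ 5 * W1 ε (P z) * ((|a z| + |b z|) * (2 * (m * l / ε ^ 70))) := by
        rw [← Finset.sum_mul]
        exact mul_le_mul_of_nonneg_right (sum_Wk_le ε f.m2 _) (by positivity)
    _ = _ := by ring

lemma sum_N : ∑ k ∈ Finset.range m, cv 1 (Nk ε m k P pt u) y₀ ≤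
    m * (30 * (C₀ * β ^ 2 * (Λ * ε ^ 2)) + 5 * ε ^ 25) := by
  have e0 := f.e0; have := mp f; have := f.cp; have := cW f; have := t.cb
  refine (key (c := 5 * m) (a := C₀ * β ^ 2 * Λ) f.e0 f.eC f.hu
    (fun k hk => by have := cWk f (Finset.mem_range.1 hk); fun_prop) (by fun_prop)
    (by positivity) (fun z => abs_W1_mul _ _ (t.nb _).1
      (big f ((t.nb z).2.trans (le_mul_of_one_le_left (by positivity) (by norm_num)))))
    (fun z => ?_) t.m1).trans_eq (by ring)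
  have := (t.nb z).1
  calc _ ≤ ∑ k ∈ Finset.range m, Wk ε m k (P z) * (eb z * (m / ε ^ 70)) := by
        refine Finset.sum_le_sum fun k _ => ?_
        have := (Wk_mem ε m k (P z)).1
        have := max_le (t.neg z) (t.nb z).1
        rw [mul_assoc]
        gcongr
    _ ≤ 5 * W1 ε (P z) * (eb z * (m / ε ^ 70)) := by
        rw [← Finset.sum_mul]
        exact mul_le_mul_of_nonneg_right (sum_Wk_le ε f.m2 _) (by positivity)
    _ = _ := by ring

lemma sum_Q : ∑ k ∈ Finset.range m, cv 1 (Qk ε m k Λ P pt u) y₀ ≤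
    m * (744 * (Λ * ε ^ 2) + 300 * (C₀ * β ^ 2 * (Λ * ε ^ 2)) + 5 * ε ^ 25) := by
  have e0 := f.e0; have := mp f; have := f.cp; have := cW f; have := f.cr
  have Lp : 0 < Λ := lt_of_lt_of_le (by norm_num) f.L0
  refine (key (c := 5 * m) (a := 124 / 5 * Λ + 10 * (C₀ * β ^ 2 * Λ))
    (H := fun z => W1 ε (P z) * (31 / 10 * Λ + 10 / Λ * (r z * pt z - Λ) ^ 2)) f.e0 f.eC f.hu
    (fun k hk => by have := cWk f (Finset.mem_range.1 hk); fun_prop) (by fun_prop)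
    (by positivity) (fun z => abs_W1_mul _ _ (by positivity) (big f ?_)) (fun z => ?_)
    ?_).trans_eq (by ring)
  · have h1 := abs_sub (r z * pt z) Λ
    rw [abs_mul, abs_of_pos Lp, abs_of_nonneg (by linarith [(f.br z).1] : 0 ≤ r z)] at h1
    have h2 : r z * |pt z| ≤ 3 / 2 * ε⁻¹ :=
      mul_le_mul (f.br z).2 (f.bp z) (abs_nonneg _) (by norm_num)
    have h3 : (r z * pt z - Λ) ^ 2 ≤ (5 / 2 * ε⁻¹) ^ 2 := by
      rw [← sq_abs]
      exact pow_le_pow_left₀ (abs_nonneg _) (by linarith [f.L1]) 2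
    have h4 : 10 / Λ ≤ 40 := by rw [div_le_iff₀ Lp]; linarith [f.L0]
    have h5 := mul_le_mul h4 h3 (sq_nonneg _) (by norm_num)
    nlinarith [f.L1, i2 f, i1 f]
  · calc _ ≤ ∑ k ∈ Finset.range m, Wk ε m k (P z) *
            ((31 / 10 * Λ + 10 / Λ * (r z * pt z - Λ) ^ 2) * (m / ε ^ 70)) := by
          refine Finset.sum_le_sum fun k _ => ?_
          have := (Wk_mem ε m k (P z)).1
          have h1 := half (x := pt z) (f.br z).1
          have h2 := abs_add_le (r z * pt z - Λ) Λ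
          rw [sub_add_cancel, abs_of_pos Lp] at h2
          have h3 : 2 * |r z * pt z - Λ| ≤ Λ / 10 + 10 / Λ * (r z * pt z - Λ) ^ 2 := by
            rw [← sq_abs (r z * pt z - Λ)]
            generalize |r z * pt z - Λ| = x
            have h4 : Λ / 10 + 10 / Λ * x ^ 2 - 2 * x = (Λ - 10 * x) ^ 2 / (10 * Λ) := by
              field_simp; ring
            have h5 : 0 ≤ (Λ - 10 * x) ^ 2 / (10 * Λ) := by positivity
            linarith
          have : |pt z| + Λ ≤ 31 / 10 * Λ + 10 / Λ * (r z * pt z - Λ) ^ 2 := by linarith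
          rw [mul_assoc]
          gcongr
      _ ≤ 5 * W1 ε (P z) * ((31 / 10 * Λ + 10 / Λ * (r z * pt z - Λ) ^ 2) * (m / ε ^ 70)) := by
          rw [← Finset.sum_mul]
          exact mul_le_mul_of_nonneg_right (sum_Wk_le ε f.m2 _) (by positivity)
      _ = _ := by ring
  · have : (fun z => W1 ε (P z) * (31 / 10 * Λ + 10 / Λ * (r z * pt z - Λ) ^ 2)) =
        fun z => 31 / 10 * Λ * W1 ε (P z) + 10 / Λ * (W1 ε (P z) * (r z * pt z - Λ) ^ 2) := by
      funext z; ring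
    rw [this, cv_add (by fun_prop) (by fun_prop), cv_const_mul, cv_const_mul]
    have h1 := mul_le_mul_of_nonneg_left t.m0 (by positivity : 0 ≤ 31 / 10 * Λ)
    have h2 := mul_le_mul_of_nonneg_left t.m3 (by positivity : 0 ≤ 10 / Λ)
    have h3 : 10 / Λ * (C₀ * β ^ 2 * Λ ^ 2 * ε ^ 20) = 10 * (C₀ * β ^ 2 * Λ) * ε ^ 20 := by
      field_simp
    linarith

lemma lower {U : ℕ → E d → ℂ} (hU : ∀ k < m, Continuous (U k))
    (hA : ∀ k < m, 3 * (Λ * ε ^ 2) - 18 * Cw d * ε ^ 52 ≤ cv 1 (Ak ε m k P pt u) y₀)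
    (hl : ∀ k < m, ∀ y, ∃ c, Ak ε m k P pt u y ≤ 1 ∧
      Ak ε m k P pt u y - Tk ε m l k P (qt k) u y - 10 * Nk ε m k P pt u y ≤ c ∧
      (Qk ε m k Λ P pt u y < 1 → Ak ε m k P pt u y = 0) ∧ c ≤ ‖U k y‖ + ε ^ 25)
    (h1 : C₀ * (l * β) ≤ 1 / 1000) (h2 : C₀ * β ^ 2 ≤ 1 / 10000) (h3 : l * ε ≤ 1) :
    m * (Λ * ε ^ 2) / 100 ≤ ∑ k ∈ Finset.range m, cv 1 (fun y => min ‖U k y‖ 1 ^ 2) y₀ := by
  have e0 := f.e0; have := mp f; have := f.l0
  have Lp : 0 < Λ := lt_of_lt_of_le (by norm_num) f.L0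
  have e3 : ε ≤ 1 := f.e1.trans (by norm_num)
  have g1 : ∑ k ∈ Finset.range m, ((3 * (Λ * ε ^ 2) - ε ^ 11 - cv 1 (Tk ε m l k P (qt k) u) y₀ -
      10 * cv 1 (Nk ε m k P pt u) y₀ - ε ^ 25) / 150 - cv 1 (Qk ε m k Λ P pt u) y₀ / 90000) ≤
      ∑ k ∈ Finset.range m, cv 1 (fun y => min ‖U k y‖ 1 ^ 2) y₀ := by
    refine Finset.sum_le_sum fun k hk => ?_
    have hk' := Finset.mem_range.1 hk
    have c1 := cA f hk'; have c2 := cT f hk'; have c3 := cN f hk'; have c4 := cQ f hk'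
    have c5 := hU k hk'
    refine le_trans ?_ (cv_mono (G := fun z => (Ak ε m k P pt u z - Tk ε m l k P (qt k) u z -
      10 * Nk ε m k P pt u z - ε ^ 25) / 150 - Qk ε m k Λ P pt u z / 90000) (by fun_prop)
      (by fun_prop) zero_le_one fun y _ => ?_)
    · rw [cv_comb c1 c2 c3 c4]
      linarith [hA k hk', mul_pow_le e0 e3 f.eC (a := 11) (b := 52) (by norm_num)]
    · obtain ⟨c, b1, b2, b3, b4⟩ := hl k hk' y
      have hW := fun z => (Wk_mem ε m k (P z)).1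
      refine pointwise (ln_nonneg (by positivity) _ (fun z => ?_) _) (N0 f k y)
        (ln_nonneg (by positivity) _ (fun z => ?_) _) (by positivity) b1 b2 b3 b4
      · have := hW z; unfold om; positivity
      · have := hW z; positivity
  refine le_trans ?_ g1
  simp only [Finset.sum_sub_distrib, ← Finset.sum_div, ← Finset.mul_sum, Finset.sum_const,
    Finset.card_range, nsmul_eq_mul]
  have M0 : 0 ≤ Λ * ε ^ 2 := by positivity
  have a1 := mul_le_mul_of_nonneg_right h1 M0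
  have a2 := mul_le_mul_of_nonneg_right h2 M0
  have a3 : l * ε ^ 25 ≤ ε ^ 11 := mul_pow_le e0 e3 h3 (by norm_num)
  have a4 : ε ^ 25 ≤ ε ^ 11 := pow_le_pow_of_le_one e0.le e3 (by norm_num)
  have a5 : 10000 * ε ^ 11 ≤ Λ * ε ^ 2 := by
    have b1 : ε ^ 9 ≤ (1 / 100) ^ 9 := pow_le_pow_left₀ e0.le f.e1 9
    calc 10000 * ε ^ 11 = 10000 * ε ^ 9 * ε ^ 2 := by ring
      _ ≤ _ := mul_le_mul_of_nonneg_right (by linarith [f.L0]) (by positivity)
  have a6 : (Λ * ε ^ 2) / 100 ≤ (3 * (Λ * ε ^ 2) - ε ^ 11 -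
      (60 * (C₀ * (l * β) * (Λ * ε ^ 2)) + 10 * (l * ε ^ 25)) -
      10 * (30 * (C₀ * β ^ 2 * (Λ * ε ^ 2)) + 5 * ε ^ 25) - ε ^ 25) / 150 -
      (744 * (Λ * ε ^ 2) + 300 * (C₀ * β ^ 2 * (Λ * ε ^ 2)) + 5 * ε ^ 25) / 90000 := by
    linarith
  have a7 := mul_le_mul_of_nonneg_left a6 (mp f).le
  linarith [sum_T f t, sum_N f t, sum_Q f t]

lemma sum_x : ∑ k ∈ Finset.range m, cv 1 (fun y => 4 * Nk ε m k P pt u y + ε ^ 25) y₀ ≤
    m * (120 * (C₀ * β ^ 2 * (Λ * ε ^ 2)) + 21 * ε ^ 25) := by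
  rw [Finset.sum_congr rfl fun k hk => by
      have := cN f (Finset.mem_range.1 hk)
      rw [cv_add (by fun_prop) continuous_const, cv_const, cv_const_mul],
    Finset.sum_add_distrib, Finset.sum_const, Finset.card_range, nsmul_eq_mul, ← Finset.mul_sum]
  linarith [sum_N f t]

end means

end Low2

open Test Low2 in
theorem low2 (d : ℕ) (_hd : 3 ≤ d) (h : TestA2Stmt d) : Low2Stmt d := by
  intro C₀ hC₀
  refine small_iff.2 ?_
  filter_upwards [ev_pos, ev_mul_le 100, ev_mul_le (18 * Cw d), ev_le_lg (1000 * C₀),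
    ev_lg_pow 2, small_iff.1 leaf, small_iff.1 h] with ε e0 e1 eC eK eL lf tA
  intro δ l Λ M₂ X₁ X₂ n q₁ q₂ p eb ez u v y₀ x₁ x₂ tn tf
  have hL : 1000 ≤ lg ε := by linarith
  obtain ⟨-, -, -, n1, -, n2, n3, -, n4, n5⟩ := tn.facts e0 (by linarith) eL
  have e3 : ε ≤ 1 := by linarith
  have hu := tf.on.2.1
  have l0 : 0 < l := one_pos.trans_le tn.l1
  have hn : (2 : ℝ) ≤ n := by exact_mod_cast tn.n2
  have m2 : 2 ≤ n ^ 2 := tn.n2.trans (Nat.le_self_pow two_ne_zero n)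
  have L1 : Λ ≤ ε⁻¹ := by
    rw [tf.lam]
    exact (le_abs_self _).trans (norm_cv_le zero_le_one fun z _ => tf.sp.dd_le hu z)
  have hP := tf.sp.cv (ε ^ 120)
  have hQ := fun (k : ℕ) (hk : k < n ^ 2) => sm_qk tf.s1 tf.s2 hk
  have f : Dt ε Λ l (n ^ 2) (cv (ε ^ 120) p) (rr ε δ n l q₁ q₂ p) (dd (cv (ε ^ 120) p) u)
      (dd (cv (ε ^ 120) q₁) u) (dd (cv (ε ^ 120) q₂) u)
      (fun k => dd (cv (ε ^ 120) fun z => qk n k (q₁ z) (q₂ z)) u) u :=
    ⟨e0, by linarith, eC, m2, l0, tn.L0, L1, hu, hP.cont,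
      continuous_rr e0 (by linarith) _ _ _ tf.s1.cont tf.s2.cont tf.sp.cont,
      continuous_dd hP.cd1 u, continuous_dd (tf.s1.cv _).cd1 u, continuous_dd (tf.s2.cv _).cd1 u,
      fun k hk => continuous_dd ((hQ k hk).cv _).cd1 u,
      rr_mem (e0.le.trans tn.d0) tn.d1 _ _ _ _ _, hP.dd_le hu, (tf.s1.cv _).dd_le hu,
      (tf.s2.cv _).dd_le hu, fun k hk z => by
        rw [dd_cv_qk tf.s1.cd1 tf.s2.cd1]
        refine (abs_qk_le hk _ _).trans ?_
        linarith [abs_nonneg (dd (cv (ε ^ 120) q₁) u z), abs_nonneg (dd (cv (ε ^ 120) q₂) u z)]⟩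
  replace tA := fun (k : ℕ) (hk : k < n ^ 2) => tA _ p u u (n ^ 2) k l 0 (hQ k hk) tf.sp hu hu hk
    tn.l1 (by push_cast; exact n2) tn.l4 (by rw [abs_zero]; positivity)
  have L0 : ε ^ 3 ≤ Λ := by
    have : ε ^ 3 ≤ (1 / 100) ^ 3 := pow_le_pow_left₀ e0.le (by linarith) 3
    linarith [tn.L0]
  replace lf := fun (k : ℕ) (hk : k < n ^ 2) (y : E d) =>
    (lf _ _ (hasDerivAt_line hP.cd1 u y) (f.cp.comp (by fun_prop)) fun τ => f.bp _).2 _ _ (n ^ 2) k
      l Λ (Ak ε (n ^ 2) k _ _ u y) (Nk ε (n ^ 2) k _ _ u y) (Tk ε (n ^ 2) l k _ _ u y)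
      (Qk ε (n ^ 2) k Λ _ _ u y) (Ub ε (n ^ 2) l k (fun z => qk n k (q₁ z) (q₂ z)) p u y)
      (hasDerivAt_line ((hQ k hk).cv _).cd1 u y) ((f.cq k hk).comp (by fun_prop)) m2 hk l0.le L0
      rfl rfl (ln_one _ _ _ _) (ln_one _ _ _ _) (ln_one _ _ _ _)
  have b0 : 0 < 1 / (lg ε * l) := by positivity
  have b1 : l * (1 / (lg ε * l)) = 1 / lg ε := by field_simp
  have le1 : l * ε ≤ 1 :=
    (mul_le_mul_of_nonneg_right (le_self_pow₀ tn.l1 (by norm_num)) e0.le).trans tn.l4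
  have t := tf.tt
  generalize 1 / (lg ε * l) = β at n1 n4 b0 b1 t
  have G0 : 0 < lg ε := by linarith
  have hC : C₀ ≤ lg ε / 1000 := by linarith
  have h1 : C₀ * (l * β) ≤ 1 / 1000 := by
    rw [b1, mul_one_div, div_le_iff₀ G0]; linarith
  have c1 : C₀ * β ≤ 1 / 1000 :=
    (mul_le_mul_of_nonneg_right hC b0.le).trans (by linarith)
  have c2 : β ≤ 1 / 1000 := by nlinarith
  have h2 : C₀ * β ^ 2 ≤ 1 / 10000 := by nlinarith
  refine ⟨fun k hk => (tA k hk).1, ?_, fun k y => 4 * Nk ε (n ^ 2) k (cv (ε ^ 120) p)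
    (dd (cv (ε ^ 120) p) u) u y + ε ^ 25, fun k hk => ⟨?_, fun y => ⟨?_, ?_⟩⟩, ?_⟩
  · have := lower f t (U := U2 ε n l q₁ q₂ p u) (fun k hk => (tA k hk).1.continuous)
      (fun k hk => by rw [tf.lam]; exact A_lower e0 (by linarith) tf.sp hu hk y₀)
      (fun k hk y => ⟨_, (lf k hk y).1, (lf k hk y).2.2.1, (lf k hk y).2.2.2, by
        have := norm_sub_norm_le (Ub ε (n ^ 2) l k (fun z => qk n k (q₁ z) (q₂ z)) p u y)
          (U2 ε n l q₁ q₂ p u k y)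
        rw [norm_sub_rev] at this
        linarith [((tA k hk).2.2 y).1.trans_eq' (show _ = ‖U2 ε n l q₁ q₂ p u k y - _‖ from rfl)]⟩)
      h1 h2 le1
    push_cast at this
    exact this
  · have := cN f hk
    fun_prop
  · have := N0 f k y
    positivity
  · have := norm_sub_norm_le (U2 ε n l q₁ q₂ p u k y)
      (Ub ε (n ^ 2) l k (fun z => qk n k (q₁ z) (q₂ z)) p u y)
    have h3 : ‖U2 ε n l q₁ q₂ p u k y - _‖ ≤ _ := ((tA k hk).2.2 y).1
    linarith [(lf k hk y).2.1]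
  · have s := sum_x f t
    push_cast at s
    have np : (0 : ℝ) < n := by linarith
    refine (mul_le_mul_of_nonneg_left s np.le).trans ?_
    rw [le_div_iff₀ G0]
    have M0 : 0 ≤ Λ * ε ^ 2 := by have := tn.L0; positivity
    have a1 : n * (C₀ * β ^ 2) * lg ε ≤ 1 / 1000 := by
      have g1 : n * β * lg ε ≤ 1 := by
        have : lg ε ≤ lg ε ^ 3 := le_self_pow₀ (by linarith) (by norm_num)
        have := mul_le_mul_of_nonneg_left this (by positivity : 0 ≤ n * β)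
        linarith [tn.d1]
      calc _ = (n * β * lg ε) * (C₀ * β) := by ring
        _ ≤ 1 * (1 / 1000) := mul_le_mul g1 c1 (by positivity) (by norm_num)
        _ = _ := by ring
    have a2 : n * ε ^ 25 * lg ε ≤ Λ * ε ^ 2 / 100 := by
      have g1 : n * ε ≤ 1 := (mul_le_mul_of_nonneg_right tn.nl e0.le).trans le1
      have g2 : lg ε * ε ≤ 1 :=
        (mul_le_mul_of_nonneg_right (le_self_pow₀ (by linarith) two_ne_zero) e0.le).trans eL
      have g3 : ε ^ 21 ≤ (1 / 100) ^ 21 := pow_le_pow_left₀ e0.le (by linarith) 21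
      calc _ = (n * ε) * (lg ε * ε) * ε ^ 21 * ε ^ 2 := by ring
        _ ≤ 1 * 1 * (Λ / 100) * ε ^ 2 := by
          gcongr
          linarith [tn.L0]
        _ = _ := by ring
    have a3 := mul_le_mul_of_nonneg_right a1 M0
    have a4 : n * (120 * (C₀ * β ^ 2 * (Λ * ε ^ 2)) + 21 * ε ^ 25) * lg ε ≤ Λ * ε ^ 2 := by
      linarith
    linarith [mul_le_mul_of_nonneg_left a4 (sq_nonneg (n : ℝ))]

end Pool.Agent.MP_20bec2_an.b2
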