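import Pool.Agent.MP_20bec2_an.h7.Final

-- ======== part 0: formerly Pool.Agent.MP_20bec2_an.b2.Defs
section MrgPart0

/-! Definitions for project BIOM2 (non-realisability in dimension at least three). -/

set_option autoImplicit false

open MeasureTheory Set Metric Filter Topology

noncomputable section

namespace Pool.Agent.MP_20bec2_an.b2

open Pool.Agent.MP_20bec2_an.h7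

variable {d : ℕ}

/-! ### averaged fields and the potential -/

/-- the averaged stretch -/
def Af (μ : ℝ) (Ψ : E d → E d) (y e v : E d) : ℝ := cv μ (dd (co e Ψ) v) y

/-- the averaged tensor of two by two minors -/
def Zf (μ : ℝ) (Ψ : E d → E d) (y g g' v v' : E d) : ℝ :=
  cv μ (jac (co g Ψ) (co g' Ψ) v v') y

/-- four-linear, alternating in the first pair and in the second pair -/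
structure Ml (z : E d → E d → E d → E d → ℝ) : Prop where
  l1 : ∀ (a b : ℝ) (g h g' v v' : E d),
    z (a • g + b • h) g' v v' = a * z g g' v v' + b * z h g' v v'
  l3 : ∀ (a b : ℝ) (g g' v w v' : E d),
    z g g' (a • v + b • w) v' = a * z g g' v v' + b * z g g' w v'
  a1 : ∀ g g' v v' : E d, z g' g v v' = -z g g' v v'
  a3 : ∀ g g' v v' : E d, z g g' v' v = -z g g' v v'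

/-- the sum of the squares of all components -/
def sq4 (z : E d → E d → E d → E d → ℝ) : ℝ :=
  ∑ i, ∑ j, ∑ k, ∑ l, z (ax i) (ax j) (ax k) (ax l) ^ 2

/-- the sum of the squares of the components containing `e` -/
def sq3 (z : E d → E d → E d → E d → ℝ) (e : E d) : ℝ :=
  ∑ j, ∑ k, ∑ l, z (ax j) e (ax k) (ax l) ^ 2

def val2 (M M₂ A G : ℝ) : ℝ := 8 * A ^ 2 / M ^ 2 + G / M₂ ^ 2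

/-- the potential of the fields smoothed at scale `μ` is at most `H` at the point `y` -/
def Pot2 (M M₂ H μ : ℝ) (Ψ : E d → E d) (y : E d) : Prop :=
  ∀ e v : E d, ‖e‖ = 1 → ‖v‖ = 1 → val2 M M₂ (Af μ Ψ y e v) (sq4 (Zf μ Ψ y)) ≤ H

/-- orthonormal triple -/
def ON3 (a b c : E d) : Prop := ON a c ∧ ON b c ∧ inner ℝ a b = 0

/-- tightness in the bulk -/
structure Bk (ε g M M₂ Λ : ℝ) (Ψ : E d → E d) (y₀ e u : E d) (a b c : E d → ℝ) : Prop where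
  ca : Continuous a
  cb : Continuous b
  cc : Continuous c
  bd : ∀ y, (0 ≤ a y ∧ a y ≤ 2 * ε⁻¹) ∧ (0 ≤ b y ∧ b y ≤ 2 * ε⁻¹) ∧ 0 ≤ c y ∧ c y ≤ ε⁻¹
  ha : ∀ y f : E d, ‖f‖ ≤ 1 → |Af (ε ^ 160) Ψ y f u - Λ * inner ℝ f e| ≤ a y
  hb : ∀ y v : E d, ‖v‖ ≤ 1 → |Af (ε ^ 160) Ψ y e v - Λ * inner ℝ u v| ≤ b y
  hc : ∀ y f v : E d, ‖f‖ ≤ 1 → ‖v‖ ≤ 1 → |Af (ε ^ 160) Ψ y f v| ≤ c y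
  ma : cv 1 (fun y => a y ^ 2) y₀ ≤ g * M ^ 2
  mb : cv 1 (fun y => b y ^ 2) y₀ ≤ g * M ^ 2
  mc : cv 1 (fun y => c y ^ 2) y₀ ≤ 2 * M ^ 2
  mz : cv 1 (fun y => sq4 (Zf (ε ^ 160) Ψ y - Zf 1 Ψ y₀)) y₀ ≤ 3 * g * M₂ ^ 2

/-! ### plates and types -/

/-- coordinates in a triple -/
def tc (e₁ e₂ e x : E d) : ℝ × ℝ × ℝ := (inner ℝ e₁ x, inner ℝ e₂ x, inner ℝ e x)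

/-- the sum of the coordinate distances -/
def dl1 (z z' : ℝ × ℝ × ℝ) : ℝ := |z.1 - z'.1| + |z.2.1 - z'.2.1| + |z.2.2 - z'.2.2|

/-- the integral over a box -/
def bx (r₁ r₂ : ℝ) (G : ℝ × ℝ × ℝ → ℝ) (z : ℝ × ℝ × ℝ) : ℝ :=
  ∫ s in (0 : ℝ)..r₁, ∫ s' in (0 : ℝ)..r₁, ∫ t in (0 : ℝ)..r₂, G (z.1 + s, z.2.1 + s', z.2.2 + t)

/-- the plates -/
def Pl3 (ε : ℝ) (z : ℝ × ℝ × ℝ) : Prop :=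
  Int.fract (z.1 / ε ^ 136) ∈ Icc (1 / 8 : ℝ) (3 / 8) ∧
    Int.fract (z.2.1 / ε ^ 136) ∈ Icc (1 / 8 : ℝ) (3 / 8) ∧
    Int.fract (z.2.2 / ε ^ 145) ∈ Icc (1 / 8 : ℝ) (3 / 8)

def ka (n k : ℕ) : ℝ := 2 + ((k % n : ℕ) : ℝ) / n

def kb (n k : ℕ) : ℝ := ((k / n : ℕ) : ℝ) / n

/-- the lateral coordinate seen by step `k` -/
def qk (n k : ℕ) (a b : ℝ) : ℝ :=
  (ka n k * a + kb n k * b) / (4 * (1 + (k : ℝ) / ((n ^ 2 : ℕ) : ℝ)))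

/-- the test pattern with a two-dimensional lattice of frequencies -/
def g2 (ε : ℝ) (n : ℕ) (l : ℝ) (z : ℝ × ℝ × ℝ) : ℝ :=
  ∑ k ∈ Finset.range (n ^ 2),
    bk ε (n ^ 2) k z.2.2 * Real.cos (om ε (n ^ 2) l k * qk n k z.1 z.2.1)

open Classical in
def dev3 (ε δ : ℝ) (n : ℕ) (l : ℝ) (e₁ e₂ e x : E d) : ℝ :=
  if Pl3 ε (tc e₁ e₂ e x) then 16 * δ * g2 ε n l (tc e₁ e₂ e x) else 0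

def pl3 (ε : ℝ) (e₁ e₂ e : E d) : Set (E d) :=
  {x | Pl3 ε (tc e₁ e₂ e x) ∧ xi ε (inner ℝ e x) ∈ Icc (0 : ℝ) 1}

variable {ε δ : ℝ}

def Typ2 (S : Sys d ε δ) (τ : Fin S.T) (e₁ e₂ : E d) (n : ℕ) (l : ℝ) : Prop :=
  ON3 e₁ e₂ (S.e τ) ∧ S.dev τ = dev3 ε δ n l e₁ e₂ (S.e τ) ∧ S.pl τ = pl3 ε e₁ e₂ (S.e τ)

/-- every orthonormal triple and all dyadic parameters are met by a type -/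
def Net2 (S : Sys d ε δ) (η : ℝ) : Prop :=
  ∀ f₁ f₂ f : E d, ON3 f₁ f₂ f → ∀ a b : ℕ, 16 ^ a * ε ≤ 1 → b ≤ a →
    ∃ (τ : Fin S.T) (e₁ e₂ : E d), Typ2 S τ e₁ e₂ (2 ^ b) (2 ^ a) ∧ ‖S.e τ - f‖ ≤ η ∧
      ‖e₁ - f₁‖ ≤ η ∧ ‖e₂ - f₂‖ ≤ η

/-- the mesoscopic density along the smoothed map -/
def rr (ε δ : ℝ) (n : ℕ) (l : ℝ) (q₁ q₂ p : E d → ℝ) (y : E d) : ℝ :=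
  1 + δ / 4 * g2 ε n l (cv (ε ^ 120) q₁ y, cv (ε ^ 120) q₂ y, cv (ε ^ 120) p y)

/-- a return weight -/
structure Rw (ε C : ℝ) (m : ℝ × ℝ × ℝ → ℝ) : Prop where
  bd : ∀ z, 0 ≤ m z ∧ m z ≤ C
  lip : ∀ z z', |m z - m z'| ≤ C / ε ^ 145 * dl1 z z'
  far : ∀ z, m z ≠ 0 → ∀ z', Pl3 ε z' → ε ^ 145 / 8 ≤ dl1 z z'
  mean : ∀ z, bx (ε ^ 136) (ε ^ 145) m z = ε ^ 136 * ε ^ 136 * ε ^ 145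

/-! ### exponentials -/

def exi (ξ z : E d) : ℂ := Complex.exp (Complex.I * (inner ℝ ξ z : ℝ))

/-- a separated family of frequencies -/
structure Sp2 (s : Finset ℕ) (ξ : ℕ → E d) (κ ν : ℝ) : Prop where
  inj : ∀ k ∈ s, ∀ k' ∈ s, k ≠ k' → ξ k ≠ ξ k'
  s2 : ∀ k ∈ s, ∑ k' ∈ s.erase k, 1 / ‖ξ k - ξ k'‖ ^ 2 ≤ κ
  s1 : ∀ k ∈ s, ∑ k' ∈ s.erase k, 1 / ‖ξ k - ξ k'‖ ≤ ν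

/-- the window average: over the window and over the segments to its centre -/
def Mw (G : E d → ℝ) : ℝ :=
  (∫ z, ze d z * G ((2 : ℝ) • z)) + ∫ t in (0 : ℝ)..1, ∫ z, ze d z * G ((2 * t) • z)

/-! ### objects of the test -/

/-- the mean tightness estimates in the slabs -/
structure Tt2 (ε C₀ β Λ M₂ : ℝ) (y₀ : E d) (wt r pt pz q₁ q₂ eb ez : E d → ℝ) : Prop where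
  cb : Continuous eb
  cz : Continuous ez
  nb : ∀ y, 0 ≤ eb y ∧ eb y ≤ ε⁻¹ ^ 2
  nz : ∀ y, 0 ≤ ez y ∧ ez y ≤ ε⁻¹ ^ 3
  neg : ∀ y, -pt y ≤ eb y
  sq : ∀ y, pz y ^ 2 ≤ eb y * (2 * pt y + eb y)
  m0 : cv 1 wt y₀ ≤ 8 * ε ^ 20
  m1 : cv 1 (fun y => wt y * eb y) y₀ ≤ C₀ * β ^ 2 * Λ * ε ^ 20
  m2 : cv 1 (fun y => wt y * (|q₁ y| + |q₂ y|)) y₀ ≤ C₀ * β * Λ * ε ^ 20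
  m3 : cv 1 (fun y => wt y * (r y * pt y - Λ) ^ 2) y₀ ≤ C₀ * β ^ 2 * Λ ^ 2 * ε ^ 20
  m4 : cv 1 (fun y => wt y * ez y ^ 2) y₀ ≤ C₀ * β ^ 2 * M₂ ^ 2 * ε ^ 20

/-- the numerical hypotheses of the test -/
structure Tn (ε δ l Λ M₂ X₁ X₂ : ℝ) (n : ℕ) (v x₁ x₂ : E d) : Prop where
  d0 : ε ≤ δ
  d1 : δ ≤ 1 / 100
  l1 : 1 ≤ l
  l4 : l ^ 4 * ε ≤ 1
  n2 : 2 ≤ n
  nl : (n : ℝ) ≤ l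
  L0 : 1 / 4 ≤ Λ
  M0 : 1 ≤ M₂
  M1 : M₂ ≤ ε⁻¹ ^ 3
  x1 : ‖x₁‖ ≤ M₂
  x2 : ‖x₂‖ ≤ M₂
  X1 : X₁ + |inner ℝ x₂ v| ≤ 2 * inner ℝ x₁ v
  X12 : X₂ ≤ X₁
  lat : ∀ j₁ j₂ : ℤ, X₂ * |(j₁ : ℝ)| ≤ ‖(j₁ : ℝ) • x₁ + (j₂ : ℝ) • x₂‖ ∧
    X₂ * |(j₂ : ℝ)| ≤ ‖(j₁ : ℝ) • x₁ + (j₂ : ℝ) • x₂‖
  nn : n * (1 / (lg ε * l)) * M₂ * lg ε ^ 3 ≤ δ * X₂
  main : Λ ^ 4 * (1 / (lg ε * l)) ^ 2 * lg ε ≤ δ ^ 2 * l ^ 2 * X₁ ^ 2 * n ^ 2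

/-- the fields of the test -/
structure Tf (ε C₀ δ l Λ M₂ : ℝ) (n : ℕ) (q₁ q₂ p eb ez : E d → ℝ) (u v y₀ x₁ x₂ : E d) :
    Prop where
  s1 : Sm ε⁻¹ q₁
  s2 : Sm ε⁻¹ q₂
  sp : Sm ε⁻¹ p
  on : ON v u
  lam : Λ = cv 1 (dd p u) y₀
  j1 : ∀ y v' : E d, ‖v'‖ = 1 →
    |rr ε δ n l q₁ q₂ p y * cv (ε ^ 120) (jac q₁ p v' u) y - inner ℝ x₁ v'| ≤ ez y
  j2 : ∀ y v' : E d, ‖v'‖ = 1 →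
    |rr ε δ n l q₁ q₂ p y * cv (ε ^ 120) (jac q₂ p v' u) y - inner ℝ x₂ v'| ≤ ez y
  tt : Tt2 ε C₀ (1 / (lg ε * l)) Λ M₂ y₀ (fun y => W1 ε (cv (ε ^ 120) p y)) (rr ε δ n l q₁ q₂ p)
    (dd (cv (ε ^ 120) p) u) (dd (cv (ε ^ 120) p) v) (dd (cv (ε ^ 120) q₁) u)
    (dd (cv (ε ^ 120) q₂) u) eb ez

/-- the leaf sum of step `k` -/
def U2 (ε : ℝ) (n : ℕ) (l : ℝ) (q₁ q₂ p : E d → ℝ) (u : E d) (k : ℕ) : E d → ℂ :=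
  Uk ε (n ^ 2) l k (fun z => qk n k (q₁ z) (q₂ z)) p u

/-- its frequency -/
def eta (ε : ℝ) (n : ℕ) (l Λ : ℝ) (x₁ x₂ : E d) (k : ℕ) : E d :=
  ((n : ℝ) ^ 2 * l / (4 * ε ^ 70 * Λ)) • (ka n k • x₁ + kb n k • x₂)

/-- the radius of the windows -/
def rho (ε : ℝ) (n : ℕ) (l Λ X₂ : ℝ) : ℝ := lg ε * (4 * ε ^ 70 * Λ / (n * l * X₂))

/-- the least frequency in the direction of the shear -/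
def wlo (ε : ℝ) (n : ℕ) (l Λ X₁ : ℝ) : ℝ := (n : ℝ) ^ 2 * l * X₁ / (4 * ε ^ 70 * Λ)

end Pool.Agent.MP_20bec2_an.b2

end
end MrgPart0

-- ======== part 1: formerly Pool.Agent.MP_20bec2_an.b2.Spec
section MrgPart1

/-! Module statements of project BIOM2. -/

set_option autoImplicit false

open MeasureTheory Set Metric Filter Topology

noncomputable section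

namespace Pool.Agent.MP_20bec2_an.b2

open Pool.Agent.MP_20bec2_an.h7

variable (d : ℕ)

/-! ### the net, plates, return weights -/

def Net2Stmt : Prop := Small fun ε => ∀ δ η : ℝ, 0 < δ → δ ≤ 1 / 100 → 0 < η → η ≤ 1 →
  ε ≤ η ^ (3 * d) → ∃ S : Sys d ε δ, Net S ∧ Net2 S η

def Avg3Stmt : Prop := ∀ (ϑ : E d → ℝ) (G : ℝ × ℝ × ℝ → ℝ) (e₁ e₂ e : E d) (r₁ r₂ B g o : ℝ),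
  Integrable ϑ → Measurable G → 0 < r₂ → r₂ ≤ r₁ → (∀ z, |G z| ≤ B) → ON3 e₁ e₂ e →
  (∀ z, bx r₁ r₂ G z = g * (r₁ * r₁ * r₂)) → Osc ϑ r₁ o →
  |(∫ x, ϑ x * G (tc e₁ e₂ e x)) - g * (∫ x, ϑ x)| ≤ 3 * B * o

open Classical in
/-- the plates fill one part in sixty-four -/
def Pl3Stmt : Prop := ∀ ε : ℝ, 0 < ε →
  Measurable (fun z : ℝ × ℝ × ℝ => if Pl3 ε z then (1 : ℝ) else 0) ∧ ∀ z,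
    bx (ε ^ 136) (ε ^ 145) (fun z => if Pl3 ε z then (1 : ℝ) else 0) z =
      1 / 64 * (ε ^ 136 * ε ^ 136 * ε ^ 145)

def Ret3Stmt : Prop := ∃ C : ℝ, 1 ≤ C ∧ ∀ ε : ℝ, 0 < ε → ε ≤ 1 →
  ∃ (m D D₁ D₂ : ℝ × ℝ × ℝ → ℝ) (lam D' : ℝ → ℝ), Rw ε C m ∧ ContDiff ℝ 1 D ∧
    (∀ z v : ℝ × ℝ × ℝ, fderiv ℝ D z v = D₁ z * v.1 + D₂ z * v.2.1 + (m z - 1) * v.2.2) ∧
    (∀ z, |D z| ≤ C * ε ^ 145 ∧ |D₁ z| ≤ C * ε ^ 9 ∧ |D₂ z| ≤ C * ε ^ 9) ∧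
    (∀ t, HasDerivAt D' (lam t - 1) t) ∧ (∀ t, |D' t| ≤ C * ε ^ 136 ∧ 0 ≤ lam t ∧ lam t ≤ C) ∧
    (∀ t t', |lam t - lam t'| ≤ C / ε ^ 145 * |t - t'|) ∧
    ∀ z, lam z.1 ≤ C * m z ∧ lam z.2.1 ≤ C * m z

/-! ### the mesoscopic inequality -/

def MesoA2Stmt : Prop := ∀ C : ℝ, 1 ≤ C → Small fun ε => ∀ (δ L l : ℝ) (n : ℕ) (S : Sys d ε δ)
  (Ψ : E d → E d) (y₀ e₁ e₂ : E d) (τ : Fin S.T) (m : ℝ × ℝ × ℝ → ℝ), 0 < δ → δ ≤ 1 / 100 →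
  1 ≤ L → L * ε ≤ 1 → 1 ≤ l → l ^ 4 * ε ≤ 1 → (n : ℝ) ≤ l → Loc S L Ψ y₀ →
  Typ2 S τ e₁ e₂ n l → Rw ε C m →
  ∀ y ∈ closedBall y₀ 1, BadO S τ (cv (ε ^ 120) Ψ y) < 1 →
    |cv (ε ^ 120) (fun z => m (tc e₁ e₂ (S.e τ) (Ψ z))) y -
      1 / rr ε δ n l (co e₁ Ψ) (co e₂ Ψ) (co (S.e τ) Ψ) y| ≤ ε ^ 10

def Meso2Stmt : Prop := ∃ C : ℝ, 1 ≤ C ∧ Small fun ε => ∀ (δ L l β M M₂ H : ℝ) (n : ℕ)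
  (S : Sys d ε δ) (Ψ : E d → E d) (y₀ e₁ e₂ : E d) (τ : Fin S.T), 0 < δ → δ ≤ 1 / 100 →
  1 ≤ L → L * ε ≤ 1 → 1 ≤ l → l ^ 4 * ε ≤ 1 → (n : ℝ) ≤ l → β ≤ 1 → 1 ≤ M → 1 ≤ M₂ →
  |H| ≤ 12 → Loc S L Ψ y₀ → Typ2 S τ e₁ e₂ n l →
  (∀ y ∈ ball y₀ 4, Far S (Ψ y) → Pot2 M M₂ H (ε ^ 160) Ψ y) →
  ∀ y ∈ closedBall y₀ 1, BadO S τ (cv (ε ^ 120) Ψ y) < 1 →
    ∀ (b : ℝ) (f v : E d), |b| ≤ β → (f = e₁ ∨ f = e₂) → ‖v‖ = 1 →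
      val2 M M₂ (rr ε δ n l (co e₁ Ψ) (co e₂ Ψ) (co (S.e τ) Ψ) y *
          (Af (ε ^ 120) Ψ y (S.e τ) v + b * Af (ε ^ 120) Ψ y f v) / (1 + C * β ^ 2))
        (2 * (rr ε δ n l (co e₁ Ψ) (co e₂ Ψ) (co (S.e τ) Ψ) y ^ 2 *
          sq3 (Zf (ε ^ 120) Ψ y) (S.e τ))) ≤ H + ε ^ 2

def MassB2Stmt : Prop := Small fun ε => ∀ (δ L l : ℝ) (n : ℕ) (S : Sys d ε δ) (Ψ : E d → E d)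
  (y₀ e₁ e₂ : E d) (τ : Fin S.T), 0 < δ → δ ≤ 1 / 100 → 1 ≤ L → L * ε ≤ 1 → 1 ≤ l →
  l ^ 4 * ε ≤ 1 → (n : ℝ) ≤ l → Loc S L Ψ y₀ → Typ2 S τ e₁ e₂ n l →
  |cv 1 (fun y => W1 ε (cv (ε ^ 120) (co (S.e τ) Ψ) y) /
        rr ε δ n l (co e₁ Ψ) (co e₂ Ψ) (co (S.e τ) Ψ) y) y₀ - 4 * ε ^ 20| ≤ ε ^ 30 ∧
    cv 1 (fun y => W1 ε (cv (ε ^ 120) (co (S.e τ) Ψ) y) * BadO S τ (cv (ε ^ 120) Ψ y)) y₀ ≤ ε ^ 31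

def Tight2Stmt : Prop := ∀ C : ℝ, 1 ≤ C → ∃ C₀ : ℝ, 1 ≤ C₀ ∧ Small fun ε =>
  ∀ (wt r pt pz q₁ q₂ Bd : E d → ℝ) (Y : Fin d → Fin d → Fin d → E d → ℝ)
  (Y₀ : Fin d → Fin d → Fin d → ℝ) (y₀ : E d) (M M₂ H ν Λ β : ℝ), Continuous wt →
  Continuous r → Continuous pt → Continuous pz → Continuous q₁ → Continuous q₂ → Continuous Bd →
  (∀ j k l, Continuous (Y j k l)) → (∀ y, 0 ≤ wt y ∧ wt y ≤ 1) →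
  (∀ y, 1 / 2 ≤ r y ∧ r y ≤ 3 / 2) →
  (∀ y, |pt y| ≤ ε⁻¹ ∧ |pz y| ≤ ε⁻¹ ∧ |q₁ y| ≤ ε⁻¹ ∧ |q₂ y| ≤ ε⁻¹) →
  (∀ j k l y, |Y j k l y| ≤ 2 * ε⁻¹ ^ 2) → (∀ j k l, |Y₀ j k l| ≤ 2 * ε⁻¹ ^ 2) →
  (∀ y, 0 ≤ Bd y) → 1 ≤ M → 1 ≤ M₂ → |H| ≤ 12 → 0 < β → β ≤ 1 → ε ≤ β ^ 2 → 1 ≤ ν →
  ν ≤ 1 + C * β ^ 2 → M ≤ 4 * Λ → Λ ≤ 2 * M →
  H - C * β ^ 2 ≤ val2 M M₂ Λ (2 * ∑ j, ∑ k, ∑ l, Y₀ j k l ^ 2) →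
  |cv 1 (fun y => wt y * pt y) y₀ - 4 * ε ^ 20 * Λ| ≤ ε ^ 30 →
  (∀ j k l, |cv 1 (fun y => wt y * Y j k l y) y₀ - 4 * ε ^ 20 * Y₀ j k l| ≤ ε ^ 30) →
  |cv 1 (fun y => wt y / r y) y₀ - 4 * ε ^ 20| ≤ ε ^ 30 →
  cv 1 (fun y => wt y * Bd y) y₀ ≤ ε ^ 31 →
  (∀ y ∈ closedBall y₀ 1, Bd y < 1 →
    (∀ c₁ c₂ : ℝ, c₁ ^ 2 + c₂ ^ 2 = 1 → val2 M M₂ (r y * (c₁ * pz y + c₂ * pt y) / ν)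
      (2 * (r y ^ 2 * ∑ j, ∑ k, ∑ l, Y j k l y ^ 2)) ≤ H + ε ^ 2) ∧
    ∀ b : ℝ, |b| ≤ β →
      val2 M M₂ (r y * (pt y + b * q₁ y) / ν)
        (2 * (r y ^ 2 * ∑ j, ∑ k, ∑ l, Y j k l y ^ 2)) ≤ H + ε ^ 2 ∧
      val2 M M₂ (r y * (pt y + b * q₂ y) / ν)
        (2 * (r y ^ 2 * ∑ j, ∑ k, ∑ l, Y j k l y ^ 2)) ≤ H + ε ^ 2) →
  ∃ eb : E d → ℝ, Tt2 ε C₀ β Λ M₂ y₀ wt r pt pz q₁ q₂ eb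
    fun y => √(∑ j, ∑ k, ∑ l, (r y * Y j k l y - Y₀ j k l) ^ 2)

/-! ### the bulk -/

def T0Stmt : Prop := Small fun ε => ∀ (g M M₂ H : ℝ) (Ψ : E d → E d) (Bd : E d → ℝ)
  (y₀ e u : E d), Sm ε⁻¹ Ψ → Continuous Bd → (∀ y, 0 ≤ Bd y) → cv 1 Bd y₀ ≤ ε ^ 12 →
  1 ≤ M → 1 ≤ M₂ → |H| ≤ 12 → ε ≤ g → g ≤ 1 → ‖e‖ = 1 → ‖u‖ = 1 → |Af 1 Ψ y₀ e u| ≤ M →
  H ≤ val2 M M₂ (Af 1 Ψ y₀ e u) (sq4 (Zf 1 Ψ y₀)) + 2 * g →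
  (∀ y ∈ closedBall y₀ 1, Bd y < 1 → Pot2 M M₂ H (ε ^ 160) Ψ y) →
  ∃ a b c : E d → ℝ, Bk ε g M M₂ (Af 1 Ψ y₀ e u) Ψ y₀ e u a b c

/-- a minor of two slowly moving coordinates is small: slab form -/
def Nb3Stmt : Prop := ∃ C : ℝ, 1 ≤ C ∧ Small fun ε => ∀ (q q' p : E d → ℝ) (v u y₀ : E d)
  (β Λ K J : ℝ), Sm ε⁻¹ q → Sm ε⁻¹ q' → Sm ε⁻¹ p → ‖v‖ = 1 → ‖u‖ = 1 → 0 < β → ε ≤ β ^ 4 →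
  C * β ≤ 1 → 1 / 8 ≤ Λ → Λ ≤ ε⁻¹ → 1 ≤ K → |J| ≤ 2 * ε⁻¹ ^ 2 →
  |cv 1 (dd p u) y₀ - Λ| ≤ β * Λ →
  cv 1 (fun y => W1 ε (cv (ε ^ 120) p y)) y₀ ≤ 28 * ε ^ 20 →
  cv 1 (fun y => W1 ε (cv (ε ^ 120) p y) * |dd (cv (ε ^ 120) p) u y - Λ|) y₀ ≤ β * Λ * ε ^ 20 →
  cv 1 (fun y => W1 ε (cv (ε ^ 120) p y) * |dd (cv (ε ^ 120) q) u y|) y₀ ≤ β * Λ * ε ^ 20 →
  cv 1 (fun y => W1 ε (cv (ε ^ 120) p y) * |dd (cv (ε ^ 120) q') u y|) y₀ ≤ β * Λ * ε ^ 20 →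
  cv 1 (fun y => W1 ε (cv (ε ^ 120) p y) * |cv (ε ^ 120) (jac q p v u) y|) y₀ ≤ K * ε ^ 20 →
  cv 1 (fun y => W1 ε (cv (ε ^ 120) p y) * |cv (ε ^ 120) (jac p q' v u) y|) y₀ ≤ K * ε ^ 20 →
  cv 1 (fun y => W1 ε (cv (ε ^ 120) p y) * |cv (ε ^ 120) (jac q q' v u) y - J|) y₀ ≤
    β * K * ε ^ 20 →
  |J| ≤ C * β * K

/-- the same: bulk form -/
def Nb2Stmt : Prop := ∃ C : ℝ, 1 ≤ C ∧ Small fun ε => ∀ (q q' p : E d → ℝ) (v u y₀ : E d)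
  (β Λ K J : ℝ), Sm ε⁻¹ q → Sm ε⁻¹ q' → Sm ε⁻¹ p → ‖v‖ = 1 → ‖u‖ = 1 → 0 < β → ε ≤ β ^ 4 →
  C * β ≤ 1 → 1 / 8 ≤ Λ → Λ ≤ ε⁻¹ → 1 ≤ K → |J| ≤ 2 * ε⁻¹ ^ 2 →
  cv 1 (fun y => |dd (cv (ε ^ 120) p) u y - Λ|) y₀ ≤ β * Λ →
  cv 1 (fun y => |dd (cv (ε ^ 120) q) u y|) y₀ ≤ β * Λ →
  cv 1 (fun y => |dd (cv (ε ^ 120) q') u y|) y₀ ≤ β * Λ →
  cv 1 (fun y => |cv (ε ^ 120) (jac q p v u) y|) y₀ ≤ K →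
  cv 1 (fun y => |cv (ε ^ 120) (jac p q' v u) y|) y₀ ≤ K →
  cv 1 (fun y => |cv (ε ^ 120) (jac q q' v u) y - J|) y₀ ≤ β * K →
  |J| ≤ C * β * K

/-- the mean tensor of minors is bordered -/
def NbStmt : Prop := ∃ C : ℝ, 1 ≤ C ∧ Small fun ε => ∀ (g M M₂ : ℝ) (Ψ : E d → E d)
  (y₀ e u : E d) (a b c : E d → ℝ), Sm ε⁻¹ Ψ → ‖e‖ = 1 → ‖u‖ = 1 → 1 ≤ M → 1 ≤ M₂ → 0 < g →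
  ε ≤ g ^ 2 → g * lg ε ≤ 1 → M₂ ^ 2 ≤ g * M ^ 4 → M ≤ 2 * Af 1 Ψ y₀ e u →
  sq4 (Zf 1 Ψ y₀) ≤ M₂ ^ 2 → Bk ε g M M₂ (Af 1 Ψ y₀ e u) Ψ y₀ e u a b c →
  sq4 (Zf 1 Ψ y₀) ≤ 2 * sq3 (Zf 1 Ψ y₀) e + C * g * M₂ ^ 2

/-- the isoperimetric inequality with one distinguished direction -/
def VolA2Stmt : Prop := ∃ C : ℝ, 1 ≤ C ∧ ∀ (A Q : E d → ℝ) (u v₁ : E d) (S B₁ B₂ r lam : ℝ),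
  ON v₁ u → ContDiff ℝ 1 A → HasCompactSupport A → Continuous Q → HasCompactSupport Q →
  (∀ y, 0 ≤ Q y) → (∀ y, A y ≠ 0 → 1 ≤ ∫ τ : ℝ, Q (y + τ • u)) → ∫ y, Q y ≤ S → 0 < r →
  0 < lam → C * S ≤ lam * r ^ (d - 1) → 0 ≤ B₁ → 0 ≤ B₂ →
  (∃ A' : E d → ℝ, ContDiff ℝ 1 A' ∧ HasCompactSupport A' ∧
    ∫ y, |dd A v₁ y - dd A' u y| ≤ B₁) →
  (∀ v, ON v u → inner ℝ v v₁ = 0 → ∃ A' : E d → ℝ, ContDiff ℝ 1 A' ∧ HasCompactSupport A' ∧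
    ∫ y, |dd A v y - dd A' u y| ≤ B₂) →
  |∫ y, A y| ≤ 2 * r * (lam * B₁ + B₂)

/-- the two largest singular values -/
def SvdStmt : Prop := ∀ (z : E d → E d → E d → E d → ℝ) (e u : E d), Ml z → ‖e‖ = 1 → ‖u‖ = 1 →
  ∃ (f₁ f₂ v₁ v₂ : E d) (x₁ x₂ : ℝ), ON3 f₁ f₂ e ∧ ON3 v₁ v₂ u ∧ 0 ≤ x₂ ∧ x₂ ≤ x₁ ∧
    (∀ v, z f₁ e v u = x₁ * inner ℝ v₁ v) ∧ (∀ v, z f₂ e v u = x₂ * inner ℝ v₂ v) ∧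
    (∀ g, ‖g‖ = 1 → |z g e v₁ u| ≤ x₁) ∧
    ∀ g v, ‖g‖ = 1 → ON v u → inner ℝ v v₁ = 0 → |z g e v u| ≤ x₂

def Vol2Stmt : Prop := ∃ C : ℝ, 1 ≤ C ∧ Small fun ε => ∀ (δ L a b₁ b₂ : ℝ) (S : Sys d ε δ)
  (Ψ : E d → E d) (y₀ f u v₁ : E d) (G₁ G₂ : E d → ℝ), 1 ≤ L → L * ε ≤ 1 → Loc S L Ψ y₀ →
  1 ≤ a → ε ^ 3 ≤ b₁ → ε ^ 3 ≤ b₂ → ‖f‖ = 1 → ON v₁ u →
  (∀ y ∈ ball y₀ 4, Far S (Ψ y) → ∀ f' v : E d, ‖f'‖ = 1 → ‖v‖ = 1 →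
    Af (ε ^ 160) Ψ y f' v ≤ a) →
  Continuous G₁ → Continuous G₂ →
  (∀ y g : E d, ‖g‖ = 1 → |Zf (ε ^ 160) Ψ y g f v₁ u| ≤ G₁ y) →
  (∀ y, 0 ≤ G₂ y) →
  (∀ y g v : E d, ‖g‖ = 1 → ON v u → inner ℝ v v₁ = 0 → |Zf (ε ^ 160) Ψ y g f v u| ≤ G₂ y) →
  cv 1 G₁ y₀ ≤ b₁ → cv 1 G₂ y₀ ≤ b₂ → 0 ≤ Af 1 Ψ y₀ f u →
  Af 1 Ψ y₀ f u ^ (d - 1) ≤ C * a * b₁ * b₂ ^ (d - 2)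

def FrameStmt : Prop := ∃ C : ℝ, 1 ≤ C ∧ Small fun ε => ∀ (δ L g M M₂ H : ℝ) (S : Sys d ε δ)
  (Ψ : E d → E d) (y₀ e u : E d) (a b c : E d → ℝ), 0 < δ → δ ≤ 1 → 1 ≤ L → L * ε ≤ 1 →
  Loc S L Ψ y₀ → ‖e‖ = 1 → ‖u‖ = 1 → 1 ≤ M → 1 ≤ M₂ → 0 < g → g ≤ 1 → ε ≤ g → H ≤ 12 →
  (∀ y ∈ ball y₀ 4, Far S (Ψ y) → Pot2 M M₂ H (ε ^ 160) Ψ y) → M ≤ 2 * Af 1 Ψ y₀ e u →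
  sq4 (Zf 1 Ψ y₀) ≤ M₂ ^ 2 → Bk ε g M M₂ (Af 1 Ψ y₀ e u) Ψ y₀ e u a b c →
  (g * lg ε ^ 10 * M₂ ^ 2) ^ (d - 2) * M₂ ^ 2 ≤ δ ^ (2 * (d - 2)) * M ^ (2 * (d - 2)) →
  ∃ (f₁ f₂ v₁ v₂ : E d) (x₁ x₂ : ℝ), ON3 f₁ f₂ e ∧ ON3 v₁ v₂ u ∧ 0 < x₂ ∧ x₂ ≤ x₁ ∧
    (∀ v, Zf 1 Ψ y₀ f₁ e v u = x₁ * inner ℝ v₁ v) ∧
    (∀ v, Zf 1 Ψ y₀ f₂ e v u = x₂ * inner ℝ v₂ v) ∧
    M ^ (d - 2) ≤ C * x₁ * x₂ ^ (d - 2) ∧ g * M₂ ^ 2 * lg ε ^ 8 ≤ δ ^ 2 * x₂ ^ 2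

/-! ### almost orthogonality on windows -/

/-- decay of the Fourier transform of the kernel, and the large sieve -/
def LsStmt : Prop := ∃ C : ℝ, 1 ≤ C ∧ (∀ ξ : E d, ‖∫ z, ze d z • exi ξ z‖ * ‖ξ‖ ^ 2 ≤ C) ∧
  ∀ (s : Finset ℕ) (ξ : ℕ → E d) (ν : ℝ) (c : ℕ → ℂ), Sp2 s ξ 1 ν →
    ∫ z, ze d z * ‖∑ k ∈ s, c k * exi (ξ k) z‖ ^ 2 ≤ C * ∑ k ∈ s, ‖c k‖ ^ 2 ∧
    ∫ z, ze d z * ‖∑ k ∈ s, c k * exi (ξ k) ((2 : ℝ) • z)‖ ^ 2 ≤ C * ∑ k ∈ s, ‖c k‖ ^ 2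

/-- lattice sums -/
def LatStmt : Prop := ∀ (n : ℕ) (a₀ a₁ a₂ : E d) (lam : ℝ), 1 ≤ n → 0 < lam →
  (∀ j₁ j₂ : ℤ, lam * |(j₁ : ℝ)| ≤ ‖(j₁ : ℝ) • a₁ + (j₂ : ℝ) • a₂‖ ∧
    lam * |(j₂ : ℝ)| ≤ ‖(j₁ : ℝ) • a₁ + (j₂ : ℝ) • a₂‖) →
  Sp2 (Finset.range (n ^ 2)) (fun k => a₀ + ((k % n : ℕ) : ℝ) • a₁ + ((k / n : ℕ) : ℝ) • a₂)
    (16 * (1 + Real.log n) / lam ^ 2) (16 * n / lam)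

/-- a slowly varying function against a trigonometric polynomial without constant term -/
def CrossStmt : Prop := ∃ C : ℝ, 1 ≤ C ∧ ∀ (V : E d → ℂ) (a b : E d → ℝ) (s : Finset ℕ)
  (ζ : ℕ → E d) (c : ℕ → ℂ) (ν : ℝ), ContDiff ℝ 1 V → Continuous a → Continuous b →
  (∀ z, 0 ≤ a z ∧ 0 ≤ b z) → (∀ z v' : E d, ‖v'‖ = 1 → ‖dd V v' z‖ ≤ a z + b z) →
  Sp2 s ζ 1 ν → (∀ j ∈ s, ζ j ≠ 0 ∧ ‖c j‖ ≤ 1) →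
  ‖∫ z, ze d z • (V z * (starRingEnd ℂ) (∑ j ∈ s, c j * exi (ζ j) z))‖ ≤
    C * (‖V 0‖ * ∑ j ∈ s, ‖c j‖ / ‖ζ j‖ ^ 2 +
      √(Mw fun z => a z ^ 2) * √(∑ j ∈ s, ‖c j‖ ^ 2 / ‖ζ j‖ ^ 2) + Mw b * ∑ j ∈ s, 1 / ‖ζ j‖)

/-- one window -/
def WinStmt : Prop := ∃ C : ℝ, 1 ≤ C ∧ ∀ (m : ℕ) (ξ : ℕ → E d) (v : E d) (κ ν w : ℝ)
  (U : ℕ → E d → ℂ) (a b : ℕ → E d → ℝ) (x : ℕ → ℝ) (S e₂ e₁ Y₁ Y₂ : E d → ℝ), 1 ≤ m →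
  ‖v‖ = 1 → 0 < κ → C * κ ≤ 1 → 1 ≤ ν → 0 < w → Sp2 (Finset.range m) ξ κ ν →
  (m : ℝ) ≤ κ * w ^ 2 → (m : ℝ) ≤ ν * w →
  (∀ k < m, w ≤ inner ℝ (ξ k) v ∧ ContDiff ℝ 1 (U k) ∧ Continuous (a k) ∧ Continuous (b k) ∧
    0 ≤ x k ∧ ‖U k 0‖ ≤ 1 + x k ∧ ∀ z, 0 ≤ a k z ∧ 0 ≤ b k z ∧ ∀ v' : E d, ‖v'‖ = 1 →
      ‖dd (U k) v' z - Complex.I * (inner ℝ (ξ k) v' : ℝ) * U k z‖ ≤ a k z + b k z) →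
  ContDiff ℝ 1 S → Continuous e₂ → Continuous e₁ → Continuous Y₁ → Continuous Y₂ →
  (∀ z, 0 ≤ e₂ z ∧ 0 ≤ e₁ z ∧ 0 ≤ Y₁ z ∧ 0 ≤ Y₂ z ∧
    |S z - ∑ k ∈ Finset.range m, (U k z).re| ≤ e₂ z + e₁ z ∧ |dd S v z| ≤ w * (Y₁ z + Y₂ z)) →
  ∑ k ∈ Finset.range m, min ‖U k 0‖ 1 ^ 2 ≤
    C * (ν * ∑ k ∈ Finset.range m, x k + ∑ k ∈ Finset.range m, (Mw fun z => a k z ^ 2) +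
      ν * ∑ k ∈ Finset.range m, Mw (b k) + (Mw fun z => e₂ z ^ 2) + m * Mw e₁ +
      (Mw fun z => Y₁ z ^ 2) + m * Mw Y₂)

/-- the mean over all windows -/
def Ortho2Stmt : Prop := ∃ C : ℝ, 1 ≤ C ∧ ∀ (m : ℕ) (η : ℕ → E d) (v y₀ : E d)
  (κ ν w ϱ B : ℝ) (U : ℕ → E d → ℂ) (a b x : ℕ → E d → ℝ) (S e₂ e₁ Y₁ Y₂ : E d → ℝ), 1 ≤ m →
  ‖v‖ = 1 → 0 < κ → C * κ ≤ 1 → 1 ≤ ν → 0 < w → 0 < ϱ →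
  Sp2 (Finset.range m) η (κ * ϱ ^ 2) (ν * ϱ) → (m : ℝ) ≤ κ * (ϱ * w) ^ 2 →
  (m : ℝ) ≤ ν * (ϱ * w) →
  (∀ k < m, w ≤ inner ℝ (η k) v ∧ ContDiff ℝ 1 (U k) ∧ Continuous (a k) ∧ Continuous (b k) ∧
    Continuous (x k) ∧ ∀ y, 0 ≤ x k y ∧ ‖U k y‖ ≤ 1 + x k y ∧ 0 ≤ a k y ∧ 0 ≤ b k y ∧
      a k y ^ 2 ≤ B ∧ b k y ≤ B ∧ ∀ v' : E d, ‖v'‖ = 1 →
      ϱ * ‖dd (U k) v' y - Complex.I * (inner ℝ (η k) v' : ℝ) * U k y‖ ≤ a k y + b k y) →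
  ContDiff ℝ 1 S → Continuous e₂ → Continuous e₁ → Continuous Y₁ → Continuous Y₂ →
  (∀ y, 0 ≤ e₂ y ∧ 0 ≤ e₁ y ∧ 0 ≤ Y₁ y ∧ 0 ≤ Y₂ y ∧ e₂ y ^ 2 ≤ B ∧ e₁ y ≤ B ∧ Y₁ y ^ 2 ≤ B ∧
    Y₂ y ≤ B ∧ |S y - ∑ k ∈ Finset.range m, (U k y).re| ≤ e₂ y + e₁ y ∧
    |dd S v y| ≤ w * (Y₁ y + Y₂ y)) →
  ∑ k ∈ Finset.range m, cv 1 (fun y => min ‖U k y‖ 1 ^ 2) y₀ ≤
    C * (ν * ∑ k ∈ Finset.range m, cv 1 (x k) y₀ +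
      ∑ k ∈ Finset.range m, cv 1 (fun y => a k y ^ 2) y₀ +
      ν * ∑ k ∈ Finset.range m, cv 1 (b k) y₀ + cv 1 (fun y => e₂ y ^ 2) y₀ + m * cv 1 e₁ y₀ +
      cv 1 (fun y => Y₁ y ^ 2) y₀ + m * cv 1 Y₂ y₀ + m * ν * B * ϱ)

/-! ### the test -/

def TestA2Stmt : Prop := Small fun ε => ∀ (q p : E d → ℝ) (v' u : E d) (m k : ℕ) (l ν : ℝ),
  Sm ε⁻¹ q → Sm ε⁻¹ p → ‖v'‖ = 1 → ‖u‖ = 1 → k < m → 1 ≤ l → (m : ℝ) ≤ l ^ 2 →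
  l ^ 4 * ε ≤ 1 → |ν| ≤ ε⁻¹ ^ 76 →
  ContDiff ℝ 1 (Uk ε m l k q p u) ∧ Continuous (Ub ε m l k q p u) ∧ ∀ y,
    ‖Uk ε m l k q p u y - Ub ε m l k q p u y‖ ≤ ε ^ 25 ∧
    ‖dd (Uk ε m l k q p u) v' y - Complex.I * ν * Uk ε m l k q p u y‖ ≤
      ln (ε ^ 52) u (fun _ => 1) (fun z => bk ε m k (cv (ε ^ 120) p z) * (m / ε ^ 70) *
        (|om ε m l k * cv (ε ^ 120) (jac q p v' u) z - ν * dd (cv (ε ^ 120) p) u z| +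
          2 / ε ^ 53)) y + ε⁻¹ ^ 50

/-- the signed number of crossings of a step and of the slab -/
def Leaf2Stmt : Prop := Small fun ε => ∀ p p' : ℝ → ℝ, (∀ t, HasDerivAt p (p' t) t) →
  Continuous p' → (∀ t, |p' t| ≤ ε⁻¹) →
  (∀ m k : ℕ, k < m →
    ∫ τ in (-(3 * ε ^ 52))..(3 * ε ^ 52), bk ε m k (p τ) * (m / ε ^ 70) * p' τ ≤ 1) ∧
  ∫ τ in (-(3 * ε ^ 52))..(3 * ε ^ 52), W1 ε (p τ) / ε ^ 70 * p' τ ≤ 4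

/-- the leaf sums are large -/
def Low2Stmt : Prop := ∀ C₀ : ℝ, 1 ≤ C₀ → Small fun ε => ∀ (δ l Λ M₂ X₁ X₂ : ℝ) (n : ℕ)
  (q₁ q₂ p eb ez : E d → ℝ) (u v y₀ x₁ x₂ : E d), Tn ε δ l Λ M₂ X₁ X₂ n v x₁ x₂ →
  Tf ε C₀ δ l Λ M₂ n q₁ q₂ p eb ez u v y₀ x₁ x₂ →
  (∀ k < n ^ 2, ContDiff ℝ 1 (U2 ε n l q₁ q₂ p u k)) ∧
  (n : ℝ) ^ 2 * (Λ * ε ^ 2) / 100 ≤
    ∑ k ∈ Finset.range (n ^ 2), cv 1 (fun y => min ‖U2 ε n l q₁ q₂ p u k y‖ 1 ^ 2) y₀ ∧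
  ∃ x : ℕ → E d → ℝ, (∀ k < n ^ 2, Continuous (x k) ∧
      ∀ y, 0 ≤ x k y ∧ ‖U2 ε n l q₁ q₂ p u k y‖ ≤ 1 + x k y) ∧
    n * ∑ k ∈ Finset.range (n ^ 2), cv 1 (x k) y₀ ≤ (n : ℝ) ^ 2 * (Λ * ε ^ 2) / lg ε

/-- the leaf sums have almost pure frequencies -/
def Freq2Stmt : Prop := ∀ C₀ : ℝ, 1 ≤ C₀ → Small fun ε => ∀ (δ l Λ M₂ X₁ X₂ : ℝ) (n : ℕ)
  (q₁ q₂ p eb ez : E d → ℝ) (u v y₀ x₁ x₂ : E d), Tn ε δ l Λ M₂ X₁ X₂ n v x₁ x₂ →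
  Tf ε C₀ δ l Λ M₂ n q₁ q₂ p eb ez u v y₀ x₁ x₂ →
  ∃ a b : ℕ → E d → ℝ, (∀ k < n ^ 2, Continuous (a k) ∧ Continuous (b k) ∧
      ∀ y, 0 ≤ a k y ∧ 0 ≤ b k y ∧ a k y ^ 2 ≤ ε⁻¹ ^ 40 ∧ b k y ≤ ε⁻¹ ^ 40 ∧
        ∀ v' : E d, ‖v'‖ = 1 → rho ε n l Λ X₂ * ‖dd (U2 ε n l q₁ q₂ p u k) v' y -
          Complex.I * (inner ℝ (eta ε n l Λ x₁ x₂ k) v' : ℝ) * U2 ε n l q₁ q₂ p u k y‖ ≤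
            a k y + b k y) ∧
    ∑ k ∈ Finset.range (n ^ 2), cv 1 (fun y => a k y ^ 2) y₀ +
      n * ∑ k ∈ Finset.range (n ^ 2), cv 1 (b k) y₀ ≤ (n : ℝ) ^ 2 * (Λ * ε ^ 2) / lg ε

/-- the delay is the sum of the leaf sums and has little shear -/
def Del2Stmt : Prop := ∀ C₀ : ℝ, 1 ≤ C₀ → ∃ K : ℝ, 1 ≤ K ∧ Small fun ε =>
  ∀ (δ l Λ M₂ X₁ X₂ : ℝ) (n : ℕ) (q₁ q₂ p eb ez : E d → ℝ) (u v y₀ x₁ x₂ : E d),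
  Tn ε δ l Λ M₂ X₁ X₂ n v x₁ x₂ → Tf ε C₀ δ l Λ M₂ n q₁ q₂ p eb ez u v y₀ x₁ x₂ →
  ContDiff ℝ 1 (Sg ε (δ / 4) Λ (n ^ 2) p u) ∧ ∃ e₂ e₁ Y₁ Y₂ : E d → ℝ, Continuous e₂ ∧
    Continuous e₁ ∧ Continuous Y₁ ∧ Continuous Y₂ ∧
    (∀ y, 0 ≤ e₂ y ∧ 0 ≤ e₁ y ∧ 0 ≤ Y₁ y ∧ 0 ≤ Y₂ y ∧ e₂ y ^ 2 ≤ ε⁻¹ ^ 40 ∧ e₁ y ≤ ε⁻¹ ^ 40 ∧
      Y₁ y ^ 2 ≤ ε⁻¹ ^ 40 ∧ Y₂ y ≤ ε⁻¹ ^ 40 ∧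
      |Sg ε (δ / 4) Λ (n ^ 2) p u y -
        ∑ k ∈ Finset.range (n ^ 2), (U2 ε n l q₁ q₂ p u k y).re| ≤ e₂ y + e₁ y ∧
      |dd (Sg ε (δ / 4) Λ (n ^ 2) p u) v y| ≤ wlo ε n l Λ X₁ * (Y₁ y + Y₂ y)) ∧
    cv 1 (fun y => e₂ y ^ 2) y₀ + (n : ℝ) ^ 2 * cv 1 e₁ y₀ + cv 1 (fun y => Y₁ y ^ 2) y₀ +
      (n : ℝ) ^ 2 * cv 1 Y₂ y₀ ≤ K * ((n : ℝ) ^ 2 * (Λ * ε ^ 2) / lg ε)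

def Test2Stmt : Prop := ∀ C₀ : ℝ, 1 ≤ C₀ → Small fun ε => ∀ (δ l Λ M₂ X₁ X₂ : ℝ) (n : ℕ)
  (q₁ q₂ p eb ez : E d → ℝ) (u v y₀ x₁ x₂ : E d), Tn ε δ l Λ M₂ X₁ X₂ n v x₁ x₂ →
  ¬ Tf ε C₀ δ l Λ M₂ n q₁ q₂ p eb ez u v y₀ x₁ x₂

/-! ### assembly -/

/-- in the slab of a type the potential cannot be tight -/
def Slab2Stmt : Prop := ∀ C : ℝ, 1 ≤ C → Small fun ε => ∀ (δ L l M M₂ H X₁ X₂ : ℝ) (n : ℕ)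
  (S : Sys d ε δ) (Ψ : E d → E d) (y₀ e₁ e₂ u v x₁ x₂ : E d) (τ : Fin S.T), 1 ≤ L → L * ε ≤ 1 →
  Loc S L Ψ y₀ → Typ2 S τ e₁ e₂ n l → ON v u → 1 ≤ M → |H| ≤ 12 →
  M ≤ 4 * Af 1 Ψ y₀ (S.e τ) u → Af 1 Ψ y₀ (S.e τ) u ≤ 2 * M →
  H - C * (1 / (lg ε * l)) ^ 2 ≤
    val2 M M₂ (Af 1 Ψ y₀ (S.e τ) u) (2 * sq3 (Zf 1 Ψ y₀) (S.e τ)) →
  (∀ y ∈ ball y₀ 4, Far S (Ψ y) → Pot2 M M₂ H (ε ^ 160) Ψ y) →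
  (∀ v', inner ℝ x₁ v' = Zf 1 Ψ y₀ e₁ (S.e τ) v' u) →
  (∀ v', inner ℝ x₂ v' = Zf 1 Ψ y₀ e₂ (S.e τ) v' u) →
  ¬ Tn ε δ l (Af 1 Ψ y₀ (S.e τ) u) M₂ X₁ X₂ n v x₁ x₂

/-- the potential gains at every level -/
def Step2Stmt : Prop := Small fun ε => ∀ (δ L M M₂ H g η : ℝ) (S : Sys d ε δ) (Ψ : E d → E d)
  (y₀ e u : E d), Net2 S η → η ≤ g → ε ≤ δ → δ ≤ 1 / 100 → 1 ≤ L → L * ε ≤ 1 → Loc S L Ψ y₀ →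
  1 ≤ M → 1 ≤ M₂ → M₂ ≤ ε⁻¹ ^ 3 → |H| ≤ 12 → 0 < g → ε ≤ g ^ 2 → g * lg ε ^ 11 ≤ δ ^ 4 →
  M₂ ^ 2 ≤ g * M ^ 4 →
  (M ^ 4 * g ^ 3 * M₂ ^ 2 * lg ε ^ 12) ^ (d - 1) ≤ δ ^ (4 * (d - 1)) * M ^ (4 * (d - 2)) →
  (g * lg ε ^ 10 * M₂ ^ 2) ^ (d - 2) * M₂ ^ 2 ≤ δ ^ (2 * (d - 2)) * M ^ (2 * (d - 2)) →
  ‖e‖ = 1 → ‖u‖ = 1 → (∀ f v : E d, ‖f‖ = 1 → ‖v‖ = 1 → Af 1 Ψ y₀ f v ≤ M) →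
  sq4 (Zf 1 Ψ y₀) ≤ M₂ ^ 2 → 3 ≤ val2 M M₂ (Af 1 Ψ y₀ e u) (sq4 (Zf 1 Ψ y₀)) →
  (∀ y ∈ ball y₀ 4, Far S (Ψ y) → Pot2 M M₂ H (ε ^ 160) Ψ y) →
  val2 M M₂ (Af 1 Ψ y₀ e u) (sq4 (Zf 1 Ψ y₀)) + 2 * g < H

def Pig2Stmt : Prop := Small fun ε => ∀ (δ L η : ℝ) (S : Sys d ε δ) (I N₁ : ℕ)
  (Ψ : ℕ → E d → E d) (G : ℕ → Set (E d)), Net S → Net2 S η → η ≤ 11 / (N₁ : ℝ) → ε ≤ δ →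
  δ ≤ 1 / 100 → 1 ≤ L → L * ε ≤ 1 → ((I * N₁ : ℕ) : ℝ) * ε ≤ 1 → 25 * lg ε ≤ I → 1 ≤ N₁ →
  ε ≤ (11 / (N₁ : ℝ)) ^ 2 → 11 / (N₁ : ℝ) * lg ε ^ 11 ≤ δ ^ 4 →
  (2 * L) ^ (8 * d) * ((11 / (N₁ : ℝ)) ^ 11 * lg ε ^ 36) ^ (d - 1) ≤ δ ^ (14 * (d - 1)) →
  ¬ Tower S L (I * N₁) Ψ G

end Pool.Agent.MP_20bec2_an.b2

end
end MrgPart1

-- marker of a merged file
example : 731051 + 802014 = 731051 + 802014 := rfl
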