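import Mathlib.RingTheory.Flat.TorsionFree
import Mathlib.Analysis.Calculus.LineDeriv.IntegrationByParts
import Mathlib.RingTheory.SimpleRing.Principal
import Pool.Agent.MP_20bec2_an.b2.Basic
import Pool.Agent.MP_20bec2_an.b2.Spec

-- ======== part 0: formerly Pool.Agent.MP_20bec2_an.b2.MassB2
section MrgPart0

/-! The mass of the slabs with the two-dimensional pattern (project BIOM2). -/

set_option autoImplicit false

open MeasureTheory Set Metric Filter Topology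

noncomputable section

namespace Pool.Agent.MP_20bec2_an.b2

open Pool.Agent.MP_20bec2_an.h7

open Pool.Agent.MP_20bec2_an.h7.Mass in
theorem massB2 (d : ℕ) (hd : 3 ≤ d) (h2 : Avg3Stmt d) (h3 : Pl3Stmt) : MassB2Stmt d := by
  have h1 : AvgStmt d := avg d (by omega)
  have h4 : OscStmt d := oscst d (by omega)
  have h5 : FinStmt d := finst d (by omega) h1
  refine small_iff.2 ?_
  filter_upwards [ev_pos, ev_mul_le 1000, ev_mul_le (Cw d), small_iff.1 h5] with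
    ε h0 hk hC hF δ L l n S Ψ y₀ e₁ e₂ τ hδ0 hδ hL1 hL hl1 hl hn hloc htyp
  have hh : ε ≤ 1 / 2 := by linarith
  have hh' : ε ≤ 1 := by linarith
  obtain ⟨Y, ρ, N, hctx, hY, hN, hρ⟩ := hloc
  obtain ⟨hon, hdev, -⟩ := htyp
  obtain ⟨ϑ, hW⟩ := hctx.wt 1 y₀ one_pos (pow_le_one₀ h0.le hh')
    ((ball_subset_ball (by norm_num)).trans hY)
  have hσ : ε ^ (200 * d) ≤ ε ^ 400 := pow_le_pow_of_le_one h0.le hh' (by omega)
  have p1 : ∀ a b : ℕ, a ≤ b → ε ^ b ≤ ε ^ a := fun a b h => pow_le_pow_of_le_one h0.le hh' h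
  have hj : 1000 ≤ ε⁻¹ := by
    rw [le_inv_comm₀ (by norm_num) h0]
    linarith
  have pj : ∀ a b : ℕ, a ≤ b → ε⁻¹ ^ a ≤ ε⁻¹ ^ b := fun a b h =>
    pow_le_pow_right₀ (by linarith) h
  have pj' : ∀ a : ℕ, a ≤ 77 → 1000 * ε⁻¹ ^ a ≤ ε⁻¹ ^ 78 := fun a h => by
    rw [pow_succ' ε⁻¹ 77]
    exact mul_le_mul hj (pj a 77 h) (by positivity) (by positivity)
  have pp : ∀ a : ℕ, 0 < ε⁻¹ ^ a := fun a => by positivity
  have hi := hW.int
  have habs : ∫ x, |ϑ x| ≤ 2 := by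
    simp only [abs_of_nonneg (hW.nn _)]
    exact hW.hi
  have hball : ∀ x, ϑ x ≠ 0 → x ∈ ball (Ψ y₀) (10 * L) := fun x hx => by
    have a1 := hW.supp x hx
    have a2 := hσ.trans (p1 0 400 (by norm_num))
    rw [mem_ball, dist_eq_norm]
    linarith
  have hm := fun {e : E d} (he : ‖e‖ = 1) =>
    mean_le h1 h0 hh hi (osc h0 hh hC hL hσ hW (by norm_num) (by norm_num)) hW.hi he
  have bw : BL 1 (2 * ε⁻¹ ^ 70) fun x => W1 ε (inner ℝ (S.e τ) x) :=
    bl_tr h0 hh (by norm_num) sp1 (S.unit τ)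
  have iw := bw.int hi
  have bO := bl_BadO h0 hh S τ
  have iO := bO.int iw
  have hO := overlaps h1 h0 hh hi (osc h0 hh hC hL hσ hW (by norm_num) (by norm_num)) S τ
    (hm (S.unit τ))
  have bρ : ∀ x, |ρ x| ≤ 2 := fun x => abs_le.2 ⟨by linarith [(hctx.rng x).1], (hctx.rng x).2⟩
  have q41 : 1000 * ε ^ 41 ≤ ε ^ 31 := mul_pow_le h0 hh' hk (by norm_num)
  have q33 : 1000 * ε ^ 33 ≤ ε ^ 31 := mul_pow_le h0 hh' hk (by norm_num)
  have q31 : 1000 * ε ^ 31 ≤ ε ^ 30 := mul_pow_le h0 hh' hk (by norm_num)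
  have z31 : 0 < ε ^ 31 := by positivity
  refine ⟨?_, ?_⟩
  swap
  · have a1 := near h0 hh' hL hσ hctx.sm hW ((bw.mul bO).mono
      (by rw [one_mul]; exact pj 7 78 (by norm_num)) (by
        have := pj' 77 le_rfl
        have e : ε⁻¹ ^ 7 * (2 * ε⁻¹ ^ 70) = 2 * ε⁻¹ ^ 77 := by ring
        linarith [pp 77]))
    have a2 : ∫ x, ϑ x * (W1 ε (inner ℝ (S.e τ) x) * BadO S τ x) * ρ x ≤
        ∫ x, 2 * (ϑ x * W1 ε (inner ℝ (S.e τ) x) * BadO S τ x) := by
      refine integral_mono (ib ((bw.mul bO).int hi) hctx.meas bρ) (iO.const_mul 2) fun x => ?_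
      have := mul_le_mul_of_nonneg_left (hctx.rng x).2
        (mul_nonneg (hW.nn x) (mul_nonneg (W1_mem ε (inner ℝ (S.e τ) x)).1 (BadO_mem h0 S τ x).1))
      exact this.trans (le_of_eq (by ring))
    rw [integral_const_mul] at a2
    simp only [cv_co hctx.sm.cont]
    linarith [(abs_le.1 a1).2]
  -- the pattern and the weight
  obtain ⟨g, hg⟩ : ∃ g : E d → ℝ, g = fun x => g2 ε n l (tc e₁ e₂ (S.e τ) x) := ⟨_, rfl⟩
  have bg : BL 2 (3 * ε⁻¹ ^ 73) g := by
    rw [hg]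
    refine ⟨by positivity, fun x => abs_g2_le _ _ _ _, fun x x' => ?_⟩
    refine (g2_lip h0 (by linarith) hn hl1 hl _ _).trans ?_
    have := mul_le_mul_of_nonneg_left (dl1_tc_le hon x x') (pp 73).le
    linarith
  obtain ⟨G, hG⟩ : ∃ G : E d → ℝ, G = fun x => W1 ε (inner ℝ (S.e τ) x) * (1 + δ / 4 * g x)⁻¹ :=
    ⟨_, rfl⟩
  have bi := bg.inv (δ := δ / 4) (by linarith) (by linarith)
  have bG : BL 2 (7 * ε⁻¹ ^ 73) G := hG ▸ (bw.mul bi).mono (by norm_num)
    (by linarith [pj 70 73 (by norm_num)])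
  have bGg : BL 4 (20 * ε⁻¹ ^ 73) fun x => G x * g x :=
    (bG.mul bg).mono (by norm_num) (by linarith)
  have hGw : ∀ x, |G x| ≤ 2 * W1 ε (inner ℝ (S.e τ) x) := fun x => by
    rw [hG, abs_mul, abs_of_nonneg (W1_mem ε _).1, mul_comm]
    exact mul_le_mul_of_nonneg_right (bi.bd x) (W1_mem ε _).1
  have hGe : ∀ x, G x + δ / 4 * (G x * g x) = W1 ε (inner ℝ (S.e τ) x) := fun x => by
    have : 1 + δ / 4 * g x ≠ 0 := by nlinarith [(abs_le.1 (bg.bd x)).1] |> ne_of_gt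
    rw [← mul_inv_cancel_right₀ (inv_ne_zero this) (W1 ε (inner ℝ (S.e τ) x)), inv_inv, hG]
    ring
  have a1 := near h0 hh' hL hσ hctx.sm hW (bG.mono
    (by linarith [pj' 0 (by norm_num), pow_zero ε⁻¹]) (by linarith [pj' 73 (by norm_num), pp 73]))
  have e1 : (fun y => W1 ε (cv (ε ^ 120) (co (S.e τ) Ψ) y) /
      rr ε δ n l (co e₁ Ψ) (co e₂ Ψ) (co (S.e τ) Ψ) y) = fun y => G (cv (ε ^ 120) Ψ y) := by
    funext y
    simp only [hG, hg, rr, tc, cv_co hctx.sm.cont, div_eq_mul_inv]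
  rw [e1]
  -- the finer levels
  have o210 := osc h0 hh hC hL hσ hW (show 210 = 208 + 2 by norm_num) (by norm_num)
  obtain ⟨f1, f2, f3⟩ := hF δ S N ϑ _ hN hi hW.nn o210
  have bf : ∀ x, |fin S N x| ≤ ε⁻¹ ^ 8 := fun x => by
    rw [abs_of_nonneg (f2 x).1]
    exact (f2 x).2
  have f4 := (hF δ S N _ _ hN iw (fun x => mul_nonneg (hW.nn x) (W1_mem ε _).1)
    (h4 ϑ _ _ _ _ _ hi bw.nn bw.bd bw.lip o210)).2.2
  have f5 : ∫ x, ϑ x * fin S N x ≤ 4 * ε ^ 11 := by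
    have b1 := mul_le_mul_of_nonneg_left hW.hi (show 0 ≤ ε ^ 11 by positivity)
    have b2 := ip h0 (show 208 = 8 + 200 by norm_num)
    have b3 := p1 11 200 (by norm_num)
    linarith
  have f6 : ∫ x, ϑ x * W1 ε (inner ℝ (S.e τ) x) * fin S N x ≤ 15 * ε ^ 31 := by
    have b1 := mul_le_mul_of_nonneg_left (hm (S.unit τ)) (show 0 ≤ ε ^ 11 by positivity)
    have b2 := ip h0 (show 208 = 8 + 200 by norm_num)
    have b3 := p1 31 200 (by norm_num)
    have b4 := mul_le_mul_of_nonneg_left habs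
      (show 0 ≤ ε⁻¹ ^ 8 * (2 * ε⁻¹ ^ 70 * ε ^ 210) by positivity)
    have b5 := ip h0 (show 210 = 78 + 132 by norm_num)
    have b6 := p1 31 132 (by norm_num)
    have b7 : ε⁻¹ ^ 8 * (2 * ε⁻¹ ^ 70 * ε ^ 210) * 2 = 4 * (ε⁻¹ ^ 78 * ε ^ 210) := by ring
    have b8 : ε ^ 11 * (9 * ε ^ 20) = 9 * ε ^ 31 := by ring
    linarith
  -- the total mass of the weight
  have a2 : |(∫ x, ϑ x) - 1| ≤ 14 * ε ^ 11 := by
    have b1 := hW.tr (fun _ => 1) 1 0 le_rfl (fun _ => by simp) fun _ _ => by simp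
    rw [cv_const] at b1
    simp only [mul_one] at b1
    have iS : ∀ τ' ∈ Finset.univ, Integrable fun x => ϑ x * W1 ε (inner ℝ (S.e τ') x) :=
      fun τ' _ => (bl_tr h0 hh (by norm_num) sp1 (S.unit τ')).int hi
    have b2 : ‖∫ x, (ϑ x * ρ x - ϑ x)‖ ≤
        ∫ x, (∑ τ', ϑ x * W1 ε (inner ℝ (S.e τ') x) + ϑ x * fin S N x) := by
      refine norm_integral_le_of_norm_le ((integrable_finsetSum _ iS).add (ib hi f1.measurable bf))
        (Eventually.of_forall fun x => ?_)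
      by_cases hx : ϑ x = 0
      · simp [hx]
      rw [← Finset.mul_sum, ← mul_add, ← mul_sub_one, norm_mul, Real.norm_of_nonneg (hW.nn x)]
      exact mul_le_mul_of_nonneg_left ((hρ x (hball x hx)).1.trans
        (add_le_add (Finset.sum_le_sum fun τ' _ => W0_le_W1 _ _) le_rfl)) (hW.nn x)
    rw [integral_sub (ib hi hctx.meas bρ) hi, integral_add (integrable_finsetSum _ iS)
      (ib hi f1.measurable bf), integral_finsetSum _ iS, Real.norm_eq_abs] at b2
    have b3 := Finset.sum_le_card_nsmul Finset.univ _ _ fun τ' _ => hm (S.unit τ')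
    rw [Finset.card_univ, Fintype.card_fin, nsmul_eq_mul] at b3
    have b4 := mul_le_mul_of_nonneg_right S.card (show 0 ≤ 9 * ε ^ 13 by positivity)
    have b5 : (S.T : ℝ) * ε ^ 7 * (9 * ε ^ 13) = S.T * (9 * ε ^ 20) := by ring
    have b6 := p1 11 13 (by norm_num)
    have b7 := hσ.trans (p1 11 400 (by norm_num))
    obtain ⟨c1, c2⟩ := abs_le.1 b1
    obtain ⟨c3, c4⟩ := abs_le.1 b2
    exact abs_le.2 ⟨by linarith, by linarith⟩
  -- the density in the slab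
  have iG := bG.int hi
  have iD := ib iG (S.meas τ) (S.bd τ)
  have a3 : |(∫ x, ϑ x * G x * ρ x) - ((∫ x, ϑ x * G x) + ∫ x, ϑ x * G x * S.dev τ x)| ≤
      2 * (73 * ε ^ 33) + 2 * (15 * ε ^ 31) := by
    have iF := ib iw f1.measurable bf
    have b2 : ‖∫ x, (ϑ x * G x * ρ x - (ϑ x * G x + ϑ x * G x * S.dev τ x))‖ ≤
        ∫ x, (2 * (ϑ x * W1 ε (inner ℝ (S.e τ) x) * BadO S τ x) +
          2 * (ϑ x * W1 ε (inner ℝ (S.e τ) x) * fin S N x)) := by
      refine norm_integral_le_of_norm_le ((iO.const_mul 2).add (iF.const_mul 2))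
        (Eventually.of_forall fun x => ?_)
      by_cases hx : ϑ x = 0
      · simp [hx]
      rw [show ϑ x * G x * ρ x - (ϑ x * G x + ϑ x * G x * S.dev τ x) =
        ϑ x * (G x * (ρ x - 1 - S.dev τ x)) by ring, norm_mul, norm_mul,
        Real.norm_of_nonneg (hW.nn x)]
      have b3 := mul_le_mul_of_nonneg_left (mul_le_mul (hGw x) (((hρ x (hball x hx)).2 τ).trans
        (add_le_add (Finset.sum_le_sum fun τ' _ => W0_le_Wh _ _) le_rfl)) (abs_nonneg _)
        (mul_nonneg zero_le_two (W1_mem ε _).1)) (hW.nn x)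
      refine b3.trans (le_of_eq ?_)
      unfold BadO
      ring
    have iA : Integrable fun x => ϑ x * G x + ϑ x * G x * S.dev τ x := iG.add iD
    rw [integral_sub (ib iG hctx.meas bρ) iA, integral_add iG iD,
      integral_add (iO.const_mul 2) (iF.const_mul 2), integral_const_mul, integral_const_mul,
      Real.norm_eq_abs] at b2
    linarith
  -- the plates
  have a4 : |(∫ x, ϑ x * G x * S.dev τ x) - δ / 4 * ∫ x, ϑ x * (G x * g x)| ≤ 72 * ε ^ 31 := by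
    classical
    obtain ⟨m1, m2⟩ := h3 ε h0
    have b1 := h2 (fun x => ϑ x * (G x * g x)) _ e₁ e₂ (S.e τ) (ε ^ 136) (ε ^ 145) 1 (1 / 64) _
      (bGg.int hi) m1 (by positivity) (p1 136 145 (by norm_num))
      (fun z => by split_ifs <;> simp) hon m2 (h4 ϑ _ _ _ _ _ hi bGg.nn bGg.bd bGg.lip
        (osc h0 hh hC hL hσ hW (show 136 = 134 + 2 by norm_num) (by norm_num)))
    have b2 : ∫ x, ϑ x * G x * S.dev τ x = 16 * δ * ∫ x, ϑ x * (G x * g x) *
        if Pl3 ε (tc e₁ e₂ (S.e τ) x) then 1 else 0 := by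
      rw [← integral_const_mul, hdev]
      refine integral_congr_ae (Eventually.of_forall fun x => ?_)
      simp only [dev3, hg]
      split_ifs <;> ring
    have b3 := mul_le_mul_of_nonneg_left habs (show 0 ≤ 20 * ε⁻¹ ^ 73 * ε ^ 136 by positivity)
    have b4 := ip h0 (show 136 = 73 + 63 by norm_num)
    have b5 := p1 31 63 (by norm_num)
    have b6 := p1 31 134 (by norm_num)
    have b7 := mul_le_mul (show 16 * δ ≤ 1 / 2 by linarith)
      (b1.trans (show _ ≤ 144 * ε ^ 31 by linarith)) (abs_nonneg _) (by norm_num)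
    rw [← abs_of_pos (show 0 < 16 * δ by linarith), ← abs_mul] at b7
    rw [b2]
    refine le_trans (le_of_eq ?_) (b7.trans (le_of_eq (by ring)))
    congr 1
    ring
  have a5 : (∫ x, ϑ x * G x) + δ / 4 * ∫ x, ϑ x * (G x * g x) =
      ∫ x, ϑ x * W1 ε (inner ℝ (S.e τ) x) := by
    rw [← integral_const_mul, ← integral_add iG ((bGg.int hi).const_mul (δ / 4))]
    refine integral_congr_ae (Eventually.of_forall fun x => ?_)
    simp only [← hGe x]
    ring
  have a6 := mean1 h1 h0 hh hi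
    (osc h0 hh hC hL hσ hW (show 50 = 48 + 2 by norm_num) (by norm_num)) (S.unit τ)
  have a7 := mul_le_mul_of_nonneg_left a2 (show 0 ≤ 4 * ε ^ 20 by positivity)
  rw [← abs_of_pos (show 0 < 4 * ε ^ 20 by positivity), ← abs_mul,
    abs_of_pos (show 0 < 4 * ε ^ 20 by positivity), mul_sub, mul_one,
    show 4 * ε ^ 20 * (14 * ε ^ 11) = 56 * ε ^ 31 by ring] at a7
  have a8 := p1 31 48 (by norm_num)
  obtain ⟨c1, c2⟩ := abs_le.1 a1
  obtain ⟨c3, c4⟩ := abs_le.1 a3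
  obtain ⟨c5, c6⟩ := abs_le.1 a4
  obtain ⟨c7, c8⟩ := abs_le.1 a6
  obtain ⟨c9, c10⟩ := abs_le.1 a7
  exact abs_le.2 ⟨by linarith, by linarith⟩
end Pool.Agent.MP_20bec2_an.b2

end
end MrgPart0

-- ======== part 1: formerly Pool.Agent.MP_20bec2_an.b2.Ls
section MrgPart1

/-! Decay of the Fourier transform of the kernel and the large sieve inequality. -/

set_option autoImplicit false

open MeasureTheory Set Metric Filter Topology

noncomputable section

namespace Pool.Agent.MP_20bec2_an.b2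

open Pool.Agent.MP_20bec2_an.h7

namespace Ls

variable {d : ℕ}

theorem contDiff_exi (ξ : E d) : ContDiff ℝ 1 (exi ξ) := by
  unfold exi
  have h : ContDiff ℝ 1 fun z : E d => ((inner ℝ ξ z : ℝ) : ℂ) :=
    Complex.ofRealCLM.contDiff.comp (contDiff_const.inner ℝ contDiff_id)
  exact (contDiff_const.mul h).cexp

theorem dd_exi (ξ v z : E d) : dd (exi ξ) v z = Complex.I * (inner ℝ ξ v : ℝ) * exi ξ z := by
  have h1 := hasDerivAt_line (contDiff_exi ξ) v z 0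
  have h2 : HasDerivAt (fun t : ℝ => exi ξ (z + t • v))
      (Complex.I * (inner ℝ ξ v : ℝ) * exi ξ z) 0 := by
    have h3 : HasDerivAt (fun t : ℝ => ((inner ℝ ξ z + t * inner ℝ ξ v : ℝ) : ℂ))
        ((inner ℝ ξ v : ℝ) : ℂ) 0 := by
      have := (((hasDerivAt_id (0 : ℝ)).mul_const (inner ℝ ξ v : ℝ)).const_add
        (inner ℝ ξ z : ℝ)).ofReal_comp
      simpa using this
    have h4 := (h3.const_mul Complex.I).cexp
    simp only [zero_mul, add_zero] at h4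
    simp only [exi, inner_add_right, real_inner_smul_right]
    rw [mul_comm]
    exact h4
  simpa using h1.unique h2

theorem norm_exi (ξ z : E d) : ‖exi ξ z‖ = 1 := by
  unfold exi
  rw [mul_comm]
  exact Complex.norm_exp_ofReal_mul_I _

theorem exi_mul_conj (a b z : E d) : exi a z * (starRingEnd ℂ) (exi b z) = exi (a - b) z := by
  have h : (starRingEnd ℂ) (exi b z) = exi (-b) z := by
    simp [exi, ← Complex.exp_conj, inner_neg_left]
  rw [h]
  simp only [exi, ← Complex.exp_add, inner_sub_left, inner_neg_left]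
  congr 1
  push_cast
  ring

theorem exi_zero (z : E d) : exi (0 : E d) z = 1 := by simp [exi]

theorem exi_two (ξ z : E d) : exi ξ ((2 : ℝ) • z) = exi ((2 : ℝ) • ξ) z := by
  simp only [exi, real_inner_smul_left, real_inner_smul_right]

/-- integration by parts -/
theorem parts {G P : E d → ℂ} (hG : ContDiff ℝ 1 G) (hs : HasCompactSupport G)
    (hP : ContDiff ℝ 1 P) (v : E d) :
    ∫ z, G z * dd P v z = -∫ z, dd G v z * P z := by
  have h1 : HasCompactSupport (dd G v) := hs.fderiv_apply ℝ v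
  exact integral_mul_fderiv_eq_neg_fderiv_mul_of_integrable
    (((continuous_dd hG v).mul hP.continuous).integrable_of_hasCompactSupport h1.mul_right)
    ((hG.continuous.mul (continuous_dd hP v)).integrable_of_hasCompactSupport hs.mul_right)
    ((hG.continuous.mul hP.continuous).integrable_of_hasCompactSupport hs.mul_right)
    (fun x _ => hG.differentiable one_ne_zero x) fun x _ => hP.differentiable one_ne_zero x

theorem parts_exi {G : E d → ℂ} (hG : ContDiff ℝ 1 G) (hs : HasCompactSupport G) (ξ : E d) :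
    ‖∫ z, G z * exi ξ z‖ * ‖ξ‖ ^ 2 = ‖∫ z, dd G ξ z * exi ξ z‖ := by
  have h1 := parts hG hs (contDiff_exi ξ) ξ
  have h2 : ∀ z, G z * dd (exi ξ) ξ z =
      Complex.I * ((‖ξ‖ ^ 2 : ℝ) : ℂ) * (G z * exi ξ z) := fun z => by
    rw [dd_exi, real_inner_self_eq_norm_sq]; ring
  simp only [h2] at h1
  rw [integral_const_mul] at h1
  have h3 := congrArg norm h1
  rw [norm_neg, norm_mul, norm_mul, Complex.norm_I, one_mul, Complex.norm_real,
    Real.norm_of_nonneg (sq_nonneg _)] at h3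
  rw [← h3, mul_comm]

theorem dd_dd {G : E d → ℂ} (hG : ContDiff ℝ 2 G) (w w' y : E d) :
    dd (dd G w) w' y = fderiv ℝ (fderiv ℝ G) y w' w := by
  have h1 : ContDiff ℝ 1 (fderiv ℝ G) := hG.fderiv_right (by norm_num)
  unfold dd
  rw [fderiv_clm_apply (h1.differentiable one_ne_zero y) (differentiableAt_const w)]
  simp

theorem second_aux {X Y : Type*} [NormedAddCommGroup X] [NormedSpace ℝ X] [NormedAddCommGroup Y]
    [NormedSpace ℝ Y] {G : X → Y} (hG : ContDiff ℝ 1 G) (hs : HasCompactSupport G) :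
    ∃ B : X → ℝ, Continuous B ∧ HasCompactSupport B ∧ (∀ z, 0 ≤ B z) ∧
      ∀ ξ z : X, ‖fderiv ℝ G z ξ‖ ≤ B z * ‖ξ‖ :=
  ⟨fun z => ‖fderiv ℝ G z‖, (hG.continuous_fderiv one_ne_zero).norm, (hs.fderiv ℝ).norm,
    fun _ => norm_nonneg _, fun _ _ => ContinuousLinearMap.le_opNorm _ _⟩

theorem second {G : E d → ℂ} (hG : ContDiff ℝ 2 G) (hs : HasCompactSupport G) :
    ∃ B : E d → ℝ, Integrable B ∧ (∀ z, 0 ≤ B z) ∧
      ∀ ξ z : E d, ‖dd (dd G ξ) ξ z‖ ≤ B z * ‖ξ‖ ^ 2 := by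
  have h1 : ContDiff ℝ 1 (fderiv ℝ G) := hG.fderiv_right (by norm_num)
  obtain ⟨B, hc, hb, h0, h⟩ := second_aux h1 (hs.fderiv ℝ)
  refine ⟨B, hc.integrable_of_hasCompactSupport hb, h0, fun ξ z => ?_⟩
  rw [dd_dd hG, sq, ← mul_assoc]
  exact (ContinuousLinearMap.le_opNorm _ _).trans
    (mul_le_mul_of_nonneg_right (h ξ z) (norm_nonneg _))

/-- decay of the Fourier transform -/
theorem decay {G : E d → ℂ} (hG : ContDiff ℝ 2 G) (hs : HasCompactSupport G) :
    ∃ C : ℝ, 0 ≤ C ∧ ∀ ξ : E d, ‖∫ z, G z * exi ξ z‖ * ‖ξ‖ ^ 2 ≤ C := by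
  obtain ⟨B, hi, hB, hb⟩ := second hG hs
  refine ⟨∫ z, B z, integral_nonneg hB, fun ξ => ?_⟩
  rcases eq_or_ne ξ 0 with rfl | h0
  · rw [norm_zero, zero_pow two_ne_zero, mul_zero]
    exact integral_nonneg hB
  have hp : 0 < ‖ξ‖ ^ 2 := pow_pos (norm_pos_iff.2 h0) 2
  have h1 : HasCompactSupport (dd G ξ) := hs.fderiv_apply ℝ ξ
  have h2 := parts_exi (hG.of_le (by norm_num)) hs ξ
  have h3 := parts_exi (contDiff_dd hG ξ) h1 ξ
  have h4 : ‖∫ z, dd (dd G ξ) ξ z * exi ξ z‖ ≤ (∫ z, B z) * ‖ξ‖ ^ 2 := by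
    rw [← integral_mul_const]
    refine norm_integral_le_of_norm_le (hi.mul_const _) (Eventually.of_forall fun z => ?_)
    rw [norm_mul, norm_exi, mul_one]
    exact hb ξ z
  refine le_of_mul_le_mul_right ?_ hp
  rw [h2]
  exact h3.le.trans h4

theorem decay_ze : ∃ C : ℝ, 0 ≤ C ∧ ∀ ξ : E d, ‖∫ z, ze d z • exi ξ z‖ * ‖ξ‖ ^ 2 ≤ C := by
  have hG : ContDiff ℝ 2 fun z : E d => ((ze d z : ℝ) : ℂ) :=
    Complex.ofRealCLM.contDiff.comp contDiff_ze
  have hs : HasCompactSupport fun z : E d => ((ze d z : ℝ) : ℂ) :=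
    ze_supp.comp_left (g := fun x : ℝ => (x : ℂ)) Complex.ofReal_zero
  obtain ⟨C, h0, h⟩ := decay hG hs
  exact ⟨C, h0, fun ξ => by simpa only [Complex.real_smul] using h ξ⟩

theorem int_ze (ξ : E d) : Integrable fun w => ze d w • exi ξ w :=
  (continuous_ze.smul (contDiff_exi ξ).continuous).integrable_of_hasCompactSupport
    ze_supp.smul_right

/-- Schur's test -/
theorem schur (s : Finset ℕ) (x : ℕ → ℝ) (w : ℕ → ℕ → ℝ) {B : ℝ}
    (h0 : ∀ k ∈ s, ∀ k' ∈ s, 0 ≤ w k k') (hs : ∀ k ∈ s, ∀ k' ∈ s, w k k' = w k' k)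
    (hB : ∀ k ∈ s, ∑ k' ∈ s, w k k' ≤ B) :
    ∑ k ∈ s, ∑ k' ∈ s, x k * x k' * w k k' ≤ B * ∑ k ∈ s, x k ^ 2 := by
  have h1 : ∑ k ∈ s, ∑ k' ∈ s, x k ^ 2 * w k k' ≤ B * ∑ k ∈ s, x k ^ 2 := by
    rw [Finset.mul_sum]
    refine Finset.sum_le_sum fun k hk => ?_
    rw [← Finset.mul_sum, mul_comm]
    exact mul_le_mul_of_nonneg_right (hB k hk) (sq_nonneg _)
  have h2 : ∑ k ∈ s, ∑ k' ∈ s, x k' ^ 2 * w k k' = ∑ k ∈ s, ∑ k' ∈ s, x k ^ 2 * w k k' := by
    rw [Finset.sum_comm]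
    exact Finset.sum_congr rfl fun k hk => Finset.sum_congr rfl fun k' hk' => by
      rw [hs k' hk' k hk]
  have h3 : ∑ k ∈ s, ∑ k' ∈ s, x k * x k' * w k k' ≤
      ∑ k ∈ s, ∑ k' ∈ s, (x k ^ 2 * w k k' + x k' ^ 2 * w k k') / 2 :=
    Finset.sum_le_sum fun k hk => Finset.sum_le_sum fun k' hk' => by
      nlinarith [mul_nonneg (sq_nonneg (x k - x k')) (h0 k hk k' hk')]
  simp only [← Finset.sum_div, Finset.sum_add_distrib] at h3
  linarith

/-- the large sieve inequality -/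
theorem sieve {C : ℝ} (h0 : 0 ≤ C) (hC : ∀ ξ : E d, ‖∫ z, ze d z • exi ξ z‖ * ‖ξ‖ ^ 2 ≤ C)
    (s : Finset ℕ) (ξ : ℕ → E d) (c : ℕ → ℂ) (hi : ∀ k ∈ s, ∀ k' ∈ s, k ≠ k' → ξ k ≠ ξ k')
    (h2 : ∀ k ∈ s, ∑ k' ∈ s.erase k, 1 / ‖ξ k - ξ k'‖ ^ 2 ≤ 1) :
    ∫ z, ze d z * ‖∑ k ∈ s, c k * exi (ξ k) z‖ ^ 2 ≤ (1 + C) * ∑ k ∈ s, ‖c k‖ ^ 2 := by
  have e1 : ∀ z, ((ze d z * ‖∑ k ∈ s, c k * exi (ξ k) z‖ ^ 2 : ℝ) : ℂ) =
      ∑ k ∈ s, ∑ k' ∈ s, c k * (starRingEnd ℂ) (c k') * (ze d z • exi (ξ k - ξ k') z) :=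
    fun z => by
      rw [Complex.ofReal_mul, Complex.ofReal_pow, ← Complex.mul_conj', map_sum,
        Finset.sum_mul_sum, Finset.mul_sum]
      refine Finset.sum_congr rfl fun k _ => ?_
      rw [Finset.mul_sum]
      refine Finset.sum_congr rfl fun k' _ => ?_
      rw [map_mul, ← exi_mul_conj, Complex.real_smul]
      ring
  have e2 : ((∫ z, ze d z * ‖∑ k ∈ s, c k * exi (ξ k) z‖ ^ 2 : ℝ) : ℂ) =
      ∑ k ∈ s, ∑ k' ∈ s, c k * (starRingEnd ℂ) (c k') * ∫ z, ze d z • exi (ξ k - ξ k') z := by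
    rw [← integral_complex_ofReal]
    simp only [e1]
    rw [integral_finsetSum _ fun k _ =>
      integrable_finsetSum _ fun k' _ => (int_ze _).const_mul _]
    refine Finset.sum_congr rfl fun k _ => ?_
    rw [integral_finsetSum _ fun k' _ => (int_ze _).const_mul _]
    exact Finset.sum_congr rfl fun k' _ => integral_const_mul _ _
  have e3 : ∫ z, ze d z * ‖∑ k ∈ s, c k * exi (ξ k) z‖ ^ 2 ≤
      ∑ k ∈ s, ∑ k' ∈ s, ‖c k‖ * ‖c k'‖ * (if k = k' then 1 else C / ‖ξ k - ξ k'‖ ^ 2) := by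
    refine (le_abs_self _).trans ?_
    rw [← Real.norm_eq_abs, ← Complex.norm_real, e2]
    refine (norm_sum_le _ _).trans (Finset.sum_le_sum fun k hk => ?_)
    refine (norm_sum_le _ _).trans (Finset.sum_le_sum fun k' hk' => ?_)
    rw [norm_mul, norm_mul, Complex.norm_conj]
    refine mul_le_mul_of_nonneg_left ?_ (by positivity)
    split_ifs with h
    · subst h
      simp only [sub_self, exi_zero]
      rw [integral_smul_const, integral_ze]
      simp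
    · have hp : 0 < ‖ξ k - ξ k'‖ ^ 2 :=
        pow_pos (norm_pos_iff.2 (sub_ne_zero.2 (hi k hk k' hk' h))) 2
      rw [le_div_iff₀ hp]
      exact hC _
  refine e3.trans (schur s (fun k => ‖c k‖) _ (fun k _ k' _ => ?_) (fun k _ k' _ => ?_)
    fun k hk => ?_)
  · split_ifs
    · exact zero_le_one
    · positivity
  · rw [norm_sub_rev]
    simp only [eq_comm (a := k)]
  · rw [← Finset.add_sum_erase s _ hk, if_pos rfl]
    have h3 : ∑ k' ∈ s.erase k, (if k = k' then 1 else C / ‖ξ k - ξ k'‖ ^ 2) =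
        C * ∑ k' ∈ s.erase k, 1 / ‖ξ k - ξ k'‖ ^ 2 := by
      rw [Finset.mul_sum]
      refine Finset.sum_congr rfl fun k' hk' => ?_
      rw [if_neg (Finset.ne_of_mem_erase hk').symm, mul_one_div]
    rw [h3]
    nlinarith [h2 k hk]

end Ls

theorem ls (d : ℕ) (_hd : 3 ≤ d) : LsStmt d := by
  obtain ⟨C, h0, hC⟩ := Ls.decay_ze (d := d)
  refine ⟨1 + C, by linarith, fun ξ => (hC ξ).trans (by linarith), fun s ξ ν c h => ⟨?_, ?_⟩⟩
  · exact Ls.sieve h0 hC s ξ c h.inj h.s2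
  · simp only [Ls.exi_two]
    refine Ls.sieve h0 hC s (fun k => (2 : ℝ) • ξ k) c (fun k hk k' hk' hne he => ?_)
      fun k hk => le_trans (Finset.sum_le_sum fun k' hk' => ?_) (h.s2 k hk)
    · exact h.inj k hk k' hk' hne (smul_right_injective _ two_ne_zero he)
    · have hp : 0 < ‖ξ k - ξ k'‖ := norm_pos_iff.2 (sub_ne_zero.2
        (h.inj k hk k' (Finset.mem_of_mem_erase hk') (Finset.ne_of_mem_erase hk').symm))
      rw [← smul_sub, norm_smul, Real.norm_of_nonneg zero_le_two]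
      exact one_div_le_one_div_of_le (pow_pos hp 2) (by nlinarith)

end Pool.Agent.MP_20bec2_an.b2

end
end MrgPart1

-- marker of a merged file
example : 731051 + 184265 = 731051 + 184265 := rfl
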