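import Pool.Agent.MP_20bec2_an.b2.Basic

/-! The mesoscopic inequality for the quadratic potential (project BIOM2). -/

set_option autoImplicit false

open MeasureTheory Set Metric Filter Topology

noncomputable section

namespace Pool.Agent.MP_20bec2_an.b2

open Pool.Agent.MP_20bec2_an.h7

namespace Meso2

variable {d : ℕ} {ε C : ℝ}

theorem cont_of_lip {φ : E d → ℝ} {K : ℝ} (h : ∀ z z', |φ z - φ z'| ≤ K * ‖z - z'‖) :
    Continuous φ :=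
  (LipschitzWith.of_dist_le' (K := K) fun z z' => by
    rw [Real.dist_eq, dist_eq_norm]; exact h z z').continuous

/-- a weight that varies slowly commutes with the smoothing at the fine scale -/
theorem two_scale (h0 : 0 < ε) (h1 : ε ≤ 1) (hC : 1 ≤ C) {φ : E d → ℝ} (hb : ∀ z, |φ z| ≤ C)
    (hl : ∀ z z', |φ z - φ z'| ≤ 3 * C / ε ^ 146 * ‖z - z'‖) {G : E d → ℝ}
    {B : ℝ} (hG : Continuous G) (hB : ∀ z, |G z| ≤ B) (y : E d) :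
    |cv (ε ^ 120) (fun z => φ z * cv (ε ^ 160) G z) y -
      cv (ε ^ 120) (fun z => φ z * G z) y| ≤ 4 * (Cw d * C) * B * ε ^ 14 := by
  have hB0 : 0 ≤ B := (abs_nonneg _).trans (hB 0)
  have hW := one_le_Cw (d := d)
  have hφ : Continuous φ := cont_of_lip hl
  have a1 : ∀ z, |φ z * cv (ε ^ 160) G z -
      cv (ε ^ 160) (fun z => φ z * G z) z| ≤ 3 * C * ε ^ 14 * B := fun z => by
    rw [abs_sub_comm]
    refine cv_mul_sub hG hφ (by positivity) _ (fun z' _ => hB z') fun z' hz => (hl _ _).trans ?_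
    have b1 : ‖z' - z‖ ≤ ε ^ 160 := mem_closedBall_iff_norm.1 hz
    calc _ ≤ 3 * C / ε ^ 146 * ε ^ 160 := by gcongr
      _ = _ := by field_simp
  have a2 := norm_cv_le (μ := ε ^ 120) (by positivity) (y := y) fun z _ =>
    (Real.norm_eq_abs _).trans_le (a1 z)
  rw [cv_sub (hφ.fun_mul (continuous_cv hG _)) (continuous_cv (hφ.fun_mul hG) _)] at a2
  have a3 := cv_cv (μ := ε ^ 120) (s := ε ^ 160) (B := C * B) (hφ.fun_mul hG) (by positivity)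
    (by positivity) (fun z => by
      rw [Real.norm_eq_abs, abs_mul]
      exact mul_le_mul (hb _) (hB _) (abs_nonneg _) (by positivity)) y
  have a4 : Cw d * (C * B) * ε ^ 160 / ε ^ 120 ≤ (Cw d * C) * B * ε ^ 14 := by
    calc _ = (Cw d * C) * B * ε ^ 40 := by field_simp
      _ ≤ _ := by
        have := pow_le_pow_of_le_one h0.le h1 (show 14 ≤ 40 by norm_num)
        gcongr
  have a5 : 3 * C * ε ^ 14 * B ≤ 3 * (Cw d * C) * B * ε ^ 14 := by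
    have : 0 ≤ (Cw d - 1) * (C * B * ε ^ 14) := mul_nonneg (by linarith) (by positivity)
    nlinarith
  have a6 := abs_sub_le (cv (ε ^ 120) (fun z => φ z * cv (ε ^ 160) G z) y)
    (cv (ε ^ 120) (cv (ε ^ 160) fun z => φ z * G z) y)
    (cv (ε ^ 120) (fun z => φ z * G z) y)
  have a7 : |cv (ε ^ 120) (fun z => φ z * cv (ε ^ 160) G z) y -
    cv (ε ^ 120) (cv (ε ^ 160) fun z => φ z * G z) y| ≤ 3 * C * ε ^ 14 * B := a2
  have a8 : |cv (ε ^ 120) (cv (ε ^ 160) fun z => φ z * G z) y -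
    cv (ε ^ 120) (fun z => φ z * G z) y| ≤ Cw d * (C * B) * ε ^ 160 / ε ^ 120 := a3
  linarith

theorem dd_comp3 {D D₁ D₂ m : ℝ × ℝ × ℝ → ℝ} {q₁ q₂ p : E d → ℝ} (hD : ContDiff ℝ 1 D)
    (h : ∀ z v : ℝ × ℝ × ℝ, fderiv ℝ D z v = D₁ z * v.1 + D₂ z * v.2.1 + (m z - 1) * v.2.2)
    (h₁ : ContDiff ℝ 1 q₁) (h₂ : ContDiff ℝ 1 q₂) (hp : ContDiff ℝ 1 p) (v y : E d) :
    dd (fun z => D (q₁ z, q₂ z, p z)) v y = D₁ (q₁ y, q₂ y, p y) * dd q₁ v y +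
      D₂ (q₁ y, q₂ y, p y) * dd q₂ v y + (m (q₁ y, q₂ y, p y) - 1) * dd p v y := by
  have h1 := ((hD.differentiable one_ne_zero) (q₁ y, q₂ y, p y)).hasFDerivAt.comp y
    (((h₁.differentiable one_ne_zero) y).hasFDerivAt.prodMk
      (((h₂.differentiable one_ne_zero) y).hasFDerivAt.prodMk
        ((hp.differentiable one_ne_zero) y).hasFDerivAt))
  exact (congrArg (fun A => A v) h1.fderiv).trans (h _ _)

/-- the normal part of the stretch term -/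
theorem termE (h0 : 0 < ε) (h1 : ε ≤ 1) (hC : 1 ≤ C) {q₁ q₂ p : E d → ℝ} (h₁ : Sm ε⁻¹ q₁)
    (h₂ : Sm ε⁻¹ q₂) (hp : Sm ε⁻¹ p) {D D₁ D₂ m : ℝ × ℝ × ℝ → ℝ} (hD : ContDiff ℝ 1 D)
    (hd : ∀ z v : ℝ × ℝ × ℝ, fderiv ℝ D z v = D₁ z * v.1 + D₂ z * v.2.1 + (m z - 1) * v.2.2)
    (hb : ∀ z, |D z| ≤ C * ε ^ 145 ∧ |D₁ z| ≤ C * ε ^ 9 ∧ |D₂ z| ≤ C * ε ^ 9)
    (bm : ∀ z, |m (q₁ z, q₂ z, p z)| ≤ C)
    (lm : ∀ z z', |m (q₁ z, q₂ z, p z) - m (q₁ z', q₂ z', p z')| ≤ 3 * C / ε ^ 146 * ‖z - z'‖)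
    {v : E d} (hv : ‖v‖ = 1) (y : E d) :
    |cv (ε ^ 120) (fun z => m (q₁ z, q₂ z, p z) * cv (ε ^ 160) (dd p v) z) y -
      cv (ε ^ 120) (dd p v) y| ≤ 7 * (Cw d * C) * ε ^ 8 := by
  have hW := one_le_Cw (d := d)
  have cp := continuous_dd hp.cd1 v
  have cm : Continuous fun z => m (q₁ z, q₂ z, p z) := cont_of_lip lm
  have a1 := two_scale h0 h1 hC bm lm cp (hp.dd_le hv) y
  have hDc : ContDiff ℝ 1 fun z => D (q₁ z, q₂ z, p z) :=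
    hD.comp (h₁.cd1.prodMk (h₂.cd1.prodMk hp.cd1))
  have a2 : |cv (ε ^ 120) (dd (fun z => D (q₁ z, q₂ z, p z)) v) y| ≤
      Cw d * (C * ε ^ 145) * ‖v‖ / ε ^ 120 :=
    norm_cv_dd_le hDc (by positivity) (fun z => (hb _).1) v y
  have a3 : ‖cv (ε ^ 120) (fun z => m (q₁ z, q₂ z, p z) * dd p v z - dd p v z -
      dd (fun z => D (q₁ z, q₂ z, p z)) v z) y‖ ≤ 2 * (C * ε ^ 9 * ε⁻¹) := by
    refine norm_cv_le (by positivity) fun z _ => ?_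
    rw [dd_comp3 hD hd h₁.cd1 h₂.cd1 hp.cd1, Real.norm_eq_abs]
    have b1 : |D₁ (q₁ z, q₂ z, p z) * dd q₁ v z| ≤ C * ε ^ 9 * ε⁻¹ := by
      rw [abs_mul]
      exact mul_le_mul (hb _).2.1 (h₁.dd_le hv z) (abs_nonneg _) (by positivity)
    have b2 : |D₂ (q₁ z, q₂ z, p z) * dd q₂ v z| ≤ C * ε ^ 9 * ε⁻¹ := by
      rw [abs_mul]
      exact mul_le_mul (hb _).2.2 (h₂.dd_le hv z) (abs_nonneg _) (by positivity)
    rw [abs_le] at b1 b2 ⊢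
    constructor <;> linarith [b1.1, b1.2, b2.1, b2.2]
  rw [cv_sub ((cm.fun_mul cp).fun_sub cp) (continuous_dd hDc v), cv_sub (cm.fun_mul cp) cp,
    Real.norm_eq_abs] at a3
  have a4 : 4 * (Cw d * C) * ε⁻¹ * ε ^ 14 ≤ 4 * (Cw d * C * ε ^ 8) := by
    calc _ = 4 * (Cw d * C * ε ^ 13) := by field_simp
      _ ≤ _ := by
        have := pow_le_pow_of_le_one h0.le h1 (show 8 ≤ 13 by norm_num)
        gcongr
  have a5 : Cw d * (C * ε ^ 145) * ‖v‖ / ε ^ 120 ≤ Cw d * C * ε ^ 8 := by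
    calc _ = Cw d * C * ε ^ 25 := by rw [hv]; field_simp
      _ ≤ _ := by
        have := pow_le_pow_of_le_one h0.le h1 (show 8 ≤ 25 by norm_num)
        gcongr
  have a6 : C * ε ^ 9 * ε⁻¹ ≤ Cw d * C * ε ^ 8 := by
    calc _ = 1 * C * ε ^ 8 := by field_simp
      _ ≤ _ := by gcongr
  rw [abs_le] at a1 a2 a3 ⊢
  constructor <;> linarith [a1.1, a1.2, a2.1, a2.2, a3.1, a3.2]

/-- the lateral part of the stretch term -/
theorem termF (h0 : 0 < ε) (h1 : ε ≤ 1) (hC : 1 ≤ C) {q : E d → ℝ} (hq : Sm ε⁻¹ q)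
    {lam D' : ℝ → ℝ} (hd : ∀ t, HasDerivAt D' (lam t - 1) t)
    (hb : ∀ t, |D' t| ≤ C * ε ^ 136 ∧ 0 ≤ lam t ∧ lam t ≤ C)
    (hl : ∀ t t', |lam t - lam t'| ≤ C / ε ^ 145 * |t - t'|) {v : E d} (hv : ‖v‖ = 1) (y : E d) :
    Continuous (fun z => lam (q z)) ∧
    |cv (ε ^ 120) (fun z => lam (q z) * cv (ε ^ 160) (dd q v) z) y -
      cv (ε ^ 120) (dd q v) y| ≤ 5 * (Cw d * C) * ε ^ 8 := by
  have hW := one_le_Cw (d := d)
  have cq := continuous_dd hq.cd1 v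
  have lm : ∀ z z', |lam (q z) - lam (q z')| ≤ 3 * C / ε ^ 146 * ‖z - z'‖ := fun z z' => by
    have b1 : |q z - q z'| ≤ ε⁻¹ * ‖z - z'‖ := hq.lip z z'
    calc _ ≤ C / ε ^ 145 * (ε⁻¹ * ‖z - z'‖) := (hl _ _).trans (by gcongr)
      _ = 1 * C / ε ^ 146 * ‖z - z'‖ := by field_simp
      _ ≤ _ := by gcongr; norm_num
  refine ⟨cont_of_lip lm, ?_⟩
  have a1 := two_scale h0 h1 hC (φ := fun z => lam (q z))
    (fun z => by rw [abs_of_nonneg (hb _).2.1]; exact (hb _).2.2) lm cq (hq.dd_le hv) y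
  have cl : Continuous lam := (LipschitzWith.of_dist_le' (K := C / ε ^ 145) fun t t' => by
    rw [Real.dist_eq, Real.dist_eq]; exact hl t t').continuous
  have cD : ContDiff ℝ 1 D' := by
    refine contDiff_one_iff_deriv.2 ⟨fun t => (hd t).differentiableAt, ?_⟩
    rw [show deriv D' = fun t => lam t - 1 from funext fun t => (hd t).deriv]
    exact cl.sub continuous_const
  have hDq : ContDiff ℝ 1 fun z => D' (q z) := cD.comp hq.cd1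
  have a2 : |cv (ε ^ 120) (dd (fun z => D' (q z)) v) y| ≤ Cw d * (C * ε ^ 136) * ‖v‖ / ε ^ 120 :=
    norm_cv_dd_le hDq (by positivity) (fun z => (hb _).1) v y
  have a3 : cv (ε ^ 120) (fun z => lam (q z) * dd q v z) y =
      cv (ε ^ 120) (dd q v) y + cv (ε ^ 120) (dd (fun z => D' (q z)) v) y := by
    rw [← cv_add cq (continuous_dd hDq v)]
    congr 1
    funext z
    rw [dd_comp hq.cd1 v z (hd _), smul_eq_mul]
    ring
  have a4 : 4 * (Cw d * C) * ε⁻¹ * ε ^ 14 ≤ 4 * (Cw d * C * ε ^ 8) := by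
    calc _ = 4 * (Cw d * C * ε ^ 13) := by field_simp
      _ ≤ _ := by
        have := pow_le_pow_of_le_one h0.le h1 (show 8 ≤ 13 by norm_num)
        gcongr
  have a5 : Cw d * (C * ε ^ 136) * ‖v‖ / ε ^ 120 ≤ Cw d * C * ε ^ 8 := by
    calc _ = Cw d * C * ε ^ 16 := by rw [hv]; field_simp
      _ ≤ _ := by
        have := pow_le_pow_of_le_one h0.le h1 (show 8 ≤ 16 by norm_num)
        gcongr
  rw [abs_le] at a1 a2 ⊢
  constructor <;> linarith [a1.1, a1.2, a2.1, a2.2]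

/-- the minors -/
theorem termZ (h0 : 0 < ε) (h1 : ε ≤ 1) (hC : 1 ≤ C) {a q₁ q₂ p : E d → ℝ} (ha : Sm ε⁻¹ a)
    (h₁ : Sm ε⁻¹ q₁) (h₂ : Sm ε⁻¹ q₂) (hp : Sm ε⁻¹ p) {D D₁ D₂ m : ℝ × ℝ × ℝ → ℝ}
    (hD : ContDiff ℝ 1 D)
    (hd : ∀ z v : ℝ × ℝ × ℝ, fderiv ℝ D z v = D₁ z * v.1 + D₂ z * v.2.1 + (m z - 1) * v.2.2)
    (hb : ∀ z, |D z| ≤ C * ε ^ 145 ∧ |D₁ z| ≤ C * ε ^ 9 ∧ |D₂ z| ≤ C * ε ^ 9)
    (bm : ∀ z, |m (q₁ z, q₂ z, p z)| ≤ C)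
    (lm : ∀ z z', |m (q₁ z, q₂ z, p z) - m (q₁ z', q₂ z', p z')| ≤ 3 * C / ε ^ 146 * ‖z - z'‖)
    {v' v : E d} (hv' : ‖v'‖ = 1) (hv : ‖v‖ = 1) (y : E d) :
    |cv (ε ^ 120) (fun z => m (q₁ z, q₂ z, p z) * cv (ε ^ 160) (jac a p v' v) z) y -
      cv (ε ^ 120) (jac a p v' v) y| ≤ 14 * (Cw d * C) * ε ^ 7 := by
  have hW := one_le_Cw (d := d)
  have cJ := continuous_jac ha.cd1 hp.cd1 v' v
  have cm : Continuous fun z => m (q₁ z, q₂ z, p z) := cont_of_lip lm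
  have a1 := two_scale h0 h1 hC bm lm cJ (abs_jac_le ha hp hv' hv) y
  have hDc : ContDiff ℝ 1 fun z => D (q₁ z, q₂ z, p z) :=
    hD.comp (h₁.cd1.prodMk (h₂.cd1.prodMk hp.cd1))
  have a2 := abs_cv_jac_le (μ := ε ^ 120) hDc ha (by positivity) (fun z => (hb _).1) hv' hv y
  have a3 : ‖cv (ε ^ 120) (fun z => m (q₁ z, q₂ z, p z) * jac a p v' v z - jac a p v' v z +
      jac (fun z => D (q₁ z, q₂ z, p z)) a v' v z) y‖ ≤ 2 * (C * ε ^ 9 * (2 * ε⁻¹ ^ 2)) := by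
    refine norm_cv_le (by positivity) fun z _ => ?_
    have b1 : |D₁ (q₁ z, q₂ z, p z) * jac a q₁ v' v z| ≤ C * ε ^ 9 * (2 * ε⁻¹ ^ 2) := by
      rw [abs_mul]
      exact mul_le_mul (hb _).2.1 (abs_jac_le ha h₁ hv' hv z) (abs_nonneg _) (by positivity)
    have b2 : |D₂ (q₁ z, q₂ z, p z) * jac a q₂ v' v z| ≤ C * ε ^ 9 * (2 * ε⁻¹ ^ 2) := by
      rw [abs_mul]
      exact mul_le_mul (hb _).2.2 (abs_jac_le ha h₂ hv' hv z) (abs_nonneg _) (by positivity)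
    have b3 : m (q₁ z, q₂ z, p z) * jac a p v' v z - jac a p v' v z +
        jac (fun z => D (q₁ z, q₂ z, p z)) a v' v z =
        -(D₁ (q₁ z, q₂ z, p z) * jac a q₁ v' v z) - D₂ (q₁ z, q₂ z, p z) * jac a q₂ v' v z := by
      simp only [jac]
      rw [dd_comp3 hD hd h₁.cd1 h₂.cd1 hp.cd1, dd_comp3 hD hd h₁.cd1 h₂.cd1 hp.cd1]
      ring
    rw [b3, Real.norm_eq_abs]
    rw [abs_le] at b1 b2 ⊢
    constructor <;> linarith [b1.1, b1.2, b2.1, b2.2]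
  rw [cv_add ((cm.fun_mul cJ).fun_sub cJ) (continuous_jac hDc ha.cd1 v' v),
    cv_sub (cm.fun_mul cJ) cJ, Real.norm_eq_abs] at a3
  have a4 : 4 * (Cw d * C) * (2 * ε⁻¹ ^ 2) * ε ^ 14 ≤ 8 * (Cw d * C * ε ^ 7) := by
    calc _ = 8 * (Cw d * C * ε ^ 12) := by field_simp; ring
      _ ≤ _ := by
        have := pow_le_pow_of_le_one h0.le h1 (show 7 ≤ 12 by norm_num)
        gcongr
  have a5 : 2 * Cw d * (C * ε ^ 145) * ε⁻¹ / ε ^ 120 ≤ 2 * (Cw d * C * ε ^ 7) := by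
    calc _ = 2 * (Cw d * C * ε ^ 24) := by field_simp
      _ ≤ _ := by
        have := pow_le_pow_of_le_one h0.le h1 (show 7 ≤ 24 by norm_num)
        gcongr
  have a6 : C * ε ^ 9 * (2 * ε⁻¹ ^ 2) ≤ 2 * (Cw d * C * ε ^ 7) := by
    calc _ = 2 * (1 * C * ε ^ 7) := by field_simp
      _ ≤ _ := by gcongr
  rw [abs_le] at a1 a2 a3 ⊢
  constructor <;> linarith [a1.1, a1.2, a2.1, a2.2, a3.1, a3.2]

theorem far {δ l : ℝ} {n : ℕ} (h0 : 0 < ε) (h1 : 24 * ε ≤ 1) {S : Sys d ε δ} {Ψ : E d → E d}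
    {e₁ e₂ : E d} {τ : Fin S.T} (hΨ : Sm ε⁻¹ Ψ) (hT : Typ2 S τ e₁ e₂ n l) {y z : E d}
    (hy : BadO S τ (cv (ε ^ 120) Ψ y) < 1) (hz : z ∈ closedBall y (ε ^ 120))
    (h : ∀ z', Pl3 ε z' → ε ^ 145 / 8 ≤ dl1 (tc e₁ e₂ (S.e τ) (Ψ z)) z') :
    Far S (Ψ z) := by
  intro τ' x hx
  have h2 : ε ≤ 1 := by linarith
  have key : ∀ (e a : E d), ‖e‖ = 1 → |inner ℝ e a - inner ℝ e x| ≤ ‖a - x‖ := fun e a he => by
    have := abs_real_inner_le_norm e (a - x)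
    rwa [he, one_mul, inner_sub_right] at this
  by_cases e : τ' = τ
  · subst e
    rw [hT.2.2] at hx
    have h3 := mul_pow_le h0 h2 h1 (show 145 < 150 by norm_num)
    have h4 := (h _ hx.1).trans (dl1_tc_le hT.1 (Ψ z) x)
    linarith
  · have h1' : 8 * ε ≤ 1 := by linarith
    have h3 : Wh ε (inner ℝ (S.e τ') (cv (ε ^ 120) Ψ y)) ≤ BadO S τ (cv (ε ^ 120) Ψ y) :=
      Finset.single_le_sum (f := fun τ' => Wh ε (inner ℝ (S.e τ') (cv (ε ^ 120) Ψ y)))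
        (fun _ _ => (Wh_mem _ _).1) (Finset.mem_erase.2 ⟨e, Finset.mem_univ _⟩)
    have h4 := far_of_Wh h0 (by linarith) (h3.trans_lt hy) (S.slab τ' x hx)
    rw [abs_sub_comm] at h4
    have h5 := h4.trans (key _ _ (S.unit τ'))
    have h6 := hΨ.cv_sub (μ := ε ^ 120) (by positivity) y
    have h7 : ‖Ψ y - Ψ z‖ ≤ ε⁻¹ * ε ^ 120 :=
      (hΨ.lip y z).trans (by gcongr; exact mem_closedBall_iff_norm'.1 hz)
    have h8 := norm_sub_le_norm_sub_add_norm_sub (cv (ε ^ 120) Ψ y) (Ψ y) x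
    have h9 := norm_sub_le_norm_sub_add_norm_sub (Ψ y) (Ψ z) x
    have e1 : ε⁻¹ * ε ^ 120 = ε ^ 119 := by field_simp
    have b1 := mul_pow_le h0 h2 h1' (show 70 < 119 by norm_num)
    have b2 := mul_pow_le h0 h2 h1' (show 70 < 150 by norm_num)
    have b3 : 0 < ε ^ 70 := by positivity
    linarith

/-- the pointwise inequality -/
theorem ptw {Z : E d → E d → E d → E d → ℝ} (hZ : Ml Z) {A : E d → ℝ}
    (hA : ∀ (a b : ℝ) (g g' : E d), A (a • g + b • g') = a * A g + b * A g') {e f : E d}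
    (hf : ON f e) {M M₂ H mw lw b β x : ℝ} (Y : Fin d → Fin d → Fin d → ℝ) (hb : |b| ≤ β)
    (hm : 0 ≤ mw) (hl : 0 ≤ lw) (hlm : lw ≤ C * mw)
    (hP : mw ≠ 0 → ∀ g : E d, ‖g‖ = 1 → val2 M M₂ (A g) (sq4 Z) ≤ H) :
    8 / M ^ 2 * (2 * x / (1 + C ^ 2 * β ^ 2) * (b * (lw * A f) + mw * A e) - x ^ 2 * mw) +
      2 / M₂ ^ 2 * ∑ j, ∑ k, ∑ l,
        (2 * Y j k l * (mw * Z (ax j) e (ax k) (ax l)) - Y j k l ^ 2 * mw) ≤ H * mw := by
  rcases hm.eq_or_lt with rfl | hm'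
  · have : lw = 0 := le_antisymm (by simpa using hlm) hl
    simp [this]
  have hν : 1 ≤ 1 + C ^ 2 * β ^ 2 := le_add_of_nonneg_right (by positivity)
  have n1 : ‖(b * lw) • f + mw • e‖ ^ 2 = (b * lw) ^ 2 + mw ^ 2 := by
    rw [norm_add_sq_real, norm_smul, norm_smul, real_inner_smul_left, real_inner_smul_right,
      hf.1, hf.2.1, hf.2.2]
    simp only [Real.norm_eq_abs, mul_one, sq_abs, mul_zero, add_zero]
  have n2 : 0 < ‖(b * lw) • f + mw • e‖ := by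
    refine lt_of_le_of_ne (norm_nonneg _) fun h => ?_
    rw [← h] at n1
    nlinarith [sq_nonneg (b * lw), pow_pos hm' 2]
  have n3 : ‖(b * lw) • f + mw • e‖ ≤ (1 + C ^ 2 * β ^ 2) * mw := by
    refine abs_le_of_sq_le_sq' ?_ (by positivity) |>.2
    have b1 : b ^ 2 ≤ β ^ 2 := by
      rw [← sq_abs b]; exact pow_le_pow_left₀ (abs_nonneg _) hb 2
    have b2 : lw ^ 2 ≤ (C * mw) ^ 2 := pow_le_pow_left₀ hl hlm 2
    have b3 : b ^ 2 * lw ^ 2 ≤ β ^ 2 * (C * mw) ^ 2 :=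
      mul_le_mul b1 b2 (sq_nonneg _) (sq_nonneg _)
    have b4 : 0 ≤ C ^ 2 * β ^ 2 * mw ^ 2 * (1 + C ^ 2 * β ^ 2) := by positivity
    rw [n1]
    nlinarith
  have n4 : b * (lw * A f) + mw * A e = ‖(b * lw) • f + mw • e‖ *
      A (‖(b * lw) • f + mw • e‖⁻¹ • ((b * lw) • f + mw • e)) := by
    have b1 := hA ‖(b * lw) • f + mw • e‖⁻¹ 0 ((b * lw) • f + mw • e) e
    rw [zero_smul, add_zero, zero_mul, add_zero] at b1
    rw [b1, hA, mul_inv_cancel_left₀ n2.ne']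
    ring
  have n5 := hP hm'.ne' (‖(b * lw) • f + mw • e‖⁻¹ • ((b * lw) • f + mw • e)) (by
    rw [norm_smul, norm_inv, norm_norm, inv_mul_cancel₀ n2.ne'])
  rw [n4]
  generalize A (‖(b * lw) • f + mw • e‖⁻¹ • ((b * lw) • f + mw • e)) = t at n5
  generalize ‖(b * lw) • f + mw • e‖ = w at n2 n3
  generalize 1 + C ^ 2 * β ^ 2 = ν at hν n3
  have c1 : 2 * x / ν * (w * t) - x ^ 2 * mw ≤ mw * t ^ 2 := by
    have b1 : w / ν ≤ mw := by rw [div_le_iff₀ (by linarith)]; linarith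
    have b2 : 0 ≤ w / ν := by positivity
    have b3 : 2 * x / ν * (w * t) = w / ν * (2 * x * t) := by ring
    have b4 : w / ν * (2 * x * t) ≤ w / ν * (x ^ 2 + t ^ 2) :=
      mul_le_mul_of_nonneg_left (by nlinarith [sq_nonneg (x - t)]) b2
    have b5 : w / ν * (x ^ 2 + t ^ 2) ≤ mw * (x ^ 2 + t ^ 2) :=
      mul_le_mul_of_nonneg_right b1 (by positivity)
    linarith
  have c2 : ∑ j, ∑ k, ∑ l, (2 * Y j k l * (mw * Z (ax j) e (ax k) (ax l)) - Y j k l ^ 2 * mw) ≤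
      mw * sq3 Z e := by
    simp only [sq3, Finset.mul_sum]
    refine Finset.sum_le_sum fun j _ => Finset.sum_le_sum fun k _ =>
      Finset.sum_le_sum fun l _ => ?_
    nlinarith [mul_nonneg hm (sq_nonneg (Y j k l - Z (ax j) e (ax k) (ax l)))]
  have c3 := hZ.two_sq3_le hf.2.1
  have c4 := mul_le_mul_of_nonneg_left c1 (show 0 ≤ 8 / M ^ 2 by positivity)
  have c5 := mul_le_mul_of_nonneg_left c2 (show 0 ≤ 2 / M₂ ^ 2 by positivity)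
  have c6 := mul_le_mul_of_nonneg_left c3 (show 0 ≤ mw / M₂ ^ 2 by positivity)
  have c7 := mul_le_mul_of_nonneg_left n5 hm
  unfold val2 at c7
  have c8 : mw * (8 * t ^ 2 / M ^ 2 + sq4 Z / M₂ ^ 2) =
      8 / M ^ 2 * (mw * t ^ 2) + mw / M₂ ^ 2 * sq4 Z := by ring
  have c9 : mw / M₂ ^ 2 * (2 * sq3 Z e) = 2 / M₂ ^ 2 * (mw * sq3 Z e) := by ring
  linarith

/-- one quadratic term of the final estimate -/
theorem quad {r t₁ t z ν B η : ℝ} (hr : 1 / 2 ≤ r) (hr' : r ≤ 3 / 2) (hν : 1 ≤ ν)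
    (hz : |z| ≤ B) (e₁ : |t₁ - 1 / r| ≤ ε ^ 10) (e₂ : |t - z| ≤ η) :
    (r * z / ν) ^ 2 - (5 * B * η + 4 * B ^ 2 * ε ^ 10) ≤
      r * (2 * (r * z / ν) / ν * t - (r * z / ν) ^ 2 * t₁) := by
  have hB : 0 ≤ B := (abs_nonneg _).trans hz
  have hη : 0 ≤ η := (abs_nonneg _).trans e₂
  have hε : 0 ≤ ε ^ 10 := (abs_nonneg _).trans e₁
  have r0 : 0 < r := by linarith
  have ν0 : 0 < ν := by linarith
  have a1 : |r * z / ν| ≤ 3 / 2 * B := by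
    rw [abs_div, abs_mul, abs_of_pos r0, abs_of_pos ν0]
    exact (div_le_self (by positivity) hν).trans (by gcongr)
  have a2 : r * (2 * (r * z / ν) / ν * t - (r * z / ν) ^ 2 * t₁) = (r * z / ν) ^ 2 +
      2 * (r / ν) * (r * z / ν) * (t - z) - r * (r * z / ν) ^ 2 * (t₁ - 1 / r) := by
    field_simp; ring
  have a3 : |2 * (r / ν) * (r * z / ν) * (t - z)| ≤ 2 * (3 / 2) * (3 / 2 * B) * η := by
    have b1 : r / ν ≤ 3 / 2 := (div_le_self r0.le hν).trans hr'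
    rw [abs_mul, abs_mul, abs_of_nonneg (show 0 ≤ 2 * (r / ν) by positivity)]
    gcongr
  have a4 : |r * (r * z / ν) ^ 2 * (t₁ - 1 / r)| ≤ 3 / 2 * (3 / 2 * B) ^ 2 * ε ^ 10 := by
    rw [abs_mul, abs_mul, abs_of_pos r0, abs_pow]
    gcongr
  have a5 : 0 ≤ B * η := by positivity
  have a6 : 0 ≤ B ^ 2 * ε ^ 10 := by positivity
  rw [abs_le] at a3 a4
  rw [a2]
  nlinarith [a3.1, a4.2]

theorem final {r t₁ t₂ A ν M M₂ H : ℝ} {z t₃ : Fin d → Fin d → Fin d → ℝ} (h0 : 0 < ε)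
    (hs : 300 * ((d : ℝ) ^ 3 + 1) * ε ≤ 1) (hr : 1 / 2 ≤ r) (hr' : r ≤ 3 / 2) (hν : 1 ≤ ν)
    (hM : 1 ≤ M) (hM₂ : 1 ≤ M₂) (hH : |H| ≤ 12) (hA : |A| ≤ 2 * ε⁻¹)
    (hz : ∀ j k l, |z j k l| ≤ 2 * ε⁻¹ ^ 2) (e₁ : |t₁ - 1 / r| ≤ ε ^ 10) (e₂ : |t₂ - A| ≤ ε ^ 7)
    (e₃ : ∀ j k l, |t₃ j k l - z j k l| ≤ ε ^ 6)
    (h : 8 / M ^ 2 * (2 * (r * A / ν) / ν * t₂ - (r * A / ν) ^ 2 * t₁) +
      2 / M₂ ^ 2 * ∑ j, ∑ k, ∑ l,
        (2 * (r * z j k l) * t₃ j k l - (r * z j k l) ^ 2 * t₁) ≤ H * t₁) :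
    val2 M M₂ (r * A / ν) (2 * (r ^ 2 * ∑ j, ∑ k, ∑ l, z j k l ^ 2)) ≤ H + ε ^ 2 := by
  have hd : (0 : ℝ) ≤ (d : ℝ) ^ 3 := by positivity
  have h1 : ε ≤ 1 := by nlinarith
  have r0 : 0 < r := by linarith
  have p3 : 0 < ε ^ 3 := by positivity
  have q : ∀ k, 3 ≤ k → ε ^ k ≤ ε ^ 3 := fun k hk => pow_le_pow_of_le_one h0.le h1 hk
  have a1 := quad hr hr' hν hA e₁ e₂
  have a1' : 5 * (2 * ε⁻¹) * ε ^ 7 + 4 * (2 * ε⁻¹) ^ 2 * ε ^ 10 ≤ 26 * ε ^ 3 := by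
    have : 5 * (2 * ε⁻¹) * ε ^ 7 + 4 * (2 * ε⁻¹) ^ 2 * ε ^ 10 = 10 * ε ^ 6 + 16 * ε ^ 8 := by
      field_simp; ring
    linarith [q 6 (by norm_num), q 8 (by norm_num)]
  have a2' : 5 * (2 * ε⁻¹ ^ 2) * ε ^ 6 + 4 * (2 * ε⁻¹ ^ 2) ^ 2 * ε ^ 10 ≤ 26 * ε ^ 3 := by
    have : 5 * (2 * ε⁻¹ ^ 2) * ε ^ 6 + 4 * (2 * ε⁻¹ ^ 2) ^ 2 * ε ^ 10 =
        10 * ε ^ 4 + 16 * ε ^ 6 := by
      field_simp; ring
    linarith [q 4 (by norm_num), q 6 (by norm_num)]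
  have a2 : r ^ 2 * ∑ j, ∑ k, ∑ l, z j k l ^ 2 - (d : ℝ) ^ 3 * (26 * ε ^ 3) ≤
      r * ∑ j, ∑ k, ∑ l, (2 * (r * z j k l) * t₃ j k l - (r * z j k l) ^ 2 * t₁) := by
    have b1 : r ^ 2 * ∑ j, ∑ k, ∑ l, z j k l ^ 2 - (d : ℝ) ^ 3 * (26 * ε ^ 3) =
        ∑ j, ∑ k, ∑ l, (r ^ 2 * z j k l ^ 2 - 26 * ε ^ 3) := by
      simp only [Finset.sum_sub_distrib, Finset.mul_sum, Finset.sum_const, Finset.card_univ,
        Fintype.card_fin, nsmul_eq_mul]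
      ring
    rw [b1]
    simp only [Finset.mul_sum]
    refine Finset.sum_le_sum fun j _ => Finset.sum_le_sum fun k _ =>
      Finset.sum_le_sum fun l _ => ?_
    have b2 := quad hr hr' le_rfl (hz j k l) e₁ (e₃ j k l)
    simp only [div_one] at b2
    rw [← mul_pow]
    linarith
  have a3 : r * (H * t₁) ≤ H + 18 * ε ^ 3 := by
    have b1 : r * (H * t₁) = H + r * H * (t₁ - 1 / r) := by field_simp; ring
    have b2 : |r * H * (t₁ - 1 / r)| ≤ 3 / 2 * 12 * ε ^ 10 := by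
      rw [abs_mul, abs_mul, abs_of_pos r0]
      gcongr
    linarith [(abs_le.1 b2).2, q 10 (by norm_num)]
  have a4 := mul_le_mul_of_nonneg_left h r0.le
  have m1 : 8 / M ^ 2 ≤ 8 := div_le_self (by norm_num) (one_le_pow₀ hM)
  have m2 : 2 / M₂ ^ 2 ≤ 2 := div_le_self (by norm_num) (one_le_pow₀ hM₂)
  have a5 := mul_le_mul_of_nonneg_left (show (r * A / ν) ^ 2 - 26 * ε ^ 3 ≤ _ from
    le_trans (by linarith) a1) (show 0 ≤ 8 / M ^ 2 by positivity)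
  have a6 := mul_le_mul_of_nonneg_left a2 (show 0 ≤ 2 / M₂ ^ 2 by positivity)
  have a7 := mul_le_mul_of_nonneg_right m1 (show 0 ≤ 26 * ε ^ 3 by positivity)
  have a8 := mul_le_mul_of_nonneg_right m2 (show 0 ≤ (d : ℝ) ^ 3 * (26 * ε ^ 3) by positivity)
  have a9 := mul_pow_le h0 h1 hs (show 2 < 3 by norm_num)
  have a10 : 0 ≤ (d : ℝ) ^ 3 * ε ^ 3 := by positivity
  unfold val2
  generalize ∑ j, ∑ k, ∑ l, z j k l ^ 2 = S at *
  generalize ∑ j, ∑ k, ∑ l, (2 * (r * z j k l) * t₃ j k l - (r * z j k l) ^ 2 * t₁) = S' at *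
  generalize 2 * (r * A / ν) / ν * t₂ - (r * A / ν) ^ 2 * t₁ = T at *
  have f1 : 8 * (r * A / ν) ^ 2 / M ^ 2 = 8 / M ^ 2 * (r * A / ν) ^ 2 := by ring
  have f2 : 2 * (r ^ 2 * S) / M₂ ^ 2 = 2 / M₂ ^ 2 * (r ^ 2 * S) := by ring
  rw [f1, f2]
  generalize 8 / M ^ 2 = k₁ at *
  generalize 2 / M₂ ^ 2 = k₂ at *
  nlinarith

end Meso2

open Meso2

theorem meso2 (d : ℕ) (_hd : 3 ≤ d) (h1 : Ret3Stmt) (h2 : MesoA2Stmt d) : Meso2Stmt d := by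
  obtain ⟨C, hC, hR⟩ := h1
  refine ⟨C ^ 2, one_le_pow₀ hC, small_iff.2 ?_⟩
  filter_upwards [ev_pos, ev_mul_le (24 * (Cw d * C)), ev_mul_le (300 * ((d : ℝ) ^ 3 + 1)),
    small_iff.1 (h2 C hC)]
    with ε h0 hs hs' hA δ L l β M M₂ H n S Ψ y₀ e₁ e₂ τ hδ hδ' hL hL' hl1 hl4 hn hβ hM hM₂ hH hLoc
      hT hP y hy hB b f v hb hf hv
  have hW := one_le_Cw (d := d)
  have hWC : 1 ≤ Cw d * C := one_le_mul_of_one_le_of_one_le hW hC
  have s1 : 24 * ε ≤ 1 := by nlinarith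
  have s2 : ε ≤ 1 := by linarith
  obtain ⟨m, D, D₁, D₂, lam, D', hm, cD, dD, bD, dD', bD', ll, lm⟩ := hR ε h0 s2
  have hΨ : Sm ε⁻¹ Ψ := (loc_sm hLoc).mono (by rw [← one_div, le_div_iff₀ h0]; exact hL')
  have u1 : ‖e₁‖ = 1 := hT.1.1.1
  have u2 : ‖e₂‖ = 1 := hT.1.2.1.1
  have u3 : ‖S.e τ‖ = 1 := S.unit τ
  have hfe : ON f (S.e τ) := by
    rcases hf with rfl | rfl
    · exact hT.1.1
    · exact hT.1.2.1
  have t1 := hA δ L l n S Ψ y₀ e₁ e₂ τ m hδ hδ' hL hL' hl1 hl4 hn hLoc hT hm y hy hB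
  have bm : ∀ z, |m (tc e₁ e₂ (S.e τ) (Ψ z))| ≤ C := fun z => by
    rw [abs_of_nonneg (hm.bd _).1]; exact (hm.bd _).2
  have lm' : ∀ z z', |m (tc e₁ e₂ (S.e τ) (Ψ z)) - m (tc e₁ e₂ (S.e τ) (Ψ z'))| ≤
      3 * C / ε ^ 146 * ‖z - z'‖ := fun z z' => by
    have b1 := dl1_tc_le hT.1 (Ψ z) (Ψ z')
    have b2 := hΨ.lip z z'
    calc _ ≤ C / ε ^ 145 * (3 * (ε⁻¹ * ‖z - z'‖)) :=
          (hm.lip _ _).trans (mul_le_mul_of_nonneg_left (by linarith) (by positivity))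
      _ = _ := by field_simp
  have cm : Continuous fun z => m (tc e₁ e₂ (S.e τ) (Ψ z)) := cont_of_lip lm'
  have tE : |cv (ε ^ 120) (fun z => m (tc e₁ e₂ (S.e τ) (Ψ z)) * Af (ε ^ 160) Ψ z (S.e τ) v) y -
      Af (ε ^ 120) Ψ y (S.e τ) v| ≤ 7 * (Cw d * C) * ε ^ 8 :=
    termE h0 s2 hC (hΨ.co u1) (hΨ.co u2) (hΨ.co u3) cD dD bD bm lm' hv y
  obtain ⟨cl, tF⟩ := termF h0 s2 hC (hΨ.co hfe.1) dD' bD' ll hv y
  have tF' : |cv (ε ^ 120) (fun z => lam (co f Ψ z) * Af (ε ^ 160) Ψ z f v) y -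
      Af (ε ^ 120) Ψ y f v| ≤ 5 * (Cw d * C) * ε ^ 8 := tF
  have tZ : ∀ j k l : Fin d, |cv (ε ^ 120) (fun z => m (tc e₁ e₂ (S.e τ) (Ψ z)) *
      Zf (ε ^ 160) Ψ z (ax j) (S.e τ) (ax k) (ax l)) y -
      Zf (ε ^ 120) Ψ y (ax j) (S.e τ) (ax k) (ax l)| ≤ ε ^ 6 := fun j k l => by
    have b1 := termZ h0 s2 hC (hΨ.co (norm_ax j)) (hΨ.co u1) (hΨ.co u2) (hΨ.co u3) cD dD bD bm lm'
      (norm_ax k) (norm_ax l) y
    have b2 := mul_pow_le h0 s2 hs (show 6 < 7 by norm_num)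
    have b3 : 0 ≤ Cw d * C * ε ^ 7 := by positivity
    exact b1.trans (by linarith)
  have hb1 : |b| ≤ 1 := hb.trans hβ
  have t2 : |b * cv (ε ^ 120) (fun z => lam (co f Ψ z) * Af (ε ^ 160) Ψ z f v) y +
      cv (ε ^ 120) (fun z => m (tc e₁ e₂ (S.e τ) (Ψ z)) * Af (ε ^ 160) Ψ z (S.e τ) v) y -
      (Af (ε ^ 120) Ψ y (S.e τ) v + b * Af (ε ^ 120) Ψ y f v)| ≤ ε ^ 7 := by
    have b1 : |b * (cv (ε ^ 120) (fun z => lam (co f Ψ z) * Af (ε ^ 160) Ψ z f v) y -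
        Af (ε ^ 120) Ψ y f v)| ≤ 1 * (5 * (Cw d * C) * ε ^ 8) := by
      rw [abs_mul]; gcongr
    have b2 := mul_pow_le h0 s2 hs (show 7 < 8 by norm_num)
    have b3 : 0 ≤ Cw d * C * ε ^ 8 := by positivity
    rw [abs_le] at b1 tE ⊢
    constructor <;> linarith [b1.1, b1.2, tE.1, tE.2]
  obtain ⟨hr, hr'⟩ := rr_mem (ε := ε) hδ.le hδ' n l (co e₁ Ψ) (co e₂ Ψ) (co (S.e τ) Ψ) y
  have μ0 : (0 : ℝ) ≤ ε ^ 120 := by positivity
  have hA2 : |Af (ε ^ 120) Ψ y (S.e τ) v + b * Af (ε ^ 120) Ψ y f v| ≤ 2 * ε⁻¹ := by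
    have b1 := abs_Af_le hΨ μ0 y u3.le hv.le
    have b2 := abs_Af_le hΨ μ0 y hfe.1.le hv.le
    have b3 : |b| * |Af (ε ^ 120) Ψ y f v| ≤ 1 * ε⁻¹ := by gcongr
    refine (abs_add_le _ _).trans ?_
    rw [abs_mul]; linarith
  refine final h0 hs' hr hr' (le_add_of_nonneg_right (by positivity)) hM hM₂ hH hA2
    (fun j k l => abs_Zf_le hΨ μ0 y (norm_ax j).le u3.le (norm_ax k).le (norm_ax l).le) t1 t2 tZ ?_
  generalize rr ε δ n l (co e₁ Ψ) (co e₂ Ψ) (co (S.e τ) Ψ) y *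
    (Af (ε ^ 120) Ψ y (S.e τ) v + b * Af (ε ^ 120) Ψ y f v) / (1 + C ^ 2 * β ^ 2) = x
  generalize rr ε δ n l (co e₁ Ψ) (co e₂ Ψ) (co (S.e τ) Ψ) y = r
  set Y : Fin d → Fin d → Fin d → ℝ :=
    fun j k l => r * Zf (ε ^ 120) Ψ y (ax j) (S.e τ) (ax k) (ax l) with hY
  have c1 := cl.fun_mul (continuous_Af hΨ.cd1 (ε ^ 160) f v)
  have c2 := cm.fun_mul (continuous_Af hΨ.cd1 (ε ^ 160) (S.e τ) v)
  have c3 := fun j k l : Fin d =>
    cm.fun_mul (continuous_Zf hΨ.cd1 (ε ^ 160) (ax j) (S.e τ) (ax k) (ax l))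
  have d1 := ((continuous_const (y := b)).fun_mul c1).fun_add c2
  have d2 := (continuous_const (y := 2 * x / (1 + C ^ 2 * β ^ 2))).fun_mul d1
  have d3 := (continuous_const (y := x ^ 2)).fun_mul cm
  have d4 := (continuous_const (y := 8 / M ^ 2)).fun_mul (d2.fun_sub d3)
  have d5 := fun j k l : Fin d => (continuous_const (y := 2 * Y j k l)).fun_mul (c3 j k l)
  have d6 := fun j k l : Fin d => (continuous_const (y := Y j k l ^ 2)).fun_mul cm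
  have d7 := fun j k l : Fin d => (d5 j k l).fun_sub (d6 j k l)
  have d8 := fun j k : Fin d => continuous_finsetSum Finset.univ fun l _ => d7 j k l
  have d9 := fun j : Fin d => continuous_finsetSum Finset.univ fun k _ => d8 j k
  have d10 := continuous_finsetSum Finset.univ fun j _ => d9 j
  have d11 := (continuous_const (y := 2 / M₂ ^ 2)).fun_mul d10
  have key := cv_mono (d4.fun_add d11) ((continuous_const (y := H)).fun_mul cm) μ0 (y := y)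
    fun z hz => ptw (ml_Zf hΨ.cd1 (ε ^ 160) z) (A := fun g => Af (ε ^ 160) Ψ z g v)
      (fun a a' g g' => Af_l1 hΨ.cd1 _ a a' z g g' v) hfe Y hb (hm.bd _).1 (bD' _).2.1
      (by
        rcases hf with rfl | rfl
        · exact (lm (tc f e₂ (S.e τ) (Ψ z))).1
        · exact (lm (tc e₁ f (S.e τ) (Ψ z))).2)
      fun hne g hg => by
        refine hP z ?_ (far h0 s1 hΨ hT hB hz (hm.far _ hne)) g v hg hv
        have b1 : ε ^ 120 ≤ 1 := pow_le_one₀ h0.le s2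
        have b2 := dist_triangle z y y₀
        rw [mem_closedBall] at hy hz
        rw [mem_ball]; linarith
  rw [cv_add d4 d11, cv_const_mul, cv_const_mul, cv_const_mul, cv_sub d2 d3, cv_const_mul,
    cv_const_mul, cv_add ((continuous_const (y := b)).fun_mul c1) c2, cv_const_mul,
    cv_sum _ fun j _ => d9 j] at key
  refine le_trans (le_of_eq ?_) key
  congr 2
  refine Finset.sum_congr rfl fun j _ => ?_
  rw [cv_sum _ fun k _ => d8 j k]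
  refine Finset.sum_congr rfl fun k _ => ?_
  rw [cv_sum _ fun l _ => d7 j k l]
  refine Finset.sum_congr rfl fun l _ => ?_
  rw [cv_sub (d5 j k l) (d6 j k l), cv_const_mul, cv_const_mul]

end Pool.Agent.MP_20bec2_an.b2
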