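import Pool.Agent.MP_20bec2_an.b2.Basic

/-! The mean tensor of minors is bordered (project BIOM2, row NB). -/

set_option autoImplicit false

open MeasureTheory Set Metric Filter Topology

noncomputable section

namespace Pool.Agent.MP_20bec2_an.b2

open Pool.Agent.MP_20bec2_an.h7

namespace Nb

variable {d : ℕ} {ε N : ℝ}

theorem tiny (h0 : 0 < ε) (h1 : ε ≤ 1) {C : ℝ} (hC : C * ε ≤ 1) :
    C * ε⁻¹ ^ 2 * ε ^ 160 / ε ^ 120 ≤ ε ∧ C * ε⁻¹ ^ 2 * ε ^ 120 ≤ ε := by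
  have a1 := mul_pow_le h0 h1 hC (show 1 < 38 by norm_num)
  have a2 := mul_pow_le h0 h1 hC (show 1 < 118 by norm_num)
  rw [pow_one] at a1 a2
  refine ⟨le_of_eq_of_le ?_ a1, le_of_eq_of_le ?_ a2⟩ <;> field_simp

theorem tr (h0 : 0 < ε) (h1 : ε ≤ 1) (hN : Cw d * N * ε ≤ 1) {G a : E d → ℝ}
    (hG : Continuous G) (ha : Continuous a) {c A : ℝ} (hA : 0 < A)
    (hB : ∀ z, |G z| ≤ N * ε⁻¹ ^ 2) (hB' : ∀ z, a z ≤ N * ε⁻¹ ^ 2)
    (h : ∀ z, |cv (ε ^ 160) G z - c| ≤ a z) {y₀ : E d}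
    (hm : cv 1 (fun y => a y ^ 2) y₀ ≤ A ^ 2) :
    cv 1 (fun y => |cv (ε ^ 120) G y - c|) y₀ ≤ A + 2 * ε := by
  have a0 : ∀ z, |a z| = a z := fun z => abs_of_nonneg ((abs_nonneg _).trans (h z))
  have a1 := cv_transfer (B' := N * ε⁻¹ ^ 2) hG ha (pow_pos h0 160).le (pow_pos h0 120) hB
    (fun z => (a0 z).trans_le (hB' z)) h y₀
  have a2 := cv_le_of_sq ha zero_le_one hA hm
  simp only [a0] at a2
  obtain ⟨t1, t2⟩ := tiny h0 h1 hN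
  have a3 : cv 1 a y₀ ≤ A := a2
  rw [← mul_assoc] at a1
  linarith

theorem dd_sub {q q' : E d → ℝ} (hq : ContDiff ℝ 1 q) (hq' : ContDiff ℝ 1 q') (v y : E d) :
    dd (fun z => q z - q' z) v y = dd q v y - dd q' v y := by
  have := ((hq.differentiable one_ne_zero y).hasFDerivAt.sub
    (hq'.differentiable one_ne_zero y).hasFDerivAt).fderiv
  unfold dd
  rw [show (fun z => q z - q' z) = q - q' from rfl, this]
  rfl

theorem jac_sm {q p : E d → ℝ} {L s μ : ℝ} (hq : Sm L q) (hp : Sm L p) (hs : 0 ≤ s) (hμ : 0 < μ)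
    {v' u : E d} (hv' : ‖v'‖ = 1) (hu : ‖u‖ = 1) (y : E d) :
    |cv μ (jac q p v' u) y - cv μ (jac (cv s q) (cv s p) v' u) y| ≤
      4 * Cw d * L ^ 2 * s / μ := by
  have q1 := hq.cd1
  have p1 := hp.cd1
  have q2 := (hq.cv s).cd1
  have p2 := (hp.cv s).cd1
  have a1 := abs_cv_jac_le (α := fun z => q z - cv s q z) (B := L * s) (q1.sub q2) hp hμ
    (fun z => by rw [abs_sub_comm]; exact hq.cv_sub hs z) hv' hu y
  have a2 := abs_cv_jac_le (α := fun z => p z - cv s p z) (B := L * s) (p1.sub p2) (hq.cv s) hμ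
    (fun z => by rw [abs_sub_comm]; exact hp.cv_sub hs z) hv' hu y
  have e : cv μ (jac q p v' u) y - cv μ (jac (cv s q) (cv s p) v' u) y =
      cv μ (jac (fun z => q z - cv s q z) p v' u) y -
        cv μ (jac (fun z => p z - cv s p z) (cv s q) v' u) y := by
    rw [← cv_sub (continuous_jac q1 p1 _ _) (continuous_jac q2 p2 _ _),
      ← cv_sub (continuous_jac (q1.sub q2) p1 _ _) (continuous_jac (p1.sub p2) q2 _ _)]
    congr 1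
    funext z
    simp only [jac, dd_sub q1 q2, dd_sub p1 p2]
    ring
  rw [e]
  refine (abs_sub _ _).trans ((add_le_add a1 a2).trans (le_of_eq ?_))
  ring

variable {γ M M₂ Λ : ℝ} {Ψ : E d → E d} {y₀ e u : E d} {a b c : E d → ℝ}

/-- the tensor at the coarse scale is close to the mean tensor -/
theorem z_close (h0 : 0 < ε) (h1 : ε ≤ 1) (hN : Cw d * N * ε ≤ 1) (hd : 4 * (d : ℝ) ^ 2 ≤ N)
    (h6 : 6 ≤ N) (hΨ : Sm ε⁻¹ Ψ) (hγ : 0 < γ) (hM₂ : 1 ≤ M₂)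
    (hb : Bk ε (γ ^ 2) M M₂ Λ Ψ y₀ e u a b c) {g g' v v' : E d} (g1 : ‖g‖ ≤ 1) (g2 : ‖g'‖ ≤ 1)
    (g3 : ‖v‖ ≤ 1) (g4 : ‖v'‖ ≤ 1) :
    cv 1 (fun y => |Zf (ε ^ 120) Ψ y g g' v v' - Zf 1 Ψ y₀ g g' v v'|) y₀ ≤
      2 * γ * M₂ + 2 * ε := by
  have c1 := hΨ.cd1
  have hL : 0 ≤ ε⁻¹ ^ 2 := by positivity
  refine tr (a := fun z => √(sq4 (Zf (ε ^ 160) Ψ z - Zf 1 Ψ y₀))) h0 h1 hN
    (continuous_jac (Vol.contDiff_co c1 g) (Vol.contDiff_co c1 g') v v')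
    (continuous_sq4 c1 _ _).sqrt (by positivity)
    (fun z => (abs_jac_le' (sm_co hΨ g1) (sm_co hΨ g2) g3 g4 z).trans
      (mul_le_mul_of_nonneg_right (by linarith) hL)) (fun z => ?_)
    (fun z => ((ml_Zf c1 _ z).sub (ml_Zf c1 1 y₀)).abs_le_one g1 g2 g3 g4) ?_
  · have := sq4_le_of (z := Zf (ε ^ 160) Ψ z - Zf 1 Ψ y₀) (B := 4 * ε⁻¹ ^ 2) fun i j k l => by
      have n := fun i : Fin d => (norm_ax i).le
      have b1 := abs_Zf_le hΨ (pow_pos h0 160).le z (n i) (n j) (n k) (n l)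
      have b2 := abs_Zf_le hΨ zero_le_one y₀ (n i) (n j) (n k) (n l)
      simp only [Pi.sub_apply]
      exact (abs_sub _ _).trans (by linarith)
    refine Real.sqrt_le_iff.2 ⟨by positivity, this.trans ?_⟩
    calc (d : ℝ) ^ 4 * (4 * ε⁻¹ ^ 2) ^ 2 = (4 * (d : ℝ) ^ 2 * ε⁻¹ ^ 2) ^ 2 := by ring
      _ ≤ _ := by gcongr
  · simp only [Real.sq_sqrt (sq4_nonneg _)]
    refine hb.mz.trans ?_
    nlinarith [sq_nonneg (γ * M₂)]

theorem z_bound (h0 : 0 < ε) (h1 : ε ≤ 1) (hN : Cw d * N * ε ≤ 1) (hd : 4 * (d : ℝ) ^ 2 ≤ N)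
    (h6 : 6 ≤ N) (hΨ : Sm ε⁻¹ Ψ) (hγ : 0 < γ) (hγ1 : γ ≤ 1) (hM₂ : 1 ≤ M₂)
    (hz : sq4 (Zf 1 Ψ y₀) ≤ M₂ ^ 2)
    (hb : Bk ε (γ ^ 2) M M₂ Λ Ψ y₀ e u a b c) {g g' v v' : E d} (g1 : ‖g‖ ≤ 1) (g2 : ‖g'‖ ≤ 1)
    (g3 : ‖v‖ ≤ 1) (g4 : ‖v'‖ ≤ 1) :
    cv 1 (fun y => |Zf (ε ^ 120) Ψ y g g' v v'|) y₀ ≤ 5 * M₂ := by
  have c1 := hΨ.cd1
  have a1 := z_close h0 h1 hN hd h6 hΨ hγ hM₂ hb g1 g2 g3 g4
  have a2 : |Zf 1 Ψ y₀ g g' v v'| ≤ M₂ := ((ml_Zf c1 1 y₀).abs_le_one g1 g2 g3 g4).trans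
    (Real.sqrt_le_iff.2 ⟨by linarith, hz⟩)
  have c2 := continuous_Zf c1 (ε ^ 120) g g' v v'
  have a3 : cv 1 (fun y => |Zf (ε ^ 120) Ψ y g g' v v'|) y₀ ≤
      cv 1 (fun y => |Zf (ε ^ 120) Ψ y g g' v v' - Zf 1 Ψ y₀ g g' v v'| + M₂) y₀ := by
    refine cv_mono (by fun_prop) (by fun_prop) zero_le_one fun y _ => ?_
    have := abs_sub_abs_le_abs_sub (Zf (ε ^ 120) Ψ y g g' v v') (Zf 1 Ψ y₀ g g' v v')
    linarith
  rw [cv_add (by fun_prop) continuous_const, cv_const] at a3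
  nlinarith

/-- the pointwise identity behind the gradient bound -/
theorem pt_bound (hΨ : Sm ε⁻¹ Ψ) (he : ‖e‖ = 1) (hu : ‖u‖ = 1) (hΛ : 0 ≤ Λ) {g : ℝ}
    (hb : Bk ε g M M₂ Λ Ψ y₀ e u a b c) {f v : E d} (f1 : ‖f‖ ≤ 1) (fe : inner ℝ f e = 0)
    (hv : ‖v‖ = 1) (z : E d) :
    |Λ * cv (ε ^ 160) (dd (co f Ψ) v) z -
      jac (cv (ε ^ 160) (co f Ψ)) (cv (ε ^ 160) (co e Ψ)) v u z| ≤
        2 * (|c z| * |b z|) + Λ * |a z| := by
  have c1 := hΨ.cd1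
  have a1 := hb.ha z f f1
  have a2 := hb.hb z v hv.le
  have a3 := hb.hb z u hu.le
  have a4 := hb.hc z f v f1 hv.le
  have a5 := hb.hc z f u f1 hu.le
  have a6 : |inner ℝ u v| ≤ 1 := (abs_real_inner_le_norm u v).trans (by rw [hu, hv, mul_one])
  rw [fe, mul_zero, sub_zero] at a1
  rw [real_inner_self_eq_norm_sq, hu, one_pow, mul_one] at a3
  obtain ⟨⟨n1, -⟩, ⟨n2, -⟩, n3, -⟩ := hb.bd z
  rw [abs_of_nonneg n1, abs_of_nonneg n2, abs_of_nonneg n3]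
  simp only [jac, dd_cv_co c1]
  change |Λ * Af (ε ^ 160) Ψ z f v - _| ≤ _
  generalize Af (ε ^ 160) Ψ z f v = A1 at *
  generalize Af (ε ^ 160) Ψ z f u = A2 at *
  generalize Af (ε ^ 160) Ψ z e v = A3 at *
  generalize Af (ε ^ 160) Ψ z e u = A4 at *
  generalize inner ℝ u v = t at *
  rw [show Λ * A1 - (A1 * A4 - A2 * A3) =
    A2 * (A3 - Λ * t) - A1 * (A4 - Λ) + Λ * (A2 * t) by ring]
  refine (abs_add_le _ _).trans (add_le_add ((abs_sub _ _).trans ?_) ?_)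
  · rw [abs_mul, abs_mul, two_mul]
    exact add_le_add (mul_le_mul a5 a2 (abs_nonneg _) n3) (mul_le_mul a4 a3 (abs_nonneg _) n3)
  · rw [abs_mul, abs_of_nonneg hΛ, abs_mul]
    exact mul_le_mul_of_nonneg_left ((mul_le_of_le_one_right (abs_nonneg _) a6).trans a1) hΛ

/-- coordinates orthogonal to `e` move slowly in all directions -/
theorem grad (h0 : 0 < ε) (h1 : ε ≤ 1) (hN : Cw d * N * ε ≤ 1) (hd : 4 * (d : ℝ) ^ 2 ≤ N)
    (h6 : 6 ≤ N) (hΨ : Sm ε⁻¹ Ψ) (he : ‖e‖ = 1) (hu : ‖u‖ = 1) (hγ : 0 < γ) (hγ1 : γ ≤ 1)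
    (hε : ε ≤ γ) (hM : 1 ≤ M) (hM₂ : 1 ≤ M₂) (hMM : M₂ ≤ γ * M ^ 2) (hΛ : M ≤ 2 * Λ)
    (hΛ' : Λ ≤ ε⁻¹) (hz : sq4 (Zf 1 Ψ y₀) ≤ M₂ ^ 2)
    (hb : Bk ε (γ ^ 2) M M₂ Λ Ψ y₀ e u a b c) {f v : E d} (f1 : ‖f‖ ≤ 1) (fe : inner ℝ f e = 0)
    (hv : ‖v‖ = 1) :
    cv 1 (fun y => |dd (cv (ε ^ 120) (co f Ψ)) v y|) y₀ ≤ 21 * γ * M := by
  have c1 := hΨ.cd1
  have hq := sm_co hΨ f1
  have hp := sm_co hΨ he.le
  have l0 : 0 < Λ := by linarith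
  have hs := (pow_pos h0 160).le
  have hμ := pow_pos h0 120
  have hi : 0 < ε⁻¹ := inv_pos.2 h0
  have hW : 0 ≤ Cw d := zero_le_one.trans one_le_Cw
  have ca := hb.ca
  have cb := hb.cb
  have cc := hb.cc
  obtain ⟨t1, t2⟩ := tiny h0 h1 (C := Cw d * 6)
    (le_trans (by gcongr) hN)
  set R : E d → ℝ := fun z => 2 * (|c z| * |b z|) + Λ * |a z| with hR
  have cR : Continuous R := by fun_prop
  have bR : ∀ z, ‖R z‖ ≤ 6 * ε⁻¹ ^ 2 := fun z => by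
    obtain ⟨⟨n1, m1⟩, ⟨n2, m2⟩, n3, m3⟩ := hb.bd z
    rw [Real.norm_eq_abs, abs_of_nonneg (by simp only [hR]; positivity)]
    simp only [hR]
    rw [abs_of_nonneg n1, abs_of_nonneg n2, abs_of_nonneg n3]
    nlinarith [mul_le_mul m3 m2 n2 hi.le, mul_le_mul hΛ' m1 n1 hi.le]
  have cG := continuous_dd hq.cd1 v
  have cZ := continuous_Zf c1 (ε ^ 120) f e v u
  have cA := continuous_cv cG (ε ^ 120)
  have cRR := continuous_cv cR (ε ^ 120)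
  have k1 : ∀ y, Λ * |cv (ε ^ 120) (dd (co f Ψ) v) y| ≤
      |Zf (ε ^ 120) Ψ y f e v u| + cv (ε ^ 120) R y + ε := fun y => by
    have a1 := jac_sm hq hp hs hμ hv hu y
    have a2 := cv_cv cG hμ hs (fun z => hq.dd_le hv z) y
    have a3 : ‖cv (ε ^ 120) (fun z => Λ * cv (ε ^ 160) (dd (co f Ψ) v) z -
        jac (cv (ε ^ 160) (co f Ψ)) (cv (ε ^ 160) (co e Ψ)) v u z) y‖ ≤ cv (ε ^ 120) R y :=
      norm_cv_le_cv cR hμ.le fun z _ => pt_bound hΨ he hu l0.le hb f1 fe hv z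
    have cS := continuous_cv cG (ε ^ 160)
    rw [cv_sub (G := fun z => Λ * cv (ε ^ 160) (dd (co f Ψ) v) z) (by fun_prop)
      (continuous_jac (hq.cv _).cd1 (hp.cv _).cd1 _ _), cv_const_mul] at a3
    rw [Real.norm_eq_abs] at a2 a3
    have a4 : Λ * (Cw d * ε⁻¹ * ε ^ 160 / ε ^ 120) ≤ Cw d * ε⁻¹ ^ 2 * ε ^ 160 / ε ^ 120 := by
      calc _ ≤ ε⁻¹ * (Cw d * ε⁻¹ * ε ^ 160 / ε ^ 120) := by gcongr
        _ = _ := by ring
    have a5 := (mul_le_mul_of_nonneg_left a2 l0.le).trans a4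
    have a6 : 0 ≤ Cw d * ε⁻¹ ^ 2 * ε ^ 160 / ε ^ 120 := by positivity
    have e0 : ∀ x : ℝ, Λ * |x| = |Λ * x| := fun x => by rw [abs_mul, abs_of_pos l0]
    rw [e0] at a5 ⊢
    unfold Zf
    have e1 : Cw d * 6 * ε⁻¹ ^ 2 * ε ^ 160 / ε ^ 120 =
      6 * (Cw d * ε⁻¹ ^ 2 * ε ^ 160 / ε ^ 120) := by ring
    have e2 : 4 * Cw d * ε⁻¹ ^ 2 * ε ^ 160 / ε ^ 120 =
      4 * (Cw d * ε⁻¹ ^ 2 * ε ^ 160 / ε ^ 120) := by ring
    rw [e1] at t1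
    rw [e2] at a1
    rw [mul_sub] at a5
    have b1 := abs_le.1 a1
    have b3 := abs_le.1 a3
    have b5 := abs_le.1 a5
    have b7 := le_abs_self (cv (ε ^ 120) (jac (co f Ψ) (co e Ψ) v u) y)
    have b8 := neg_abs_le (cv (ε ^ 120) (jac (co f Ψ) (co e Ψ) v u) y)
    refine abs_le.2 ⟨?_, ?_⟩ <;> linarith [b1.1, b1.2, b3.1, b3.2, b5.1, b5.2]
  have k2 : cv 1 (fun y => Λ * |cv (ε ^ 120) (dd (co f Ψ) v) y|) y₀ ≤
      cv 1 (fun y => |Zf (ε ^ 120) Ψ y f e v u| + cv (ε ^ 120) R y + ε) y₀ :=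
    cv_mono (by fun_prop) (by fun_prop) zero_le_one fun y _ => k1 y
  rw [cv_const_mul, cv_add (by fun_prop) continuous_const, cv_const,
    cv_add (by fun_prop) cRR] at k2
  have k3 := z_bound h0 h1 hN hd h6 hΨ hγ hγ1 hM₂ hz hb f1 he.le hv.le hu.le
  have k4 := cv_cv cR one_pos hμ.le bR y₀
  rw [Real.norm_eq_abs, div_one, ← mul_assoc] at k4
  have k5 : cv 1 R y₀ ≤ 3 * γ * M ^ 2 + Λ * (γ * M) := by
    have m1 := cv_mul_le (A := 3 / 2 * M) (B := γ * M) cc cb zero_le_one (by positivity)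
      (by positivity) (hb.mc.trans (by nlinarith)) (hb.mb.trans (le_of_eq (by ring)))
    have m2 := cv_le_of_sq (A := γ * M) ca zero_le_one (by positivity)
      (hb.ma.trans (le_of_eq (by ring)))
    simp only [hR]
    rw [cv_add (by fun_prop) (by fun_prop), cv_const_mul, cv_const_mul]
    have := mul_le_mul_of_nonneg_left m2 l0.le
    linarith
  have k6 : ε ≤ γ * M ^ 2 := hε.trans (le_mul_of_one_le_right hγ.le (one_le_pow₀ hM))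
  have k7 : γ * M ^ 2 ≤ 2 * (Λ * (γ * M)) := by
    have := mul_le_mul_of_nonneg_left hΛ (show 0 ≤ γ * M by positivity)
    nlinarith
  simp only [dd_cv hq.cd1]
  refine le_of_mul_le_mul_left ?_ l0
  have k8 : cv 1 (cv (ε ^ 120) R) y₀ ≤ cv 1 R y₀ + ε := by linarith [(abs_le.1 k4).2]
  have k9 : cv 1 (fun z => cv (ε ^ 120) R z) y₀ = cv 1 (cv (ε ^ 120) R) y₀ := rfl
  linarith

/-- from directions close to `u` to all directions -/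
theorem all_dir {z : E d → E d → E d → E d → ℝ} (h : Ml z) {f f' v : E d} {K : ℝ}
    (hu : ‖u‖ = 1) (hK : ∀ u' : E d, ‖u'‖ = 1 → 1 / 2 ≤ inner ℝ u u' → |z f f' v u'| ≤ K)
    {w : E d} (hw : ‖w‖ = 1) : |z f f' v w| ≤ 3 * K := by
  have key : ∀ w : E d, ‖w‖ = 1 → 0 ≤ inner ℝ u w → |z f f' v w| ≤ 3 * K := fun w hw h0 => by
    have a1 : ‖u + w‖ ^ 2 = 2 + 2 * inner ℝ u w := by rw [norm_add_sq_real, hu, hw]; ring
    have a2 : ‖u + w‖ ≤ 2 := (norm_add_le _ _).trans (by linarith)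
    have a3 : 1 ≤ ‖u + w‖ := by nlinarith [norm_nonneg (u + w)]
    have a4 : ‖u + w‖ ≠ 0 := by linarith [a3] |> fun h : 0 < ‖u + w‖ => h.ne'
    have b1 := hK u hu (by rw [real_inner_self_eq_norm_sq, hu]; norm_num)
    have b2 := hK (‖u + w‖⁻¹ • (u + w)) (by rw [norm_smul, norm_inv, norm_norm, inv_mul_cancel₀ a4])
      (by
        rw [real_inner_smul_right, inner_add_right, real_inner_self_eq_norm_sq, hu,
          ← div_eq_inv_mul, le_div_iff₀ (by linarith)]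
        linarith)
    have e1 : z f f' v w = ‖u + w‖ * z f f' v (‖u + w‖⁻¹ • (u + w)) - z f f' v u := by
      rw [h.smul4, h.add4, ← mul_assoc, mul_inv_cancel₀ a4]; ring
    rw [e1]
    refine (abs_sub _ _).trans ?_
    rw [abs_mul, abs_norm]
    have := mul_le_mul a2 b2 (abs_nonneg _) zero_le_two
    linarith
  rcases le_total 0 (inner ℝ u w) with h0 | h0
  · exact key w hw h0
  · have := key ((-1 : ℝ) • w) (by rw [norm_smul, hw]; simp)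
      (by rw [real_inner_smul_right]; linarith)
    rwa [h.smul4, neg_one_mul, abs_neg] at this

end Nb

theorem nb (d : ℕ) (hd : 3 ≤ d) (h : Nb2Stmt d) : NbStmt d := by
  obtain ⟨C, hC, h⟩ := h
  have d1 : (3 : ℝ) ≤ d := by exact_mod_cast hd
  refine ⟨(d : ℝ) ^ 4 * (1500 * C) ^ 2, one_le_mul_of_one_le_of_one_le (one_le_pow₀ (by linarith))
    (one_le_pow₀ (by linarith)), small_iff.2 ?_⟩
  filter_upwards [small_iff.1 h, ev_pos, ev_mul_le 1, ev_mul_le (Cw d * (4 * (d : ℝ) ^ 2)),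
    ev_le_lg ((100 * C) ^ 2)] with ε h h0 h1 hN hl g M M₂ Ψ y₀ e u a b c hΨ he hu hM hM₂ hg hε
    hgl hMM hΛ hz hb
  rw [one_mul] at h1
  obtain ⟨γ, hγ, rfl⟩ : ∃ γ : ℝ, 0 < γ ∧ g = γ ^ 2 :=
    ⟨√g, Real.sqrt_pos.2 hg, (Real.sq_sqrt hg.le).symm⟩
  have c1 := hΨ.cd1
  have h6 : 6 ≤ 4 * (d : ℝ) ^ 2 := by nlinarith
  have g1 : C * (100 * γ) ≤ 1 := by
    refine (pow_le_one_iff_of_nonneg (n := 2) (by positivity) two_ne_zero).1 ?_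
    calc (C * (100 * γ)) ^ 2 = γ ^ 2 * (100 * C) ^ 2 := by ring
      _ ≤ γ ^ 2 * lg ε := by gcongr
      _ ≤ 1 := hgl
  have g2 : γ ≤ 1 := by nlinarith
  have g3 : ε ≤ γ := hε.trans (by rw [← pow_mul]; exact pow_le_of_le_one hγ.le g2 (by norm_num))
  have g4 : ε ≤ (100 * γ) ^ 4 := hε.trans (by rw [← pow_mul]; gcongr; linarith)
  have g5 : M₂ ≤ γ * M ^ 2 := by
    refine le_of_sq_le_sq ?_ (by positivity)
    calc _ ≤ _ := hMM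
      _ = _ := by ring
  have g6 : Af 1 Ψ y₀ e u ≤ ε⁻¹ :=
    (le_abs_self _).trans (abs_Af_le hΨ zero_le_one y₀ he.le hu.le)
  generalize Af 1 Ψ y₀ e u = Λ at hΛ hb g6
  have l0 : 0 < Λ := by linarith
  have hi : 1 ≤ ε⁻¹ := (one_le_inv₀ h0).2 h1
  have hi2 : ε⁻¹ ≤ ε⁻¹ ^ 2 := le_self_pow₀ hi two_ne_zero
  have ml := ml_Zf c1 1 y₀
  have key := ml.sq4_le (K := 3 * (C * (100 * γ) * (5 * M₂))) he fun f f' f1 f2 f3 f4 k l => by
    refine Nb.all_dir ml hu (fun u' hu' hi' => ?_) (norm_ax l)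
    have v1 := norm_ax k
    have i1 : inner ℝ u u' ≤ 1 := (real_inner_le_norm u u').trans (by rw [hu, hu', mul_one])
    have i2 : M ≤ 4 * (Λ * inner ℝ u u') := by nlinarith
    have i3 : 21 * γ * M ≤ 100 * γ * (Λ * inner ℝ u u') := by nlinarith
    have hp := sm_co hΨ he.le
    have gr := fun {f : E d} (f1 : ‖f‖ ≤ 1) (f3 : inner ℝ f e = 0) =>
      (Nb.grad h0 h1 hN le_rfl h6 hΨ he hu hγ g2 g3 hM hM₂ g5 hΛ g6 hz hb f1 f3 hu').trans i3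
    have zb := fun {g g' : E d} (g1 : ‖g‖ ≤ 1) (g2' : ‖g'‖ ≤ 1) =>
      Nb.z_bound h0 h1 hN le_rfl h6 hΨ hγ g2 hM₂ hz hb g1 g2' v1.le hu'.le
    refine h (co f Ψ) (co f' Ψ) (co e Ψ) (ax k) u' y₀ (100 * γ) (Λ * inner ℝ u u') (5 * M₂) _
      (sm_co hΨ f1) (sm_co hΨ f2) hp v1 hu' (by positivity) g4 g1 (by linarith)
      ((mul_le_of_le_one_right l0.le i1).trans g6) (by linarith)
      (abs_Zf_le hΨ zero_le_one y₀ f1 f2 v1.le hu'.le) ?_ (gr f1 f3) (gr f2 f4) (zb f1 he.le)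
      (zb he.le f2) ?_
    · simp only [dd_cv hp.cd1]
      refine (Nb.tr (A := γ * M) h0 h1 hN (continuous_dd hp.cd1 u') hb.cb (by positivity)
        (fun z => ?_) (fun z => ?_) (fun z => hb.hb z u' hu'.le)
        (hb.mb.trans (le_of_eq (by ring)))).trans ?_
      · have : |dd (co e Ψ) u' z| ≤ ε⁻¹ := hp.dd_le hu' z
        nlinarith
      · have := (hb.bd z).2.1.2
        nlinarith
      · nlinarith
    · refine (Nb.z_close h0 h1 hN le_rfl h6 hΨ hγ hM₂ hb f1 f2 v1.le hu'.le).trans ?_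
      nlinarith
  refine key.trans (le_of_eq ?_)
  ring

end Pool.Agent.MP_20bec2_an.b2
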