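import Pool.Agent.MP_20bec2_an.b2.Spec

-- ======== part 0: formerly Pool.Agent.MP_20bec2_an.b2.Nb3A
section MrgPart0

/-! Double line integrals and the exact form used for the bordered tensor. -/

set_option autoImplicit false

open MeasureTheory Set Metric Filter Topology

noncomputable section

namespace Pool.Agent.MP_20bec2_an.b2

open Pool.Agent.MP_20bec2_an.h7

namespace Nb3

variable {d : ℕ}

/-- the double line integral with weight one -/
def LL (r T : ℝ) (v u : E d) (G : E d → ℝ) : E d → ℝ :=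
  ln r v (fun _ => 1) (ln T u (fun _ => 1) G)

/-- the double line integral with the window profiles -/
def WW (r T : ℝ) (v u : E d) (G : E d → ℂ) : E d → ℂ := ln r v (th r) (ln T u (th T) G)

theorem norm_le {κ κ' : ℝ → ℝ} {a b r T : ℝ} {G : E d → ℂ} {G' : E d → ℝ} (hr : 0 ≤ r)
    (hT : 0 ≤ T) (hκ : ∀ τ, |κ τ| ≤ a) (hκ' : ∀ τ, |κ' τ| ≤ b) (hG' : Continuous G')
    (h : ∀ z, ‖G z‖ ≤ G' z) (v u y : E d) :
    ‖ln r v κ (ln T u κ' G) y‖ ≤ LL r T v u (fun z => a * b * G' z) y := by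
  have ha : 0 ≤ a := (abs_nonneg _).trans (hκ 0)
  have hb : 0 ≤ b := (abs_nonneg _).trans (hκ' 0)
  have c1 : Continuous fun z => a * b * G' z := continuous_const.mul hG'
  have c2 : Continuous fun z => b * G' z := continuous_const.mul hG'
  refine norm_ln_le continuous_const (Test.cont_ln c1 T u) hr v y fun τ _ => ?_
  have e : (fun z => a * b * G' z) = fun z => a * (b * G' z) := by
    funext z; ring
  rw [one_mul, e, TestA.ln_mul]
  refine mul_le_mul (hκ τ) ?_ (norm_nonneg _) ha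
  refine norm_ln_le continuous_const c2 hT u _ fun t _ => ?_
  rw [one_mul]
  exact mul_le_mul (hκ' t) (h _) (norm_nonneg _) hb

theorem abs_th (r τ : ℝ) : |th r τ| ≤ 1 := by
  rw [abs_of_nonneg (th_mem _ _).1]; exact (th_mem _ _).2

theorem WW_le {r T : ℝ} {G : E d → ℂ} {G' : E d → ℝ} (hr : 0 ≤ r) (hT : 0 ≤ T)
    (hG' : Continuous G') (h : ∀ z, ‖G z‖ ≤ G' z) (v u y : E d) :
    ‖WW r T v u G y‖ ≤ LL r T v u G' y := by
  have := norm_le hr hT (abs_th r) (abs_th T) hG' h v u y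
  simp only [one_mul] at this
  exact this

theorem cont_WW {G : E d → ℂ} (hG : Continuous G) (r T : ℝ) (v u : E d) :
    Continuous (WW r T v u G) :=
  continuous_ln (continuous_th r) (continuous_ln (continuous_th T) hG T u) r v

theorem cont_LL {G : E d → ℝ} (hG : Continuous G) (r T : ℝ) (v u : E d) :
    Continuous (LL r T v u G) := Test.cont_ln (Test.cont_ln hG T u) r v

theorem WW_add {G G' : E d → ℂ} (hG : Continuous G) (hG' : Continuous G') (r T : ℝ)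
    (v u y : E d) : WW r T v u (fun z => G z + G' z) y = WW r T v u G y + WW r T v u G' y := by
  unfold WW
  rw [← TestA.ln_add (continuous_th r) (continuous_ln (continuous_th T) hG T u)
    (continuous_ln (continuous_th T) hG' T u)]
  congr 1
  funext z
  exact TestA.ln_add (continuous_th T) hG hG' T u z

theorem WW_cmul (c : ℂ) (G : E d → ℂ) (r T : ℝ) (v u y : E d) :
    WW r T v u (fun z => c * G z) y = c * WW r T v u G y := by
  unfold WW
  rw [← TestA.ln_cmul]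
  congr 1
  funext z
  exact TestA.ln_cmul c G T u z

theorem LL_add {G G' : E d → ℝ} (hG : Continuous G) (hG' : Continuous G') (r T : ℝ)
    (v u y : E d) : LL r T v u (fun z => G z + G' z) y = LL r T v u G y + LL r T v u G' y := by
  unfold LL
  rw [← TestA.ln_add continuous_const (Test.cont_ln hG T u) (Test.cont_ln hG' T u)]
  congr 1
  funext z
  exact TestA.ln_add continuous_const hG hG' T u z

/-- the window integral of an exact form -/
theorem exact_le {G₁ G₂ : E d → ℂ} {B₁ B₂ : E d → ℝ} (h₁ : ContDiff ℝ 1 G₁) (h₂ : ContDiff ℝ 1 G₂)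
    (c₁ : Continuous B₁) (c₂ : Continuous B₂) (b₁ : ∀ z, ‖G₁ z‖ ≤ B₁ z) (b₂ : ∀ z, ‖G₂ z‖ ≤ B₂ z)
    {r T : ℝ} (hr : 0 < r) (hT : 0 < T) (v u y : E d) :
    ‖WW r T v u (fun z => dd G₁ v z - dd G₂ u z) y‖ ≤
      LL r T v u (fun z => 2 / r * B₁ z + 2 / T * B₂ z) y := by
  have t1 : ∀ {s : ℝ}, 0 < s → th s (-(3 * s)) = 0 := fun {s} hs =>
    th_eq_zero hs (by rw [abs_neg, abs_of_pos (by linarith)]; linarith)
  have t2 : ∀ {s : ℝ}, 0 < s → th s (3 * s) = 0 := fun {s} hs =>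
    th_eq_zero hs (by rw [abs_of_pos (by linarith)]; linarith)
  have d1 := contDiff_ln (continuous_th T) h₁ T u
  have e : (ln T u (th T) fun z => dd G₁ v z - dd G₂ u z) =
      fun z => dd (ln T u (th T) G₁) v z + ln T u (th' T) G₂ z := by
    funext z
    rw [TestA.ln_sub (continuous_th T) (continuous_dd h₁ v) (continuous_dd h₂ u),
      ln_dd (hasDerivAt_th T) (continuous_th' T) h₂ (t1 hT) (t2 hT), dd_ln (continuous_th T) h₁,
      sub_neg_eq_add]
  unfold WW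
  rw [e, TestA.ln_add (continuous_th r) (continuous_dd d1 v)
    (continuous_ln (continuous_th' T) h₂.continuous T u),
    ln_dd (hasDerivAt_th r) (continuous_th' r) d1 (t1 hr) (t2 hr),
    LL_add (G := fun z => 2 / r * B₁ z) (G' := fun z => 2 / T * B₂ z)
      (continuous_const.mul c₁) (continuous_const.mul c₂)]
  have k1 := norm_le hr.le hT.le (abs_th'_le hr) (abs_th T) c₁ b₁ v u y
  have k2 := norm_le hr.le hT.le (abs_th r) (abs_th'_le hT) c₂ b₂ v u y
  simp only [mul_one, one_mul] at k1 k2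
  refine (norm_add_le _ _).trans ?_
  rw [norm_neg]
  exact add_le_add k1 k2

theorem var_le {P : E d → ℂ} {N : E d → ℝ} (hP : ContDiff ℝ 1 P) (hN : Continuous N) {v : E d}
    (h : ∀ z, ‖dd P v z‖ ≤ N z) {r : ℝ} (z : E d) {τ : ℝ} (hτ : τ ∈ Icc (-(3 * r)) (3 * r)) :
    ‖P (z + τ • v) - P z‖ ≤ ln r v (fun _ => 1) N z := by
  have hr : -(3 * r) ≤ 3 * r := hτ.1.trans hτ.2
  have c1 : Continuous fun t : ℝ => dd P v (z + t • v) := (continuous_dd hP v).comp (by fun_prop)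
  have c2 : Continuous fun t : ℝ => N (z + t • v) := hN.comp (by fun_prop)
  have e := intervalIntegral.integral_eq_sub_of_hasDerivAt (a := 0) (b := τ)
    (f := fun t : ℝ => P (z + t • v)) (fun t _ => hasDerivAt_line hP v z t)
    (c1.intervalIntegrable _ _)
  simp only [zero_smul, add_zero] at e
  rw [← e]
  have h1 : ‖∫ t in (0 : ℝ)..τ, dd P v (z + t • v)‖ ≤ |∫ t in (0 : ℝ)..τ, N (z + t • v)| :=
    intervalIntegral.norm_integral_le_abs_of_norm_le (ae_of_all _ fun t => h _)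
      (c2.intervalIntegrable _ _)
  have h0 : ∀ t : ℝ, 0 ≤ N (z + t • v) := fun t => (norm_nonneg _).trans (h _)
  have h2 : |∫ t in (0 : ℝ)..τ, N (z + t • v)| ≤ |∫ t in (-(3 * r))..(3 * r), N (z + t • v)| := by
    refine intervalIntegral.abs_integral_mono_interval ?_ (ae_of_all _ fun t => h0 t)
      (c2.intervalIntegrable _ _)
    rw [uIoc_of_le hr]
    intro t ht
    rw [mem_uIoc] at ht
    have := hτ.1
    have := hτ.2
    rcases ht with ht | ht
    · exact ⟨by linarith [ht.1], by linarith [ht.2]⟩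
    · exact ⟨by linarith [ht.1], by linarith [ht.2]⟩
  rw [abs_of_nonneg (intervalIntegral.integral_nonneg hr fun t _ => h0 t)] at h2
  unfold ln
  simp only [one_smul]
  exact h1.trans h2

/-- a slowly varying function against the window profile -/
theorem slow {P : E d → ℂ} {N : E d → ℝ} (hP : ContDiff ℝ 1 P) (hN : Continuous N) {v : E d}
    (h : ∀ z, ‖dd P v z‖ ≤ N z) {r : ℝ} (hr : 0 < r) (y : E d) :
    3 * r * (‖P y‖ - ln r v (fun _ => 1) N y) ≤ ‖ln r v (th r) P y‖ := by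
  have e1 : ln r v (th r) (fun _ => P y) y = (3 * r) • P y := by
    unfold ln
    rw [intervalIntegral.integral_smul_const, integral_th hr]
  have e2 : ln r v (th r) (fun _ => ln r v (fun _ => 1) N y) y =
      3 * r * ln r v (fun _ => 1) N y := by
    generalize ln r v (fun _ => 1) N y = c
    unfold ln
    rw [intervalIntegral.integral_smul_const, integral_th hr, smul_eq_mul]
  have h1 : ‖ln r v (th r) (fun z => P z - P y) y‖ ≤
      ln r v (th r) (fun _ => ln r v (fun _ => 1) N y) y := by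
    refine norm_ln_le (continuous_th r) continuous_const hr.le v y fun τ hτ => ?_
    rw [abs_of_nonneg (th_mem r τ).1]
    exact mul_le_mul_of_nonneg_left (var_le hP hN h y hτ) (th_mem r τ).1
  rw [TestA.ln_sub (continuous_th r) hP.continuous continuous_const, e1, e2] at h1
  have h2 := norm_sub_norm_le ((3 * r) • P y) (ln r v (th r) P y)
  rw [norm_sub_rev, norm_smul, Real.norm_of_nonneg (by positivity)] at h2
  linarith

theorem gd_le {r T : ℝ} {y₀ : E d} {G : E d → ℝ} {B m : ℝ} (h : Area.Gd T y₀ G B m)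
    (hr : r ≤ T) : Area.Gd r y₀ G B m := by
  have hB : 0 ≤ B := (h.nn y₀).trans (h.le y₀)
  have := one_le_Cw (d := d)
  refine ⟨h.c, h.nn, h.le, h.mean, le_trans ?_ h.sm⟩
  exact mul_le_mul_of_nonneg_left hr (by positivity)

theorem gd_LL {r T : ℝ} {y₀ : E d} {G : E d → ℝ} {B m : ℝ} (h : Area.Gd T y₀ G B m) (hr : 0 < r)
    (hT : r ≤ T) {v u : E d} (hv : ‖v‖ = 1) (hu : ‖u‖ = 1) :
    cv 1 (LL r T v u G) y₀ ≤ 38 * (r * T * m) := by
  have h1 := (gd_le (h.ln (hr.trans_le hT) hu) hT).ln hr hv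
  have hm : 0 ≤ m := (cv_nonneg h.nn 1 y₀).trans h.mean
  have : 0 ≤ r * T * m := by have := hr.trans_le hT; positivity
  have h2 := h1.mean
  unfold LL
  linarith

/-! ### the derivative of the phase -/

theorem bd_clamp (x : ℝ) : bd x = 60 * (max 0 (min x 1) * (1 - max 0 (min x 1)) *
    (1 - 2 * max 0 (min x 1))) := by
  unfold bd
  rcases le_total x 0 with h | h
  · rw [Prof.max_eq_zero (Or.inl h), min_eq_left (by linarith), max_eq_left h]; ring
  · rcases le_total x 1 with h' | h'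
    · rw [min_eq_left h', max_eq_right h, max_eq_left (mul_nonneg h (by linarith))]; ring
    · rw [Prof.max_eq_zero (Or.inr h'), min_eq_right h', max_eq_right zero_le_one]; ring

theorem bd_lip (x y : ℝ) : |bd x - bd y| ≤ 500 * |x - y| := by
  rw [bd_clamp, bd_clamp]
  have h1 : |max 0 (min x 1) - max 0 (min y 1)| ≤ |x - y| := by
    refine (abs_max_sub_max_le_max _ _ _ _).trans ?_
    rw [sub_self, abs_zero]
    refine max_le (abs_nonneg _) ((abs_min_sub_min_le_max _ _ _ _).trans ?_)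
    rw [sub_self, abs_zero]
    exact max_le le_rfl (abs_nonneg _)
  have m : ∀ t : ℝ, 0 ≤ max 0 (min t 1) ∧ max 0 (min t 1) ≤ 1 := fun t =>
    ⟨le_max_left _ _, max_le zero_le_one (min_le_right _ _)⟩
  obtain ⟨a0, a1⟩ := m x
  obtain ⟨b0, b1⟩ := m y
  generalize max 0 (min x 1) = a at *
  generalize max 0 (min y 1) = b at *
  have e : 60 * (a * (1 - a) * (1 - 2 * a)) - 60 * (b * (1 - b) * (1 - 2 * b)) =
      60 * (1 - 3 * (a + b) + 2 * (a ^ 2 + a * b + b ^ 2)) * (a - b) := by ring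
  rw [e, abs_mul]
  refine mul_le_mul ?_ h1 (abs_nonneg _) (by norm_num)
  rw [abs_le]
  constructor <;> nlinarith [mul_nonneg a0 b0, mul_nonneg a0 (sub_nonneg.2 a1),
    mul_nonneg b0 (sub_nonneg.2 b1), mul_nonneg a0 (sub_nonneg.2 b1)]

theorem bd_zero {x : ℝ} (h : x ≤ 0 ∨ 1 ≤ x) : bd x = 0 := by
  unfold bd
  rw [Prof.max_eq_zero h]; ring

theorem sp_bd : Sp fun x => bd (2 * x) := fun x hx => by
  refine bd_zero ?_
  rcases le_abs.1 hx with h | h
  · right; linarith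
  · left; linarith

variable {ε : ℝ}

/-- the derivative of the step profile -/
def bp (ε t : ℝ) : ℝ := bd (2 * xi ε t) * (4 / ε ^ 140)

theorem hasDerivAt_bk (h0 : 0 < ε) (h1 : ε ≤ 1 / 2) (t : ℝ) :
    HasDerivAt (fun t => bk ε 2 0 t * ((2 : ℕ) / ε ^ 70)) (bp ε t) t := by
  have s1 : Sp fun x => bb (((2 : ℕ) : ℝ) * x - ((0 : ℕ) : ℝ)) := sp_bk (by norm_num)
  have s2 : Sp fun x => 2 * bd (2 * x) := fun x hx => by
    have := sp_bd x hx
    simp only at this ⊢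
    rw [this, mul_zero]
  have h2 := hasDerivAt_xi h0 h1 s1 s2 (fun x => by
    have := (hasDerivAt_bb (2 * x)).comp x ((hasDerivAt_id' x).const_mul (2 : ℝ))
    simp only [Nat.cast_ofNat, Nat.cast_zero, sub_zero]
    refine HasDerivAt.congr_deriv this ?_
    ring) t
  refine HasDerivAt.congr_deriv (h2.mul_const (((2 : ℕ) : ℝ) / ε ^ 70)) ?_
  unfold bp
  push_cast
  field_simp
  ring

theorem cont_bp (h0 : 0 < ε) (h1 : ε ≤ 1 / 2) : Continuous (bp ε) :=
  (continuous_xi h0 h1 sp_bd (continuous_bd.comp (by fun_prop))).mul continuous_const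

theorem abs_bp (h0 : 0 < ε) (t : ℝ) : |bp ε t| ≤ 60 / ε ^ 140 * W1 ε t := by
  have hW := W1_mem ε t
  by_cases h : 2 * xi ε t ≤ 0 ∨ 1 ≤ 2 * xi ε t
  · unfold bp
    rw [bd_zero h, zero_mul, abs_zero]
    have := hW.1
    positivity
  · push Not at h
    have e : W1 ε t = 1 := tr_eq_one (by linarith [h.1]) (by linarith [h.2])
    unfold bp
    rw [e, abs_mul, abs_of_pos (show (0 : ℝ) < 4 / ε ^ 140 by positivity)]
    refine (mul_le_mul_of_nonneg_right (abs_bd_le _) (by positivity)).trans (le_of_eq ?_)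
    ring

theorem bp_lip (h0 : 0 < ε) (h1 : ε ≤ 1 / 2) (t t' : ℝ) :
    |bp ε t - bp ε t'| ≤ 4000 / ε ^ 210 * |t - t'| := by
  have h2 := xi_lip h0 h1 sp_bd (K := 1000) (fun x y => by
    refine (bd_lip _ _).trans (le_of_eq ?_)
    rw [← mul_sub, abs_mul, abs_two]; ring) t t'
  unfold bp
  rw [← sub_mul, abs_mul, abs_of_pos (show (0 : ℝ) < 4 / ε ^ 140 by positivity)]
  refine (mul_le_mul_of_nonneg_right h2 (by positivity)).trans (le_of_eq ?_)
  field_simp
  ring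

/-- the derivative of the phase in the second variable -/
def php (ε ω q p : ℝ) : ℂ := Complex.exp (Complex.I * (ω * q : ℝ)) * (bp ε p : ℝ)

theorem norm_php (h0 : 0 < ε) (ω q p : ℝ) : ‖php ε ω q p‖ ≤ 60 / ε ^ 140 * W1 ε p := by
  unfold php
  rw [norm_mul, Complex.norm_exp_I_mul_ofReal, one_mul, Complex.norm_real, Real.norm_eq_abs]
  exact abs_bp h0 p

theorem php_lip (h0 : 0 < ε) (h1 : ε ≤ 1 / 2) {ω : ℝ} (o1 : 0 ≤ ω) (o2 : ω ≤ 1 / ε ^ 71)
    (q p q' p' : ℝ) :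
    ‖php ε ω q p - php ε ω q' p'‖ ≤ 4000 / ε ^ 211 * (|q - q'| + |p - p'|) := by
  have h : php ε ω q p - php ε ω q' p' =
      (Complex.exp (Complex.I * (ω * q : ℝ)) - Complex.exp (Complex.I * (ω * q' : ℝ))) *
        (bp ε p : ℝ) + Complex.exp (Complex.I * (ω * q' : ℝ)) * (bp ε p - bp ε p' : ℝ) := by
    unfold php
    push_cast
    ring
  rw [h]
  refine (norm_add_le _ _).trans ?_
  rw [norm_mul, norm_mul, Complex.norm_exp_I_mul_ofReal, one_mul, Complex.norm_real,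
    Complex.norm_real, Real.norm_eq_abs, Real.norm_eq_abs]
  have c1 := TestA.exp_lip (ω * q) (ω * q')
  rw [← mul_sub, abs_mul, abs_of_nonneg o1] at c1
  have c2 := bp_lip h0 h1 p p'
  have c3 : |bp ε p| ≤ 60 / ε ^ 140 :=
    (abs_bp h0 p).trans (mul_le_of_le_one_right (by positivity) (W1_mem ε p).2)
  have c4 : ‖Complex.exp (Complex.I * (ω * q : ℝ)) - Complex.exp (Complex.I * (ω * q' : ℝ))‖ *
      |bp ε p| ≤ 4000 / ε ^ 211 * |q - q'| := by
    calc _ ≤ (1 / ε ^ 71 * |q - q'|) * (60 / ε ^ 140) :=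
          mul_le_mul (c1.trans (by gcongr)) c3 (abs_nonneg _) (by positivity)
      _ = 60 / ε ^ 211 * |q - q'| := by field_simp
      _ ≤ _ := by gcongr; norm_num
  have c5 : 4000 / ε ^ 210 ≤ 4000 / ε ^ 211 :=
    div_le_div_of_nonneg_left (by norm_num) (by positivity)
      (pow_le_pow_of_le_one h0.le (by linarith) (by norm_num))
  have c6 := mul_le_mul_of_nonneg_right c5 (abs_nonneg (p - p'))
  linarith

theorem cont_php (h0 : 0 < ε) (h1 : ε ≤ 1 / 2) (ω : ℝ) {q p : E d → ℝ} (hq : Continuous q)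
    (hp : Continuous p) : Continuous fun z => php ε ω (q z) (p z) := by
  have := (cont_bp h0 h1).comp hp
  unfold php
  exact ((TestA.contDiff_ex ω).continuous.comp hq).mul (Complex.continuous_ofReal.comp this)

theorem curl (h0 : 0 < ε) (h1 : ε ≤ 1 / 2) (l : ℝ) {q q' p : E d → ℝ} (hq : ContDiff ℝ 1 q)
    (hp : ContDiff ℝ 1 p) (v u z : E d) :
    dd q' u z • dd (fun z => phk ε 2 l 0 (q z) (p z)) v z -
        dd q' v z • dd (fun z => phk ε 2 l 0 (q z) (p z)) u z =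
      Complex.I * (om ε 2 l 0 : ℝ) * (jac q q' v u z • phk ε 2 l 0 (q z) (p z)) +
        jac p q' v u z • php ε (om ε 2 l 0) (q z) (p z) := by
  have hb : ContDiff ℝ 1 fun t => bk ε 2 0 t * ((2 : ℕ) / ε ^ 70) :=
    (TestA.contDiff_bk h0 h1 (by norm_num)).mul contDiff_const
  have key : ∀ w, dd (fun z => phk ε 2 l 0 (q z) (p z)) w z =
      (bk ε 2 0 (p z) * ((2 : ℕ) / ε ^ 70)) • dd q w z •
        (Complex.I * (om ε 2 l 0 : ℝ) * Complex.exp (Complex.I * (om ε 2 l 0 * q z : ℝ))) +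
      (dd p w z • bp ε (p z)) • Complex.exp (Complex.I * (om ε 2 l 0 * q z : ℝ)) := fun w => by
    have k1 : ContDiff ℝ 1 fun z => bk ε 2 0 (p z) * ((2 : ℕ) / ε ^ 70) := hb.comp hp
    have k2 : ContDiff ℝ 1 fun z => Complex.exp (Complex.I * (om ε 2 l 0 * q z : ℝ)) :=
      (TestA.contDiff_ex _).comp hq
    rw [TestA.phk_eq, dd_smul k1 k2, dd_comp hq w z (TestA.hasDerivAt_ex _ _),
      dd_comp (φ := fun t => bk ε 2 0 t * ((2 : ℕ) / ε ^ 70)) hp w z (hasDerivAt_bk h0 h1 _)]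
  rw [key, key]
  simp only [jac, phk, php, Complex.real_smul, smul_eq_mul]
  push_cast
  ring

end Nb3

end Pool.Agent.MP_20bec2_an.b2

end
end MrgPart0

-- ======== part 1: formerly Pool.Agent.MP_20bec2_an.b2.Nb3
section MrgPart1

/-! A minor of two slowly moving coordinates is small: slab form. -/

set_option autoImplicit false

open MeasureTheory Set Metric Filter Topology

noncomputable section

namespace Pool.Agent.MP_20bec2_an.b2

open Pool.Agent.MP_20bec2_an.h7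

namespace Nb3

variable {d : ℕ} {ε β Λ K : ℝ}

structure Nm (d : ℕ) (ε β Λ K : ℝ) : Prop where
  e0 : 0 < ε
  e1 : 100000 * ε ≤ 1
  eC : 1000 * Cw d * ε ≤ 1
  b0 : ε ≤ β ^ 4
  bp : 0 < β
  b1 : 100000 * β ≤ 1
  L0 : 1 / 8 ≤ Λ
  L1 : Λ ≤ ε⁻¹
  K1 : 1 ≤ K

namespace Nm

variable (h : Nm d ε β Λ K)
include h

theorem e2 : ε ≤ 1 / 2 := by linarith [h.e1]
theorem e3 : ε ≤ 1 := by linarith [h.e1]
theorem Lp : 0 < Λ := by linarith [h.L0]
theorem Kp : 0 < K := by linarith [h.K1]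
theorem bl : β ≤ 1 := by linarith [h.b1]
theorem pw {a b : ℕ} (hab : a ≤ b) : ε ^ b ≤ ε ^ a := pow_le_pow_of_le_one h.e0.le h.e3 hab
theorem eb2 : ε ≤ β ^ 2 := h.b0.trans (pow_le_pow_of_le_one h.bp.le h.bl (by norm_num))
theorem eb : ε ≤ β := by
  have := pow_le_pow_of_le_one h.bp.le h.bl (show 1 ≤ 2 by norm_num)
  linarith [h.eb2]
theorem sm {a : ℕ} (ha : 1 ≤ a) : 100000 * ε ^ a ≤ 1 := by
  have := h.pw ha
  linarith [h.e1]
theorem Le : Λ * ε ≤ 1 := by
  have := mul_le_mul_of_nonneg_right h.L1 h.e0.le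
  rwa [inv_mul_cancel₀ h.e0.ne'] at this
theorem i1 : 1 ≤ ε⁻¹ := one_le_inv_iff₀.2 ⟨h.e0, h.e3⟩
theorem i2 : ε⁻¹ ≤ ε⁻¹ ^ 2 := by nlinarith [h.i1]
theorem l2 : ((2 : ℕ) : ℝ) ≤ 1 / (100 * β) := by
  have := h.bp
  rw [le_div_iff₀ (by positivity)]
  push_cast
  linarith [h.b1]
theorem l1 : (1 : ℝ) ≤ 1 / (100 * β) := le_trans (by norm_num) h.l2
theorem lsq : (1 / (100 * β)) ^ 2 * ε ≤ 1 := by
  have := h.bp
  rw [div_pow, one_pow, div_mul_eq_mul_div, one_mul, div_le_one (by positivity)]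
  nlinarith [h.eb2, pow_pos this 2]
theorem lfour : (1 / (100 * β)) ^ 4 * ε ≤ 1 := by
  have := h.bp
  rw [div_pow, one_pow, div_mul_eq_mul_div, one_mul, div_le_one (by positivity)]
  nlinarith [h.b0, pow_pos this 4]
theorem om_eq : om ε 2 (1 / (100 * β)) 0 = 1 / (50 * β * ε ^ 70) := by
  have := h.bp; have := h.e0
  unfold om
  push_cast
  field_simp
  ring
theorem om_le : 1 / (50 * β * ε ^ 70) ≤ 1 / ε ^ 71 := by
  have := h.bp; have := h.e0
  refine one_div_le_one_div_of_le (by positivity) ?_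
  rw [pow_succ, mul_comm]
  exact mul_le_mul_of_nonneg_right (by linarith [h.eb]) (by positivity)
theorem rp : 0 < Λ * β * ε ^ 70 / (10 * K) := by
  have := h.bp; have := h.e0; have := h.Lp; have := h.Kp
  positivity
theorem r1 : Λ * β * ε ^ 70 / (10 * K) ≤ Λ * β * ε ^ 70 / 10 := by
  have := h.bp; have := h.e0; have := h.Lp
  exact div_le_div_of_nonneg_left (by positivity) (by norm_num) (by linarith [h.K1])
theorem rT : Λ * β * ε ^ 70 / (10 * K) ≤ ε ^ 52 := by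
  have := h.bp; have := h.e0; have := h.Lp
  refine h.r1.trans ?_
  calc Λ * β * ε ^ 70 / 10 = (Λ * ε) * β * ε ^ 69 / 10 := by ring
    _ ≤ 1 * 1 * ε ^ 52 / 10 := by
      have a1 := h.Le
      have a2 := h.bl
      have a3 := h.pw (show 52 ≤ 69 by norm_num)
      gcongr
    _ ≤ _ := by linarith [pow_pos h.e0 52]
theorem CT : Cw d * ε ^ 52 ≤ 1 / 200 := by
  have := one_le_Cw (d := d)
  have h2 := mul_le_mul_of_nonneg_left (h.pw (show 1 ≤ 52 by norm_num)) (by linarith : 0 ≤ Cw d)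
  rw [pow_one] at h2
  nlinarith [h.eC]
theorem m1 : ε ^ 22 ≤ β * Λ * ε ^ 20 := by
  have := h.bp; have := h.e0
  calc ε ^ 22 = ε * ε * ε ^ 20 := by ring
    _ ≤ _ := by
      gcongr
      · exact h.eb
      · linarith [h.L0, h.e1]
theorem m2 : ε ^ 22 ≤ K * ε ^ 20 := by
  have := h.pw (show 20 ≤ 22 by norm_num)
  nlinarith [h.K1, pow_pos h.e0 20]
theorem m3 : ε ^ 22 ≤ β * K * ε ^ 20 := by
  have := h.bp; have := h.e0
  calc ε ^ 22 = ε * ε * ε ^ 20 := by ring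
    _ ≤ _ := by
      gcongr
      · exact h.eb
      · linarith [h.K1, h.e1]

theorem gd {y₀ : E d} {G : E d → ℝ} {m : ℝ} (hG : Continuous G) (h0 : ∀ z, 0 ≤ G z)
    (h1 : ∀ z, G z ≤ 4 * ε⁻¹ ^ 2) (hm : cv 1 G y₀ ≤ m) (h2 : ε ^ 22 ≤ m) :
    Area.Gd (ε ^ 52) y₀ G (4 * ε⁻¹ ^ 2) m := by
  refine ⟨hG, h0, h1, hm, ?_⟩
  have := h.e0
  have hC := one_le_Cw (d := d)
  calc Cw d * (4 * ε⁻¹ ^ 2) * ε ^ 52 = (1000 * Cw d * ε) * ε ^ 49 / 250 := by field_simp; ring
    _ ≤ 1 * ε ^ 22 / 250 := by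
      have a1 := h.eC
      have a3 := h.pw (show 22 ≤ 49 by norm_num)
      gcongr
    _ ≤ _ := by linarith [pow_pos h.e0 22]

theorem gdW {y₀ : E d} {P X : E d → ℝ} {m : ℝ} (hP : Continuous P) (hX : Continuous X)
    (h1 : ∀ z, |X z| ≤ 4 * ε⁻¹ ^ 2) (hm : cv 1 (fun y => W1 ε (P y) * |X y|) y₀ ≤ m)
    (h2 : ε ^ 22 ≤ m) :
    Area.Gd (ε ^ 52) y₀ (fun y => W1 ε (P y) * |X y|) (4 * ε⁻¹ ^ 2) m :=
  h.gd (((Test.cont_W1 h.e0 h.e2).comp hP).mul hX.abs)
    (fun _ => mul_nonneg (W1_mem _ _).1 (abs_nonneg _))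
    (fun z => (mul_le_of_le_one_left (abs_nonneg _) (W1_mem _ _).2).trans (h1 z)) hm h2

theorem gdW1 {y₀ : E d} {P : E d → ℝ} (hP : Continuous P)
    (hm : cv 1 (fun y => W1 ε (P y)) y₀ ≤ 28 * ε ^ 20) :
    Area.Gd (ε ^ 52) y₀ (fun y => W1 ε (P y)) (4 * ε⁻¹ ^ 2) (28 * ε ^ 20) :=
  h.gd ((Test.cont_W1 h.e0 h.e2).comp hP) (fun z => (W1_mem _ _).1)
    (fun z => (W1_mem _ _).2.trans (by nlinarith [h.i1]))
    hm (by linarith [h.pw (show 20 ≤ 22 by norm_num), pow_pos h.e0 20])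

theorem near {G : E d → ℝ} (hG : Sm ε⁻¹ G) (y : E d) :
    ∀ z ∈ closedBall y (ε ^ 120), |G z - cv (ε ^ 120) G y| ≤ 2 * ε ^ 119 := fun z hz => by
  have h0 := h.e0
  have a1 := hG.lip z y
  have a2 := hG.cv_sub (show (0 : ℝ) ≤ ε ^ 120 by positivity) y
  rw [mem_closedBall, dist_eq_norm] at hz
  have a3 : ε⁻¹ * ε ^ 120 = ε ^ 119 := by field_simp
  have a4 : ε⁻¹ * ‖z - y‖ ≤ ε⁻¹ * ε ^ 120 := by gcongr
  rw [Real.norm_eq_abs] at a1 a2
  have := abs_sub_le (G z) (G y) (cv (ε ^ 120) G y)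
  rw [abs_sub_comm (G y)] at this
  linarith

end Nm

theorem gd_mono {r : ℝ} {y₀ : E d} {G G' : E d → ℝ} {B m : ℝ} (h : Area.Gd r y₀ G B m)
    (hG : Continuous G') (h0 : ∀ z, 0 ≤ G' z) (h1 : ∀ z, G' z ≤ G z) : Area.Gd r y₀ G' B m :=
  ⟨hG, h0, fun z => (h1 z).trans (h.le z),
    (cv_mono hG h.c zero_le_one fun z _ => h1 z).trans h.mean, h.sm⟩

theorem bk_le (ε t : ℝ) : bk ε 2 0 t ≤ 2 * W1 ε t := by
  have := sum_bk_le ε 2 t
  rw [Finset.sum_range_succ, Finset.sum_range_one] at this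
  linarith [TestA.bk_nonneg (ε := ε) (m := 2) (k := 1) t]

theorem Wk_le (ε t : ℝ) : Wk ε 2 0 t ≤ 5 * W1 ε t := by
  have := sum_Wk_le ε (le_refl 2) t
  rw [Finset.sum_range_succ, Finset.sum_range_one] at this
  linarith [(Wk_mem ε 2 1 t).1]

theorem norm_ph (h0 : 0 < ε) (l a t : ℝ) : ‖phk ε 2 l 0 a t‖ ≤ 4 / ε ^ 70 * W1 ε t := by
  rw [TestA.norm_phk h0]
  refine (mul_le_mul_of_nonneg_right (bk_le ε t) (by positivity)).trans (le_of_eq ?_)
  push_cast
  ring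

/-- the upper bound from the exact form -/
theorem upper (h : Nm d ε β Λ K) {q q' p : E d → ℝ} {v u y₀ : E d} {J : ℝ} (hq : Sm ε⁻¹ q)
    (hq' : Sm ε⁻¹ q') (hp : Sm ε⁻¹ p) (hv : ‖v‖ = 1) (hu : ‖u‖ = 1) (hJ : |J| ≤ 2 * ε⁻¹ ^ 2)
    (H1 : cv 1 (fun y => W1 ε (cv (ε ^ 120) p y)) y₀ ≤ 28 * ε ^ 20)
    (H4 : cv 1 (fun y => W1 ε (cv (ε ^ 120) p y) * |dd (cv (ε ^ 120) q') u y|) y₀ ≤
      β * Λ * ε ^ 20)
    (H6 : cv 1 (fun y => W1 ε (cv (ε ^ 120) p y) * |cv (ε ^ 120) (jac p q' v u) y|) y₀ ≤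
      K * ε ^ 20)
    (H7 : cv 1 (fun y => W1 ε (cv (ε ^ 120) p y) * |cv (ε ^ 120) (jac q q' v u) y - J|) y₀ ≤
      β * K * ε ^ 20) :
    1 / (50 * β * ε ^ 70) * |J| * cv 1 (fun y => ‖WW (Λ * β * ε ^ 70 / (10 * K)) (ε ^ 52) v u
      (fun z => phk ε 2 (1 / (100 * β)) 0 (cv (ε ^ 120) q z) (cv (ε ^ 120) p z)) y‖) y₀ ≤
      540 * (β * Λ * ε ^ 2) := by
  have h0 := h.e0; have h1 := h.e2; have bp := h.bp; have Lp := h.Lp; have Kp := h.Kp
  have hμ : (0 : ℝ) ≤ ε ^ 120 := by positivity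
  have hT : (0 : ℝ) < ε ^ 52 := by positivity
  have hr := h.rp
  have k02 : 0 < 2 := by norm_num
  set ω : ℝ := 1 / (50 * β * ε ^ 70) with hω
  have ω0 : 0 < ω := by positivity
  set r : ℝ := Λ * β * ε ^ 70 / (10 * K) with hrd
  set l : ℝ := 1 / (100 * β) with hl
  set ph : E d → ℂ := fun z => phk ε 2 l 0 (q z) (p z) with hph
  set pb : E d → ℂ := fun z => phk ε 2 l 0 (cv (ε ^ 120) q z) (cv (ε ^ 120) p z) with hpb
  set pp : E d → ℂ := fun z => php ε ω (q z) (p z) with hpp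
  set w : E d → ℝ := fun z => W1 ε (cv (ε ^ 120) p z) with hw
  have w0 : ∀ z, 0 ≤ w z := fun z => (W1_mem _ _).1
  have cP := (hp.cv (ε ^ 120)).cont
  have cph : ContDiff ℝ 1 ph := TestA.contDiff_ph h0 h1 k02 hq.cd1 hp.cd1
  have cpb : Continuous pb :=
    (TestA.contDiff_ph h0 h1 k02 (hq.cv _).cd1 (hp.cv _).cd1).continuous
  have cpp : Continuous pp := cont_php h0 h1 ω hq.cont hp.cont
  have close : ∀ y, ∀ z ∈ closedBall y (ε ^ 120), ‖ph z - pb y‖ ≤ 60 / ε ^ 23 := fun y z hz => by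
    refine (TestA.phk_lip h0 h1 le_rfl k02 h.l2 h.lsq _ _ _ _).trans ?_
    calc _ ≤ 15 / ε ^ 142 * (2 * ε ^ 119 + 2 * ε ^ 119) := by
          gcongr
          · exact h.near hq y z hz
          · exact h.near hp y z hz
      _ = _ := by field_simp; ring
  have close' : ∀ y, ∀ z ∈ closedBall y (ε ^ 120),
      ‖pp z - php ε ω (cv (ε ^ 120) q y) (cv (ε ^ 120) p y)‖ ≤ 16000 / ε ^ 92 := fun y z hz => by
    refine (php_lip h0 h1 ω0.le h.om_le _ _ _ _).trans ?_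
    calc _ ≤ 4000 / ε ^ 211 * (2 * ε ^ 119 + 2 * ε ^ 119) := by
          gcongr
          · exact h.near hq y z hz
          · exact h.near hp y z hz
      _ = _ := by field_simp; ring
  have npb : ∀ z, ‖pb z‖ ≤ 4 / ε ^ 70 * w z := fun z => norm_ph h0 _ _ _
  have e1 : ∀ a : E d, ‖a‖ = 1 → ∀ y, ‖cv (ε ^ 120) (fun z => dd q' a z • ph z) y‖ ≤
      4 / ε ^ 70 * (w y * |dd (cv (ε ^ 120) q') a y|) + 60 / ε ^ 24 := fun a ha y => by
    have h2 := cv_smul_sub (continuous_dd hq'.cd1 a) cph.continuous hμ (pb y)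
      (fun z _ => hq'.dd_le ha z) (close y)
    rw [← dd_cv hq'.cd1] at h2
    have h3 : 60 / ε ^ 23 * ε⁻¹ = 60 / ε ^ 24 := by field_simp
    have h4 := norm_sub_norm_le (cv (ε ^ 120) (fun z => dd q' a z • ph z) y)
      (dd (cv (ε ^ 120) q') a y • pb y)
    rw [norm_smul, Real.norm_eq_abs] at h4
    have h5 := mul_le_mul_of_nonneg_left (npb y) (abs_nonneg (dd (cv (ε ^ 120) q') a y))
    linarith
  have cj := continuous_jac hq.cd1 hq'.cd1 v u
  have cj' := continuous_jac hp.cd1 hq'.cd1 v u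
  have c1 : ∀ a, ContDiff ℝ 1 (cv (ε ^ 120) fun z => dd q' a z • ph z) := fun a =>
    contDiff_cv ((contDiff_dd hq'.cd a).smul cph) _
  have k1 : Continuous fun z => jac q q' v u z • ph z := cj.smul cph.continuous
  have k2 : Continuous fun z => jac p q' v u z • pp z := cj'.smul cpp
  -- the remainder
  set R : E d → ℂ := fun y => Complex.I * ω * (J • pb y - cv (ε ^ 120)
    (fun z => jac q q' v u z • ph z) y) - cv (ε ^ 120) (fun z => jac p q' v u z • pp z) y with hR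
  have cR : Continuous R := by
    have a1 := continuous_cv k1 (ε ^ 120)
    have a2 := continuous_cv k2 (ε ^ 120)
    exact (continuous_const.mul ((cpb.const_smul J).sub a1)).sub a2
  have dec : (fun y => Complex.I * ω * J * pb y) = fun y =>
      (dd (cv (ε ^ 120) fun z => dd q' u z • ph z) v y -
        dd (cv (ε ^ 120) fun z => dd q' v z • ph z) u y) + R y := by
    funext y
    rw [cv_curl cph hq'.cd (ε ^ 120) v u y, show (fun z => dd q' u z • dd ph v z -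
      dd q' v z • dd ph u z) = fun z => Complex.I * ω * (jac q q' v u z • ph z) +
        jac p q' v u z • pp z from funext fun z => by
          have := curl h0 h1 l (q' := q') hq.cd1 hp.cd1 v u z
          rw [h.om_eq] at this
          exact this,
      cv_add (G := fun z => Complex.I * ω * (jac q q' v u z • ph z)) (continuous_const.mul k1) k2,
      cv_cmul]
    simp only [hR, Complex.real_smul]
    ring
  have nR : ∀ y, ‖R y‖ ≤ 4 * ω / ε ^ 70 * (w y * |cv (ε ^ 120) (jac q q' v u) y - J|) +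
      60 / ε ^ 140 * (w y * |cv (ε ^ 120) (jac p q' v u) y|) +
      (ω * (120 / ε ^ 25) + 32000 / ε ^ 94) := fun y => by
    have a1 := cv_smul_sub cj cph.continuous hμ (pb y)
      (fun z _ => abs_jac_le hq hq' hv hu z) (close y)
    have a2 := cv_smul_sub cj' cpp hμ _ (fun z _ => abs_jac_le hp hq' hv hu z) (close' y)
    have a3 : 60 / ε ^ 23 * (2 * ε⁻¹ ^ 2) = 120 / ε ^ 25 := by field_simp; ring
    have a4 : 16000 / ε ^ 92 * (2 * ε⁻¹ ^ 2) = 32000 / ε ^ 94 := by field_simp; ring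
    rw [a3] at a1
    rw [a4] at a2
    have a5 := norm_sub_norm_le (cv (ε ^ 120) (fun z => jac p q' v u z • pp z) y)
      (cv (ε ^ 120) (jac p q' v u) y • php ε ω (cv (ε ^ 120) q y) (cv (ε ^ 120) p y))
    rw [norm_smul, Real.norm_eq_abs] at a5
    have a6 := mul_le_mul_of_nonneg_left (norm_php h0 ω (cv (ε ^ 120) q y) (cv (ε ^ 120) p y))
      (abs_nonneg (cv (ε ^ 120) (jac p q' v u) y))
    have a7 : ‖J • pb y - cv (ε ^ 120) (fun z => jac q q' v u z • ph z) y‖ ≤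
        |cv (ε ^ 120) (jac q q' v u) y - J| * (4 / ε ^ 70 * w y) + 120 / ε ^ 25 := by
      refine (norm_sub_le_norm_sub_add_norm_sub _ (cv (ε ^ 120) (jac q q' v u) y • pb y) _).trans
        (add_le_add ?_ (by rwa [norm_sub_rev]))
      rw [← sub_smul, norm_smul, Real.norm_eq_abs, abs_sub_comm]
      exact mul_le_mul_of_nonneg_left (npb y) (abs_nonneg _)
    refine (norm_sub_le _ _).trans ?_
    rw [norm_mul, norm_mul, Complex.norm_I, one_mul, Complex.norm_real,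
      Real.norm_of_nonneg ω0.le]
    have a8 := mul_le_mul_of_nonneg_left a7 ω0.le
    have a9 : ω * (|cv (ε ^ 120) (jac q q' v u) y - J| * (4 / ε ^ 70 * w y) + 120 / ε ^ 25) =
        4 * ω / ε ^ 70 * (w y * |cv (ε ^ 120) (jac q q' v u) y - J|) + ω * (120 / ε ^ 25) := by
      ring
    have a10 : |cv (ε ^ 120) (jac p q' v u) y| * (60 / ε ^ 140 * W1 ε (cv (ε ^ 120) p y)) =
        60 / ε ^ 140 * (w y * |cv (ε ^ 120) (jac p q' v u) y|) := by
      simp only [hw]; ring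
    linarith
  have bj : ∀ {a b : E d → ℝ}, Sm ε⁻¹ a → Sm ε⁻¹ b → ∀ y,
      |cv (ε ^ 120) (jac a b v u) y| ≤ 2 * ε⁻¹ ^ 2 := fun {a b} ha hb y =>
    (norm_cv_le (G := jac a b v u) (y := y) hμ fun z _ => abs_jac_le ha hb hv hu z :)
  have i2 : 0 ≤ ε⁻¹ ^ 2 := by positivity
  have g1 := h.gdW1 cP H1
  have g4 := h.gdW cP (continuous_dd (hq'.cv _).cd1 u)
    (fun z => ((hq'.cv _).dd_le hu z).trans (by linarith [h.i2])) H4 h.m1
  have g6 := h.gdW cP (continuous_cv cj' _) (fun z => (bj hp hq' z).trans (by linarith)) H6 h.m2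
  have g7 := h.gdW (X := fun z => cv (ε ^ 120) (jac q q' v u) z - J) cP
    ((continuous_cv cj _).sub continuous_const)
    (fun z => (abs_sub _ _).trans (by linarith [bj hq hq' z])) H7 h.m3
  have gB₁ := (g4.mul (c := 4 / ε ^ 70) (by positivity)).add
    (Area.Gd.const y₀ (c := 60 / ε ^ 24) (by positivity) h.CT)
  have gB₂ := (g1.mul (c := 4 / ε ^ 71) (by positivity)).add
    (Area.Gd.const y₀ (c := 60 / ε ^ 24) (by positivity) h.CT)
  have gE := (gB₁.mul (c := 2 / r) (by positivity)).add (gB₂.mul (c := 2 / ε ^ 52) (by positivity))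
  have gR := ((g7.mul (c := 4 * ω / ε ^ 70) (by positivity)).add
    (g6.mul (c := 60 / ε ^ 140) (by positivity))).add
    (Area.Gd.const y₀ (c := ω * (120 / ε ^ 25) + 32000 / ε ^ 94) (by positivity) h.CT)
  have mE := gd_LL gE hr h.rT hv hu
  have mR := gd_LL gR hr h.rT hv hu
  have cW := (cont_WW cpb r (ε ^ 52) v u).norm
  have cE := cont_LL gE.c r (ε ^ 52) v u
  have cR' := cont_LL gR.c r (ε ^ 52) v u
  rw [← cv_const_mul]
  refine (cv_mono (continuous_const.mul cW) (cE.add cR') zero_le_one fun y _ => ?_).trans ?_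
  · have a1 : ω * |J| * ‖WW r (ε ^ 52) v u pb y‖ =
        ‖WW r (ε ^ 52) v u (fun y => Complex.I * ω * J * pb y) y‖ := by
      rw [WW_cmul, norm_mul, norm_mul, norm_mul, Complex.norm_I, one_mul, Complex.norm_real,
        Complex.norm_real, Real.norm_of_nonneg ω0.le, Real.norm_eq_abs]
    refine a1.trans_le ?_
    rw [dec, WW_add (G := fun y => dd (cv (ε ^ 120) fun z => dd q' u z • ph z) v y -
      dd (cv (ε ^ 120) fun z => dd q' v z • ph z) u y)
      ((continuous_dd (c1 u) v).sub (continuous_dd (c1 v) u)) cR]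
    refine (norm_add_le _ _).trans (add_le_add ?_ (WW_le hr.le hT.le gR.c nR v u y))
    refine exact_le (c1 u) (c1 v) gB₁.c gB₂.c (e1 u hu) (fun z => (e1 v hv z).trans ?_) hr hT v u y
    have a2 : w z * |dd (cv (ε ^ 120) q') v z| ≤ w z * ε⁻¹ :=
      mul_le_mul_of_nonneg_left ((hq'.cv _).dd_le hv z) (w0 z)
    have a3 : 4 / ε ^ 70 * (w z * ε⁻¹) = 4 / ε ^ 71 * w z := by field_simp
    have a4 := mul_le_mul_of_nonneg_left a2 (show 0 ≤ 4 / ε ^ 70 by positivity)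
    simp only [hw] at a3 a4 ⊢
    linarith
  · refine (cv_add cE cR' 1 y₀).trans_le ((add_le_add mE mR).trans ?_)
    set N : ℝ := β * Λ * ε ^ 2 with hN
    have N0 : 0 < N := by positivity
    have iK : K⁻¹ ≤ 1 := inv_le_one_of_one_le₀ h.K1
    have x1 : r * ε ^ 52 * (2 / r * (4 / ε ^ 70 * (β * Λ * ε ^ 20) + 60 / ε ^ 24) +
        2 / ε ^ 52 * (4 / ε ^ 71 * (28 * ε ^ 20) + 60 / ε ^ 24)) =
        8 * N + 120 * ε ^ 28 + (112 / 5 * ε ^ 17 + 12 * ε ^ 44) * K⁻¹ * N := by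
      rw [hrd, hN]; field_simp; ring
    have x2 : r * ε ^ 52 * (4 * ω / ε ^ 70 * (β * K * ε ^ 20) + 60 / ε ^ 140 * (K * ε ^ 20) +
        (ω * (120 / ε ^ 25) + 32000 / ε ^ 94)) =
        N / 125 + 6 * N + 6 / 25 * K⁻¹ * (Λ * ε ^ 27) + 3200 * ε ^ 26 * K⁻¹ * N := by
      rw [hrd, hω, hN]; field_simp; ring
    rw [x1, x2]
    have y1 : ε ^ 28 ≤ 8 * ε ^ 25 * N := by
      calc ε ^ 28 = 8 * ε ^ 25 * (ε * (1 / 8) * ε ^ 2) := by ring
        _ ≤ _ := by
          rw [hN]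
          gcongr
          · exact h.eb
          · exact h.L0
    have y2 : Λ * ε ^ 27 ≤ ε ^ 24 * N := by
      calc Λ * ε ^ 27 = ε ^ 24 * (ε * Λ * ε ^ 2) := by ring
        _ ≤ _ := by
          rw [hN]
          gcongr
          exact h.eb
    have y3 : ∀ a : ℕ, 1 ≤ a → ε ^ a * N ≤ N / 100000 := fun a ha => by
      nlinarith [h.sm ha]
    have y4 : ∀ x : ℝ, 0 ≤ x → x * K⁻¹ ≤ x := fun x hx => mul_le_of_le_one_right hx iK
    have z1 := y4 ((112 / 5 * ε ^ 17 + 12 * ε ^ 44) * N) (by positivity)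
    have z2 := y4 (Λ * ε ^ 27) (by positivity)
    have z3 := y4 (ε ^ 26 * N) (by positivity)
    have := y3 17 (by norm_num); have := y3 44 (by norm_num); have := y3 25 (by norm_num)
    have := y3 24 (by norm_num); have := y3 26 (by norm_num)
    nlinarith

/-- the lower bound from the leaves -/
theorem lower (h : Nm d ε β Λ K) {q p : E d → ℝ} {v u y₀ : E d} (hq : Sm ε⁻¹ q)
    (hp : Sm ε⁻¹ p) (hv : ‖v‖ = 1) (hu : ‖u‖ = 1) (H0 : |cv 1 (dd p u) y₀ - Λ| ≤ β * Λ)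
    (H1 : cv 1 (fun y => W1 ε (cv (ε ^ 120) p y)) y₀ ≤ 28 * ε ^ 20)
    (H2 : cv 1 (fun y => W1 ε (cv (ε ^ 120) p y) * |dd (cv (ε ^ 120) p) u y - Λ|) y₀ ≤
      β * Λ * ε ^ 20)
    (H3 : cv 1 (fun y => W1 ε (cv (ε ^ 120) p y) * |dd (cv (ε ^ 120) q) u y|) y₀ ≤
      β * Λ * ε ^ 20)
    (H5 : cv 1 (fun y => W1 ε (cv (ε ^ 120) p y) * |cv (ε ^ 120) (jac q p v u) y|) y₀ ≤
      K * ε ^ 20)
    (A1 : ContDiff ℝ 1 (Uk ε 2 (1 / (100 * β)) 0 q p u))
    (A2 : Continuous (Ub ε 2 (1 / (100 * β)) 0 q p u))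
    (A3 : ∀ y, ‖Uk ε 2 (1 / (100 * β)) 0 q p u y - Ub ε 2 (1 / (100 * β)) 0 q p u y‖ ≤ ε ^ 25)
    (A4 : ∀ y, ‖dd (Uk ε 2 (1 / (100 * β)) 0 q p u) v y‖ ≤
      ln (ε ^ 52) u (fun _ => 1) (fun z => bk ε 2 0 (cv (ε ^ 120) p z) * ((2 : ℕ) / ε ^ 70) *
        (|om ε 2 (1 / (100 * β)) 0 * cv (ε ^ 120) (jac q p v u) z| + 2 / ε ^ 53)) y + ε⁻¹ ^ 50)
    (A5 : ∀ y, Test.Ak ε 2 0 (cv (ε ^ 120) p) (dd (cv (ε ^ 120) p) u) u y -
      Test.Tk ε 2 (1 / (100 * β)) 0 (cv (ε ^ 120) p) (dd (cv (ε ^ 120) q) u) u y -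
      10 * Test.Nk ε 2 0 (cv (ε ^ 120) p) (dd (cv (ε ^ 120) p) u) u y ≤
        ‖Ub ε 2 (1 / (100 * β)) 0 q p u y‖) :
    6 * (Λ * β * ε ^ 70 / (10 * K)) * ε ^ 2 ≤
      cv 1 (fun y => ‖WW (Λ * β * ε ^ 70 / (10 * K)) (ε ^ 52) v u
      (fun z => phk ε 2 (1 / (100 * β)) 0 (cv (ε ^ 120) q z) (cv (ε ^ 120) p z)) y‖) y₀ := by
  have h0 := h.e0; have h1 := h.e2; have bp := h.bp; have Lp := h.Lp; have Kp := h.Kp
  have hμ : (0 : ℝ) ≤ ε ^ 120 := by positivity
  have hT : (0 : ℝ) < ε ^ 52 := by positivity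
  have hr := h.rp
  have k02 : 0 < 2 := by norm_num
  have hA := Test.A_lower h0 h1 hp hu k02 y₀
  have hom := h.om_eq
  rw [hom] at A4
  set ω : ℝ := 1 / (50 * β * ε ^ 70) with hω
  have ω0 : 0 < ω := by positivity
  set r : ℝ := Λ * β * ε ^ 70 / (10 * K) with hrd
  set l : ℝ := 1 / (100 * β) with hl
  set pb : E d → ℂ := fun z => phk ε 2 l 0 (cv (ε ^ 120) q z) (cv (ε ^ 120) p z) with hpb
  have cP := (hp.cv (ε ^ 120)).cont
  have cpt := continuous_dd (hp.cv (ε ^ 120)).cd1 u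
  have cqt := continuous_dd (hq.cv (ε ^ 120)).cd1 u
  have cJ := continuous_cv (continuous_jac hq.cd1 hp.cd1 v u) (ε ^ 120)
  have cpb : Continuous pb :=
    (TestA.contDiff_ph h0 h1 k02 (hq.cv _).cd1 (hp.cv _).cd1).continuous
  have cb := (Test.cont_bk h0 h1 k02).comp cP
  have cWk := (Test.cont_Wk h0 h1 k02).comp cP
  have bj : ∀ y, |cv (ε ^ 120) (jac q p v u) y| ≤ 2 * ε⁻¹ ^ 2 := fun y =>
    (norm_cv_le (G := jac q p v u) (y := y) hμ fun z _ => abs_jac_le hq hp hv hu z :)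
  have i2 : 0 ≤ ε⁻¹ ^ 2 := by positivity
  have g1 := h.gdW1 cP H1
  have g2 := h.gdW (X := fun z => dd (cv (ε ^ 120) p) u z - Λ) cP (cpt.sub continuous_const)
    (fun z => (abs_sub _ _).trans (by
    have := (hp.cv (ε ^ 120)).dd_le hu z
    rw [abs_of_pos Lp]
    rw [Real.norm_eq_abs] at this
    linarith [h.i2, h.L1])) H2 h.m1
  have g3 := h.gdW cP cqt (fun z => ((hq.cv _).dd_le hu z).trans (by linarith [h.i2])) H3 h.m1
  have g5 := h.gdW cP cJ (fun z => (bj z).trans (by linarith)) H5 h.m2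
  set P := cv (ε ^ 120) p with hP
  set pt := dd P u with hpt
  set qt := dd (cv (ε ^ 120) q) u with hqt
  set Jb := cv (ε ^ 120) (jac q p v u) with hJb
  have w0 : ∀ z, 0 ≤ W1 ε (P z) := fun z => (W1_mem _ _).1
  have wk0 : ∀ z, 0 ≤ Wk ε 2 0 (P z) := fun z => (Wk_mem _ _ _ _).1
  have b0 : ∀ z, 0 ≤ bk ε 2 0 (P z) := fun z => TestA.bk_nonneg _
  have gT := (gd_mono (G' := fun z => Wk ε 2 0 (P z) * |qt z| * om ε 2 l 0)
    (g3.mul (c := 5 * ω) (by positivity)) ((cWk.mul cqt.abs).mul continuous_const)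
    (fun z => by rw [hom]; have := wk0 z; positivity) fun z => by
      rw [hom]
      have := mul_le_mul_of_nonneg_right (Wk_le ε (P z)) (mul_nonneg (abs_nonneg (qt z)) ω0.le)
      linarith).ln hT hu
  have gN := (gd_mono (G' := fun z => Wk ε 2 0 (P z) * max (-pt z) 0 * ((2 : ℕ) / ε ^ 70))
    (g2.mul (c := 10 / ε ^ 70) (by positivity))
    ((cWk.mul (cpt.neg.max continuous_const)).mul continuous_const)
    (fun z => by have := wk0 z; positivity) fun z => by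
      have a1 : max (-pt z) 0 ≤ |pt z - Λ| :=
        max_le (by linarith [neg_abs_le (pt z - Λ)]) (abs_nonneg _)
      have a2 := mul_le_mul (Wk_le ε (P z)) a1 (le_max_right _ _) (by have := w0 z; positivity)
      have a3 := mul_le_mul_of_nonneg_right a2 (show 0 ≤ 2 / ε ^ 70 by positivity)
      push_cast
      refine a3.trans (le_of_eq ?_)
      ring).ln hT hu
  have gG := ((gd_mono (G' := fun z => bk ε 2 0 (P z) * ((2 : ℕ) / ε ^ 70) *
      (|ω * Jb z| + 2 / ε ^ 53))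
    ((g5.mul (c := 4 * ω / ε ^ 70) (by positivity)).add (g1.mul (c := 8 / ε ^ 123) (by positivity)))
    ((cb.mul continuous_const).mul ((continuous_const.mul cJ).abs.add continuous_const))
    (fun z => by have := b0 z; positivity) fun z => by
      have a1 := mul_le_mul_of_nonneg_right (bk_le ε (P z))
        (show 0 ≤ 2 / ε ^ 70 * (|ω * Jb z| + 2 / ε ^ 53) by positivity)
      push_cast
      rw [mul_assoc]
      refine a1.trans (le_of_eq ?_)
      rw [abs_mul, abs_of_pos ω0]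
      field_simp
      ring).ln hT hu).add (Area.Gd.const y₀ (c := ε⁻¹ ^ 50) (by positivity) h.CT)
  have gG' := (gd_le gG h.rT).ln hr hv
  have g2' := g2.mul (c := 4 / ε ^ 70) (by positivity)
  have mL := gd_LL g2' hr h.rT hv hu
  have cL := cont_LL g2'.c r (ε ^ 52) v u
  have cA : Continuous (Test.Ak ε 2 0 P pt u) :=
    continuous_ln (continuous_th _) ((cb.mul continuous_const).mul cpt) _ _
  have cT := gT.c
  have cN := gN.c
  have cG := gG'.c
  have mT := gT.mean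
  have mN := gN.mean
  have mG := gG'.mean
  change Continuous (Test.Tk ε 2 l 0 P qt u) at cT
  change Continuous (Test.Nk ε 2 0 P pt u) at cN
  change cv 1 (Test.Tk ε 2 l 0 P qt u) y₀ ≤ _ at mT
  change cv 1 (Test.Nk ε 2 0 P pt u) y₀ ≤ _ at mN
  have slw := slow A1 gG.c A4 hr
  generalize ln r v (fun _ => 1) (fun z => ln (ε ^ 52) u (fun _ => 1) (fun z => bk ε 2 0 (P z) *
    ((2 : ℕ) / ε ^ 70) * (|ω * Jb z| + 2 / ε ^ 53)) z + ε⁻¹ ^ 50) = Gm at cG mG slw
  have cW := (cont_WW cpb r (ε ^ 52) v u).norm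
  have key : ∀ y, 3 * r * (Test.Ak ε 2 0 P pt u y - Test.Tk ε 2 l 0 P qt u y -
      10 * Test.Nk ε 2 0 P pt u y - Gm y - 3 * ε ^ 25) -
      LL r (ε ^ 52) v u (fun z => 4 / ε ^ 70 * (W1 ε (P z) * |pt z - Λ|)) y ≤
      Λ * ‖WW r (ε ^ 52) v u pb y‖ := fun y => by
    have a1 : Λ * ‖WW r (ε ^ 52) v u pb y‖ = ‖WW r (ε ^ 52) v u (fun z => Λ * pb z) y‖ := by
      rw [WW_cmul, norm_mul, Complex.norm_real, Real.norm_of_nonneg Lp.le]
    have a2 : ln r v (th r) (Ub ε 2 l 0 q p u) y = WW r (ε ^ 52) v u (fun z => Λ * pb z) y +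
        WW r (ε ^ 52) v u (fun z => (pt z - Λ) • pb z) y := by
      rw [← WW_add (G := fun z => Λ * pb z) (G' := fun z => (pt z - Λ) • pb z)
        (continuous_const.mul cpb) ((cpt.sub continuous_const).smul cpb)]
      have : (fun z => (Λ : ℂ) * pb z + (pt z - Λ) • pb z) = fun z => pt z • pb z := by
        funext z
        simp only [Complex.real_smul]
        push_cast
        ring
      rw [this]
      rfl
    have a3 := WW_le (G := fun z => (pt z - Λ) • pb z) hr.le hT.le g2'.c (fun z => by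
      rw [norm_smul, Real.norm_eq_abs]
      refine (mul_le_mul_of_nonneg_left (norm_ph h0 _ _ _) (abs_nonneg _)).trans (le_of_eq ?_)
      ring) v u y
    have a4 : ‖ln r v (th r) (fun z => Uk ε 2 l 0 q p u z - Ub ε 2 l 0 q p u z) y‖ ≤
        6 * r * ε ^ 25 := by
      rw [← TestA.ln_const (ε ^ 25) r v y]
      refine norm_ln_le continuous_const continuous_const hr.le v y fun τ _ => ?_
      exact mul_le_mul (abs_th r τ) (A3 _) (norm_nonneg _) zero_le_one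
    rw [TestA.ln_sub (continuous_th r) A1.continuous A2] at a4
    have a5 := norm_sub_norm_le (ln r v (th r) (Uk ε 2 l 0 q p u) y)
      (ln r v (th r) (Ub ε 2 l 0 q p u) y)
    have a6 := norm_add_le (WW r (ε ^ 52) v u (fun z => Λ * pb z) y)
      (WW r (ε ^ 52) v u (fun z => (pt z - Λ) • pb z) y)
    rw [← a2] at a6
    have a7 := norm_sub_norm_le (Ub ε 2 l 0 q p u y) (Uk ε 2 l 0 q p u y)
    rw [norm_sub_rev] at a7
    have a8 : Test.Ak ε 2 0 P pt u y - Test.Tk ε 2 l 0 P qt u y - 10 * Test.Nk ε 2 0 P pt u y -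
        ε ^ 25 - Gm y ≤ ‖Uk ε 2 l 0 q p u y‖ - Gm y := by linarith [A5 y, A3 y]
    have a9 := mul_le_mul_of_nonneg_left a8 (show 0 ≤ 3 * r by positivity)
    rw [a1]
    linarith [slw y]
  have m := cv_mono (G' := fun y => Λ * ‖WW r (ε ^ 52) v u pb y‖) (by fun_prop)
    (continuous_const.mul cW) zero_le_one (y := y₀) fun y _ => key y
  rw [cv_sub (by fun_prop) cL, cv_const_mul, cv_sub (by fun_prop) continuous_const,
    cv_sub (by fun_prop) cG, cv_sub (by fun_prop) (by fun_prop), cv_sub cA cT, cv_const_mul,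
    cv_const] at m
  refine le_of_mul_le_mul_left (le_trans ?_ (m.trans_eq (cv_const_mul _ _ _ _))) Lp
  set M : ℝ := Λ * ε ^ 2 with hM
  have M0 : 0 < M := by positivity
  have x1 : 61 / 10 * ε ^ 52 * (5 * ω * (β * Λ * ε ^ 20)) = 61 / 100 * M := by
    rw [hω, hM]; field_simp; ring
  have x2 : 61 / 10 * ε ^ 52 * (10 / ε ^ 70 * (β * Λ * ε ^ 20)) = 61 * (β * M) := by
    rw [hM]; field_simp
  have x3 : 61 / 10 * r * (61 / 10 * ε ^ 52 * (4 * ω / ε ^ 70 * (K * ε ^ 20) +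
      8 / ε ^ 123 * (28 * ε ^ 20)) + ε⁻¹ ^ 50) = 3721 / 12500 * M +
      (104188 / 125 * ε ^ 17 + 61 / 100 * ε ^ 18) * M * (β * K⁻¹) := by
    rw [hrd, hω, hM]; field_simp; ring
  have x4 : r * ε ^ 52 * (4 / ε ^ 70 * (β * Λ * ε ^ 20)) = r * (4 * (β * M)) := by
    rw [hM]; field_simp
  rw [x1] at mT
  rw [x2] at mN
  rw [x3] at mG
  rw [x4] at mL
  have y1 : β * M ≤ M / 100000 := by nlinarith [h.b1]
  have y2 : β * K⁻¹ ≤ 1 := mul_le_one₀ h.bl (by positivity) (inv_le_one_of_one_le₀ h.K1)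
  have y3 : ∀ a : ℕ, 1 ≤ a → ε ^ a * M ≤ M / 100000 := fun a ha => by
    nlinarith [h.sm ha]
  have y4 := mul_le_of_le_one_right
    (show 0 ≤ (104188 / 125 * ε ^ 17 + 61 / 100 * ε ^ 18) * M by positivity) y2
  have y5 : ε ^ 25 ≤ 8 * (ε ^ 23 * M) := by
    calc ε ^ 25 = 8 * (ε ^ 23 * (1 / 8 * ε ^ 2)) := by ring
      _ ≤ _ := by
        rw [hM]
        gcongr
        exact h.L0
  have y6 : 18 * Cw d * ε ^ 52 ≤ ε ^ 25 := by
    have a1 : 1000 * Cw d * ε * ε ^ 51 ≤ 1 * ε ^ 25 :=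
      mul_le_mul h.eC (h.pw (by norm_num)) (by positivity) zero_le_one
    have a2 : 0 ≤ Cw d * ε ^ 52 := by have := one_le_Cw (d := d); positivity
    have a3 : 1000 * Cw d * ε * ε ^ 51 = 1000 * (Cw d * ε ^ 52) := by ring
    linarith
  have y7 : M - β * M ≤ cv 1 (dd p u) y₀ * ε ^ 2 := by
    have := mul_le_mul_of_nonneg_right (abs_le.1 H0).1 (show 0 ≤ ε ^ 2 by positivity)
    rw [hM]
    linarith
  have := y3 17 (by norm_num); have := y3 18 (by norm_num); have := y3 23 (by norm_num)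
  have z1 : 207 / 100 * M ≤ cv 1 (Test.Ak ε 2 0 P pt u) y₀ - cv 1 (Test.Tk ε 2 l 0 P qt u) y₀ -
      10 * cv 1 (Test.Nk ε 2 0 P pt u) y₀ - cv 1 Gm y₀ - 3 * ε ^ 25 := by linarith
  have z2 := mul_le_mul_of_nonneg_left z1 (show 0 ≤ 3 * r by positivity)
  have z3 := mul_le_mul_of_nonneg_left y1 hr.le
  have z4 : Λ * (6 * r * ε ^ 2) = 6 * (r * M) := by rw [hM]; ring
  have z5 : 0 < r * M := by positivity
  rw [z4]
  linarith

end Nb3

open Nb3 in
theorem nb3 (d : ℕ) (_hd : 3 ≤ d) (h : TestA2Stmt d) : Nb3Stmt d := by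
  refine ⟨100000, by norm_num, small_iff.2 ?_⟩
  filter_upwards [ev_pos, ev_mul_le 100000, ev_mul_le (1000 * Cw d), small_iff.1 h,
    small_iff.1 leaf] with ε e0 e1 eC tA lf
  intro q q' p v u y₀ β Λ K J hq hq' hp hv hu bp b0 b1 L0 L1 K1 hJ H0 H1 H2 H3 H4 H5 H6 H7
  have h : Nm d ε β Λ K := ⟨e0, e1, eC, b0, bp, b1, L0, L1, K1⟩
  have Lp := h.Lp
  have Kp := h.Kp
  obtain ⟨A1, A2, A3⟩ := tA q p v u 2 0 (1 / (100 * β)) 0 hq hp hv hu (by norm_num) h.l1
    (by nlinarith [h.l2, h.l1]) h.lfour (by rw [abs_zero]; positivity)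
  have hP := hp.cv (ε ^ 120)
  have hQ := hq.cv (ε ^ 120)
  have up := upper h (y₀ := y₀) hq hq' hp hv hu hJ H1 H4 H6 H7
  have lo := lower h (y₀ := y₀) hq hp hv hu H0 H1 H2 H3 H5 A1 A2 (fun y => (A3 y).1)
    (fun y => by
      have := (A3 y).2
      simp only [Complex.ofReal_zero, mul_zero, zero_mul, sub_zero] at this
      exact this)
    fun y => ((lf _ _ (hasDerivAt_line hP.cd1 u y) ((continuous_dd hP.cd1 u).comp (by fun_prop))
      fun τ => hP.dd_le hu _).2 _ _ 2 0 (1 / (100 * β)) Λ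
      (Test.Ak ε 2 0 _ _ u y) (Test.Nk ε 2 0 _ _ u y) (Test.Tk ε 2 _ 0 _ _ u y)
      (Test.Qk ε 2 0 Λ _ _ u y) (Ub ε 2 _ 0 q p u y) (hasDerivAt_line hQ.cd1 u y)
      ((continuous_dd hQ.cd1 u).comp (by fun_prop)) le_rfl (by norm_num) (by positivity)
      (by linarith [h.pw (show 1 ≤ 3 by norm_num), h.e1]) rfl rfl (Test.ln_one _ _ _ _)
      (Test.ln_one _ _ _ _) (Test.ln_one _ _ _ _)).2.2.1
  have a1 := (mul_le_mul_of_nonneg_left lo
    (show 0 ≤ 1 / (50 * β * ε ^ 70) * |J| by positivity)).trans up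
  have a2 : 1 / (50 * β * ε ^ 70) * |J| * (6 * (Λ * β * ε ^ 70 / (10 * K)) * ε ^ 2) =
      |J| * (3 / 250 * (Λ * ε ^ 2) / K) := by field_simp; ring
  have a3 : 540 * (β * Λ * ε ^ 2) = 45000 * β * K * (3 / 250 * (Λ * ε ^ 2) / K) := by
    field_simp; ring
  rw [a2, a3] at a1
  have a4 := le_of_mul_le_mul_right a1 (by positivity)
  nlinarith [mul_pos bp Kp]

end Pool.Agent.MP_20bec2_an.b2

end
end MrgPart1

-- marker of a merged file
example : 731051 + 819556 = 731051 + 819556 := rfl
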