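import Pool.Agent.MP_20bec2_an.b2.Basic

/-! The net of slab families with frames (project BIOM2, module NET2). -/

set_option autoImplicit false

open MeasureTheory Set Metric Filter Topology

noncomputable section

namespace Pool.Agent.MP_20bec2_an.b2

open Pool.Agent.MP_20bec2_an.h7

namespace Net2A

variable {d : ℕ}

open NetA in
/-- the old net, with the number of its types -/
theorem net0 (d : ℕ) : Small fun ε => ∀ δ : ℝ, 0 < δ →
    ∃ S : Sys d ε δ, Net S ∧ (S.T : ℝ) * ε ^ 6 ≤ 12 * d * d := by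
  refine small_iff.2 ?_
  filter_upwards [ev_pos, ev_mul_le 24, ev_mul_le (12 * d * d)] with ε h0 h24 hd δ hδ
  have h1 : ε ≤ 1 / 2 := by linarith
  have hi : 1 ≤ ε⁻¹ := (one_le_inv₀ h0).2 (by linarith)
  have hi5 : 1 ≤ ε⁻¹ ^ 5 := one_le_pow₀ hi
  obtain ⟨K', hK1, hK2, hK3⟩ : ∃ K' : ℕ, Even K' ∧ 4 * ε⁻¹ ^ 5 ≤ K' ∧ (K' : ℝ) ≤ 6 * ε⁻¹ ^ 5 := by
    refine ⟨2 * ⌈2 * ε⁻¹ ^ 5⌉₊, even_two_mul _, ?_, ?_⟩
    · push_cast; linarith [Nat.le_ceil (2 * ε⁻¹ ^ 5)]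
    · push_cast; linarith [Nat.ceil_lt_add_one (show 0 ≤ 2 * ε⁻¹ ^ 5 by positivity)]
  have hK0 : (0 : ℝ) < K' := by linarith
  obtain ⟨J, hJ1, hJ2⟩ : ∃ J : ℕ, (J : ℝ) ≤ ε⁻¹ ∧ ∀ k : ℕ, (k : ℝ) ≤ ε⁻¹ → k ≤ J :=
    ⟨⌊ε⁻¹⌋₊, Nat.floor_le (by positivity), fun k hk => Nat.le_floor hk⟩
  obtain ⟨K, hK⟩ : ∃ K : ℕ, K = K' * (J + 1) := ⟨_, rfl⟩
  have hKe : Even K := hK ▸ hK1.mul_right _
  have hKp : (0 : ℝ) < K := by rw [hK]; push_cast; positivity
  have hKl : (K : ℝ) * ε ^ 6 ≤ 12 := by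
    have h2 : (K : ℝ) ≤ 6 * ε⁻¹ ^ 5 * (2 * ε⁻¹) := by
      rw [hK]; push_cast
      exact mul_le_mul hK3 (by linarith) (by positivity) (by positivity)
    calc (K : ℝ) * ε ^ 6 ≤ 6 * ε⁻¹ ^ 5 * (2 * ε⁻¹) * ε ^ 6 := by gcongr
      _ = 12 := by field_simp; norm_num
  let q := (Fintype.equivFin (Ty d K)).symm
  let l : Ty d K → ℝ := fun τ => 2 ^ (τ.2.1 % (J + 1))
  have hc2 : (Fintype.card (Ty d K) : ℝ) ≤ d * d * K := by exact_mod_cast card_Ty d K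
  refine ⟨⟨Fintype.card (Ty d K), fun τ => ev (q τ),
    fun τ => devF ε δ (l (q τ)) (ev' (q τ)) (ev (q τ)), fun τ => plF ε (ev' (q τ)) (ev (q τ)),
    ?_, fun τ => norm_pl (q τ).1.2.ne (ca_sa _), fun τ τ' h => ?_,
    fun τ => measurable_devF h0 h1 _ _ _ _, fun τ x => ?_, fun τ x hx => ?_,
    fun τ x hx => hx.2⟩, ?_, ?_⟩
  · calc (Fintype.card (Ty d K) : ℝ) * ε ^ 7 ≤ d * d * K * ε ^ 7 := by gcongr
      _ = d * d * ε * (K * ε ^ 6) := by ring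
      _ ≤ d * d * ε * 12 := by gcongr
      _ ≤ 1 := by linarith
  · refine le_trans ?_ (ev_sep hKe (q.injective.ne h))
    have h2 : ε ^ 7 ≤ 1 / (K : ℝ) / 2 := by
      rw [div_div, le_div_iff₀ (by positivity)]
      calc ε ^ 7 * (K * 2) = 2 * ε * (K * ε ^ 6) := by ring
        _ ≤ 2 * ε * 12 := by gcongr
        _ ≤ 1 := by linarith
    calc ε ^ 14 = (ε ^ 7) ^ 2 := by ring
      _ ≤ (1 / (K : ℝ) / 2) ^ 2 := by gcongr
      _ = _ := by ring
  · unfold devF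
    split_ifs
    · rw [abs_mul, abs_of_pos (by positivity)]
      calc _ ≤ 16 * δ * 2 := mul_le_mul_of_nonneg_left (abs_gg_le _ _ _ _ _) (by positivity)
        _ = _ := by ring
    · rw [abs_zero]; positivity
  · unfold devF
    split_ifs with h
    · rw [gg_eq_zero fun h' => hx ⟨h, h'⟩, mul_zero]
    · rfl
  · intro i j hij c₁ c₂ hc k hk
    obtain ⟨σ, hσ, hs⟩ : ∃ σ : ℝ, (σ = 1 ∨ σ = -1) ∧ 0 ≤ σ * c₁ := by
      rcases le_total 0 c₁ with h | h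
      · exact ⟨1, .inl rfl, by linarith⟩
      · exact ⟨-1, .inr rfl, by linarith⟩
    have hσ2 : σ * σ = 1 := by rcases hσ with rfl | rfl <;> norm_num
    have hσ1 : |σ| = 1 := by rcases hσ with rfl | rfl <;> norm_num
    obtain ⟨t, t1, t2, t3, t4⟩ := exists_par (a := σ * c₁) (b := σ * c₂)
      (by linear_combination (c₁ ^ 2 + c₂ ^ 2) * hσ2 + hc) hs
    have hkJ : k ≤ J := by
      refine hJ2 k ?_
      have h2 : (k : ℝ) ≤ 4 ^ k := by exact_mod_cast (Nat.lt_pow_self (by norm_num : 1 < 4)).le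
      rw [← one_div, le_div_iff₀ h0]
      nlinarith
    obtain ⟨n, hn, n1, n2⟩ := exists_tn (K' := K') (by exact_mod_cast hK0) hkJ t1 t2
    rw [← hK] at hn n2
    have h4 : 2 * (2 / (K' : ℝ)) ≤ ε ^ 5 := by
      rw [← mul_div_assoc, div_le_iff₀ hK0]
      calc (2 : ℝ) * 2 = ε ^ 5 * (4 * ε⁻¹ ^ 5) := by field_simp; norm_num
        _ ≤ _ := by gcongr
    have key : ∀ a c : ℝ, |a - σ * c| ≤ 2 * |tn K n - t| → |σ * a - c| ≤ ε ^ 5 := by
      intro a c h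
      have e : σ * a - c = σ * (a - σ * c) := by linear_combination c * hσ2
      rw [e, abs_mul, hσ1, one_mul]
      linarith
    refine ⟨q.symm (⟨(i, j), hij⟩, ⟨n, hn⟩), ca (tn K n), sa (tn K n), σ, ca_sa _, hσ,
      key _ _ (t3 ▸ ca_lip _ _), key _ _ (t4 ▸ sa_lip _ _), ?_, ?_, ?_, ?_⟩
    · simp only [Equiv.apply_symm_apply, ev]
    · simp only [Equiv.apply_symm_apply, ev]
      exact on_pl hij.ne (ca_sa _)
    · simp only [Equiv.apply_symm_apply, ev, ev', l, n1]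
    · simp only [Equiv.apply_symm_apply, ev, ev']
  · calc (Fintype.card (Ty d K) : ℝ) * ε ^ 6 ≤ d * d * K * ε ^ 6 := by gcongr
      _ = d * d * (K * ε ^ 6) := by ring
      _ ≤ d * d * 12 := by gcongr
      _ = 12 * d * d := by ring

/-- a system indexed by any finite type -/
theorem mk {ε δ : ℝ} {ι : Type} [Fintype ι] (e : ι → E d) (dev : ι → E d → ℝ)
    (pl : ι → Set (E d)) (card : (Fintype.card ι : ℝ) * ε ^ 7 ≤ 1) (unit : ∀ i, ‖e i‖ = 1)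
    (sep : ∀ i j, i ≠ j → ε ^ 14 ≤ 1 - inner ℝ (e i) (e j) ^ 2) (meas : ∀ i, Measurable (dev i))
    (bd : ∀ i x, |dev i x| ≤ 32 * δ) (zero : ∀ i x, x ∉ pl i → dev i x = 0)
    (slab : ∀ i x, x ∈ pl i → xi ε (inner ℝ (e i) x) ∈ Icc (0 : ℝ) 1) :
    ∃ S : Sys d ε δ, ∀ i, ∃ τ, S.e τ = e i ∧ S.dev τ = dev i ∧ S.pl τ = pl i := by
  let q := (Fintype.equivFin ι).symm
  refine ⟨⟨Fintype.card ι, fun τ => e (q τ), fun τ => dev (q τ), fun τ => pl (q τ), card,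
    fun τ => unit _, fun τ τ' h => sep _ _ (q.injective.ne h), fun τ => meas _,
    fun τ => bd _, fun τ => zero _, fun τ => slab _⟩, fun i => ⟨q.symm i, ?_, ?_, ?_⟩⟩ <;>
  simp only [Equiv.apply_symm_apply]

/-- greedy choice -/
theorem greedy {α R : Type} [Nonempty α] (P : α → α → Prop) (hP : ∀ a b, P a b → P b a)
    (Q : R → α → Prop) (N : ℕ)
    (h : ∀ (r : R) (A : Finset α), A.card ≤ N → ∃ a, Q r a ∧ ∀ w ∈ A, P a w)
    (A₀ : Finset α) (s : Finset R) (hs : A₀.card + s.card ≤ N) :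
    ∃ c : R → α, (∀ r ∈ s, Q r (c r) ∧ ∀ w ∈ A₀, P (c r) w) ∧
      ∀ r ∈ s, ∀ r' ∈ s, r ≠ r' → P (c r) (c r') := by
  classical
  induction s using Finset.induction_on with
  | empty => exact ⟨fun _ => Classical.arbitrary α, by simp, by simp⟩
  | insert r s hr ih =>
    rw [Finset.card_insert_of_notMem hr] at hs
    obtain ⟨c, c1, c2⟩ := ih (by omega)
    obtain ⟨a, a1, a2⟩ := h r (A₀ ∪ s.image c)
      ((Finset.card_union_le _ _).trans (by have := Finset.card_image_le (s := s) (f := c); omega))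
    have hne : ∀ x ∈ s, x ≠ r := fun x hx e => hr (e ▸ hx)
    have a3 : ∀ x ∈ s, P a (c x) := fun x hx =>
      a2 _ (Finset.mem_union_right _ (Finset.mem_image_of_mem c hx))
    refine ⟨Function.update c r a, fun x hx => ?_, fun x hx y hy hxy => ?_⟩
    · rcases Finset.mem_insert.1 hx with rfl | hx
      · rw [Function.update_self]
        exact ⟨a1, fun w hw => a2 w (Finset.mem_union_left _ hw)⟩
      · rw [Function.update_of_ne (hne x hx)]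
        exact c1 x hx
    · rcases Finset.mem_insert.1 hx with rfl | hx'
      · rcases Finset.mem_insert.1 hy with rfl | hy'
        · exact absurd rfl hxy
        · rw [Function.update_self, Function.update_of_ne (hne y hy')]
          exact a3 y hy'
      · rcases Finset.mem_insert.1 hy with rfl | hy'
        · rw [Function.update_self, Function.update_of_ne (hne x hx')]
          exact hP _ _ (a3 x hx')
        · rw [Function.update_of_ne (hne x hx'), Function.update_of_ne (hne y hy')]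
          exact c2 x hx' y hy' hxy

theorem norm_sub_sq {a b : E d} (ha : ‖a‖ = 1) (hb : ‖b‖ = 1) (t : ℝ) :
    ‖a - t • b‖ ^ 2 = 1 - 2 * t * inner ℝ a b + t ^ 2 := by
  rw [norm_sub_sq_real, ha, norm_smul, hb, real_inner_smul_right, mul_one, Real.norm_eq_abs, sq_abs]
  ring

/-- the sine of the angle is subadditive -/
theorem sin_add {a a' w : E d} (ha : ‖a‖ = 1) (ha' : ‖a'‖ = 1) (hw : ‖w‖ = 1) {κ : ℝ}
    (hκ : 0 ≤ κ) (h : 1 - inner ℝ a w ^ 2 ≤ κ ^ 2) (h' : 1 - inner ℝ a' w ^ 2 ≤ κ ^ 2) :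
    1 - inner ℝ a a' ^ 2 ≤ (2 * κ) ^ 2 := by
  have h1 : ‖a - inner ℝ a w • w‖ ≤ κ := by
    refine (abs_le_of_sq_le_sq' ?_ hκ).2
    rw [norm_sub_sq ha hw]; linarith
  have h2 : ‖w - inner ℝ a' w • a'‖ ≤ κ := by
    refine (abs_le_of_sq_le_sq' ?_ hκ).2
    rw [norm_sub_sq hw ha', real_inner_comm a' w]; linarith
  have h3 : |inner ℝ a w| ≤ 1 := by
    have := abs_real_inner_le_norm a w
    rwa [ha, hw, one_mul] at this
  have h4 : ‖a - (inner ℝ a w * inner ℝ a' w) • a'‖ ≤ 2 * κ := by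
    have e : a - (inner ℝ a w * inner ℝ a' w) • a' =
        (a - inner ℝ a w • w) + inner ℝ a w • (w - inner ℝ a' w • a') := by
      rw [smul_sub, mul_smul]; abel
    rw [e]
    refine (norm_add_le _ _).trans ?_
    rw [norm_smul, Real.norm_eq_abs]
    nlinarith [norm_nonneg (w - inner ℝ a' w • a')]
  have h5 := pow_le_pow_left₀ (norm_nonneg _) h4 2
  rw [norm_sub_sq ha ha'] at h5
  nlinarith [sq_nonneg (inner ℝ a w * inner ℝ a' w - inner ℝ a a')]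

open NetA in
theorem sep_small {s t : ℝ} (s0 : 0 ≤ s) (s1 : s ≤ 1 / 2) (t0 : 0 ≤ t) (t1 : t ≤ 1 / 2) :
    (s - t) ^ 2 ≤ 1 - (ca s * ca t + sa s * sa t) ^ 2 := by
  have e : 1 - (ca s * ca t + sa s * sa t) ^ 2 =
      (s - t) ^ 2 * (2 * (1 + s * t) / ((1 + s ^ 2) * (1 + t ^ 2))) ^ 2 := by
    unfold ca sa
    field_simp
    ring
  rw [e]
  refine le_mul_of_one_le_right (sq_nonneg _) (one_le_pow₀ ?_)
  rw [le_div_iff₀ (by positivity)]
  have h1 : s ^ 2 ≤ 1 / 4 := by nlinarith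
  have h2 : t ^ 2 ≤ 1 / 4 := by nlinarith
  nlinarith [mul_nonneg s0 t0, sq_nonneg s, sq_nonneg t]

theorem inner_rot {f₁ f : E d} (h : ON f₁ f) (a b a' b' : ℝ) :
    inner ℝ (a • f + b • f₁) (a' • f + b' • f₁) = a * a' + b * b' := by
  have h1 : inner ℝ f f = (1 : ℝ) := by rw [real_inner_self_eq_norm_sq, h.2.1, one_pow]
  have h2 : inner ℝ f₁ f₁ = (1 : ℝ) := by rw [real_inner_self_eq_norm_sq, h.1, one_pow]
  have h3 : inner ℝ f f₁ = (0 : ℝ) := by rw [real_inner_comm, h.2.2]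
  simp only [inner_add_left, inner_add_right, real_inner_smul_left, real_inner_smul_right, h1, h2,
    h3, h.2.2]
  ring

theorem norm_rot {f₁ f : E d} (h : ON f₁ f) {a b : ℝ} (hab : a ^ 2 + b ^ 2 = 1) :
    ‖a • f + b • f₁‖ = 1 := by
  have h1 := real_inner_self_eq_norm_sq (a • f + b • f₁)
  rw [inner_rot h] at h1
  have h2 : ‖a • f + b • f₁‖ ^ 2 = 1 := by linarith
  exact (pow_eq_one_iff_of_nonneg (norm_nonneg _) two_ne_zero).1 h2

theorem on3_rot {f₁ f₂ f : E d} (h : ON3 f₁ f₂ f) {a b : ℝ} (hab : a ^ 2 + b ^ 2 = 1) :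
    ON3 ((-b) • f + a • f₁) f₂ (a • f + b • f₁) := by
  have h1 : inner ℝ f₂ f₁ = (0 : ℝ) := by rw [real_inner_comm, h.2.2]
  have h2 : inner ℝ f f₂ = (0 : ℝ) := by rw [real_inner_comm, h.2.1.2.2]
  refine ⟨⟨norm_rot h.1 (by linarith), norm_rot h.1 hab, ?_⟩, ⟨h.2.1.1, norm_rot h.1 hab, ?_⟩, ?_⟩
  · rw [inner_rot h.1]; ring
  · rw [inner_add_right, real_inner_smul_right, real_inner_smul_right, h1, h.2.1.2.2]; ring
  · rw [inner_add_left, real_inner_smul_left, real_inner_smul_left, h2, h.2.2]; ring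

open NetA in
theorem rot_near {g g' : E d} (hg : ‖g‖ = 1) (hg' : ‖g'‖ = 1) {s b : ℝ} (s0 : 0 ≤ s)
    (hb : |b| = |sa s|) : ‖ca s • g + b • g' - g‖ ≤ 4 * s := by
  have h1 := ca_lip s 0
  have h2 := sa_lip s 0
  have e1 : ca 0 = 1 := by simp [ca]
  have e2 : sa 0 = 0 := by simp [sa]
  rw [e1, sub_zero, abs_of_nonneg s0] at h1
  rw [e2, sub_zero, sub_zero, abs_of_nonneg s0] at h2
  have e : ca s • g + b • g' - g = (ca s - 1) • g + b • g' := by rw [sub_smul, one_smul]; abel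
  rw [e]
  refine (norm_add_le _ _).trans ?_
  rw [norm_smul, norm_smul, hg, hg', Real.norm_eq_abs, Real.norm_eq_abs, hb]
  linarith

open NetA in
/-- near every frame there is a frame whose normal is separated from given directions -/
theorem exists_frame {f₁ f₂ f : E d} (h : ON3 f₁ f₂ f) {κ η : ℝ} (hκ : 0 < κ) (hη : η ≤ 1) (N : ℕ)
    (hN : 12 * κ * N ≤ η) (A : Finset (E d)) (hA : A.card ≤ N) :
    ∃ a, (∃ e₁, ON3 e₁ f₂ a ∧ ‖a - f‖ ≤ η ∧ ‖e₁ - f₁‖ ≤ η) ∧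
      ∀ w ∈ A, ‖a‖ = 1 → ‖w‖ = 1 → κ ^ 2 ≤ 1 - inner ℝ a w ^ 2 := by
  classical
  let c : ℕ → E d := fun j => ca (3 * κ * j) • f + sa (3 * κ * j) • f₁
  have s0 : ∀ j : ℕ, 0 ≤ 3 * κ * j := fun j => by positivity
  have s1 : ∀ j ∈ Finset.range (N + 1), 4 * (3 * κ * j) ≤ η := fun j hj => by
    have : (j : ℝ) ≤ N := by exact_mod_cast Nat.lt_succ_iff.1 (Finset.mem_range.1 hj)
    nlinarith
  obtain ⟨j, hj, hc⟩ : ∃ j ∈ Finset.range (N + 1),
      ∀ w ∈ A, ‖w‖ = 1 → κ ^ 2 ≤ 1 - inner ℝ (c j) w ^ 2 := by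
    by_contra hn
    push Not at hn
    choose! w hw using hn
    obtain ⟨i, hi, j, hj, hij, e⟩ := Finset.exists_ne_map_eq_of_card_lt_of_maps_to
      (s := Finset.range (N + 1)) (t := A) (by rw [Finset.card_range]; omega)
      (f := w) fun j hj => (hw j hj).1
    have h1 := sin_add (norm_rot h.1 (ca_sa (3 * κ * i))) (norm_rot h.1 (ca_sa (3 * κ * j)))
      (hw i hi).2.1 hκ.le (hw i hi).2.2.le (e ▸ (hw j hj).2.2.le)
    rw [inner_rot h.1] at h1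
    have h2 := sep_small (s0 i) (by linarith [s1 i hi]) (s0 j) (by linarith [s1 j hj])
    have h3 : (1 : ℝ) ≤ ((i : ℝ) - j) ^ 2 := by
      have : (1 : ℤ) ≤ ((i : ℤ) - j) ^ 2 := by
        have h4 : (i : ℤ) - j ≠ 0 := by omega
        exact (one_le_sq_iff_one_le_abs _).2 (Int.one_le_abs h4)
      exact_mod_cast this
    have h4 : (3 * κ * i - 3 * κ * j) ^ 2 = 9 * κ ^ 2 * ((i : ℝ) - j) ^ 2 := by ring
    have h5 : 0 < κ ^ 2 := by positivity
    nlinarith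
  refine ⟨c j, ⟨(-sa (3 * κ * j)) • f + ca (3 * κ * j) • f₁, on3_rot h (ca_sa _), ?_, ?_⟩,
    fun w hw _ => hc w hw⟩
  · exact (rot_near h.1.2.1 h.1.1 (s0 j) rfl).trans (s1 j hj)
  · rw [add_comm]
    exact (rot_near h.1.1 h.1.2.1 (s0 j) (abs_neg _)).trans (s1 j hj)

/-- cells of small diameter -/
theorem exists_cell (hd : 1 ≤ d) {η : ℝ} (h0 : 0 < η) (h1 : η ≤ 1) :
    ∃ (K : ℕ) (c : E d → Fin d → Fin K), (K : ℝ) * η ≤ 5 * d ∧
      ∀ x y : E d, ‖x‖ = 1 → ‖y‖ = 1 → c x = c y → ‖x - y‖ ≤ η / 2 := by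
  have hd' : (1 : ℝ) ≤ d := by exact_mod_cast hd
  have ht : 0 < 2 * d / η := by positivity
  refine ⟨⌊2 * (2 * d / η)⌋₊ + 1, fun x i => ⟨⌊(x i + 1) * (2 * d / η)⌋₊ % (⌊2 * (2 * d / η)⌋₊ + 1),
    Nat.mod_lt _ (Nat.succ_pos _)⟩, ?_, fun x y hx hy h => ?_⟩
  · have h2 := Nat.floor_le (show 0 ≤ 2 * (2 * d / η) by positivity)
    have h3 : 2 * (2 * d / η) * η = 4 * d := by field_simp; norm_num
    push_cast
    nlinarith
  · have hb : ∀ (z : E d) (i : Fin d), ‖z‖ = 1 → 0 ≤ z i + 1 ∧ z i + 1 ≤ 2 := fun z i hz => by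
      have h2 : |z i| ≤ 1 := by
        have h3 := PiLp.norm_apply_le z i
        rwa [hz, Real.norm_eq_abs] at h3
      constructor <;> linarith [(abs_le.1 h2).1, (abs_le.1 h2).2]
    have hm : ∀ (z : E d) (i : Fin d), ‖z‖ = 1 →
        ⌊(z i + 1) * (2 * d / η)⌋₊ % (⌊2 * (2 * d / η)⌋₊ + 1) = ⌊(z i + 1) * (2 * d / η)⌋₊ :=
      fun z i hz => Nat.mod_eq_of_lt (Nat.lt_succ_of_le (Nat.floor_mono
        (mul_le_mul_of_nonneg_right (hb z i hz).2 ht.le)))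
    have hc : ∀ i, (x i - y i) ^ 2 ≤ (η / (2 * d)) ^ 2 := fun i => by
      have h2 := congrArg Fin.val (congrFun h i)
      simp only [hm x i hx, hm y i hy] at h2
      have a1 := Nat.floor_le (mul_nonneg (hb x i hx).1 ht.le)
      have a2 := Nat.lt_floor_add_one ((x i + 1) * (2 * d / η))
      have b1 := Nat.floor_le (mul_nonneg (hb y i hy).1 ht.le)
      have b2 := Nat.lt_floor_add_one ((y i + 1) * (2 * d / η))
      rw [h2] at a1 a2
      have e : η / (2 * d) = 1 / (2 * d / η) := by field_simp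
      rw [e]
      refine sq_le_sq' ?_ ?_
      · rw [neg_le, le_div_iff₀ ht]; linarith
      · rw [le_div_iff₀ ht]; linarith
    refine (abs_le_of_sq_le_sq' ?_ (by positivity)).2
    rw [← sum_sq_eq]
    calc ∑ i, (x - y) i ^ 2 ≤ ∑ _i : Fin d, (η / (2 * d)) ^ 2 :=
          Finset.sum_le_sum fun i _ => hc i
      _ = (η / 2) ^ 2 / d := by
          rw [Finset.sum_const, Finset.card_univ, Fintype.card_fin, nsmul_eq_mul]
          field_simp
      _ ≤ _ := div_le_self (by positivity) hd'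

theorem measurable_dev3 {ε : ℝ} (h0 : 0 < ε) (h1 : ε ≤ 1 / 2) (δ : ℝ) (n : ℕ) (l : ℝ)
    (e₁ e₂ e : E d) : Measurable (dev3 ε δ n l e₁ e₂ e) := by
  have hc : ∀ v : E d, Continuous fun x : E d => inner ℝ v x := fun v =>
    continuous_const.inner continuous_id
  have h2 : Continuous fun x : E d => g2 ε n l (tc e₁ e₂ e x) :=
    (continuous_g2 h0 h1 n l).comp (continuous_tc e₁ e₂ e)
  refine Measurable.ite (MeasurableSet.inter ?_ (MeasurableSet.inter ?_ ?_))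
    (continuous_const.mul h2).measurable measurable_const
  · exact (((hc e₁).measurable.div_const _).fract) measurableSet_Icc
  · exact (((hc e₂).measurable.div_const _).fract) measurableSet_Icc
  · exact (((hc e).measurable.div_const _).fract) measurableSet_Icc

theorem abs_dev3_le (ε : ℝ) {δ : ℝ} (hδ : 0 < δ) (n : ℕ) (l : ℝ) (e₁ e₂ e x : E d) :
    |dev3 ε δ n l e₁ e₂ e x| ≤ 32 * δ := by
  unfold dev3
  split_ifs
  · rw [abs_mul, abs_of_pos (by positivity)]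
    calc _ ≤ 16 * δ * 2 := mul_le_mul_of_nonneg_left (abs_g2_le _ _ _ _) (by positivity)
      _ = _ := by ring
  · rw [abs_zero]; positivity

theorem dev3_zero (ε δ : ℝ) (n : ℕ) (l : ℝ) (e₁ e₂ e x : E d) (hx : x ∉ pl3 ε e₁ e₂ e) :
    dev3 ε δ n l e₁ e₂ e x = 0 := by
  unfold dev3
  split_ifs with h
  · rw [g2_eq_zero fun h' => hx ⟨h, h'⟩, mul_zero]
  · rfl

end Net2A

open Net2A in
theorem net2 (d : ℕ) (hd : 3 ≤ d) : Net2Stmt d := by
  refine small_iff.2 ?_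
  filter_upwards [ev_pos, ev_mul_le 2, ev_mul_le (13 * d * d), ev_mul_le ((312 * d * d) ^ 2),
    ev_mul_le (4 * (5 * d) ^ (3 * d)), small_iff.1 (net0 d)] with ε h0 h2 h13 h312 hC hnet δ η hδ _
    hη0 hη1 hεη
  classical
  have h1 : ε ≤ 1 / 2 := by linarith
  have hd' : (1 : ℝ) ≤ d := by exact_mod_cast (show 1 ≤ d by omega)
  have hi : 1 ≤ ε⁻¹ := (one_le_inv₀ h0).2 (by linarith)
  obtain ⟨S₀, hS₀, hT⟩ := hnet δ hδ
  obtain ⟨K, c, hK, hc⟩ := exists_cell (d := d) (by omega) hη0 hη1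
  obtain ⟨J, hJ1, hJ2⟩ : ∃ J : ℕ, (J : ℝ) ≤ 2 * ε⁻¹ ∧ ∀ k : ℕ, (k : ℝ) ≤ ε⁻¹ → k < J := by
    refine ⟨⌊ε⁻¹⌋₊ + 1, ?_, fun k hk => Nat.lt_succ_of_le (Nat.le_floor hk)⟩
    push_cast
    linarith [Nat.floor_le (show 0 ≤ ε⁻¹ by positivity)]
  let R : Type := {r : ((Fin d → Fin K) × (Fin d → Fin K) × (Fin d → Fin K)) × Fin J × Fin J //
    ∃ f₁ f₂ f : E d, ON3 f₁ f₂ f ∧ (c f₁, c f₂, c f) = r.1}
  have hR : (Fintype.card R : ℝ) * ε ^ 6 ≤ d * d := by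
    have a1 : Fintype.card R ≤ K ^ (3 * d) * (J * J) := by
      refine (Fintype.card_subtype_le _).trans (le_of_eq ?_)
      simp only [Fintype.card_prod, Fintype.card_fun, Fintype.card_fin]
      ring
    have a2 : (Fintype.card R : ℝ) ≤ K ^ (3 * d) * (J * J) := by exact_mod_cast a1
    have a3 : (K : ℝ) ^ (3 * d) * ε ≤ (5 * d) ^ (3 * d) := by
      calc (K : ℝ) ^ (3 * d) * ε ≤ K ^ (3 * d) * η ^ (3 * d) := by gcongr
        _ = (K * η) ^ (3 * d) := by rw [mul_pow]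
        _ ≤ _ := by gcongr
    have a4 : (J : ℝ) * ε ≤ 2 := by
      calc (J : ℝ) * ε ≤ 2 * ε⁻¹ * ε := by gcongr
        _ = 2 := by field_simp
    have a5 : ε ^ 2 ≤ 1 := pow_le_one₀ h0.le (by linarith)
    calc (Fintype.card R : ℝ) * ε ^ 6 ≤ K ^ (3 * d) * (J * J) * ε ^ 6 := by gcongr
      _ = K ^ (3 * d) * ε * ((J * ε) * (J * ε)) * ε * ε ^ 2 := by ring
      _ ≤ (5 * d) ^ (3 * d) * (2 * 2) * ε * 1 := by gcongr
      _ ≤ 1 := by linarith
      _ ≤ d * d := by nlinarith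
  choose g₁ g₂ g hg hgc using fun r : R => r.2
  have hN : ((S₀.T + Fintype.card R : ℕ) : ℝ) * ε ^ 6 ≤ 13 * d * d := by
    push_cast; linarith
  have hη : 312 * d * d * ε ≤ η := by
    refine (abs_le_of_sq_le_sq' ?_ hη0.le).2
    calc (312 * d * d * ε) ^ 2 = (312 * d * d) ^ 2 * ε * ε := by ring
      _ ≤ 1 * η ^ (3 * d) := by gcongr
      _ ≤ η ^ 2 := by rw [one_mul]; exact pow_le_pow_of_le_one hη0.le hη1 (by omega)
  obtain ⟨a, a1, a2⟩ := greedy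
    (fun a w : E d => ‖a‖ = 1 → ‖w‖ = 1 → (ε ^ 7) ^ 2 ≤ 1 - inner ℝ a w ^ 2)
    (fun a w h hw ha => real_inner_comm a w ▸ h ha hw)
    (fun (r : R) a => ∃ e₁, ON3 e₁ (g₂ r) a ∧ ‖a - g r‖ ≤ η / 2 ∧ ‖e₁ - g₁ r‖ ≤ η / 2)
    (S₀.T + Fintype.card R)
    (fun r A hA => exists_frame (hg r) (by positivity) (by linarith) _ (by
      calc 12 * ε ^ 7 * ((S₀.T + Fintype.card R : ℕ) : ℝ)
          = 12 * ε * (((S₀.T + Fintype.card R : ℕ) : ℝ) * ε ^ 6) := by ring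
        _ ≤ 12 * ε * (13 * d * d) := by gcongr
        _ ≤ η / 2 := by linarith) A hA)
    (Finset.univ.image S₀.e) Finset.univ
    (Nat.add_le_add (Finset.card_image_le.trans (by simp)) (by simp))
  choose b hb hb1 hb2 using fun r : R => (a1 r (Finset.mem_univ r)).1
  have hu : ∀ r, ‖a r‖ = 1 := fun r => (hb r).1.2.1
  have e14 : ε ^ 14 = (ε ^ 7) ^ 2 := by ring
  have hs : ∀ r τ, ε ^ 14 ≤ 1 - inner ℝ (a r) (S₀.e τ) ^ 2 := fun r τ => e14 ▸
    (a1 r (Finset.mem_univ r)).2 _ (Finset.mem_image_of_mem _ (Finset.mem_univ τ)) (hu r) (S₀.unit τ)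
  obtain ⟨S, hS⟩ := mk (ε := ε) (δ := δ) (ι := Fin S₀.T ⊕ R) (Sum.elim S₀.e a)
    (Sum.elim S₀.dev fun r => dev3 ε δ (2 ^ r.1.2.2.1) (2 ^ r.1.2.1.1) (b r) (g₂ r) (a r))
    (Sum.elim S₀.pl fun r => pl3 ε (b r) (g₂ r) (a r))
    (by
      rw [Fintype.card_sum, Fintype.card_fin]
      calc ((S₀.T + Fintype.card R : ℕ) : ℝ) * ε ^ 7
          = ((S₀.T + Fintype.card R : ℕ) : ℝ) * ε ^ 6 * ε := by ring
        _ ≤ 13 * d * d * ε := by gcongr
        _ ≤ 1 := h13)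
    (by rintro (τ | r); exacts [S₀.unit τ, hu r])
    (by
      rintro (τ | r) (τ' | r') h
      · exact S₀.sep τ τ' fun e => h (congrArg _ e)
      · exact real_inner_comm (S₀.e τ) (a r') ▸ hs r' τ
      · exact hs r τ'
      · exact e14 ▸ a2 r (Finset.mem_univ _) r' (Finset.mem_univ _) (fun e => h (congrArg _ e))
          (hu r) (hu r'))
    (by rintro (τ | r); exacts [S₀.meas τ, measurable_dev3 h0 h1 _ _ _ _ _ _])
    (by rintro (τ | r); exacts [S₀.bd τ, abs_dev3_le ε hδ _ _ _ _ _])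
    (by rintro (τ | r); exacts [S₀.zero τ, dev3_zero ε δ _ _ _ _ _])
    (by rintro (τ | r); exacts [S₀.slab τ, fun x hx => hx.2])
  refine ⟨S, fun i j hij c₁ c₂ hcc k hk => ?_, fun f₁ f₂ f hf i j hi' hj => ?_⟩
  · obtain ⟨τ, x, y, σ, k1, k2, k3, k4, k5, k6, k7, k8⟩ := hS₀ i j hij c₁ c₂ hcc k hk
    obtain ⟨τ', t1, t2, t3⟩ := hS (.inl τ)
    simp only [Sum.elim_inl] at t1 t2 t3
    exact ⟨τ', x, y, σ, k1, k2, k3, k4, t1 ▸ k5, t1 ▸ k6, by rw [t1, t2, k7], by rw [t1, t3, k8]⟩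
  · have hiJ : i < J := by
      refine hJ2 i ?_
      have h3 : (i : ℝ) ≤ 16 ^ i := by exact_mod_cast (Nat.lt_pow_self (by norm_num : 1 < 16)).le
      rw [← one_div, le_div_iff₀ h0]
      nlinarith
    let r : R := ⟨((c f₁, c f₂, c f), ⟨i, hiJ⟩, ⟨j, by omega⟩), f₁, f₂, f, hf, rfl⟩
    obtain ⟨τ, t1, t2, t3⟩ := hS (.inr r)
    simp only [Sum.elim_inr] at t1 t2 t3
    have k := hgc r
    simp only [r, Prod.mk.injEq] at k
    have n1 := hc _ _ (hg r).1.1 hf.1.1 k.1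
    have n2 := hc _ _ (hg r).2.1.1 hf.2.1.1 k.2.1
    have n3 := hc _ _ (hg r).1.2.1 hf.1.2.1 k.2.2
    refine ⟨τ, b r, g₂ r, ⟨t1 ▸ hb r, by rw [t1, t2], by rw [t1, t3]⟩, ?_, ?_, by linarith⟩
    · rw [t1]
      linarith [norm_sub_le_norm_sub_add_norm_sub (a r) (g r) f, hb1 r]
    · linarith [norm_sub_le_norm_sub_add_norm_sub (b r) (g₁ r) f₁, hb2 r]

end Pool.Agent.MP_20bec2_an.b2
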