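import Mathlib.RingTheory.Flat.TorsionFree
import Mathlib.RingTheory.SimpleRing.Principal
import Pool.Agent.MP_20bec2_an.b2.Basic

-- ======== part 0: formerly Pool.Agent.MP_20bec2_an.b2.MesoA2
section MrgPart0

/-! The mesoscopic mass of a return weight (project BIOM2). -/

set_option autoImplicit false

open MeasureTheory Set Metric Filter Topology

noncomputable section

namespace Pool.Agent.MP_20bec2_an.b2

open Pool.Agent.MP_20bec2_an.h7

namespace MesoA2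

open MesoA

variable {d : ℕ}

theorem core (h1 : Avg3Stmt d) (h3 : OscStmt d) {ϑ ρ fi g : E d → ℝ} {m P : ℝ × ℝ × ℝ → ℝ}
    {e₁ e₂ e : E d} {C δ r₁ r₂ o K Bf φ g₀ η : ℝ} (hϑ : Integrable ϑ) (h0 : ∀ x, 0 ≤ ϑ x)
    (hI : ∫ x, ϑ x ≤ 2) (hρ : Measurable ρ) (hρb : ∀ x, |ρ x| ≤ 2) (hf : Measurable fi)
    (hfb : ∀ x, |fi x| ≤ Bf) (hφ : ∫ x, ϑ x * fi x ≤ φ) (hg : ∀ x, |g x| ≤ 2) (hK : 0 ≤ K)
    (hgl : ∀ x x', |g x - g x'| ≤ K * ‖x - x'‖) (hm : Measurable m) (hmb : ∀ z, |m z| ≤ C)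
    (hmi : ∀ z, bx r₁ r₂ m z = 1 * (r₁ * r₁ * r₂))
    (hP : Measurable P) (hPb : ∀ z, |P z| ≤ 1)
    (hPi : ∀ z, bx r₁ r₂ P z = 1 / 64 * (r₁ * r₁ * r₂)) (hmP : ∀ z, m z * P z = 0)
    (hr₂ : 0 < r₂) (hr : r₂ ≤ r₁) (hon : ON3 e₁ e₂ e)
    (ho : Osc ϑ r₁ o) (hδ : 0 ≤ δ) (hδ' : δ ≤ 1 / 16)
    (hdev : ∀ x, ϑ x ≠ 0 → |ρ x - 1 - 16 * δ * g x * P (tc e₁ e₂ e x)| ≤ fi x)
    (hη : 0 ≤ η) (hg0 : ∀ x, ϑ x ≠ 0 → |g x - g₀| ≤ η) :
    |(∫ x, ϑ x * m (tc e₁ e₂ e x) * ρ x) - 1 * ∫ x, ϑ x| ≤ C * φ + 3 * C * o ∧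
      |(∫ x, ϑ x * 1 * ρ x) - (1 + δ / 4 * g₀) * ∫ x, ϑ x| ≤
        φ + 3 * (2 * o + 2 * K * r₁) + η := by
  have hC : 0 ≤ C := (abs_nonneg _).trans (hmb 0)
  have hgm : Measurable g := (cont_of_lip hgl).measurable
  have ht : Measurable (tc e₁ e₂ e) := (continuous_tc e₁ e₂ e).measurable
  have hd : Measurable fun x => 16 * δ * g x * P (tc e₁ e₂ e x) :=
    (hgm.const_mul _).mul (hP.comp ht)
  have hdb : ∀ x, |16 * δ * g x * P (tc e₁ e₂ e x)| ≤ 2 := fun x => by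
    rw [abs_mul, abs_mul, abs_of_nonneg (by positivity : 0 ≤ 16 * δ)]
    have b1 : 16 * δ * |g x| ≤ 2 :=
      (mul_le_of_le_one_left (abs_nonneg _) (by linarith)).trans (hg x)
    exact (mul_le_of_le_one_right (by positivity) (hPb _)).trans b1
  constructor
  · have a1 := err hϑ h0 (hm.comp ht) (fun x => hmb _) hρ hρb hd hdb hf hfb hdev
    have a2 := h1 ϑ m e₁ e₂ e r₁ r₂ C 1 o hϑ hm hr₂ hr hmb hon hmi ho
    have a3 : ∫ x, ϑ x * m (tc e₁ e₂ e x) * (16 * δ * g x * P (tc e₁ e₂ e x)) = 0 := by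
      rw [← integral_zero (E d) ℝ (μ := volume)]
      refine integral_congr_ae (Eventually.of_forall fun x => ?_)
      have := hmP (tc e₁ e₂ e x)
      calc _ = ϑ x * (16 * δ * g x) * (m (tc e₁ e₂ e x) * P (tc e₁ e₂ e x)) := by ring
        _ = 0 := by rw [this, mul_zero]
    simp only [Function.comp] at a1
    rw [a3, sub_zero] at a1
    have a4 := mul_le_mul_of_nonneg_left hφ hC
    rw [abs_le] at a1 a2 ⊢
    constructor <;> linarith [a1.1, a1.2, a2.1, a2.2]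
  · have a1 := err (G := fun _ => 1) (B := 1) hϑ h0 measurable_const (fun _ => by simp) hρ hρb hd
      hdb hf hfb hdev
    have ig := int_mul hϑ hgm hg
    have b1 := h3 ϑ g r₁ o 2 K hϑ hK hg hgl ho
    have a2 := h1 _ P e₁ e₂ e r₁ r₂ 1 (1 / 64) _ ig hP hr₂ hr hPb hon hPi b1
    have e1 : ∫ x, |ϑ x| = ∫ x, ϑ x :=
      integral_congr_ae (Eventually.of_forall fun x => abs_of_nonneg (h0 x))
    have a3 : ∫ x, ϑ x * 1 * (16 * δ * g x * P (tc e₁ e₂ e x)) =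
        16 * δ * ∫ x, ϑ x * g x * P (tc e₁ e₂ e x) := by
      rw [← integral_const_mul]
      exact integral_congr_ae (Eventually.of_forall fun x => by ring)
    have a4 : |(∫ x, ϑ x * g x) - g₀ * ∫ x, ϑ x| ≤ η * 2 := by
      rw [← integral_const_mul, ← integral_sub ig (hϑ.const_mul _)]
      refine (abs_int_le (hϑ.const_mul η) fun x => ?_).trans ?_
      · by_cases hx : ϑ x = 0
        · simp [hx]
        rw [show ϑ x * g x - g₀ * ϑ x = (g x - g₀) * ϑ x by ring, abs_mul, abs_of_nonneg (h0 x)]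
        exact mul_le_mul_of_nonneg_right (hg0 x hx) (h0 x)
      · rw [integral_const_mul]
        exact mul_le_mul_of_nonneg_left hI hη
    rw [a3] at a1
    simp only [mul_one] at a1 ⊢
    rw [e1] at a2
    set I := ∫ x, ϑ x
    set A := ∫ x, ϑ x * g x * P (tc e₁ e₂ e x)
    set B := ∫ x, ϑ x * g x
    have hr₁ : 0 ≤ K * r₁ := mul_nonneg hK (hr₂.le.trans hr)
    have a5 : |A - 1 / 64 * B| ≤ 3 * (2 * o + 2 * K * r₁) := by
      have := mul_le_mul_of_nonneg_left hI hr₁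
      linarith
    have a6 : |16 * δ * (A - 1 / 64 * B)| ≤ 3 * (2 * o + 2 * K * r₁) := by
      rw [abs_mul, abs_of_nonneg (by positivity : 0 ≤ 16 * δ)]
      exact (mul_le_of_le_one_left (abs_nonneg _) (by linarith)).trans a5
    have a7 : |δ / 4 * (B - g₀ * I)| ≤ η := by
      rw [abs_mul, abs_of_nonneg (by positivity : 0 ≤ δ / 4)]
      nlinarith [abs_nonneg (B - g₀ * I)]
    rw [abs_le] at a1 a6 a7 ⊢
    constructor <;> nlinarith [a1.1, a1.2, a6.1, a6.2, a7.1, a7.2]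

theorem dl1_le (z z' : ℝ × ℝ × ℝ) : dl1 z z' ≤ 3 * dist z z' := by
  have b1 : |z.1 - z'.1| ≤ dist z z' := (Real.dist_eq _ _).ge.trans (le_max_left _ _)
  have b0 : dist z.2 z'.2 ≤ dist z z' := le_max_right _ _
  have b2 : |z.2.1 - z'.2.1| ≤ dist z.2 z'.2 := (Real.dist_eq _ _).ge.trans (le_max_left _ _)
  have b3 : |z.2.2 - z'.2.2| ≤ dist z.2 z'.2 := (Real.dist_eq _ _).ge.trans (le_max_right _ _)
  unfold dl1
  linarith

end MesoA2

open MesoA MesoA2 in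
theorem mesoA2 (d : ℕ) (hd : 3 ≤ d) (h1 : Avg3Stmt d) (h2 : Pl3Stmt) : MesoA2Stmt d := by
  classical
  have hd2 : 2 ≤ d := by omega
  have h3 := oscst d hd2
  have h4 := finst d hd2 (avg d hd2)
  intro C hC
  refine small_iff.2 ?_
  filter_upwards [ev_pos, ev_mul_le 40, ev_mul_le (40 * C), ev_mul_le (8 * Cw d),
    small_iff.1 h4] with ε h0 k20 kC kW hF
  intro δ L l n S Ψ y₀ e₁ e₂ τ m hδ hδ' hL hLε hl hlε hn hloc hty hm y hy hbad
  obtain ⟨Y, ρ, N, hc, hY, hN, hρ⟩ := hloc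
  obtain ⟨hon, hdev, -⟩ := hty
  have e20 : ε ≤ 1 / 20 := by linarith
  have e1 : ε ≤ 1 := by linarith
  have hW := one_le_Cw (d := d)
  have pw : ∀ {a b : ℕ}, a ≤ b → ε ^ b ≤ ε ^ a := fun h => pow_le_pow_of_le_one h0.le e1 h
  have pp : ∀ a : ℕ, 0 < ε ^ a := fun a => pow_pos h0 a
  have hσ : ε ^ (200 * d) ≤ ε ^ 400 := pw (by omega)
  have Lp : ∀ a : ℕ, L * ε ^ (a + 1) ≤ ε ^ a := fun a => by
    rw [pow_succ', ← mul_assoc]
    exact mul_le_of_le_one_left (pp a).le hLε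
  have sm : ∀ a : ℕ, 40 * ε ^ (a + 1) ≤ ε ^ a := fun a => mul_pow_le h0 e1 k20 (lt_add_one a)
  have L119 : L * ε ^ 120 ≤ ε ^ 119 := Lp 119
  have s118 : 40 * ε ^ 119 ≤ ε ^ 118 := sm 118
  have s11 : 40 * ε ^ 12 ≤ ε ^ 11 := sm 11
  have hy' : ‖y - y₀‖ ≤ 1 := mem_closedBall_iff_norm.1 hy
  obtain ⟨ϑ, hw⟩ := hc.wt (ε ^ 120) y (pp _) (pw (by norm_num)) fun z hz => hY (by
    rw [mem_ball_iff_norm] at hz ⊢
    have := norm_sub_le_norm_sub_add_norm_sub z y y₀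
    have := pw (show 0 ≤ 120 by norm_num)
    rw [pow_zero] at this
    linarith)
  -- oscillation at the two scales
  have osc : ∀ a : ℕ, 121 ≤ a → a ≤ 400 → Osc ϑ (ε ^ (a + 1)) (ε ^ (a - 121)) := fun a ha ha' => by
    have b1 : L * ε ^ (a + 1) + ε ^ (200 * d) ≤ 2 * ε ^ a := by
      linarith [Lp a, pw ha']
    have b0 : 40 * ε ^ 121 ≤ ε ^ 120 := sm 120
    have b2 := hw.osc (ε ^ (a + 1)) (pp _).le (by linarith [pw ha, pp 121])
    intro v hv
    refine (b2 v hv).trans ?_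
    rw [div_le_iff₀ (pp _), ← pow_add]
    have b3 : 8 * Cw d * ε ^ a ≤ ε ^ (a - 121 + 120) := mul_pow_le h0 e1 kW (by omega)
    have b4 := mul_le_mul_of_nonneg_left b1 (show 0 ≤ Cw d by linarith)
    nlinarith [mul_pos (show 0 < Cw d by linarith) (pp a)]
  obtain ⟨f1, f2, f3⟩ := hF δ S N ϑ _ hN hw.int hw.nn (osc 209 (by norm_num) (by norm_num))
  have f4 : ∫ x, ϑ x * fin S N x ≤ 3 * ε ^ 11 := by
    have b1 : ε⁻¹ ^ 8 * ε ^ (209 - 121) = ε ^ 80 := by field_simp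
    have := mul_le_mul_of_nonneg_left hw.hi (pp 11).le
    linarith [pw (show 11 ≤ 80 by norm_num)]
  -- the support
  have hs : ∀ x, ϑ x ≠ 0 → ‖x - cv (ε ^ 120) Ψ y‖ ≤ 3 * ε ^ 119 := fun x hx => by
    have b1 := hw.supp x hx
    have b2 := hc.sm.cv_sub (pp 120).le y
    have b3 := norm_sub_le_norm_sub_add_norm_sub x (Ψ y) (cv (ε ^ 120) Ψ y)
    rw [norm_sub_rev (Ψ y)] at b3
    linarith [pw (show 119 ≤ 400 by norm_num)]
  have hb : ∀ x, ϑ x ≠ 0 → x ∈ ball (Ψ y₀) (10 * L) := fun x hx => by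
    have b1 := hw.supp x hx
    have b2 := (hc.sm.lip y y₀).trans (mul_le_of_le_one_right (by linarith) hy')
    have b3 := norm_sub_le_norm_sub_add_norm_sub x (Ψ y) (Ψ y₀)
    have b4 := pw (show 0 ≤ 119 by norm_num)
    have b5 := pw (show 0 ≤ 400 by norm_num)
    rw [pow_zero] at b4 b5
    rw [mem_ball_iff_norm]
    linarith
  have hK : (0 : ℝ) ≤ ε⁻¹ ^ 73 := by positivity
  have gl : ∀ x x' : E d, |g2 ε n l (tc e₁ e₂ (S.e τ) x) - g2 ε n l (tc e₁ e₂ (S.e τ) x')| ≤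
      3 * ε⁻¹ ^ 73 * ‖x - x'‖ :=
    fun x x' => (g2_lip h0 e20 hn hl hlε _ _).trans (by
      have := mul_le_mul_of_nonneg_left (dl1_tc_le hon x x') hK
      linarith)
  have hK' : 0 ≤ C / ε ^ 145 := by positivity
  have mc : Continuous m := (LipschitzWith.of_dist_le' (K := 3 * (C / ε ^ 145)) fun z z' => by
    rw [Real.dist_eq]
    refine (hm.lip z z').trans ?_
    have := mul_le_mul_of_nonneg_left (dl1_le z z') hK'
    linarith).continuous
  have mb : ∀ z, |m z| ≤ C := fun z => by rw [abs_of_nonneg (hm.bd z).1]; exact (hm.bd z).2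
  obtain ⟨p1, p2⟩ := h2 ε h0
  obtain ⟨c1, c2⟩ := MesoA2.core h1 h3
    (g₀ := g2 ε n l (tc e₁ e₂ (S.e τ) (cv (ε ^ 120) Ψ y)))
    (η := 3 * ε⁻¹ ^ 73 * (3 * ε ^ 119)) hw.int hw.nn hw.hi
    hc.meas (fun x => by rw [abs_of_nonneg (by linarith [(hc.rng x).1])]; exact (hc.rng x).2)
    f1.measurable (fun x => by rw [abs_of_nonneg (f2 x).1]; exact (f2 x).2) f4
    (fun x => abs_g2_le ε n l _) (by positivity) gl mc.measurable mb
    (fun z => by rw [one_mul]; exact hm.mean z) p1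
    (fun z => by split_ifs <;> simp) p2
    (fun z => by
      split_ifs with h
      · rw [mul_one]; exact hm.zero h0 h
      · rw [mul_zero])
    (pp 145) (pw (by norm_num)) hon (osc 135 (by norm_num) (by norm_num)) hδ.le (by linarith)
    (fun x hx => by
      have b1 := (hρ x (hb x hx)).2 τ
      have b2 : ∑ τ' ∈ Finset.univ.erase τ, W0 ε (inner ℝ (S.e τ') x) = 0 :=
        Finset.sum_eq_zero fun τ' hτ' => W0_eq_zero_of h0 (by linarith)
          (lt_of_le_of_lt (Finset.single_le_sum (f := fun τ' => Wh ε (inner ℝ (S.e τ')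
            (cv (ε ^ 120) Ψ y))) (fun _ _ => (Wh_mem _ _).1) hτ') hbad)
          ((inner_sub_le (S.unit τ') _ _).trans ((hs x hx).trans (by
            linarith [pw (show 70 ≤ 118 by norm_num), pp 119])))
      rw [b2, zero_add, hdev, dev3] at b1
      split_ifs at b1 ⊢
      · rwa [mul_one]
      · rwa [mul_zero])
    (by positivity) fun x hx => (gl x _).trans
      (mul_le_mul_of_nonneg_left (hs x hx) (by positivity))
  have t1 := hw.tr (fun x => m (tc e₁ e₂ (S.e τ) x)) C (3 * (C / ε ^ 145))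
    (by positivity) (fun x => mb _) fun x x' => (hm.lip _ _).trans (by
      have := mul_le_mul_of_nonneg_left (dl1_tc_le hon x x') hK'
      linarith)
  have t2 := hw.tr (fun _ => 1) 1 0 le_rfl (fun _ => by simp) fun _ _ => by simp
  rw [cv_const] at t2
  have r1 := (rr_mem (ε := ε) hδ.le hδ' n l (co e₁ Ψ) (co e₂ Ψ) (co (S.e τ) Ψ) y).1
  have r2 : rr ε δ n l (co e₁ Ψ) (co e₂ Ψ) (co (S.e τ) Ψ) y =
      1 + δ / 4 * g2 ε n l (tc e₁ e₂ (S.e τ) (cv (ε ^ 120) Ψ y)) := by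
    rw [rr, cv_co hc.sm.cont, cv_co hc.sm.cont, cv_co hc.sm.cont]
    rfl
  have n1 : 3 * ε⁻¹ ^ 73 * (3 * ε ^ 119) = 9 * ε ^ 46 := by field_simp; norm_num
  have n2 : 2 * (3 * ε⁻¹ ^ 73) * ε ^ 136 = 6 * ε ^ 63 := by field_simp; norm_num
  have n3 : (3 * (C / ε ^ 145) + C) * ε ^ (200 * d) ≤ C * (4 * ε ^ 12) := by
    have b1 : (3 * (C / ε ^ 145) + C) * ε ^ 400 = C * (3 * ε ^ 255 + ε ^ 400) := by field_simp
    refine (mul_le_mul_of_nonneg_left hσ (by positivity)).trans (b1.trans_le ?_)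
    refine mul_le_mul_of_nonneg_left ?_ (by linarith)
    linarith [pw (show 12 ≤ 255 by norm_num), pw (show 12 ≤ 400 by norm_num)]
  rw [← r2, n1, n2] at c2
  have q18 : ε ^ (135 - 121) ≤ ε ^ 12 := pw (by norm_num)
  have z1 : |cv (ε ^ 120) (fun z => m (tc e₁ e₂ (S.e τ) (Ψ z))) y - 1 * ∫ x, ϑ x| ≤
      C * (4 * ε ^ 11) := by
    have b1 := mul_le_mul_of_nonneg_left q18 (show 0 ≤ C by linarith)
    have b2 := mul_le_mul_of_nonneg_left s11 (show 0 ≤ C by linarith)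
    have b3 := mul_pos (show 0 < C by linarith) (pp 12)
    refine (abs_sub_le _ _ _).trans ((add_le_add (t1.trans n3) c1).trans ?_)
    linarith
  have z2 : |1 - rr ε δ n l (co e₁ Ψ) (co e₂ Ψ) (co (S.e τ) Ψ) y * ∫ x, ϑ x| ≤ 4 * ε ^ 11 := by
    refine (abs_sub_le _ _ _).trans ((add_le_add t2 c2).trans ?_)
    linarith [pw (show 12 ≤ 400 by norm_num), pw (show 12 ≤ 63 by norm_num),
      pw (show 12 ≤ 46 by norm_num), pp 12]
  refine (fin_div (C := C) r1 (by rw [abs_one]; linarith) z1 z2).trans ?_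
  have := mul_pow_le h0 e1 kC (show 10 < 11 by norm_num)
  nlinarith [mul_pos (show 0 < C by linarith) (pp 11)]

end Pool.Agent.MP_20bec2_an.b2

end
end MrgPart0

-- ======== part 1: formerly Pool.Agent.MP_20bec2_an.b2.Ortho2
section MrgPart1

/-! The mean over all windows of the window inequality. -/

set_option autoImplicit false

open MeasureTheory Set Metric Filter Topology

noncomputable section

namespace Pool.Agent.MP_20bec2_an.b2

open Pool.Agent.MP_20bec2_an.h7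

namespace Ortho2

variable {d : ℕ}

/-- the window average around `y` at scale `ϱ` -/
def MW (ϱ : ℝ) (G : E d → ℝ) (y : E d) : ℝ := Mw fun z => G (y - ϱ • z)

theorem MW_eq (ϱ : ℝ) (G : E d → ℝ) : MW ϱ G =
    fun y => cv (ϱ * 2) G y + ∫ t in (0 : ℝ)..1, cv (ϱ * (2 * t)) G y := by
  funext y
  simp only [MW, Mw, cv, smul_smul, smul_eq_mul]

theorem joint {G : E d → ℝ} (hG : Continuous G) (ϱ : ℝ) :
    Continuous fun z : ℝ × E d => cv (ϱ * (2 * z.1)) G z.2 := by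
  refine continuousOn_univ.1 (continuousOn_integral_of_compact_support (k := tsupport (ze d))
    (f := fun (z : ℝ × E d) w => ze d w • G (z.2 - (ϱ * (2 * z.1)) • w)) ze_supp ?_
    fun y w _ hw => ?_)
  · refine Continuous.continuousOn ?_
    exact (continuous_ze.comp continuous_snd).smul (hG.comp (by fun_prop))
  · rw [image_eq_zero_of_notMem_tsupport hw, zero_smul]

theorem cont2 {G : E d → ℝ} (hG : Continuous G) (ϱ : ℝ) :
    Continuous fun y : E d => ∫ t in (0 : ℝ)..1, cv (ϱ * (2 * t)) G y :=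
  intervalIntegral.continuous_parametric_intervalIntegral_of_continuous'
    (f := fun (y : E d) (t : ℝ) => cv (ϱ * (2 * t)) G y)
    ((joint hG ϱ).comp (f := fun z : E d × ℝ => (z.2, z.1)) (by fun_prop)) 0 1

theorem continuous_MW {G : E d → ℝ} (hG : Continuous G) (ϱ : ℝ) : Continuous (MW ϱ G) := by
  rw [MW_eq]
  exact (continuous_cv hG _).add (cont2 hG ϱ)

theorem mean_MW {G : E d → ℝ} (hG : Continuous G) {ϱ B : ℝ} (hϱ : 0 < ϱ)
    (h0 : ∀ z, 0 ≤ G z) (hB : ∀ z, G z ≤ B) (y₀ : E d) :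
    cv 1 (MW ϱ G) y₀ ≤ 2 * cv 1 G y₀ + 4 * (Cw d * B * ϱ) := by
  have hB' : ∀ z, ‖G z‖ ≤ B := fun z => by rw [Real.norm_of_nonneg (h0 z)]; exact hB z
  have hB0 : 0 ≤ B := (h0 0).trans (hB 0)
  have hC : 0 ≤ Cw d := zero_le_one.trans one_le_Cw
  have key : ∀ t : ℝ, 0 ≤ t → t ≤ 1 →
      cv 1 (cv (ϱ * (2 * t)) G) y₀ ≤ cv 1 G y₀ + 2 * (Cw d * B * ϱ) := by
    intro t t0 t1
    have h := cv_cv hG one_pos (show 0 ≤ ϱ * (2 * t) by positivity) hB' y₀
    rw [Real.norm_eq_abs, div_one] at h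
    have h2 : Cw d * B * (ϱ * (2 * t)) ≤ 2 * (Cw d * B * ϱ) := by
      calc Cw d * B * (ϱ * (2 * t)) = 2 * (Cw d * B * ϱ) * t := by ring
        _ ≤ _ := mul_le_of_le_one_right (by positivity) t1
    linarith [(abs_le.1 h).2]
  rw [MW_eq, cv_add (continuous_cv hG _) (cont2 hG ϱ),
    cv_intervalIntegral (G := fun t y => cv (ϱ * (2 * t)) G y) (joint hG ϱ)]
  have h1 := key 1 zero_le_one le_rfl
  rw [mul_one] at h1
  have hc : Continuous fun t : ℝ => cv 1 (cv (ϱ * (2 * t)) G) y₀ := by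
    refine continuousOn_univ.1 (continuousOn_integral_of_compact_support (k := tsupport (ze d))
      (f := fun (t : ℝ) w => ze d w • cv (ϱ * (2 * t)) G (y₀ - (1 : ℝ) • w)) ze_supp ?_
      fun y w _ hw => ?_)
    · refine Continuous.continuousOn ?_
      exact (continuous_ze.comp continuous_snd).smul
        ((joint hG ϱ).comp (f := fun z : ℝ × E d => (z.1, y₀ - (1 : ℝ) • z.2)) (by fun_prop))
    · rw [image_eq_zero_of_notMem_tsupport hw, zero_smul]
  have h2 : ∫ t in (0 : ℝ)..1, cv 1 (cv (ϱ * (2 * t)) G) y₀ ≤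
      ∫ _ in (0 : ℝ)..1, (cv 1 G y₀ + 2 * (Cw d * B * ϱ)) :=
    intervalIntegral.integral_mono_on zero_le_one (hc.intervalIntegrable _ _)
      intervalIntegrable_const fun t ht => key t ht.1 ht.2
  rw [intervalIntegral.integral_const, sub_zero, one_smul] at h2
  have h3 : (∫ t in (0 : ℝ)..1, cv 1 (fun y => cv (ϱ * (2 * t)) G y) y₀) =
      ∫ t in (0 : ℝ)..1, cv 1 (cv (ϱ * (2 * t)) G) y₀ := rfl
  rw [h3]
  linarith

theorem dd_aff {F : Type*} [NormedAddCommGroup F] [NormedSpace ℝ F] {G : E d → F}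
    (hG : ContDiff ℝ 1 G) (ϱ : ℝ) (y v z : E d) :
    dd (fun z => G (y - ϱ • z)) v z = -(ϱ • dd G v (y - ϱ • z)) := by
  have h1 : HasFDerivAt (fun z : E d => y - ϱ • z) (-(ϱ • ContinuousLinearMap.id ℝ (E d))) z :=
    ((hasFDerivAt_id z).const_smul ϱ).const_sub y
  have := ((hG.differentiable one_ne_zero (y - ϱ • z)).hasFDerivAt.comp z h1).fderiv
  unfold dd
  rw [show (fun z => G (y - ϱ • z)) = G ∘ fun z : E d => y - ϱ • z from rfl, this]
  simp

theorem sp2_scale {s : Finset ℕ} {η : ℕ → E d} {κ ν ϱ : ℝ} (hϱ : 0 < ϱ)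
    (h : Sp2 s η (κ * ϱ ^ 2) (ν * ϱ)) : Sp2 s (fun k => -(ϱ • η k)) κ ν := by
  have e : ∀ k k', ‖-(ϱ • η k) - -(ϱ • η k')‖ = ϱ * ‖η k - η k'‖ := fun k k' => by
    rw [neg_sub_neg, ← smul_sub, norm_smul, Real.norm_of_nonneg hϱ.le, norm_sub_rev]
  refine ⟨fun k hk k' hk' hne he => h.inj k hk k' hk' hne ?_, fun k hk => ?_, fun k hk => ?_⟩
  · exact smul_right_injective _ hϱ.ne' (neg_injective he)
  · have := h.s2 k hk
    rw [← div_le_iff₀ (by positivity), Finset.sum_div] at this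
    refine le_trans (le_of_eq (Finset.sum_congr rfl fun k' _ => ?_)) this
    rw [e, mul_pow, div_div, mul_comm]
  · have := h.s1 k hk
    rw [← div_le_iff₀ hϱ, Finset.sum_div] at this
    refine le_trans (le_of_eq (Finset.sum_congr rfl fun k' _ => ?_)) this
    rw [e, div_div, mul_comm]

end Ortho2

open Ortho2 in
theorem ortho2 (d : ℕ) (_hd : 3 ≤ d) (h : WinStmt d) : Ortho2Stmt d := by
  obtain ⟨C, hC1, hW⟩ := h
  have hw1 : 1 ≤ Cw d := one_le_Cw
  refine ⟨24 * Cw d * C, by nlinarith, ?_⟩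
  intro m η v y₀ κ ν w ϱ B U a b x S e₂ e₁ Y₁ Y₂ hm hv hκ hCκ hν hw hϱ hsp hmκ hmν hk hS he₂ he₁
    hY₁ hY₂ hz
  have hCκ' : C * κ ≤ 1 := by
    refine le_trans ?_ hCκ
    have : C ≤ 24 * Cw d * C := le_mul_of_one_le_left (by linarith) (by linarith)
    exact mul_le_mul_of_nonneg_right this hκ.le
  have hB0 : 0 ≤ B := (hz 0).2.1.trans (hz 0).2.2.2.2.2.1
  have ca : ∀ y : E d, Continuous fun z : E d => y - ϱ • z := fun y => by fun_prop
  have cd : ∀ y : E d, ContDiff ℝ 1 fun z : E d => y - ϱ • z := fun y => by fun_prop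
  have pt : ∀ y, ∑ k ∈ Finset.range m, min ‖U k y‖ 1 ^ 2 ≤
      C * (ν * ∑ k ∈ Finset.range m, x k y +
        ∑ k ∈ Finset.range m, MW ϱ (fun z => a k z ^ 2) y +
        ν * ∑ k ∈ Finset.range m, MW ϱ (b k) y + MW ϱ (fun z => e₂ z ^ 2) y + m * MW ϱ e₁ y +
        MW ϱ (fun z => Y₁ z ^ 2) y + m * MW ϱ Y₂ y) := by
    intro y
    have := hW m (fun k => -(ϱ • η k)) (-v) κ ν (ϱ * w) (fun k z => U k (y - ϱ • z))
      (fun k z => a k (y - ϱ • z)) (fun k z => b k (y - ϱ • z)) (fun k => x k y)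
      (fun z => S (y - ϱ • z)) (fun z => e₂ (y - ϱ • z)) (fun z => e₁ (y - ϱ • z))
      (fun z => Y₁ (y - ϱ • z)) (fun z => Y₂ (y - ϱ • z)) hm (by rwa [norm_neg]) hκ hCκ' hν
      (by positivity) (sp2_scale hϱ hsp) hmκ hmν ?_ (hS.comp (cd y)) (he₂.comp (ca y))
      (he₁.comp (ca y)) (hY₁.comp (ca y)) (hY₂.comp (ca y)) ?_
    · simpa only [smul_zero, sub_zero, MW] using this
    · intro k hkm
      obtain ⟨h1, h2, h3, h4, _, h6⟩ := hk k hkm
      refine ⟨?_, h2.comp (cd y), h3.comp (ca y), h4.comp (ca y), (h6 y).1, ?_, fun z =>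
        ⟨(h6 _).2.2.1, (h6 _).2.2.2.1, fun v' hv' => ?_⟩⟩
      · rw [inner_neg_neg, real_inner_smul_left]
        exact mul_le_mul_of_nonneg_left h1 hϱ.le
      · simpa only [smul_zero, sub_zero] using (h6 y).2.1
      · refine le_trans (le_of_eq ?_) ((h6 (y - ϱ • z)).2.2.2.2.2.2 v' hv')
        have e : ∀ c : ℂ, ϱ * ‖c‖ = ‖-(ϱ • c)‖ := fun c => by
          rw [norm_neg, norm_smul, Real.norm_of_nonneg hϱ.le]
        rw [dd_aff h2, inner_neg_left, real_inner_smul_left, e]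
        congr 1
        simp only [Complex.real_smul]
        push_cast
        ring
    · intro z
      obtain ⟨h1, h2, h3, h4, _, _, _, _, h9, h10⟩ := hz (y - ϱ • z)
      refine ⟨h1, h2, h3, h4, h9, ?_⟩
      have e : dd S (-v) (y - ϱ • z) = -dd S v (y - ϱ • z) := by simp [dd]
      rw [dd_aff hS, e, abs_neg, smul_eq_mul, abs_mul, abs_neg, abs_of_pos hϱ, mul_assoc]
      exact mul_le_mul_of_nonneg_left h10 hϱ.le
  have mem : ∀ k ∈ Finset.range m, k < m := fun k hk => Finset.mem_range.1 hk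
  have c0 : ∀ k ∈ Finset.range m, Continuous fun y => min ‖U k y‖ 1 ^ 2 := fun k hkm =>
    (((hk k (mem k hkm)).2.1.continuous.norm).min continuous_const).pow 2
  have cx : ∀ k ∈ Finset.range m, Continuous (x k) := fun k hkm => (hk k (mem k hkm)).2.2.2.2.1
  have ca2 : ∀ k ∈ Finset.range m, Continuous fun z => a k z ^ 2 := fun k hkm =>
    (hk k (mem k hkm)).2.2.1.pow 2
  have cb : ∀ k ∈ Finset.range m, Continuous (b k) := fun k hkm => (hk k (mem k hkm)).2.2.2.1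
  have k1 : Continuous fun y => ν * ∑ k ∈ Finset.range m, x k y :=
    continuous_const.mul (continuous_finsetSum _ cx)
  have k2 : Continuous fun y => ∑ k ∈ Finset.range m, MW ϱ (fun z => a k z ^ 2) y :=
    continuous_finsetSum _ fun k hkm => continuous_MW (ca2 k hkm) ϱ
  have k3 : Continuous fun y => ν * ∑ k ∈ Finset.range m, MW ϱ (b k) y :=
    continuous_const.mul (continuous_finsetSum _ fun k hkm => continuous_MW (cb k hkm) ϱ)
  have k4 : Continuous (MW ϱ fun z => e₂ z ^ 2) := continuous_MW (he₂.pow 2) ϱ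
  have k5 : Continuous fun y => m * MW ϱ e₁ y := continuous_const.mul (continuous_MW he₁ ϱ)
  have k6 : Continuous (MW ϱ fun z => Y₁ z ^ 2) := continuous_MW (hY₁.pow 2) ϱ
  have k7 : Continuous fun y => m * MW ϱ Y₂ y := continuous_const.mul (continuous_MW hY₂ ϱ)
  have main := cv_mono (y := y₀) (continuous_finsetSum _ c0)
    (continuous_const.fun_mul
      ((((((k1.fun_add k2).fun_add k3).fun_add k4).fun_add k5).fun_add k6).fun_add k7))
    zero_le_one fun y _ => pt y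
  rw [cv_sum _ c0, cv_const_mul,
    cv_add (((((k1.fun_add k2).fun_add k3).fun_add k4).fun_add k5).fun_add k6) k7,
    cv_add ((((k1.fun_add k2).fun_add k3).fun_add k4).fun_add k5) k6,
    cv_add (((k1.fun_add k2).fun_add k3).fun_add k4) k5,
    cv_add ((k1.fun_add k2).fun_add k3) k4, cv_add (k1.fun_add k2) k3, cv_add k1 k2, cv_const_mul,
    cv_const_mul, cv_const_mul, cv_const_mul, cv_sum _ cx,
    cv_sum _ fun k hkm => continuous_MW (ca2 k hkm) ϱ,
    cv_sum _ fun k hkm => continuous_MW (cb k hkm) ϱ] at main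
  refine main.trans ?_
  set r := Cw d * B * ϱ with hr
  have r0 : 0 ≤ r := by positivity
  have m1 : (1 : ℝ) ≤ m := by exact_mod_cast hm
  have s2 : ∑ k ∈ Finset.range m, cv 1 (MW ϱ fun z => a k z ^ 2) y₀ ≤
      2 * ∑ k ∈ Finset.range m, cv 1 (fun y => a k y ^ 2) y₀ + m * (4 * r) := by
    refine (Finset.sum_le_sum fun k hkm => mean_MW (ca2 k hkm) hϱ (fun z => sq_nonneg _)
      (fun z => ((hk k (mem k hkm)).2.2.2.2.2 z).2.2.2.2.1) y₀).trans (le_of_eq ?_)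
    rw [Finset.sum_add_distrib, ← Finset.mul_sum, Finset.sum_const, Finset.card_range,
      nsmul_eq_mul]
  have s3 : ∑ k ∈ Finset.range m, cv 1 (MW ϱ (b k)) y₀ ≤
      2 * ∑ k ∈ Finset.range m, cv 1 (b k) y₀ + m * (4 * r) := by
    refine (Finset.sum_le_sum fun k hkm => mean_MW (cb k hkm) hϱ
      (fun z => ((hk k (mem k hkm)).2.2.2.2.2 z).2.2.2.1)
      (fun z => ((hk k (mem k hkm)).2.2.2.2.2 z).2.2.2.2.2.1) y₀).trans (le_of_eq ?_)
    rw [Finset.sum_add_distrib, ← Finset.mul_sum, Finset.sum_const, Finset.card_range,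
      nsmul_eq_mul]
  have s4 := mean_MW (he₂.fun_pow 2) hϱ (fun z => sq_nonneg _) (fun z => (hz z).2.2.2.2.1) y₀
  have s5 := mean_MW he₁ hϱ (fun z => (hz z).2.1) (fun z => (hz z).2.2.2.2.2.1) y₀
  have s6 := mean_MW (hY₁.fun_pow 2) hϱ (fun z => sq_nonneg _) (fun z => (hz z).2.2.2.2.2.2.1) y₀
  have s7 := mean_MW hY₂ hϱ (fun z => (hz z).2.2.2.1) (fun z => (hz z).2.2.2.2.2.2.2.1) y₀
  rw [← hr] at s4 s5 s6 s7
  have n1 : 0 ≤ ∑ k ∈ Finset.range m, cv 1 (x k) y₀ := Finset.sum_nonneg fun k hkm =>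
    cv_nonneg (fun z => ((hk k (mem k hkm)).2.2.2.2.2 z).1) _ _
  have n2 : 0 ≤ ∑ k ∈ Finset.range m, cv 1 (fun y => a k y ^ 2) y₀ :=
    Finset.sum_nonneg fun k _ => cv_nonneg (fun z => sq_nonneg _) _ _
  have n3 : 0 ≤ ∑ k ∈ Finset.range m, cv 1 (b k) y₀ := Finset.sum_nonneg fun k hkm =>
    cv_nonneg (fun z => ((hk k (mem k hkm)).2.2.2.2.2 z).2.2.2.1) _ _
  have n4 : 0 ≤ cv 1 (fun y => e₂ y ^ 2) y₀ := cv_nonneg (fun z => sq_nonneg _) _ _
  have n5 : 0 ≤ cv 1 e₁ y₀ := cv_nonneg (fun z => (hz z).2.1) _ _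
  have n6 : 0 ≤ cv 1 (fun y => Y₁ y ^ 2) y₀ := cv_nonneg (fun z => sq_nonneg _) _ _
  have n7 : 0 ≤ cv 1 Y₂ y₀ := cv_nonneg (fun z => (hz z).2.2.2.1) _ _
  generalize ∑ k ∈ Finset.range m, cv 1 (x k) y₀ = X at *
  generalize ∑ k ∈ Finset.range m, cv 1 (fun y => a k y ^ 2) y₀ = A at *
  generalize ∑ k ∈ Finset.range m, cv 1 (b k) y₀ = A' at *
  have ν0 : 0 ≤ ν := by linarith
  have t3 := mul_le_mul_of_nonneg_left s3 ν0
  have t5 := mul_le_mul_of_nonneg_left s5 (show (0 : ℝ) ≤ m by linarith)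
  have t7 := mul_le_mul_of_nonneg_left s7 (show (0 : ℝ) ≤ m by linarith)
  have q1 : m * r ≤ m * ν * r := by
    rw [mul_assoc]
    exact mul_le_mul_of_nonneg_left (le_mul_of_one_le_left r0 hν) (by linarith)
  have q2 : r ≤ m * r := le_mul_of_one_le_left r0 m1
  set P := ν * X + A + ν * A' + cv 1 (fun y => e₂ y ^ 2) y₀ + m * cv 1 e₁ y₀ +
    cv 1 (fun y => Y₁ y ^ 2) y₀ + m * cv 1 Y₂ y₀ with hP
  have p1 : 0 ≤ ν * X := mul_nonneg ν0 n1
  have P0 : 0 ≤ P := by positivity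
  have q3 : 2 * P ≤ 24 * Cw d * P := mul_le_mul_of_nonneg_right (by linarith) P0
  have e : 24 * Cw d * C * (P + m * ν * B * ϱ) = C * (24 * Cw d * P + 24 * (m * ν * r)) := by
    rw [hr]; ring
  rw [e]
  refine mul_le_mul_of_nonneg_left ?_ (by linarith)
  linarith

end Pool.Agent.MP_20bec2_an.b2

end
end MrgPart1

-- marker of a merged file
example : 731051 + 612718 = 731051 + 612718 := rfl
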