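import Pool.Agent.MP_20bec2_an.b2.Basic

/-! The pigeonhole argument with two potentials (project BIOM2). -/

set_option autoImplicit false

open MeasureTheory Set Metric Filter Topology

noncomputable section

namespace Pool.Agent.MP_20bec2_an.b2

open Pool.Agent.MP_20bec2_an.h7 Pool.Agent.MP_20bec2_an.h7.Pig

namespace Pg2

variable {d : ℕ}

/-! ### real numbers -/

theorem small {δ g l : ℝ} (hδ : 0 < δ) (hδ1 : δ ≤ 1) (hg : 0 < g) (hl : 1 ≤ l)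
    (h : g * l ^ 11 ≤ δ ^ 4) {a b c : ℕ} (hb : b ≤ 11 * a) (hc : c ≤ 4 * a) :
    g ^ a * l ^ b ≤ δ ^ c :=
  calc g ^ a * l ^ b ≤ g ^ a * l ^ (11 * a) :=
        mul_le_mul_of_nonneg_left (pow_le_pow_right₀ hl hb) (by positivity)
    _ = (g * l ^ 11) ^ a := by rw [mul_pow, ← pow_mul]
    _ ≤ (δ ^ 4) ^ a := pow_le_pow_left₀ (by positivity) h a
    _ = δ ^ (4 * a) := by rw [← pow_mul]
    _ ≤ δ ^ c := pow_le_pow_of_le_one hδ.le hδ1 hc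

/-- in the second case the stretch is large -/
theorem large {n : ℕ} {δ g l M M' C ϱ : ℝ} (hδ : 0 < δ) (hδ1 : δ ≤ 1) (hg : 0 < g) (hl : 1 ≤ l)
    (h : g * l ^ 11 ≤ δ ^ 4) (hC : 1 ≤ C) (hϱ : 0 < ϱ) (hM : ϱ ^ (n + 2) = M)
    (hv : M ≤ 2 * C * ϱ * M') (hlC : (2 * C) ^ (4 * (n + 4)) ≤ l)
    (hB : δ ^ 6 * M' ^ 4 ≤ M ^ 8 * g ^ 5 * l ^ 11) : 1 ≤ M ∧ 1 ≤ M' := by
  have hM0 : 0 < M := by rw [← hM]; positivity
  have hr : 2 * C ≤ ϱ := by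
    by_contra hc
    push Not at hc
    have a1 : δ ^ 6 * M ^ 4 ≤ (2 * C * ϱ) ^ 4 * (M ^ 8 * g ^ 5 * l ^ 11) :=
      calc δ ^ 6 * M ^ 4 ≤ δ ^ 6 * (2 * C * ϱ * M') ^ 4 :=
            mul_le_mul_of_nonneg_left (pow_le_pow_left₀ hM0.le hv 4) (by positivity)
        _ = (2 * C * ϱ) ^ 4 * (δ ^ 6 * M' ^ 4) := by ring
        _ ≤ _ := mul_le_mul_of_nonneg_left hB (by positivity)
    have a2 : δ ^ 6 ≤ (2 * C * ϱ) ^ 4 * M ^ 4 * (g ^ 5 * l ^ 11) :=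
      le_of_mul_le_mul_right (a1.trans (le_of_eq (by ring))) (pow_pos hM0 4)
    have a3 : (2 * C * ϱ) ^ 4 * M ^ 4 ≤ l := by
      refine le_trans ?_ hlC
      rw [← hM]
      calc (2 * C * ϱ) ^ 4 * (ϱ ^ (n + 2)) ^ 4
          ≤ (2 * C * (2 * C)) ^ 4 * ((2 * C) ^ (n + 2)) ^ 4 := by gcongr
        _ = _ := by ring
    have a4 : g ^ 5 * l ^ 12 ≤ δ ^ 7 := small hδ hδ1 hg hl h (by norm_num) (by norm_num)
    have a5 : g ^ 5 * l ^ 13 ≤ δ ^ 6 := small hδ hδ1 hg hl h (by norm_num) (by norm_num)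
    have a6 : δ ^ 6 ≤ g ^ 5 * l ^ 12 :=
      a2.trans ((mul_le_mul_of_nonneg_right a3 (by positivity)).trans (le_of_eq (by ring)))
    have a7 : 2 ≤ l := by
      refine le_trans ?_ hlC
      exact (show (2 : ℝ) ≤ 2 * C by linarith).trans (le_self_pow₀ (by linarith) (by omega))
    have a8 : g ^ 5 * l ^ 12 * 2 ≤ g ^ 5 * l ^ 13 := by
      rw [pow_succ l 12, ← mul_assoc]
      exact mul_le_mul_of_nonneg_left a7 (by positivity)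
    have a9 : 0 < δ ^ 6 := by positivity
    linarith
  have h1 : 1 ≤ ϱ := by linarith
  refine ⟨hM ▸ one_le_pow₀ h1, ?_⟩
  have a1 : 2 * C * ϱ ≤ M := by
    rw [← hM]
    calc 2 * C * ϱ ≤ ϱ * ϱ := mul_le_mul_of_nonneg_right hr hϱ.le
      _ = ϱ ^ 2 := by ring
      _ ≤ _ := pow_le_pow_right₀ h1 (by omega)
  exact le_of_mul_le_mul_left (a := 2 * C * ϱ) (by linarith) (by positivity)

/-- the numerical hypotheses of the second step; `X` is the square of the bound of the minors -/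
theorem numeric2 {n : ℕ} {δ g l L M X ϱ : ℝ} (hδ : 0 < δ) (hδ1 : δ ≤ 1) (hg : 0 < g) (hl : 1 ≤ l)
    (h : g * l ^ 11 ≤ δ ^ 4) (hϱ : 0 < ϱ) (hM : ϱ ^ (n + 2) = M) (hML : M ≤ 2 * L) (hX : 0 ≤ X)
    (hB : δ ^ 6 * X ^ 2 ≤ M ^ 8 * g ^ 5 * l ^ 12)
    (hn : (2 * L) ^ (8 * (n + 3)) * (g ^ 11 * l ^ 36) ^ (n + 2) ≤ δ ^ (14 * (n + 2))) :
    X ≤ g * M ^ 4 ∧ (M ^ 4 * g ^ 3 * X * l ^ 12) ^ (n + 2) ≤ δ ^ (4 * (n + 2)) * M ^ (4 * (n + 1)) ∧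
      (g * l ^ 10 * X) ^ (n + 1) * X ≤ δ ^ (2 * (n + 1)) * M ^ (2 * (n + 1)) := by
  have hM0 : 0 < M := by rw [← hM]; positivity
  have d6 : 0 < δ ^ 6 := by positivity
  have k : M ^ 8 * ϱ ^ 8 * (g ^ 11 * l ^ 36) ≤ δ ^ 14 := by
    refine le_of_pow_le_pow_left₀ (n := n + 2) (by omega) (by positivity) ?_
    have e : (M ^ 8 * ϱ ^ 8 * (g ^ 11 * l ^ 36)) ^ (n + 2) =
        M ^ (8 * (n + 3)) * (g ^ 11 * l ^ 36) ^ (n + 2) := by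
      rw [mul_pow, mul_pow, ← pow_mul ϱ, mul_comm 8 (n + 2), pow_mul ϱ, hM]
      congr 1
      ring
    rw [e, ← pow_mul]
    exact (mul_le_mul_of_nonneg_right (pow_le_pow_left₀ hM0.le hML _) (by positivity)).trans hn
  have h2 : ϱ ^ 4 * g ^ 3 * X * l ^ 12 ≤ δ ^ 4 := by
    refine le_of_pow_le_pow_left₀ (n := 2) two_ne_zero (by positivity)
      (le_of_mul_le_mul_left ?_ d6)
    calc δ ^ 6 * (ϱ ^ 4 * g ^ 3 * X * l ^ 12) ^ 2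
        = ϱ ^ 8 * g ^ 6 * l ^ 24 * (δ ^ 6 * X ^ 2) := by ring
      _ ≤ ϱ ^ 8 * g ^ 6 * l ^ 24 * (M ^ 8 * g ^ 5 * l ^ 12) :=
          mul_le_mul_of_nonneg_left hB (by positivity)
      _ = M ^ 8 * ϱ ^ 8 * (g ^ 11 * l ^ 36) := by ring
      _ ≤ δ ^ 14 := k
      _ = _ := by ring
  obtain ⟨R, hR⟩ : ∃ R, R = ϱ ^ (n + 1) := ⟨_, rfl⟩
  have hR0 : 0 < R := by rw [hR]; positivity
  have e1 : M = ϱ * R := by rw [← hM, hR]; ring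
  have e2 : M ^ (n + 1) = R ^ (n + 2) := by rw [← hM, hR, ← pow_mul, ← pow_mul, mul_comm]
  refine ⟨?_, ?_, ?_⟩
  · refine le_of_pow_le_pow_left₀ (n := 2) two_ne_zero (by positivity)
      (le_of_mul_le_mul_left (hB.trans ?_) d6)
    have a1 : g ^ 3 * l ^ 12 ≤ δ ^ 6 := small hδ hδ1 hg hl h (by norm_num) (by norm_num)
    calc M ^ 8 * g ^ 5 * l ^ 12 = g ^ 3 * l ^ 12 * (g * M ^ 4) ^ 2 := by ring
      _ ≤ _ := mul_le_mul_of_nonneg_right a1 (by positivity)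
  · have a1 : M ^ 4 * g ^ 3 * X * l ^ 12 ≤ δ ^ 4 * R ^ 4 := by
      calc M ^ 4 * g ^ 3 * X * l ^ 12 = ϱ ^ 4 * g ^ 3 * X * l ^ 12 * R ^ 4 := by rw [e1]; ring
        _ ≤ _ := mul_le_mul_of_nonneg_right h2 (by positivity)
    refine (pow_le_pow_left₀ (by positivity) a1 _).trans (le_of_eq ?_)
    rw [mul_pow, ← pow_mul, mul_comm 4 (n + 1), pow_mul M, e2]
    ring
  · obtain ⟨Y, hY⟩ : ∃ Y, Y = X / R ^ 2 := ⟨_, rfl⟩
    have hY0 : 0 ≤ Y := by rw [hY]; positivity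
    have e3 : X = Y * R ^ 2 := by rw [hY]; field_simp
    have a1 : Y ^ 4 * (g * l ^ 12) ≤ δ ^ 2 := by
      have b1 := mul_le_mul hB (pow_le_pow_left₀ (by positivity) h2 2) (by positivity)
        (by positivity)
      refine le_of_mul_le_mul_left (a := δ ^ 6 * M ^ 8 * g ^ 5 * l ^ 12) ?_ (by positivity)
      calc δ ^ 6 * M ^ 8 * g ^ 5 * l ^ 12 * (Y ^ 4 * (g * l ^ 12))
          = δ ^ 6 * X ^ 2 * (ϱ ^ 4 * g ^ 3 * X * l ^ 12) ^ 2 := by rw [e1, e3]; ring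
        _ ≤ _ := b1
        _ = _ := by ring
    obtain ⟨t, ht⟩ : ∃ t, t = g * l ^ 10 * Y / δ ^ 2 := ⟨_, rfl⟩
    have ht0 : 0 ≤ t := by rw [ht]; positivity
    have e4 : g * l ^ 10 * Y = t * δ ^ 2 := by rw [ht]; field_simp
    have a2 : t ≤ 1 := by
      refine (pow_le_one_iff_of_nonneg (n := 4) ht0 (by norm_num)).1
        (le_of_mul_le_mul_right (a := δ ^ 8) ?_ (by positivity))
      have b1 : g ^ 3 * l ^ 28 ≤ δ ^ 6 := small hδ hδ1 hg hl h (by norm_num) (by norm_num)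
      calc t ^ 4 * δ ^ 8 = (t * δ ^ 2) ^ 4 := by ring
        _ = Y ^ 4 * (g * l ^ 12) * (g ^ 3 * l ^ 28) := by rw [← e4]; ring
        _ ≤ δ ^ 2 * δ ^ 6 := mul_le_mul a1 b1 (by positivity) (by positivity)
        _ = _ := by ring
    have a3 : t * Y ≤ 1 := by
      refine (pow_le_one_iff_of_nonneg (n := 2) (by positivity) (by norm_num)).1
        (le_of_mul_le_mul_right (a := δ ^ 4) ?_ (by positivity))
      have b1 : g ^ 1 * l ^ 8 ≤ δ ^ 2 := small hδ hδ1 hg hl h (by norm_num) (by norm_num)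
      calc (t * Y) ^ 2 * δ ^ 4 = (t * δ ^ 2) ^ 2 * Y ^ 2 := by ring
        _ = Y ^ 4 * (g * l ^ 12) * (g ^ 1 * l ^ 8) := by rw [← e4]; ring
        _ ≤ δ ^ 2 * δ ^ 2 := mul_le_mul a1 b1 (by positivity) (by positivity)
        _ = _ := by ring
    have a4 : t ^ (n + 1) * Y ≤ 1 :=
      (mul_le_mul_of_nonneg_right (pow_le_of_le_one ht0 a2 (by omega)) hY0).trans a3
    calc (g * l ^ 10 * X) ^ (n + 1) * X
        = (g * l ^ 10 * Y * R ^ 2) ^ (n + 1) * (Y * R ^ 2) := by rw [e3, mul_assoc (g * l ^ 10)]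
      _ = t ^ (n + 1) * Y * (δ ^ (2 * (n + 1)) * (R ^ (n + 2)) ^ 2) := by rw [e4]; ring
      _ ≤ 1 * (δ ^ (2 * (n + 1)) * (R ^ (n + 2)) ^ 2) :=
          mul_le_mul_of_nonneg_right a4 (by positivity)
      _ = _ := by rw [← e2]; ring

theorem aux1 {ε M : ℝ} (h0 : 0 < ε) (h : 3 * ε ≤ 1) (hM : ε ^ 2 ≤ M) : ε ^ 4 ≤ M / 9 := by
  have : ε ^ 2 ≤ 1 / 9 := by nlinarith
  nlinarith [sq_nonneg ε]

theorem aux2 {δ g l : ℝ} (h0 : 0 < δ) (hδ : δ ≤ 1 / 100) (hg0 : 0 < g) (hl : 17 ≤ l)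
    (hg : g * l ^ 11 ≤ δ ^ 4) : g ≤ 1 / 2 := by
  have a1 : δ ^ 4 ≤ 1 := pow_le_one₀ (by linarith) (by linarith)
  have a2 : l ≤ l ^ 11 := le_self_pow₀ (by linarith) (by norm_num)
  nlinarith

theorem aux3 {ε C M' : ℝ} (h0 : 0 < ε) (hM' : 0 < M') (h : 200 * C * ε ≤ 1)
    (har : ε ^ 2 ≤ 2 * C * M') : ε ^ 3 ≤ M' / 100 := by
  have : ε * ε ^ 2 ≤ ε * (2 * C * M') := mul_le_mul_of_nonneg_left har h0.le
  nlinarith

theorem aux4 {M A : ℝ} (hM : 0 < M) (h : 0.62 * M ≤ A) : 3 ≤ 8 * A ^ 2 / M ^ 2 := by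
  have b1 : (0.62 * M) ^ 2 ≤ A ^ 2 := pow_le_pow_left₀ (by positivity) h 2
  rw [le_div_iff₀ (by positivity)]
  nlinarith [sq_nonneg M]

/-! ### the quadratic potential along the tower -/

/-- values of the quadratic potential -/
def Qset (M M₂ : ℝ) (Ψ : E d → E d) (G : Set (E d)) : Set ℝ :=
  {x | ∃ y ∈ G, ∃ e u : E d, ‖e‖ = 1 ∧ ‖u‖ = 1 ∧ x = val2 M M₂ (Af 1 Ψ y e u) (sq4 (Zf 1 Ψ y))}

theorem sq4_le_B {L M' : ℝ} {Ψ : E d → E d} (h : Sm L Ψ) {G : Set (E d)} {y : E d} (hy : y ∈ G)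
    (h0 : 0 ≤ M') (hB : ∀ x ∈ Bset Ψ G, x ≤ M') : sq4 (Zf 1 Ψ y) ≤ ((d : ℝ) ^ 2 * M') ^ 2 := by
  refine (sq4_le_of (B := M') fun i j k l => ?_).trans (le_of_eq (by ring))
  have hz := ml_Zf h.cd1 1 y
  rcases eq_or_ne k l with rfl | hkl
  · rwa [hz.self3, abs_zero]
  · have a1 : Zf 1 Ψ y (ax i) (ax j) (ax k) (ax l) ≤ M' :=
      hB _ ⟨y, hy, i, j, _, _, on_ax hkl, rfl⟩
    have a2 : Zf 1 Ψ y (ax j) (ax i) (ax k) (ax l) ≤ M' :=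
      hB _ ⟨y, hy, j, i, _, _, on_ax hkl, rfl⟩
    rw [hz.a1] at a2
    exact abs_le.2 ⟨by linarith, a1⟩

theorem Qset_le {L M M' : ℝ} {Ψ : E d → E d} (h : Sm L Ψ) (G : Set (E d)) (hM : 0 < M)
    (h0 : 0 ≤ M') (hM₂ : 0 < (d : ℝ) ^ 2 * M') (hA : ∀ x ∈ Aset Ψ G, x ≤ M)
    (hB : ∀ x ∈ Bset Ψ G, x ≤ M') : ∀ x ∈ Qset M ((d : ℝ) ^ 2 * M') Ψ G, x ≤ 9 := by
  rintro x ⟨y, hy, e, u, he, hu, rfl⟩
  have a1 : Af 1 Ψ y e u ≤ M := hA _ ⟨y, hy, e, u, he, hu, rfl⟩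
  have a2 : Af 1 Ψ y e (-u) ≤ M := hA _ ⟨y, hy, e, -u, he, by rwa [norm_neg], rfl⟩
  rw [Af_neg2 h.cd1] at a2
  have a3 : Af 1 Ψ y e u ^ 2 ≤ M ^ 2 := sq_le_sq' (by linarith) a1
  have a4 : 8 * Af 1 Ψ y e u ^ 2 / M ^ 2 ≤ 8 := by
    rw [div_le_iff₀ (by positivity)]
    linarith
  have a5 := (div_le_one (by positivity)).2 (sq4_le_B h hy h0 hB)
  unfold val2
  linarith

variable {ε δ L : ℝ} {S : Sys d ε δ} {N : ℕ} {Ψ : ℕ → E d → E d} {G : ℕ → Set (E d)}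

theorem nxtQ (T : Tower S L N Ψ G) (h0 : 0 < ε) {n : ℕ} (hn : n < N) {y₀ y : E d}
    (hy₀ : y₀ ∈ G n) (hy : y ∈ ball y₀ 4) (hF : Far S (Ψ n y)) {M M₂ H : ℝ}
    (hH : ∀ x ∈ Qset M M₂ (Ψ (n + 1)) (G (n + 1)), x ≤ H) : Pot2 M M₂ H (ε ^ 160) (Ψ n) y := by
  intro e v he hv
  refine hH _ ⟨_, T.nxt n hn y₀ hy₀ y hy hF, e, v, he, hv, ?_⟩
  have hs : 0 < ε ^ 160 := by positivity
  have e1 : Zf 1 (Ψ (n + 1)) ((ε ^ 160)⁻¹ • y) = Zf (ε ^ 160) (Ψ n) y := by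
    funext g g' w w'
    unfold Zf
    rw [T.sc n, cv_scl_jac (T.sm n).cd1 hs]
  have e2 : Af 1 (Ψ (n + 1)) ((ε ^ 160)⁻¹ • y) e v = Af (ε ^ 160) (Ψ n) y e v := by
    unfold Af
    rw [T.sc n, cv_scl_dd (T.sm n).cd1 hs]
  rw [e1, e2]

theorem gains2 (T : Tower S L N Ψ G) (h0 : 0 < ε) {n₀ N₁ : ℕ} (hN : n₀ + N₁ ≤ N) {M M₂ g : ℝ}
    (hg0 : 0 < g) (hg1 : g ≤ 1 / 2) (hg : 11 ≤ N₁ * g)
    (hb : ∀ k ≤ N₁, ∀ x ∈ Qset M M₂ (Ψ (n₀ + k)) (G (n₀ + k)), x ≤ 9)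
    (hst : ∃ x ∈ Qset M M₂ (Ψ n₀) (G n₀), 3 ≤ x)
    (hS : ∀ k < N₁, ∀ y₀ ∈ G (n₀ + k), ∀ (H : ℝ) (e u : E d), |H| ≤ 12 → ‖e‖ = 1 → ‖u‖ = 1 →
      3 ≤ val2 M M₂ (Af 1 (Ψ (n₀ + k)) y₀ e u) (sq4 (Zf 1 (Ψ (n₀ + k)) y₀)) →
      (∀ y ∈ ball y₀ 4, Far S (Ψ (n₀ + k) y) → Pot2 M M₂ H (ε ^ 160) (Ψ (n₀ + k)) y) →
      val2 M M₂ (Af 1 (Ψ (n₀ + k)) y₀ e u) (sq4 (Zf 1 (Ψ (n₀ + k)) y₀)) + 2 * g < H) : False := by
  have key : ∀ k ≤ N₁, ∃ x ∈ Qset M M₂ (Ψ (n₀ + k)) (G (n₀ + k)), 3 + k * g ≤ x := by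
    intro k
    induction k with
    | zero =>
      intro _
      obtain ⟨x, hx, hx'⟩ := hst
      exact ⟨x, hx, by push_cast; linarith⟩
    | succ k ih =>
      intro hk
      obtain ⟨x, ⟨y₀, hy₀, e, u, he, hu, rfl⟩, hx⟩ := ih (by omega)
      have hk0 : 0 ≤ (k : ℝ) * g := by positivity
      by_contra hcon
      push Not at hcon
      have a1 := hb k (by omega) _ ⟨y₀, hy₀, e, u, he, hu, rfl⟩
      have a2 := hS k (by omega) y₀ hy₀ (3 + (k + 1) * g) e u (abs_le.2 ⟨by linarith, by linarith⟩)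
        he hu (by linarith) fun y hy hF => nxtQ T h0 (by omega) hy₀ hy hF fun z hz => by
          have := hcon z hz
          push_cast at this
          exact this.le
      linarith
  obtain ⟨x, hx, hx'⟩ := key N₁ le_rfl
  have := hb N₁ le_rfl x hx
  linarith

end Pg2

open Pg2 in
theorem pig2 (d : ℕ) (hd : 3 ≤ d) (h6 : Step2Stmt d) : Pig2Stmt d := by
  have hd2 : 2 ≤ d := by omega
  have h1 := bad d hd2 (avg d hd2)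
  obtain ⟨C, hC, h4⟩ := vol d hd2 (volA d hd2) (avg d hd2) h1
  refine small_iff.2 ?_
  filter_upwards [small_iff.1 h1, small_iff.1 (mono d hd2), small_iff.1 (low d hd2 h1),
    small_iff.1 h4, small_iff.1 (stepAll d hd2), small_iff.1 h6, ev_pos, ev_mul_le 3,
    ev_mul_le (200 * C), ev_mul_le (3 * (d : ℝ) ^ 2), ev_le_lg 17,
    ev_le_lg ((2 * C) ^ (4 * (d + 1))), ev_le_lg ((d : ℝ) ^ 8)]
    with ε h1 h2 h3 h4 h5 h6 h0 he3 heC hed hl hlC hld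
  intro δ L η S I N₁ Ψ G hnet hnet2 hη hεδ hδ hL1 hL hN hI hN₁ hεg2 hg hnum T
  have he : ε ≤ 1 / 2 := by linarith
  have hm : ∀ n < I * N₁, ∀ y₀ ∈ G n, Mn S (Ψ n) y₀ := fun n hn y₀ hy₀ => by
    have a1 := h1 δ L S (Ψ n) y₀ hL1 hL (T.loc n hn y₀ hy₀)
    have a2 : Continuous fun y => Bad S (Ψ n y) := (continuous_Bad h0 he S).comp (T.sm n).cont
    have a3 : closedBall y₀ 1 ⊆ ball y₀ 4 := closedBall_subset_ball (by norm_num)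
    refine ⟨?_, fun F H hF hB hH => ?_⟩
    · obtain ⟨y, hy, hb⟩ :=
        (h2 (fun _ => 0) _ y₀ continuous_const a2 (fun y => (Bad_mem h0 S _).1) a1).1
      exact ⟨y, a3 hy, far_of_Bad h0 he S hb⟩
    · exact (h2 F _ y₀ hF a2 (fun y => (Bad_mem h0 S _).1) a1).2 H hB
        fun y hy hb => hH y (a3 hy) (far_of_Bad h0 he S hb)
  obtain ⟨a, b, hmo, ha0, hb0, hub, hmem, hlub⟩ := seqs hd2 T h0 he hL1 hL hN hm
    fun n hn y₀ hy₀ a ha => h3 δ L a S (Ψ n) y₀ hL1 hL (T.loc n hn y₀ hy₀) ha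
  have hi : L ≤ ε⁻¹ := by rw [← one_div, le_div_iff₀ h0]; exact hL
  have hi2 := pow_le_pow_left₀ (by linarith) hi 2
  have hle : ∀ i ≤ I, i * N₁ ≤ I * N₁ := fun i hi => Nat.mul_le_mul_right _ hi
  have hge : ∀ i, 1 ≤ i → 1 ≤ i * N₁ := fun i hi => Nat.mul_pos hi hN₁
  obtain ⟨i₀, hi₀, hi₁, r1, r2⟩ := block (p := fun i => a (i * N₁)) (q := fun i => b (i * N₁)) h0 hl
    hI (fun i _ hi => (hmo _ _ (Nat.mul_le_mul_right _ (by omega)) (hle _ hi)).1)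
    (fun i _ hi => (hmo _ _ (Nat.mul_le_mul_right _ (by omega)) (hle _ hi)).2)
    (fun i hi hi' => ha0 _ (hge i hi) (hle i hi')) (fun i _ _ => hb0 _)
    ((hub _ le_rfl).1.trans (by linarith)) ((hub _ le_rfl).2.trans (by linarith))
  have hn1 : i₀ * N₁ + N₁ ≤ I * N₁ := by
    have := hle (i₀ + 1) hi₁
    rwa [add_one_mul] at this
  rw [add_one_mul] at r1 r2
  have hn0 := hge i₀ hi₀
  generalize i₀ * N₁ = n₀ at hn1 r1 r2 hn0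
  have hM0 := ha0 (n₀ + N₁) (by omega) hn1
  have hM0' := hb0 (n₀ + N₁)
  have hML := (hub _ hn1).1
  have hML' := (hub _ hn1).2
  have hA : ∀ k ≤ N₁, ∀ x ∈ Aset (Ψ (n₀ + k)) (G (n₀ + k)), x ≤ a (n₀ + N₁) := fun k hk x hx =>
    ((hmem _).1 x hx).trans (hmo _ _ (by omega) hn1).1
  have hB : ∀ k ≤ N₁, ∀ x ∈ Bset (Ψ (n₀ + k)) (G (n₀ + k)), x ≤ b (n₀ + N₁) := fun k hk x hx =>
    ((hmem _).2 x hx).trans (hmo _ _ (by omega) hn1).2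
  generalize a (n₀ + N₁) = M at r1 hM0 hML hA
  generalize b (n₀ + N₁) = M' at r2 hM0' hML' hB
  have e2 : 0 < ε ^ 2 := by positivity
  have e3 : 0 < ε ^ 3 := by positivity
  have hM : 0 < M := by linarith
  have hM' : 0 < M' := by linarith
  obtain ⟨n, rfl⟩ : ∃ n, d = n + 3 := ⟨d - 3, by omega⟩
  have hd1 : n + 3 - 1 = n + 2 := rfl
  rw [hd1] at hnum
  obtain ⟨ϱ, hϱ, hϱM⟩ : ∃ ϱ : ℝ, 0 < ϱ ∧ ϱ ^ (n + 2) = M :=
    ⟨M ^ (((n + 2 : ℕ) : ℝ)⁻¹), Real.rpow_pos_of_pos hM _,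
      Real.rpow_inv_natCast_pow hM.le (by omega)⟩
  have hn₀ : n₀ < I * N₁ := by omega
  have a4 : ε ^ 4 ≤ 1 / 81 := by
    have := pow_le_pow_left₀ h0.le (show ε ≤ 1 / 3 by linarith) 4
    linarith
  have hvol : M ≤ 2 * C * ϱ * M' := by
    have a1 := (hlub n₀ hn₀.le).1 (C * ϱ * M') (by
      rintro x ⟨y₀, hy₀, f, v, hf, hv, rfl⟩
      refine h4 δ L M M' ϱ S (Ψ n₀) y₀ hL1 hL (T.loc _ hn₀ y₀ hy₀) hM0 hM0' hϱ
        (by rw [hd1, hϱM]) (fun y hy hF => ⟨fun f v hf hv => ?_, fun i j v' v hv => ?_⟩) f v hf hv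
      · exact hA 1 hN₁ _ (nxtA T h0 hn₀ hy₀ hy hF hf hv)
      · exact hB 1 hN₁ _ (nxtB T h0 hn₀ hy₀ hy hF i j hv))
    linarith [aux1 h0 he3 hM0]
  have hN₁' : (0 : ℝ) < N₁ := by exact_mod_cast hN₁
  have hg0 : 0 < 11 / (N₁ : ℝ) := by positivity
  have hg1 : 11 / (N₁ : ℝ) ≤ 1 / 2 := aux2 (h0.trans_le hεδ) hδ hg0 hl hg
  have hgN : 11 ≤ N₁ * (11 / (N₁ : ℝ)) := le_of_eq (by field_simp)
  generalize 11 / (N₁ : ℝ) = g at hη hεg2 hg hnum hg0 hg1 hgN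
  rcases le_total (M ^ 8 * g ^ 5 * lg ε ^ 11) (δ ^ 6 * M' ^ 4) with hcase | hcase
  · have har := area_lb h0 (by linarith) hϱ hϱM hM0 hvol
    have he3' : ε ^ 3 ≤ M' / 100 := aux3 h0 hM' heC har
    have he4 : ε ^ 4 ≤ ε ^ 3 := pow_le_pow_of_le_one h0.le (by linarith) (by norm_num)
    obtain ⟨x, hx, hx'⟩ : ∃ x ∈ Bset (Ψ n₀) (G n₀), M' / 2 < x := by
      by_contra hc
      push Not at hc
      have a1 := (hlub n₀ hn₀.le).2 _ hc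
      rw [max_eq_left (by linarith)] at a1
      linarith
    obtain ⟨y₁, hy₁, i, j, v', v, hij, hv, rfl⟩ := exists_lt hx (by linarith)
    refine gains T h0 (by linarith) hn1 hM hM' hg0 hg1 hgN hij hA hB
      ⟨_, ⟨y₁, hy₁, 1, 0, v', v, by norm_num, hv, rfl⟩, ?_⟩
      fun k hk y₀ hy₀ H c₁ c₂ u' u hH hc hu b1 b2 b3 => ?_
    · refine le_trans ?_ (le_val h0 (by linarith) hM)
      rw [le_div_iff₀ hM']
      linarith
    · exact h5 δ L M M' H _ c₁ c₂ S (Ψ k) y₀ u' u i j hnet hij hεδ hδ hL1 hL (T.loc k hk y₀ hy₀)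
        hM0 hM0' hH (hεg2.trans (pow_le_of_le_one hg0.le (by linarith) two_ne_zero)) hg hcase hc hu b1 b2 b3
  · have hδ0 : 0 < δ := h0.trans_le hεδ
    obtain ⟨m1, m2⟩ := large hδ0 (by linarith) hg0 (by linarith) hg hC hϱ hϱM hvol hlC hcase
    obtain ⟨D, hD⟩ : ∃ D : ℝ, D = ((n + 3 : ℕ) : ℝ) ^ 2 := ⟨_, rfl⟩
    have hD1 : 1 ≤ D := by
      rw [hD]
      exact one_le_pow₀ (by exact_mod_cast (by omega : 1 ≤ n + 3))
    have hD4 : D ^ 4 ≤ lg ε := by rw [hD, ← pow_mul]; exact hld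
    have m3 : 1 ≤ D * M' := one_le_mul_of_one_le_of_one_le hD1 m2
    have m4 : D * M' ≤ ε⁻¹ ^ 3 := by
      have b1 : 3 * D ≤ ε⁻¹ := by rw [← one_div, le_div_iff₀ h0, hD]; exact hed
      calc D * M' ≤ D * (3 * ε⁻¹ ^ 2) := mul_le_mul_of_nonneg_left (by linarith) (by linarith)
        _ = 3 * D * ε⁻¹ ^ 2 := by ring
        _ ≤ ε⁻¹ * ε⁻¹ ^ 2 := mul_le_mul_of_nonneg_right b1 (by positivity)
        _ = _ := by ring
    obtain ⟨n1, n2, n3⟩ := numeric2 (X := (D * M') ^ 2) hδ0 (by linarith) hg0 (by linarith) hg hϱ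
      hϱM hML (by positivity) (by
        calc δ ^ 6 * ((D * M') ^ 2) ^ 2 = D ^ 4 * (δ ^ 6 * M' ^ 4) := by ring
          _ ≤ lg ε * (M ^ 8 * g ^ 5 * lg ε ^ 11) :=
              mul_le_mul hD4 hcase (by positivity) (by linarith)
          _ = _ := by ring) hnum
    obtain ⟨x, ⟨y₁, hy₁, f, v, hf, hv, rfl⟩, hx'⟩ : ∃ x ∈ Aset (Ψ n₀) (G n₀), 0.62 * M < x := by
      by_contra hc
      push Not at hc
      have a1 := (hlub n₀ hn₀.le).1 _ hc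
      linarith
    refine gains2 (M := M) (M₂ := D * M') T h0 hn1 hg0 hg1 hgN (fun k hk => ?_)
      ⟨_, ⟨y₁, hy₁, f, v, hf, hv, rfl⟩, ?_⟩ fun k hk y₀ hy₀ H e u hH he hu b1 b2 => ?_
    · rw [hD]
      exact Qset_le (T.sm _) _ hM hM'.le (by positivity) (hA k hk) (hB k hk)
    · exact (aux4 hM hx'.le).trans
        (le_add_of_nonneg_right (div_nonneg (sq4_nonneg _) (sq_nonneg _)))
    · refine h6 δ L M (D * M') H g η S _ y₀ e u hnet2 hη hεδ hδ hL1 hL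
        (T.loc _ (by omega) y₀ hy₀) m1 m3 m4 hH hg0 hεg2 hg n1 n2 n3 he hu
        (fun f v hf hv => hA k hk.le _ ⟨y₀, hy₀, f, v, hf, hv, rfl⟩) ?_ b1 b2
      rw [hD]
      exact sq4_le_B (T.sm _) hy₀ hM'.le (hB k hk.le)

end Pool.Agent.MP_20bec2_an.b2
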