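import Pool.Agent.MP_20bec2_an.b2.Basic

/-! The return weights on the three-dimensional plates. -/

namespace Pool.Agent.MP_20bec2_an.b2

open Pool.Agent.MP_20bec2_an.h7 Pool.Agent.MP_20bec2_an.h7.Ret Set

namespace Ret3

theorem a2_lip (x y : ℝ) : |a x ^ 2 - a y ^ 2| ≤ 16 * |x - y| := by
  have e : a x ^ 2 - a y ^ 2 = (a x - a y) * (a x + a y) := by ring
  have h1 : |a x + a y| ≤ 2 := by
    rw [abs_of_nonneg (add_nonneg (a_nonneg x) (a_nonneg y))]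
    linarith [a_le x, a_le y]
  rw [e, abs_mul]
  have := mul_le_mul (a_lip x y) h1 (abs_nonneg _) (by positivity)
  linarith

theorem a4_lip (x y : ℝ) : |a x ^ 4 - a y ^ 4| ≤ 32 * |x - y| := by
  have e : a x ^ 4 - a y ^ 4 = (a x ^ 2 - a y ^ 2) * (a x ^ 2 + a y ^ 2) := by ring
  have h1 : |a x ^ 2 + a y ^ 2| ≤ 2 := by
    rw [abs_of_nonneg (by positivity)]
    linarith [pow_le_one₀ (n := 2) (a_nonneg x) (a_le x),
      pow_le_one₀ (n := 2) (a_nonneg y) (a_le y)]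
  rw [e, abs_mul]
  have := mul_le_mul (a2_lip x y) h1 (abs_nonneg _) (by positivity)
  linarith

/-- the cut-off factor -/
noncomputable def u (x : ℝ) : ℝ := 1 - a x ^ 4

theorem u_nonneg (x : ℝ) : 0 ≤ u x :=
  sub_nonneg.2 (pow_le_one₀ (a_nonneg x) (a_le x))

theorem u_le (x : ℝ) : u x ≤ 1 := sub_le_self _ (pow_nonneg (a_nonneg x) 4)

theorem abs_u_le (x : ℝ) : |u x| ≤ 1 := by
  rw [abs_of_nonneg (u_nonneg x)]; exact u_le x

theorem u_lip (x y : ℝ) : |u x - u y| ≤ 32 * |x - y| := by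
  have e : u x - u y = -(a x ^ 4 - a y ^ 4) := by unfold u; ring
  rw [e, abs_neg]; exact a4_lip x y

theorem abs_l'_le (x : ℝ) : |l' x| ≤ 32 := by
  have h1 : |a x| ≤ 1 := by rw [abs_of_nonneg (a_nonneg x)]; exact a_le x
  have h2 : |Real.cos (2 * Real.pi * x)| ≤ 1 := Real.abs_cos_le_one _
  have h3 : |a x * (a x * (a x * Real.cos (2 * Real.pi * x)))| ≤ 1 := by
    rw [abs_mul, abs_mul, abs_mul]
    exact mul_le_one₀ h1 (by positivity) (mul_le_one₀ h1 (by positivity)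
      (mul_le_one₀ h1 (by positivity) h2))
  have h4 : |-(8 * Real.pi)| ≤ 32 := by
    rw [abs_neg, abs_of_pos (by positivity)]; linarith [Real.pi_le_four]
  unfold l'
  rw [abs_mul]
  have := mul_le_mul h4 h3 (abs_nonneg _) (by norm_num)
  linarith

theorem hasDerivAt_u {r : ℝ} (t : ℝ) :
    HasDerivAt (fun t => u (t / r)) (-(l' (t / r) / r)) t := by
  have h := (((hasDerivAt_a4 (t / r)).comp t ((hasDerivAt_id' t).div_const r))).const_sub 1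
  refine HasDerivAt.congr_deriv h ?_
  ring

theorem w_abs {c : ℝ} (hc : 0 < c) (y : ℝ) : |a y ^ 2 / c - 1| ≤ 1 / c + 1 := by
  have a1 : 0 ≤ a y ^ 2 / c := by positivity
  have a2 : a y ^ 2 / c ≤ 1 / c :=
    div_le_div_of_nonneg_right (pow_le_one₀ (a_nonneg y) (a_le y)) hc.le
  rw [abs_le]; constructor <;> linarith

theorem w_lip {c : ℝ} (hc : 0 < c) (x y : ℝ) :
    |(a x ^ 2 / c - 1) - (a y ^ 2 / c - 1)| ≤ 16 / c * |x - y| := by
  have e : (a x ^ 2 / c - 1) - (a y ^ 2 / c - 1) = (a x ^ 2 - a y ^ 2) / c := by ring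
  rw [e, abs_div, abs_of_pos hc, div_mul_eq_mul_div]
  exact div_le_div_of_nonneg_right (a2_lip x y) hc.le

/-- the unscaled weight -/
noncomputable def m0 (c x₁ x₂ y : ℝ) : ℝ := 1 + u x₁ * u x₂ * (a y ^ 2 / c - 1)

theorem m0_ge {c : ℝ} (hc : 0 < c) (x₁ x₂ y : ℝ) : 1 - u x₁ * u x₂ ≤ m0 c x₁ x₂ y := by
  have h : 0 ≤ u x₁ * u x₂ * (a y ^ 2 / c) :=
    mul_nonneg (mul_nonneg (u_nonneg _) (u_nonneg _)) (by positivity)
  unfold m0
  linarith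

theorem m0_ge1 {c : ℝ} (hc : 0 < c) (x₁ x₂ y : ℝ) : a x₁ ^ 4 ≤ m0 c x₁ x₂ y := by
  have h : u x₁ * u x₂ ≤ u x₁ := mul_le_of_le_one_right (u_nonneg _) (u_le _)
  have h' : u x₁ = 1 - a x₁ ^ 4 := rfl
  linarith [m0_ge hc x₁ x₂ y]

theorem m0_ge2 {c : ℝ} (hc : 0 < c) (x₁ x₂ y : ℝ) : a x₂ ^ 4 ≤ m0 c x₁ x₂ y := by
  have h : u x₁ * u x₂ ≤ u x₂ := mul_le_of_le_one_left (u_nonneg _) (u_le _)
  have h' : u x₂ = 1 - a x₂ ^ 4 := rfl
  linarith [m0_ge hc x₁ x₂ y]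

theorem m0_le {c : ℝ} (hc : 0 < c) (x₁ x₂ y : ℝ) : m0 c x₁ x₂ y ≤ 1 + (1 / c + 1) := by
  have h : |u x₁ * u x₂ * (a y ^ 2 / c - 1)| ≤ 1 / c + 1 := by
    rw [abs_mul, abs_mul]
    have h1 : |u x₁| * |u x₂| ≤ 1 := mul_le_one₀ (abs_u_le _) (abs_nonneg _) (abs_u_le _)
    have := mul_le_mul h1 (w_abs hc y) (abs_nonneg _) zero_le_one
    linarith
  unfold m0
  linarith [le_abs_self (u x₁ * u x₂ * (a y ^ 2 / c - 1))]

theorem m0_lip {c : ℝ} (hc : 0 < c) (x₁ x₂ y x₁' x₂' y' : ℝ) :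
    |m0 c x₁ x₂ y - m0 c x₁' x₂' y'| ≤
      32 * (1 / c + 1) * (|x₁ - x₁'| + |x₂ - x₂'| + |y - y'|) := by
  obtain ⟨w, hw⟩ : ∃ w, w = a y ^ 2 / c - 1 := ⟨_, rfl⟩
  obtain ⟨w', hw'⟩ : ∃ w', w' = a y' ^ 2 / c - 1 := ⟨_, rfl⟩
  have b1 : |w| ≤ 1 / c + 1 := hw ▸ w_abs hc y
  have b2 : |w - w'| ≤ 16 / c * |y - y'| := hw ▸ hw' ▸ w_lip hc y y'
  have e : m0 c x₁ x₂ y - m0 c x₁' x₂' y' = (u x₁ - u x₁') * (u x₂ * w) +
      (u x₂ - u x₂') * (u x₁' * w) + u x₁' * u x₂' * (w - w') := by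
    unfold m0; rw [← hw, ← hw']; ring
  have hK : 0 ≤ 1 / c + 1 := by positivity
  have t0 : ∀ x, |u x * w| ≤ 1 / c + 1 := fun x => by
    rw [abs_mul]
    have := mul_le_mul (abs_u_le x) b1 (abs_nonneg _) zero_le_one
    linarith
  have t1 : |(u x₁ - u x₁') * (u x₂ * w)| ≤ 32 * |x₁ - x₁'| * (1 / c + 1) := by
    rw [abs_mul]
    exact mul_le_mul (u_lip _ _) (t0 _) (abs_nonneg _) (by positivity)
  have t2 : |(u x₂ - u x₂') * (u x₁' * w)| ≤ 32 * |x₂ - x₂'| * (1 / c + 1) := by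
    rw [abs_mul]
    exact mul_le_mul (u_lip _ _) (t0 _) (abs_nonneg _) (by positivity)
  have t3 : |u x₁' * u x₂' * (w - w')| ≤ 32 * (1 / c + 1) * |y - y'| := by
    rw [abs_mul, abs_mul]
    have h1 : |u x₁'| * |u x₂'| ≤ 1 := mul_le_one₀ (abs_u_le _) (abs_nonneg _) (abs_u_le _)
    have h2 := mul_le_mul h1 b2 (abs_nonneg _) zero_le_one
    have h3 : 16 / c ≤ 32 * (1 / c + 1) := by
      have : 16 / c = 16 * (1 / c) := by ring
      have h4 : 0 ≤ 1 / c := by positivity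
      linarith
    have h5 := mul_le_mul_of_nonneg_right h3 (abs_nonneg (y - y'))
    linarith
  rw [e]
  have := (abs_add_le _ _).trans (add_le_add ((abs_add_le _ _).trans (add_le_add t1 t2)) t3)
  linarith

theorem prod3 {f f' g g' k k' : ℝ → ℝ} (hf : ∀ t, HasDerivAt f (f' t) t)
    (hg : ∀ t, HasDerivAt g (g' t) t) (hk : ∀ t, HasDerivAt k (k' t) t) (z h : ℝ × ℝ × ℝ) :
    fderiv ℝ (fun z : ℝ × ℝ × ℝ => f z.1 * g z.2.1 * k z.2.2) z h =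
      f' z.1 * g z.2.1 * k z.2.2 * h.1 + f z.1 * g' z.2.1 * k z.2.2 * h.2.1 +
        f z.1 * g z.2.1 * k' z.2.2 * h.2.2 := by
  have s1 : HasFDerivAt (fun z : ℝ × ℝ × ℝ => z.2.1)
      ((ContinuousLinearMap.fst ℝ ℝ ℝ).comp (ContinuousLinearMap.snd ℝ ℝ (ℝ × ℝ))) z :=
    ((ContinuousLinearMap.fst ℝ ℝ ℝ).comp (ContinuousLinearMap.snd ℝ ℝ (ℝ × ℝ))).hasFDerivAt
  have s2 : HasFDerivAt (fun z : ℝ × ℝ × ℝ => z.2.2)
      ((ContinuousLinearMap.snd ℝ ℝ ℝ).comp (ContinuousLinearMap.snd ℝ ℝ (ℝ × ℝ))) z :=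
    ((ContinuousLinearMap.snd ℝ ℝ ℝ).comp (ContinuousLinearMap.snd ℝ ℝ (ℝ × ℝ))).hasFDerivAt
  have h1 := (hf z.1).comp_hasFDerivAt z (hasFDerivAt_fst (𝕜 := ℝ) (p := z))
  have h2 := (hg z.2.1).comp_hasFDerivAt z s1
  have h3 := (hk z.2.2).comp_hasFDerivAt z s2
  have h4 := ((h1.mul h2).mul h3).fderiv
  have e : (fun z : ℝ × ℝ × ℝ => f z.1 * g z.2.1 * k z.2.2) =
      (f ∘ Prod.fst) * (g ∘ fun z : ℝ × ℝ × ℝ => z.2.1) * (k ∘ fun z : ℝ × ℝ × ℝ => z.2.2) := rfl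
  rw [e, h4]
  simp
  ring

theorem div_lip {r r' : ℝ} (h0 : 0 < r') (h : r' ≤ r) (x y : ℝ) :
    |x / r - y / r| ≤ |x - y| / r' := by
  rw [← sub_div, abs_div, abs_of_pos (h0.trans_le h)]
  exact div_le_div_of_nonneg_left (abs_nonneg _) h0 h

theorem sep {r r' x q : ℝ} (h0 : 0 < r') (h : r' ≤ r) (hx : a (x / r) ≠ 0)
    (hq : Int.fract (q / r) ∈ Icc (1 / 8 : ℝ) (3 / 8)) : r' / 8 ≤ |x - q| := by
  have h1 := a_sep hx hq
  have hr : 0 < r := h0.trans_le h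
  rw [← sub_div, abs_div, abs_of_pos hr, le_div_iff₀ hr] at h1
  linarith

end Ret3

open Ret3

theorem ret3 : Ret3Stmt := by
  obtain ⟨c, S, σ, hc, hS, hσ, hp, hb, -⟩ := exists_prim 2
  obtain ⟨c', S', σ', hc', hS', hσ', -, hb', -⟩ := exists_prim 4
  have k1 : 0 ≤ 1 / c := by positivity
  have k2 : 0 ≤ 1 / c' := by positivity
  obtain ⟨C, hC⟩ : ∃ C, C = 1 + 32 * (1 / c + 1) + 32 * S + S' + 32 * (1 / c') := ⟨_, rfl⟩
  have C1 : 1 ≤ C := by rw [hC]; linarith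
  refine ⟨C, C1, fun ε h0 h1 => ?_⟩
  have r1 : 0 < ε ^ 136 := by positivity
  have r2 : 0 < ε ^ 145 := by positivity
  have r12 : ε ^ 145 ≤ ε ^ 136 := pow_le_pow_of_le_one h0.le h1 (by norm_num)
  have hf : Continuous fun y => a y ^ 2 / c - 1 :=
    ((continuous_a.pow 2).div_const c).sub continuous_const
  have hu : ∀ t, HasDerivAt (fun t => u (t / ε ^ 136)) (-(l' (t / ε ^ 136) / ε ^ 136)) t :=
    fun t => hasDerivAt_u t
  have hv : ∀ t, HasDerivAt (fun t => ε ^ 145 * σ (t / ε ^ 145))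
      (a (t / ε ^ 145) ^ 2 / c - 1) t := fun t => hasDerivAt_scale hσ r2 t
  have cu : ContDiff ℝ 1 fun t => u (t / ε ^ 136) :=
    contDiff_of hu (by have := continuous_l'; fun_prop)
  have cv' : ContDiff ℝ 1 fun t => ε ^ 145 * σ (t / ε ^ 145) :=
    contDiff_of hv (by have := continuous_a; fun_prop)
  have bv : ∀ t, |ε ^ 145 * σ (t / ε ^ 145)| ≤ S * ε ^ 145 := fun t => by
    rw [abs_mul, abs_of_pos r2, mul_comm]
    exact mul_le_mul_of_nonneg_right (hb _) r2.le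
  have bu : ∀ t, |-(l' (t / ε ^ 136) / ε ^ 136)| ≤ 32 / ε ^ 136 := fun t => by
    rw [abs_neg, abs_div, abs_of_pos r1]
    exact div_le_div_of_nonneg_right (abs_l'_le _) r1.le
  have b9 : 32 / ε ^ 136 * (S * ε ^ 145) ≤ C * ε ^ 9 := by
    have e : 32 / ε ^ 136 * (S * ε ^ 145) = 32 * S * ε ^ 9 := by field_simp
    rw [e]
    exact mul_le_mul_of_nonneg_right (by rw [hC]; linarith) (by positivity)
  have blam : ∀ x : ℝ, ∀ m : ℝ, a x ^ 4 ≤ m → a x ^ 4 / c' ≤ C * m := fun x m hm => by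
    have p0 : 0 ≤ a x ^ 4 := pow_nonneg (a_nonneg x) 4
    have e : a x ^ 4 / c' = 1 / c' * a x ^ 4 := by ring
    rw [e]
    exact mul_le_mul (by rw [hC]; linarith) hm p0 (by linarith)
  refine ⟨fun z => m0 c (z.1 / ε ^ 136) (z.2.1 / ε ^ 136) (z.2.2 / ε ^ 145),
    fun z => u (z.1 / ε ^ 136) * u (z.2.1 / ε ^ 136) * (ε ^ 145 * σ (z.2.2 / ε ^ 145)),
    fun z => -(l' (z.1 / ε ^ 136) / ε ^ 136) * u (z.2.1 / ε ^ 136) *
      (ε ^ 145 * σ (z.2.2 / ε ^ 145)),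
    fun z => u (z.1 / ε ^ 136) * -(l' (z.2.1 / ε ^ 136) / ε ^ 136) *
      (ε ^ 145 * σ (z.2.2 / ε ^ 145)),
    fun t => a (t / ε ^ 136) ^ 4 / c', fun t => ε ^ 136 * σ' (t / ε ^ 136),
    ⟨fun z => ⟨?_, ?_⟩, fun z z' => ?_, fun z hz z' hz' => ?_, fun z => ?_⟩, ?_, fun z v => ?_,
    fun z => ⟨?_, ?_, ?_⟩, fun t => hasDerivAt_scale hσ' r1 t, fun t => ⟨?_, ?_, ?_⟩,
    fun t t' => ?_, fun z => ⟨blam _ _ (m0_ge1 hc _ _ _), blam _ _ (m0_ge2 hc _ _ _)⟩⟩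
  · exact (pow_nonneg (a_nonneg _) 4).trans (m0_ge1 hc _ _ _)
  · exact (m0_le hc _ _ _).trans (by rw [hC]; linarith)
  · refine (m0_lip hc _ _ _ _ _ _).trans ?_
    have d1 := div_lip r2 r12 z.1 z'.1
    have d2 := div_lip r2 r12 z.2.1 z'.2.1
    have d3 := div_lip r2 le_rfl z.2.2 z'.2.2
    have e : C / ε ^ 145 * dl1 z z' = C * (|z.1 - z'.1| / ε ^ 145 + |z.2.1 - z'.2.1| / ε ^ 145 +
        |z.2.2 - z'.2.2| / ε ^ 145) := by unfold dl1; ring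
    rw [e]
    exact mul_le_mul (by rw [hC]; linarith) (add_le_add (add_le_add d1 d2) d3) (by positivity)
      (by linarith)
  · have p1 := abs_nonneg (z.1 - z'.1)
    have p2 := abs_nonneg (z.2.1 - z'.2.1)
    have p3 := abs_nonneg (z.2.2 - z'.2.2)
    unfold dl1
    by_cases e1 : a (z.1 / ε ^ 136) = 0
    · by_cases e2 : a (z.2.1 / ε ^ 136) = 0
      · by_cases e3 : a (z.2.2 / ε ^ 145) = 0
        · exact absurd (by simp only [m0, u, e1, e2, e3]; norm_num) hz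
        · linarith [sep r2 le_rfl e3 hz'.2.2]
      · linarith [sep r2 r12 e2 hz'.2.1]
    · linarith [sep r2 r12 e1 hz'.1]
  · have e : ∀ s s' : ℝ, (∫ t in (0 : ℝ)..ε ^ 145, m0 c ((z.1 + s) / ε ^ 136)
        ((z.2.1 + s') / ε ^ 136) ((z.2.2 + t) / ε ^ 145)) = ε ^ 145 := fun s s' => by
      have := int_per hσ hf hp r2 1 (u ((z.1 + s) / ε ^ 136) * u ((z.2.1 + s') / ε ^ 136)) z.2.2
      rw [one_mul] at this
      exact this
    unfold bx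
    simp only [e, intervalIntegral.integral_const, sub_zero, smul_eq_mul]
    ring
  · exact ((cu.comp contDiff_fst).mul (cu.comp (contDiff_fst.comp contDiff_snd))).mul
      (cv'.comp (contDiff_snd.comp contDiff_snd))
  · rw [prod3 hu hu hv]
    simp only [m0]
    ring
  · rw [abs_mul, abs_mul]
    have q1 : |u (z.1 / ε ^ 136)| * |u (z.2.1 / ε ^ 136)| ≤ 1 :=
      mul_le_one₀ (abs_u_le _) (abs_nonneg _) (abs_u_le _)
    have q2 := mul_le_mul q1 (bv z.2.2) (abs_nonneg _) zero_le_one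
    have q3 : S * ε ^ 145 ≤ C * ε ^ 145 :=
      mul_le_mul_of_nonneg_right (by rw [hC]; linarith) r2.le
    linarith
  · rw [abs_mul, abs_mul]
    have q1 := mul_le_mul (bu z.1) (abs_u_le (z.2.1 / ε ^ 136)) (abs_nonneg _) (by positivity)
    rw [mul_one] at q1
    exact (mul_le_mul q1 (bv z.2.2) (abs_nonneg _) (by positivity)).trans b9
  · rw [abs_mul, abs_mul]
    have q1 := mul_le_mul (abs_u_le (z.1 / ε ^ 136)) (bu z.2.1) (abs_nonneg _) zero_le_one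
    rw [one_mul] at q1
    exact (mul_le_mul q1 (bv z.2.2) (abs_nonneg _) (by positivity)).trans b9
  · rw [abs_mul, abs_of_pos r1, mul_comm]
    exact mul_le_mul_of_nonneg_right ((hb' _).trans (by rw [hC]; linarith)) r1.le
  · exact div_nonneg (pow_nonneg (a_nonneg _) 4) hc'.le
  · have := blam (t / ε ^ 136) 1 (pow_le_one₀ (a_nonneg _) (a_le _))
    linarith
  · have d1 := div_lip r2 r12 t t'
    have d2 := a4_lip (t / ε ^ 136) (t' / ε ^ 136)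
    have e : C / ε ^ 145 * |t - t'| = C * (|t - t'| / ε ^ 145) := by ring
    have e' : |a (t / ε ^ 136) ^ 4 / c' - a (t' / ε ^ 136) ^ 4 / c'| =
        1 / c' * |a (t / ε ^ 136) ^ 4 - a (t' / ε ^ 136) ^ 4| := by
      rw [← sub_div, abs_div, abs_of_pos hc']; ring
    rw [e, e']
    have d3 := mul_le_mul_of_nonneg_left d2 k2
    have d4 : 32 * (1 / c') * |t / ε ^ 136 - t' / ε ^ 136| ≤ C * (|t - t'| / ε ^ 145) :=
      mul_le_mul (by rw [hC]; linarith) d1 (abs_nonneg _) (by linarith)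
    linarith

end Pool.Agent.MP_20bec2_an.b2
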