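import Pool.Agent.MP_20bec2_an.b2.Basic

/-! The potential gains at every level (project BIOM2). -/

set_option autoImplicit false

open MeasureTheory Set Metric Filter Topology

noncomputable section

namespace Pool.Agent.MP_20bec2_an.b2

open Pool.Agent.MP_20bec2_an.h7

variable {d : ℕ}

namespace Step2

/-- the product of the two singular values is large -/
theorem prod_big {k : ℕ} {C δ g M M₂ LL x₁ x₂ : ℝ} (hC : 1 ≤ C) (hδ : 0 < δ) (hg : 0 < g)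
    (hM : 0 < M) (hL : 1024 * C ^ 4 ≤ LL) (hx : 0 < x₂) (hx' : x₂ ≤ x₁)
    (h1 : (M ^ 4 * g ^ 3 * M₂ ^ 2 * LL ^ 12) ^ (k + 2) ≤ δ ^ (4 * (k + 2)) * M ^ (4 * (k + 1)))
    (h2 : M ^ (k + 1) ≤ C * x₁ * x₂ ^ (k + 1)) :
    1024 * (M ^ 4 * g ^ 3 * M₂ ^ 2 * LL ^ 9) ≤ δ ^ 4 * (x₁ * x₂) ^ 2 := by
  have hx1 : 0 < x₁ := hx.trans_le hx'
  have hC4 : 1 ≤ C ^ 4 := one_le_pow₀ hC
  have hL1 : 1 ≤ LL := by linarith
  have a1 : M ^ (4 * (k + 1)) ≤ C ^ 4 * ((x₁ * x₂) ^ 2) ^ (k + 2) := by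
    calc M ^ (4 * (k + 1)) = (M ^ (k + 1)) ^ 4 := by rw [← pow_mul, mul_comm]
      _ ≤ (C * x₁ * x₂ ^ (k + 1)) ^ 4 := pow_le_pow_left₀ (by positivity) h2 4
      _ = C ^ 4 * (x₁ ^ 4 * x₂ ^ (2 * k + 4) * x₂ ^ (2 * k)) := by ring
      _ ≤ C ^ 4 * (x₁ ^ 4 * x₂ ^ (2 * k + 4) * x₁ ^ (2 * k)) := by gcongr
      _ = _ := by ring
  have a2 : (M ^ 4 * g ^ 3 * M₂ ^ 2 * LL ^ 12) ^ (k + 2) ≤
      (C ^ 4 * (δ ^ 4 * (x₁ * x₂) ^ 2)) ^ (k + 2) := by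
    calc _ ≤ δ ^ (4 * (k + 2)) * (C ^ 4 * ((x₁ * x₂) ^ 2) ^ (k + 2)) :=
          h1.trans (mul_le_mul_of_nonneg_left a1 (by positivity))
      _ ≤ δ ^ (4 * (k + 2)) * ((C ^ 4) ^ (k + 2) * ((x₁ * x₂) ^ 2) ^ (k + 2)) := by
          gcongr
          exact le_self_pow₀ hC4 (by omega)
      _ = _ := by rw [mul_pow (C ^ 4), mul_pow (δ ^ 4), ← pow_mul δ]; ring
  have a3 := (pow_le_pow_iff_left₀ (by positivity) (by positivity) (by omega : k + 2 ≠ 0)).1 a2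
  have a4 : 1024 * C ^ 4 ≤ LL ^ 3 := hL.trans (le_self_pow₀ hL1 (by norm_num))
  refine le_of_mul_le_mul_left ?_ (show 0 < C ^ 4 by positivity)
  calc C ^ 4 * (1024 * (M ^ 4 * g ^ 3 * M₂ ^ 2 * LL ^ 9)) =
        M ^ 4 * g ^ 3 * M₂ ^ 2 * LL ^ 9 * (1024 * C ^ 4) := by ring
    _ ≤ M ^ 4 * g ^ 3 * M₂ ^ 2 * LL ^ 9 * LL ^ 3 := by gcongr
    _ = M ^ 4 * g ^ 3 * M₂ ^ 2 * LL ^ 12 := by ring
    _ ≤ _ := a3

/-- the main inequality of the test -/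
theorem main_num {δ g M M₂ LL x₁ x₂ Λ l n β : ℝ} (hδ : 0 < δ) (hM₂ : 0 < M₂) (hL : 0 < LL)
    (hl : 0 < l) (hβ : β = 1 / (LL * l)) (hβg : β ^ 2 ≤ 4 * g) (hΛ0 : 0 ≤ Λ) (hΛ : Λ ≤ M)
    (hx : 0 < x₂) (hn : δ * x₂ ≤ 4 * n * (β * M₂ * LL ^ 3))
    (h : 1024 * (M ^ 4 * g ^ 3 * M₂ ^ 2 * LL ^ 9) ≤ δ ^ 4 * (x₁ * x₂) ^ 2) :
    Λ ^ 4 * β ^ 2 * LL ≤ δ ^ 2 * l ^ 2 * x₁ ^ 2 * n ^ 2 := by
  have hβ0 : 0 < β := by rw [hβ]; positivity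
  have hl' : l * (LL * β) = 1 := by rw [hβ]; field_simp
  have a1 : (δ * x₂) ^ 2 ≤ (4 * n * (β * M₂ * LL ^ 3)) ^ 2 :=
    pow_le_pow_left₀ (by positivity) hn 2
  have a2 : Λ ^ 4 ≤ M ^ 4 := pow_le_pow_left₀ hΛ0 hΛ 4
  have a3 : (β ^ 2) ^ 3 ≤ (4 * g) ^ 3 := pow_le_pow_left₀ (by positivity) hβg 3
  refine le_of_mul_le_mul_right ?_ (show 0 < 16 * β ^ 4 * M₂ ^ 2 * LL ^ 8 by positivity)
  calc Λ ^ 4 * β ^ 2 * LL * (16 * β ^ 4 * M₂ ^ 2 * LL ^ 8) =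
        16 * (Λ ^ 4 * (β ^ 2) ^ 3 * M₂ ^ 2 * LL ^ 9) := by ring
    _ ≤ 16 * (M ^ 4 * (4 * g) ^ 3 * M₂ ^ 2 * LL ^ 9) := by gcongr
    _ = 1024 * (M ^ 4 * g ^ 3 * M₂ ^ 2 * LL ^ 9) := by ring
    _ ≤ δ ^ 4 * (x₁ * x₂) ^ 2 := h
    _ = δ ^ 2 * x₁ ^ 2 * (δ * x₂) ^ 2 := by ring
    _ ≤ δ ^ 2 * x₁ ^ 2 * (4 * n * (β * M₂ * LL ^ 3)) ^ 2 := by gcongr
    _ = δ ^ 2 * x₁ ^ 2 * (4 * n * (β * M₂ * LL ^ 3)) ^ 2 * (l * (LL * β)) ^ 2 := by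
        rw [hl']; ring
    _ = _ := by ring

/-- the perturbed frame generates a lattice -/
theorem lat {y₁ y₂ v₁ v₂ : E d} {x₁ x₂ ω : ℝ} (h1 : ‖v₁‖ = 1) (h2 : ‖v₂‖ = 1)
    (hx : x₂ ≤ x₁) (hω : 4 * ω ≤ x₂) (a1 : |inner ℝ y₁ v₁ - x₁| ≤ ω) (a2 : |inner ℝ y₁ v₂| ≤ ω)
    (a3 : |inner ℝ y₂ v₁| ≤ ω) (a4 : |inner ℝ y₂ v₂ - x₂| ≤ ω) (j₁ j₂ : ℝ) :
    x₂ / 2 * |j₁| ≤ ‖j₁ • y₁ + j₂ • y₂‖ ∧ x₂ / 2 * |j₂| ≤ ‖j₁ • y₁ + j₂ • y₂‖ := by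
  have hω0 : 0 ≤ ω := (abs_nonneg _).trans a2
  have hx2 : 0 ≤ x₂ := by linarith
  have hx1 : 0 ≤ x₁ := by linarith
  have b1 := abs_real_inner_le_norm (j₁ • y₁ + j₂ • y₂) v₁
  have b2 := abs_real_inner_le_norm (j₁ • y₁ + j₂ • y₂) v₂
  rw [h1, mul_one, inner_add_left, real_inner_smul_left, real_inner_smul_left] at b1
  rw [h2, mul_one, inner_add_left, real_inner_smul_left, real_inner_smul_left] at b2
  have c1 : |j₁| * x₁ ≤ ‖j₁ • y₁ + j₂ • y₂‖ + |j₁| * ω + |j₂| * ω := by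
    have e : j₁ * x₁ = (j₁ * inner ℝ y₁ v₁ + j₂ * inner ℝ y₂ v₁) - j₁ * (inner ℝ y₁ v₁ - x₁) -
        j₂ * inner ℝ y₂ v₁ := by ring
    rw [← abs_of_nonneg hx1, ← abs_mul, e]
    refine (abs_sub _ _).trans (add_le_add ((abs_sub _ _).trans (add_le_add b1 ?_)) ?_) <;>
      rw [abs_mul] <;> gcongr
  have c2 : |j₂| * x₂ ≤ ‖j₁ • y₁ + j₂ • y₂‖ + |j₁| * ω + |j₂| * ω := by
    have e : j₂ * x₂ = (j₁ * inner ℝ y₁ v₂ + j₂ * inner ℝ y₂ v₂) - j₁ * inner ℝ y₁ v₂ -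
        j₂ * (inner ℝ y₂ v₂ - x₂) := by ring
    rw [← abs_of_nonneg hx2, ← abs_mul, e]
    refine (abs_sub _ _).trans (add_le_add ((abs_sub _ _).trans (add_le_add b2 ?_)) ?_) <;>
      rw [abs_mul] <;> gcongr
  generalize ‖j₁ • y₁ + j₂ • y₂‖ = N at c1 c2
  have p1 := abs_nonneg j₁
  have p2 := abs_nonneg j₂
  generalize |j₁| = s at c1 c2 p1
  generalize |j₂| = t at c1 c2 p2
  have q1 := mul_le_mul_of_nonneg_left hω p1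
  have q2 := mul_le_mul_of_nonneg_left hω p2
  have q3 := mul_le_mul_of_nonneg_left hx p1
  rcases le_total s t with h | h
  · have q4 := mul_le_mul_of_nonneg_right h hω0
    have q5 := mul_le_mul_of_nonneg_right h hx2
    constructor <;> linarith
  · have q4 := mul_le_mul_of_nonneg_right h hω0
    have q5 := mul_le_mul_of_nonneg_right h hx2
    constructor <;> linarith

/-- changing the two vectors of the first pair -/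
theorem pert {z : E d → E d → E d → E d → ℝ} (h : Ml z) {f f' e e' v u : E d} {g M₂ : ℝ}
    (hf : ‖f‖ = 1) (he' : ‖e'‖ = 1) (hv : ‖v‖ = 1) (hu : ‖u‖ = 1) (h1 : ‖f' - f‖ ≤ g)
    (h2 : ‖e' - e‖ ≤ g) (hz : √(sq4 z) ≤ M₂) : |z f' e' v u - z f e v u| ≤ 2 * g * M₂ := by
  have hg : 0 ≤ g := (norm_nonneg _).trans h1
  have e1 : z f' e' v u - z f e v u = z (f' - f) e' v u + z f (e' - e) v u := by
    rw [h.sub1, h.sub2]; ring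
  have a1 := h.abs_le (f' - f) e' v u
  have a2 := h.abs_le f (e' - e) v u
  simp only [hf, he', hv, hu, mul_one, one_mul] at a1 a2
  have a3 : ‖f' - f‖ * √(sq4 z) ≤ g * M₂ := by gcongr
  have a4 : ‖e' - e‖ * √(sq4 z) ≤ g * M₂ := by gcongr
  rw [e1]
  refine (abs_add_le _ _).trans ?_
  linarith

/-- the potential in the perturbed direction -/
theorem val_num {C g M M₂ H Λ Λ' G t t' : ℝ} (hM : 0 < M) (hM₂ : 0 < M₂) (hg : 0 < g)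
    (hΛ0 : 0 ≤ Λ) (hΛ : Λ ≤ M) (hΛ' : Λ' ≤ M) (hΛ0' : 0 ≤ Λ') (h1 : Λ - Λ' ≤ g * M)
    (hG : G ≤ M₂ ^ 2) (h2 : G ≤ 2 * t + C * g * M₂ ^ 2) (h3 : t - 2 * g * G ≤ t')
    (h4 : H ≤ val2 M M₂ Λ G + 2 * g) : H - (C + 22) * g ≤ val2 M M₂ Λ' (2 * t') := by
  unfold val2 at h4 ⊢
  have a1 : 8 * Λ ^ 2 / M ^ 2 ≤ 8 * Λ' ^ 2 / M ^ 2 + 16 * g := by
    rw [div_add' _ _ _ (by positivity), div_le_div_iff_of_pos_right (by positivity)]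
    have : (Λ - Λ') * (Λ + Λ') ≤ g * M * (2 * M) :=
      (mul_le_mul_of_nonneg_right h1 (by linarith)).trans (by gcongr; linarith)
    linarith
  have a2 : G / M₂ ^ 2 ≤ 2 * t' / M₂ ^ 2 + (C + 4) * g := by
    rw [div_add' _ _ _ (by positivity), div_le_div_iff_of_pos_right (by positivity)]
    have := mul_le_mul_of_nonneg_left hG hg.le
    linarith
  linarith

theorem core (d : ℕ) (hd : 3 ≤ d) (h1 : T0Stmt d) (h2 : NbStmt d) (h3 : FrameStmt d)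
    (h4 : Slab2Stmt d) : ∀ᶠ ε in 𝓝[>] (0 : ℝ), ∀ (δ L M M₂ H g η : ℝ) (S : Sys d ε δ)
    (Ψ : E d → E d) (y₀ e u : E d), Net2 S η → η ≤ g → ε ≤ δ → δ ≤ 1 / 100 → 1 ≤ L →
    L * ε ≤ 1 → Loc S L Ψ y₀ → 1 ≤ M → 1 ≤ M₂ → M₂ ≤ ε⁻¹ ^ 3 → |H| ≤ 12 → 0 < g → ε ≤ g ^ 2 →
    g * lg ε ^ 11 ≤ δ ^ 4 → M₂ ^ 2 ≤ g * M ^ 4 →
    (M ^ 4 * g ^ 3 * M₂ ^ 2 * lg ε ^ 12) ^ (d - 1) ≤ δ ^ (4 * (d - 1)) * M ^ (4 * (d - 2)) →
    (g * lg ε ^ 10 * M₂ ^ 2) ^ (d - 2) * M₂ ^ 2 ≤ δ ^ (2 * (d - 2)) * M ^ (2 * (d - 2)) →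
    ‖e‖ = 1 → ‖u‖ = 1 → (∀ f v : E d, ‖f‖ = 1 → ‖v‖ = 1 → Af 1 Ψ y₀ f v ≤ M) →
    sq4 (Zf 1 Ψ y₀) ≤ M₂ ^ 2 → 3 ≤ val2 M M₂ (Af 1 Ψ y₀ e u) (sq4 (Zf 1 Ψ y₀)) →
    (∀ y ∈ ball y₀ 4, Far S (Ψ y) → Pot2 M M₂ H (ε ^ 160) Ψ y) → 0 ≤ Af 1 Ψ y₀ e u →
    H ≤ val2 M M₂ (Af 1 Ψ y₀ e u) (sq4 (Zf 1 Ψ y₀)) + 2 * g → False := by
  obtain ⟨C, hC, h2⟩ := h2
  obtain ⟨C', hC', h3⟩ := h3
  have h4 := h4 (C + 22) (by linarith)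
  have hd2 : 2 ≤ d := by omega
  filter_upwards [ev_pos, ev_mul_le 2, ev_le_lg 100, ev_le_lg (1024 * C' ^ 4), small_iff.1 h1,
    small_iff.1 h2, small_iff.1 h3, small_iff.1 h4, small_iff.1 (bad d hd2 (avg d hd2))]
    with ε h0 hε hLL hLC h1 h2 h3 h4 h5
  intro δ L M M₂ H g η S Ψ y₀ e u hnet hη hεδ hδ hL hLε hloc hM hM₂ hM₂' hH hg hεg hg1 hg2 hg3 hg4
    he hu hA hZ hval hpot hΛ0 hcon
  have hε2 : ε ≤ 1 / 2 := by linarith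
  have hδ0 : 0 < δ := h0.trans_le hεδ
  have hM0 : 0 < M := by linarith
  have hM₂0 : 0 < M₂ := by linarith
  have hL1 : 1 ≤ lg ε := by linarith
  have hL0 : 0 < lg ε := by linarith
  have hΨ : Sm ε⁻¹ Ψ := (loc_sm hloc).mono (by rw [← one_div, le_div_iff₀ h0]; exact hLε)
  have hml := ml_Zf hΨ.cd1 1 y₀
  have hδ4 : δ ^ 4 ≤ 1 := pow_le_one₀ hδ0.le (by linarith)
  have hgL : ∀ k ≤ 11, g * lg ε ^ k ≤ 1 := fun k hk =>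
    (mul_le_mul_of_nonneg_left (pow_le_pow_right₀ hL1 hk) hg.le).trans (hg1.trans hδ4)
  have hgL1 : g * lg ε ≤ 1 := by simpa using hgL 1 (by norm_num)
  have hg100 : g ≤ 1 / 100 := by nlinarith only [hgL1, hLL, hg]
  have hεg' : ε ≤ g := by nlinarith only [hεg, hg100, hg]
  have hΛM := hA e u he hu
  have hΛ2 : M ≤ 2 * Af 1 Ψ y₀ e u := by
    have a1 : sq4 (Zf 1 Ψ y₀) / M₂ ^ 2 ≤ 1 := (div_le_one (by positivity)).2 hZ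
    have a2 : 2 ≤ 8 * Af 1 Ψ y₀ e u ^ 2 / M ^ 2 := by unfold val2 at hval; linarith
    rw [le_div_iff₀ (by positivity)] at a2
    exact (pow_le_pow_iff_left₀ hM0.le (by linarith) two_ne_zero).1 (by linarith)
  have hZ' : √(sq4 (Zf 1 Ψ y₀)) ≤ M₂ := Real.sqrt_le_iff.2 ⟨hM₂0.le, hZ⟩
  obtain ⟨a, b, c, hbk⟩ := h1 g M M₂ H Ψ (fun y => Bad S (Ψ y)) y₀ e u hΨ
    ((continuous_Bad h0 hε2 S).comp hΨ.cont) (fun y => (Bad_mem h0 S _).1)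
    (h5 δ L S Ψ y₀ hL hLε hloc) hM hM₂ hH hεg' (by linarith) he hu
    (by rw [abs_of_nonneg hΛ0]; exact hΛM) hcon
    (fun y hy hb => hpot y (closedBall_subset_ball (by norm_num) hy) (far_of_Bad h0 hε2 S hb))
  have hnb := h2 g M M₂ Ψ y₀ e u a b c hΨ he hu hM hM₂ hg hεg hgL1 hg2 hΛ2 hZ hbk
  obtain ⟨f₁, f₂, v₁, v₂, x₁, x₂, hf, hv, hx0, hx, hz1, hz2, hx3, hx4⟩ :=
    h3 δ L g M M₂ H S Ψ y₀ e u a b c hδ0 (by linarith) hL hLε hloc he hu hM hM₂ hg (by linarith)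
      hεg' (abs_le.1 hH).2 hpot hΛ2 hZ hbk hg4
  have hv1 : ‖v₁‖ = 1 := hv.1.1
  have hv2 : ‖v₂‖ = 1 := hv.2.1.1
  have hx1M : x₁ ≤ M₂ := by
    have := hml.abs_le_one hf.1.1.le he.le hv1.le hu.le
    rw [hz1, real_inner_self_eq_norm_sq, hv1, one_pow, mul_one] at this
    exact (le_abs_self _).trans (this.trans hZ')
  -- the parameters
  obtain ⟨s, hs0, rfl⟩ : ∃ s : ℝ, 0 < s ∧ g = s ^ 2 :=
    ⟨√g, Real.sqrt_pos.2 hg, (Real.sq_sqrt hg.le).symm⟩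
  have hsL : lg ε * s ≤ 1 := by
    refine (pow_le_one_iff_of_nonneg (n := 2) (by positivity) two_ne_zero).1 ?_
    have := hgL 2 (by norm_num)
    linarith
  have hsx : s * M₂ * lg ε ^ 4 ≤ δ * x₂ :=
    (pow_le_pow_iff_left₀ (by positivity) (by positivity) two_ne_zero).1 (by linarith)
  obtain ⟨i, hi1, hi2⟩ := exists_nat_pow_near (x := 1 / (lg ε * s)) (y := (2 : ℝ))
    (by rw [one_le_div (by positivity)]; exact hsL) (by norm_num)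
  rw [le_div_iff₀ (by positivity)] at hi1
  rw [div_lt_iff₀ (by positivity), pow_succ] at hi2
  have hl1 : (1 : ℝ) ≤ 2 ^ i := one_le_pow₀ (by norm_num)
  have hl16 : (16 : ℝ) ^ i = (2 ^ i) ^ 4 := by rw [← pow_mul, mul_comm, pow_mul]; norm_num
  obtain ⟨l, hl⟩ : ∃ l : ℝ, l = 2 ^ i := ⟨_, rfl⟩
  rw [← hl] at hi1 hi2 hl1 hl16
  have hl0 : 0 < l := by linarith
  obtain ⟨β, hβ⟩ : ∃ β : ℝ, β = 1 / (lg ε * l) := ⟨_, rfl⟩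
  have hβ1 : s ≤ β := by rw [hβ, le_div_iff₀ (by positivity)]; linarith
  have hβ2 : β ≤ 2 * s := by rw [hβ, div_le_iff₀ (by positivity)]; linarith
  have hβ0 : 0 < β := by linarith
  have hβl : β * (lg ε * l) = 1 := by rw [hβ]; field_simp
  have hl4 : l ^ 4 * ε ≤ 1 := by
    have a1 : l * s ≤ 1 := by
      have : l * s * 1 ≤ l * s * lg ε := by gcongr
      linarith
    calc l ^ 4 * ε ≤ l ^ 4 * (s ^ 2) ^ 2 := by gcongr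
      _ = (l * s) ^ 4 := by ring
      _ ≤ 1 := pow_le_one₀ (by positivity) a1
  have hD : 0 < β * M₂ * lg ε ^ 3 := by positivity
  have hbig : 8 * (β * M₂ * lg ε ^ 3) ≤ δ * x₂ := by
    calc 8 * (β * M₂ * lg ε ^ 3) ≤ 8 * (2 * s * M₂ * lg ε ^ 3) := by gcongr
      _ = s * M₂ * lg ε ^ 3 * 16 := by ring
      _ ≤ s * M₂ * lg ε ^ 3 * lg ε := by gcongr; linarith
      _ = s * M₂ * lg ε ^ 4 := by ring
      _ ≤ _ := hsx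
  obtain ⟨j, hj1, hj2⟩ := exists_nat_pow_near (x := δ * x₂ / (2 * (β * M₂ * lg ε ^ 3)))
    (y := (2 : ℝ)) (by rw [one_le_div (by positivity)]; linarith) (by norm_num)
  rw [le_div_iff₀ (by positivity)] at hj1
  rw [div_lt_iff₀ (by positivity), pow_succ] at hj2
  have hn : ((2 ^ j : ℕ) : ℝ) = 2 ^ j := by push_cast; rfl
  have hn2 : 2 ≤ 2 ^ j := by
    have a1 : (2 : ℝ) * (β * M₂ * lg ε ^ 3) < 2 ^ j * (β * M₂ * lg ε ^ 3) := by linarith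
    have a2 := lt_of_mul_lt_mul_right a1 hD.le
    rw [← hn] at a2
    exact_mod_cast a2.le
  have hnl : (2 : ℝ) ^ j ≤ l := by
    have a0 : (0 : ℝ) < 2 ^ j := by positivity
    have a1 : δ * x₂ ≤ 1 * M₂ := by gcongr <;> linarith
    have a2 : lg ε ≤ lg ε ^ 3 := le_self_pow₀ hL1 (by norm_num)
    have a3 : 2 ^ j * (β * M₂ * lg ε) ≤ 2 ^ j * (β * M₂ * lg ε ^ 3) := by gcongr
    have a4 : 2 ^ j * (β * M₂ * lg ε) ≤ l * (β * M₂ * lg ε) := by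
      have : l * (β * M₂ * lg ε) = M₂ := by
        calc l * (β * M₂ * lg ε) = β * (lg ε * l) * M₂ := by ring
          _ = M₂ := by rw [hβl, one_mul]
      have a5 := mul_pos a0 hD
      linarith
    exact le_of_mul_le_mul_right a4 (by positivity)
  have hji : j ≤ i := by
    rw [hl] at hnl
    exact (pow_le_pow_iff_right₀ (by norm_num)).1 hnl
  obtain ⟨τ, e₁, e₂, htyp, he', he1, he2⟩ := hnet f₁ f₂ e hf i j (by rw [hl16]; exact hl4) hji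
  rw [← hl] at htyp
  replace he' := he'.trans hη
  replace he1 := he1.trans hη
  replace he2 := he2.trans hη
  have hu' := S.unit τ
  -- the stretch in the new direction
  have hw : ‖dd (cv 1 Ψ) u y₀‖ ≤ M := norm_le_of_inner hM0.le fun f hf => by
    rw [real_inner_comm, ← Af_eq_inner hΨ.cd1]; exact hA f u hf hu
  have hΛd : Af 1 Ψ y₀ e u - Af 1 Ψ y₀ (S.e τ) u ≤ s ^ 2 * M := by
    rw [← Af_sub1 hΨ.cd1, Af_eq_inner hΨ.cd1]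
    refine (real_inner_le_norm _ _).trans ?_
    rw [norm_sub_rev]
    gcongr
  have hΛM' := hA (S.e τ) u hu' hu
  have hΛ4 : M ≤ 4 * Af 1 Ψ y₀ (S.e τ) u := by nlinarith only [hΛd, hΛ2, hg100, hM0]
  have hval' := val_num hM0 hM₂0 hg hΛ0 hΛM hΛM' (by linarith) hΛd hZ hnb
    (hml.sq3_sub he.le hu'.le hg (by rwa [norm_sub_rev])) hcon
  obtain ⟨y₁, hy₁⟩ := hml.vec e₁ (S.e τ) u
  obtain ⟨y₂, hy₂⟩ := hml.vec e₂ (S.e τ) u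
  have p1 := fun v (hv : ‖v‖ = 1) => pert hml hf.1.1 hu' hv hu he1 he' hZ'
  have p2 := fun v (hv : ‖v‖ = 1) => pert hml hf.2.1.1 hu' hv hu he2 he' hZ'
  have q1 := p1 v₁ hv1
  have q2 := p1 v₂ hv2
  have q3 := p2 v₁ hv1
  have q4 := p2 v₂ hv2
  rw [← hy₁, hz1, real_inner_self_eq_norm_sq, hv1, one_pow, mul_one] at q1
  rw [← hy₁, hz1, hv.2.2, mul_zero, sub_zero] at q2
  rw [← hy₂, hz2, real_inner_comm v₁ v₂, hv.2.2, mul_zero, sub_zero] at q3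
  rw [← hy₂, hz2, real_inner_self_eq_norm_sq, hv2, one_pow, mul_one] at q4
  have hω : 4 * (2 * s ^ 2 * M₂) ≤ x₂ := by
    have a1 : s ≤ 1 := by nlinarith only [hg100, hs0]
    have a2 : 1 ≤ lg ε ^ 4 := one_le_pow₀ hL1
    have a3 : s * M₂ * 1 ≤ s * M₂ * lg ε ^ 4 := by gcongr
    have a4 : δ * x₂ ≤ 1 / 100 * x₂ := by gcongr
    have a5 : s * (s * M₂) ≤ 1 * (s * M₂) := by gcongr
    linarith
  have hmain : 1024 * (M ^ 4 * (s ^ 2) ^ 3 * M₂ ^ 2 * lg ε ^ 9) ≤ δ ^ 4 * (x₁ * x₂) ^ 2 := by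
    obtain ⟨k, rfl⟩ : ∃ k, d = k + 3 := ⟨d - 3, by omega⟩
    exact prod_big (k := k) hC' hδ0 hg hM0 hLC hx0 hx hg3 hx3
  refine h4 δ L l M M₂ H x₁ (x₂ / 2) (2 ^ j) S Ψ y₀ e₁ e₂ u v₁ y₁ y₂ τ hL hLε hloc htyp hv.1 hM hH
    hΛ4 (by linarith) (le_trans ?_ hval') hpot hy₁ hy₂
    ⟨hεδ, hδ, hl1, hl4, hn2, by rw [hn]; exact hnl, by linarith, hM₂, hM₂', ?_, ?_, ?_,
      by linarith, fun j₁ j₂ => lat hv1 hv2 hx hω q1 q2 q3 q4 j₁ j₂, ?_, ?_⟩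
  · rw [← hβ]
    have : (C + 22) * s ^ 2 ≤ (C + 22) * β ^ 2 := by gcongr
    linarith
  · refine norm_le_of_inner hM₂0.le fun v hv => ?_
    rw [hy₁]
    exact (le_abs_self _).trans ((hml.abs_le_one htyp.1.1.1.le hu'.le hv.le hu.le).trans hZ')
  · refine norm_le_of_inner hM₂0.le fun v hv => ?_
    rw [hy₂]
    exact (le_abs_self _).trans ((hml.abs_le_one htyp.1.2.1.1.le hu'.le hv.le hu.le).trans hZ')
  · have := (abs_le.1 q1).1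
    have h00 : 0 ≤ 2 * s ^ 2 * M₂ := by positivity
    linarith
  · rw [← hβ, hn]
    linarith
  · rw [← hβ, hn]
    exact main_num hδ0 hM₂0 hL0 hl0 hβ (by nlinarith only [hβ2, hβ0]) (by linarith) hΛM' hx0
      (by linarith) hmain

end Step2

theorem step2 (d : ℕ) (hd : 3 ≤ d) (h1 : T0Stmt d) (h2 : NbStmt d) (h3 : FrameStmt d)
    (h4 : Slab2Stmt d) : Step2Stmt d := by
  refine small_iff.2 ?_
  filter_upwards [Step2.core d hd h1 h2 h3 h4] with ε h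
  intro δ L M M₂ H g η S Ψ y₀ e u hnet hη hεδ hδ hL hLε hloc hM hM₂ hM₂' hH hg hεg hg1 hg2 hg3 hg4
    he hu hA hZ hval hpot
  by_contra hcon
  have hcon := not_lt.1 hcon
  rcases le_total 0 (Af 1 Ψ y₀ e u) with h0 | h0
  · exact h δ L M M₂ H g η S Ψ y₀ e u hnet hη hεδ hδ hL hLε hloc hM hM₂ hM₂' hH hg hεg hg1 hg2 hg3
      hg4 he hu hA hZ hval hpot h0 hcon
  · have e1 := Af_neg2 (loc_sm hloc).cd1 1 y₀ e u
    have e2 : val2 M M₂ (Af 1 Ψ y₀ e (-u)) (sq4 (Zf 1 Ψ y₀)) =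
        val2 M M₂ (Af 1 Ψ y₀ e u) (sq4 (Zf 1 Ψ y₀)) := by
      rw [e1, val2, val2, neg_sq]
    exact h δ L M M₂ H g η S Ψ y₀ e (-u) hnet hη hεδ hδ hL hLε hloc hM hM₂ hM₂' hH hg hεg hg1 hg2
      hg3 hg4 he (by rwa [norm_neg]) hA hZ (by rwa [e2]) hpot (by rw [e1]; linarith) (by rwa [e2])

end Pool.Agent.MP_20bec2_an.b2
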