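import Pool.Agent.MP_20bec2_an.b2.Basic

/-! Tightness in the bulk (project BIOM2). -/

set_option autoImplicit false

open MeasureTheory Set Metric Filter Topology

noncomputable section

namespace Pool.Agent.MP_20bec2_an.b2

open Pool.Agent.MP_20bec2_an.h7

namespace T0

variable {d : ℕ}

/-- the inner product of two tensors -/
def ip (z z' : E d → E d → E d → E d → ℝ) : ℝ :=
  ∑ p : Fin d × Fin d × Fin d × Fin d, z (ax p.1) (ax p.2.1) (ax p.2.2.1) (ax p.2.2.2) *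
    z' (ax p.1) (ax p.2.1) (ax p.2.2.1) (ax p.2.2.2)

theorem sq4_eq (z : E d → E d → E d → E d → ℝ) : sq4 z = ip z z := by
  simp only [sq4, ip, Fintype.sum_prod_type, sq]

theorem sq4_split (z z' : E d → E d → E d → E d → ℝ) :
    sq4 z = sq4 (z - z') + 2 * ip z z' - sq4 z' := by
  simp only [sq4_eq, ip, Pi.sub_apply, Finset.mul_sum, ← Finset.sum_add_distrib,
    ← Finset.sum_sub_distrib]
  exact Finset.sum_congr rfl fun p _ => by ring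

theorem continuous_ip {Ψ : E d → E d} (h : ContDiff ℝ 1 Ψ) (s : ℝ)
    (z : E d → E d → E d → E d → ℝ) : Continuous fun y => ip (Zf s Ψ y) z :=
  continuous_finsetSum _ fun _ _ => (continuous_Zf h s _ _ _ _).mul continuous_const

theorem mean_ip {L s : ℝ} {Ψ : E d → E d} (h : Sm L Ψ) (hs : 0 ≤ s) (y₀ : E d) :
    sq4 (Zf 1 Ψ y₀) - (d : ℝ) ^ 4 * (Cw d * (2 * L ^ 2) * s * (2 * L ^ 2)) ≤
      cv 1 (fun y => ip (Zf s Ψ y) (Zf 1 Ψ y₀)) y₀ := by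
  have e : (d : ℝ) ^ 4 * (Cw d * (2 * L ^ 2) * s * (2 * L ^ 2)) =
      ∑ _p : Fin d × Fin d × Fin d × Fin d, Cw d * (2 * L ^ 2) * s * (2 * L ^ 2) := by
    rw [Finset.sum_const, Finset.card_univ, nsmul_eq_mul]
    simp only [Fintype.card_prod, Fintype.card_fin]
    push_cast
    ring
  rw [sq4_eq, e]
  unfold ip
  rw [cv_sum (G := fun (p : Fin d × Fin d × Fin d × Fin d) y =>
      Zf s Ψ y (ax p.1) (ax p.2.1) (ax p.2.2.1) (ax p.2.2.2) *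
        Zf 1 Ψ y₀ (ax p.1) (ax p.2.1) (ax p.2.2.1) (ax p.2.2.2)) _
    fun p _ => (continuous_Zf h.cd1 s _ _ _ _).mul continuous_const, ← Finset.sum_sub_distrib]
  refine Finset.sum_le_sum fun p _ => ?_
  rw [cv_mul_const]
  have n := fun i : Fin d => (norm_ax i).le
  have h1 := cv_cv (continuous_jac (Vol.contDiff_co h.cd1 (ax p.1))
    (Vol.contDiff_co h.cd1 (ax p.2.1)) (ax p.2.2.1) (ax p.2.2.2)) one_pos hs
    (fun z => abs_jac_le' (sm_co h (n _)) (sm_co h (n _)) (n _) (n _) z) y₀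
  have h2 := abs_Zf_le h zero_le_one y₀ (n p.1) (n p.2.1) (n p.2.2.1) (n p.2.2.2)
  rw [div_one, Real.norm_eq_abs] at h1
  change |cv 1 (fun y => Zf s Ψ y (ax p.1) (ax p.2.1) (ax p.2.2.1) (ax p.2.2.2)) y₀ -
    Zf 1 Ψ y₀ (ax p.1) (ax p.2.1) (ax p.2.2.1) (ax p.2.2.2)| ≤ _ at h1
  generalize cv 1 (fun y => Zf s Ψ y (ax p.1) (ax p.2.1) (ax p.2.2.1) (ax p.2.2.2)) y₀ = x at h1
  generalize Zf 1 Ψ y₀ (ax p.1) (ax p.2.1) (ax p.2.2.1) (ax p.2.2.2) = x₀ at h1 h2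
  have h3 : |(x - x₀) * x₀| ≤ Cw d * (2 * L ^ 2) * s * (2 * L ^ 2) := by
    rw [abs_mul]
    exact mul_le_mul h1 h2 (abs_nonneg _) ((abs_nonneg _).trans h1)
  have := (abs_le.1 h3).1
  nlinarith

/-- the operator norm from the bilinear form -/
theorem op_sq_le (D : E d →L[ℝ] E d) {K : ℝ} (hK : 0 ≤ K)
    (h : ∀ f v : E d, ‖f‖ = 1 → ‖v‖ = 1 → inner ℝ f (D v) ^ 2 ≤ K) : ‖D‖ ^ 2 ≤ K := by
  have : ‖D‖ ≤ √K := by
    refine ContinuousLinearMap.opNorm_le_of_unit_norm (Real.sqrt_nonneg _) fun v hv => ?_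
    refine norm_le_of_inner (Real.sqrt_nonneg _) fun f hf => ?_
    rw [real_inner_comm]
    exact Real.le_sqrt_of_sq_le (h f v hf hv)
  calc ‖D‖ ^ 2 ≤ √K ^ 2 := pow_le_pow_left₀ (norm_nonneg _) this 2
    _ = K := Real.sq_sqrt hK

theorem sq_sub {x e : E d} (he : ‖e‖ = 1) (Λ : ℝ) :
    ‖x - Λ • e‖ ^ 2 + 2 * Λ * inner ℝ e x - Λ ^ 2 = ‖x‖ ^ 2 := by
  rw [norm_sub_sq_real, real_inner_smul_right, norm_smul, he, Real.norm_eq_abs, mul_one, sq_abs,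
    real_inner_comm]
  ring

theorem inner_le {x e f : E d} (hf : ‖f‖ ≤ 1) (Λ : ℝ) :
    |inner ℝ f x - Λ * inner ℝ f e| ≤ ‖x - Λ • e‖ := by
  rw [← real_inner_smul_right, ← inner_sub_right]
  exact (abs_real_inner_le_norm _ _).trans (mul_le_of_le_one_left (norm_nonneg _) hf)

theorem norm_le {x e : E d} {Λ t : ℝ} (he : ‖e‖ = 1) (hx : ‖x‖ ≤ t) (hΛ : |Λ| ≤ t) :
    ‖x - Λ • e‖ ≤ 2 * t := by
  have := norm_sub_le x (Λ • e)
  rw [norm_smul, he, Real.norm_eq_abs, mul_one] at this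
  linarith

end T0

open T0 in
theorem t0 (d : ℕ) (_hd : 3 ≤ d) : T0Stmt d := by
  rw [T0Stmt, h7.small_iff]
  filter_upwards [ev_pos, ev_mul_le 3, ev_mul_le (48 * Cw d), ev_mul_le (24 * (d : ℝ) ^ 4 * Cw d),
    ev_mul_le (20 + 4 * (d : ℝ) ^ 4)] with ε h0 h3 hC1 hC2 hC3
  intro g M M₂ H Ψ Bd y₀ e u hΨ cB nB mB hM hM₂ hH hg hg1 he hu _ hHv hgood
  have h1 : ε ≤ 1 := by linarith
  have hs : 0 ≤ ε ^ 160 := by positivity
  have ht : 1 ≤ ε⁻¹ := (one_le_inv₀ h0).2 h1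
  have hte : ε⁻¹ * ε = 1 := inv_mul_cancel₀ h0.ne'
  have hCw : 0 ≤ Cw d := zero_le_one.trans one_le_Cw
  obtain ⟨hH1, hH2⟩ := abs_le.1 hH
  set Λ := Af 1 Ψ y₀ e u with hΛ
  have hΛt : |Λ| ≤ ε⁻¹ := abs_Af_le hΨ zero_le_one y₀ he.le hu.le
  obtain ⟨D, hD⟩ : ∃ D : E d → E d →L[ℝ] E d, D = fderiv ℝ (cv (ε ^ 160) Ψ) := ⟨_, rfl⟩
  have cD : Continuous D := hD ▸ (hΨ.cv (ε ^ 160)).cd1.continuous_fderiv one_ne_zero
  have bD : ∀ y, ‖D y‖ ≤ ε⁻¹ := hD ▸ (hΨ.cv (ε ^ 160)).bd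
  have hA : ∀ y f v, Af (ε ^ 160) Ψ y f v = inner ℝ f (D y v) := fun y f v => by
    rw [Af_eq_inner hΨ.cd1, hD]; rfl
  obtain ⟨p, hp⟩ : ∃ p : ℝ, p = (M ^ 2)⁻¹ := ⟨_, rfl⟩
  obtain ⟨q, hq⟩ : ∃ q : ℝ, q = (M₂ ^ 2)⁻¹ := ⟨_, rfl⟩
  have M2 : 1 ≤ M ^ 2 := one_le_pow₀ hM
  have M22 : 1 ≤ M₂ ^ 2 := one_le_pow₀ hM₂
  have p0 : 0 < p := by rw [hp]; positivity
  have q0 : 0 < q := by rw [hq]; positivity
  have p1 : p ≤ 1 := by rw [hp]; exact inv_le_one_of_one_le₀ M2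
  have q1 : q ≤ 1 := by rw [hq]; exact inv_le_one_of_one_le₀ M22
  have pM : p * M ^ 2 = 1 := by rw [hp]; exact inv_mul_cancel₀ (by linarith)
  have qM : q * M₂ ^ 2 = 1 := by rw [hq]; exact inv_mul_cancel₀ (by linarith)
  have hval : ∀ A G : ℝ, val2 M M₂ A G = 8 * p * A ^ 2 + q * G := fun A G => by
    rw [val2, hp, hq]; ring
  have n := fun i : Fin d => (norm_ax i).le
  -- the pointwise bound on the ball
  have pt : ∀ y ∈ closedBall y₀ 1,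
      8 * p * ‖D y‖ ^ 2 + q * sq4 (Zf (ε ^ 160) Ψ y) ≤ H + ε⁻¹ ^ 5 * Bd y := fun y hy => by
    have t5 : 0 ≤ ε⁻¹ ^ 5 := by positivity
    by_cases hB : Bd y < 1
    · have hP := hgood y hy hB
      have k : ∀ f v : E d, ‖f‖ = 1 → ‖v‖ = 1 →
          inner ℝ f (D y v) ^ 2 ≤ (H - q * sq4 (Zf (ε ^ 160) Ψ y)) / (8 * p) := fun f v hf hv => by
        have := hP f v hf hv
        rw [hval, hA] at this
        rw [le_div_iff₀ (by positivity)]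
        linarith
      have := op_sq_le (D y) ((sq_nonneg _).trans (k e u he hu)) k
      rw [le_div_iff₀ (by positivity)] at this
      nlinarith [mul_nonneg t5 (nB y)]
    · have b1 : ‖D y‖ ^ 2 ≤ ε⁻¹ ^ 2 := pow_le_pow_left₀ (norm_nonneg _) (bD y) 2
      have b2 : sq4 (Zf (ε ^ 160) Ψ y) ≤ (d : ℝ) ^ 4 * (2 * ε⁻¹ ^ 2) ^ 2 :=
        sq4_le_of fun i j k l => abs_Zf_le hΨ hs y (n i) (n j) (n k) (n l)
      have b3 : ε⁻¹ ^ 2 ≤ ε⁻¹ ^ 4 := pow_le_pow_right₀ ht (by norm_num)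
      have b4 : 1 ≤ ε⁻¹ ^ 4 := one_le_pow₀ ht
      have b5 : (20 + 4 * (d : ℝ) ^ 4) * ε⁻¹ ^ 4 ≤ ε⁻¹ ^ 5 := by
        have : (20 + 4 * (d : ℝ) ^ 4) * ε * ε⁻¹ ^ 5 ≤ 1 * ε⁻¹ ^ 5 :=
          mul_le_mul_of_nonneg_right hC3 t5
        calc _ = (20 + 4 * (d : ℝ) ^ 4) * (ε⁻¹ * ε) * ε⁻¹ ^ 4 := by rw [hte, mul_one]
          _ = (20 + 4 * (d : ℝ) ^ 4) * ε * ε⁻¹ ^ 5 := by ring
          _ ≤ _ := by linarith
      have b6 : p * ‖D y‖ ^ 2 ≤ ‖D y‖ ^ 2 := mul_le_of_le_one_left (sq_nonneg _) p1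
      have b7 : q * sq4 (Zf (ε ^ 160) Ψ y) ≤ sq4 (Zf (ε ^ 160) Ψ y) :=
        mul_le_of_le_one_left (sq4_nonneg _) q1
      have b8 : ε⁻¹ ^ 5 ≤ ε⁻¹ ^ 5 * Bd y := le_mul_of_one_le_right t5 (not_lt.1 hB)
      nlinarith
  have cR : Continuous fun y => H + ε⁻¹ ^ 5 * Bd y := continuous_const.add (continuous_const.mul cB)
  have mR : cv 1 (fun y => H + ε⁻¹ ^ 5 * Bd y) y₀ ≤ H + ε ^ 7 := by
    rw [cv_add continuous_const (cB.const_mul _), cv_const, cv_const_mul]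
    have : ε⁻¹ ^ 5 * cv 1 Bd y₀ ≤ ε⁻¹ ^ 5 * ε ^ 12 := mul_le_mul_of_nonneg_left mB (by positivity)
    have e7 : ε⁻¹ ^ 5 * ε ^ 12 = ε ^ 7 := by field_simp
    linarith
  have e1 : 3 * ε ^ 7 ≤ ε ^ 1 := mul_pow_le h0 h1 h3 (by norm_num)
  have e2 : 48 * Cw d * ε ^ 158 ≤ ε ^ 1 := mul_pow_le h0 h1 hC1 (by norm_num)
  have e3 : 24 * (d : ℝ) ^ 4 * Cw d * ε ^ 156 ≤ ε ^ 1 := mul_pow_le h0 h1 hC2 (by norm_num)
  rw [pow_one] at e1 e2 e3
  have cA := continuous_Af hΨ.cd1 (ε ^ 160) e u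
  have cS := continuous_sq4 hΨ.cd1 (ε ^ 160) (Zf 1 Ψ y₀)
  have cW := continuous_ip hΨ.cd1 (ε ^ 160) (Zf 1 Ψ y₀)
  have mA : Λ ^ 2 - Cw d * ε ^ 158 ≤ Λ * cv 1 (fun y => Af (ε ^ 160) Ψ y e u) y₀ := by
    have k := cv_cv (continuous_dd (Vol.contDiff_co hΨ.cd1 e) u) one_pos hs
      (fun z => sm_dd_le (sm_co hΨ he.le) hu.le z) y₀
    rw [div_one, Real.norm_eq_abs] at k
    change |cv 1 (fun y => Af (ε ^ 160) Ψ y e u) y₀ - Λ| ≤ _ at k
    generalize cv 1 (fun y => Af (ε ^ 160) Ψ y e u) y₀ = x at k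
    have k2 : |(x - Λ) * Λ| ≤ Cw d * ε⁻¹ * ε ^ 160 * ε⁻¹ := by
      rw [abs_mul]
      exact mul_le_mul k hΛt (abs_nonneg _) ((abs_nonneg _).trans k)
    have e8 : Cw d * ε⁻¹ * ε ^ 160 * ε⁻¹ = Cw d * ε ^ 158 := by field_simp
    rw [e8] at k2
    have := (abs_le.1 k2).1
    nlinarith
  have mW := mean_ip hΨ hs y₀
  have e9 : (d : ℝ) ^ 4 * (Cw d * (2 * ε⁻¹ ^ 2) * ε ^ 160 * (2 * ε⁻¹ ^ 2)) =
      4 * (d : ℝ) ^ 4 * Cw d * ε ^ 156 := by field_simp; norm_num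
  rw [e9] at mW
  have key : ∀ a : E d → ℝ, Continuous a →
      (∀ y, a y ^ 2 + 2 * Λ * Af (ε ^ 160) Ψ y e u - Λ ^ 2 ≤ ‖D y‖ ^ 2) →
      cv 1 (fun y => a y ^ 2) y₀ ≤ g * M ^ 2 ∧
        cv 1 (fun y => sq4 (Zf (ε ^ 160) Ψ y - Zf 1 Ψ y₀)) y₀ ≤ 3 * g * M₂ ^ 2 := fun a ca ha => by
    have c1 : Continuous fun y => 8 * p * a y ^ 2 := continuous_const.mul (ca.pow 2)
    have c2 : Continuous fun y => q * sq4 (Zf (ε ^ 160) Ψ y - Zf 1 Ψ y₀) := continuous_const.mul cS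
    have c3 : Continuous fun y => 16 * p * Λ * Af (ε ^ 160) Ψ y e u := continuous_const.mul cA
    have c4 : Continuous fun y => 2 * q * ip (Zf (ε ^ 160) Ψ y) (Zf 1 Ψ y₀) :=
      continuous_const.mul cW
    have k := cv_mono (G := fun y => 8 * p * a y ^ 2 + q * sq4 (Zf (ε ^ 160) Ψ y - Zf 1 Ψ y₀) +
      16 * p * Λ * Af (ε ^ 160) Ψ y e u + 2 * q * ip (Zf (ε ^ 160) Ψ y) (Zf 1 Ψ y₀) -
      (8 * p * Λ ^ 2 + q * sq4 (Zf 1 Ψ y₀))) ((((c1.add c2).add c3).add c4).sub continuous_const)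
      cR zero_le_one (y := y₀) fun y hy => by
        have k1 := pt y hy
        have k2 := mul_le_mul_of_nonneg_left (ha y) p0.le
        rw [sq4_split _ (Zf 1 Ψ y₀)] at k1
        linarith
    rw [cv_sub (((c1.fun_add c2).fun_add c3).fun_add c4) continuous_const,
      cv_add ((c1.fun_add c2).fun_add c3) c4, cv_add (c1.fun_add c2) c3, cv_add c1 c2, cv_const, cv_const_mul, cv_const_mul, cv_const_mul,
      cv_const_mul] at k
    rw [hval] at hHv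
    have n1 : 0 ≤ cv 1 (fun y => a y ^ 2) y₀ := cv_nonneg (fun _ => sq_nonneg _) _ _
    have n2 : 0 ≤ cv 1 (fun y => sq4 (Zf (ε ^ 160) Ψ y - Zf 1 Ψ y₀)) y₀ :=
      cv_nonneg (fun _ => sq4_nonneg _) _ _
    generalize cv 1 (fun y => a y ^ 2) y₀ = xa at *
    generalize cv 1 (fun y => sq4 (Zf (ε ^ 160) Ψ y - Zf 1 Ψ y₀)) y₀ = xs at *
    have k3 := mul_le_mul_of_nonneg_left mA p0.le
    have k4 := mul_le_mul_of_nonneg_left mW q0.le
    have k5 : p * (Cw d * ε ^ 158) ≤ Cw d * ε ^ 158 := mul_le_of_le_one_left (by positivity) p1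
    have k6 : q * (4 * (d : ℝ) ^ 4 * Cw d * ε ^ 156) ≤ 4 * (d : ℝ) ^ 4 * Cw d * ε ^ 156 :=
      mul_le_of_le_one_left (by positivity) q1
    have k7 : 8 * p * xa + q * xs ≤ 3 * g := by linarith
    have k8 := mul_nonneg p0.le n1
    have k9 := mul_nonneg q0.le n2
    constructor
    · have : p * xa * M ^ 2 ≤ g * M ^ 2 := mul_le_mul_of_nonneg_right (by linarith) (sq_nonneg _)
      calc xa = p * M ^ 2 * xa := by rw [pM, one_mul]
        _ ≤ _ := by linarith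
    · have : q * xs * M₂ ^ 2 ≤ 3 * g * M₂ ^ 2 :=
        mul_le_mul_of_nonneg_right (by linarith) (sq_nonneg _)
      calc xs = q * M₂ ^ 2 * xs := by rw [qM, one_mul]
        _ ≤ _ := by linarith
  have bu : ∀ y, ‖D y u‖ ≤ ‖D y‖ := fun y => by
    have := (D y).le_opNorm u
    rwa [hu, mul_one] at this
  have be : ∀ y, ‖ContinuousLinearMap.adjoint (D y) e‖ ≤ ‖D y‖ := fun y => by
    have := (ContinuousLinearMap.adjoint (D y)).le_opNorm e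
    rwa [he, mul_one, LinearIsometryEquiv.norm_map] at this
  have ca : Continuous fun y => ‖D y u - Λ • e‖ :=
    ((cD.clm_apply continuous_const).sub continuous_const).norm
  have cb : Continuous fun y => ‖ContinuousLinearMap.adjoint (D y) e - Λ • u‖ :=
    ((((ContinuousLinearMap.adjoint (𝕜 := ℝ) (E := E d) (F := E d)).continuous.comp cD).clm_apply
      continuous_const).sub continuous_const).norm
  obtain ⟨ma, mz⟩ := key _ ca fun y => by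
    rw [hA, sq_sub he]
    exact pow_le_pow_left₀ (norm_nonneg _) (bu y) 2
  obtain ⟨mb, -⟩ := key _ cb fun y => by
    rw [hA, ← ContinuousLinearMap.adjoint_inner_left, real_inner_comm, sq_sub hu]
    exact pow_le_pow_left₀ (norm_nonneg _) (be y) 2
  refine ⟨fun y => ‖D y u - Λ • e‖, fun y => ‖ContinuousLinearMap.adjoint (D y) e - Λ • u‖,
    fun y => ‖D y‖, ca, cb, cD.norm, fun y => ⟨⟨norm_nonneg _, norm_le he ((bu y).trans (bD y)) hΛt⟩,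
      ⟨norm_nonneg _, norm_le hu ((be y).trans (bD y)) hΛt⟩, norm_nonneg _, bD y⟩,
    fun y f hf => ?_, fun y v hv => ?_, fun y f v hf hv => ?_, ma, mb, ?_, mz⟩
  · rw [hA]
    exact inner_le hf Λ
  · rw [hA, ← ContinuousLinearMap.adjoint_inner_left, real_inner_comm, real_inner_comm v u]
    exact inner_le hv Λ
  · rw [hA]
    refine (abs_real_inner_le_norm _ _).trans
      ((mul_le_of_le_one_left (norm_nonneg _) hf).trans ?_)
    exact ((D y).le_opNorm v).trans (mul_le_of_le_one_right (norm_nonneg _) hv)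
  · have k := cv_mono (G := fun y => 8 * p * ‖D y‖ ^ 2) (continuous_const.mul (cD.norm.pow 2)) cR
      zero_le_one (y := y₀) fun y hy => by
        have k1 := pt y hy
        have := mul_nonneg q0.le (sq4_nonneg (Zf (ε ^ 160) Ψ y))
        linarith
    rw [cv_const_mul] at k
    generalize cv 1 (fun y => ‖D y‖ ^ 2) y₀ = x at k
    have : p * x * M ^ 2 ≤ 2 * M ^ 2 := mul_le_mul_of_nonneg_right (by linarith) (sq_nonneg _)
    calc x = p * M ^ 2 * x := by rw [pM, one_mul]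
      _ ≤ _ := by linarith

end Pool.Agent.MP_20bec2_an.b2
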