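import Pool.Agent.MP_20bec2_an.b2.Basic

/-! The leaf sums for a general frequency, and crossing counts (project BIOM2). -/

set_option autoImplicit false

open MeasureTheory Set Metric Filter Topology

noncomputable section

namespace Pool.Agent.MP_20bec2_an.b2

open Pool.Agent.MP_20bec2_an.h7

theorem Gam_sub_le (a b : ℝ) : Leaf.Gam b - Leaf.Gam a ≤ 4 := by
  have hc := continuous_tr (-1) 2
  have h1 : Leaf.Gam b ≤ Leaf.Gam (max b 3) := Leaf.Gam_mono (le_max_left _ _)
  have h2 : Leaf.Gam (min a (-2)) ≤ Leaf.Gam a := Leaf.Gam_mono (min_le_left _ _)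
  have h3 : Leaf.Gam (max b 3) - Leaf.Gam (min a (-2)) =
      ∫ x in (min a (-2))..(max b 3), tr (-1) 2 x :=
    intervalIntegral.integral_interval_sub_left (hc.intervalIntegrable _ _)
      (hc.intervalIntegrable _ _)
  rw [integral_tr (by norm_num) (by linarith [min_le_right a (-2)])
    (by linarith [le_max_right b 3])] at h3
  linarith

theorem leaf2 : Leaf2Stmt := by
  refine small_iff.2 ?_
  filter_upwards [ev_pos, ev_mul_le 12] with ε h0 h12 p p' hp hc hb
  have h1 : ε ≤ 1 / 2 := by linarith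
  have hT : 0 < ε ^ 52 := by positivity
  have hh : 0 < ε ^ 70 := by positivity
  have hR : 0 < ε ^ 50 := by positivity
  set j : ℤ := round (p 0 / ε ^ 50) with hj
  have win : ∀ τ ∈ uIcc (-(3 * ε ^ 52)) (3 * ε ^ 52), |p τ - j * ε ^ 50| ≤ 3 / 4 * ε ^ 50 := by
    intro τ hτ
    rw [uIcc_of_le (by linarith)] at hτ
    have a1 : ‖p τ - p 0‖ ≤ ε⁻¹ * ‖τ - 0‖ :=
      (convex_univ (𝕜 := ℝ) (E := ℝ)).norm_image_sub_le_of_norm_hasDerivWithin_le
        (fun x _ => (hp x).hasDerivWithinAt) (fun x _ => hb x) (mem_univ 0) (mem_univ τ)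
    rw [sub_zero, Real.norm_eq_abs, Real.norm_eq_abs] at a1
    have a2 : |τ| ≤ 3 * ε ^ 52 := abs_le.2 hτ
    have a3 : ε⁻¹ * (3 * ε ^ 52) ≤ 1 / 4 * ε ^ 50 := by
      have : ε⁻¹ * (3 * ε ^ 52) = 3 * ε * ε ^ 50 := by field_simp
      rw [this]; nlinarith
    have a4 : |p 0 - j * ε ^ 50| ≤ 1 / 2 * ε ^ 50 := by
      have := abs_sub_round (p 0 / ε ^ 50)
      have e : p 0 - j * ε ^ 50 = (p 0 / ε ^ 50 - j) * ε ^ 50 := by field_simp
      rw [e, abs_mul, abs_of_pos hR]
      exact mul_le_mul_of_nonneg_right this hR.le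
    have a5 := mul_le_mul_of_nonneg_left a2 (inv_nonneg.2 h0.le)
    have a6 := abs_sub_le (p τ) (p 0) (j * ε ^ 50)
    linarith
  have hy : ∀ c k t : ℝ, HasDerivAt (fun τ => c * ((p τ - j * ε ^ 50) / ε ^ 70) - k)
      (c / ε ^ 70 * p' t) t := fun c k t => by
    have := ((((hp t).sub_const (j * ε ^ 50)).div_const (ε ^ 70)).const_mul c).sub_const k
    exact this.congr_deriv (by ring)
  refine ⟨fun m k hk => ?_, ?_⟩
  · have e1 : ∫ τ in (-(3 * ε ^ 52))..(3 * ε ^ 52), bk ε m k (p τ) * (m / ε ^ 70) * p' τ =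
        ∫ τ in (-(3 * ε ^ 52))..(3 * ε ^ 52),
          bb (m * ((p τ - j * ε ^ 50) / ε ^ 70) - k) * (m / ε ^ 70 * p' τ) := by
      refine intervalIntegral.integral_congr fun τ hτ => ?_
      have : bk ε m k (p τ) = bb (m * ((p τ - j * ε ^ 50) / ε ^ 70) - k) :=
        xi_local h0 h1 (sp_bk hk) (win τ hτ)
      simp only [this, mul_assoc]
    rw [e1, intervalIntegral.integral_eq_sub_of_hasDerivAt
      (f := fun τ => be (m * ((p τ - j * ε ^ 50) / ε ^ 70) - k))
      (fun t _ => (hasDerivAt_be _).comp t (hy m k t))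
      (((continuous_bb.comp (Leaf.cont_of (hy m k))).mul
        (continuous_const.mul hc)).intervalIntegrable _ _)]
    linarith [(be_mem (m * ((p (3 * ε ^ 52) - j * ε ^ 50) / ε ^ 70) - k)).2,
      (be_mem (m * ((p (-(3 * ε ^ 52)) - j * ε ^ 50) / ε ^ 70) - k)).1]
  · have e1 : ∫ τ in (-(3 * ε ^ 52))..(3 * ε ^ 52), W1 ε (p τ) / ε ^ 70 * p' τ =
        ∫ τ in (-(3 * ε ^ 52))..(3 * ε ^ 52),
          tr (-1) 2 (1 * ((p τ - j * ε ^ 50) / ε ^ 70) - 0) * (1 / ε ^ 70 * p' τ) := by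
      refine intervalIntegral.integral_congr fun τ hτ => ?_
      have : W1 ε (p τ) = tr (-1) 2 ((p τ - j * ε ^ 50) / ε ^ 70) :=
        xi_local h0 h1 (sp_tr (by norm_num) (by norm_num) (by norm_num)) (win τ hτ)
      simp only [this, one_mul, sub_zero]
      ring
    rw [e1, intervalIntegral.integral_eq_sub_of_hasDerivAt
      (f := fun τ => Leaf.Gam (1 * ((p τ - j * ε ^ 50) / ε ^ 70) - 0))
      (fun t _ => (Leaf.hasDerivAt_Gam _).comp t (hy 1 0 t))
      ((((continuous_tr (-1) 2).comp (Leaf.cont_of (hy 1 0))).mul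
        (continuous_const.mul hc)).intervalIntegrable _ _)]
    exact Gam_sub_le _ _

open TestA in
theorem testA2 (d : ℕ) (_hd : 3 ≤ d) : TestA2Stmt d := by
  refine small_iff.2 ?_
  filter_upwards [ev_pos, ev_mul_le 100] with ε h0 hε
  intro q p u' u m k l ν hq hp hu' hu hk hl1 hml hl hν
  have h1 : ε ≤ 1 / 2 := by linarith
  have hε1 : ε ≤ 1 := by linarith
  have hl0 : 0 ≤ l := by linarith
  have hμ : (0 : ℝ) ≤ ε ^ 120 := by positivity
  have hT : (0 : ℝ) < ε ^ 52 := by positivity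
  set ph : E d → ℂ := fun z => phk ε m l k (q z) (p z) with hph
  set pb : E d → ℂ := fun z => phk ε m l k (cv (ε ^ 120) q z) (cv (ε ^ 120) p z) with hpb
  have cph : ContDiff ℝ 1 ph := contDiff_ph h0 h1 hk hq.cd1 hp.cd1
  have cpb : Continuous pb := (contDiff_ph h0 h1 hk (hq.cv _).cd1 (hp.cv _).cd1).continuous
  have near : ∀ {G : E d → ℝ}, Sm ε⁻¹ G → ∀ y, ∀ z ∈ closedBall y (ε ^ 120),
      |G z - cv (ε ^ 120) G y| ≤ 2 * ε ^ 119 := fun {G} hG y z hz => by
    have a1 := hG.lip z y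
    have a2 := hG.cv_sub hμ y
    rw [mem_closedBall, dist_eq_norm] at hz
    have a3 : ε⁻¹ * ε ^ 120 = ε ^ 119 := by field_simp
    have a4 : ε⁻¹ * ‖z - y‖ ≤ ε⁻¹ * ε ^ 120 := by gcongr
    rw [Real.norm_eq_abs] at a1 a2
    have := abs_sub_le (G z) (G y) (cv (ε ^ 120) G y)
    rw [abs_sub_comm (G y)] at this
    linarith
  have close : ∀ y, ∀ z ∈ closedBall y (ε ^ 120), ‖ph z - pb y‖ ≤ 60 / ε ^ 23 := fun y z hz => by
    refine (phk_lip2 h0 h1 hk hl1 hml hl _ _ _ _).trans ?_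
    calc _ ≤ 15 / ε ^ 142 * (2 * ε ^ 119 + 2 * ε ^ 119) := by
          gcongr
          · exact near hq y z hz
          · exact near hp y z hz
      _ = _ := by field_simp; ring
  have e1 : ∀ v : E d, ‖v‖ = 1 → ∀ y, ‖cv (ε ^ 120) (fun z => dd p v z • ph z) y -
      dd (cv (ε ^ 120) p) v y • pb y‖ ≤ 60 / ε ^ 24 := fun v hv y => by
    have := cv_smul_sub (continuous_dd hp.cd1 v) cph.continuous hμ (pb y)
      (fun z _ => hp.dd_le hv z) (close y)
    rw [← dd_cv hp.cd1] at this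
    exact this.trans (le_of_eq (by field_simp))
  have e2 : ∀ y, ‖cv (ε ^ 120) (fun z => jac q p u' u z • ph z) y -
      cv (ε ^ 120) (jac q p u' u) y • pb y‖ ≤ 120 / ε ^ 25 := fun y => by
    have := cv_smul_sub (continuous_jac hq.cd1 hp.cd1 u' u) cph.continuous hμ (pb y)
      (fun z _ => abs_jac_le hq hp hu' hu z) (close y)
    exact this.trans (le_of_eq (by field_simp; ring))
  have c1 : ∀ v, ContDiff ℝ 1 (cv (ε ^ 120) fun z => dd p v z • ph z) := fun v =>
    contDiff_cv ((contDiff_dd hp.cd v).smul cph) _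
  have c2 : Continuous fun z => dd (cv (ε ^ 120) p) u z • pb z :=
    (continuous_dd (hp.cv _).cd1 u).smul cpb
  have c3 : Continuous (cv (ε ^ 120) fun z => jac q p u' u z • ph z) :=
    continuous_cv ((continuous_jac hq.cd1 hp.cd1 u' u).smul cph.continuous) _
  have cth := continuous_th (ε ^ 52)
  have hth : ∀ τ, |th (ε ^ 52) τ| ≤ 1 := fun τ => by
    rw [abs_of_nonneg (th_mem _ _).1]; exact (th_mem _ _).2
  refine ⟨contDiff_ln cth (c1 u) _ _, continuous_ln cth c2 _ _, fun y => ⟨?_, ?_⟩⟩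
  · have : Uk ε m l k q p u y - Ub ε m l k q p u y = ln (ε ^ 52) u (th (ε ^ 52)) (fun z =>
        cv (ε ^ 120) (fun z => dd p u z • ph z) z - dd (cv (ε ^ 120) p) u z • pb z) y :=
      (ln_sub cth (c1 u).continuous c2 _ _ _).symm
    rw [this]
    refine (norm_ln_le (κ' := fun _ => 1) (G' := fun _ => 60 / ε ^ 24) continuous_const
      continuous_const hT.le u y fun τ _ => ?_).trans ?_
    · exact mul_le_mul (hth τ) (e1 u hu _) (norm_nonneg _) zero_le_one
    · rw [ln_const]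
      calc 6 * ε ^ 52 * (60 / ε ^ 24) = ε ^ 25 * (360 * ε ^ 3) := by field_simp; ring
        _ ≤ ε ^ 25 * 1 := by
            gcongr
            have : ε ^ 3 ≤ (1 / 100) ^ 3 := pow_le_pow_left₀ h0.le (by linarith) 3
            linarith
        _ = _ := mul_one _
  obtain ⟨o1, o2⟩ := om_mem (l := l) h0 hk hl0
  set ω := om ε m l k with hω
  have o3 : ω ≤ 2 / ε ^ 71 := by
    refine o2.trans ?_
    have a0 : l ^ 3 ≤ l ^ 4 := pow_le_pow_right₀ hl1 (by norm_num)
    have a1 : (m : ℝ) * l * ε ≤ 1 := by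
      calc (m : ℝ) * l * ε ≤ l ^ 2 * l * ε := by gcongr
        _ = l ^ 3 * ε := by ring
        _ ≤ l ^ 4 * ε := by gcongr
        _ ≤ 1 := hl
    calc 2 * (m * l / ε ^ 70) = 2 / ε ^ 71 * (m * l * ε) := by field_simp
      _ ≤ 2 / ε ^ 71 * 1 := by gcongr
      _ = _ := mul_one _
  have hν' : |ν| ≤ 1 / ε ^ 76 := by rw [one_div, ← inv_pow]; exact hν
  have hD : dd (Uk ε m l k q p u) u' y - Complex.I * ν * Uk ε m l k q p u y =
      -ln (ε ^ 52) u (th' (ε ^ 52)) (cv (ε ^ 120) fun z => dd p u' z • ph z) y +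
      ln (ε ^ 52) u (th (ε ^ 52)) (fun z =>
        Complex.I * (ω : ℝ) * cv (ε ^ 120) (fun z => jac q p u' u z • ph z) z -
        Complex.I * ν * cv (ε ^ 120) (fun z => dd p u z • ph z) z) y := by
    have a1 : dd (cv (ε ^ 120) fun z => dd p u z • ph z) u' = fun z =>
        dd (cv (ε ^ 120) fun z => dd p u' z • ph z) u z +
          Complex.I * (ω : ℝ) * cv (ε ^ 120) (fun z => jac q p u' u z • ph z) z := by
      funext z
      have := cv_curl cph hp.cd (ε ^ 120) u' u z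
      rw [show (fun z => dd p u z • dd ph u' z - dd p u' z • dd ph u z) = fun z =>
        Complex.I * (ω : ℝ) * (jac q p u' u z • ph z) from
          funext fun z => curl_ph h0 h1 hk hq.cd1 hp.cd1 u' u z, cv_cmul] at this
      rw [← this]; ring
    have a2 : dd (Uk ε m l k q p u) u' y = _ := dd_ln cth (c1 u) (ε ^ 52) u u' y
    have k1 : Continuous fun z =>
        Complex.I * (ω : ℝ) * cv (ε ^ 120) (fun z => jac q p u' u z • ph z) z :=
      continuous_const.mul c3
    have k2 : Continuous fun z =>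
        Complex.I * ν * cv (ε ^ 120) (fun z => dd p u z • ph z) z :=
      continuous_const.mul (c1 u).continuous
    rw [a2, a1, ln_add cth (continuous_dd (c1 u') u) k1,
      ln_dd (hasDerivAt_th _) (continuous_th' _) (c1 u')
        (th_eq_zero hT (by rw [abs_neg, abs_of_pos (by positivity)]; linarith))
        (th_eq_zero hT (by rw [abs_of_pos (by positivity)]; linarith)),
      ln_sub cth k1 k2, ln_cmul, ln_cmul]
    unfold Uk
    ring
  rw [hD]
  set B : E d → ℝ := fun z => bk ε m k (cv (ε ^ 120) p z) * (m / ε ^ 70) with hB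
  have cB : Continuous B :=
    ((contDiff_bk h0 h1 hk).continuous.comp (continuous_cv hp.cont _)).mul continuous_const
  have hB0 : ∀ z, 0 ≤ B z := fun z => mul_nonneg (bk_nonneg _) (by positivity)
  have hnB : ∀ z, ‖pb z‖ = B z := fun z => norm_phk h0 _ _
  set R : E d → ℝ := fun z =>
    |ω * cv (ε ^ 120) (jac q p u' u) z - ν * dd (cv (ε ^ 120) p) u z| with hR
  have cR : Continuous R :=
    ((continuous_const.mul (continuous_cv (continuous_jac hq.cd1 hp.cd1 u' u) _)).sub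
      (continuous_const.mul (continuous_dd (hp.cv _).cd1 u))).abs
  have cA : Continuous fun z => B z * (2 / ε ^ 53) := cB.mul continuous_const
  have cC : Continuous fun z => B z * R z := cB.mul cR
  have b1 : ‖ln (ε ^ 52) u (th' (ε ^ 52)) (cv (ε ^ 120) fun z => dd p u' z • ph z) y‖ ≤
      ln (ε ^ 52) u (fun _ => 1) (fun z => B z * (2 / ε ^ 53) + 120 / ε ^ 76) y := by
    refine norm_ln_le (G' := fun z => B z * (2 / ε ^ 53) + 120 / ε ^ 76) continuous_const
      (cA.add continuous_const) hT.le u y fun τ _ => ?_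
    set z := y + τ • u
    have s1 := e1 u' hu' z
    have s2 : ‖dd (cv (ε ^ 120) p) u' z • pb z‖ ≤ ε⁻¹ * B z := by
      rw [norm_smul, hnB]
      exact mul_le_mul_of_nonneg_right ((hp.cv _).dd_le hu' z) (hB0 z)
    have s3 : ‖cv (ε ^ 120) (fun z => dd p u' z • ph z) z‖ ≤ 60 / ε ^ 24 + ε⁻¹ * B z := by
      have := norm_add_le (cv (ε ^ 120) (fun z => dd p u' z • ph z) z -
        dd (cv (ε ^ 120) p) u' z • pb z) (dd (cv (ε ^ 120) p) u' z • pb z)
      rw [sub_add_cancel] at this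
      linarith
    calc _ ≤ 2 / ε ^ 52 * (60 / ε ^ 24 + ε⁻¹ * B z) :=
          mul_le_mul (abs_th'_le hT τ) s3 (norm_nonneg _) (by positivity)
      _ = _ := by field_simp; ring
  have b2 : ‖ln (ε ^ 52) u (th (ε ^ 52)) (fun z =>
        Complex.I * (ω : ℝ) * cv (ε ^ 120) (fun z => jac q p u' u z • ph z) z -
        Complex.I * ν * cv (ε ^ 120) (fun z => dd p u z • ph z) z) y‖ ≤
      ln (ε ^ 52) u (fun _ => 1) (fun z => B z * R z + (240 / ε ^ 96 + 60 / ε ^ 100)) y := by
    refine norm_ln_le (G' := fun z => B z * R z + (240 / ε ^ 96 + 60 / ε ^ 100))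
      continuous_const (cC.add continuous_const) hT.le u y fun τ _ => ?_
    set z := y + τ • u
    have s1 := e1 u hu z
    have s2 := e2 z
    have s3 : Complex.I * (ω : ℝ) * cv (ε ^ 120) (fun z => jac q p u' u z • ph z) z -
        Complex.I * ν * cv (ε ^ 120) (fun z => dd p u z • ph z) z =
        Complex.I * (ω : ℝ) * (cv (ε ^ 120) (fun z => jac q p u' u z • ph z) z -
          cv (ε ^ 120) (jac q p u' u) z • pb z) -
        Complex.I * ν * (cv (ε ^ 120) (fun z => dd p u z • ph z) z -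
          dd (cv (ε ^ 120) p) u z • pb z) +
        Complex.I * ((ω * cv (ε ^ 120) (jac q p u' u) z -
          ν * dd (cv (ε ^ 120) p) u z) • pb z) := by
      simp only [Complex.real_smul]
      push_cast
      ring
    have n1 : ‖Complex.I * (ω : ℝ)‖ = ω := by
      rw [norm_mul, Complex.norm_I, one_mul, Complex.norm_real, Real.norm_eq_abs, abs_of_nonneg o1]
    have n2 : ‖Complex.I * (ν : ℝ)‖ = |ν| := by
      rw [norm_mul, Complex.norm_I, one_mul, Complex.norm_real, Real.norm_eq_abs]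
    have s4 := hB0 z
    have s5 : 0 ≤ R z := abs_nonneg _
    rw [s3, one_mul]
    refine (mul_le_of_le_one_left (norm_nonneg _) (hth τ)).trans ?_
    refine (norm_add_le _ _).trans ?_
    refine (add_le_add (norm_sub_le _ _) le_rfl).trans ?_
    rw [norm_mul _ (_ - _), norm_mul _ (_ - _), norm_mul _ (_ • _), n1, n2, norm_smul, hnB,
      Real.norm_eq_abs, Complex.norm_I, one_mul]
    calc _ ≤ 2 / ε ^ 71 * (120 / ε ^ 25) + 1 / ε ^ 76 * (60 / ε ^ 24) + R z * B z := by
          gcongr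
      _ = _ := by field_simp; ring
  rw [ln_add continuous_const cA continuous_const, ln_const] at b1
  rw [ln_add continuous_const cC continuous_const, ln_const] at b2
  have b3 : ln (ε ^ 52) u (fun _ => 1) (fun z => B z * (R z + 2 / ε ^ 53)) y =
      ln (ε ^ 52) u (fun _ => 1) (fun z => B z * R z) y +
      ln (ε ^ 52) u (fun _ => 1) (fun z => B z * (2 / ε ^ 53)) y := by
    rw [← ln_add continuous_const cC cA]
    simp only [mul_add]
  have b4 : 6 * ε ^ 52 * (120 / ε ^ 76) + 6 * ε ^ 52 * (240 / ε ^ 96 + 60 / ε ^ 100) ≤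
      ε⁻¹ ^ 50 := by
    have t1 : ε ^ 26 ≤ ε ^ 2 := pow_le_pow_of_le_one h0.le hε1 (by norm_num)
    have t2 : ε ^ 6 ≤ ε ^ 2 := pow_le_pow_of_le_one h0.le hε1 (by norm_num)
    have t3 : ε ^ 2 ≤ (1 / 100) ^ 2 := pow_le_pow_left₀ h0.le (by linarith) 2
    calc _ = ε⁻¹ ^ 50 * (720 * ε ^ 26 + 1440 * ε ^ 6 + 360 * ε ^ 2) := by field_simp; ring
      _ ≤ ε⁻¹ ^ 50 * 1 := by gcongr; linarith
      _ = _ := mul_one _
  refine (norm_add_le _ _).trans ?_
  rw [norm_neg]
  change _ ≤ ln (ε ^ 52) u (fun _ => 1) (fun z => B z * (R z + 2 / ε ^ 53)) y + ε⁻¹ ^ 50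
  rw [b3]
  linarith

end Pool.Agent.MP_20bec2_an.b2

end
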