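import Pool.Agent.MP_20bec2_an.b2.Basic

/-! VOL2: the volume inequality with one distinguished direction (project BIOM2). -/

set_option autoImplicit false

open MeasureTheory Set Metric Filter Topology

noncomputable section

namespace Pool.Agent.MP_20bec2_an.b2

open Pool.Agent.MP_20bec2_an.h7 Pool.Agent.MP_20bec2_an.h7.Vol

namespace Vol2

variable {d : ℕ}

theorem mv_le {Ψ : E d → E d} (hΨ : ContDiff ℝ 1 Ψ) {s β : ℝ} (hβ : 0 ≤ β) {f v u y : E d}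
    (h : ∀ g : E d, ‖g‖ = 1 → |Zf s Ψ y g f v u| ≤ β) :
    ‖cv s (mv Ψ (co f Ψ) v u) y‖ ≤ β := by
  refine norm_le_of_inner hβ fun g hg => ?_
  have e : co g (mv Ψ (co f Ψ) v u) = jac (co g Ψ) (co f Ψ) v u := by
    ext z
    simp only [jac, dd_co hΨ g]
    simp only [co, mv, inner_sub_right, real_inner_smul_right]
    ring
  rw [real_inner_comm, ← cv_co (continuous_mv hΨ (contDiff_co hΨ f) v u), e]
  exact (le_abs_self _).trans (h g hg)

theorem cu_bound2 {L s r β : ℝ} {Ψ : E d → E d} {p : E d → ℝ} (hΨ : Sm L Ψ) (hp : Sm L p)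
    (hL : 1 ≤ L) (hs : 0 ≤ s) (hr : 0 < r) (hr1 : r ≤ 1) {v u : E d} (hv : ‖v‖ = 1)
    (hu : ‖u‖ = 1) (y₀ x₁ y : E d) (hβ : ‖cv s (mv Ψ p v u) y‖ ≤ β) :
    |cv s (cu r Ψ p y₀ x₁ v u) y| ≤
      ze d (y₀ - y) * (Cz d / r) * β + Cz d ^ 2 * (4 * L ^ 3 * s / r ^ 2 + 2 * L) := by
  have hZ : (1 : ℝ) ≤ Cz d := one_le_Cz
  set Λ : E d → E d →L[ℝ] ℝ :=
    fun z => (ze d (y₀ - z) * r⁻¹) • fderiv ℝ (ze d) (r⁻¹ • (Ψ z - x₁)) with hΛ
  have hm := continuous_mv hΨ.cd1 hp.cd1 v u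
  have hal := contDiff_al hΨ.cd1 r y₀ x₁
  have hcu : Continuous (cu r Ψ p y₀ x₁ v u) :=
    ((continuous_dd hp.cd1 u).smul (continuous_dd hal v)).sub
      ((continuous_dd hp.cd1 v).smul (continuous_dd hal u))
  have hz0 : 0 ≤ ze d (y₀ - y) := ze_nonneg _
  have h1 : ‖Λ y‖ ≤ ze d (y₀ - y) * (Cz d / r) := by
    rw [hΛ]
    simp only
    rw [norm_smul, Real.norm_of_nonneg (mul_nonneg (ze_nonneg _) (by positivity))]
    calc _ ≤ ze d (y₀ - y) * r⁻¹ * Cz d := by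
          gcongr
          exact norm_fderiv_ze _
      _ = _ := by ring
  have h2 : ∀ z ∈ closedBall y s, ‖Λ z - Λ y‖ ≤ 2 * Cz d ^ 2 * L * s / r ^ 2 := by
    intro z hz
    rw [mem_closedBall, dist_eq_norm] at hz
    have e : Λ z - Λ y = ((ze d (y₀ - z) - ze d (y₀ - y)) * r⁻¹) •
        fderiv ℝ (ze d) (r⁻¹ • (Ψ z - x₁)) + (ze d (y₀ - y) * r⁻¹) •
        (fderiv ℝ (ze d) (r⁻¹ • (Ψ z - x₁)) - fderiv ℝ (ze d) (r⁻¹ • (Ψ y - x₁))) := by
      rw [hΛ]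
      simp only [sub_mul, sub_smul, smul_sub]
      abel
    have a1 : |ze d (y₀ - z) - ze d (y₀ - y)| ≤ Cz d * s := by
      refine (ze_lip _ _).trans ?_
      rw [sub_sub_sub_cancel_left, norm_sub_rev]
      gcongr
    have a2 : ‖fderiv ℝ (ze d) (r⁻¹ • (Ψ z - x₁)) - fderiv ℝ (ze d) (r⁻¹ • (Ψ y - x₁))‖ ≤
        Cz d * (L * s / r) := by
      refine (fderiv_ze_lip _ _).trans ?_
      rw [← smul_sub, norm_inv_smul hr, sub_sub_sub_cancel_right]
      gcongr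
      exact (hΨ.lip z y).trans (by gcongr)
    rw [e]
    refine (norm_add_le _ _).trans ?_
    rw [norm_smul, norm_smul, norm_mul, norm_mul, Real.norm_of_nonneg (inv_nonneg.2 hr.le),
      Real.norm_eq_abs, Real.norm_of_nonneg (ze_nonneg _)]
    have a3 : (1 : ℝ) ≤ L / r := (one_le_div hr).2 (hr1.trans hL)
    calc _ ≤ Cz d * s * r⁻¹ * Cz d * (L / r) + Cz d * r⁻¹ * (Cz d * (L * s / r)) := by
          refine add_le_add (le_trans ?_ (le_mul_of_one_le_right (by positivity) a3)) ?_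
          · gcongr
            exact norm_fderiv_ze _
          · gcongr
            exact ze_le _
      _ = _ := by field_simp; ring
  have h3 : ‖cv s (fun z => cu r Ψ p y₀ x₁ v u z - Λ y (mv Ψ p v u z)) y‖ ≤
      2 * Cz d ^ 2 * L * s / r ^ 2 * (2 * L ^ 2) + Cz d * (Cz d * L + Cz d * L) := by
    refine norm_cv_le hs fun z hz => ?_
    have e : cu r Ψ p y₀ x₁ v u z - Λ y (mv Ψ p v u z) = (Λ z - Λ y) (mv Ψ p v u z) +
        kz r (Ψ z - x₁) *
          (fderiv ℝ (ze d) (y₀ - z) u * dd p v z - fderiv ℝ (ze d) (y₀ - z) v * dd p u z) := by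
      rw [cu_eq hΨ.cd1, sub_apply]
      ring
    have b1 : ∀ {w w' : E d}, ‖w‖ = 1 → ‖w'‖ = 1 →
        ‖fderiv ℝ (ze d) (y₀ - z) w * dd p w' z‖ ≤ Cz d * L := fun {w w'} hw hw' => by
      rw [norm_mul]
      refine mul_le_mul ?_ (hp.dd_le hw' z) (norm_nonneg _) (by linarith)
      refine (ContinuousLinearMap.le_opNorm _ _).trans ?_
      rw [hw, mul_one]
      exact norm_fderiv_ze _
    rw [e]
    refine (norm_add_le _ _).trans (add_le_add ?_ ?_)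
    · exact (ContinuousLinearMap.le_opNorm _ _).trans
        (mul_le_mul (h2 z hz) (norm_mv hΨ hp hv hu z) (norm_nonneg _) (by positivity))
    · rw [norm_mul, Real.norm_of_nonneg (kz_nonneg _ _)]
      exact mul_le_mul (kz_le _ _) ((norm_sub_le _ _).trans (add_le_add (b1 hu hv) (b1 hv hu)))
        (norm_nonneg _) (by linarith)
  rw [cv_sub (G' := fun z => Λ y (mv Ψ p v u z)) hcu ((Λ y).continuous.comp hm), cv_clm (Λ y) hm,
    Real.norm_eq_abs] at h3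
  have h4 : |Λ y (cv s (mv Ψ p v u) y)| ≤ ze d (y₀ - y) * (Cz d / r) * β :=
    ((Λ y).le_opNorm _).trans (mul_le_mul h1 hβ (norm_nonneg _) (by positivity))
  calc _ ≤ |cv s (cu r Ψ p y₀ x₁ v u) y - Λ y (cv s (mv Ψ p v u) y)| +
        |Λ y (cv s (mv Ψ p v u) y)| := by
        simpa using abs_add_le (cv s (cu r Ψ p y₀ x₁ v u) y - Λ y (cv s (mv Ψ p v u) y))
          (Λ y (cv s (mv Ψ p v u) y))
    _ ≤ _ := (add_le_add h3 h4).trans (le_of_eq (by ring))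

/-- the weight that bounds the curl -/
def wg (G : E d → ℝ) (b : ℝ) (y₀ y : E d) : ℝ :=
  ze d (y₀ - y) * G y + 2 * Cz d ^ 2 * b * kz 4 (y₀ - y)

theorem wg_nonneg {G : E d → ℝ} {b : ℝ} (hG : ∀ y, 0 ≤ G y) (hb : 0 ≤ b) (y₀ y : E d) :
    0 ≤ wg G b y₀ y :=
  add_nonneg (mul_nonneg (ze_nonneg _) (hG y)) (mul_nonneg (by positivity) (kz_nonneg _ _))

theorem continuous_wg {G : E d → ℝ} (hG : Continuous G) (b : ℝ) (y₀ : E d) :
    Continuous (wg G b y₀) :=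
  ((continuous_ze.comp (continuous_const.sub continuous_id)).mul hG).add
    (continuous_const.mul (continuous_eh y₀))

theorem wg_zero (G : E d → ℝ) (b : ℝ) {y₀ y : E d} (h : 4 ≤ ‖y₀ - y‖) : wg G b y₀ y = 0 := by
  unfold wg
  rw [ze_eq_zero (by linarith), kz_eq_zero (by norm_num) h]
  simp

theorem integrable_wg {G : E d → ℝ} (hG : Continuous G) (b : ℝ) (y₀ : E d) :
    Integrable (wg G b y₀) :=
  (continuous_wg hG b y₀).integrable_of_hasCompactSupport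
    (supp_ball (y₀ := y₀) (R := 4) fun _ hz => wg_zero G b hz)

theorem integral_wg {G : E d → ℝ} (hG : Continuous G) {b : ℝ} {y₀ : E d} (h : cv 1 G y₀ ≤ b) :
    ∫ y, wg G b y₀ y ≤ (1 + 2 * Cz d ^ 2 * 4 ^ d) * b := by
  have hc : Continuous fun y => ze d (y₀ - y) * G y :=
    (continuous_ze.comp (continuous_const.sub continuous_id)).mul hG
  have t2 : ∫ y, ze d (y₀ - y) * G y = cv 1 G y₀ := by
    rw [cv_eq_kernel _ one_pos]
    simp
  unfold wg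
  rw [integral_add (hc.integrable_of_hasCompactSupport
      (supp_ball (y₀ := y₀) (R := 1) fun z hz => by rw [ze_eq_zero hz, zero_mul]))
    (((integrable_kz (by norm_num)).comp_sub_left y₀).const_mul _), t2, integral_const_mul,
    integral_sub_left_eq_self (kz 4) volume y₀, integral_kz (by norm_num)]
  linarith

/-- the curl of the cut form is small in the mean -/
theorem curl_le {L s r b : ℝ} {Ψ : E d → E d} {f v u : E d} {G : E d → ℝ} (hΨ : Sm L Ψ)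
    (hf : ‖f‖ = 1) (hL : 1 ≤ L) (hs : 0 ≤ s) (hs1 : s ≤ 1 / 2) (hr : 0 < r) (hr1 : r ≤ 1)
    (hLs : 4 * (L * s) ≤ r) (hv : ‖v‖ = 1) (hu : ‖u‖ = 1) (hb : 0 ≤ b)
    (n3 : 4 * L ^ 3 * s / r ^ 2 ≤ b / r) (n4 : 2 * L ≤ b / r) (hG : Continuous G)
    (hG0 : ∀ y, 0 ≤ G y) (h : ∀ y g : E d, ‖g‖ = 1 → |Zf s Ψ y g f v u| ≤ G y) (y₀ x₁ : E d) :
    ∃ A' : E d → ℝ, ContDiff ℝ 1 A' ∧ HasCompactSupport A' ∧
      ∫ y, |dd (cv s fun z => dd (co f Ψ) u z • al r Ψ y₀ x₁ z) v y - dd A' u y| ≤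
        Cz d ^ 2 / r * ∫ y, wg G b y₀ y * kz (6 * r) (Ψ y - x₁) := by
  have hZ : (1 : ℝ) ≤ Cz d := one_le_Cz
  have hp := hΨ.co hf
  have hal := contDiff_al hΨ.cd1 r y₀ x₁
  have hk : Continuous fun y => kz (6 * r) (Ψ y - x₁) :=
    (continuous_kz _).comp (hΨ.cont.sub continuous_const)
  refine ⟨cv s fun z => dd (co f Ψ) v z • al r Ψ y₀ x₁ z,
    contDiff_cv ((contDiff_dd hp.cd v).smul hal) s,
    cv_supp (supp_ball (y₀ := y₀) (R := 1) fun z hz => by simp [al, ze_eq_zero hz]) s, ?_⟩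
  rw [← integral_const_mul]
  refine integral_mono_of_nonneg (Eventually.of_forall fun y => abs_nonneg _)
    (Integrable.const_mul (((continuous_wg hG b y₀).mul hk).integrable_of_hasCompactSupport
      (supp_ball (y₀ := y₀) (R := 4) fun z hz => by
        simp only [Pi.mul_apply, wg_zero G b hz, zero_mul])) _)
    (Eventually.of_forall fun y => ?_)
  simp only
  rw [cv_curl hal hp.cd s v u y]
  change |cv s (cu r Ψ (co f Ψ) y₀ x₁ v u) y| ≤ _
  by_cases h0 : cv s (cu r Ψ (co f Ψ) y₀ x₁ v u) y = 0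
  · rw [h0, abs_zero]
    exact mul_nonneg (by positivity) (mul_nonneg (wg_nonneg hG0 hb _ _) (kz_nonneg _ _))
  obtain ⟨n1, n2⟩ := near_of_ne hΨ hs (fun z hz => cu_zero hΨ.cd1 hr _ y₀ x₁ v u z hz) h0
  have a1 := cu_bound2 hΨ hp hL hs hr hr1 hv hu y₀ x₁ y (mv_le hΨ.cd1 (hG0 y) (h y))
  have a2 := one_le_wt hr (Ψ := Ψ) (y₀ := y₀) (x₁ := x₁) (y := y) (by linarith) (by linarith)
  have a3 := one_le_kz (c := 6 * r) (by positivity) (w := Ψ y - x₁) (by linarith)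
  have a4 : 0 ≤ ze d (y₀ - y) * (Cz d / r) * G y :=
    mul_nonneg (mul_nonneg (ze_nonneg _) (by positivity)) (hG0 y)
  calc _ ≤ ze d (y₀ - y) * (Cz d / r) * G y + Cz d ^ 2 * (2 * (b / r)) :=
        a1.trans (by gcongr; linarith)
    _ ≤ ze d (y₀ - y) * (Cz d / r) * G y * (Cz d * kz (6 * r) (Ψ y - x₁)) +
        Cz d ^ 2 * (2 * (b / r)) * (Cz d ^ 2 * wt r Ψ y₀ x₁ y) :=
        add_le_add (le_mul_of_one_le_right a4 a3) (le_mul_of_one_le_right (by positivity) a2)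
    _ = _ := by unfold wt wg; ring

end Vol2

open Vol2 in
theorem vol2 (d : ℕ) (hd : 3 ≤ d) (h : VolA2Stmt d) : Vol2Stmt d := by
  obtain ⟨CA, hCA, hA⟩ := h
  obtain ⟨Cm, hCm, hm⟩ := masses (d := d) (by omega)
  have hZ : (1 : ℝ) ≤ Cz d := one_le_Cz
  have hZ2 : (1 : ℝ) ≤ Cz d ^ 2 := one_le_pow₀ hZ
  set C₂ : ℝ := CA * (3 * Cz d ^ 2 * Cm) with hC₂
  have hC2 : 1 ≤ C₂ := one_le_mul_of_one_le_of_one_le hCA (by nlinarith)
  have h6 : (1 : ℝ) ≤ 6 ^ d := one_le_pow₀ (by norm_num)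
  have h4 : (1 : ℝ) ≤ 4 ^ d := one_le_pow₀ (by norm_num)
  set C₃ : ℝ := 1 + 2 * Cz d ^ 2 * 4 ^ d with hC₃
  have hC3 : 1 ≤ C₃ := le_add_of_nonneg_right (by positivity)
  set K : ℝ := 2 * C₂ * Cz d ^ 2 * (6 ^ d * (2 * C₃)) with hK
  have hK1 : 1 ≤ K := one_le_mul_of_one_le_of_one_le
    (one_le_mul_of_one_le_of_one_le (by linarith) hZ2) (by nlinarith)
  refine ⟨K ^ (d - 1), one_le_pow₀ hK1, small_iff.2 ?_⟩
  filter_upwards [hm, ev_pos, ev_mul_le 4]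
    with ε hm h0 e1 δ L a b₁ b₂ S Ψ y₀ f u v₁ G₁ G₂ hL hLε hloc ha hb₁ hb₂ hf hon hgood hG₁ hG₂
      hZ₁ hG₂0 hZ₂ hm₁ hm₂ hΛ
  obtain ⟨m1, m2, -⟩ := hm δ L S Ψ y₀ hL hLε hloc
  obtain ⟨Y, ρ, N, hc, -⟩ := hloc
  have hΨ := hc.sm
  have hp := hΨ.co hf
  have hu := hon.2.1
  have h12 : ε ≤ 1 / 2 := by linarith
  have h1' : ε ≤ 1 := by linarith
  have hL0 : 0 ≤ L := by linarith
  have ha0 : 0 < a := by linarith
  have hb10 : 0 < b₁ := (pow_pos h0 3).trans_le hb₁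
  have hb20 : 0 < b₂ := (pow_pos h0 3).trans_le hb₂
  have hG₁0 : ∀ y, 0 ≤ G₁ y := fun y => (abs_nonneg _).trans (hZ₁ y f hf)
  have hLk : ∀ k j : ℕ, L ^ k * ε ^ (k + j) ≤ ε ^ j := fun k j => by
    rw [pow_add, ← mul_assoc, ← mul_pow]
    exact mul_le_of_le_one_left (by positivity) (pow_le_one₀ (by positivity) hLε)
  have hLs : 4 * (L * ε ^ 160) ≤ ε ^ 10 := by
    linarith [mul_pow_le h0 h1' hLε (show 159 < 160 by norm_num),
      mul_pow_le h0 h1' e1 (show 10 < 159 by norm_num)]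
  have hra : 2 * ε ^ 10 ≤ a := by
    linarith [mul_pow_le h0 h1' e1 (show 0 < 10 by norm_num), pow_pos h0 10]
  have n3 : ∀ b, ε ^ 3 ≤ b → 4 * L ^ 3 * ε ^ 160 / (ε ^ 10) ^ 2 ≤ b / ε ^ 10 := fun b hb => by
    rw [div_le_div_iff₀ (by positivity) (by positivity)]
    calc 4 * L ^ 3 * ε ^ 160 * ε ^ 10 ≤ ε ^ 13 * ε ^ 10 := by
          gcongr ?_ * _
          linarith [show L ^ 3 * ε ^ 160 ≤ ε ^ 157 from hLk 3 157,
            mul_pow_le h0 h1' e1 (show 13 < 157 by norm_num)]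
      _ = ε ^ 3 * (ε ^ 10) ^ 2 := by ring
      _ ≤ _ := by gcongr
  have n4 : ∀ b, ε ^ 3 ≤ b → 2 * L ≤ b / ε ^ 10 := fun b hb => by
    rw [le_div_iff₀ (by positivity)]
    linarith [mul_pow_le h0 h1' hLε (show 9 < 10 by norm_num),
      mul_pow_le h0 h1' e1 (show 3 < 9 by norm_num), pow_pos h0 9]
  have n5 : L * ε ^ 3 ≤ a := by
    linarith [mul_pow_le h0 h1' hLε (show 0 < 3 by norm_num)]
  have hr0 : 0 < ε ^ 10 := by positivity
  have hs0 : 0 ≤ ε ^ 160 := by positivity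
  have hr1 : ε ^ 10 ≤ 1 := pow_le_one₀ h0.le h1'
  have hs1 : ε ^ 160 ≤ 1 / 2 := (pow_le_of_le_one h0.le h1' (by norm_num)).trans h12
  clear hm hc hLk
  generalize ε ^ 10 = r at *
  generalize ε ^ 160 = s at *
  obtain ⟨lam, hlam⟩ : ∃ lam : ℝ, lam = b₂ / b₁ := ⟨_, rfl⟩
  have hlam0 : 0 < lam := by rw [hlam]; positivity
  obtain ⟨ϱ, hϱ, haϱ⟩ : ∃ ϱ : ℝ, 0 < ϱ ∧ ϱ ^ (d - 1) = a / lam :=
    ⟨(a / lam) ^ (((d - 1 : ℕ) : ℝ)⁻¹), Real.rpow_pos_of_pos (by positivity) _,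
      Real.rpow_inv_natCast_pow (by positivity) (by omega)⟩
  have hB := Bad_mem h0 S
  have hBc : Continuous fun y => Bad S (Ψ y) := (continuous_Bad h0 h12 S).comp hΨ.cont
  have hball : ∀ {y}, ‖y₀ - y‖ < 4 → y ∈ ball y₀ 4 := fun h => by
    rwa [mem_ball, dist_comm, dist_eq_norm]
  have hst : ∀ y, ‖y₀ - y‖ < 4 → ‖dd (cv s Ψ) u y‖ ≤ a + L * Bad S (Ψ y) := fun y hy => by
    rcases lt_or_ge (Bad S (Ψ y)) 1 with h | h
    · exact (stretch hΨ.cd1 ha0.le fun f hf =>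
        hgood y (hball hy) (far_of_Bad h0 h12 S h) f u hf hu).trans
        (le_add_of_nonneg_right (mul_nonneg hL0 (hB _).1))
    · linarith [(hΨ.cv s).dd_le hu y, le_mul_of_one_le_right hL0 h]
  have hg1 : Continuous fun y => dd (co f Ψ) u y * ze d (y₀ - y) :=
    (continuous_dd hp.cd1 u).mul (continuous_ze.comp (continuous_const.sub continuous_id))
  have slice : ∀ x₁, ∫ y, dd (co f Ψ) u y * ze d (y₀ - y) * kz r (Ψ y - x₁) ≤
      2 * C₂ * Cz d ^ 2 * ϱ * (lam * (∫ y, wg G₁ b₁ y₀ y * kz (6 * r) (Ψ y - x₁)) +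
        ∫ y, wg G₂ b₂ y₀ y * kz (6 * r) (Ψ y - x₁)) := by
    intro x₁
    have hal := contDiff_al hΨ.cd1 r y₀ x₁
    have hF : ContDiff ℝ 1 fun z => dd (co f Ψ) u z • al r Ψ y₀ x₁ z :=
      (contDiff_dd hp.cd u).smul hal
    have hFs : HasCompactSupport fun z => dd (co f Ψ) u z • al r Ψ y₀ x₁ z :=
      supp_ball (y₀ := y₀) (R := 1) fun z hz => by simp [al, ze_eq_zero hz]
    have hk : Continuous fun y => kz (6 * r) (Ψ y - x₁) :=
      (continuous_kz _).comp (hΨ.cont.sub continuous_const)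
    have hQ0 : ∀ y, 0 ≤ Cz d ^ 2 * wt r Ψ y₀ x₁ y * ((‖dd (cv s Ψ) u y‖ + a) / r) := fun y =>
      mul_nonneg (mul_nonneg (sq_nonneg _) (wt_nonneg _ _ _ _ _)) (by positivity)
    have key := hA (cv s fun z => dd (co f Ψ) u z • al r Ψ y₀ x₁ z)
      (fun y => Cz d ^ 2 * wt r Ψ y₀ x₁ y * ((‖dd (cv s Ψ) u y‖ + a) / r)) u v₁
      (3 * Cz d ^ 2 * Cm * (a * r ^ (d - 1)))
      (Cz d ^ 2 / r * ∫ y, wg G₁ b₁ y₀ y * kz (6 * r) (Ψ y - x₁))
      (Cz d ^ 2 / r * ∫ y, wg G₂ b₂ y₀ y * kz (6 * r) (Ψ y - x₁))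
      (C₂ * ϱ * r) lam hon (contDiff_cv hF s) (cv_supp hFs s)
      ((continuous_const.mul (continuous_wt hΨ.cont r y₀ x₁)).mul
        (((continuous_dd (hΨ.cv s).cd1 u).norm.add continuous_const).div_const r))
      (supp_ball (y₀ := y₀) (R := 4) fun z hz => by
        simp [wt, kz_eq_zero (c := 4) (by norm_num) hz])
      hQ0 (fun y hy => ?_) ?_ (by positivity) hlam0 ?_
      (mul_nonneg (by positivity) (integral_nonneg fun y =>
        mul_nonneg (wg_nonneg hG₁0 hb10.le _ _) (kz_nonneg _ _)))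
      (mul_nonneg (by positivity) (integral_nonneg fun y =>
        mul_nonneg (wg_nonneg hG₂0 hb20.le _ _) (kz_nonneg _ _)))
      (curl_le hΨ hf hL hs0 hs1 hr0 hr1 hLs hon.1 hu hb10.le (n3 _ hb₁) (n4 _ hb₁) hG₁ hG₁0 hZ₁
        y₀ x₁)
      fun v hv hv' => curl_le hΨ hf hL hs0 hs1 hr0 hr1 hLs hv.1 hu hb20.le (n3 _ hb₂) (n4 _ hb₂)
        hG₂ hG₂0 (fun y g hg => hZ₂ y g v hg hv hv') y₀ x₁
    · rw [integral_cv hF.continuous hFs] at key
      refine le_trans (le_of_eq ?_) ((le_abs_self _).trans (key.trans (le_of_eq ?_)))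
      · simp only [al, smul_eq_mul, mul_assoc]
      · field_simp
    · obtain ⟨n1, n2⟩ := near_of_ne hΨ hs0 (r := r) (y₀ := y₀) (x₁ := x₁) (fun z hz => by
        rcases hz with hz | hz
        · simp [al, ze_eq_zero hz.le]
        · simp [al, kz_eq_zero hr0 hz.le]) hy
      exact line_ge hΨ hs0 hs1 hr0 hra hLs hu n1 n2
    · have i1 := integrable_eh hk y₀
      have i2 := integrable_eh (g := fun y => kz (6 * r) (Ψ y - x₁) * Bad S (Ψ y)) (hk.mul hBc) y₀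
      have a1 : ∫ y, Cz d ^ 2 * wt r Ψ y₀ x₁ y * ((‖dd (cv s Ψ) u y‖ + a) / r) ≤
          ∫ y, Cz d ^ 2 / r * (2 * a * (kz 4 (y₀ - y) * kz (6 * r) (Ψ y - x₁)) +
            L * (kz 4 (y₀ - y) * (kz (6 * r) (Ψ y - x₁) * Bad S (Ψ y)))) := by
        refine integral_mono_of_nonneg (Eventually.of_forall hQ0)
          (((i1.const_mul _).add (i2.const_mul _)).const_mul _) (Eventually.of_forall fun y => ?_)
        rcases lt_or_ge ‖y₀ - y‖ 4 with hy | hy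
        · calc Cz d ^ 2 * wt r Ψ y₀ x₁ y * ((‖dd (cv s Ψ) u y‖ + a) / r)
              ≤ Cz d ^ 2 * wt r Ψ y₀ x₁ y * ((a + L * Bad S (Ψ y) + a) / r) := by
                refine mul_le_mul_of_nonneg_left ?_
                  (mul_nonneg (sq_nonneg _) (wt_nonneg _ _ _ _ _))
                gcongr
                exact hst y hy
            _ = _ := by unfold wt; ring
        · simp [wt, kz_eq_zero (c := 4) (by norm_num) hy]
      rw [integral_const_mul, integral_add (i1.const_mul _) (i2.const_mul _), integral_const_mul,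
        integral_const_mul] at a1
      have a2 : L * (ε ^ 3 * r ^ d) ≤ a * (Cm * r ^ d) := by
        calc L * (ε ^ 3 * r ^ d) = L * ε ^ 3 * (1 * r ^ d) := by ring
          _ ≤ _ := by gcongr
      have a3 : r ^ d = r * r ^ (d - 1) := by rw [← pow_succ']; congr 1; omega
      calc _ ≤ _ := a1
        _ ≤ Cz d ^ 2 / r * (2 * a * (Cm * r ^ d) + a * (Cm * r ^ d)) := by
          gcongr Cz d ^ 2 / r * (2 * a * ?_ + ?_)
          · exact m1 x₁
          · exact (mul_le_mul_of_nonneg_left (m2 x₁) hL0).trans a2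
        _ = _ := by rw [a3]; field_simp; ring
    · calc CA * (3 * Cz d ^ 2 * Cm * (a * r ^ (d - 1))) = C₂ * (a * r ^ (d - 1)) := by
            rw [hC₂]; ring
        _ ≤ C₂ ^ (d - 1) * (a * r ^ (d - 1)) :=
            mul_le_mul_of_nonneg_right (le_self_pow₀ hC2 (by omega)) (by positivity)
        _ = _ := by rw [mul_pow (C₂ * ϱ), mul_pow C₂, haϱ]; field_simp
  obtain ⟨i1, j1⟩ := fub hg1 (hg1.integrable_of_hasCompactSupport
    (supp_ball (y₀ := y₀) (R := 1) fun z hz => by rw [ze_eq_zero hz, mul_zero])) hΨ.cont hr0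
  obtain ⟨i2, j2⟩ := fub (continuous_wg hG₁ b₁ y₀) (integrable_wg hG₁ b₁ y₀) hΨ.cont
    (show 0 < 6 * r by positivity)
  obtain ⟨i3, j3⟩ := fub (continuous_wg hG₂ b₂ y₀) (integrable_wg hG₂ b₂ y₀) hΨ.cont
    (show 0 < 6 * r by positivity)
  have t1 := integral_mono i1 (((i2.const_mul lam).add i3).const_mul (2 * C₂ * Cz d ^ 2 * ϱ)) slice
  simp only [Pi.add_apply] at t1
  rw [integral_const_mul, integral_add (i2.const_mul lam) i3, integral_const_mul, j1, j2, j3] at t1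
  have t2 : ∫ y, dd (co f Ψ) u y * ze d (y₀ - y) = Af 1 Ψ y₀ f u := by
    unfold Af
    rw [cv_eq_kernel _ one_pos]
    simp [mul_comm]
  have t3 := integral_wg hG₁ hm₁
  have t4 := integral_wg hG₂ hm₂
  rw [t2] at t1
  have t5 : Af 1 Ψ y₀ f u ≤ K * ϱ * b₂ := by
    refine le_of_mul_le_mul_left (t1.trans ?_) (show 0 < r ^ d by positivity)
    calc _ ≤ 2 * C₂ * Cz d ^ 2 * ϱ *
          (lam * ((6 * r) ^ d * (C₃ * b₁)) + (6 * r) ^ d * (C₃ * b₂)) := by gcongr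
      _ = _ := by rw [mul_pow, hK, hlam]; field_simp; ring
  have t6 : b₂ ^ (d - 1) = b₂ * b₂ ^ (d - 2) := by rw [← pow_succ']; congr 1; omega
  calc _ ≤ (K * ϱ * b₂) ^ (d - 1) := pow_le_pow_left₀ hΛ t5 _
    _ = _ := by rw [mul_pow, mul_pow, haϱ, t6, hlam]; field_simp

end Pool.Agent.MP_20bec2_an.b2
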