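import Mathlib.Algebra.Order.Chebyshev
import Mathlib.Analysis.Calculus.LineDeriv.IntegrationByParts
import Pool.Agent.MP_20bec2_an.b2.Spec

-- ======== part 0: formerly Pool.Agent.MP_20bec2_an.b2.Cross
section MrgPart0

/-! A slowly varying function against a trigonometric polynomial without constant term. -/

set_option autoImplicit false

open MeasureTheory Set Metric Filter Topology

noncomputable section

namespace Pool.Agent.MP_20bec2_an.b2

open Pool.Agent.MP_20bec2_an.h7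

namespace Crs

variable {d : ℕ}

/-- value plus segment average -/
def sg (G : E d → ℝ) (z : E d) : ℝ := G z + ∫ t in (0 : ℝ)..1, G (t • z)

theorem cont_seg {G : E d → ℝ} (hG : Continuous G) :
    Continuous fun z : E d => ∫ t in (0 : ℝ)..1, G (t • z) :=
  intervalIntegral.continuous_parametric_intervalIntegral_of_continuous'
    (f := fun (z : E d) (t : ℝ) => G (t • z)) (by fun_prop) 0 1

theorem cont_sg {G : E d → ℝ} (hG : Continuous G) : Continuous (sg G) := hG.add (cont_seg hG)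

theorem sg_nonneg {G : E d → ℝ} (h : ∀ z, 0 ≤ G z) (z : E d) : 0 ≤ sg G z :=
  add_nonneg (h z) (intervalIntegral.integral_nonneg zero_le_one fun _ _ => h _)

theorem int_ze {F : Type*} [NormedAddCommGroup F] [NormedSpace ℝ F] {G : E d → F}
    (hG : Continuous G) : Integrable fun w => ze d w • G w :=
  (continuous_ze.smul hG).integrable_of_hasCompactSupport ze_supp.smul_right

theorem int_ze' {G : E d → ℝ} (hG : Continuous G) : Integrable fun w => ze d w * G w :=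
  int_ze hG

theorem mean_sg {G : E d → ℝ} (hG : Continuous G) :
    ∫ w, ze d w * sg G ((2 : ℝ) • w) = Mw G := by
  have h1 := cv_intervalIntegral (G := fun (t : ℝ) (z : E d) => G (t • z)) (by fun_prop) 0 1 (-2) 0
  simp only [cv, zero_sub, neg_smul, neg_neg, smul_eq_mul] at h1
  have h2 : Continuous fun w : E d => G ((2 : ℝ) • w) := by fun_prop
  have h3 : Continuous fun w : E d => ∫ t in (0 : ℝ)..1, G (t • (2 : ℝ) • w) :=
    (cont_seg hG).comp (f := fun w : E d => (2 : ℝ) • w) (by fun_prop)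
  simp only [sg, mul_add]
  rw [integral_add (int_ze' h2) (int_ze' h3), h1, Mw]
  simp only [smul_smul, mul_comm]

theorem seg_sq {f : ℝ → ℝ} (hf : Continuous f) :
    (∫ t in (0 : ℝ)..1, f t) ^ 2 ≤ ∫ t in (0 : ℝ)..1, f t ^ 2 := by
  set I := ∫ t in (0 : ℝ)..1, f t with hI
  have h1 : ∫ t in (0 : ℝ)..1, (2 * I * f t - I ^ 2) ≤ ∫ t in (0 : ℝ)..1, f t ^ 2 :=
    intervalIntegral.integral_mono_on zero_le_one
      ((by fun_prop : Continuous fun t => 2 * I * f t - I ^ 2).intervalIntegrable _ _)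
      ((hf.pow 2).intervalIntegrable _ _) fun t _ => by nlinarith [sq_nonneg (f t - I)]
  rw [intervalIntegral.integral_sub
    ((by fun_prop : Continuous fun t => 2 * I * f t).intervalIntegrable _ _)
    (continuous_const.intervalIntegrable _ _), intervalIntegral.integral_const_mul,
    intervalIntegral.integral_const, ← hI] at h1
  simp only [sub_zero, smul_eq_mul, one_mul] at h1
  nlinarith

theorem sg_sq {G : E d → ℝ} (hG : Continuous G) (z : E d) :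
    sg G z ^ 2 ≤ 2 * sg (fun z => G z ^ 2) z := by
  have h := seg_sq (f := fun t : ℝ => G (t • z)) (by fun_prop)
  unfold sg
  nlinarith [sq_nonneg (G z - ∫ t in (0 : ℝ)..1, G (t • z))]

theorem mean_sg_sq {G : E d → ℝ} (hG : Continuous G) :
    ∫ w, ze d w * sg G ((2 : ℝ) • w) ^ 2 ≤ 2 * Mw fun z => G z ^ 2 := by
  have h2 : Continuous fun z => G z ^ 2 := hG.pow 2
  rw [← mean_sg h2, ← integral_const_mul]
  have h3 : Continuous fun w : E d => sg G ((2 : ℝ) • w) ^ 2 :=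
    ((cont_sg hG).comp (f := fun w : E d => (2 : ℝ) • w) (by fun_prop)).pow 2
  have h4 : Continuous fun w : E d => sg (fun z => G z ^ 2) ((2 : ℝ) • w) :=
    (cont_sg h2).comp (f := fun w : E d => (2 : ℝ) • w) (by fun_prop)
  refine integral_mono (int_ze' h3) ((int_ze' h4).const_mul 2) fun w => ?_
  have := mul_le_mul_of_nonneg_left (sg_sq hG ((2 : ℝ) • w)) (ze_nonneg w)
  simp only
  linarith

theorem amgm {I A B : ℝ} (hA : 0 ≤ A) (hB : 0 ≤ B)
    (h : ∀ t : ℝ, 0 < t → 2 * I ≤ t * A + B / t) : I ≤ √A * √B := by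
  by_contra hc
  push Not at hc
  have hs : 0 ≤ √A * √B := by positivity
  have hI : 0 < I := hs.trans_lt hc
  have hAB : A * B < I ^ 2 := by
    have : (√A * √B) ^ 2 < I ^ 2 := by gcongr
    rwa [mul_pow, Real.sq_sqrt hA, Real.sq_sqrt hB] at this
  rcases hA.eq_or_lt with rfl | hA'
  · have h1 := h ((B + 1) / I) (by positivity)
    have h2 : B / ((B + 1) / I) ≤ I := by
      rw [div_div_eq_mul_div, div_le_iff₀ (by positivity)]; nlinarith
    linarith
  · have h1 := h (I / A) (by positivity)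
    have h2 : I / A * A = I := by field_simp
    have h3 : B / (I / A) < I := by
      rw [div_div_eq_mul_div, div_lt_iff₀ hI]; nlinarith
    linarith

theorem cs {f g : E d → ℝ} (hf : Continuous f) (hg : Continuous g) {A B : ℝ}
    (hA : ∫ w, ze d w * f w ^ 2 ≤ A) (hB : ∫ w, ze d w * g w ^ 2 ≤ B) :
    ∫ w, ze d w * (f w * g w) ≤ √A * √B := by
  have a0 : 0 ≤ ∫ w, ze d w * f w ^ 2 :=
    integral_nonneg fun w => mul_nonneg (ze_nonneg w) (sq_nonneg _)
  have b0 : 0 ≤ ∫ w, ze d w * g w ^ 2 :=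
    integral_nonneg fun w => mul_nonneg (ze_nonneg w) (sq_nonneg _)
  refine amgm (a0.trans hA) (b0.trans hB) fun t ht => ?_
  have h1 : ∫ w, 2 * (ze d w * (f w * g w)) ≤
      ∫ w, (t * (ze d w * f w ^ 2) + ze d w * g w ^ 2 / t) := by
    refine integral_mono ((int_ze' (hf.mul hg)).const_mul 2)
      (((int_ze' (hf.fun_pow 2)).const_mul t).add ((int_ze' (hg.fun_pow 2)).div_const t)) fun w => ?_
    have h2 : 2 * (f w * g w) ≤ t * f w ^ 2 + g w ^ 2 / t := by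
      have : 0 ≤ (t * f w - g w) ^ 2 / t := by positivity
      have h3 : (t * f w - g w) ^ 2 / t = t * f w ^ 2 + g w ^ 2 / t - 2 * (f w * g w) := by
        field_simp; ring
      linarith
    have h4 := mul_le_mul_of_nonneg_left h2 (ze_nonneg w)
    have h5 : ze d w * (t * f w ^ 2 + g w ^ 2 / t) =
        t * (ze d w * f w ^ 2) + ze d w * g w ^ 2 / t := by ring
    simp only
    linarith
  rw [integral_const_mul, integral_add ((int_ze' (hf.fun_pow 2)).const_mul t)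
    ((int_ze' (hg.fun_pow 2)).div_const t), integral_const_mul, integral_div] at h1
  have h6 := mul_le_mul_of_nonneg_left hA ht.le
  have h7 := div_le_div_of_nonneg_right hB ht.le
  linarith

theorem scale (G : E d → ℝ) :
    ∫ z, ze d ((1 / 2 : ℝ) • z) * G z = 2 ^ d * ∫ w, ze d w * G ((2 : ℝ) • w) := by
  have h := Measure.integral_comp_smul (volume : Measure (E d))
    (fun z => ze d ((1 / 2 : ℝ) • z) * G z) 2
  simp only [smul_smul, finrank_euclideanSpace_fin, smul_eq_mul] at h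
  norm_num at h
  rw [h]
  field_simp

theorem seg_le {V : E d → ℂ} {a : E d → ℝ} (hV : ContDiff ℝ 1 V) (ha : Continuous a)
    (h0 : ∀ z, 0 ≤ a z) (h : ∀ z v' : E d, ‖v'‖ = 1 → ‖dd V v' z‖ ≤ a z) {z : E d}
    (hz : ‖z‖ ≤ 1) : ‖V z - V 0‖ ≤ ∫ t in (0 : ℝ)..1, a (t • z) := by
  have h1 : ∀ t : ℝ, HasDerivAt (fun t : ℝ => V (t • z)) (dd V z (t • z)) t := fun t => by
    simpa using hasDerivAt_line hV z 0 t
  have h2 : Continuous fun t : ℝ => dd V z (t • z) :=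
    (continuous_dd hV z).comp (f := fun t : ℝ => t • z) (by fun_prop)
  have h3 := intervalIntegral.integral_eq_sub_of_hasDerivAt (a := 0) (b := 1) (fun t _ => h1 t)
    (h2.intervalIntegrable _ _)
  simp only [one_smul, zero_smul] at h3
  rw [← h3]
  refine intervalIntegral.norm_integral_le_of_norm_le zero_le_one
    (Eventually.of_forall fun t _ => ?_)
    ((by fun_prop : Continuous fun t : ℝ => a (t • z)).intervalIntegrable _ _)
  have h4 : ‖fderiv ℝ V (t • z)‖ ≤ a (t • z) :=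
    ContinuousLinearMap.opNorm_le_of_unit_norm (h0 _) fun v hv => h _ v hv
  calc ‖dd V z (t • z)‖ ≤ ‖fderiv ℝ V (t • z)‖ * ‖z‖ := ContinuousLinearMap.le_opNorm _ _
    _ ≤ a (t • z) * 1 := mul_le_mul h4 hz (norm_nonneg _) (h0 _)
    _ = _ := mul_one _

theorem dd_bound {V : E d → ℂ} {a b : E d → ℝ} (hV : ContDiff ℝ 1 V) (ha : Continuous a)
    (hb : Continuous b) (h0 : ∀ z, 0 ≤ a z ∧ 0 ≤ b z)
    (h : ∀ z v' : E d, ‖v'‖ = 1 → ‖dd V v' z‖ ≤ a z + b z) {v : E d} (hv : ‖v‖ = 1) (z : E d) :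
    ‖dd (fun z => ze d z • (V z - V 0)) v z‖ ≤
      Cz d ^ 2 * (ze d ((1 / 2 : ℝ) • z) * (sg a z + sg b z)) := by
  have hC : 1 ≤ Cz d := one_le_Cz
  have s0 : 0 ≤ sg a z + sg b z :=
    add_nonneg (sg_nonneg (fun z => (h0 z).1) z) (sg_nonneg (fun z => (h0 z).2) z)
  rcases le_or_gt ‖z‖ 1 with hz | hz
  · have hR : ContDiff ℝ 1 fun z => V z - V 0 := hV.sub contDiff_const
    rw [dd_smul contDiff_ze hR]
    have e1 : dd (fun z => V z - V 0) v z = dd V v z := by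
      unfold dd; rw [fderiv_sub_const]
    have e2 : ‖V z - V 0‖ ≤ (∫ t in (0 : ℝ)..1, a (t • z)) + ∫ t in (0 : ℝ)..1, b (t • z) := by
      have := seg_le hV (ha.add hb) (fun z => add_nonneg (h0 z).1 (h0 z).2) h hz
      rwa [← intervalIntegral.integral_add
        ((by fun_prop : Continuous fun t : ℝ => a (t • z)).intervalIntegrable _ _)
        ((by fun_prop : Continuous fun t : ℝ => b (t • z)).intervalIntegrable _ _)]
    have e3 : ‖dd (ze d) v z‖ ≤ Cz d := by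
      have := (fderiv ℝ (ze d) z).le_opNorm v
      rw [hv, mul_one] at this
      exact this.trans (norm_fderiv_ze z)
    have e4 : ze d ((1 / 2 : ℝ) • z) = ze d 0 := ze_eq_ze_zero (by
      rw [norm_smul, Real.norm_of_nonneg (by norm_num)]; linarith)
    have e5 : ‖ze d z • dd V v z‖ ≤ Cz d * (a z + b z) := by
      rw [norm_smul, Real.norm_of_nonneg (ze_nonneg z)]
      exact mul_le_mul (ze_le z) (h z v hv) (norm_nonneg _) (by linarith)
    have e6 : ‖dd (ze d) v z • (V z - V 0)‖ ≤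
        Cz d * ((∫ t in (0 : ℝ)..1, a (t • z)) + ∫ t in (0 : ℝ)..1, b (t • z)) := by
      rw [norm_smul]
      exact mul_le_mul e3 e2 (norm_nonneg _) (by linarith)
    rw [e1, e4]
    have e7 : Cz d * (sg a z + sg b z) * 1 ≤ Cz d * (sg a z + sg b z) * (Cz d * ze d 0) :=
      mul_le_mul_of_nonneg_left one_le_Cz_mul (by positivity)
    calc _ ≤ _ := norm_add_le _ _
      _ ≤ Cz d * (sg a z + sg b z) * 1 := by unfold sg; linarith
      _ ≤ _ := e7
      _ = _ := by ring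
  · have h1 : (fun z => ze d z • (V z - V 0)) =ᶠ[𝓝 z] fun _ => 0 := by
      filter_upwards [(isOpen_lt continuous_const continuous_norm).mem_nhds hz] with w hw
      rw [ze_eq_zero (le_of_lt hw), zero_smul]
    unfold dd
    rw [h1.fderiv_eq]
    simp only [fderiv_fun_const, Pi.zero_apply, zero_apply, norm_zero]
    have := ze_nonneg ((1 / 2 : ℝ) • z)
    positivity

theorem contDiff_exi (ξ : E d) : ContDiff ℝ 1 (exi ξ) := by
  unfold exi
  have h : ContDiff ℝ 1 fun z : E d => ((inner ℝ ξ z : ℝ) : ℂ) :=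
    Complex.ofRealCLM.contDiff.comp (contDiff_const.inner ℝ contDiff_id)
  exact (contDiff_const.mul h).cexp

theorem dd_exi (ξ v z : E d) : dd (exi ξ) v z = Complex.I * (inner ℝ ξ v : ℝ) * exi ξ z := by
  have h1 := hasDerivAt_line (contDiff_exi ξ) v z 0
  have h2 : HasDerivAt (fun t : ℝ => exi ξ (z + t • v))
      (Complex.I * (inner ℝ ξ v : ℝ) * exi ξ z) 0 := by
    have h3 : HasDerivAt (fun t : ℝ => ((inner ℝ ξ z + t * inner ℝ ξ v : ℝ) : ℂ))
        ((inner ℝ ξ v : ℝ) : ℂ) 0 := by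
      have := (((hasDerivAt_id (0 : ℝ)).mul_const (inner ℝ ξ v : ℝ)).const_add
        (inner ℝ ξ z : ℝ)).ofReal_comp
      simpa using this
    have h4 := (h3.const_mul Complex.I).cexp
    simp only [zero_mul, add_zero] at h4
    simp only [exi, inner_add_right, real_inner_smul_right]
    rw [mul_comm]
    exact h4
  simpa using h1.unique h2

theorem conj_exi (ξ z : E d) : (starRingEnd ℂ) (exi ξ z) = exi (-ξ) z := by
  simp [exi, ← Complex.exp_conj, inner_neg_left]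

theorem norm_exi (ξ z : E d) : ‖exi ξ z‖ = 1 := by
  unfold exi
  rw [mul_comm]
  exact Complex.norm_exp_ofReal_mul_I _

/-- coefficients of the primitives -/
def cq (ζ : ℕ → E d) (c : ℕ → ℂ) (i : Fin d) (j : ℕ) : ℂ :=
  c j * (-Complex.I * ((ζ j i / ‖ζ j‖ ^ 2 : ℝ) : ℂ))

/-- the primitives -/
def Q (s : Finset ℕ) (ζ : ℕ → E d) (c : ℕ → ℂ) (i : Fin d) (z : E d) : ℂ :=
  ∑ j ∈ s, (starRingEnd ℂ) (cq ζ c i j) * exi (-ζ j) z

theorem norm_cq {ζ : ℕ → E d} {c : ℕ → ℂ} (i : Fin d) {j : ℕ} (h : ζ j ≠ 0) :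
    ‖cq ζ c i j‖ ≤ ‖c j‖ / ‖ζ j‖ := by
  have h0 : 0 < ‖ζ j‖ := norm_pos_iff.2 h
  have h1 : |ζ j i| ≤ ‖ζ j‖ := by simpa using PiLp.norm_apply_le (ζ j) i
  unfold cq
  rw [norm_mul, norm_mul, norm_neg, Complex.norm_I, one_mul, Complex.norm_real, Real.norm_eq_abs,
    abs_div, abs_of_pos (pow_pos h0 2), div_eq_mul_inv ‖c j‖]
  refine mul_le_mul_of_nonneg_left ?_ (norm_nonneg _)
  rw [div_le_iff₀ (pow_pos h0 2)]
  calc |ζ j i| ≤ ‖ζ j‖ := h1
    _ = _ := by field_simp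

theorem contDiff_Q (s : Finset ℕ) (ζ : ℕ → E d) (c : ℕ → ℂ) (i : Fin d) :
    ContDiff ℝ 1 (Q s ζ c i) :=
  ContDiff.sum fun _ _ => contDiff_const.mul (contDiff_exi _)

theorem norm_Q (s : Finset ℕ) (ζ : ℕ → E d) (c : ℕ → ℂ) (i : Fin d) (z : E d) :
    ‖Q s ζ c i z‖ = ‖∑ j ∈ s, cq ζ c i j * exi (ζ j) z‖ := by
  rw [← Complex.norm_conj (∑ j ∈ s, _), map_sum]
  simp only [Q, map_mul, conj_exi]

theorem dd_Q (s : Finset ℕ) (ζ : ℕ → E d) (c : ℕ → ℂ) (i : Fin d) (v z : E d) :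
    dd (Q s ζ c i) v z = ∑ j ∈ s, (starRingEnd ℂ) (cq ζ c i j) * dd (exi (-ζ j)) v z := by
  have h : HasFDerivAt (Q s ζ c i)
      (∑ j ∈ s, (starRingEnd ℂ) (cq ζ c i j) • fderiv ℝ (exi (-ζ j)) z) z :=
    HasFDerivAt.fun_sum fun j _ =>
      ((contDiff_exi (-ζ j)).differentiable one_ne_zero z).hasFDerivAt.const_mul _
  unfold dd
  rw [h.fderiv]
  simp

theorem sum_dd_Q {s : Finset ℕ} {ζ : ℕ → E d} (c : ℕ → ℂ) (h : ∀ j ∈ s, ζ j ≠ 0) (z : E d) :
    ∑ i, dd (Q s ζ c i) (ax i) z = (starRingEnd ℂ) (∑ j ∈ s, c j * exi (ζ j) z) := by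
  simp only [dd_Q, dd_exi, map_sum, map_mul, conj_exi]
  rw [Finset.sum_comm]
  refine Finset.sum_congr rfl fun j hj => ?_
  have h0 : 0 < ‖ζ j‖ := norm_pos_iff.2 (h j hj)
  have h1 : ∀ i, (inner ℝ (-ζ j) (ax i : E d) : ℝ) = -ζ j i := fun i => by
    simp [ax, EuclideanSpace.inner_single_right]
  have h2 : ∑ i, ζ j i / ‖ζ j‖ ^ 2 * ζ j i = 1 := by
    have := EuclideanSpace.real_norm_sq_eq (ζ j)
    have h3 : ∀ i, ζ j i / ‖ζ j‖ ^ 2 * ζ j i = ζ j i ^ 2 / ‖ζ j‖ ^ 2 := fun i => by ring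
    simp only [h3]
    rw [← Finset.sum_div, ← this, div_self (pow_pos h0 2).ne']
  have h4 : ∀ i, (starRingEnd ℂ) (cq ζ c i j) *
      (Complex.I * ((inner ℝ (-ζ j) (ax i : E d) : ℝ) : ℂ) * exi (-ζ j) z) =
      ((ζ j i / ‖ζ j‖ ^ 2 * ζ j i : ℝ) : ℂ) * ((starRingEnd ℂ) (c j) * exi (-ζ j) z) := fun i => by
    rw [h1, cq, map_mul, map_mul, map_neg, Complex.conj_I, Complex.conj_ofReal]
    push_cast
    linear_combination (-((ζ j i : ℂ) / (‖ζ j‖ : ℂ) ^ 2 * (ζ j i : ℂ)) *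
      ((starRingEnd ℂ) (c j) * exi (-ζ j) z)) * Complex.I_mul_I
  simp only [h4]
  rw [← Finset.sum_mul, ← Complex.ofReal_sum, h2]
  simp

theorem parts {G P : E d → ℂ} (hG : ContDiff ℝ 1 G) (hs : HasCompactSupport G)
    (hP : ContDiff ℝ 1 P) (v : E d) :
    ∫ z, G z * dd P v z = -∫ z, dd G v z * P z := by
  have h1 : HasCompactSupport (dd G v) := hs.fderiv_apply ℝ v
  exact integral_mul_fderiv_eq_neg_fderiv_mul_of_integrable
    (((continuous_dd hG v).mul hP.continuous).integrable_of_hasCompactSupport h1.mul_right)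
    ((hG.continuous.mul (continuous_dd hP v)).integrable_of_hasCompactSupport hs.mul_right)
    ((hG.continuous.mul hP.continuous).integrable_of_hasCompactSupport hs.mul_right)
    (fun x _ => hG.differentiable one_ne_zero x) fun x _ => hP.differentiable one_ne_zero x

theorem one_axis {V P : E d → ℂ} {a b : E d → ℝ} (hV : ContDiff ℝ 1 V) (ha : Continuous a)
    (hb : Continuous b) (h0 : ∀ z, 0 ≤ a z ∧ 0 ≤ b z)
    (h : ∀ z v' : E d, ‖v'‖ = 1 → ‖dd V v' z‖ ≤ a z + b z) {v : E d} (hv : ‖v‖ = 1)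
    (hP : ContDiff ℝ 1 P) {A B : ℝ} (hA : ∫ w, ze d w * ‖P ((2 : ℝ) • w)‖ ^ 2 ≤ A)
    (hB : ∀ z, ‖P z‖ ≤ B) :
    ‖∫ z, ze d z • (V z - V 0) * dd P v z‖ ≤
      Cz d ^ 2 * 2 ^ d * (√(2 * Mw fun z => a z ^ 2) * √A + Mw b * B) := by
  have hG : ContDiff ℝ 1 fun z => ze d z • (V z - V 0) := contDiff_ze.smul (hV.sub contDiff_const)
  rw [parts hG ze_supp.smul_right hP, norm_neg]
  have c1 : Continuous fun z => (sg a z + sg b z) * ‖P z‖ :=
    ((cont_sg ha).add (cont_sg hb)).mul hP.continuous.norm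
  have hs : HasCompactSupport fun z : E d => ze d ((1 / 2 : ℝ) • z) :=
    ze_supp.comp_homeomorph (Homeomorph.smulOfNeZero (1 / 2 : ℝ) (by norm_num))
  have c2 : Continuous fun z : E d => ze d ((1 / 2 : ℝ) • z) :=
    continuous_ze.comp (f := fun z : E d => (1 / 2 : ℝ) • z) (by fun_prop)
  have h1 : ‖∫ z, dd (fun z => ze d z • (V z - V 0)) v z * P z‖ ≤
      ∫ z, Cz d ^ 2 * (ze d ((1 / 2 : ℝ) • z) * ((sg a z + sg b z) * ‖P z‖)) := by
    refine norm_integral_le_of_norm_le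
      (((c2.mul c1).integrable_of_hasCompactSupport hs.mul_right).const_mul _)
      (Eventually.of_forall fun z => ?_)
    rw [norm_mul]
    calc _ ≤ _ := mul_le_mul_of_nonneg_right (dd_bound hV ha hb h0 h hv z) (norm_nonneg _)
      _ = _ := by ring
  rw [integral_const_mul, scale] at h1
  have two : Continuous fun w : E d => (2 : ℝ) • w := by fun_prop
  have ca : Continuous fun w : E d => sg a ((2 : ℝ) • w) := (cont_sg ha).comp two
  have cb : Continuous fun w : E d => sg b ((2 : ℝ) • w) := (cont_sg hb).comp two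
  have cP : Continuous fun w : E d => ‖P ((2 : ℝ) • w)‖ := (hP.continuous.comp two).norm
  have h2 := cs ca cP (mean_sg_sq ha) hA
  have h3 : ∫ w, ze d w * (sg b ((2 : ℝ) • w) * ‖P ((2 : ℝ) • w)‖) ≤ Mw b * B := by
    rw [← mean_sg hb, ← integral_mul_const]
    refine integral_mono (int_ze' (cb.mul cP)) ((int_ze' cb).mul_const B) fun w => ?_
    simp only
    rw [← mul_assoc]
    exact mul_le_mul_of_nonneg_left (hB _)
      (mul_nonneg (ze_nonneg w) (sg_nonneg (fun z => (h0 z).2) _))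
  have h4 : ∫ w, ze d w * ((sg a ((2 : ℝ) • w) + sg b ((2 : ℝ) • w)) * ‖P ((2 : ℝ) • w)‖) =
      (∫ w, ze d w * (sg a ((2 : ℝ) • w) * ‖P ((2 : ℝ) • w)‖)) +
        ∫ w, ze d w * (sg b ((2 : ℝ) • w) * ‖P ((2 : ℝ) • w)‖) := by
    rw [← integral_add (int_ze' (ca.fun_mul cP)) (int_ze' (cb.fun_mul cP))]
    congr 1; ext w; ring
  rw [h4] at h1
  have h5 : 0 ≤ Cz d ^ 2 * 2 ^ d := by positivity
  calc _ ≤ _ := h1
    _ = Cz d ^ 2 * 2 ^ d * _ := (mul_assoc _ _ _).symm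
    _ ≤ _ := mul_le_mul_of_nonneg_left (add_le_add h2 h3) h5

theorem const_part {C : ℝ} (hC : ∀ ξ : E d, ‖∫ z, ze d z • exi ξ z‖ * ‖ξ‖ ^ 2 ≤ C) (x : ℂ)
    {s : Finset ℕ} {ζ : ℕ → E d} (c : ℕ → ℂ) (h : ∀ j ∈ s, ζ j ≠ 0) :
    ‖∫ z, ze d z • (x * (starRingEnd ℂ) (∑ j ∈ s, c j * exi (ζ j) z))‖ ≤
      C * (‖x‖ * ∑ j ∈ s, ‖c j‖ / ‖ζ j‖ ^ 2) := by
  have h1 : ∀ z, ze d z • (x * (starRingEnd ℂ) (∑ j ∈ s, c j * exi (ζ j) z)) =
      ∑ j ∈ s, x * (starRingEnd ℂ) (c j) * (ze d z • exi (-ζ j) z) := fun z => by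
    simp only [map_sum, map_mul, conj_exi, Finset.mul_sum, Finset.smul_sum, Complex.real_smul]
    exact Finset.sum_congr rfl fun j _ => by ring
  simp only [h1]
  rw [integral_finsetSum _ fun j _ => (int_ze (contDiff_exi (-ζ j)).continuous).const_mul _,
    Finset.mul_sum, Finset.mul_sum]
  refine (norm_sum_le _ _).trans (Finset.sum_le_sum fun j hj => ?_)
  have h0 : 0 < ‖ζ j‖ ^ 2 := pow_pos (norm_pos_iff.2 (h j hj)) 2
  have h2 := hC (-ζ j)
  rw [norm_neg, ← le_div_iff₀ h0] at h2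
  rw [integral_const_mul, norm_mul, norm_mul, Complex.norm_conj]
  calc _ ≤ ‖x‖ * ‖c j‖ * (C / ‖ζ j‖ ^ 2) := mul_le_mul_of_nonneg_left h2 (by positivity)
    _ = _ := by ring

theorem Mw_nonneg {G : E d → ℝ} (h : ∀ z, 0 ≤ G z) : 0 ≤ Mw G :=
  add_nonneg (integral_nonneg fun w => mul_nonneg (ze_nonneg w) (h _))
    (intervalIntegral.integral_nonneg zero_le_one fun _ _ =>
      integral_nonneg fun w => mul_nonneg (ze_nonneg w) (h _))

end Crs

open Crs in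
theorem cross2 (d : ℕ) (_hd : 3 ≤ d) (h : LsStmt d) : CrossStmt d := by
  obtain ⟨C, hC, hF, hS⟩ := h
  have hz : 1 ≤ Cz d := one_le_Cz
  have hK : (0 : ℝ) ≤ d * (Cz d ^ 2 * 2 ^ d) := by positivity
  refine ⟨C + d * (Cz d ^ 2 * 2 ^ d) * (2 * C), by nlinarith, ?_⟩
  intro V a b s ζ c ν hV ha hb h0 hab hsp hc
  have hζ : ∀ j ∈ s, ζ j ≠ 0 := fun j hj => (hc j hj).1
  set T1 := ‖V 0‖ * ∑ j ∈ s, ‖c j‖ / ‖ζ j‖ ^ 2 with hT1
  set A := ∑ j ∈ s, ‖c j‖ ^ 2 / ‖ζ j‖ ^ 2 with hA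
  set B := ∑ j ∈ s, 1 / ‖ζ j‖ with hB
  set Ma := Mw fun z => a z ^ 2 with hMa
  have t1 : 0 ≤ T1 := mul_nonneg (norm_nonneg _) (Finset.sum_nonneg fun j _ => by positivity)
  have a0 : 0 ≤ A := Finset.sum_nonneg fun j _ => by positivity
  have b0 : 0 ≤ B := Finset.sum_nonneg fun j _ => by positivity
  have m0 : 0 ≤ Mw b := Mw_nonneg fun z => (h0 z).2
  have cP : Continuous fun z => (starRingEnd ℂ) (∑ j ∈ s, c j * exi (ζ j) z) :=
    Complex.continuous_conj.comp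
      (continuous_finsetSum _ fun j _ => continuous_const.mul (contDiff_exi _).continuous)
  have cG : Continuous fun z => ze d z • (V z - V 0) :=
    continuous_ze.smul (hV.continuous.sub continuous_const)
  have hi : ∀ i, Integrable fun z => ze d z • (V z - V 0) * dd (Q s ζ c i) (ax i) z := fun i =>
    (cG.mul (continuous_dd (contDiff_Q s ζ c i) _)).integrable_of_hasCompactSupport
      ze_supp.smul_right.mul_right
  have e1 : ∀ z, ze d z • (V z * (starRingEnd ℂ) (∑ j ∈ s, c j * exi (ζ j) z)) =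
      ze d z • (V 0 * (starRingEnd ℂ) (∑ j ∈ s, c j * exi (ζ j) z)) +
        ∑ i, ze d z • (V z - V 0) * dd (Q s ζ c i) (ax i) z := fun z => by
    rw [← Finset.mul_sum, sum_dd_Q c hζ]
    simp only [Complex.real_smul]
    ring
  simp only [e1]
  rw [integral_add (int_ze (continuous_const.fun_mul cP)) (integrable_finsetSum _ fun i _ => hi i),
    integral_finsetSum _ fun i _ => hi i]
  have h1 := const_part hF (V 0) c hζ
  have h2 : ∀ i, ‖∫ z, ze d z • (V z - V 0) * dd (Q s ζ c i) (ax i) z‖ ≤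
      Cz d ^ 2 * 2 ^ d * (2 * C * (√Ma * √A + Mw b * B)) := fun i => by
    have q1 : ∫ w, ze d w * ‖Q s ζ c i ((2 : ℝ) • w)‖ ^ 2 ≤ C * A := by
      simp only [norm_Q]
      refine (hS s ζ ν (cq ζ c i) hsp).2.trans
        (mul_le_mul_of_nonneg_left (Finset.sum_le_sum fun j hj => ?_) (by linarith))
      rw [← div_pow]
      exact pow_le_pow_left₀ (norm_nonneg _) (norm_cq i (hζ j hj)) 2
    have q2 : ∀ z, ‖Q s ζ c i z‖ ≤ B := fun z => by
      rw [norm_Q]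
      refine (norm_sum_le _ _).trans (Finset.sum_le_sum fun j hj => ?_)
      rw [norm_mul, norm_exi, mul_one]
      exact (norm_cq i (hζ j hj)).trans
        (div_le_div_of_nonneg_right (hc j hj).2 (norm_nonneg _))
    refine (one_axis hV ha hb h0 hab (norm_ax i) (contDiff_Q s ζ c i) q1 q2).trans
      (mul_le_mul_of_nonneg_left ?_ (by positivity))
    have q3 : √(2 * Ma) * √(C * A) ≤ 2 * C * (√Ma * √A) := by
      rw [Real.sqrt_mul (by norm_num), Real.sqrt_mul (by linarith)]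
      have r1 : √2 ≤ 2 := Real.sqrt_le_iff.2 ⟨by norm_num, by norm_num⟩
      have r2 : √C ≤ C := Real.sqrt_le_iff.2 ⟨by linarith, by nlinarith⟩
      calc √2 * √Ma * (√C * √A) = √2 * √C * (√Ma * √A) := by ring
        _ ≤ _ := by gcongr
    have q4 : Mw b * B ≤ 2 * C * (Mw b * B) := le_mul_of_one_le_left (by positivity) (by linarith)
    linarith
  have h3 : ‖∑ i, ∫ z, ze d z • (V z - V 0) * dd (Q s ζ c i) (ax i) z‖ ≤
      d * (Cz d ^ 2 * 2 ^ d * (2 * C * (√Ma * √A + Mw b * B))) := by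
    refine (norm_sum_le _ _).trans ((Finset.sum_le_sum fun i _ => h2 i).trans ?_)
    simp
  have t2 : 0 ≤ √Ma * √A + Mw b * B := by positivity
  have h4 : 0 ≤ d * (Cz d ^ 2 * 2 ^ d) * (2 * C) * T1 := by positivity
  have h5 : 0 ≤ C * (√Ma * √A + Mw b * B) := by positivity
  calc _ ≤ _ := norm_add_le _ _
    _ ≤ C * T1 + d * (Cz d ^ 2 * 2 ^ d * (2 * C * (√Ma * √A + Mw b * B))) := add_le_add h1 h3
    _ ≤ _ := by nlinarith

end Pool.Agent.MP_20bec2_an.b2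

end
end MrgPart0

-- ======== part 1: formerly Pool.Agent.MP_20bec2_an.b2.WinA
section MrgPart1

/-! Tools for one window: domination by the doubled kernel, one term of the lower bound. -/

set_option autoImplicit false

open MeasureTheory Set Metric Filter Topology

noncomputable section

namespace Pool.Agent.MP_20bec2_an.b2

open Pool.Agent.MP_20bec2_an.h7

namespace Wn

open Crs

variable {d : ℕ}

/-- the mean over the doubled window -/
def Dm (G : E d → ℝ) : ℝ := ∫ w, ze d w * G ((2 : ℝ) • w)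

/-- the constant of the domination -/
def KK (d : ℕ) : ℝ := Cz d ^ 2 * 2 ^ d

theorem one_le_KK : 1 ≤ KK d :=
  one_le_mul_of_one_le_of_one_le (one_le_pow₀ one_le_Cz) (one_le_pow₀ one_le_two)

theorem Dm_cv (G : E d → ℝ) : Dm G = cv (-2) G 0 := by
  simp only [Dm, cv, zero_sub, neg_smul, neg_neg, smul_eq_mul]

theorem Dm_mono {G G' : E d → ℝ} (hG : Continuous G) (hG' : Continuous G')
    (h : ∀ z, G z ≤ G' z) : Dm G ≤ Dm G' :=
  integral_mono (int_ze' (hG.comp (f := fun w : E d => (2 : ℝ) • w) (by fun_prop)))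
    (int_ze' (hG'.comp (f := fun w : E d => (2 : ℝ) • w) (by fun_prop)))
    fun w => mul_le_mul_of_nonneg_left (h _) (ze_nonneg w)

theorem Dm_le_Mw {G : E d → ℝ} (h : ∀ z, 0 ≤ G z) : Dm G ≤ Mw G :=
  le_add_of_nonneg_right (intervalIntegral.integral_nonneg zero_le_one fun _ _ =>
    integral_nonneg fun w => mul_nonneg (ze_nonneg w) (h _))

theorem Dm_add {G G' : E d → ℝ} (hG : Continuous G) (hG' : Continuous G') :
    Dm (fun z => G z + G' z) = Dm G + Dm G' := by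
  simp only [Dm_cv]; exact cv_add hG hG' _ _

theorem Dm_mul (c : ℝ) (G : E d → ℝ) : Dm (fun z => c * G z) = c * Dm G := by
  simp only [Dm_cv]; exact cv_const_mul c G _ _

theorem Dm_const (c : ℝ) : Dm (fun _ : E d => c) = c := by
  simp only [Dm_cv]; exact cv_const _ c _

theorem Dm_sum (s : Finset ℕ) {G : ℕ → E d → ℝ} (hG : ∀ i ∈ s, Continuous (G i)) :
    Dm (fun z => ∑ i ∈ s, G i z) = ∑ i ∈ s, Dm (G i) := by
  simp only [Dm_cv]; exact cv_sum s hG _ _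

/-- a bounded function that vanishes off the unit ball -/
def Cut (φ : E d → ℝ) : Prop := ∀ z, |φ z| ≤ Cz d ∧ (1 < ‖z‖ → φ z = 0)

theorem cut_ze : Cut (ze d) := fun z =>
  ⟨by rw [abs_of_nonneg (ze_nonneg z)]; exact ze_le z, fun h => ze_eq_zero h.le⟩

theorem cut_dd {v : E d} (hv : ‖v‖ = 1) : Cut (dd (ze d) v) := fun z => by
  refine ⟨?_, fun hz => ?_⟩
  · have := (fderiv ℝ (ze d) z).le_opNorm v
    rw [hv, mul_one] at this
    exact this.trans (norm_fderiv_ze z)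
  · have h1 : ze d =ᶠ[𝓝 z] fun _ => 0 := by
      filter_upwards [(isOpen_lt continuous_const continuous_norm).mem_nhds hz] with w hw
      exact ze_eq_zero (le_of_lt hw)
    unfold dd
    rw [h1.fderiv_eq]
    simp

theorem dom {φ G : E d → ℝ} {F : E d → ℂ} (hφ : Cut φ) (hG : Continuous G) (h0 : ∀ z, 0 ≤ G z)
    (h : ∀ z, ‖z‖ ≤ 1 → ‖F z‖ ≤ G z) : ‖∫ z, φ z • F z‖ ≤ KK d * Dm G := by
  have hC : 1 ≤ Cz d := one_le_Cz
  have hs : HasCompactSupport fun z : E d => ze d ((1 / 2 : ℝ) • z) :=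
    ze_supp.comp_homeomorph (Homeomorph.smulOfNeZero (1 / 2 : ℝ) (by norm_num))
  have c2 : Continuous fun z : E d => ze d ((1 / 2 : ℝ) • z) :=
    continuous_ze.comp (f := fun z : E d => (1 / 2 : ℝ) • z) (by fun_prop)
  have h1 : ‖∫ z, φ z • F z‖ ≤ ∫ z, Cz d ^ 2 * (ze d ((1 / 2 : ℝ) • z) * G z) := by
    refine norm_integral_le_of_norm_le
      (((c2.mul hG).integrable_of_hasCompactSupport hs.mul_right).const_mul _)
      (Eventually.of_forall fun z => ?_)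
    have g0 := h0 z
    rcases le_or_gt ‖z‖ 1 with hz | hz
    · have e4 : ze d ((1 / 2 : ℝ) • z) = ze d 0 := ze_eq_ze_zero (by
        rw [norm_smul, Real.norm_of_nonneg (by norm_num)]; linarith)
      rw [norm_smul, Real.norm_eq_abs, e4]
      calc _ ≤ Cz d * G z := mul_le_mul (hφ z).1 (h z hz) (norm_nonneg _) (by linarith)
        _ = Cz d * G z * 1 := (mul_one _).symm
        _ ≤ Cz d * G z * (Cz d * ze d 0) :=
            mul_le_mul_of_nonneg_left one_le_Cz_mul (by positivity)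
        _ = _ := by ring
    · rw [(hφ z).2 hz, zero_smul, norm_zero]
      have := ze_nonneg ((1 / 2 : ℝ) • z)
      positivity
  rw [integral_const_mul, Crs.scale, ← mul_assoc] at h1
  exact h1

/-- a product of a square integrable factor and a bounded factor -/
theorem tri {φ f g W : E d → ℝ} {F : E d → ℂ} {R μ B Bf Bg : ℝ} (hφ : Cut φ) (hf : Continuous f)
    (hg : Continuous g) (hW : Continuous W) (hR : 0 < R) (hμ : 0 ≤ μ) (g0 : ∀ z, 0 ≤ g z)
    (hμW : ∀ z, W z ≤ μ) (h : ∀ z, ‖z‖ ≤ 1 → ‖F z‖ ≤ (f z + g z) * W z)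
    (hB : Dm (fun z => W z ^ 2) ≤ B) (hBf : Dm (fun z => f z ^ 2) ≤ Bf) (hBg : μ * Dm g ≤ Bg) :
    ‖∫ z, φ z • F z‖ ≤ KK d * (B / (4 * R) + R * Bf + Bg) := by
  have c1 : Continuous fun z => (4 * R)⁻¹ * W z ^ 2 := by fun_prop
  have c2 : Continuous fun z => R * f z ^ 2 := by fun_prop
  have c3 : Continuous fun z => μ * g z := by fun_prop
  have h1 := dom (G := fun z => (4 * R)⁻¹ * W z ^ 2 + R * f z ^ 2 + μ * g z) (F := F) hφ
    (by fun_prop) (fun z => by have := g0 z; positivity) fun z hz => by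
      have e1 : (4 * R)⁻¹ * W z ^ 2 + R * f z ^ 2 - f z * W z =
          (4 * R)⁻¹ * (W z - 2 * R * f z) ^ 2 := by field_simp; ring
      have e2 : 0 ≤ (4 * R)⁻¹ * (W z - 2 * R * f z) ^ 2 := by positivity
      have e3 := mul_le_mul_of_nonneg_left (hμW z) (g0 z)
      have e4 := h z hz
      nlinarith
  rw [Dm_add (c1.fun_add c2) c3, Dm_add c1 c2, Dm_mul, Dm_mul, Dm_mul] at h1
  refine h1.trans (mul_le_mul_of_nonneg_left ?_ (zero_le_one.trans one_le_KK))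
  have e1 := mul_le_mul_of_nonneg_left hB (show 0 ≤ (4 * R)⁻¹ by positivity)
  have e2 := mul_le_mul_of_nonneg_left hBf hR.le
  rw [div_eq_inv_mul]
  linarith

theorem exi_add (a b z : E d) : exi (a + b) z = exi a z * exi b z := by
  simp only [exi, inner_add_left, Complex.ofReal_add, mul_add, Complex.exp_add]

theorem exi_zero (a : E d) : exi a 0 = 1 := by simp [exi]

theorem exi_neg (a z : E d) : exi (-a) z * exi a z = 1 := by
  rw [← exi_add, neg_add_cancel]; simp [exi]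

theorem dd_cmul {U V : E d → ℂ} (hU : ContDiff ℝ 1 U) (hV : ContDiff ℝ 1 V) (v z : E d) :
    dd (fun z => U z * V z) v z = U z * dd V v z + dd U v z * V z := by
  have := ((hU.differentiable one_ne_zero z).hasFDerivAt.mul
    (hV.differentiable one_ne_zero z).hasFDerivAt).fderiv
  unfold dd
  rw [show (fun z => U z * V z) = U * V from rfl, this]
  simp [mul_comm]

theorem contDiff_conj {V : E d → ℂ} (hV : ContDiff ℝ 1 V) :
    ContDiff ℝ 1 fun z => (starRingEnd ℂ) (V z) := Complex.conjCLE.contDiff.comp hV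

theorem dd_conj {V : E d → ℂ} (hV : ContDiff ℝ 1 V) (v z : E d) :
    dd (fun z => (starRingEnd ℂ) (V z)) v z = (starRingEnd ℂ) (dd V v z) := by
  have := ((Complex.conjCLE : ℂ →L[ℝ] ℂ).hasFDerivAt.comp z
    (hV.differentiable one_ne_zero z).hasFDerivAt).fderiv
  unfold dd
  rw [show (fun z => (starRingEnd ℂ) (V z)) = (Complex.conjCLE : ℂ →L[ℝ] ℂ) ∘ V from rfl, this]
  simp

theorem dd_demod {U : E d → ℂ} (hU : ContDiff ℝ 1 U) (ξ v z : E d) :
    ‖dd (fun z => U z * exi (-ξ) z) v z‖ =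
      ‖dd U v z - Complex.I * (inner ℝ ξ v : ℝ) * U z‖ := by
  rw [dd_cmul hU (contDiff_exi _), dd_exi, inner_neg_left]
  have : U z * (Complex.I * ((-inner ℝ ξ v : ℝ) : ℂ) * exi (-ξ) z) + dd U v z * exi (-ξ) z =
      (dd U v z - Complex.I * (inner ℝ ξ v : ℝ) * U z) * exi (-ξ) z := by push_cast; ring
  rw [this, norm_mul, norm_exi, mul_one]

theorem seg_sg {V : E d → ℂ} {a b : E d → ℝ} (hV : ContDiff ℝ 1 V) (ha : Continuous a)
    (hb : Continuous b) (h0 : ∀ z, 0 ≤ a z ∧ 0 ≤ b z)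
    (h : ∀ z v' : E d, ‖v'‖ = 1 → ‖dd V v' z‖ ≤ a z + b z) {z : E d} (hz : ‖z‖ ≤ 1) :
    ‖V z - V 0‖ ≤ sg a z + sg b z := by
  have e2 : ‖V z - V 0‖ ≤ (∫ t in (0 : ℝ)..1, a (t • z)) + ∫ t in (0 : ℝ)..1, b (t • z) := by
    have := seg_le hV (ha.add hb) (fun z => add_nonneg (h0 z).1 (h0 z).2) h hz
    rwa [← intervalIntegral.integral_add
      ((by fun_prop : Continuous fun t : ℝ => a (t • z)).intervalIntegrable _ _)
      ((by fun_prop : Continuous fun t : ℝ => b (t • z)).intervalIntegrable _ _)]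
  have := h0 z
  unfold sg
  linarith

theorem sp_shift {s t : Finset ℕ} {ξ : ℕ → E d} {κ ν : ℝ} (h : Sp2 s ξ κ ν) (hκ : κ ≤ 1)
    (ht : t ⊆ s) (η : E d) : Sp2 t (fun j => ξ j + η) 1 ν where
  inj k hk k' hk' hne he := h.inj k (ht hk) k' (ht hk') hne (add_right_cancel he)
  s2 k hk := by
    simp only [add_sub_add_right_eq_sub]
    exact (Finset.sum_le_sum_of_subset_of_nonneg (Finset.erase_subset_erase k ht)
      fun _ _ _ => by positivity).trans ((h.s2 k (ht hk)).trans hκ)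
  s1 k hk := by
    simp only [add_sub_add_right_eq_sub]
    exact (Finset.sum_le_sum_of_subset_of_nonneg (Finset.erase_subset_erase k ht)
      fun _ _ _ => by positivity).trans (h.s1 k (ht hk))

/-- the linear form of the bound for the cross terms -/
theorem lin {t : Finset ℕ} {γ n : ℕ → ℝ} {u g x κ ν Ma Mb : ℝ} (hγ : ∀ j, 0 ≤ γ j ∧ γ j ≤ 1)
    (hu : u ≤ g + x) (hx : 0 ≤ x) (ha : 0 ≤ Ma) (hb : 0 ≤ Mb) (h2 : ∑ j ∈ t, 1 / n j ^ 2 ≤ κ)
    (h1 : ∑ j ∈ t, 1 / n j ≤ ν) :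
    u * ∑ j ∈ t, γ j / n j ^ 2 + √Ma * √(∑ j ∈ t, γ j ^ 2 / n j ^ 2) + Mb * ∑ j ∈ t, 1 / n j ≤
      κ * g ^ 2 / 2 + ∑ j ∈ t, γ j ^ 2 / n j ^ 2 + κ * x + Ma + ν * Mb := by
  set B := ∑ j ∈ t, γ j ^ 2 / n j ^ 2 with hB
  have b0 : 0 ≤ B := Finset.sum_nonneg fun j _ => by positivity
  have s0 : 0 ≤ ∑ j ∈ t, γ j / n j ^ 2 := Finset.sum_nonneg fun j _ => by
    have := (hγ j).1; positivity
  have e1 : ∑ j ∈ t, γ j / n j ^ 2 ≤ κ :=
    (Finset.sum_le_sum fun j _ => div_le_div_of_nonneg_right (hγ j).2 (sq_nonneg _)).trans h2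
  have e2 : g * ∑ j ∈ t, γ j / n j ^ 2 ≤ g ^ 2 / 2 * ∑ j ∈ t, 1 / n j ^ 2 + B / 2 := by
    rw [hB, Finset.mul_sum, Finset.mul_sum, Finset.sum_div, ← Finset.sum_add_distrib]
    refine Finset.sum_le_sum fun j _ => ?_
    have : g ^ 2 / 2 * (1 / n j ^ 2) + γ j ^ 2 / n j ^ 2 / 2 - g * (γ j / n j ^ 2) =
        (g - γ j) ^ 2 / 2 * (1 / n j ^ 2) := by ring
    have h3 : 0 ≤ (g - γ j) ^ 2 / 2 * (1 / n j ^ 2) := by positivity
    linarith
  have e3 : √Ma * √B ≤ Ma + B / 2 := by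
    nlinarith [Real.sq_sqrt ha, Real.sq_sqrt b0, sq_nonneg (√Ma - √B)]
  have e4 := mul_le_mul_of_nonneg_left h2 (show 0 ≤ g ^ 2 / 2 by positivity)
  have e5 := mul_le_mul_of_nonneg_left h1 hb
  have e6 := mul_le_mul_of_nonneg_right hu s0
  have e7 := mul_le_mul_of_nonneg_left e1 hx
  nlinarith

/-- the linear form of the statement on cross terms -/
def Lx (d : ℕ) (C : ℝ) : Prop := ∀ (V : E d → ℂ) (a b : E d → ℝ) (t : Finset ℕ)
  (ζ : ℕ → E d) (c : ℕ → ℂ) (g x κ ν : ℝ), ContDiff ℝ 1 V → Continuous a → Continuous b →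
  (∀ z, 0 ≤ a z ∧ 0 ≤ b z) → (∀ z v' : E d, ‖v'‖ = 1 → ‖dd V v' z‖ ≤ a z + b z) →
  Sp2 t ζ 1 ν → (∀ j ∈ t, ζ j ≠ 0) → (∀ j, ‖c j‖ ≤ 1) → ‖V 0‖ ≤ g + x → 0 ≤ x →
  ∑ j ∈ t, 1 / ‖ζ j‖ ^ 2 ≤ κ → ∑ j ∈ t, 1 / ‖ζ j‖ ≤ ν →
  ‖∫ z, ze d z • (V z * (starRingEnd ℂ) (∑ j ∈ t, c j * exi (ζ j) z))‖ ≤
    C * (κ * g ^ 2 / 2 + ∑ j ∈ t, ‖c j‖ ^ 2 / ‖ζ j‖ ^ 2 + κ * x + (Mw fun z => a z ^ 2) + ν * Mw b)

theorem lx (h : CrossStmt d) : ∃ C : ℝ, 1 ≤ C ∧ Lx d C := by
  obtain ⟨C, hC, h⟩ := h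
  refine ⟨C, hC, fun V a b t ζ c g x κ ν hV ha hb h0 hab hs hζ hc hu hx h2 h1 => ?_⟩
  refine (h V a b t ζ c ν hV ha hb h0 hab hs fun j hj => ⟨hζ j hj, hc j⟩).trans
    (mul_le_mul_of_nonneg_left ?_ (by linarith))
  exact lin (γ := fun j => ‖c j‖) (n := fun j => ‖ζ j‖) (fun j => ⟨norm_nonneg _, hc j⟩) hu hx
    (Mw_nonneg fun z => sq_nonneg _) (Mw_nonneg fun z => (h0 z).2) h2 h1

theorem cont_P (t : Finset ℕ) (c : ℕ → ℂ) (ζ : ℕ → E d) :
    Continuous fun z => ∑ j ∈ t, c j * exi (ζ j) z :=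
  continuous_finsetSum _ fun _ _ => continuous_const.mul (contDiff_exi _).continuous

theorem cont_cP (t : Finset ℕ) (c : ℕ → ℂ) (ζ : ℕ → E d) :
    Continuous fun z => (starRingEnd ℂ) (∑ j ∈ t, c j * exi (ζ j) z) :=
  Complex.continuous_conj.comp (cont_P t c ζ)

/-- one term of the lower bound -/
theorem one {C R κ ν x : ℝ} (hX : Lx d C) (hR : 0 < R) {s : Finset ℕ} {ξ : ℕ → E d} {c : ℕ → ℂ}
    {k : ℕ} (hk : k ∈ s) {U : E d → ℂ} {a b : E d → ℝ} (hs : Sp2 s ξ κ ν) (hκ : κ ≤ 1)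
    (hU : ContDiff ℝ 1 U) (ha : Continuous a) (hb : Continuous b) (h0 : ∀ z, 0 ≤ a z ∧ 0 ≤ b z)
    (hab : ∀ z v' : E d, ‖v'‖ = 1 →
      ‖dd U v' z - Complex.I * (inner ℝ (ξ k) v' : ℝ) * U z‖ ≤ a z + b z)
    (hc : ∀ j, ‖c j‖ ≤ 1) (hx : 0 ≤ x) (hu : ‖U 0‖ ≤ ‖c k‖ + x)
    (hd : ‖c k‖ ^ 2 ≤ ((starRingEnd ℂ) (c k) * U 0).re) (hn : ∀ j ∈ s, ξ j + ξ k ≠ 0)
    (h2 : ∑ j ∈ s, 1 / ‖ξ j + ξ k‖ ^ 2 ≤ κ) (h1 : ∑ j ∈ s, 1 / ‖ξ j + ξ k‖ ≤ ν) :
    ‖c k‖ ^ 2 - KK d * (‖c k‖ ^ 2 / (4 * R) + R * (2 * Mw fun z => a z ^ 2) + Mw b) -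
      C * (κ * ‖c k‖ ^ 2 + ∑ j ∈ s.erase k, ‖c j‖ ^ 2 / ‖ξ j - ξ k‖ ^ 2 +
        ∑ j ∈ s, ‖c j‖ ^ 2 / ‖ξ j + ξ k‖ ^ 2 + 2 * (κ * x + (Mw fun z => a z ^ 2) + ν * Mw b)) ≤
      2 * (∫ z, ze d z • (((U z).re : ℂ) * (starRingEnd ℂ) (∑ j ∈ s, c j * exi (ξ j) z))).re := by
  set V : E d → ℂ := fun z => U z * exi (-ξ k) z with hVd
  have hV : ContDiff ℝ 1 V := hU.mul (contDiff_exi _)
  have hV0 : V 0 = U 0 := by simp only [hVd, exi_zero, mul_one]
  have hg : ∀ z v' : E d, ‖v'‖ = 1 → ‖dd V v' z‖ ≤ a z + b z := fun z v' hv => by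
    rw [hVd, dd_demod hU]; exact hab z v' hv
  have hg' : ∀ z v' : E d, ‖v'‖ = 1 → ‖dd (fun z => (starRingEnd ℂ) (V z)) v' z‖ ≤ a z + b z :=
    fun z v' hv => by rw [dd_conj hV, Complex.norm_conj]; exact hg z v' hv
  have x1 := hX V a b (s.erase k) (fun j => ξ j + -ξ k) c ‖c k‖ x κ ν hV ha hb h0 hg
    (sp_shift hs hκ (Finset.erase_subset k s) _)
    (fun j hj => by
      rw [← sub_eq_add_neg, sub_ne_zero]
      exact hs.inj j (Finset.mem_of_mem_erase hj) k hk (Finset.ne_of_mem_erase hj))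
    hc (hV0 ▸ hu) hx
    (by simp only [← sub_eq_add_neg, norm_sub_rev _ (ξ k)]; exact hs.s2 k hk)
    (by simp only [← sub_eq_add_neg, norm_sub_rev _ (ξ k)]; exact hs.s1 k hk)
  have x2 := hX (fun z => (starRingEnd ℂ) (V z)) a b s (fun j => ξ j + ξ k) c ‖c k‖ x κ ν
    (contDiff_conj hV) ha hb h0 hg' (sp_shift hs hκ Finset.Subset.rfl _) hn hc
    (by rw [Complex.norm_conj, hV0]; exact hu) hx h2 h1
  have x3 := tri (F := fun z => (starRingEnd ℂ) (c k) * (V z - V 0)) (W := fun _ => ‖c k‖)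
    (μ := 1) (Bg := Mw b) cut_ze (cont_sg ha) (cont_sg hb) continuous_const hR zero_le_one
    (sg_nonneg fun z => (h0 z).2) (fun _ => hc k)
    (fun z hz => by
      rw [norm_mul, Complex.norm_conj, mul_comm]
      exact mul_le_mul_of_nonneg_right (seg_sg hV ha hb h0 hg hz) (norm_nonneg _))
    (Dm_const _).le (mean_sg_sq ha) (by rw [one_mul]; exact (mean_sg hb).le)
  have e1 : ∀ z, ze d z • (((U z).re : ℂ) * (starRingEnd ℂ) (∑ j ∈ s, c j * exi (ξ j) z)) =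
      (1 / 2 : ℂ) * (ze d z • ((starRingEnd ℂ) (c k) * U 0) +
        ze d z • ((starRingEnd ℂ) (c k) * (V z - V 0)) +
        ze d z • (V z * (starRingEnd ℂ) (∑ j ∈ s.erase k, c j * exi (ξ j + -ξ k) z)) +
        ze d z • ((starRingEnd ℂ) (V z) *
          (starRingEnd ℂ) (∑ j ∈ s, c j * exi (ξ j + ξ k) z))) := fun z => by
    have f1 : ∑ j ∈ s, c j * exi (ξ j + ξ k) z = (∑ j ∈ s, c j * exi (ξ j) z) * exi (ξ k) z := by
      simp only [exi_add, Finset.sum_mul, mul_assoc]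
    have f2 : ∑ j ∈ s.erase k, c j * exi (ξ j + -ξ k) z =
        (∑ j ∈ s, c j * exi (ξ j) z) * exi (-ξ k) z - c k := by
      rw [← Finset.add_sum_erase s _ hk, add_mul, Finset.sum_mul]
      simp only [exi_add, mul_assoc]
      rw [mul_comm (exi (ξ k) z), exi_neg]; ring
    have f3 := exi_neg (ξ k) z
    rw [f1, f2, hV0, Complex.re_eq_add_conj]
    simp only [hVd, map_mul, map_sub, conj_exi, neg_neg, Complex.real_smul]
    linear_combination (-(ze d z : ℂ) / 2 * (U z + (starRingEnd ℂ) (U z)) *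
      (starRingEnd ℂ) (∑ j ∈ s, c j * exi (ξ j) z)) * f3
  have i0 : Integrable fun z => ze d z • ((starRingEnd ℂ) (c k) * U 0) := int_ze continuous_const
  have i1 : Integrable fun z => ze d z • ((starRingEnd ℂ) (c k) * (V z - V 0)) :=
    int_ze (continuous_const.mul (hV.continuous.sub continuous_const))
  have i2 := int_ze (hV.continuous.fun_mul (cont_cP (s.erase k) c fun j => ξ j + -ξ k))
  have i3 := int_ze ((contDiff_conj hV).continuous.fun_mul (cont_cP s c fun j => ξ j + ξ k))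
  simp only [e1]
  rw [integral_const_mul, integral_add ((i0.fun_add i1).fun_add i2) i3,
    integral_add (i0.fun_add i1) i2, integral_add i0 i1, integral_smul_const, integral_ze, one_smul]
  have r1 := (abs_le.1 ((Complex.abs_re_le_norm _).trans x1)).1
  have r2 := (abs_le.1 ((Complex.abs_re_le_norm _).trans x2)).1
  have r3 := (abs_le.1 ((Complex.abs_re_le_norm _).trans x3)).1
  simp only [← sub_eq_add_neg] at r1 ⊢
  have e2 : ∀ w : ℂ, 2 * ((1 / 2 : ℂ) * w).re = w.re := fun w => by simp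
  rw [e2]
  simp only [Complex.add_re]
  linarith

end Wn

end Pool.Agent.MP_20bec2_an.b2

end
end MrgPart1

-- ======== part 2: formerly Pool.Agent.MP_20bec2_an.b2.Win
section MrgPart2

/-! Almost orthogonality in one window. -/

set_option autoImplicit false

open MeasureTheory Set Metric Filter Topology

noncomputable section

namespace Pool.Agent.MP_20bec2_an.b2

open Pool.Agent.MP_20bec2_an.h7

namespace Wn

open Crs

variable {d : ℕ}

theorem dd_sum (s : Finset ℕ) (e : ℕ → ℂ) (ζ : ℕ → E d) (v z : E d) :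
    dd (fun z => ∑ j ∈ s, e j * exi (ζ j) z) v z = ∑ j ∈ s, e j * dd (exi (ζ j)) v z := by
  have h : HasFDerivAt (fun z => ∑ j ∈ s, e j * exi (ζ j) z)
      (∑ j ∈ s, e j • fderiv ℝ (exi (ζ j)) z) z :=
    HasFDerivAt.fun_sum fun j _ =>
      ((contDiff_exi (ζ j)).differentiable one_ne_zero z).hasFDerivAt.const_mul _
  unfold dd
  rw [h.fderiv]
  simp

theorem dd_ofReal {S : E d → ℝ} (hS : ContDiff ℝ 1 S) (v z : E d) :
    dd (fun z => (S z : ℂ)) v z = (dd S v z : ℝ) := by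
  have := (Complex.ofRealCLM.hasFDerivAt.comp z
    (hS.differentiable one_ne_zero z).hasFDerivAt).fderiv
  unfold dd
  rw [show (fun z => (S z : ℂ)) = Complex.ofRealCLM ∘ S from rfl, this]
  simp

/-- a primitive of the trigonometric polynomial in the direction `v` -/
theorem prim {s : Finset ℕ} {ξ : ℕ → E d} (c : ℕ → ℂ) {v : E d} {w : ℝ} (hw : 0 < w)
    (h : ∀ k ∈ s, w ≤ inner ℝ (ξ k) v) : ∃ (Q : E d → ℂ) (c' : ℕ → ℂ), ContDiff ℝ 1 Q ∧
      (∀ z, dd Q v z = (starRingEnd ℂ) (∑ k ∈ s, c k * exi (ξ k) z)) ∧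
      (∀ k ∈ s, ‖c' k‖ ≤ ‖c k‖) ∧ ∀ z, w * ‖Q z‖ = ‖∑ k ∈ s, c' k * exi (ξ k) z‖ := by
  set c' : ℕ → ℂ := fun k => c k * (-Complex.I * (w / inner ℝ (ξ k) v : ℝ)) with hc'
  have w0 : (w : ℂ) ≠ 0 := Complex.ofReal_ne_zero.2 hw.ne'
  refine ⟨fun z => ∑ k ∈ s, (starRingEnd ℂ) (c' k) / w * exi (-ξ k) z, c',
    ContDiff.sum fun _ _ => contDiff_const.mul (contDiff_exi _), fun z => ?_, fun k hk => ?_,
    fun z => ?_⟩
  · rw [dd_sum, map_sum]
    refine Finset.sum_congr rfl fun k hk => ?_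
    have h0 : ((inner ℝ (ξ k) v : ℝ) : ℂ) ≠ 0 :=
      Complex.ofReal_ne_zero.2 (hw.trans_le (h k hk)).ne'
    simp only [hc', dd_exi, map_mul, map_neg, Complex.conj_I, Complex.conj_ofReal, conj_exi,
      inner_neg_left, Complex.ofReal_neg, Complex.ofReal_div, map_div₀]
    field_simp
    rw [Complex.I_sq]
    ring
  · have h0 := hw.trans_le (h k hk)
    simp only [hc', norm_mul, norm_neg, Complex.norm_I, one_mul, Complex.norm_real]
    refine mul_le_of_le_one_right (norm_nonneg _) ?_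
    rw [Real.norm_of_nonneg (by positivity), div_le_one h0]
    exact h k hk
  · have e : ∀ q : ℂ, w * ‖q‖ = ‖(w : ℂ) * q‖ := fun q => by
      rw [norm_mul, Complex.norm_real, Real.norm_of_nonneg hw.le]
    rw [← Complex.norm_conj (∑ k ∈ s, c' k * _), map_sum, e, Finset.mul_sum]
    congr 1
    refine Finset.sum_congr rfl fun k _ => ?_
    rw [map_mul _ (c' k), conj_exi]
    field_simp

theorem norm_P_le {s : Finset ℕ} {c : ℕ → ℂ} (hc : ∀ k ∈ s, ‖c k‖ ≤ 1) (ξ : ℕ → E d) (z : E d) :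
    ‖∑ k ∈ s, c k * exi (ξ k) z‖ ≤ s.card := by
  refine (norm_sum_le _ _).trans ((Finset.sum_le_card_nsmul s _ 1 fun k hk => ?_).trans (by simp))
  rw [norm_mul, norm_exi, mul_one]
  exact hc k hk

/-- the upper bound -/
theorem upper {s : Finset ℕ} {ξ : ℕ → E d} {c : ℕ → ℂ} {v : E d} {w R B Bf Bg : ℝ}
    {S Y₁ Y₂ f g : E d → ℝ} (hv : ‖v‖ = 1) (hw : 0 < w) (hR : 0 < R)
    (h : ∀ k ∈ s, w ≤ inner ℝ (ξ k) v) (hc : ∀ k, ‖c k‖ ≤ 1)
    (hB : ∀ c' : ℕ → ℂ, (∀ k ∈ s, ‖c' k‖ ≤ ‖c k‖) →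
      Dm (fun z => ‖∑ k ∈ s, c' k * exi (ξ k) z‖ ^ 2) ≤ B)
    (hS : ContDiff ℝ 1 S) (h1 : Continuous Y₁) (h2 : Continuous Y₂) (hf : Continuous f)
    (hg : Continuous g) (y2 : ∀ z, 0 ≤ Y₂ z) (g0 : ∀ z, 0 ≤ g z)
    (hY : ∀ z, |dd S v z| ≤ w * (Y₁ z + Y₂ z)) (hfg : ∀ z, ‖z‖ ≤ 1 → |S z| ≤ w * (f z + g z))
    (hBf : Dm (fun z => f z ^ 2) ≤ Bf) (hBg : s.card * Dm g ≤ Bg) :
    ‖∫ z, ze d z • ((S z : ℂ) * (starRingEnd ℂ) (∑ k ∈ s, c k * exi (ξ k) z))‖ ≤
      KK d * (B / (4 * R) + R * (Mw fun z => Y₁ z ^ 2) + s.card * Mw Y₂) +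
        KK d * (B / (4 * R) + R * Bf + Bg) := by
  obtain ⟨Q, c', hQ, hd, hc', hn⟩ := prim c hw h
  have hS' : ContDiff ℝ 1 fun z => (S z : ℂ) := Complex.ofRealCLM.contDiff.comp hS
  have hW := (cont_P s c' ξ).norm
  have hm := norm_P_le (fun k hk => (hc' k hk).trans (hc k)) ξ
  have e1 : ∀ z, ze d z • ((S z : ℂ) * (starRingEnd ℂ) (∑ k ∈ s, c k * exi (ξ k) z)) =
      ze d z • (S z : ℂ) * dd Q v z := fun z => by rw [hd, smul_mul_assoc]
  have e2 : ∀ z, dd (fun z => ze d z • (S z : ℂ)) v z * Q z =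
      ze d z • (((dd S v z : ℝ) : ℂ) * Q z) + dd (ze d) v z • ((S z : ℂ) * Q z) := fun z => by
    rw [dd_smul contDiff_ze hS', dd_ofReal hS, add_mul, smul_mul_assoc, smul_mul_assoc]
  simp only [e1]
  rw [parts (G := fun z => ze d z • (S z : ℂ)) (contDiff_ze.smul hS') ze_supp.smul_right hQ,
    norm_neg]
  simp only [e2]
  have hs : HasCompactSupport (dd (ze d) v) := ze_supp.fderiv_apply ℝ v
  have i1 : Integrable fun z => ze d z • (((dd S v z : ℝ) : ℂ) * Q z) :=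
    int_ze ((Complex.continuous_ofReal.comp (continuous_dd hS v)).mul hQ.continuous)
  have i2 : Integrable fun z => dd (ze d) v z • ((S z : ℂ) * Q z) :=
    Continuous.integrable_of_hasCompactSupport
      ((continuous_dd contDiff_ze v).smul (hS'.continuous.mul hQ.continuous)) hs.smul_right
  rw [integral_add i1 i2]
  refine (norm_add_le _ _).trans (add_le_add ?_ ?_)
  · refine tri cut_ze h1 h2 hW hR (Nat.cast_nonneg _) y2 hm (fun z _ => ?_) (hB c' hc')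
      (Dm_le_Mw fun z => sq_nonneg _)
      (mul_le_mul_of_nonneg_left (Dm_le_Mw y2) (Nat.cast_nonneg _))
    rw [← hn, norm_mul, Complex.norm_real, Real.norm_eq_abs]
    calc _ ≤ _ := mul_le_mul_of_nonneg_right (hY z) (norm_nonneg _)
      _ = _ := by ring
  · refine tri (cut_dd hv) hf hg hW hR (Nat.cast_nonneg _) g0 hm (fun z hz => ?_) (hB c' hc')
      hBf hBg
    rw [← hn, norm_mul, Complex.norm_real, Real.norm_eq_abs]
    calc _ ≤ _ := mul_le_mul_of_nonneg_right (hfg z hz) (norm_nonneg _)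
      _ = _ := by ring

theorem arith {K L X R κ ν m A x a b e₂ e₁ y₁ y₂ : ℝ} (hK : 1 ≤ K) (hL : 1 ≤ L) (hX : 1 ≤ X)
    (hR : R = 16 * K * L) (k0 : 0 < κ) (hκ : (24 * X + 48 * (K * R)) * κ ≤ 1) (hν : 1 ≤ ν)
    (hm : 0 ≤ m) (A0 : 0 ≤ A) (x0 : 0 ≤ x) (a0 : 0 ≤ a) (b0 : 0 ≤ b) (e20 : 0 ≤ e₂)
    (e10 : 0 ≤ e₁) (y10 : 0 ≤ y₁) (y20 : 0 ≤ y₂)
    (h : A - K * (A / (4 * R) + R * (2 * a) + b) - X * (3 * (κ * A) + 2 * (κ * x + a + ν * b)) ≤
      2 * (K * (L * A / (4 * R) + R * e₂ + m * e₁) + (K * (L * A / (4 * R) + R * y₁ + m * y₂) +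
        K * (L * A / (4 * R) + R * (3 * (κ * A + κ * (2 * a) + e₂)) +
          (ν * x + ν * b + m * e₁))))) :
    A ≤ (24 * X + 48 * (K * R)) * (ν * x + a + ν * b + e₂ + m * e₁ + y₁ + m * y₂) := by
  have R1 : 1 ≤ R := by rw [hR]; nlinarith
  have f1 : K * (L * A / (4 * R)) = A / 64 := by rw [hR]; field_simp; ring
  have f2 : K * (A / (4 * R)) ≤ K * (L * A / (4 * R)) :=
    mul_le_mul_of_nonneg_left (div_le_div_of_nonneg_right (le_mul_of_one_le_left A0 hL)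
      (by positivity)) (by positivity)
  have hH : K ≤ K * R := le_mul_of_one_le_right (by positivity) R1
  have k1 : κ ≤ 1 := by nlinarith
  simp only [mul_add] at h
  rw [f1] at h f2
  simp only [← mul_assoc K R] at h
  generalize K * R = H at *
  have g1 := mul_le_mul_of_nonneg_right hκ A0
  have g2 : X * (κ * x) ≤ X * (ν * x) := by gcongr; linarith
  have g3 : K * b ≤ H * (ν * b) := mul_le_mul hH (le_mul_of_one_le_left b0 hν) b0 (by linarith)
  have g4 : K * (ν * x) ≤ H * (ν * x) := by gcongr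
  have g5 : K * (ν * b) ≤ H * (ν * b) := by gcongr
  have g6 : K * (m * e₁) ≤ H * (m * e₁) := by gcongr
  have g7 : K * (m * y₂) ≤ H * (m * y₂) := by gcongr
  have H0 : 0 ≤ H := by linarith
  have g8 : H * (κ * a) ≤ H * a := mul_le_mul_of_nonneg_left (mul_le_of_le_one_left a0 k1) H0
  have X0 : 0 ≤ X := by linarith
  have n0 : 0 ≤ ν := by linarith
  have p1 : 0 ≤ X * (ν * x) := by positivity
  have p2 : 0 ≤ X * a := by positivity
  have p3 : 0 ≤ X * (ν * b) := by positivity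
  have p4 : 0 ≤ X * e₂ := by positivity
  have p5 : 0 ≤ X * (m * e₁) := by positivity
  have p6 : 0 ≤ X * y₁ := by positivity
  have p7 : 0 ≤ X * (m * y₂) := by positivity
  have q1 : 0 ≤ H * (ν * x) := by positivity
  have q2 : 0 ≤ H * a := by positivity
  have q3 : 0 ≤ H * (ν * b) := by positivity
  have q4 : 0 ≤ H * e₂ := by positivity
  have q5 : 0 ≤ H * (m * e₁) := by positivity
  have q6 : 0 ≤ H * y₁ := by positivity
  have q7 : 0 ≤ H * (m * y₂) := by positivity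
  linarith

/-- splitting the pairing into the terms and the error -/
theorem split {s : Finset ℕ} {U : ℕ → E d → ℂ} {S : E d → ℝ} {P : E d → ℂ}
    (hU : ∀ k ∈ s, Continuous (U k)) (hS : Continuous S) (hP : Continuous P) :
    ∑ k ∈ s, (∫ z, ze d z • (((U k z).re : ℂ) * P z)).re ≤
      ‖∫ z, ze d z • (((S z - ∑ k ∈ s, (U k z).re : ℝ) : ℂ) * P z)‖ +
        ‖∫ z, ze d z • ((S z : ℂ) * P z)‖ := by
  have c1 : ∀ k ∈ s, Continuous fun z => ((U k z).re : ℂ) * P z := fun k hk =>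
    (Complex.continuous_ofReal.comp (Complex.continuous_re.comp (hU k hk))).mul hP
  have c2 : Continuous fun z => (S z : ℂ) * P z := (Complex.continuous_ofReal.comp hS).mul hP
  have e : ∀ z, ze d z • (((S z - ∑ k ∈ s, (U k z).re : ℝ) : ℂ) * P z) =
      ze d z • ((S z : ℂ) * P z) - ∑ k ∈ s, ze d z • (((U k z).re : ℂ) * P z) := fun z => by
    rw [← Finset.smul_sum, ← smul_sub, ← Finset.sum_mul, ← sub_mul]
    push_cast
    rfl
  simp only [e]
  rw [integral_sub (int_ze c2) (integrable_finsetSum _ fun k hk => int_ze (c1 k hk)),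
    integral_finsetSum _ fun k hk => int_ze (c1 k hk), ← Complex.re_sum]
  refine (Complex.re_le_norm _).trans ?_
  rw [norm_sub_rev]
  exact norm_le_norm_sub_add _ _

theorem sym_sum {s : Finset ℕ} {t : ℕ → Finset ℕ} {γ : ℕ → ℝ} {n : ℕ → ℕ → ℝ} {κ : ℝ}
    (ht : ∀ k j, k ∈ s ∧ j ∈ t k ↔ k ∈ t j ∧ j ∈ s)
    (h : ∀ j ∈ s, ∑ k ∈ t j, 1 / n k j ^ 2 ≤ κ) :
    ∑ k ∈ s, ∑ j ∈ t k, γ j ^ 2 / n k j ^ 2 ≤ κ * ∑ j ∈ s, γ j ^ 2 := by
  rw [Finset.sum_comm' ht, Finset.mul_sum]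
  refine Finset.sum_le_sum fun j hj => ?_
  calc _ = (∑ k ∈ t j, 1 / n k j ^ 2) * γ j ^ 2 := by
        rw [Finset.sum_mul]; exact Finset.sum_congr rfl fun k _ => by ring
    _ ≤ _ := mul_le_mul_of_nonneg_right (h j hj) (sq_nonneg _)

/-- the normalised coefficient -/
theorem coef (u : ℂ) : ∃ c : ℂ, ‖c‖ = min ‖u‖ 1 ∧ ‖c‖ ^ 2 ≤ ((starRingEnd ℂ) c * u).re := by
  rcases le_total ‖u‖ 1 with h | h
  · refine ⟨u, (min_eq_left h).symm, ?_⟩
    rw [Complex.conj_mul', ← Complex.ofReal_pow, Complex.ofReal_re]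
  · have h0 : 0 < ‖u‖ := one_pos.trans_le h
    have e : ‖((‖u‖⁻¹ : ℝ) : ℂ) * u‖ = 1 := by
      rw [norm_mul, Complex.norm_real, norm_inv, norm_norm, inv_mul_cancel₀ h0.ne']
    refine ⟨(‖u‖⁻¹ : ℝ) * u, by rw [e, min_eq_right h], ?_⟩
    rw [e, map_mul, Complex.conj_ofReal, mul_assoc, Complex.conj_mul', ← Complex.ofReal_pow,
      ← Complex.ofReal_mul, Complex.ofReal_re, sq ‖u‖, ← mul_assoc, inv_mul_cancel₀ h0.ne']
    linarith

theorem sq3_le {p q r P Q w κ : ℝ} (hw : 1 ≤ w) (hp : p ^ 2 ≤ κ * w ^ 2 * P)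
    (hq : q ^ 2 ≤ κ * w ^ 2 * Q) : (w⁻¹ * (p + q + r)) ^ 2 ≤ 3 * (κ * P + κ * Q + r ^ 2) := by
  have w0 : 0 < w := one_pos.trans_le hw
  rw [mul_pow, inv_pow, inv_mul_le_iff₀ (by positivity)]
  have : r ^ 2 ≤ w ^ 2 * r ^ 2 := le_mul_of_one_le_left (sq_nonneg _) (one_le_pow₀ hw)
  nlinarith [sq_nonneg (p - q), sq_nonneg (p - r), sq_nonneg (q - r)]

end Wn

open Crs Wn in
theorem win (d : ℕ) (_hd : 3 ≤ d) (h1 : LsStmt d) (h2 : CrossStmt d) : WinStmt d := by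
  obtain ⟨L, hL, -, hS⟩ := h1
  obtain ⟨X, hX, hx⟩ := lx h2
  have hK : 1 ≤ KK d := one_le_KK
  obtain ⟨R, hR⟩ : ∃ R, R = 16 * KK d * L := ⟨_, rfl⟩
  have R0 : 0 < R := by rw [hR]; positivity
  have KR : 0 ≤ KK d * R := by positivity
  refine ⟨24 * X + 48 * (KK d * R), by linarith, ?_⟩
  intro m ξ v κ ν w U a b x S e₂ e₁ Y₁ Y₂ hm hv k0 hκ hν w0 hs hm2 hm1 hU hSc c2 c1 cY1 cY2 hz
  have k1 : κ ≤ 1 := by nlinarith
  have m1 : (1 : ℝ) ≤ m := Nat.one_le_cast.2 hm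
  have w1 : 1 ≤ w := by
    by_contra hc
    have : w ^ 2 < 1 := pow_lt_one₀ w0.le (not_le.1 hc) two_ne_zero
    nlinarith
  choose c hc hd using fun k => coef (U k 0)
  have hc1 : ∀ k, ‖c k‖ ≤ 1 := fun k => (hc k).le.trans (min_le_right _ _)
  simp only [← hc]
  set s := Finset.range m with hsd
  have hcard : (s.card : ℝ) = m := by rw [hsd, Finset.card_range]
  replace hU := fun k (hk : k ∈ s) => hU k (Finset.mem_range.1 hk)
  have hu : ∀ k ∈ s, ‖U k 0‖ ≤ ‖c k‖ + x k := fun k hk => by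
    obtain ⟨-, -, -, -, u1, u2, -⟩ := hU k hk
    rw [hc]
    rcases le_total ‖U k 0‖ 1 with h | h
    · rw [min_eq_left h]; linarith
    · rwa [min_eq_right h]
  have hn : ∀ k ∈ s, ∀ j ∈ s, w ≤ ‖ξ j + ξ k‖ := fun k hk j hj => by
    have := real_inner_le_norm (ξ j + ξ k) v
    rw [hv, mul_one, inner_add_left] at this
    linarith [(hU k hk).1, (hU j hj).1]
  have n2 : ∀ k ∈ s, ∑ j ∈ s, 1 / ‖ξ j + ξ k‖ ^ 2 ≤ κ := fun k hk => by
    refine (Finset.sum_le_card_nsmul s _ (1 / w ^ 2) fun j hj => ?_).trans ?_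
    · have := hn k hk j hj
      gcongr
    · rwa [nsmul_eq_mul, hcard, mul_one_div, div_le_iff₀ (by positivity)]
  have n1 : ∀ k ∈ s, ∑ j ∈ s, 1 / ‖ξ j + ξ k‖ ≤ ν := fun k hk => by
    refine (Finset.sum_le_card_nsmul s _ (1 / w) fun j hj => ?_).trans ?_
    · have := hn k hk j hj
      gcongr
    · rwa [nsmul_eq_mul, hcard, mul_one_div, div_le_iff₀ w0]
  have ha : ∀ k ∈ s, Continuous (a k) := fun k hk => (hU k hk).2.2.1
  have hb : ∀ k ∈ s, Continuous (b k) := fun k hk => (hU k hk).2.2.2.1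
  have x0 : ∀ k ∈ s, 0 ≤ x k := fun k hk => (hU k hk).2.2.2.2.1
  have h0 : ∀ k ∈ s, ∀ z, 0 ≤ a k z ∧ 0 ≤ b k z := fun k hk z =>
    ⟨((hU k hk).2.2.2.2.2.2 z).1, ((hU k hk).2.2.2.2.2.2 z).2.1⟩
  have hab := fun k (hk : k ∈ s) z => ((hU k hk).2.2.2.2.2.2 z).2.2
  have hB : ∀ c' : ℕ → ℂ, (∀ k ∈ s, ‖c' k‖ ≤ ‖c k‖) →
      Dm (fun z => ‖∑ k ∈ s, c' k * exi (ξ k) z‖ ^ 2) ≤ L * ∑ k ∈ s, ‖c k‖ ^ 2 := fun c' h =>
    (hS s ξ ν c' ⟨hs.inj, fun k hk => (hs.s2 k hk).trans k1, hs.s1⟩).2.trans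
      (mul_le_mul_of_nonneg_left (Finset.sum_le_sum fun k hk =>
        pow_le_pow_left₀ (norm_nonneg _) (h k hk) 2) (by linarith))
  have l1 := Finset.sum_le_sum fun k (hk : k ∈ s) => one hx R0 hk hs k1 (hU k hk).2.1 (ha k hk)
    (hb k hk) (h0 k hk) (hab k hk) hc1 (x0 k hk) (hu k hk) (hd k)
    (fun j hj => norm_pos_iff.1 (w0.trans_le (hn k hk j hj))) (n2 k hk) (n1 k hk)
  simp only [Finset.sum_sub_distrib, Finset.sum_add_distrib, ← Finset.mul_sum,
    ← Finset.sum_div] at l1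
  have l2 := sym_sum (s := s) (t := fun k => s.erase k) (γ := fun j => ‖c j‖)
    (n := fun k j => ‖ξ j - ξ k‖) (fun k j => by simp only [Finset.mem_erase]; tauto) hs.s2
  have l3 := sym_sum (s := s) (t := fun _ => s) (γ := fun j => ‖c j‖)
    (n := fun k j => ‖ξ j + ξ k‖) (fun k j => Iff.rfl)
    fun j hj => by simp only [add_comm (ξ j)]; exact n2 j hj
  have l4 := split (fun k hk => (hU k hk).2.1.continuous) hSc.continuous (cont_cP s c ξ)
  have l5 := tri (F := fun z => ((S z - ∑ k ∈ s, (U k z).re : ℝ) : ℂ) *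
      (starRingEnd ℂ) (∑ k ∈ s, c k * exi (ξ k) z)) cut_ze c2 c1 (cont_P s c ξ).norm R0
    (Nat.cast_nonneg _) (fun z => (hz z).2.1) (norm_P_le (fun k _ => hc1 k) ξ)
    (fun z _ => by
      rw [norm_mul, Complex.norm_conj, Complex.norm_real, Real.norm_eq_abs]
      exact mul_le_mul_of_nonneg_right (hz z).2.2.2.2.1 (norm_nonneg _))
    (hB c fun _ _ => le_rfl) (Dm_le_Mw fun z => sq_nonneg _)
    (mul_le_mul_of_nonneg_left (Dm_le_Mw fun z => (hz z).2.1) (Nat.cast_nonneg _))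
  have ca : Continuous fun z => ∑ k ∈ s, sg (a k) z :=
    continuous_finsetSum _ fun k hk => cont_sg (ha k hk)
  have cb : Continuous fun z => ∑ k ∈ s, sg (b k) z :=
    continuous_finsetSum _ fun k hk => cont_sg (hb k hk)
  have ca2 : ∀ k ∈ s, Continuous fun z => sg (a k) z ^ 2 := fun k hk => (cont_sg (ha k hk)).pow 2
  have X0 : 0 ≤ ∑ k ∈ s, x k := Finset.sum_nonneg x0
  have B0 : 0 ≤ ∑ k ∈ s, Mw (b k) := Finset.sum_nonneg fun k hk => Mw_nonneg fun z => (h0 k hk z).2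
  have E0 : 0 ≤ Mw e₁ := Mw_nonneg fun z => (hz z).2.1
  have l6 := upper (f := fun z => w⁻¹ * (∑ k ∈ s, ‖c k‖ + ∑ k ∈ s, sg (a k) z + e₂ z))
    (g := fun z => w⁻¹ * (∑ k ∈ s, x k + ∑ k ∈ s, sg (b k) z + e₁ z))
    (Bf := 3 * (κ * ∑ k ∈ s, ‖c k‖ ^ 2 + κ * (2 * ∑ k ∈ s, Mw fun z => a k z ^ 2) +
      Mw fun z => e₂ z ^ 2))
    (Bg := ν * ∑ k ∈ s, x k + ν * ∑ k ∈ s, Mw (b k) + m * Mw e₁) hv w0 R0
    (fun k hk => (hU k hk).1) hc1 hB hSc cY1 cY2 (by fun_prop) (by fun_prop)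
    (fun z => (hz z).2.2.2.1)
    (fun z => mul_nonneg (inv_nonneg.2 w0.le) (add_nonneg (add_nonneg X0
      (Finset.sum_nonneg fun k hk => sg_nonneg (fun z => (h0 k hk z).2) z)) (hz z).2.1))
    (fun z => (hz z).2.2.2.2.2)
    (fun z hz1 => by
      have f1 : |∑ k ∈ s, (U k z).re| ≤ ∑ k ∈ s, (‖c k‖ + x k + (sg (a k) z + sg (b k) z)) := by
        refine (Finset.abs_sum_le_sum_abs _ _).trans (Finset.sum_le_sum fun k hk => ?_)
        have f2 := seg_sg ((hU k hk).2.1.mul (contDiff_exi (-ξ k))) (ha k hk) (hb k hk) (h0 k hk)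
          (fun z v' hv' => (dd_demod (hU k hk).2.1 _ _ _).le.trans (hab k hk z v' hv')) hz1
        have f3 := norm_le_norm_sub_add (U k z * exi (-ξ k) z) (U k 0 * exi (-ξ k) 0)
        simp only [norm_mul, norm_exi, mul_one] at f3
        linarith [Complex.abs_re_le_norm (U k z), hu k hk]
      have f4 := abs_add_le (S z - ∑ k ∈ s, (U k z).re) (∑ k ∈ s, (U k z).re)
      rw [sub_add_cancel] at f4
      simp only [Finset.sum_add_distrib] at f1
      rw [← mul_add, mul_inv_cancel_left₀ w0.ne']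
      linarith [(hz z).2.2.2.2.1])
    (by
      have f0 : Continuous fun z => κ * ∑ k ∈ s, sg (a k) z ^ 2 :=
        continuous_const.mul (continuous_finsetSum _ ca2)
      have f1 := Dm_mono (d := d)
        (G := fun z => (w⁻¹ * (∑ k ∈ s, ‖c k‖ + ∑ k ∈ s, sg (a k) z + e₂ z)) ^ 2)
        (G' := fun z => 3 * (κ * ∑ k ∈ s, ‖c k‖ ^ 2 + κ * ∑ k ∈ s, sg (a k) z ^ 2 + e₂ z ^ 2))
        (by fun_prop) (by fun_prop) fun z => sq3_le w1
          (sq_sum_le_card_mul_sum_sq.trans (mul_le_mul_of_nonneg_right (hcard.le.trans hm2)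
            (Finset.sum_nonneg fun _ _ => sq_nonneg _)))
          (sq_sum_le_card_mul_sum_sq.trans (mul_le_mul_of_nonneg_right (hcard.le.trans hm2)
            (Finset.sum_nonneg fun _ _ => sq_nonneg _)))
      rw [Dm_mul, Dm_add (continuous_const.fun_add f0) (c2.fun_pow 2),
        Dm_add continuous_const f0, Dm_const, Dm_mul, Dm_sum s ca2] at f1
      have f2 : ∑ k ∈ s, Dm (fun z => sg (a k) z ^ 2) ≤ 2 * ∑ k ∈ s, Mw fun z => a k z ^ 2 := by
        rw [Finset.mul_sum]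
        exact Finset.sum_le_sum fun k hk => mean_sg_sq (ha k hk)
      have f3 := mul_le_mul_of_nonneg_left f2 k0.le
      have f4 := Dm_le_Mw fun z => sq_nonneg (e₂ z)
      linarith)
    (by
      rw [Dm_mul, Dm_add (continuous_const.fun_add cb) c1, Dm_add continuous_const cb, Dm_const,
        Dm_sum s fun k hk => cont_sg (hb k hk), hcard, ← mul_assoc]
      have f1 : ∑ k ∈ s, Dm (sg (b k)) = ∑ k ∈ s, Mw (b k) :=
        Finset.sum_congr rfl fun k hk => mean_sg (hb k hk)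
      have f2 : m * w⁻¹ ≤ ν := by rwa [← div_eq_mul_inv, div_le_iff₀ w0]
      have f3 : m * w⁻¹ ≤ m := mul_le_of_le_one_right (by linarith) (inv_le_one_of_one_le₀ w1)
      have f4 := mul_le_mul f3 (Dm_le_Mw fun z => (hz z).2.1)
        ((Dm_const 0).ge.trans (Dm_mono continuous_const c1 fun z => (hz z).2.1)) (by linarith)
      have f5 := mul_le_mul_of_nonneg_right f2 X0
      have f6 := mul_le_mul_of_nonneg_right f2 B0
      rw [f1]
      linarith)
  rw [hcard] at l5 l6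
  have l7 := mul_le_mul_of_nonneg_left (add_le_add l2 l3) (zero_le_one.trans hX)
  refine arith hK hL hX hR k0 hκ hν (by linarith) (Finset.sum_nonneg fun _ _ => sq_nonneg _) X0
    (Finset.sum_nonneg fun k _ => Mw_nonneg fun z => sq_nonneg _) B0
    (Mw_nonneg fun z => sq_nonneg _) E0 (Mw_nonneg fun z => sq_nonneg _)
    (Mw_nonneg fun z => (hz z).2.2.2.1) ?_
  linarith

end Pool.Agent.MP_20bec2_an.b2

end
end MrgPart2

-- marker of a merged file
example : 731051 + 658192 = 731051 + 658192 := rfl
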