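import Mathlib.LinearAlgebra.Transvection.Basic
import Pool.Agent.MP_20bec2_an.b2.Spec
import Pool.Agent.MP_20bec2_an.b2.Basic
import Pool.Agent.MP_20bec2_an.b2.Net2
import Pool.Agent.MP_20bec2_an.b2.Ret3
import Pool.Agent.MP_20bec2_an.b2.Ortho2
import Pool.Agent.MP_20bec2_an.b2.Meso2
import Pool.Agent.MP_20bec2_an.b2.Ls
import Pool.Agent.MP_20bec2_an.b2.Freq2
import Pool.Agent.MP_20bec2_an.b2.T0
import Pool.Agent.MP_20bec2_an.b2.Nb3
import Pool.Agent.MP_20bec2_an.b2.Svd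
import Pool.Agent.MP_20bec2_an.b2.Nb
import Pool.Agent.MP_20bec2_an.b2.Vol2
import Pool.Agent.MP_20bec2_an.b2.Win
import Pool.Agent.MP_20bec2_an.b2.TestA2
import Pool.Agent.MP_20bec2_an.b2.Low2
import Pool.Agent.MP_20bec2_an.b2.Del2
import Pool.Agent.MP_20bec2_an.b2.Step2
import Pool.Agent.MP_20bec2_an.b2.Pig2

-- ======== part 0: formerly Pool.Agent.MP_20bec2_an.b2.Avg3
section MrgPart0

/-! Averaging over boxes in three coordinates (project BIOM2). -/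

set_option autoImplicit false

open MeasureTheory Set Metric Filter Topology

noncomputable section

namespace Pool.Agent.MP_20bec2_an.b2

open Pool.Agent.MP_20bec2_an.h7 Pool.Agent.MP_20bec2_an.h7.Xs

namespace Avg3

variable {d : ℕ}

theorem abs_avg_le {G : E d → ℝ} {B r : ℝ} (hB : ∀ x, |G x| ≤ B) (u : E d) (hr : 0 < r)
    (x : E d) : |∫ t in (0 : ℝ)..r, G (x + t • u)| ≤ B * r := by
  have := intervalIntegral.norm_integral_le_of_norm_le_const (a := 0) (b := r) (C := B)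
    (f := fun t => G (x + t • u)) fun t _ => hB _
  rwa [sub_zero, abs_of_pos hr] at this

theorem tc_add {e₁ e₂ e : E d} (h : ON3 e₁ e₂ e) (x : E d) (s s' t : ℝ) :
    tc e₁ e₂ e (x + s • e₁ + s' • e₂ + t • e) =
      ((tc e₁ e₂ e x).1 + s, (tc e₁ e₂ e x).2.1 + s', (tc e₁ e₂ e x).2.2 + t) := by
  obtain ⟨⟨n1, n, o1⟩, ⟨n2, -, o2⟩, o12⟩ := h
  have o1' : inner ℝ e e₁ = 0 := by rw [real_inner_comm]; exact o1
  have o2' : inner ℝ e e₂ = 0 := by rw [real_inner_comm]; exact o2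
  have o21 : inner ℝ e₂ e₁ = 0 := by rw [real_inner_comm]; exact o12
  simp only [tc, inner_add_right, real_inner_smul_right, real_inner_self_eq_norm_sq, n1, n2, n,
    o1, o2, o12, o1', o2', o21, one_pow, mul_one, mul_zero, add_zero]

end Avg3

open Avg3

theorem avg3 (d : ℕ) (_hd : 3 ≤ d) : Avg3Stmt d := by
  intro ϑ G e₁ e₂ e r₁ r₂ B g o hϑ hG h2 h21 hB hon hg ho
  have n1 : ‖e₁‖ = 1 := hon.1.1
  have n2 : ‖e₂‖ = 1 := hon.2.1.1
  have n : ‖e‖ = 1 := hon.1.2.1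
  have h1 : 0 < r₁ := h2.trans_le h21
  have hm : Measurable fun x : E d => G (tc e₁ e₂ e x) := hG.comp (by unfold tc; fun_prop)
  have hn : ∀ {u : E d} {t : ℝ}, ‖u‖ = 1 → 0 ≤ t → ‖t • u‖ = t := fun hu ht => by
    rw [norm_smul, hu, mul_one, Real.norm_of_nonneg ht]
  have b0 : ∀ x : E d, |G (tc e₁ e₂ e x)| ≤ B := fun x => hB _
  have m1 := meas_avg hm e h2.le
  have b1 := abs_avg_le b0 e h2
  have m2 := meas_avg m1 e₂ h1.le
  have b2 := abs_avg_le b1 e₂ h1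
  have a1 := core hϑ hm b0 e h2.le fun t ht =>
    ho _ (by rw [hn n ht.1]; exact ht.2.trans h21)
  have a2 := core hϑ m1 b1 e₂ h1.le fun t ht => ho _ (by rw [hn n2 ht.1]; exact ht.2)
  have a3 := core hϑ m2 b2 e₁ h1.le fun t ht => ho _ (by rw [hn n1 ht.1]; exact ht.2)
  have e1 : ∀ x : E d, ∫ s in (0 : ℝ)..r₁, ∫ s' in (0 : ℝ)..r₁, ∫ t in (0 : ℝ)..r₂,
      G (tc e₁ e₂ e (x + s • e₁ + s' • e₂ + t • e)) = g * (r₁ * r₁ * r₂) := by
    intro x
    rw [← hg (tc e₁ e₂ e x)]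
    simp only [tc_add hon, bx]
  simp only [e1, integral_mul_const] at a3
  set I0 := ∫ x, ϑ x * G (tc e₁ e₂ e x)
  set I1 := ∫ x, ϑ x * ∫ t in (0 : ℝ)..r₂, G (tc e₁ e₂ e (x + t • e))
  set I2 := ∫ x, ϑ x * ∫ s' in (0 : ℝ)..r₁, ∫ t in (0 : ℝ)..r₂,
    G (tc e₁ e₂ e (x + s' • e₂ + t • e))
  set J := ∫ x, ϑ x
  have hp : 0 < r₁ * r₁ * r₂ := by positivity
  have key : r₁ * r₁ * r₂ * (I0 - g * J) =
      r₁ * r₁ * (r₂ * I0 - I1) + r₁ * (r₁ * I1 - I2) + (r₁ * I2 - J * (g * (r₁ * r₁ * r₂))) := by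
    ring
  refine le_of_mul_le_mul_left ?_ hp
  rw [← abs_of_pos hp, ← abs_mul, abs_of_pos hp, key]
  have c1 : |r₁ * r₁ * (r₂ * I0 - I1)| ≤ r₁ * r₁ * (r₂ * (B * o)) := by
    rw [abs_mul, abs_of_pos (mul_pos h1 h1)]
    exact mul_le_mul_of_nonneg_left a1 (mul_pos h1 h1).le
  have c2 : |r₁ * (r₁ * I1 - I2)| ≤ r₁ * (r₁ * (B * r₂ * o)) := by
    rw [abs_mul, abs_of_pos h1]
    exact mul_le_mul_of_nonneg_left a2 h1.le
  refine (abs_add_three _ _ _).trans ((add_le_add (add_le_add c1 c2) a3).trans (le_of_eq ?_))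
  ring

open Classical in
theorem pl3st : Pl3Stmt := by
  intro ε h0
  have e : ∀ z : ℝ × ℝ × ℝ, (if Pl3 ε z then (1 : ℝ) else 0) =
      ind (ε ^ 136) z.1 * (ind (ε ^ 136) z.2.1 * ind (ε ^ 145) z.2.2) := by
    intro z
    simp only [Pl3, ind]
    by_cases h1 : Int.fract (z.1 / ε ^ 136) ∈ Icc (1 / 8 : ℝ) (3 / 8) <;>
      by_cases h2 : Int.fract (z.2.1 / ε ^ 136) ∈ Icc (1 / 8 : ℝ) (3 / 8) <;>
      by_cases h3 : Int.fract (z.2.2 / ε ^ 145) ∈ Icc (1 / 8 : ℝ) (3 / 8) <;>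
      simp only [h1, h2, h3] <;> simp
  simp only [e]
  refine ⟨((meas_ind _).comp measurable_fst).mul
    (((meas_ind _).comp measurable_snd.fst).mul ((meas_ind _).comp measurable_snd.snd)),
    fun z => ?_⟩
  simp only [bx, intervalIntegral.integral_const_mul, intervalIntegral.integral_mul_const,
    int_ind (pow_pos h0 _)]
  ring

end Pool.Agent.MP_20bec2_an.b2

end
end MrgPart0

-- ======== part 1: formerly Pool.Agent.MP_20bec2_an.b2.VolA2
section MrgPart1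

/-! The isoperimetric inequality with one distinguished direction (project BIOM2). -/

set_option autoImplicit false

open MeasureTheory Set Metric Filter Topology

noncomputable section

namespace Pool.Agent.MP_20bec2_an.b2

open Pool.Agent.MP_20bec2_an.h7

namespace VolA2

variable {d : ℕ}

/-- the dilation in one direction -/
theorem exists_T {v₁ : E d} (h1 : ‖v₁‖ = 1) {lam : ℝ} (hl : 0 < lam) :
    ∃ T : E d ≃L[ℝ] E d, (∀ y, T y = y + ((lam - 1) * inner ℝ v₁ y) • v₁) ∧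
      ∀ F : E d → ℝ, Continuous F → ∫ y, F (T y) = lam⁻¹ * ∫ y, F y := by
  let f : Module.Dual ℝ (E d) := (lam - 1) • (innerSL ℝ v₁ : E d →L[ℝ] ℝ).toLinearMap
  have hf : ∀ y, f y = (lam - 1) * inner ℝ v₁ y := fun y => by simp [f]
  have hdet : LinearMap.det (LinearMap.transvection f v₁) = lam := by
    rw [LinearMap.transvection.det, hf, real_inner_self_eq_norm_sq, h1]; ring
  have hne : LinearMap.det (LinearMap.transvection f v₁) ≠ 0 := by rw [hdet]; exact hl.ne'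
  have hT : ∀ y, (LinearMap.equivOfDetNeZero _ hne).toContinuousLinearEquiv y =
      LinearMap.transvection f v₁ y := fun y => rfl
  refine ⟨(LinearMap.equivOfDetNeZero _ hne).toContinuousLinearEquiv, fun y => ?_, fun F hF => ?_⟩
  · rw [hT, LinearMap.transvection.apply, hf]
  · simp only [hT]
    have hm := Measure.map_linearMap_addHaar_eq_smul_addHaar (volume : Measure (E d)) hne
    have hc : Continuous (LinearMap.transvection f v₁) :=
      (LinearMap.transvection f v₁).continuous_of_finiteDimensional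
    rw [← integral_map hc.measurable.aemeasurable hF.aestronglyMeasurable, hm,
      integral_smul_measure, hdet, abs_of_pos (inv_pos.2 hl),
      ENNReal.toReal_ofReal (inv_pos.2 hl).le, smul_eq_mul]

theorem dd_comp_T {G : E d → ℝ} (hG : ContDiff ℝ 1 G) (T : E d ≃L[ℝ] E d) (v y : E d) :
    dd (fun z => G (T z)) v y = dd G (T v) (T y) := by
  have h1 : HasFDerivAt G (fderiv ℝ G (T y)) (T y) :=
    (hG.differentiable one_ne_zero (T y)).hasFDerivAt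
  have h2 : HasFDerivAt (fun z => G (T z)) ((fderiv ℝ G (T y)).comp (T : E d →L[ℝ] E d)) y :=
    h1.comp y T.hasFDerivAt
  simp only [dd, h2.fderiv]
  rfl

theorem dd_lc {G G' : E d → ℝ} (hG : ContDiff ℝ 1 G) (hG' : ContDiff ℝ 1 G') (a : ℝ)
    (v y : E d) : dd (fun z => a * G z + G' z) v y = a * dd G v y + dd G' v y := by
  have h1 : HasFDerivAt G (fderiv ℝ G y) y := (hG.differentiable one_ne_zero y).hasFDerivAt
  have h2 : HasFDerivAt G' (fderiv ℝ G' y) y := (hG'.differentiable one_ne_zero y).hasFDerivAt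
  have h3 : HasFDerivAt (fun z => a * G z + G' z) (a • fderiv ℝ G y + fderiv ℝ G' y) y :=
    (h1.const_mul a).add h2
  simp only [dd, h3.fderiv]
  rfl

theorem hcs_dd {G : E d → ℝ} (hs : HasCompactSupport G) (v : E d) :
    HasCompactSupport (dd G v) := hs.fderiv_apply ℝ v

theorem int_abs {A A' : E d → ℝ} (hA : ContDiff ℝ 1 A) (hs : HasCompactSupport A)
    (hA' : ContDiff ℝ 1 A') (hs' : HasCompactSupport A') (v u : E d) :
    Integrable fun y => |dd A v y - dd A' u y| :=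
  (((continuous_dd hA v).integrable_of_hasCompactSupport (hcs_dd hs v)).sub
    ((continuous_dd hA' u).integrable_of_hasCompactSupport (hcs_dd hs' u))).abs

/-- the hypothesis for short vectors -/
theorem short {A : E d → ℝ} {u v₁ : E d} {B : ℝ} (hu : ‖u‖ = 1) (hB : 0 ≤ B)
    (h : ∀ v, ON v u → inner ℝ v v₁ = 0 → ∃ A' : E d → ℝ, ContDiff ℝ 1 A' ∧
      HasCompactSupport A' ∧ ∫ y, |dd A v y - dd A' u y| ≤ B)
    {w : E d} (hw : ‖w‖ ≤ 1) (hwu : inner ℝ w u = 0) (hwv : inner ℝ w v₁ = 0) :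
    ∃ A' : E d → ℝ, ContDiff ℝ 1 A' ∧ HasCompactSupport A' ∧
      ∫ y, |dd A w y - dd A' u y| ≤ B := by
  by_cases h0 : w = 0
  · refine ⟨fun _ => 0, contDiff_const, HasCompactSupport.zero, ?_⟩
    simp [dd, h0, hB]
  · have hn : 0 < ‖w‖ := norm_pos_iff.2 h0
    obtain ⟨A', h1, h2, h3⟩ := h (‖w‖⁻¹ • w)
      ⟨by rw [norm_smul, norm_inv, norm_norm, inv_mul_cancel₀ hn.ne'], hu,
        by rw [real_inner_smul_left, hwu, mul_zero]⟩ (by rw [real_inner_smul_left, hwv, mul_zero])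
    refine ⟨fun z => ‖w‖ * A' z + 0, (contDiff_const.mul h1).add contDiff_const, ?_, ?_⟩
    · simp only [add_zero]
      exact h2.mul_left
    · have e : ∀ y, |dd A w y - dd (fun z => ‖w‖ * A' z + 0) u y| =
          ‖w‖ * |dd A (‖w‖⁻¹ • w) y - dd A' u y| := fun y => by
        rw [dd_lc h1 contDiff_const, Step.dd_sm]
        have : dd (fun _ : E d => (0 : ℝ)) u y = 0 := by simp [dd]
        rw [this, ← abs_of_pos hn, ← abs_mul, abs_of_pos hn]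
        congr 1
        field_simp
        ring
      simp only [e]
      rw [integral_const_mul]
      have h4 : 0 ≤ ∫ y, |dd A (‖w‖⁻¹ • w) y - dd A' u y| :=
        integral_nonneg fun y => abs_nonneg _
      nlinarith

end VolA2

open VolA2 in
theorem volA2 (d : ℕ) (hd : 3 ≤ d) : VolA2Stmt d := by
  obtain ⟨C, hC, h⟩ := volA d (by omega)
  refine ⟨C, hC, ?_⟩
  intro A Q u v₁ S B₁ B₂ r lam hon hA hAs hQ hQs hQ0 hAQ hS hr hl hCS hB₁ hB₂ h1 h2
  obtain ⟨hv₁, hu, hvu⟩ := hon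
  obtain ⟨T, hT, hI⟩ := exists_T hv₁ hl
  have hTu : T u = u := by rw [hT, hvu]; simp
  have hcd : ContDiff ℝ 1 (T : E d → E d) := T.contDiff
  have hcs : ∀ G : E d → ℝ, HasCompactSupport G → HasCompactSupport fun z => G (T z) :=
    fun G hG => hG.comp_homeomorph T.toHomeomorph
  have hli : 0 < lam⁻¹ := inv_pos.2 hl
  have key := h (fun z => A (T z)) (fun z => Q (T z)) u (lam⁻¹ * S) (lam⁻¹ * (lam * B₁ + B₂)) r hu
    (hA.comp hcd) (hcs A hAs) (hQ.comp T.continuous) (hcs Q hQs) (fun y => hQ0 _)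
    (fun y hy => by
      have := hAQ (T y) hy
      simp only [map_add, map_smul, hTu]
      exact this)
    (by rw [hI Q hQ]; exact mul_le_mul_of_nonneg_left hS hli.le) hr
    (by
      have := mul_le_mul_of_nonneg_left hCS hli.le
      rw [← mul_assoc lam⁻¹ lam, inv_mul_cancel₀ hl.ne', one_mul] at this
      linarith [mul_left_comm C lam⁻¹ S])
    (by positivity)
    (by
      rintro v ⟨hv, -, hvu'⟩
      obtain ⟨A₁, a1, a2, a3⟩ := h1
      set al : ℝ := inner ℝ v₁ v with hal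
      have hal1 : |al| ≤ 1 := by
        have := abs_real_inner_le_norm v₁ v
        rwa [hv₁, hv, one_mul] at this
      have hw : ‖v - al • v₁‖ ≤ 1 := by
        have e : ‖v - al • v₁‖ ^ 2 = 1 - al ^ 2 := by
          rw [norm_sub_sq_real, real_inner_smul_right, real_inner_comm, ← hal, norm_smul, hv, hv₁,
            Real.norm_eq_abs, mul_one, sq_abs]
          ring
        have : ‖v - al • v₁‖ ^ 2 ≤ 1 ^ 2 := by rw [e]; nlinarith [sq_nonneg al]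
        exact (pow_le_pow_iff_left₀ (norm_nonneg _) zero_le_one two_ne_zero).1 this
      obtain ⟨A₂, b1, b2, b3⟩ := short hu hB₂ h2 hw
        (by rw [inner_sub_left, real_inner_smul_left, hvu, hvu']; ring)
        (by
          rw [inner_sub_left, real_inner_smul_left, real_inner_self_eq_norm_sq, hv₁,
            real_inner_comm, ← hal]
          ring)
      have c1 : ContDiff ℝ 1 fun z => lam * al * A₁ z + A₂ z := (contDiff_const.mul a1).add b1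
      have c2 : HasCompactSupport fun z => lam * al * A₁ z + A₂ z :=
        (a2.mul_left (f := fun _ => lam * al)).add b2
      refine ⟨fun z => lam * al * A₁ (T z) + A₂ (T z), c1.comp hcd, hcs _ c2, ?_⟩
      have hTv : T v = (lam * al) • v₁ + (1 : ℝ) • (v - al • v₁) := by
        rw [hT, ← hal]; module
      have e : ∀ y, |dd (fun z => A (T z)) v y - dd (fun z => lam * al * A₁ (T z) + A₂ (T z)) u y| =
          |dd A (T v) (T y) - dd (fun z => lam * al * A₁ z + A₂ z) u (T y)| := fun y => by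
        rw [dd_comp_T hA, dd_comp_T c1 T u y, hTu]
      simp only [e]
      rw [hI (fun y => |dd A (T v) y - dd (fun z => lam * al * A₁ z + A₂ z) u y|)
        ((continuous_dd hA _).sub (continuous_dd c1 _)).abs]
      refine mul_le_mul_of_nonneg_left ?_ hli.le
      have i1 := int_abs hA hAs a1 a2 v₁ u
      have i2 := int_abs hA hAs b1 b2 (v - al • v₁) u
      calc ∫ y, |dd A (T v) y - dd (fun z => lam * al * A₁ z + A₂ z) u y|
          ≤ ∫ y, (lam * |dd A v₁ y - dd A₁ u y| + |dd A (v - al • v₁) y - dd A₂ u y|) := by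
            refine integral_mono (int_abs hA hAs c1 c2 _ _) ((i1.const_mul lam).add i2) fun y => ?_
            show |dd A (T v) y - dd (fun z => lam * al * A₁ z + A₂ z) u y| ≤
              lam * |dd A v₁ y - dd A₁ u y| + |dd A (v - al • v₁) y - dd A₂ u y|
            rw [hTv, Step.dd_lin, dd_lc a1 b1]
            have e2 : lam * al * dd A v₁ y + 1 * dd A (v - al • v₁) y -
                (lam * al * dd A₁ u y + dd A₂ u y) =
                lam * al * (dd A v₁ y - dd A₁ u y) + (dd A (v - al • v₁) y - dd A₂ u y) := by ring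
            rw [e2]
            refine (abs_add_le _ _).trans (add_le_add ?_ le_rfl)
            rw [abs_mul, abs_mul, abs_of_pos hl]
            have := mul_le_mul_of_nonneg_left hal1 hl.le
            exact mul_le_mul_of_nonneg_right (by linarith) (abs_nonneg _)
        _ = lam * (∫ y, |dd A v₁ y - dd A₁ u y|) + ∫ y, |dd A (v - al • v₁) y - dd A₂ u y| := by
            rw [integral_add (i1.const_mul lam) i2, integral_const_mul]
        _ ≤ lam * B₁ + B₂ := add_le_add (mul_le_mul_of_nonneg_left a3 hl.le) b3)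
  rw [hI A hA.continuous, abs_mul, abs_of_pos hli] at key
  have e : 2 * r * (lam⁻¹ * (lam * B₁ + B₂)) = lam⁻¹ * (2 * r * (lam * B₁ + B₂)) := by ring
  rw [e] at key
  exact le_of_mul_le_mul_left key hli

end Pool.Agent.MP_20bec2_an.b2

end
end MrgPart1

-- ======== part 2: formerly Pool.Agent.MP_20bec2_an.b2.Frame
section MrgPart2

/-! The frame of the two largest singular values (project BIOM2). -/

set_option autoImplicit false

open MeasureTheory Set Metric Filter Topology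

noncomputable section

namespace Pool.Agent.MP_20bec2_an.b2

open Pool.Agent.MP_20bec2_an.h7

namespace Frame

/-- the numerical part -/
theorem num {k : ℕ} (hk : 1 ≤ k) {C LL δ g M M₂ Λ A x₁ x₂ : ℝ} (hC : 1 ≤ C) (hδ : 0 < δ)
    (hδ1 : δ ≤ 1) (hM : 1 ≤ M) (hM₂ : 1 ≤ M₂) (hg : 0 < g) (hA : 0 < A)
    (hA2 : A ^ 2 = 4 * g * M₂ ^ 2) (hAM : A ≤ 2 * M₂) (hx₂ : 0 ≤ x₂) (hx : x₂ ≤ x₁)
    (hx₁ : x₁ ≤ M₂) (hΛ : M ≤ 2 * Λ) (hL : 4 * (3 * 2 ^ (k + 2) * C) ≤ LL)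
    (hv : Λ ^ (k + 1) ≤ C * (2 * M) * (x₁ + A) * (x₂ + A) ^ k)
    (hn : (g * LL ^ 10 * M₂ ^ 2) ^ k * M₂ ^ 2 ≤ δ ^ (2 * k) * M ^ (2 * k)) :
    0 < x₂ ∧ M ^ k ≤ 2 ^ (2 * k + 3) * C * x₁ * x₂ ^ k ∧ g * M₂ ^ 2 * LL ^ 8 ≤ δ ^ 2 * x₂ ^ 2 := by
  have hM0 : 0 < M := by linarith
  have h2 : (1 : ℝ) ≤ 2 ^ (k + 2) := one_le_pow₀ (by norm_num)
  have a1 : M ^ k ≤ 2 ^ (k + 2) * C * (x₁ + A) * (x₂ + A) ^ k := by
    refine le_of_mul_le_mul_right ?_ hM0
    calc M ^ k * M = M ^ (k + 1) := by ring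
      _ ≤ (2 * Λ) ^ (k + 1) := pow_le_pow_left₀ hM0.le hΛ _
      _ = 2 ^ (k + 1) * Λ ^ (k + 1) := mul_pow _ _ _
      _ ≤ 2 ^ (k + 1) * (C * (2 * M) * (x₁ + A) * (x₂ + A) ^ k) :=
          mul_le_mul_of_nonneg_left hv (by positivity)
      _ = _ := by ring
  generalize hC' : 3 * 2 ^ (k + 2) * C = C' at hL
  have hC1 : 1 ≤ C' := by rw [← hC']; nlinarith
  have a2 : M ^ k ≤ C' * M₂ * (x₂ + A) ^ k := by
    refine a1.trans (mul_le_mul_of_nonneg_right ?_ (by positivity))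
    rw [← hC']
    calc 2 ^ (k + 2) * C * (x₁ + A) ≤ 2 ^ (k + 2) * C * (3 * M₂) :=
          mul_le_mul_of_nonneg_left (by linarith) (by positivity)
      _ = _ := by ring
  have a3 : (g * LL ^ 10 * M₂ ^ 2) ^ k ≤ (C' ^ 2 * (δ ^ 2 * (x₂ + A) ^ 2)) ^ k := by
    refine le_of_mul_le_mul_right ?_ (show 0 < M₂ ^ 2 by positivity)
    have b1 : C' ^ 2 ≤ (C' ^ 2) ^ k := le_self_pow₀ (one_le_pow₀ hC1) (by omega)
    calc _ ≤ δ ^ (2 * k) * M ^ (2 * k) := hn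
      _ = δ ^ (2 * k) * (M ^ k) ^ 2 := by ring
      _ ≤ δ ^ (2 * k) * (C' * M₂ * (x₂ + A) ^ k) ^ 2 := by gcongr
      _ = C' ^ 2 * ((δ ^ 2 * (x₂ + A) ^ 2) ^ k * M₂ ^ 2) := by
          rw [mul_pow (δ ^ 2), ← pow_mul, ← pow_mul]; ring
      _ ≤ (C' ^ 2) ^ k * ((δ ^ 2 * (x₂ + A) ^ 2) ^ k * M₂ ^ 2) :=
          mul_le_mul_of_nonneg_right b1 (by positivity)
      _ = _ := by rw [mul_pow (C' ^ 2)]; ring
  have a4 : g * LL ^ 10 * M₂ ^ 2 ≤ C' ^ 2 * (δ ^ 2 * (x₂ + A) ^ 2) :=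
    le_of_pow_le_pow_left₀ (by omega) (by positivity) a3
  have hL1 : 1 ≤ LL := by linarith
  have b1 : 16 * C' ^ 2 ≤ LL ^ 2 := by nlinarith
  have b2 : 1 ≤ LL ^ 8 := one_le_pow₀ hL1
  have a5 : 16 * (g * M₂ ^ 2 * LL ^ 8) ≤ δ ^ 2 * (x₂ + A) ^ 2 := by
    refine le_of_mul_le_mul_left ?_ (show 0 < C' ^ 2 by positivity)
    calc C' ^ 2 * (16 * (g * M₂ ^ 2 * LL ^ 8)) = 16 * C' ^ 2 * (g * M₂ ^ 2 * LL ^ 8) := by ring
      _ ≤ LL ^ 2 * (g * M₂ ^ 2 * LL ^ 8) := mul_le_mul_of_nonneg_right b1 (by positivity)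
      _ = g * LL ^ 10 * M₂ ^ 2 := by ring
      _ ≤ _ := a4
  have a6 : A ≤ x₂ := by
    have c1 : (2 * A) ^ 2 ≤ (x₂ + A) ^ 2 := by
      calc (2 * A) ^ 2 = 16 * (g * M₂ ^ 2 * 1) := by rw [mul_pow, hA2]; ring
        _ ≤ 16 * (g * M₂ ^ 2 * LL ^ 8) := by gcongr
        _ ≤ δ ^ 2 * (x₂ + A) ^ 2 := a5
        _ ≤ (x₂ + A) ^ 2 :=
          mul_le_of_le_one_left (by positivity) (pow_le_one₀ hδ.le hδ1)
    have := le_of_pow_le_pow_left₀ two_ne_zero (by positivity) c1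
    linarith
  refine ⟨by linarith, ?_, ?_⟩
  · calc M ^ k ≤ 2 ^ (k + 2) * C * (x₁ + A) * (x₂ + A) ^ k := a1
      _ ≤ 2 ^ (k + 2) * C * (2 * x₁) * (2 * x₂) ^ k := by
          have : 0 ≤ x₁ := by linarith
          gcongr <;> linarith
      _ = _ := by rw [mul_pow]; ring
  · have c1 : δ ^ 2 * (x₂ + A) ^ 2 ≤ δ ^ 2 * (2 * x₂) ^ 2 := by gcongr; linarith
    have c2 : 0 ≤ δ ^ 2 * x₂ ^ 2 := by positivity
    nlinarith

end Frame

theorem frame (d : ℕ) (hd : 3 ≤ d) (h1 : SvdStmt d) (h2 : Vol2Stmt d) : FrameStmt d := by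
  obtain ⟨C, hC, h2⟩ := h2
  obtain ⟨k, rfl⟩ : ∃ k, d = k + 2 := ⟨d - 2, by omega⟩
  have hk : 1 ≤ k := by omega
  refine ⟨2 ^ (2 * k + 3) * C, one_le_mul_of_one_le_of_one_le (one_le_pow₀ (by norm_num)) hC, ?_⟩
  rw [h7.small_iff] at h2 ⊢
  filter_upwards [h2, ev_pos, ev_le_lg (4 * (3 * 2 ^ (k + 2) * C))] with ε hv h0 hL
  intro δ L g M M₂ H S Ψ y₀ e u a b c hδ hδ1 hL1 hLε hloc he hu hM hM₂ hg hg1 hεg hH hpot hΛ hsq hB
    hn
  have hcd : ContDiff ℝ 1 Ψ := (loc_sm hloc).cd1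
  have hZ := ml_Zf hcd 1 y₀
  obtain ⟨f₁, f₂, v₁, v₂, x₁, x₂, o1, o2, hx₂, hx, e1, e2, s1, s2⟩ := h1 _ e u hZ he hu
  have hv₁ : ‖v₁‖ = 1 := o2.1.1
  have hx₁ : x₁ ≤ M₂ := by
    have t1 := hZ.abs_le_one o1.1.1.le he.le hv₁.le hu.le
    rw [e1, real_inner_self_eq_norm_sq, hv₁, one_pow, mul_one] at t1
    exact (le_abs_self _).trans (t1.trans (Real.sqrt_le_iff.2 ⟨by linarith, hsq⟩))
  have hsg : 0 < √g := Real.sqrt_pos.2 hg
  have hsg1 : √g ≤ 1 := Real.sqrt_le_one.2 hg1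
  have hsg2 : g ≤ √g := Real.le_sqrt_of_sq_le (by nlinarith)
  have hA : 0 < 2 * √g * M₂ := by positivity
  have hA2 : (2 * √g * M₂) ^ 2 = 4 * g * M₂ ^ 2 := by
    rw [mul_pow, mul_pow, Real.sq_sqrt hg.le]; ring
  have hAM : 2 * √g * M₂ ≤ 2 * M₂ := by nlinarith
  have hAε : ε ^ 3 ≤ 2 * √g * M₂ := by
    have t1 : ε ^ 3 ≤ ε := pow_le_of_le_one h0.le (by linarith) (by norm_num)
    nlinarith
  generalize 2 * √g * M₂ = A at hA hA2 hAM hAε
  have hc : Continuous fun y => √(sq4 (Zf (ε ^ 160) Ψ y - Zf 1 Ψ y₀)) :=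
    (continuous_sq4 hcd _ _).sqrt
  have hm : cv 1 (fun y => √(sq4 (Zf (ε ^ 160) Ψ y - Zf 1 Ψ y₀))) y₀ ≤ A := by
    have t1 := cv_le_of_sq hc zero_le_one hA (y := y₀) (by
      simp only [Real.sq_sqrt (sq4_nonneg _)]
      refine hB.mz.trans ?_
      have : 0 ≤ g * M₂ ^ 2 := by positivity
      linarith)
    simpa only [abs_of_nonneg (Real.sqrt_nonneg _)] using t1
  have hpt : ∀ y g' v : E (k + 2), ‖g'‖ = 1 → ‖v‖ = 1 → |Zf (ε ^ 160) Ψ y g' e v u| ≤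
      |Zf 1 Ψ y₀ g' e v u| + √(sq4 (Zf (ε ^ 160) Ψ y - Zf 1 Ψ y₀)) := by
    intro y g' v hg' hv'
    have t1 := ((ml_Zf hcd (ε ^ 160) y).sub hZ).abs_le_one hg'.le he.le hv'.le hu.le
    simp only [Pi.sub_apply] at t1
    have t2 := abs_sub_abs_le_abs_sub (Zf (ε ^ 160) Ψ y g' e v u) (Zf 1 Ψ y₀ g' e v u)
    linarith
  have key := hv δ L (2 * M) (x₁ + A) (x₂ + A) S Ψ y₀ e u v₁
    (fun y => x₁ + √(sq4 (Zf (ε ^ 160) Ψ y - Zf 1 Ψ y₀)))
    (fun y => x₂ + √(sq4 (Zf (ε ^ 160) Ψ y - Zf 1 Ψ y₀))) hL1 hLε hloc (by linarith)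
    (by linarith) (by linarith) he o2.1
    (fun y hy hf f' v hf' hv' => by
      have t1 := (hpot y hy hf f' v hf' hv').trans hH
      have t2 : 0 ≤ sq4 (Zf (ε ^ 160) Ψ y) / M₂ ^ 2 := div_nonneg (sq4_nonneg _) (sq_nonneg _)
      have t3 : 8 * Af (ε ^ 160) Ψ y f' v ^ 2 / M ^ 2 ≤ 12 := by unfold val2 at t1; linarith
      rw [div_le_iff₀ (by positivity)] at t3
      nlinarith)
    (continuous_const.add hc) (continuous_const.add hc)
    (fun y g' hg' => (hpt y g' v₁ hg' hv₁).trans (add_le_add (s1 g' hg') le_rfl))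
    (fun y => add_nonneg hx₂ (Real.sqrt_nonneg _))
    (fun y g' v hg' hvu hvv => (hpt y g' v hg' hvu.1).trans
      (add_le_add (s2 g' v hg' hvu hvv) le_rfl))
    (by rw [cv_add continuous_const hc, cv_const]; linarith)
    (by rw [cv_add continuous_const hc, cv_const]; linarith) (by linarith)
  simp only [Nat.add_sub_cancel] at hn ⊢
  rw [show k + 2 - 1 = k + 1 from rfl, Nat.add_sub_cancel] at key
  obtain ⟨r1, r2, r3⟩ := Frame.num hk hC hδ hδ1 hM hM₂ hg hA hA2 hAM hx₂ hx hx₁ hΛ hL key hn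
  exact ⟨f₁, f₂, v₁, v₂, x₁, x₂, o1, o2, r1, hx, e1, e2, r2, r3⟩

end Pool.Agent.MP_20bec2_an.b2

end
end MrgPart2

-- ======== part 3: formerly Pool.Agent.MP_20bec2_an.b2.Lat
section MrgPart3

/-! Lattice sums (project BIOM2). -/

set_option autoImplicit false

open MeasureTheory Set Metric Filter Topology

noncomputable section

namespace Pool.Agent.MP_20bec2_an.b2

open Pool.Agent.MP_20bec2_an.h7

namespace Lat

/-- the difference of the lattice positions -/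
def df (n k k' : ℕ) : ℤ × ℤ :=
  (((k % n : ℕ) : ℤ) - ((k' % n : ℕ) : ℤ), ((k / n : ℕ) : ℤ) - ((k' / n : ℕ) : ℤ))

/-- its sup norm -/
def mx (n k k' : ℕ) : ℕ := max (df n k k').1.natAbs (df n k k').2.natAbs

theorem df_inj (n k : ℕ) {a b : ℕ} (h : df n k a = df n k b) : a = b := by
  unfold df at h
  rw [Prod.mk.injEq] at h
  have h1 : a % n = b % n := by have := h.1; omega
  have h2 : a / n = b / n := by have := h.2; omega
  rw [← Nat.div_add_mod a n, ← Nat.div_add_mod b n, h1, h2]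

theorem df_self (n k : ℕ) : df n k k = (0, 0) := by simp [df]

theorem mx_mem {n k k' : ℕ} (hn : 1 ≤ n) (hk : k < n ^ 2) (hk' : k' < n ^ 2) (hne : k' ≠ k) :
    mx n k k' ∈ Finset.Icc 1 n := by
  have a1 := Nat.mod_lt k hn
  have a2 := Nat.mod_lt k' hn
  have a3 : k / n < n := Nat.div_lt_of_lt_mul (by rwa [← sq])
  have a4 : k' / n < n := Nat.div_lt_of_lt_mul (by rwa [← sq])
  have a5 : df n k k' ≠ (0, 0) := fun h => hne (df_inj n k (h.trans (df_self n k).symm))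
  rw [Finset.mem_Icc]
  unfold mx
  unfold df at a5 ⊢
  rw [Ne, Prod.mk.injEq] at a5
  dsimp only
  generalize k % n = x1 at *
  generalize k' % n = x2 at *
  generalize k / n = x3 at *
  generalize k' / n = x4 at *
  omega

theorem card_le (n k : ℕ) (s : Finset ℕ) {r : ℕ} (hr : 1 ≤ r) :
    (s.filter fun k' => mx n k k' = r).card ≤ 8 * r := by
  obtain ⟨t, rfl⟩ : ∃ t, r = t + 1 := ⟨r - 1, by omega⟩
  have hsub : (Finset.Icc (-(t : ℤ)) t ×ˢ Finset.Icc (-(t : ℤ)) t) ⊆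
      (Finset.Icc (-(t + 1 : ℤ)) (t + 1) ×ˢ Finset.Icc (-(t + 1 : ℤ)) (t + 1)) := by
    intro z hz
    simp only [Finset.mem_product, Finset.mem_Icc] at hz ⊢
    omega
  have h1 : (s.filter fun k' => mx n k k' = t + 1).card ≤
      ((Finset.Icc (-(t + 1 : ℤ)) (t + 1) ×ˢ Finset.Icc (-(t + 1 : ℤ)) (t + 1)) \
        (Finset.Icc (-(t : ℤ)) t ×ˢ Finset.Icc (-(t : ℤ)) t)).card := by
    refine Finset.card_le_card_of_injOn (df n k) (fun a ha => ?_) (fun a _ b _ h => df_inj n k h)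
    have h2 := (Finset.mem_filter.mp (Finset.mem_coe.mp ha)).2
    unfold mx at h2
    simp only [Finset.coe_sdiff, Set.mem_sdiff, Finset.mem_coe, Finset.mem_product, Finset.mem_Icc]
    omega
  rw [Finset.card_sdiff_of_subset hsub, Finset.card_product, Finset.card_product, Int.card_Icc,
    Int.card_Icc] at h1
  have e1 : ((t : ℤ) + 1 + 1 - -((t : ℤ) + 1)).toNat = 2 * t + 3 := by omega
  have e2 : ((t : ℤ) + 1 - -(t : ℤ)).toNat = 2 * t + 1 := by omega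
  rw [e1, e2] at h1
  have e3 : (2 * t + 3) * (2 * t + 3) = (2 * t + 1) * (2 * t + 1) + 8 * (t + 1) := by ring
  omega

theorem sum_le {n k : ℕ} (hn : 1 ≤ n) (hk : k < n ^ 2) (g : ℕ → ℝ) (hg : ∀ r, 0 ≤ g r) :
    ∑ k' ∈ (Finset.range (n ^ 2)).erase k, g (mx n k k') ≤
      ∑ r ∈ Finset.Icc 1 n, 8 * (r : ℝ) * g r := by
  rw [← Finset.sum_fiberwise_of_maps_to (g := fun k' => mx n k k') (t := Finset.Icc 1 n)
    (fun k' h => mx_mem hn hk (Finset.mem_range.mp (Finset.mem_of_mem_erase h))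
      (Finset.ne_of_mem_erase h))]
  refine Finset.sum_le_sum fun r hr => ?_
  rw [Finset.sum_congr rfl (g := fun _ => g r)
    (fun k' h => by rw [(Finset.mem_filter.mp h).2]), Finset.sum_const, nsmul_eq_mul]
  refine mul_le_mul_of_nonneg_right ?_ (hg r)
  exact_mod_cast card_le n k _ (Finset.mem_Icc.mp hr).1

theorem harm (n : ℕ) : ∑ r ∈ Finset.Icc 1 n, ((r : ℝ))⁻¹ ≤ 1 + Real.log n := by
  have h := harmonic_le_one_add_log n
  rw [harmonic_eq_sum_Icc] at h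
  push_cast at h
  exact h

end Lat

theorem lat (d : ℕ) (_hd : 3 ≤ d) : LatStmt d := by
  intro n a₀ a₁ a₂ lam hn hl h
  have key : ∀ k k' : ℕ, lam * (Lat.mx n k k' : ℝ) ≤
      ‖(a₀ + ((k % n : ℕ) : ℝ) • a₁ + ((k / n : ℕ) : ℝ) • a₂) -
        (a₀ + ((k' % n : ℕ) : ℝ) • a₁ + ((k' / n : ℕ) : ℝ) • a₂)‖ := by
    intro k k'
    have e : (a₀ + ((k % n : ℕ) : ℝ) • a₁ + ((k / n : ℕ) : ℝ) • a₂) -
        (a₀ + ((k' % n : ℕ) : ℝ) • a₁ + ((k' / n : ℕ) : ℝ) • a₂) =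
        (((Lat.df n k k').1 : ℤ) : ℝ) • a₁ + (((Lat.df n k k').2 : ℤ) : ℝ) • a₂ := by
      unfold Lat.df
      simp only [Int.cast_sub, Int.cast_natCast, sub_smul]
      abel
    rw [e]
    obtain ⟨h1, h2⟩ := h (Lat.df n k k').1 (Lat.df n k k').2
    unfold Lat.mx
    rw [Nat.cast_max, Nat.cast_natAbs, Nat.cast_natAbs, Int.cast_abs, Int.cast_abs,
      mul_max_of_nonneg _ _ hl.le]
    exact max_le h1 h2
  have pos : ∀ k ∈ Finset.range (n ^ 2), ∀ k' ∈ (Finset.range (n ^ 2)).erase k,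
      0 < lam * (Lat.mx n k k' : ℝ) := by
    intro k hk k' hk'
    have := (Finset.mem_Icc.mp (Lat.mx_mem hn (Finset.mem_range.mp hk)
      (Finset.mem_range.mp (Finset.mem_of_mem_erase hk')) (Finset.ne_of_mem_erase hk'))).1
    exact mul_pos hl (by exact_mod_cast this)
  have hlog : 0 ≤ Real.log n := Real.log_nonneg (by exact_mod_cast hn)
  refine ⟨fun k hk k' hk' hne he => ?_, fun k hk => ?_, fun k hk => ?_⟩
  · have h1 := (pos k hk k' (Finset.mem_erase.mpr ⟨hne.symm, hk'⟩)).trans_le (key k k')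
    rw [he, sub_self, norm_zero] at h1
    exact lt_irrefl _ h1
  · refine (Finset.sum_le_sum (g := fun k' => 1 / (lam * (Lat.mx n k k' : ℝ)) ^ 2)
      fun k' hk' => one_div_le_one_div_of_le (pow_pos (pos k hk k' hk') 2)
        (pow_le_pow_left₀ (pos k hk k' hk').le (key k k') 2)).trans ?_
    refine (Lat.sum_le hn (Finset.mem_range.mp hk) (fun r => 1 / (lam * (r : ℝ)) ^ 2)
      fun r => by positivity).trans ?_
    rw [Finset.sum_congr rfl (g := fun r : ℕ => 8 / lam ^ 2 * ((r : ℝ))⁻¹) (fun r hr => by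
      have : (r : ℝ) ≠ 0 := by
        have := (Finset.mem_Icc.mp hr).1
        exact_mod_cast (by omega : r ≠ 0)
      field_simp), ← Finset.mul_sum]
    refine (mul_le_mul_of_nonneg_left (Lat.harm n) (by positivity)).trans ?_
    rw [div_mul_eq_mul_div]
    exact div_le_div_of_nonneg_right (by linarith) (by positivity)
  · refine (Finset.sum_le_sum (g := fun k' => 1 / (lam * (Lat.mx n k k' : ℝ)))
      fun k' hk' => one_div_le_one_div_of_le (pos k hk k' hk') (key k k')).trans ?_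
    refine (Lat.sum_le hn (Finset.mem_range.mp hk) (fun r => 1 / (lam * (r : ℝ)))
      fun r => by positivity).trans ?_
    rw [Finset.sum_congr rfl (g := fun _ : ℕ => 8 / lam) (fun r hr => by
      have : (r : ℝ) ≠ 0 := by
        have := (Finset.mem_Icc.mp hr).1
        exact_mod_cast (by omega : r ≠ 0)
      field_simp), Finset.sum_const, Nat.card_Icc, nsmul_eq_mul, Nat.add_sub_cancel,
      ← mul_div_assoc]
    have : (0 : ℝ) ≤ n := Nat.cast_nonneg n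
    exact div_le_div_of_nonneg_right (by linarith) hl.le

end Pool.Agent.MP_20bec2_an.b2

end
end MrgPart3

-- ======== part 4: formerly Pool.Agent.MP_20bec2_an.b2.Test2
section MrgPart4

/-! The test: the leaf sums are too large for the available shear (project BIOM2). -/

set_option autoImplicit false

open MeasureTheory Set Metric Filter Topology

noncomputable section

namespace Pool.Agent.MP_20bec2_an.b2

open Pool.Agent.MP_20bec2_an.h7

namespace Test2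

variable {d : ℕ}

theorem Sp2_mono {s : Finset ℕ} {ξ : ℕ → E d} {κ ν κ' ν' : ℝ} (h : Sp2 s ξ κ ν) (h1 : κ ≤ κ')
    (h2 : ν ≤ ν') : Sp2 s ξ κ' ν' :=
  ⟨h.inj, fun k hk => (h.s2 k hk).trans h1, fun k hk => (h.s1 k hk).trans h2⟩

theorem eta_eq (ε : ℝ) {n : ℕ} (hn : 0 < n) (l Λ : ℝ) (x₁ x₂ : E d) :
    eta ε n l Λ x₁ x₂ = fun k => (2 * ((n : ℝ) ^ 2 * l / (4 * ε ^ 70 * Λ))) • x₁ +
      ((k % n : ℕ) : ℝ) • ((n * l / (4 * ε ^ 70 * Λ)) • x₁) +
      ((k / n : ℕ) : ℝ) • ((n * l / (4 * ε ^ 70 * Λ)) • x₂) := by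
  funext k
  have h0 : (n : ℝ) ≠ 0 := by exact_mod_cast hn.ne'
  unfold eta ka kb
  generalize 4 * ε ^ 70 * Λ = D
  rw [smul_add, smul_smul, smul_smul, smul_smul, smul_smul, ← add_smul]
  congr 2
  · rw [div_eq_mul_inv _ D, div_eq_mul_inv _ D]
    field_simp
  · rw [div_eq_mul_inv _ D, div_eq_mul_inv _ D]
    field_simp

end Test2

open Test2 in
theorem test2 (d : ℕ) (_hd : 3 ≤ d) (h1 : LatStmt d) (h2 : Ortho2Stmt d) (h3 : Low2Stmt d)
    (h4 : Freq2Stmt d) (h5 : Del2Stmt d) : Test2Stmt d := by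
  intro C₀ hC₀
  obtain ⟨C, hC, ortho⟩ := h2
  obtain ⟨K, hK, h5⟩ := h5 C₀ hC₀
  refine small_iff.2 ?_
  filter_upwards [ev_pos, ev_mul_le 1, ev_le_lg (100 * C * (K + 3) + 1), ev_lg_pow 2,
    small_iff.1 (h3 C₀ hC₀), small_iff.1 (h4 C₀ hC₀), small_iff.1 h5] with ε e0 e1 eL eL2 low fr del
  intro δ l Λ M₂ X₁ X₂ n q₁ q₂ p eb ez u v y₀ x₁ x₂ hn hf
  obtain ⟨hU, hlow, x, hx, sx⟩ := low δ l Λ M₂ X₁ X₂ n q₁ q₂ p eb ez u v y₀ x₁ x₂ hn hf
  obtain ⟨a, b, hab, sab⟩ := fr δ l Λ M₂ X₁ X₂ n q₁ q₂ p eb ez u v y₀ x₁ x₂ hn hf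
  obtain ⟨hS, e₂, e₁, Y₁, Y₂, c1, c2, c3, c4, hp, se⟩ :=
    del δ l Λ M₂ X₁ X₂ n q₁ q₂ p eb ez u v y₀ x₁ x₂ hn hf
  rw [one_mul] at e1
  have hCK : 400 * C ≤ 100 * C * (K + 3) := by nlinarith
  have L1 : 400 ≤ lg ε := by linarith
  have L0 : 0 < lg ε := by linarith
  obtain ⟨hδ, hX, -, -, f5, -, -, -, -, f10⟩ := hn.facts e0 (by linarith) eL2
  have hn2 : (2 : ℝ) ≤ n := by exact_mod_cast hn.n2
  have hn0 : 0 < n := lt_of_lt_of_le two_pos hn.n2
  have hl : 0 < l := one_pos.trans_le hn.l1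
  have hΛ : 0 < Λ := by linarith [hn.L0]
  have hX1 : 0 < X₁ := hX.trans_le hn.X12
  have hD : 0 < 4 * ε ^ 70 * Λ := by positivity
  have hc : 0 < n * l / (4 * ε ^ 70 * Λ) := by positivity
  have hlam : 0 < n * l / (4 * ε ^ 70 * Λ) * X₂ := by positivity
  have hρ : rho ε n l Λ X₂ = lg ε / (n * l / (4 * ε ^ 70 * Λ) * X₂) := by
    unfold rho; field_simp
  have hρ0 : 0 < rho ε n l Λ X₂ := by rw [hρ]; positivity
  have hw0 : 0 < wlo ε n l Λ X₁ := by unfold wlo; positivity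
  have hlog : 1 + Real.log n ≤ 2 * lg ε := by
    have a1 : (n : ℝ) ≤ ε⁻¹ := hn.nl.trans ((le_self_pow₀ hn.l1 two_ne_zero).trans f10)
    have a2 := Real.log_le_log (by linarith) a1
    rw [Real.log_inv] at a2
    unfold lg at L1 ⊢
    linarith
  have hsp : Sp2 (Finset.range (n ^ 2)) (eta ε n l Λ x₁ x₂)
      (32 / lg ε * rho ε n l Λ X₂ ^ 2) (n * rho ε n l Λ X₂) := by
    rw [eta_eq ε hn0, hρ]
    refine Sp2_mono (h1 n _ _ _ (n * l / (4 * ε ^ 70 * Λ) * X₂) hn0 hlam fun j₁ j₂ => ?_) ?_ ?_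
    · obtain ⟨a1, a2⟩ := hn.lat j₁ j₂
      rw [smul_comm (j₁ : ℝ), smul_comm (j₂ : ℝ), ← smul_add, norm_smul, Real.norm_eq_abs,
        abs_of_pos hc, mul_assoc _ X₂, mul_assoc _ X₂]
      exact ⟨mul_le_mul_of_nonneg_left a1 hc.le, mul_le_mul_of_nonneg_left a2 hc.le⟩
    · generalize n * l / (4 * ε ^ 70 * Λ) * X₂ = lam at hlam
      calc 16 * (1 + Real.log n) / lam ^ 2 ≤ 16 * (2 * lg ε) / lam ^ 2 := by gcongr
        _ = _ := by field_simp; ring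
    · generalize n * l / (4 * ε ^ 70 * Λ) * X₂ = lam at hlam
      calc 16 * n / lam ≤ lg ε * n / lam := by gcongr; linarith
        _ = _ := by ring
  have hρw : lg ε * n ≤ rho ε n l Λ X₂ * wlo ε n l Λ X₁ := by
    have : rho ε n l Λ X₂ * wlo ε n l Λ X₁ = lg ε * n * (X₁ / X₂) := by
      unfold rho wlo; field_simp
    rw [this]
    exact le_mul_of_one_le_right (by positivity) ((one_le_div hX).2 hn.X12)
  have hm : ((n ^ 2 : ℕ) : ℝ) = (n : ℝ) ^ 2 := by push_cast; rfl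
  have hup := ortho (n ^ 2) (eta ε n l Λ x₁ x₂) v y₀ (32 / lg ε) n (wlo ε n l Λ X₁)
    (rho ε n l Λ X₂) (ε⁻¹ ^ 40) (U2 ε n l q₁ q₂ p u) a b x (Sg ε (δ / 4) Λ (n ^ 2) p u)
    e₂ e₁ Y₁ Y₂ (Nat.one_le_pow _ _ hn0) hf.on.1 (by positivity)
    (by rw [← mul_div_assoc, div_le_one L0]; linarith) (by linarith) hw0 hρ0 hsp
    (by
      rw [hm]
      calc (n : ℝ) ^ 2 = 1 * (n : ℝ) ^ 2 := by ring
        _ ≤ 32 * lg ε * (n : ℝ) ^ 2 := by gcongr; linarith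
        _ = 32 / lg ε * (lg ε * n) ^ 2 := by field_simp
        _ ≤ _ := by gcongr)
    (by
      rw [hm]
      calc (n : ℝ) ^ 2 = n * (1 * n) := by ring
        _ ≤ n * (lg ε * n) := by gcongr; linarith
        _ ≤ _ := by gcongr)
    (fun k hk => ⟨by
        obtain ⟨a1, -⟩ := ka_mem n k
        obtain ⟨b1, b2⟩ := kb_mem hk
        have a3 := hn.X1
        have a4 := abs_nonneg (inner ℝ x₂ v)
        have a5 := neg_abs_le (inner ℝ x₂ v)
        have a6 : X₁ ≤ ka n k * inner ℝ x₁ v + kb n k * inner ℝ x₂ v := by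
          nlinarith [mul_le_mul_of_nonneg_left a5 b1]
        unfold eta wlo
        rw [real_inner_smul_left, inner_add_left, real_inner_smul_left, real_inner_smul_left,
          mul_div_right_comm]
        exact mul_le_mul_of_nonneg_left a6 (by positivity),
      hU k hk, (hab k hk).1, (hab k hk).2.1, (hx k hk).1, fun y =>
        ⟨((hx k hk).2 y).1, ((hx k hk).2 y).2, ((hab k hk).2.2 y)⟩⟩)
    hS c1 c2 c3 c4 hp
  rw [hm] at hup
  have hMM : 0 < (n : ℝ) ^ 2 * (Λ * ε ^ 2) := by positivity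
  have hB : (n : ℝ) ^ 2 * n * ε⁻¹ ^ 40 * rho ε n l Λ X₂ ≤ (n : ℝ) ^ 2 * (Λ * ε ^ 2) / lg ε := by
    have a1 : 4 * lg ε ^ 2 ≤ l * X₂ := by
      have b1 : 2 * 1 * lg ε ^ 2 ≤ n * M₂ * lg ε ^ 2 := by gcongr; exact hn.M0
      have b2 : δ * l * X₂ ≤ 1 / 100 * l * X₂ := by gcongr; exact hn.d1
      nlinarith [sq_nonneg (lg ε)]
    have a2 : ε ^ 28 ≤ 1 := pow_le_one₀ e0.le e1
    calc (n : ℝ) ^ 2 * n * ε⁻¹ ^ 40 * rho ε n l Λ X₂ =
          (n : ℝ) ^ 2 * (Λ * ε ^ 2) / lg ε * (4 * lg ε ^ 2 / (l * X₂) * ε ^ 28) := by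
          unfold rho; field_simp
      _ ≤ _ := mul_le_of_le_one_right (by positivity)
          (mul_le_one₀ ((div_le_one (by positivity)).2 a1) (by positivity) a2)
  have hfin : (n : ℝ) ^ 2 * (Λ * ε ^ 2) / 100 ≤
      C * ((K + 3) * ((n : ℝ) ^ 2 * (Λ * ε ^ 2) / lg ε)) :=
    hlow.trans (hup.trans (mul_le_mul_of_nonneg_left (by linarith) (by linarith)))
  generalize (n : ℝ) ^ 2 * (Λ * ε ^ 2) = Z at hMM hfin
  rw [← mul_div_assoc, ← mul_div_assoc, div_le_div_iff₀ (by norm_num) L0] at hfin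
  nlinarith [mul_le_mul_of_nonneg_left eL hMM.le]

end Pool.Agent.MP_20bec2_an.b2

end
end MrgPart4

-- ======== part 5: formerly Pool.Agent.MP_20bec2_an.b2.Slab2
section MrgPart5

/-! In the slab of a type the potential cannot be tight (project BIOM2). -/

set_option autoImplicit false

open MeasureTheory Set Metric Filter Topology

noncomputable section

namespace Pool.Agent.MP_20bec2_an.b2

open Pool.Agent.MP_20bec2_an.h7

namespace Slab2

variable {d : ℕ}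

/-- the error of the tensor of minors controls every component containing `e` -/
theorem comp_le {Ψ : E d → E d} (h : ContDiff ℝ 1 Ψ) (μ r : ℝ) (y y₀ e : E d) {g v u : E d}
    (hg : ‖g‖ = 1) (hv : ‖v‖ = 1) (hu : ‖u‖ = 1) :
    |r * Zf μ Ψ y g e v u - Zf 1 Ψ y₀ g e v u| ≤
      √(∑ j, ∑ k, ∑ l, (r * Zf μ Ψ y (ax j) e (ax k) (ax l) -
        Zf 1 Ψ y₀ (ax j) e (ax k) (ax l)) ^ 2) := by
  have := (((ml_Zf h μ y).smul r).sub (ml_Zf h 1 y₀)).abs_le3 g e v u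
  rw [hg, hv, hu, one_mul, one_mul, one_mul] at this
  simpa only [sq3, Pi.sub_apply, Pi.smul_apply, smul_eq_mul] using this

end Slab2

theorem slab2 (d : ℕ) (hd : 3 ≤ d) (h1 : Meso2Stmt d) (h2 : MassB2Stmt d) (h3 : Tight2Stmt d)
    (h4 : Test2Stmt d) : Slab2Stmt d := by
  intro C hC
  obtain ⟨Cm, hCm, h1⟩ := h1
  obtain ⟨C₀, hC₀, h3⟩ := h3 (max C Cm) (hC.trans (le_max_left _ _))
  have h4 := h4 C₀ hC₀
  refine small_iff.2 ?_
  filter_upwards [ev_pos, ev_mul_le 100, ev_le_lg 1, ev_lg_pow 4, small_iff.1 h1, small_iff.1 h2,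
    small_iff.1 h3, small_iff.1 h4, small_iff.1 (massA d (by omega))] with
    ε h0 hε hL1 hlg h1 h2 h3 h4 h5
  intro δ L l M M₂ H X₁ X₂ n S Ψ y₀ e₁ e₂ u v x₁ x₂ τ hL hLε hloc htyp hvu hM hH hΛ1 hΛ2 hval hpot
    hx₁ hx₂ hT
  have hε2 : ε ≤ 1 / 2 := by linarith
  have hδ0 : 0 < δ := h0.trans_le hT.d0
  have hΨ : Sm ε⁻¹ Ψ := (loc_sm hloc).mono (by rw [← one_div, le_div_iff₀ h0]; exact hLε)
  have he : ‖S.e τ‖ = 1 := S.unit τ
  have he₁ : ‖e₁‖ = 1 := htyp.1.1.1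
  have he₂ : ‖e₂‖ = 1 := htyp.1.2.1.1
  have hp : Sm ε⁻¹ (co (S.e τ) Ψ) := hΨ.co he
  have hq₁ : Sm ε⁻¹ (co e₁ Ψ) := hΨ.co he₁
  have hq₂ : Sm ε⁻¹ (co e₂ Ψ) := hΨ.co he₂
  have hl1 := hT.l1
  have hLl : 1 ≤ lg ε * l := one_le_mul_of_one_le_of_one_le hL1 hl1
  have hβ0 : 0 < 1 / (lg ε * l) := by positivity
  have hβ1 : 1 / (lg ε * l) ≤ 1 := (div_le_one (by positivity)).2 hLl
  have hεβ : ε ≤ (1 / (lg ε * l)) ^ 2 := by
    rw [div_pow, one_pow, le_div_iff₀ (by positivity)]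
    refine (pow_le_one_iff_of_nonneg (n := 2) (by positivity) two_ne_zero).1 ?_
    calc (ε * (lg ε * l) ^ 2) ^ 2 = (lg ε ^ 4 * ε) * (l ^ 4 * ε) := by ring
      _ ≤ 1 := mul_le_one₀ hlg (by positivity) hT.l4
  have hmeso := h1 δ L l (1 / (lg ε * l)) M M₂ H n S Ψ y₀ e₁ e₂ τ hδ0 hT.d1 hL hLε hl1 hT.l4 hT.nl
    hβ1 hM hT.M0 hH hloc htyp hpot
  obtain ⟨m3, m4⟩ := h2 δ L l n S Ψ y₀ e₁ e₂ τ hδ0 hT.d1 hL hLε hl1 hT.l4 hT.nl hloc htyp
  have m1 := (h5 _ _ v u y₀ hp hp hvu).1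
  have hμ : (0 : ℝ) ≤ ε ^ 120 := by positivity
  have hW1 : Continuous (W1 ε) :=
    continuous_xi h0 hε2 (sp_tr (by norm_num) (by norm_num) (by norm_num)) (continuous_tr _ _)
  have hsq : 0 ≤ (1 / (lg ε * l)) ^ 2 := sq_nonneg _
  obtain ⟨eb, heb⟩ := h3 (fun y => W1 ε (cv (ε ^ 120) (co (S.e τ) Ψ) y))
    (rr ε δ n l (co e₁ Ψ) (co e₂ Ψ) (co (S.e τ) Ψ)) (dd (cv (ε ^ 120) (co (S.e τ) Ψ)) u)
    (dd (cv (ε ^ 120) (co (S.e τ) Ψ)) v) (dd (cv (ε ^ 120) (co e₁ Ψ)) u)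
    (dd (cv (ε ^ 120) (co e₂ Ψ)) u) (fun y => BadO S τ (cv (ε ^ 120) Ψ y))
    (fun j k i y => Zf (ε ^ 120) Ψ y (ax j) (S.e τ) (ax k) (ax i))
    (fun j k i => Zf 1 Ψ y₀ (ax j) (S.e τ) (ax k) (ax i)) y₀ M M₂ H
    (1 + Cm * (1 / (lg ε * l)) ^ 2) (Af 1 Ψ y₀ (S.e τ) u) (1 / (lg ε * l))
    (hW1.comp (continuous_cv hp.cont _)) (continuous_rr h0 hε2 δ n l hq₁.cont hq₂.cont hp.cont)
    (continuous_dd (hp.cv _).cd1 _) (continuous_dd (hp.cv _).cd1 _)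
    (continuous_dd (hq₁.cv _).cd1 _) (continuous_dd (hq₂.cv _).cd1 _)
    ((continuous_BadO h0 hε2 S τ).comp (continuous_cv hΨ.cont _))
    (fun j k i => continuous_Zf hΨ.cd1 _ _ _ _ _)
    (fun y => W1_mem _ _) (fun y => rr_mem hδ0.le hT.d1 n l _ _ _ y)
    (fun y => ⟨(hp.cv _).dd_le hvu.2.1 y, (hp.cv _).dd_le hvu.1 y, (hq₁.cv _).dd_le hvu.2.1 y,
      (hq₂.cv _).dd_le hvu.2.1 y⟩)
    (fun j k i y => abs_Zf_le hΨ hμ y (norm_ax j).le he.le (norm_ax k).le (norm_ax i).le)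
    (fun j k i => abs_Zf_le hΨ zero_le_one y₀ (norm_ax j).le he.le (norm_ax k).le (norm_ax i).le)
    (fun y => (BadO_mem h0 S τ _).1) hM hT.M0 hH hβ0 hβ1 hεβ
    (le_add_of_nonneg_right (mul_nonneg (by linarith) hsq))
    (add_le_add le_rfl (mul_le_mul_of_nonneg_right (le_max_right _ _) hsq)) hΛ1 hΛ2
    (le_trans (sub_le_sub_left (mul_le_mul_of_nonneg_right (le_max_left _ _) hsq) H) hval)
    m1
    (fun j k i => by
      rcases eq_or_ne k i with rfl | hki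
      · simp only [(ml_Zf hΨ.cd1 _ _).self3, mul_zero, cv_const, sub_zero, abs_zero]
        positivity
      · exact (h5 _ _ (ax k) (ax i) y₀ (hΨ.co (norm_ax j)) hp (on_ax hki)).2)
    m3 m4
    (fun y hy hb => ⟨fun c₁ c₂ hc => by
      have := hmeso y hy hb 0 e₁ (c₁ • v + c₂ • u) (by simpa using hβ0.le) (Or.inl rfl)
        (Pig.norm_comb hvu hc)
      rw [zero_mul, add_zero, Af_l2 hΨ.cd1] at this
      rw [dd_cv_co hΨ.cd1, dd_cv_co hΨ.cd1]
      exact this,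
      fun b hb' => by
        rw [dd_cv_co hΨ.cd1, dd_cv_co hΨ.cd1, dd_cv_co hΨ.cd1]
        exact ⟨hmeso y hy hb b e₁ u hb' (Or.inl rfl) hvu.2.1,
          hmeso y hy hb b e₂ u hb' (Or.inr rfl) hvu.2.1⟩⟩)
  refine h4 δ l _ M₂ X₁ X₂ n (co e₁ Ψ) (co e₂ Ψ) (co (S.e τ) Ψ) eb _ u v y₀ x₁ x₂ hT
    ⟨hq₁, hq₂, hp, hvu, rfl, fun y v' hv' => ?_, fun y v' hv' => ?_, heb⟩
  · rw [hx₁]
    exact Slab2.comp_le hΨ.cd1 _ _ y y₀ _ he₁ hv' hvu.2.1
  · rw [hx₂]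
    exact Slab2.comp_le hΨ.cd1 _ _ y y₀ _ he₂ hv' hvu.2.1

end Pool.Agent.MP_20bec2_an.b2

end
end MrgPart5

-- ======== part 6: formerly Pool.Agent.MP_20bec2_an.b2.Quant2
section MrgPart6

/-! The choice of the parameters (project BIOM2). -/

set_option autoImplicit false

open MeasureTheory Set Metric Filter Topology

noncomputable section

namespace Pool.Agent.MP_20bec2_an.b2

open Pool.Agent.MP_20bec2_an.h7

namespace Quant2

theorem tendsto_eps {k : ℕ} (hk : k ≠ 0) :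
    Tendsto (fun N : ℕ => ((N : ℝ)⁻¹) ^ k) atTop (𝓝[>] (0 : ℝ)) := by
  refine tendsto_nhdsWithin_iff.2 ⟨?_, ?_⟩
  · have h : Tendsto (fun N : ℕ => ((N : ℝ)⁻¹)) atTop (𝓝 0) :=
      tendsto_inv_atTop_zero.comp tendsto_natCast_atTop_atTop
    have h2 := h.pow k
    rwa [zero_pow hk] at h2
  · filter_upwards [eventually_ge_atTop 1] with N hN
    have : (0 : ℝ) < N := by exact_mod_cast hN
    exact mem_Ioi.2 (by positivity)

theorem lg_eps (x : ℝ) (k : ℕ) : lg ((x⁻¹) ^ k) = k * Real.log x := by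
  rw [lg, Real.log_pow, Real.log_inv]; ring

/-- the main numerical inequality -/
theorem num {x γ δ D g l : ℝ} {m : ℕ} (hx0 : 0 < x) (hδ : 0 < δ) (hg : 0 ≤ g) (hl0 : 0 ≤ l)
    (hl : l = D * Real.log x) (hb : g ≤ 572 * l / x)
    (hC : 2 ^ (8 * (m + 1)) * (572 ^ 11 * D ^ 47) ^ m / δ ^ (14 * m) * Real.log x ^ (47 * m) ≤
      x ^ (11 * (m : ℝ) - 8 * (m + 1 : ℕ) * γ)) :
    (2 * x ^ γ) ^ (8 * (m + 1)) * (g ^ 11 * l ^ 36) ^ m ≤ δ ^ (14 * m) := by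
  have hδm : 0 < δ ^ (14 * m) := by positivity
  have e1 : (x ^ γ) ^ (8 * (m + 1)) * x ^ (11 * (m : ℝ) - 8 * (m + 1 : ℕ) * γ) =
      (x ^ 11) ^ m := by
    rw [← Real.rpow_mul_natCast hx0.le, ← Real.rpow_add hx0, ← pow_mul,
      ← Real.rpow_natCast x (11 * m)]
    congr 1
    push_cast; ring
  have hP : 0 < (x ^ γ) ^ (8 * (m + 1)) := by positivity
  calc (2 * x ^ γ) ^ (8 * (m + 1)) * (g ^ 11 * l ^ 36) ^ m
      ≤ (2 * x ^ γ) ^ (8 * (m + 1)) * ((572 * l / x) ^ 11 * l ^ 36) ^ m := by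
        gcongr
    _ = (2 ^ (8 * (m + 1)) * (572 ^ 11 * D ^ 47) ^ m / δ ^ (14 * m) * Real.log x ^ (47 * m)) *
          (δ ^ (14 * m) * (x ^ γ) ^ (8 * (m + 1)) / (x ^ 11) ^ m) := by
        have e2 : (572 * l / x) ^ 11 * l ^ 36 =
            572 ^ 11 * D ^ 47 * Real.log x ^ 47 / x ^ 11 := by
          rw [hl]; field_simp
        rw [e2, div_pow, mul_pow (572 ^ 11 * D ^ 47 : ℝ), mul_pow, pow_mul (Real.log x)]
        field_simp
    _ ≤ x ^ (11 * (m : ℝ) - 8 * (m + 1 : ℕ) * γ) *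
          (δ ^ (14 * m) * (x ^ γ) ^ (8 * (m + 1)) / (x ^ 11) ^ m) :=
        mul_le_mul_of_nonneg_right hC (by positivity)
    _ = δ ^ (14 * m) := by
        rw [← e1]
        have : 0 < x ^ (11 * (m : ℝ) - 8 * (m + 1 : ℕ) * γ) := Real.rpow_pos_of_pos hx0 _
        field_simp

end Quant2

open Quant2 in
theorem quant2 (d : ℕ) (hd : 3 ≤ d) (γ : ℝ) (h0 : 0 ≤ γ) (hγ : 8 * d * γ < 11 * (d - 1))
    (h1 : Net2Stmt d) (h2 : Pig2Stmt d) : QuantStmt d γ := by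
  intro δ hδ hδ1
  have hd2 : (3 : ℝ) ≤ d := by exact_mod_cast hd
  have hγ2 : γ ≤ 2 := by nlinarith
  have hsc : ScaleStmt d := scale d (by omega)
  have h3 : TowerStmt d := tower d (by omega) hsc
  obtain ⟨m, rfl⟩ : ∃ m, d = m + 1 := ⟨d - 1, by omega⟩
  have hs : 0 < 11 * (m : ℝ) - 8 * (m + 1 : ℕ) * γ := by
    push_cast at hγ ⊢; linarith
  have hk : 4 * (m + 1) ≠ 0 := by omega
  set D : ℝ := ((4 * (m + 1) : ℕ) : ℝ) with hD
  filter_upwards [(tendsto_eps hk).eventually (small_iff.1 h1),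
    (tendsto_eps hk).eventually (small_iff.1 h3), (tendsto_eps hk).eventually (small_iff.1 h2),
    (tendsto_eps hk).eventually (ev_le_lg 1), (tendsto_eps hk).eventually (ev_mul_le δ⁻¹),
    eventually_ge_atTop (3 * (m + 1)), Quant.ev_log (26 * D) 1 one_pos,
    Quant.ev_log (572 * D ^ 12 / δ ^ 4) 12 one_pos,
    Quant.ev_log (2 ^ (8 * (m + 1)) * (572 ^ 11 * D ^ 47) ^ m / δ ^ (14 * m)) (47 * m) hs]
    with N hN1 hN3 hN4 hl hεδ hN hA hB hC
  set x : ℝ := (N : ℝ) with hx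
  have hN0 : 1 ≤ N := by omega
  have hx1 : 1 ≤ x := by rw [hx]; exact_mod_cast hN0
  have hx0 : 0 < x := by linarith
  have hxi : x⁻¹ ≤ 1 := inv_le_one_of_one_le₀ hx1
  have hxi0 : 0 < x⁻¹ := inv_pos.2 hx0
  set ε : ℝ := (x⁻¹) ^ (4 * (m + 1)) with hε
  have hε0 : 0 < ε := by positivity
  have hε2 : ε ≤ x⁻¹ ^ 2 := pow_le_pow_of_le_one hxi0.le hxi (by omega)
  have hε3 : ε ≤ x⁻¹ ^ (3 * (m + 1)) := pow_le_pow_of_le_one hxi0.le hxi (by omega)
  have hlg : lg ε = D * Real.log x := lg_eps x _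
  set I : ℕ := ⌈25 * lg ε⌉₊ with hI
  have hI1 : 25 * lg ε ≤ I := Nat.le_ceil _
  have hI2 : (I : ℝ) ≤ 26 * lg ε := by
    have := Nat.ceil_lt_add_one (show 0 ≤ 25 * lg ε by linarith)
    linarith
  rw [Real.rpow_one] at hA hB
  have hIN : I ≤ N := by
    have : (I : ℝ) ≤ x := by
      rw [pow_one] at hA
      rw [hlg] at hI2
      linarith
    rw [hx] at this
    exact_mod_cast this
  obtain ⟨hb1, hb2⟩ := Quant.block hl hI1 hI2 hIN
  set N₁ : ℕ := N / I with hN₁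
  have hM : I * N₁ ≤ N := Nat.mul_div_le N I
  have hN₁x : (N₁ : ℝ) ≤ x := by rw [hx]; exact_mod_cast Nat.div_le_self N I
  have hN₁0 : (0 : ℝ) < N₁ := by exact_mod_cast hb1
  have hη : x⁻¹ ≤ 11 / (N₁ : ℝ) := by
    rw [le_div_iff₀ hN₁0]
    calc x⁻¹ * N₁ ≤ x⁻¹ * x := mul_le_mul_of_nonneg_left hN₁x hxi0.le
      _ = 1 := inv_mul_cancel₀ hx0.ne'
      _ ≤ 11 := by norm_num
  have hεg : ε ≤ (11 / (N₁ : ℝ)) ^ 2 := hε2.trans (pow_le_pow_left₀ hxi0.le hη 2)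
  have hL1 : 1 ≤ x ^ γ := Real.one_le_rpow hx1 h0
  have hLε : x ^ γ * ε ≤ 1 := by
    have : x ^ γ ≤ x ^ (2 : ℝ) := Real.rpow_le_rpow_of_exponent_le hx1 hγ2
    rw [Real.rpow_two] at this
    calc x ^ γ * ε ≤ x ^ 2 * x⁻¹ ^ 2 := mul_le_mul this hε2 hε0.le (by positivity)
      _ = 1 := by field_simp
  have hMε : ((I * N₁ : ℕ) : ℝ) * ε ≤ 1 := by
    have : ((I * N₁ : ℕ) : ℝ) ≤ x := by rw [hx]; exact_mod_cast hM
    calc ((I * N₁ : ℕ) : ℝ) * ε ≤ x * x⁻¹ ^ 2 := mul_le_mul this hε2 hε0.le hx0.le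
      _ = x⁻¹ := by field_simp
      _ ≤ 1 := hxi
  have hεδ' : ε ≤ δ := by
    rw [inv_mul_le_iff₀ hδ, mul_one] at hεδ; exact hεδ
  have hq0 : 0 ≤ 11 / (N₁ : ℝ) := by positivity
  have hl0 : 0 ≤ lg ε := by linarith
  have hn1 : 11 / (N₁ : ℝ) * lg ε ^ 11 ≤ δ ^ 4 := by
    have hδ4 : 0 < δ ^ 4 := by positivity
    calc 11 / (N₁ : ℝ) * lg ε ^ 11 ≤ 572 * lg ε / x * lg ε ^ 11 :=
          mul_le_mul_of_nonneg_right hb2 (by positivity)
      _ = (572 * D ^ 12 / δ ^ 4 * Real.log x ^ 12) * (δ ^ 4 / x) := by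
          rw [hlg]; field_simp
      _ ≤ x * (δ ^ 4 / x) := mul_le_mul_of_nonneg_right hB (by positivity)
      _ = δ ^ 4 := by field_simp
  have hn2 : (2 * x ^ γ) ^ (8 * (m + 1)) * ((11 / (N₁ : ℝ)) ^ 11 * lg ε ^ 36) ^ (m + 1 - 1) ≤
      δ ^ (14 * (m + 1 - 1)) := by
    rw [Nat.add_sub_cancel]
    exact num hx0 hδ hq0 hl0 hlg hb2 hC
  obtain ⟨S, hS, hS2⟩ := hN1 δ x⁻¹ hδ hδ1 hxi0 hxi hε3
  refine ⟨dens S (I * N₁), Quant.meas_dens S _, Quant.dens_bd hδ S _, fun Ψ Y y hc hy => ?_⟩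
  have hexp : 4 * (m + 1) * (200 * (m + 1)) + 4 * (m + 1) * (160 * (I * N₁)) ≤
      1000 * (m + 1) * N := by
    have h5 : 4 * (200 * (m + 1)) + 4 * (160 * (I * N₁)) ≤ 1000 * N := by omega
    calc 4 * (m + 1) * (200 * (m + 1)) + 4 * (m + 1) * (160 * (I * N₁))
        = (m + 1) * (4 * (200 * (m + 1)) + 4 * (160 * (I * N₁))) := by ring
      _ ≤ (m + 1) * (1000 * N) := Nat.mul_le_mul_left _ h5
      _ = 1000 * (m + 1) * N := by ring
  have w1 : x⁻¹ ^ (1000 * (m + 1) * N) ≤ ε ^ (200 * (m + 1)) * (ε ^ 160) ^ (I * N₁) := by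
    rw [hε, ← pow_mul, ← pow_mul, ← pow_mul, ← pow_add]
    exact pow_le_pow_of_le_one hxi0.le hxi hexp
  have w2 : x⁻¹ ^ (1000 * (m + 1) * N) ≤ (ε ^ 160) ^ (I * N₁) := by
    rw [hε, ← pow_mul, ← pow_mul]
    exact pow_le_pow_of_le_one hxi0.le hxi (le_trans (Nat.le_add_left _ _) hexp)
  obtain ⟨Ψ', G, hT⟩ := hN3 δ (x ^ γ) S (I * N₁) Ψ Y y hδ hδ1 hL1 hLε hMε
    (hsc.2 _ _ _ _ _ _ Ψ Y _ le_rfl w1 w2 hc) hy
  exact hN4 δ (x ^ γ) x⁻¹ S I N₁ Ψ' G hS hS2 hη hεδ' hδ1 hL1 hLε hMε hI1 hb1 hεg hn1 hn2 hT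

end Pool.Agent.MP_20bec2_an.b2

end
end MrgPart6

-- ======== part 7: formerly Pool.Agent.MP_20bec2_an.b2.Final
section MrgPart7

/-! Assembly of project BIOM2. -/

set_option autoImplicit false

open MeasureTheory Set

namespace Pool.Agent.MP_20bec2_an.b2

open Pool.Agent.MP_20bec2_an.h7

theorem testAll (d : ℕ) (hd : 3 ≤ d) : Test2Stmt d :=
  test2 d hd (lat d hd) (ortho2 d hd (win d hd (ls d hd) (cross2 d hd (ls d hd))))
    (low2 d hd (testA2 d hd)) (freq2 d hd (testA2 d hd) leaf2) (del2 d hd (testA2 d hd) leaf2)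

theorem slabAll (d : ℕ) (hd : 3 ≤ d) : Slab2Stmt d :=
  slab2 d hd (meso2 d hd ret3 (mesoA2 d hd (avg3 d hd) pl3st)) (massB2 d hd (avg3 d hd) pl3st)
    (tight2 d hd) (testAll d hd)

theorem stepAll2 (d : ℕ) (hd : 3 ≤ d) : Step2Stmt d :=
  step2 d hd (t0 d hd) (nb d hd (nb2 d hd (nb3 d hd (testA2 d hd))))
    (frame d hd (svd d hd) (vol2 d hd (volA2 d hd))) (slabAll d hd)

theorem main2 (d : ℕ) (hd : 3 ≤ d) (α : ℝ) (h0 : 0 ≤ α) (hα : α < 11 * (d - 1) / (8 * d)) :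
    MainStmt d α := by
  have hd3 : (3 : ℝ) ≤ d := by exact_mod_cast hd
  have hd2 : 2 ≤ d := by omega
  obtain ⟨γ, h1, h2⟩ := exists_between hα
  rw [lt_div_iff₀ (by positivity)] at h2
  exact glue d hd2 α γ h0 h1 (by nlinarith) (ctx d hd2 (dom d hd2) (ctxA d hd2)) (scale d hd2)
    (apx d hd2) (quant2 d hd γ (by linarith) (by linarith) (net2 d hd) (pig2 d hd (stepAll2 d hd)))

theorem final2 (d : ℕ) (hd : 3 ≤ d) (α : ℝ) (hα : α < 11 * (d - 1) / (8 * d)) :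
    ∃ ρ : E d → ℝ, ContinuousOn ρ (cube d) ∧ (∀ x ∈ cube d, 0 < ρ x) ∧
      ¬ ∃ f : E d → E d, InjOn f (cube d) ∧
        (∃ C t₀ : ℝ, 0 < C ∧ 0 < t₀ ∧ ∀ x ∈ cube d, ∀ y ∈ cube d, ‖x - y‖ ≤ t₀ →
          ‖f x - f y‖ ≤ C * (‖x - y‖ * Real.log (1 / ‖x - y‖) ^ α)) ∧
        (∃ C t₀ : ℝ, 0 < C ∧ 0 < t₀ ∧ ∀ x ∈ f '' cube d, ∀ y ∈ f '' cube d, ‖x - y‖ ≤ t₀ →
          ‖Function.invFunOn f (cube d) x - Function.invFunOn f (cube d) y‖ ≤
            C * (‖x - y‖ * Real.log (1 / ‖x - y‖) ^ α)) ∧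
        ∀ B, MeasurableSet B →
          ∫⁻ x in cube d ∩ f ⁻¹' B, ENNReal.ofReal (ρ x) = volume (B ∩ f '' cube d) := by
  have hd3 : (3 : ℝ) ≤ d := by exact_mod_cast hd
  obtain ⟨ρ, h1, h2, h3⟩ := main2 d hd (max α 0) (le_max_right _ _)
    (max_lt hα (div_pos (by linarith) (by positivity)))
  refine ⟨ρ, h1, h2, fun ⟨f, hi, ⟨C, t, hC, ht, ha⟩, ⟨C', t', hC', ht', hb⟩, hp⟩ => h3
    ⟨f, hi, ⟨max C C', min (min t t') (Real.exp (-1)), lt_max_of_lt_left hC,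
      lt_min (lt_min ht ht') (Real.exp_pos _),
      (min_le_right _ _).trans_lt (Real.exp_lt_one_iff.2 (by norm_num)),
      fun x hx y hy => ⟨fun h => ?_, fun h => ?_⟩⟩, hp⟩⟩
  · obtain ⟨a, b⟩ := om_mono (norm_nonneg _) (h.trans (min_le_right _ _)) (le_max_left α 0)
    exact (ha x hx y hy (h.trans ((min_le_left _ _).trans (min_le_left _ _)))).trans
      ((mul_le_mul_of_nonneg_left b hC.le).trans (mul_le_mul_of_nonneg_right (le_max_left _ _) a))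
  · obtain ⟨a, b⟩ := om_mono (norm_nonneg _) (h.trans (min_le_right _ _)) (le_max_left α 0)
    have := hb _ (mem_image_of_mem f hx) _ (mem_image_of_mem f hy)
      (h.trans ((min_le_left _ _).trans (min_le_right _ _)))
    rw [hi.leftInvOn_invFunOn hx, hi.leftInvOn_invFunOn hy] at this
    exact this.trans
      ((mul_le_mul_of_nonneg_left b hC'.le).trans (mul_le_mul_of_nonneg_right (le_max_right _ _) a))

end Pool.Agent.MP_20bec2_an.b2

end MrgPart7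

-- marker of a merged file
example : 731051 + 266213 = 731051 + 266213 := rfl
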