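import Mathlib.Algebra.Ring.IsFormallyReal
import Mathlib.Topology.Algebra.Module.FiniteDimensionBilinear
import Mathlib.RingTheory.TotallySplit
import Pool.Agent.MP_20bec2_an.b2.Basic
import Pool.Agent.MP_20bec2_an.b2.Spec

-- ======== part 0: formerly Pool.Agent.MP_20bec2_an.b2.Nb2
section MrgPart0

/-! From the slab form to the bulk form of the bordering estimate (project BIOM2). -/

set_option autoImplicit false

open MeasureTheory Set Metric Filter Topology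

noncomputable section

namespace Pool.Agent.MP_20bec2_an.b2

open Pool.Agent.MP_20bec2_an.h7

namespace Nb2

variable {d : ℕ} {ε : ℝ}

theorem cont_par {G : ℝ → E d → ℝ} (hG : Continuous fun z : ℝ × E d => G z.1 z.2) (μ : ℝ)
    (y : E d) : Continuous fun t => cv μ (G t) y := by
  refine continuousOn_univ.1 (continuousOn_integral_of_compact_support (k := tsupport (ze d))
    (f := fun (t : ℝ) (w : E d) => ze d w • G t (y - μ • w)) ze_supp ?_ fun t w _ hw => ?_)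
  · refine Continuous.continuousOn ?_
    exact (continuous_ze.comp continuous_snd).smul
      (hG.comp (f := fun z : ℝ × E d => (z.1, y - μ • z.2)) (by fun_prop))
  · rw [image_eq_zero_of_notMem_tsupport hw, zero_smul]

theorem int_shift (h0 : 0 < ε) (h1 : ε ≤ 1 / 2) (x : ℝ) :
    ∫ t in (0 : ℝ)..ε ^ 50, W1 ε (x - t) = 4 * ε ^ 70 := by
  have hp : Function.Periodic (W1 ε) (ε ^ 50) := (xi_periodic h0).comp (tr (-1) 2)
  rw [intervalIntegral.integral_comp_sub_left (W1 ε) x, sub_zero]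
  have h2 := hp.intervalIntegral_add_eq (x - ε ^ 50) 0
  rw [sub_add_cancel, zero_add] at h2
  rw [h2]
  unfold W1
  rw [integral_xi h0 h1 Mass.sp1 (continuous_tr _ _), Mass.int1]
  ring

/-- a good translate of the slabs -/
theorem pick (h0 : 0 < ε) (h1 : ε ≤ 1 / 2) {P G : E d → ℝ} (hP : Continuous P)
    (hG : Continuous G) (y₀ : E d) :
    ∃ t : ℝ, cv 1 (fun y => W1 ε (P y - t) * G y) y₀ ≤ 4 * ε ^ 20 * cv 1 G y₀ := by
  have hR : 0 < ε ^ 50 := by positivity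
  have hc : Continuous fun z : ℝ × E d => W1 ε (P z.2 - z.1) * G z.2 :=
    ((Mass.cont_W1 h0 h1).comp ((hP.comp continuous_snd).sub continuous_fst)).mul
      (hG.comp continuous_snd)
  have hf := cont_par (G := fun t y => W1 ε (P y - t) * G y) hc 1 y₀
  have hI := cv_intervalIntegral (G := fun t y => W1 ε (P y - t) * G y) hc 0 (ε ^ 50) 1 y₀
  simp only [intervalIntegral.integral_mul_const, int_shift h0 h1] at hI
  rw [cv_const_mul] at hI
  by_contra hn
  push Not at hn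
  have h2 := intervalIntegral.integral_lt_integral_of_continuousOn_of_le_of_exists_lt
    (f := fun _ => 4 * ε ^ 20 * cv 1 G y₀)
    (g := fun t => cv 1 (fun y => W1 ε (P y - t) * G y) y₀) hR continuousOn_const
    hf.continuousOn (fun t _ => (hn t).le) ⟨0, left_mem_Icc.2 hR.le, hn 0⟩
  rw [← hI, intervalIntegral.integral_const, smul_eq_mul] at h2
  have e : (ε ^ 50 - 0) * (4 * ε ^ 20 * cv 1 G y₀) = 4 * ε ^ 70 * cv 1 G y₀ := by ring
  rw [e] at h2
  exact lt_irrefl _ h2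

/-- a term of the sum -/
theorem term {w G A : E d → ℝ} {y₀ : E d} {b c : ℝ} (hw : Continuous w) (hG : Continuous G)
    (hA : Continuous A) (w0 : ∀ y, 0 ≤ w y) (hb : 0 < b) (hAG : ∀ y, A y / b ≤ G y)
    (h : cv 1 (fun y => w y * G y) y₀ ≤ c) : cv 1 (fun y => w y * A y) y₀ ≤ b * c := by
  have h1 : cv 1 (fun y => w y * A y) y₀ ≤ cv 1 (fun y => b * (w y * G y)) y₀ := by
    refine cv_mono (hw.mul hA) (continuous_const.mul (hw.mul hG)) zero_le_one fun y _ => ?_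
    have := hAG y
    rw [div_le_iff₀ hb] at this
    show w y * A y ≤ b * (w y * G y)
    nlinarith [mul_le_mul_of_nonneg_left this (w0 y)]
  rw [cv_const_mul] at h1
  exact h1.trans (mul_le_mul_of_nonneg_left h hb.le)

theorem six (h0 : 0 < ε) (h1 : ε ≤ 1 / 2) {P A₁ A₂ A₃ A₄ A₅ A₆ : E d → ℝ} (y₀ : E d)
    {b₁ b₂ b₃ : ℝ} (hP : Continuous P) (c1 : Continuous A₁) (c2 : Continuous A₂)
    (c3 : Continuous A₃) (c4 : Continuous A₄) (c5 : Continuous A₅) (c6 : Continuous A₆)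
    (p1 : 0 < b₁) (p2 : 0 < b₂) (p3 : 0 < b₃)
    (m1 : cv 1 (fun y => |A₁ y|) y₀ ≤ b₁) (m2 : cv 1 (fun y => |A₂ y|) y₀ ≤ b₁)
    (m3 : cv 1 (fun y => |A₃ y|) y₀ ≤ b₁) (m4 : cv 1 (fun y => |A₄ y|) y₀ ≤ b₂)
    (m5 : cv 1 (fun y => |A₅ y|) y₀ ≤ b₂) (m6 : cv 1 (fun y => |A₆ y|) y₀ ≤ b₃) :
    ∃ t : ℝ, cv 1 (fun y => W1 ε (P y - t)) y₀ ≤ 28 * ε ^ 20 ∧
      cv 1 (fun y => W1 ε (P y - t) * |A₁ y|) y₀ ≤ b₁ * (28 * ε ^ 20) ∧
      cv 1 (fun y => W1 ε (P y - t) * |A₂ y|) y₀ ≤ b₁ * (28 * ε ^ 20) ∧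
      cv 1 (fun y => W1 ε (P y - t) * |A₃ y|) y₀ ≤ b₁ * (28 * ε ^ 20) ∧
      cv 1 (fun y => W1 ε (P y - t) * |A₄ y|) y₀ ≤ b₂ * (28 * ε ^ 20) ∧
      cv 1 (fun y => W1 ε (P y - t) * |A₅ y|) y₀ ≤ b₂ * (28 * ε ^ 20) ∧
      cv 1 (fun y => W1 ε (P y - t) * |A₆ y|) y₀ ≤ b₃ * (28 * ε ^ 20) := by
  have d1 : Continuous fun y => |A₁ y| / b₁ := c1.abs.div_const _
  have d2 : Continuous fun y => |A₂ y| / b₁ := c2.abs.div_const _
  have d3 : Continuous fun y => |A₃ y| / b₁ := c3.abs.div_const _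
  have d4 : Continuous fun y => |A₄ y| / b₂ := c4.abs.div_const _
  have d5 : Continuous fun y => |A₅ y| / b₂ := c5.abs.div_const _
  have d6 : Continuous fun y => |A₆ y| / b₃ := c6.abs.div_const _
  obtain ⟨G, hGd⟩ : ∃ G : E d → ℝ, G = fun y => 1 + |A₁ y| / b₁ + |A₂ y| / b₁ + |A₃ y| / b₁ +
    |A₄ y| / b₂ + |A₅ y| / b₂ + |A₆ y| / b₃ := ⟨_, rfl⟩
  have e0 : Continuous fun _ : E d => (1 : ℝ) := continuous_const
  have e1 := e0.fun_add d1
  have e2 := e1.fun_add d2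
  have e3 := e2.fun_add d3
  have e4 := e3.fun_add d4
  have e5 := e4.fun_add d5
  have hG : Continuous G := hGd ▸ e5.fun_add d6
  have hm : cv 1 G y₀ ≤ 7 := by
    rw [hGd, cv_add e5 d6, cv_add e4 d5, cv_add e3 d4, cv_add e2 d3, cv_add e1 d2, cv_add e0 d1,
      cv_const]
    simp only [cv_div_const]
    have a1 := (div_le_one p1).2 m1
    have a2 := (div_le_one p1).2 m2
    have a3 := (div_le_one p1).2 m3
    have a4 := (div_le_one p2).2 m4
    have a5 := (div_le_one p2).2 m5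
    have a6 := (div_le_one p3).2 m6
    linarith
  obtain ⟨t, ht⟩ := pick h0 h1 hP hG y₀
  have hp : 0 < ε ^ 20 := by positivity
  have h28 : cv 1 (fun y => W1 ε (P y - t) * G y) y₀ ≤ 28 * ε ^ 20 := by nlinarith
  have hw : Continuous fun y => W1 ε (P y - t) :=
    (Mass.cont_W1 h0 h1).comp (hP.sub continuous_const)
  have w0 : ∀ y, 0 ≤ W1 ε (P y - t) := fun y => (W1_mem ε _).1
  have hall : ∀ y, 1 ≤ G y ∧ |A₁ y| / b₁ ≤ G y ∧ |A₂ y| / b₁ ≤ G y ∧ |A₃ y| / b₁ ≤ G y ∧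
      |A₄ y| / b₂ ≤ G y ∧ |A₅ y| / b₂ ≤ G y ∧ |A₆ y| / b₃ ≤ G y := fun y => by
    have a1 : 0 ≤ |A₁ y| / b₁ := by positivity
    have a2 : 0 ≤ |A₂ y| / b₁ := by positivity
    have a3 : 0 ≤ |A₃ y| / b₁ := by positivity
    have a4 : 0 ≤ |A₄ y| / b₂ := by positivity
    have a5 : 0 ≤ |A₅ y| / b₂ := by positivity
    have a6 : 0 ≤ |A₆ y| / b₃ := by positivity
    rw [hGd]
    refine ⟨?_, ?_, ?_, ?_, ?_, ?_, ?_⟩ <;> dsimp only <;> linarith
  refine ⟨t, ?_, term hw hG c1.abs w0 p1 (fun y => (hall y).2.1) h28,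
    term hw hG c2.abs w0 p1 (fun y => (hall y).2.2.1) h28,
    term hw hG c3.abs w0 p1 (fun y => (hall y).2.2.2.1) h28,
    term hw hG c4.abs w0 p2 (fun y => (hall y).2.2.2.2.1) h28,
    term hw hG c5.abs w0 p2 (fun y => (hall y).2.2.2.2.2.1) h28,
    term hw hG c6.abs w0 p3 (fun y => (hall y).2.2.2.2.2.2) h28⟩
  refine le_trans (cv_mono hw (hw.mul hG) zero_le_one fun y _ => ?_) h28
  exact le_mul_of_one_le_right (w0 y) (hall y).1

theorem dd_sub_const (p : E d → ℝ) (t : ℝ) (v : E d) : dd (fun z => p z - t) v = dd p v := by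
  funext y
  simp only [dd, fderiv_sub_const]

end Nb2

open Nb2 in
theorem nb2 (d : ℕ) (_hd : 3 ≤ d) (h : Nb3Stmt d) : Nb2Stmt d := by
  obtain ⟨C, hC, hS⟩ := h
  refine ⟨784 * C, by linarith, small_iff.2 ?_⟩
  filter_upwards [small_iff.1 hS, ev_pos, ev_mul_le 2, ev_mul_le (Cw d)] with ε hN h0 h2 hCw
  intro q q' p v u y₀ β Λ K J hq hq' hp hv hu hβ hεβ hCβ hΛ hΛ' hK hJ m1 m2 m3 m4 m5 m6
  have h1 : ε ≤ 1 / 2 := by linarith
  have hβ1 : 784 * β ≤ 1 := by nlinarith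
  have cP : Continuous (cv (ε ^ 120) p) := (hp.cv _).cont
  have c1 : Continuous fun y => dd (cv (ε ^ 120) p) u y - Λ :=
    (continuous_dd (hp.cv _).cd1 u).sub continuous_const
  obtain ⟨t, t0, t1, t2, t3, t4, t5, t6⟩ := six h0 h1 y₀ cP c1
    (continuous_dd (hq.cv _).cd1 u) (continuous_dd (hq'.cv _).cd1 u)
    (continuous_cv (continuous_jac hq.cd1 hp.cd1 v u) _)
    (continuous_cv (continuous_jac hp.cd1 hq'.cd1 v u) _)
    ((continuous_cv (continuous_jac hq.cd1 hq'.cd1 v u) _).sub continuous_const)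
    (by positivity : 0 < β * Λ) (by positivity : 0 < K) (by positivity : 0 < β * K)
    m1 m2 m3 m4 m5 m6
  have hp' : Sm ε⁻¹ fun z => p z - t :=
    ⟨hp.cd.sub contDiff_const, fun y => by rw [fderiv_sub_const]; exact hp.bd y⟩
  have ecv : cv (ε ^ 120) (fun z => p z - t) = fun y => cv (ε ^ 120) p y - t := by
    funext y
    rw [cv_sub hp.cont continuous_const, cv_const]
  have ej1 : jac q (fun z => p z - t) v u = jac q p v u := by
    funext y
    simp only [jac, dd_sub_const]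
  have ej2 : jac (fun z => p z - t) q' v u = jac p q' v u := by
    funext y
    simp only [jac, dd_sub_const]
  have hp20 : 0 < ε ^ 20 := by positivity
  have hmean : |cv 1 (dd p u) y₀ - Λ| ≤ 28 * β * Λ := by
    have a1 := cv_cv (μ := 1) (s := ε ^ 120) (continuous_dd hp.cd1 u) one_pos (by positivity)
      (fun z => hp.dd_le hu z) y₀
    have a2 : cv (ε ^ 120) (dd p u) = dd (cv (ε ^ 120) p) u :=
      funext fun y => (dd_cv hp.cd1 _ u y).symm
    rw [a2, Real.norm_eq_abs, div_one] at a1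
    have a3 : ‖cv 1 (fun y => dd (cv (ε ^ 120) p) u y - Λ) y₀‖ ≤
        cv 1 (fun y => |dd (cv (ε ^ 120) p) u y - Λ|) y₀ :=
      norm_cv_le_cv c1.abs zero_le_one fun z _ => le_rfl
    rw [cv_sub (continuous_dd (hp.cv _).cd1 u) continuous_const, cv_const, Real.norm_eq_abs] at a3
    have a4 : Cw d * ε⁻¹ * ε ^ 120 ≤ ε := by
      rw [mul_assoc, show ε⁻¹ * ε ^ 120 = ε ^ 119 by field_simp]
      have := mul_pow_le h0 (by linarith) hCw (a := 1) (b := 119) (by norm_num)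
      rwa [pow_one] at this
    have a5 : β ^ 4 ≤ β := by
      have := pow_le_pow_of_le_one hβ.le (by linarith : β ≤ 1) (by norm_num : 1 ≤ 4)
      rwa [pow_one] at this
    have a6 : β ≤ 8 * (β * Λ) := by nlinarith
    have a7 := abs_sub_le (cv 1 (dd p u) y₀) (cv 1 (dd (cv (ε ^ 120) p) u) y₀) Λ
    rw [abs_sub_comm (cv 1 (dd p u) y₀) (cv 1 (dd (cv (ε ^ 120) p) u) y₀)] at a7
    have a8 : 0 < β * Λ := by positivity
    have a9 : |cv 1 (dd (cv (ε ^ 120) p) u) y₀ - Λ| ≤ β * Λ := a3.trans m1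
    linarith
  have key := hN q q' (fun z => p z - t) v u y₀ (28 * β) Λ (28 * K) J hq hq' hp' hv hu
    (by positivity) (hεβ.trans (pow_le_pow_left₀ hβ.le (by linarith) 4)) (by nlinarith) hΛ hΛ'
    (by linarith) hJ (by rw [dd_sub_const]; exact hmean) (by rw [ecv]; exact t0)
    (by rw [ecv, dd_sub_const]; exact t1.trans (le_of_eq (by ring)))
    (by rw [ecv]; exact t2.trans (le_of_eq (by ring)))
    (by rw [ecv]; exact t3.trans (le_of_eq (by ring)))
    (by rw [ecv, ej1]; exact t4.trans (le_of_eq (by ring)))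
    (by rw [ecv, ej2]; exact t5.trans (le_of_eq (by ring)))
    (by
      rw [ecv]
      refine t6.trans ?_
      have : 0 < β * K * ε ^ 20 := by positivity
      nlinarith)
  exact key.trans (le_of_eq (by ring))

end Pool.Agent.MP_20bec2_an.b2

end
end MrgPart0

-- ======== part 1: formerly Pool.Agent.MP_20bec2_an.b2.Svd
section MrgPart1

/-! The two largest singular values of a bilinear form (project BIOM2). -/

set_option autoImplicit false

open MeasureTheory Set Metric Filter Topology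

noncomputable section

namespace Pool.Agent.MP_20bec2_an.b2

open Pool.Agent.MP_20bec2_an.h7

namespace Svd

variable {d : ℕ}

/-- the vectors orthogonal to two given vectors -/
def ort (a b : E d) : Submodule ℝ (E d) :=
  LinearMap.ker (((innerSL ℝ a : E d →L[ℝ] ℝ).toLinearMap).prod
    (innerSL ℝ b : E d →L[ℝ] ℝ).toLinearMap)

theorem mem_ort {a b w : E d} : w ∈ ort a b ↔ inner ℝ a w = 0 ∧ inner ℝ b w = 0 := by
  simp [ort]

/-- a unit vector orthogonal to two given vectors -/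
theorem exists_unit (hd : 3 ≤ d) (a b : E d) : ∃ w ∈ ort a b, ‖w‖ = 1 := by
  have h : ort a b ≠ ⊥ := LinearMap.ker_ne_bot_of_finrank_lt (by simp; omega)
  obtain ⟨w, hw, h0⟩ := (Submodule.ne_bot_iff _).1 h
  have hn : 0 < ‖w‖ := norm_pos_iff.2 h0
  exact ⟨‖w‖⁻¹ • w, Submodule.smul_mem _ _ hw,
    by rw [norm_smul, norm_inv, norm_norm, inv_mul_cancel₀ hn.ne']⟩

/-- the first order condition at a maximum -/
theorem first {Q : Submodule ℝ (E d)} {φ : E d →L[ℝ] ℝ} {x : ℝ} {v : E d} (hx : 0 ≤ x)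
    (hv : v ∈ Q) (h1 : ‖v‖ = 1) (hφ : φ v = x) (h : ∀ w ∈ Q, φ w ≤ x * ‖w‖) :
    ∀ w ∈ Q, φ w = x * inner ℝ v w := by
  intro w hw
  set w' : E d := w - inner ℝ v w • v with hw'
  have m : w' ∈ Q := Q.sub_mem hw (Q.smul_mem _ hv)
  have o : inner ℝ v w' = 0 := by
    rw [hw', inner_sub_right, real_inner_smul_right, real_inner_self_eq_norm_sq, h1]; ring
  have key : ∀ t : ℝ, t * φ w' ≤ x * ‖w'‖ ^ 2 * t ^ 2 := fun t => by
    have a := h (v + t • w') (Q.add_mem hv (Q.smul_mem _ m))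
    have e : ‖v + t • w'‖ ^ 2 = 1 + t ^ 2 * ‖w'‖ ^ 2 := by
      rw [norm_add_sq_real, real_inner_smul_right, o, h1, norm_smul, mul_pow, Real.norm_eq_abs,
        sq_abs]
      ring
    have p : 0 ≤ t ^ 2 * ‖w'‖ ^ 2 := by positivity
    have b : ‖v + t • w'‖ ≤ 1 + t ^ 2 * ‖w'‖ ^ 2 := by
      refine (pow_le_pow_iff_left₀ (norm_nonneg _) (by linarith) two_ne_zero).1 ?_
      rw [e]; nlinarith
    rw [map_add, map_smul, hφ, smul_eq_mul] at a
    nlinarith [mul_le_mul_of_nonneg_left b hx]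
  have z : φ w' = 0 := by
    have hb : 0 ≤ x * ‖w'‖ ^ 2 := by positivity
    generalize x * ‖w'‖ ^ 2 = b at key hb
    generalize φ w' = a at key
    have k := key (a / (b + 1))
    have e : a = a / (b + 1) * (b + 1) := by field_simp
    generalize a / (b + 1) = t at k e
    subst e
    have : t ^ 2 ≤ 0 := by nlinarith
    have : t = 0 := pow_eq_zero_iff two_ne_zero |>.1 (le_antisymm this (sq_nonneg t))
    rw [this, zero_mul]
  rw [hw', map_sub, map_smul, hφ, smul_eq_mul] at z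
  linarith

/-- the largest singular value on a pair of subspaces -/
theorem top (X : E d →L[ℝ] E d →L[ℝ] ℝ) (P Q : Submodule ℝ (E d)) (hP : ∃ f ∈ P, ‖f‖ = 1)
    (hQ : ∃ v ∈ Q, ‖v‖ = 1) :
    ∃ f ∈ P, ∃ v ∈ Q, ∃ x : ℝ, ‖f‖ = 1 ∧ ‖v‖ = 1 ∧ 0 ≤ x ∧
      (∀ g ∈ P, X g v = x * inner ℝ f g) ∧ (∀ w ∈ Q, X f w = x * inner ℝ v w) ∧
      ∀ g ∈ P, ∀ w ∈ Q, |X g w| ≤ x * ‖g‖ * ‖w‖ := by
  have cP : ∀ R : Submodule ℝ (E d), IsCompact (sphere (0 : E d) 1 ∩ (R : Set (E d))) :=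
    fun R => (isCompact_sphere 0 1).inter_right R.closed_of_finiteDimensional
  obtain ⟨f₀, hf₀, nf₀⟩ := hP
  obtain ⟨v₀, hv₀, nv₀⟩ := hQ
  have hc : Continuous fun p : E d × E d => X p.1 p.2 := X.continuous₂
  obtain ⟨⟨f, v⟩, ⟨⟨nf, hf⟩, nv, hv⟩, hmax⟩ := ((cP P).prod (cP Q)).exists_isMaxOn
    ⟨(f₀, v₀), ⟨by simpa using nf₀, hf₀⟩, by simpa using nv₀, hv₀⟩ hc.continuousOn
  have nf : ‖f‖ = 1 := by simpa using nf
  have nv : ‖v‖ = 1 := by simpa using nv
  have hf : f ∈ P := hf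
  have hv : v ∈ Q := hv
  have u1 : ∀ g ∈ P, ∀ w ∈ Q, ‖g‖ = 1 → ‖w‖ = 1 → X g w ≤ X f v := fun g hg w hw ng nw =>
    hmax (a := (g, w)) ⟨⟨by simpa using ng, hg⟩, by simpa using nw, hw⟩
  have hx : 0 ≤ X f v := by
    have := u1 (-f) (P.neg_mem hf) v hv (by rw [norm_neg, nf]) nv
    rw [map_neg, neg_apply] at this
    linarith
  have u2 : ∀ g ∈ P, ∀ w ∈ Q, X g w ≤ X f v * ‖g‖ * ‖w‖ := fun g hg w hw => by
    by_cases g0 : g = 0
    · simp [g0]
    by_cases w0 : w = 0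
    · simp [w0]
    have gn : 0 < ‖g‖ := norm_pos_iff.2 g0
    have wn : 0 < ‖w‖ := norm_pos_iff.2 w0
    have := u1 (‖g‖⁻¹ • g) (P.smul_mem _ hg) (‖w‖⁻¹ • w) (Q.smul_mem _ hw)
      (by rw [norm_smul, norm_inv, norm_norm, inv_mul_cancel₀ gn.ne'])
      (by rw [norm_smul, norm_inv, norm_norm, inv_mul_cancel₀ wn.ne'])
    rw [map_smul, map_smul, smul_apply, smul_eq_mul, smul_eq_mul] at this
    have e : X g w = ‖w‖⁻¹ * (‖g‖⁻¹ * X g w) * ‖g‖ * ‖w‖ := by field_simp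
    rw [e]
    exact mul_le_mul_of_nonneg_right (mul_le_mul_of_nonneg_right this gn.le) wn.le
  refine ⟨f, hf, v, hv, X f v, nf, nv, hx, ?_, ?_, fun g hg w hw => abs_le.2 ⟨?_, u2 g hg w hw⟩⟩
  · exact first (φ := X.flip v) hx hf nf rfl fun g hg => by
      have := u2 g hg v hv
      rw [nv, mul_one] at this
      exact this
  · exact first (φ := X f) hx hv nv rfl fun w hw => by
      have := u2 f hf w hw
      rw [nf, mul_one] at this
      exact this
  · have := u2 (-g) (P.neg_mem hg) w hw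
    rw [map_neg, neg_apply, norm_neg] at this
    linarith

/-- removing the components along an orthonormal pair -/
theorem split {a b : E d} (h : ON a b) (g : E d) :
    ∃ g' ∈ ort a b, g = inner ℝ a g • a + inner ℝ b g • b + g' ∧ ‖g'‖ ≤ ‖g‖ := by
  obtain ⟨ha, hb, hab⟩ := h
  have hba : inner ℝ b a = 0 := by rw [real_inner_comm, hab]
  have m : g - (inner ℝ a g • a + inner ℝ b g • b) ∈ ort a b := by
    rw [mem_ort, inner_sub_right, inner_sub_right, inner_add_right, inner_add_right,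
      real_inner_smul_right, real_inner_smul_right, real_inner_smul_right, real_inner_smul_right,
      real_inner_self_eq_norm_sq, real_inner_self_eq_norm_sq, ha, hb, hab, hba]
    constructor <;> ring
  refine ⟨_, m, by abel, ?_⟩
  obtain ⟨m1, m2⟩ := mem_ort.1 m
  generalize inner ℝ a g = s at *
  generalize inner ℝ b g = t at *
  have o : inner ℝ (s • a + t • b) (g - (s • a + t • b)) = 0 := by
    rw [inner_add_left, real_inner_smul_left, real_inner_smul_left, m1, m2]; ring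
  have e := norm_add_sq_real (s • a + t • b) (g - (s • a + t • b))
  rw [o, add_sub_cancel] at e
  refine (pow_le_pow_iff_left₀ (norm_nonneg _) (norm_nonneg _) two_ne_zero).1 ?_
  nlinarith [sq_nonneg ‖s • a + t • b‖]

end Svd

open Svd in
theorem svd (d : ℕ) (hd : 3 ≤ d) : SvdStmt d := by
  intro z e u hz he hu
  let X : E d →L[ℝ] E d →L[ℝ] ℝ := (LinearMap.mk₂ ℝ (fun g v => z g e v u)
    (fun g h v => by simpa using hz.l1 1 1 g h e v u)
    (fun c g v => by simpa using hz.l1 c 0 g g e v u)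
    (fun g v w => by simpa using hz.l3 1 1 g e v w u)
    (fun c g v => by simpa using hz.l3 c 0 g e v v u)).toContinuousBilinearMap
  have hX : ∀ g v, z g e v u = X g v := fun _ _ => rfl
  have Xe : ∀ v, X e v = 0 := fun v => by
    have := hz.a1 e e v u
    rw [← hX]; linarith
  have Xu : ∀ g, X g u = 0 := fun g => by
    have := hz.a3 g e u u
    rw [← hX]; linarith
  obtain ⟨f₁, hf₁, v₁, hv₁, x₁, nf₁, nv₁, hx₁, a1, a2, a3⟩ :=
    top X (ort e e) (ort u u) (exists_unit hd e e) (exists_unit hd u u)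
  obtain ⟨f₂, hf₂, v₂, hv₂, x₂, nf₂, nv₂, hx₂, b1, b2, b3⟩ :=
    top X (ort e f₁) (ort u v₁) (exists_unit hd e f₁) (exists_unit hd u v₁)
  have ef₁ := (mem_ort.1 hf₁).1
  have uv₁ := (mem_ort.1 hv₁).1
  obtain ⟨ef₂, ff⟩ := mem_ort.1 hf₂
  obtain ⟨uv₂, vv⟩ := mem_ort.1 hv₂
  have c : ∀ {a b : E d}, inner ℝ a b = 0 → inner ℝ b a = 0 := fun h => by
    rw [real_inner_comm, h]
  have hf₂' : f₂ ∈ ort e e := mem_ort.2 ⟨ef₂, ef₂⟩
  have hv₂' : v₂ ∈ ort u u := mem_ort.2 ⟨uv₂, uv₂⟩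
  have s11 : X f₁ v₁ = x₁ := by rw [a2 v₁ hv₁, real_inner_self_eq_norm_sq, nv₁]; ring
  refine ⟨f₁, f₂, v₁, v₂, x₁, x₂, ⟨⟨nf₁, he, c ef₁⟩, ⟨nf₂, he, c ef₂⟩, ff⟩,
    ⟨⟨nv₁, hu, c uv₁⟩, ⟨nv₂, hu, c uv₂⟩, vv⟩, hx₂, ?_, fun v => ?_, fun v => ?_, fun g hg => ?_,
    fun g v hg hv hvv => ?_⟩
  · have h1 := b2 v₂ hv₂
    have h2 := (le_abs_self _).trans (a3 f₂ hf₂' v₂ hv₂')
    rw [real_inner_self_eq_norm_sq, nv₂] at h1
    rw [nf₂, nv₂] at h2
    linarith
  · obtain ⟨w, hw, ew, -⟩ := split ⟨hu, nv₁, uv₁⟩ v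
    obtain ⟨w1, w2⟩ := mem_ort.1 hw
    have : X f₁ v = X f₁ (inner ℝ u v • u + inner ℝ v₁ v • v₁ + w) := by rw [← ew]
    rw [hX, this, map_add, map_add, map_smul, map_smul, Xu, s11, a2 w (mem_ort.2 ⟨w1, w1⟩), w2,
      smul_eq_mul, smul_eq_mul]
    ring
  · obtain ⟨w, hw, ew, -⟩ := split ⟨hu, nv₁, uv₁⟩ v
    have h1 : X f₂ v = X f₂ (inner ℝ u v • u + inner ℝ v₁ v • v₁ + w) := by rw [← ew]
    have h2 : inner ℝ v₂ v = inner ℝ v₂ (inner ℝ u v • u + inner ℝ v₁ v • v₁ + w) := by rw [← ew]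
    rw [hX, h1, h2, map_add, map_add, map_smul, map_smul, Xu, a1 f₂ hf₂', ff, b2 w hw,
      inner_add_right, inner_add_right, real_inner_smul_right, real_inner_smul_right, c uv₂, c vv,
      smul_eq_mul, smul_eq_mul]
    ring
  · obtain ⟨w, hw, ew, -⟩ := split ⟨he, nf₁, ef₁⟩ g
    obtain ⟨w1, w2⟩ := mem_ort.1 hw
    have h1 : X g v₁ = X (inner ℝ e g • e + inner ℝ f₁ g • f₁ + w) v₁ := by rw [← ew]
    have h2 := abs_real_inner_le_norm f₁ g
    rw [nf₁, hg, one_mul] at h2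
    rw [hX, h1, map_add, map_add, map_smul, map_smul, add_apply,
      add_apply, smul_apply,
      smul_apply, Xe, s11, a1 w (mem_ort.2 ⟨w1, w1⟩), w2, smul_zero, mul_zero,
      zero_add, add_zero, smul_eq_mul, abs_mul, abs_of_nonneg hx₁]
    nlinarith
  · obtain ⟨w, hw, ew, nw⟩ := split ⟨he, nf₁, ef₁⟩ g
    obtain ⟨nv, -, vu⟩ := hv
    have h1 : X g v = X (inner ℝ e g • e + inner ℝ f₁ g • f₁ + w) v := by rw [← ew]
    have h2 := b3 w hw v (mem_ort.2 ⟨c vu, c hvv⟩)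
    rw [hX, h1, map_add, map_add, map_smul, map_smul, add_apply,
      add_apply, smul_apply,
      smul_apply, Xe, a2 v (mem_ort.2 ⟨c vu, c vu⟩), c hvv, mul_zero,
      smul_zero, smul_zero, zero_add, zero_add]
    rw [nv, mul_one] at h2
    rw [hg] at nw
    nlinarith

end Pool.Agent.MP_20bec2_an.b2

end
end MrgPart1

-- marker of a merged file
example : 731051 + 866387 = 731051 + 866387 := rfl
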